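import Mathlib
import Pool.Agent.N989.MK.Defs

/-!
# Blocks and gauge invariant functions of the hierarchical squares
-/

open MeasureTheory Pool.Agent.N989.MK

namespace Pool.Agent.N991.MK

noncomputable section

/-- The edge of the square of level `k + j` which is the edge `e` of its block `α`, a square of
level `k`. -/
def blk {k : ℕ} : ∀ {j : ℕ}, Pq j → Ed k → Ed (k + j)
  | 0, _, e => e
  | _ + 1, (s, q, α), e => emb s q (blk α e)

variable {G : Type*} [Group G]

/-- `a` and `b` are the values of a gauge transformation at the sources and at the targets of the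
edges: the values which belong to the same corner of a plaquette agree, for every plaquette. -/
def Gauge {n : ℕ} (a b : Ed n → G) : Prop :=
  ∀ p : Pq n, a (bd n p 0) = a (bd n p 3) ∧ b (bd n p 0) = a (bd n p 1) ∧
    b (bd n p 1) = b (bd n p 2) ∧ b (bd n p 3) = a (bd n p 2)

/-- `A` is a gauge invariant function of the field. -/
def GaugeInv {n : ℕ} (A : (Ed n → G) → ℝ) : Prop :=
  ∀ a b : Ed n → G, Gauge a b → ∀ U, A (fun e => a e * U e * (b e)⁻¹) = A U

end

end Pool.Agent.N991.MK
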