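import Mathlib

/-!
# Convolution of class functions on a compact group
-/

open MeasureTheory

namespace Pool.Agent.N991.MK

set_option linter.unusedSectionVars false

noncomputable section

variable {G : Type*} [Group G] [TopologicalSpace G] [IsTopologicalGroup G] [CompactSpace G]
  [MeasurableSpace G] [BorelSpace G] [SecondCountableTopology G]
  (μ : Measure G) [IsProbabilityMeasure μ] [μ.IsMulLeftInvariant] [μ.IsMulRightInvariant]
  [μ.IsInvInvariant]

/-- class functions -/
def Cls (f : G → ℝ) : Prop := ∀ g x, f (g * x * g⁻¹) = f x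

/-- symmetric functions -/
def Sy (f : G → ℝ) : Prop := ∀ x, f x⁻¹ = f x

/-- convolution -/
def conv (f k : G → ℝ) (x : G) : ℝ := ∫ y, f y * k (y⁻¹ * x) ∂μ

variable {μ}

omit [TopologicalSpace G] [IsTopologicalGroup G] [CompactSpace G] [MeasurableSpace G]
  [BorelSpace G] [SecondCountableTopology G] in
lemma Cls.swap {f : G → ℝ} (hf : Cls f) (x y : G) : f (x * y) = f (y * x) := by
  have := hf x (y * x)
  rw [← this]
  congr 1
  group

/-- the convolution at a square -/
lemma conv_sq {f k : G → ℝ} (hf : Cls f) (hk : Cls k) (w : G) :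
    conv μ f k (w * w) = ∫ g, f (g * w) * k (g⁻¹ * w) ∂μ := by
  unfold conv
  rw [← integral_mul_right_eq_self (μ := μ) (fun y => f y * k (y⁻¹ * (w * w))) w]
  refine integral_congr_ae (Filter.Eventually.of_forall fun g => ?_)
  beta_reduce
  congr 1
  have h1 : (g * w)⁻¹ * (w * w) = w⁻¹ * (g⁻¹ * w) * w⁻¹⁻¹ := by group
  rw [h1, hk]

lemma integrable_of_cont {f : G → ℝ} (hf : Continuous f) : Integrable f μ :=
  hf.integrable_of_hasCompactSupport (HasCompactSupport.of_compactSpace _)

lemma conv_cls {f k : G → ℝ} (hf : Cls f) (hk : Cls k) : Cls (conv μ f k) := by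
  intro g x
  unfold conv
  rw [← integral_mul_left_eq_self (μ := μ) (fun y => f y * k (y⁻¹ * (g * x * g⁻¹))) g,
    ← integral_mul_right_eq_self (μ := μ) _ g⁻¹]
  refine integral_congr_ae (Filter.Eventually.of_forall fun y => ?_)
  beta_reduce
  have h1 : g * (y * g⁻¹) = g * y * g⁻¹ := by group
  have h2 : (g * (y * g⁻¹))⁻¹ * (g * x * g⁻¹) = g * (y⁻¹ * x) * g⁻¹ := by group
  rw [h2, hk, h1, hf]

lemma conv_comm {f k : G → ℝ} (hf : Cls f) (hk : Cls k) : conv μ f k = conv μ k f := by
  funext x
  unfold conv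
  rw [← integral_inv_eq_self (μ := μ) (fun y => f y * k (y⁻¹ * x)),
    ← integral_mul_left_eq_self (μ := μ) _ x⁻¹]
  refine integral_congr_ae (Filter.Eventually.of_forall fun y => ?_)
  beta_reduce
  have h1 : (x⁻¹ * y)⁻¹ = y⁻¹ * x := by group
  have h2 : (x⁻¹ * y)⁻¹⁻¹ * x = x⁻¹ * y * x⁻¹⁻¹ := by group
  rw [h2, hk, h1, mul_comm]

lemma conv_sy {f k : G → ℝ} (hf : Cls f) (hk : Cls k) (hfs : Sy f) (hks : Sy k) :
    Sy (conv μ f k) := by
  intro x
  unfold conv
  rw [← integral_inv_eq_self (μ := μ) (fun y => f y * k (y⁻¹ * x⁻¹))]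
  refine integral_congr_ae (Filter.Eventually.of_forall fun y => ?_)
  beta_reduce
  rw [hfs, inv_inv]
  congr 1
  have h1 : y * x⁻¹ = (x * y⁻¹)⁻¹ := by group
  rw [h1, hks, hk.swap]

/-- a convolution with shifted arguments -/
lemma conv_mul {f k : G → ℝ} (x a b : G) :
    conv μ f k (x * a * b) = ∫ u, f (x * a * u) * k (u⁻¹ * b) ∂μ := by
  unfold conv
  rw [← integral_mul_left_eq_self (μ := μ) (fun y => f y * k (y⁻¹ * (x * a * b))) (x * a)]
  refine integral_congr_ae (Filter.Eventually.of_forall fun u => ?_)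
  beta_reduce
  congr 2
  group

lemma conv_one {f : G → ℝ} (hfs : Sy f) : conv μ f f 1 = ∫ y, f y ^ 2 ∂μ := by
  unfold conv
  refine integral_congr_ae (Filter.Eventually.of_forall fun u => ?_)
  beta_reduce
  rw [mul_one, hfs, sq]

lemma cont_conv {f k : G → ℝ} (hf : Continuous f) (hk : Continuous k) :
    Continuous (conv μ f k) := by
  unfold conv
  have h := continuous_parametric_integral_of_continuous (μ := μ)
    (f := fun (x y : G) => f y * k (y⁻¹ * x)) (s := Set.univ) (by
      refine (hf.comp continuous_snd).mul (hk.comp ?_)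
      exact (continuous_snd.inv).mul continuous_fst) isCompact_univ
  simpa using h

lemma conv_pos {f k : G → ℝ} (hf : Continuous f) (hk : Continuous k) (hf0 : ∀ x, 0 < f x)
    (hk0 : ∀ x, 0 < k x) (x : G) : 0 < conv μ f k x := by
  unfold conv
  have hc : Continuous fun y => f y * k (y⁻¹ * x) :=
    hf.mul (hk.comp (continuous_inv.mul continuous_const))
  rw [integral_pos_iff_support_of_nonneg (fun y => (mul_pos (hf0 _) (hk0 _)).le)
    (integrable_of_cont hc)]
  have : Function.support (fun y => f y * k (y⁻¹ * x)) = Set.univ := by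
    ext y
    simp [(hf0 y).ne', (hk0 (y⁻¹ * x)).ne']
  rw [this]
  simp

end

end Pool.Agent.N991.MK
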