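import Mathlib
import Pool.Agent.N991.MK.GapDefs
import Pool.Agent.N989.MK.Part2

/-!
# Gauge transformations of the hierarchical squares
-/

open MeasureTheory Pool.Agent.N989.MK

namespace Pool.Agent.N991.MK

set_option linter.unusedSectionVars false

noncomputable section

section

variable {G : Type*} [Group G]

lemma hol_gauge {n : ℕ} {a b : Ed n → G} (h : Gauge a b) (U : Ed n → G) (p : Pq n) :
    hol (fun e => a e * U e * (b e)⁻¹) p = a (bd n p 0) * hol U p * (a (bd n p 0))⁻¹ := by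
  obtain ⟨h1, h2, h3, h4⟩ := h p
  unfold hol
  beta_reduce
  rw [h2, h3, h4, ← h1]
  group

lemma gauge_const {n : ℕ} (g : G) : Gauge (n := n) (fun _ => g) fun _ => g :=
  fun _ => ⟨rfl, rfl, rfl, rfl⟩

/-- the extension of a gauge transformation of the boundary -/
lemma gauge_ext : ∀ (n : ℕ) (g : Fin 4 → ℕ → G), g 0 0 = g 3 0 → g 0 (2 ^ n) = g 1 0 →
    g 1 (2 ^ n) = g 2 (2 ^ n) → g 3 (2 ^ n) = g 2 0 →
    ∃ a b : Ed n → G, Gauge a b ∧ ∀ (i : Fin 4) (k : Fin (2 ^ n)),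
      a (.inl (i, k)) = g i k ∧ b (.inl (i, k)) = g i (k + 1)
  | 0, g, h1, h2, h3, h4 => by
    refine ⟨fun e => match e with
      | .inl (i, k) => g i k
      | .inr _ => 1, fun e => match e with
      | .inl (i, k) => g i (k + 1)
      | .inr _ => 1, ?_, fun i k => ⟨rfl, rfl⟩⟩
    intro p
    exact ⟨h1, h2, h3, h4⟩
  | n + 1, g, h1, h2, h3, h4 => by
    have hn : (0 : ℕ) ≠ 2 ^ n := (Nat.pos_of_ne_zero (by positivity)).ne
    have e2 : 1 * 2 ^ n + 2 ^ n = 2 ^ (n + 1) := by rw [pow_succ]; omega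
    -- the middle paths
    obtain ⟨m, hm⟩ : ∃ m : Fin 4 → ℕ → G, m = ![fun k => if k = 0 then g 3 (2 ^ n) else 1,
      fun k => if k = 2 ^ n then g 1 (2 ^ n) else 1,
      fun k => if k = 0 then g 0 (2 ^ n) else 1,
      fun k => if k = 2 ^ n then g 2 (2 ^ n) else 1] := ⟨_, rfl⟩
    have m0 : m 0 0 = g 3 (2 ^ n) := by rw [hm]; simp
    have m0' : m 0 (2 ^ n) = 1 := by rw [hm]; simp
    have m1 : m 1 0 = 1 := by rw [hm]; simp [hn]
    have m1' : m 1 (2 ^ n) = g 1 (2 ^ n) := by rw [hm]; simp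
    have m2 : m 2 0 = g 0 (2 ^ n) := by rw [hm]; simp
    have m2' : m 2 (2 ^ n) = 1 := by rw [hm]; simp
    have m3 : m 3 0 = 1 := by rw [hm]; simp [hn]
    have m3' : m 3 (2 ^ n) = g 2 (2 ^ n) := by rw [hm]; simp
    -- the boundaries of the quarters
    obtain ⟨gq, hgq⟩ : ∃ gq : Fin 4 → Fin 4 → ℕ → G, gq = fun q i k => match side q i with
      | .inl (j, h) => g j (h * 2 ^ n + k)
      | .inr j => m j k := ⟨_, rfl⟩
    have h0 : ∀ x : ℕ, ((0 : Fin 2) : ℕ) * 2 ^ n + x = x := fun x => by simp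
    have h1' : ∀ x : ℕ, ((1 : Fin 2) : ℕ) * 2 ^ n + x = 1 * 2 ^ n + x := fun x => rfl
    have c : ∀ q : Fin 4, gq q 0 0 = gq q 3 0 ∧ gq q 0 (2 ^ n) = gq q 1 0 ∧
        gq q 1 (2 ^ n) = gq q 2 (2 ^ n) ∧ gq q 3 (2 ^ n) = gq q 2 0 := by
      intro q
      fin_cases q
      · have e0 : ∀ k, gq 0 0 k = g 0 k := fun k => by
          rw [hgq]; exact congrArg (g 0) (h0 k)
        have e1 : ∀ k, gq 0 1 k = m 2 k := fun k => by rw [hgq]; rfl
        have e2 : ∀ k, gq 0 2 k = m 0 k := fun k => by rw [hgq]; rfl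
        have e3 : ∀ k, gq 0 3 k = g 3 k := fun k => by
          rw [hgq]; exact congrArg (g 3) (h0 k)
        simp only [Fin.zero_eta]
        rw [e0, e0, e1, e1, e2, e2, e3, e3]
        exact ⟨h1, m2.symm, by rw [m2', m0'], m0.symm⟩
      · have e0 : ∀ k, gq 1 0 k = g 0 (1 * 2 ^ n + k) := fun k => by rw [hgq]; rfl
        have e1 : ∀ k, gq 1 1 k = g 1 k := fun k => by
          rw [hgq]; exact congrArg (g 1) (h0 k)
        have e3 : ∀ k, gq 1 2 k = m 1 k := fun k => by rw [hgq]; rfl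
        have e4 : ∀ k, gq 1 3 k = m 2 k := fun k => by rw [hgq]; rfl
        simp only [Fin.mk_one]
        rw [e0, e0, e1, e1, e3, e3, e4, e4, e2]
        refine ⟨?_, h2, m1'.symm, by rw [m2', m1]⟩
        rw [m2, one_mul, add_zero]
      · have e0 : ∀ k, gq 2 0 k = m 0 k := fun k => by rw [hgq]; rfl
        have e1 : ∀ k, gq 2 1 k = m 3 k := fun k => by rw [hgq]; rfl
        have e3 : ∀ k, gq 2 2 k = g 2 k := fun k => by
          rw [hgq]; exact congrArg (g 2) (h0 k)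
        have e4 : ∀ k, gq 2 3 k = g 3 (1 * 2 ^ n + k) := fun k => by rw [hgq]; rfl
        simp only [Fin.reduceFinMk]
        rw [e0, e0, e1, e1, e3, e3, e4, e4, e2]
        refine ⟨?_, by rw [m0', m3], m3', h4⟩
        rw [m0, one_mul, add_zero]
      · have e0 : ∀ k, gq 3 0 k = m 1 k := fun k => by rw [hgq]; rfl
        have e1 : ∀ k, gq 3 1 k = g 1 (1 * 2 ^ n + k) := fun k => by rw [hgq]; rfl
        have e3 : ∀ k, gq 3 2 k = g 2 (1 * 2 ^ n + k) := fun k => by rw [hgq]; rfl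
        have e4 : ∀ k, gq 3 3 k = m 3 k := fun k => by rw [hgq]; rfl
        simp only [Fin.reduceFinMk]
        rw [e0, e0, e1, e1, e3, e3, e4, e4, e2]
        refine ⟨by rw [m1, m3], ?_, h3, ?_⟩
        · rw [m1', one_mul, add_zero]
        · rw [m3', one_mul, add_zero]
    choose aq bq hab hbd using fun q : Fin 4 =>
      gauge_ext n (gq q) (c q).1 (c q).2.1 (c q).2.2.1 (c q).2.2.2
    obtain ⟨a, ha⟩ : ∃ a : Ed (n + 1) → G, a = fun e => match e with
      | .inl (j, k) => g j k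
      | .inr (.inl (_, j, k)) => m j k
      | .inr (.inr (_, q, e)) => aq q (.inr e) := ⟨_, rfl⟩
    obtain ⟨b, hb⟩ : ∃ b : Ed (n + 1) → G, b = fun e => match e with
      | .inl (j, k) => g j (k + 1)
      | .inr (.inl (_, j, k)) => m j (k + 1)
      | .inr (.inr (_, q, e)) => bq q (.inr e) := ⟨_, rfl⟩
    have ea : ∀ (s q : Fin 4) (e : Ed n), a (emb s q e) = aq q e := by
      intro s q e
      rcases e with ⟨i, k⟩ | e
      · rw [(hbd q i k).1, hgq]
        unfold emb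
        rcases hs : side q i with ⟨j, h⟩ | j
        · simp only [hs, ha, pos]
        · simp only [hs, ha]
      · rw [ha]
        rfl
    have eb : ∀ (s q : Fin 4) (e : Ed n), b (emb s q e) = bq q e := by
      intro s q e
      rcases e with ⟨i, k⟩ | e
      · rw [(hbd q i k).2, hgq]
        unfold emb
        rcases hs : side q i with ⟨j, h⟩ | j
        · simp only [hs, hb, pos, add_assoc]
        · simp only [hs, hb]
      · rw [hb]
        rfl
    refine ⟨a, b, ?_, fun i k => ⟨by rw [ha], by rw [hb]⟩⟩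
    rintro ⟨s, q, p⟩
    have hbd' : ∀ i, bd (n + 1) ((s, q, p) : Pq (n + 1)) i = emb s q (bd n p i) := fun i => rfl
    rw [hbd', hbd', hbd', hbd', ea, ea, ea, ea, eb, eb, eb, eb]
    exact hab q p

end

end

end Pool.Agent.N991.MK
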