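import Mathlib
import Pool.Agent.N991.MK.Gap1
import Pool.Agent.N989.MK.Lim

/-!
# The integral of a gauge invariant function over the interior of a square is a class function of the
holonomy of the boundary
-/

open MeasureTheory Pool.Agent.N989.MK

namespace Pool.Agent.N991.MK

set_option linter.unusedSectionVars false

noncomputable section

section

variable {G : Type*} [Group G]

/-- the partial products along a side -/
def psd {n : ℕ} (V : BE n → G) (i : Fin 4) (k : ℕ) : G :=
  ((List.ofFn fun j : Fin (2 ^ n) => V (i, j)).take k).prod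

lemma psd_zero {n : ℕ} (V : BE n → G) (i : Fin 4) : psd V i 0 = 1 := by
  unfold psd
  simp

lemma psd_full {n : ℕ} (V : BE n → G) (i : Fin 4) : psd V i (2 ^ n) = sd V i := by
  unfold psd sd
  rw [List.take_of_length_le]
  rw [List.length_ofFn]

lemma psd_succ {n : ℕ} (V : BE n → G) (i : Fin 4) (k : Fin (2 ^ n)) :
    psd V i (k + 1) = psd V i k * V (i, k) := by
  unfold psd
  rw [List.prod_take_succ _ _ (by rw [List.length_ofFn]; exact k.2)]
  rw [List.getElem_ofFn]

/-- the configurations of the boundary with one non-trivial variable -/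
def stdV (n : ℕ) (x : G) : BE n → G := fun e => if e.1 = 0 ∧ (e.2 : ℕ) = 0 then x else 1

/-- every configuration of the boundary is equivalent to a standard one -/
lemma exists_std {n : ℕ} (V : BE n → G) : ∃ a b : Ed n → G, Gauge a b ∧
    (fun e : BE n => a (.inl e) * V e * (b (.inl e))⁻¹) = stdV n (lp V) := by
  obtain ⟨g, hg⟩ : ∃ g : Fin 4 → ℕ → G, g = ![fun k => if k = 0 then 1 else (lp V)⁻¹ * psd V 0 k,
    fun k => sd V 3 * sd V 2 * (sd V 1)⁻¹ * psd V 1 k, fun k => sd V 3 * psd V 2 k,
    fun k => psd V 3 k] := ⟨_, rfl⟩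
  have hn : (2 : ℕ) ^ n ≠ 0 := by positivity
  have g0 : ∀ k, g 0 k = if k = 0 then 1 else (lp V)⁻¹ * psd V 0 k := fun k => by rw [hg]; rfl
  have g1 : ∀ k, g 1 k = sd V 3 * sd V 2 * (sd V 1)⁻¹ * psd V 1 k := fun k => by rw [hg]; rfl
  have g2 : ∀ k, g 2 k = sd V 3 * psd V 2 k := fun k => by rw [hg]; rfl
  have g3 : ∀ k, g 3 k = psd V 3 k := fun k => by rw [hg]; rfl
  obtain ⟨a, b, hab, h⟩ := gauge_ext n g (by rw [g0, if_pos rfl, g3, psd_zero])
    (by
      rw [g0, g1, psd_zero, psd_full, if_neg hn]
      unfold Pool.Agent.N989.MK.lp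
      group)
    (by rw [g1, g2, psd_full, psd_full]; group)
    (by rw [g3, g2, psd_full, psd_zero, mul_one])
  refine ⟨a, b, hab, ?_⟩
  funext e
  obtain ⟨i, k⟩ := e
  rw [(h i k).1, (h i k).2]
  unfold stdV
  fin_cases i
  · simp only [Fin.zero_eta, true_and]
    rw [g0, g0, if_neg (Nat.succ_ne_zero _), psd_succ]
    by_cases hk : (k : ℕ) = 0
    · rw [if_pos hk, if_pos hk, hk, psd_zero]
      group
    · rw [if_neg hk, if_neg hk]
      group
  · simp only [Fin.mk_one, Fin.isValue, one_ne_zero, false_and, if_false]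
    rw [g1, g1, psd_succ]
    group
  · have : ¬ ((⟨2, by norm_num⟩ : Fin 4) = 0 ∧ (k : ℕ) = 0) := by simp
    rw [if_neg this]
    simp only [Fin.reduceFinMk]
    rw [g2, g2, psd_succ]
    group
  · have : ¬ ((⟨3, by norm_num⟩ : Fin 4) = 0 ∧ (k : ℕ) = 0) := by simp
    rw [if_neg this]
    simp only [Fin.reduceFinMk]
    rw [g3, g3, psd_succ]
    group

lemma prod_fst (x : G) : ∀ M : ℕ, 0 < M →
    (List.ofFn fun k : Fin M => if (k : ℕ) = 0 then x else 1).prod = x
  | 0, h => absurd h (lt_irrefl _)
  | M + 1, _ => by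
    rw [List.ofFn_succ, List.prod_cons]
    have h2 : (List.ofFn fun i : Fin M => if ((Fin.succ i : Fin (M + 1)) : ℕ) = 0 then x else 1).prod
        = 1 := by
      refine List.prod_eq_one fun y hy => ?_
      rw [List.mem_ofFn] at hy
      obtain ⟨i, rfl⟩ := hy
      simp
    rw [h2]
    simp

lemma lp_stdV (n : ℕ) (x : G) : Pool.Agent.N989.MK.lp (stdV n x) = x := by
  have h0 : sd (stdV n x) 0 = x := by
    unfold sd stdV
    have := prod_fst x (2 ^ n) (by positivity)
    simpa using this
  have h1 : ∀ i : Fin 4, i ≠ 0 → sd (stdV n x) i = 1 := by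
    intro i hi
    unfold sd stdV
    refine List.prod_eq_one fun y hy => ?_
    rw [List.mem_ofFn] at hy
    obtain ⟨k, rfl⟩ := hy
    simp [hi]
  unfold Pool.Agent.N989.MK.lp
  rw [h0, h1 1 (by decide), h1 2 (by decide), h1 3 (by decide)]
  simp

lemma sd_conj {n : ℕ} (V : BE n → G) (g : G) (i : Fin 4) :
    sd (fun e => g * V e * g⁻¹) i = g * sd V i * g⁻¹ := by
  have h : ∀ (m : ℕ) (f : Fin m → G), (List.ofFn fun k => g * f k * g⁻¹).prod =
      g * (List.ofFn f).prod * g⁻¹ := by
    intro m
    induction m with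
    | zero => intro f; simp
    | succ m ih =>
      intro f
      rw [List.ofFn_succ, List.ofFn_succ, List.prod_cons, List.prod_cons, ih]
      group
  exact h _ _

lemma lp_conj {n : ℕ} (V : BE n → G) (g : G) :
    lp (fun e => g * V e * g⁻¹) = g * lp V * g⁻¹ := by
  unfold Pool.Agent.N989.MK.lp
  rw [sd_conj, sd_conj, sd_conj, sd_conj]
  group

end

variable {G : Type*} [Group G] [TopologicalSpace G] [IsTopologicalGroup G] [CompactSpace G]
  [MeasurableSpace G] [BorelSpace G] [SecondCountableTopology G]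
  {μ : Measure G} [IsProbabilityMeasure μ] [μ.IsHaarMeasure] [μ.IsMulRightInvariant]
  [μ.IsInvInvariant]

variable (μ) in
/-- the integral over the interior -/
def Ib {n : ℕ} (A : (Ed n → G) → ℝ) (V : BE n → G) : ℝ :=
  ∫ I : IE n → G, A (Sum.elim V I) ∂(Measure.pi fun _ => μ)

variable (μ) in
/-- the integral over the interior as a function of the holonomy -/
def Is {n : ℕ} (A : (Ed n → G) → ℝ) (x : G) : ℝ := Ib μ A (stdV n x)

lemma elim_cont {n : ℕ} : Continuous fun p : (BE n → G) × (IE n → G) =>
    (Sum.elim p.1 p.2 : Ed n → G) := by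
  refine continuous_pi fun e => ?_
  rcases e with e | e
  · exact (continuous_apply e).comp continuous_fst
  · exact (continuous_apply e).comp continuous_snd

lemma Ib_gauge {n : ℕ} {A : (Ed n → G) → ℝ} (hA : Continuous A) (hg : GaugeInv A)
    {a b : Ed n → G} (h : Gauge a b) (V : BE n → G) :
    Ib μ A (fun e => a (.inl e) * V e * (b (.inl e))⁻¹) = Ib μ A V := by
  unfold Ib
  have hmp : MeasurePreserving
      (fun (I : IE n → G) (e : IE n) => a (.inr e) * I e * (b (.inr e))⁻¹)
      (Measure.pi fun _ => μ) (Measure.pi fun _ => μ) :=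
    measurePreserving_pi _ _ fun e => (measurePreserving_mul_right μ (b (.inr e))⁻¹).comp
      (measurePreserving_mul_left μ (a (.inr e)))
  have hc : Continuous fun I : IE n → G => A (Sum.elim
      (fun e => a (.inl e) * V e * (b (.inl e))⁻¹) I) :=
    hA.comp (elim_cont.comp (continuous_const.prodMk continuous_id))
  have h1 : ∫ I : IE n → G, A (Sum.elim (fun e => a (.inl e) * V e * (b (.inl e))⁻¹) I)
      ∂(Measure.pi fun _ => μ) = ∫ I : IE n → G, A (Sum.elim
        (fun e => a (.inl e) * V e * (b (.inl e))⁻¹)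
        fun e => a (.inr e) * I e * (b (.inr e))⁻¹) ∂(Measure.pi fun _ => μ) := by
    rw [← hmp.map_eq, integral_map hmp.measurable.aemeasurable, hmp.map_eq]
    exact hc.aestronglyMeasurable
  rw [h1]
  refine integral_congr_ae (Filter.Eventually.of_forall fun I => ?_)
  beta_reduce
  rw [← hg a b h (Sum.elim V I)]
  congr 1
  funext e
  rcases e with e | e <;> rfl

/-- the integral over the interior is a function of the holonomy -/
lemma Ib_eq {n : ℕ} {A : (Ed n → G) → ℝ} (hA : Continuous A) (hg : GaugeInv A) (V : BE n → G) :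
    Ib μ A V = Is μ A (lp V) := by
  obtain ⟨a, b, hab, h⟩ := exists_std V
  unfold Is
  rw [← h, Ib_gauge hA hg hab]

lemma stdV_cont (n : ℕ) : Continuous fun x : G => stdV n x := by
  refine continuous_pi fun e => ?_
  unfold stdV
  by_cases h : e.1 = 0 ∧ (e.2 : ℕ) = 0
  · simp only [h, and_self, if_true]
    exact continuous_id
  · simp only [h, if_false]
    exact continuous_const

lemma Is_cont {n : ℕ} {A : (Ed n → G) → ℝ} (hA : Continuous A) : Continuous (Is μ A) := by
  unfold Is Ib
  have h := continuous_parametric_integral_of_continuous (μ := Measure.pi fun _ : IE n => μ)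
    (f := fun (x : G) (I : IE n → G) => A (Sum.elim (stdV n x) I)) (s := Set.univ) (by
      show Continuous fun q : G × (IE n → G) => A (Sum.elim (stdV n q.1) q.2)
      exact hA.comp (elim_cont.comp (((stdV_cont n).comp continuous_fst).prodMk continuous_snd)))
    isCompact_univ
  simpa using h

lemma Is_cls {n : ℕ} {A : (Ed n → G) → ℝ} (hA : Continuous A) (hg : GaugeInv A) :
    Cls (Is μ A) := by
  intro g x
  have h1 := Ib_eq (μ := μ) hA hg (fun e => g * stdV n x e * g⁻¹)
  rw [lp_conj, lp_stdV] at h1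
  rw [← h1]
  exact Ib_gauge hA hg (gauge_const g) (stdV n x)

end

end Pool.Agent.N991.MK
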