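import Mathlib
import Pool.Agent.N991.MK.Gap2
import Pool.Agent.N989.MK.Clus

/-!
# The integration over the interior of the blocks
-/

open MeasureTheory Pool.Agent.N989.MK

namespace Pool.Agent.N991.MK

set_option linter.unusedSectionVars false

noncomputable section

variable {G : Type*} [Group G] [TopologicalSpace G] [IsTopologicalGroup G] [CompactSpace G]
  [MeasurableSpace G] [BorelSpace G] [SecondCountableTopology G]
  {μ : Measure G} [IsProbabilityMeasure μ] [μ.IsHaarMeasure] [μ.IsMulRightInvariant]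
  [μ.IsInvInvariant]

/-- the product of functions of the blocks -/
def wB {m j : ℕ} (W : Pq j → (Ed m → G) → ℝ) (U : Ed (m + j) → G) : ℝ :=
  ∏ γ : Pq j, W γ fun e => U (blk γ e)

lemma wB_cont {m j : ℕ} {W : Pq j → (Ed m → G) → ℝ} (hW : ∀ γ, Continuous (W γ)) :
    Continuous (wB W) := by
  unfold wB
  exact continuous_finsetProd _ fun γ _ => (hW γ).comp (continuous_pi fun e => continuous_apply _)

lemma wB_succ {m j : ℕ} (W : Pq (j + 1) → (Ed m → G) → ℝ) (V : BE (m + j + 1) → G)
    (M : Fin 4 × Fin 4 × Fin (2 ^ (m + j)) → G) (J : Fin 4 × Fin 4 × IE (m + j) → G) :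
    wB W (Sum.elim V (Sum.elim M J : IE (m + j + 1) → G) : Ed (m + j + 1) → G) =
      ∏ s : Fin 4 × Fin 4, wB (fun γ => W (s.1, s.2, γ))
        (Sum.elim (sub V M s.1 s.2) (fun e => J (s.1, s.2, e)) : Ed (m + j) → G) := by
  unfold wB
  rw [Fintype.prod_prod_type]
  change ∏ γ : Fin 4 × Fin 4 × Pq j, W γ (fun e => (Sum.elim V (Sum.elim M J :
    IE (m + j + 1) → G) : Ed (m + j + 1) → G) (blk (j := j + 1) γ e)) = _
  rw [Fintype.prod_prod_type]
  refine Finset.prod_congr rfl fun s _ => ?_
  rw [Fintype.prod_prod_type]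
  refine Finset.prod_congr rfl fun q _ => ?_
  refine Finset.prod_congr rfl fun γ _ => ?_
  rw [← emb_elim V M J s q]
  rfl

/-- **The integral over the interior, block by block** -/
theorem Ib_wB {m : ℕ} : ∀ (j : ℕ) {W : Pq j → (Ed m → G) → ℝ} {w : Pq j → G → ℝ},
    (∀ γ, Continuous (W γ)) → (∀ γ, Continuous (w γ)) → (∀ γ, Cls (w γ)) →
    (∀ γ V, Ib μ (W γ) V = w γ (Pool.Agent.N989.MK.lp V)) →
    ∀ V : BE (m + j) → G, Ib μ (wB W) V = ZZ μ j w (Pool.Agent.N989.MK.lp V)
  | 0, W, w, hW, hw, hc, hI, V => by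
    have h1 : wB W = W () := by
      funext U
      unfold wB
      exact Fintype.prod_unique (ι := Unit) fun γ => W γ fun e => U (blk (j := 0) γ e)
    rw [h1]
    exact hI () V
  | j + 1, W, w, hW, hw, hc, hI, V => by
    have ih := fun (s r : Fin 4) => Ib_wB j (W := fun γ => W (s, r, γ))
      (w := fun γ => w (s, r, γ)) (fun γ => hW (s, r, γ)) (fun γ => hw (s, r, γ))
      (fun γ => hc (s, r, γ)) (fun γ => hI (s, r, γ))
    unfold Ib
    -- splitting of the inner edges
    let φ : ((Fin 4 → Fin 4 → Fin (2 ^ (m + j)) → G) × ((Fin 4 × Fin 4) → IE (m + j) → G)) →*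
        (IE (m + j + 1) → G) :=
      { toFun := fun p => (Sum.elim (fun x => p.1 x.1 x.2.1 x.2.2)
          (fun x => p.2 (x.1, x.2.1) x.2.2) :
          (Fin 4 × Fin 4 × Fin (2 ^ (m + j))) ⊕ (Fin 4 × Fin 4 × IE (m + j)) → G)
        map_one' := by
          funext e
          rcases e with e | e <;> rfl
        map_mul' := fun p q => by
          funext e
          rcases e with e | e <;> rfl }
    have hφ : Continuous φ := by
      refine continuous_pi fun e => ?_
      rcases e with ⟨a, b, c⟩ | ⟨a, b, c⟩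
      · change Continuous fun p : (Fin 4 → Fin 4 → Fin (2 ^ (m + j)) → G) ×
          ((Fin 4 × Fin 4) → IE (m + j) → G) => p.1 a b c
        fun_prop
      · change Continuous fun p : (Fin 4 → Fin 4 → Fin (2 ^ (m + j)) → G) ×
          ((Fin 4 × Fin 4) → IE (m + j) → G) => p.2 (a, b) c
        fun_prop
    have hs : Function.Surjective φ := fun I => ⟨(fun a b c => I (.inl (a, b, c)),
      fun x e => I (.inr (x.1, x.2, e))), by
        funext e
        rcases e with e | e <;> rfl⟩
    have i1 : (Measure.pi fun _ : Fin (2 ^ (m + j)) => μ).IsMulLeftInvariant := inferInstance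
    have i2 : (Measure.pi fun _ : Fin 4 => Measure.pi fun _ : Fin (2 ^ (m + j)) =>
      μ).IsMulLeftInvariant := inferInstance
    have i3 : (Measure.pi fun _ : Fin 4 => Measure.pi fun _ : Fin 4 =>
      Measure.pi fun _ : Fin (2 ^ (m + j)) => μ).IsMulLeftInvariant := inferInstance
    have i4 : (Measure.pi fun _ : IE (m + j) => μ).IsMulLeftInvariant := inferInstance
    have i5 : (Measure.pi fun _ : Fin 4 × Fin 4 =>
      Measure.pi fun _ : IE (m + j) => μ).IsMulLeftInvariant := inferInstance
    have i6 := Measure.prod.instIsMulLeftInvariant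
      (μ := Measure.pi fun _ : Fin 4 => Measure.pi fun _ : Fin 4 =>
        Measure.pi fun _ : Fin (2 ^ (m + j)) => μ)
      (ν := Measure.pi fun _ : Fin 4 × Fin 4 => Measure.pi fun _ : IE (m + j) => μ)
    have hmp := mp_hom ((Measure.pi fun _ : Fin 4 => Measure.pi fun _ : Fin 4 =>
      Measure.pi fun _ : Fin (2 ^ (m + j)) => μ).prod (Measure.pi fun _ : Fin 4 × Fin 4 =>
        Measure.pi fun _ : IE (m + j) => μ)) (Measure.pi fun _ : IE (m + j + 1) => μ) φ hφ hs
    have hwc : Continuous fun I : IE (m + j + 1) → G =>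
        wB W (Sum.elim V I : Ed (m + j + 1) → G) := by
      refine (wB_cont hW).comp (continuous_pi fun e => ?_)
      rcases e with e | e
      · exact continuous_const
      · exact continuous_apply e
    change ∫ I : IE (m + j + 1) → G, wB W (Sum.elim V I : Ed (m + j + 1) → G)
      ∂(Measure.pi fun _ => μ) = _
    rw [int_mp hmp hwc]
    have hcs : Continuous fun p => wB W (Sum.elim V (φ p) : Ed (m + j + 1) → G) := hwc.comp hφ
    rw [integral_prod _ (hcs.integrable_of_hasCompactSupport
      (HasCompactSupport.of_compactSpace _))]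
    have h1 : ∀ M : Fin 4 → Fin 4 → Fin (2 ^ (m + j)) → G,
        ∫ J : (Fin 4 × Fin 4) → IE (m + j) → G, wB W (Sum.elim V (φ (M, J)) : Ed (m + j + 1) → G)
          ∂(Measure.pi fun _ => Measure.pi fun _ => μ) =
        ∏ s : Fin 4, FG (fun r => ZZ μ j (fun γ => w (s, r, γ))) V (mids (M s)) := by
      intro M
      have h2 : ∀ J : (Fin 4 × Fin 4) → IE (m + j) → G,
          wB W (Sum.elim V (φ (M, J)) : Ed (m + j + 1) → G) =
          ∏ x : Fin 4 × Fin 4, wB (fun γ => W (x.1, x.2, γ))
            (Sum.elim (sub V (fun y => M y.1 y.2.1 y.2.2) x.1 x.2)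
            (J x) : Ed (m + j) → G) := fun J =>
        wB_succ W V (fun y => M y.1 y.2.1 y.2.2) (fun y => J (y.1, y.2.1) y.2.2)
      simp only [h2]
      rw [integral_fintype_prod_eq_prod (fun (x : Fin 4 × Fin 4) (I : IE (m + j) → G) =>
        wB (fun γ => W (x.1, x.2, γ))
          (Sum.elim (sub V (fun y => M y.1 y.2.1 y.2.2) x.1 x.2) I : Ed (m + j) → G))]
      have h3 : ∀ x : Fin 4 × Fin 4, ∫ I : IE (m + j) → G,
          wB (fun γ => W (x.1, x.2, γ))
            (Sum.elim (sub V (fun y => M y.1 y.2.1 y.2.2) x.1 x.2) I : Ed (m + j) → G)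
            ∂(Measure.pi fun _ => μ) =
          ZZ μ j (fun γ => w (x.1, x.2, γ))
            (Pool.Agent.N989.MK.lp (sub V (fun y => M y.1 y.2.1 y.2.2) x.1 x.2)) :=
        fun x => ih x.1 x.2 _
      simp only [h3]
      rw [Fintype.prod_prod_type]
      refine Finset.prod_congr rfl fun s _ => ?_
      obtain ⟨e0, e1, e2, e3⟩ := lp_sub V (fun y => M y.1 y.2.1 y.2.2) s
      rw [Fin.prod_univ_four]
      unfold FG
      dsimp only
      rw [e0, e1, e2, e3]
      rfl
    simp only [h1]
    rw [integral_fintype_prod_eq_prod (fun (s : Fin 4) (a : Fin 4 → Fin (2 ^ (m + j)) → G) =>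
      FG (fun r => ZZ μ j (fun γ => w (s, r, γ))) V (mids a))]
    refine Finset.prod_congr rfl fun s _ => ?_
    exact int_FG (fun r => ZZ_cont j fun γ => hw (s, r, γ))
      (fun r => ZZ_cls j fun γ => hc (s, r, γ)) V

/-- the integral over all the variables -/
lemma int_Ib {n : ℕ} {A : (Ed n → G) → ℝ} (hA : Continuous A) {f : G → ℝ} (hf : Continuous f)
    (h : ∀ V, Ib μ A V = f (Pool.Agent.N989.MK.lp V)) :
    ∫ U : Ed n → G, A U ∂(Measure.pi fun _ => μ) = ∫ x, f x ∂μ := by
  let φ : ((BE n → G) × (IE n → G)) →* (Ed n → G) :=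
    { toFun := fun p => Sum.elim p.1 p.2
      map_one' := by
        funext e
        rcases e with e | e <;> rfl
      map_mul' := fun p q => by
        funext e
        rcases e with e | e <;> rfl }
  have hφ : Continuous φ := elim_cont
  have hs : Function.Surjective φ := fun I => ⟨(fun e => I (.inl e), fun e => I (.inr e)), by
    funext e
    rcases e with e | e <;> rfl⟩
  have i1 : (Measure.pi fun _ : BE n => μ).IsMulLeftInvariant := inferInstance
  have i2 : (Measure.pi fun _ : IE n => μ).IsMulLeftInvariant := inferInstance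
  have i3 := Measure.prod.instIsMulLeftInvariant (μ := Measure.pi fun _ : BE n => μ)
    (ν := Measure.pi fun _ : IE n => μ)
  have hmp := mp_hom ((Measure.pi fun _ : BE n => μ).prod (Measure.pi fun _ : IE n => μ))
    (Measure.pi fun _ : Ed n => μ) φ hφ hs
  rw [int_mp hmp hA]
  have hcs : Continuous fun p => A (φ p) := hA.comp hφ
  rw [integral_prod _ (hcs.integrable_of_hasCompactSupport
    (HasCompactSupport.of_compactSpace _))]
  have h1 : ∀ V : BE n → G, ∫ I : IE n → G, A (φ (V, I))
      ∂(Measure.pi fun _ => μ) = f (Pool.Agent.N989.MK.lp V) := fun V => h V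
  simp only [h1]
  exact (int_mp (mp_lp (μ := μ) n) (F := f) hf).symm

end

end Pool.Agent.N991.MK
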