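import Mathlib
import Pool.Agent.N991.MK.Gap3
import Pool.Agent.N989.MK.Cov

/-!
# The covariance of gauge invariant functions of two blocks
-/

open MeasureTheory Pool.Agent.N989.MK

namespace Pool.Agent.N991.MK

set_option linter.unusedSectionVars false

noncomputable section

section

variable {G : Type*} [Group G]

lemma GaugeInv.mul {n : ℕ} {A B : (Ed n → G) → ℝ} (hA : GaugeInv A) (hB : GaugeInv B) :
    GaugeInv fun U => A U * B U := fun a b h U => by
  beta_reduce
  rw [hA a b h, hB a b h]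

lemma wt_gauge {Z : G → ℝ} (hc : ∀ g x, Z (g * x * g⁻¹) = Z x) {n : ℕ} :
    GaugeInv fun U : Ed n → G => wt Z U := fun a b h U => by
  unfold wt
  refine Finset.prod_congr rfl fun p _ => ?_
  rw [hol_gauge h, hc]

lemma gauge_one {n : ℕ} : GaugeInv fun _ : Ed n → G => (1 : ℝ) := fun _ _ _ _ => rfl

/-- the weight is the product of the weights of the blocks -/
lemma wt_blk (Z : G → ℝ) {m : ℕ} : ∀ (j : ℕ) (U : Ed (m + j) → G),
    wt Z U = ∏ γ : Pq j, wt Z fun e => U (blk γ e)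
  | 0, U => (Fintype.prod_unique (ι := Unit) fun γ => wt Z fun e => U (blk (j := 0) γ e)).symm
  | j + 1, U => by
    have ih := fun (s q : Fin 4) => wt_blk Z j fun e => U (emb s q e)
    unfold wt at ih ⊢
    change ∏ p : Fin 4 × Fin 4 × Pq (m + j), Z (hol U (p : Pq (m + j + 1))) =
      ∏ γ : Fin 4 × Fin 4 × Pq j, ∏ p : Pq m, Z (hol (fun e => U (blk (j := j + 1) γ e)) p)
    rw [Fintype.prod_prod_type, Fintype.prod_prod_type]
    refine Finset.prod_congr rfl fun s _ => ?_
    rw [Fintype.prod_prod_type, Fintype.prod_prod_type]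
    refine Finset.prod_congr rfl fun q _ => ?_
    exact ih s q

end

variable {G : Type*} [Group G] [TopologicalSpace G] [IsTopologicalGroup G] [CompactSpace G]
  [MeasurableSpace G] [BorelSpace G] [SecondCountableTopology G]
  {μ : Measure G} [IsProbabilityMeasure μ] [μ.IsHaarMeasure] [μ.IsMulRightInvariant]
  [μ.IsInvInvariant]

variable (μ) in
/-- the conditional expectation of a gauge invariant function given the holonomy of the boundary -/
def cdE (Z : G → ℝ) {n : ℕ} (A : (Ed n → G) → ℝ) (x : G) : ℝ :=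
  Is μ (fun U => A U * wt Z U) x / TTn μ Z n x

variable {Z : G → ℝ}

lemma Ib_wt (hZ : Adm Z) {n : ℕ} (V : BE n → G) :
    Ib μ (fun U : Ed n → G => wt Z U) V = TTn μ Z n (Pool.Agent.N989.MK.lp V) := by
  have h := Zb_eq (μ := μ) hZ.cont hZ.cls n V
  rw [Zr_eq] at h
  exact h

lemma Is_wt (hZ : Adm Z) {n : ℕ} (x : G) :
    Is μ (fun U : Ed n → G => wt Z U) x = TTn μ Z n x := by
  unfold Is
  rw [Ib_wt hZ, lp_stdV]

lemma cdE_cont (hZ : Adm Z) {n : ℕ} {A : (Ed n → G) → ℝ} (hA : Continuous A) :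
    Continuous (cdE μ Z A) :=
  (Is_cont (hA.mul (wt_cont hZ.cont))).div (hZ.TTn (μ := μ) n).cont fun x =>
    ((hZ.TTn (μ := μ) n).pos x).ne'

lemma cdE_cls (hZ : Adm Z) {n : ℕ} {A : (Ed n → G) → ℝ} (hA : Continuous A) (gA : GaugeInv A) :
    Cls (cdE μ Z A) := fun g x => by
  have hc : Continuous fun U : Ed n → G => A U * wt Z U := hA.mul (wt_cont hZ.cont)
  unfold cdE
  rw [Is_cls hc (gA.mul (wt_gauge hZ.cls)) g x, (hZ.TTn (μ := μ) n).cls]

lemma cdE_le (hZ : Adm Z) {n : ℕ} {A : (Ed n → G) → ℝ} (hA : Continuous A)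
    (bA : ∀ U, |A U| ≤ 1) (x : G) : |cdE μ Z A x| ≤ 1 := by
  have hp := (hZ.TTn (μ := μ) n).pos x
  unfold cdE
  rw [abs_div, abs_of_pos hp, div_le_one hp, ← Is_wt (n := n) hZ x]
  unfold Is Ib
  have hw : Continuous fun I : IE n → G => wt Z (Sum.elim (stdV n x) I : Ed n → G) :=
    (wt_cont hZ.cont).comp (elim_cont.comp (continuous_const.prodMk continuous_id))
  have hAw : Continuous fun I : IE n → G => A (Sum.elim (stdV n x) I) :=
    hA.comp (elim_cont.comp (continuous_const.prodMk continuous_id))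
  have hI : ∀ {g : (IE n → G) → ℝ}, Continuous g → Integrable g (Measure.pi fun _ => μ) :=
    fun hg => hg.integrable_of_hasCompactSupport (HasCompactSupport.of_compactSpace _)
  refine (abs_integral_le_integral_abs).trans ?_
  refine integral_mono (hI (hAw.mul hw).abs) (hI hw) fun I => ?_
  beta_reduce
  have h1 : 0 < wt Z (Sum.elim (stdV n x) I : Ed n → G) :=
    Finset.prod_pos fun p _ => hZ.pos _
  rw [abs_mul, abs_of_pos h1]
  exact mul_le_of_le_one_left h1.le (bA _)

lemma Ib_cdE (hZ : Adm Z) {n : ℕ} {A : (Ed n → G) → ℝ} (hA : Continuous A) (gA : GaugeInv A)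
    (V : BE n → G) : Ib μ (fun U => A U * wt Z U) V =
      TTn μ Z n (Pool.Agent.N989.MK.lp V) * cdE μ Z A (Pool.Agent.N989.MK.lp V) := by
  have hc : Continuous fun U : Ed n → G => A U * wt Z U := hA.mul (wt_cont hZ.cont)
  rw [Ib_eq hc (gA.mul (wt_gauge hZ.cls))]
  unfold cdE
  rw [mul_div_cancel₀ _ ((hZ.TTn (μ := μ) n).pos _).ne']

/-- the numerator of the expectation of two functions of blocks -/
lemma num_two (hZ : Adm Z) {m j : ℕ} {α β : Pq j} (hαβ : α ≠ β) {A B : (Ed m → G) → ℝ}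
    (hA : Continuous A) (gA : GaugeInv A) (bA : ∀ U, |A U| ≤ 1)
    (hB : Continuous B) (gB : GaugeInv B) (bB : ∀ U, |B U| ≤ 1) :
    ∫ U : Ed (m + j) → G, (A (fun e => U (blk α e)) * B (fun e => U (blk β e))) * wt Z U
      ∂(Measure.pi fun _ => μ) =
    ∫ x, WF μ (TTn μ Z m) j
      (fun γ x => ins1 α (cdE μ Z A) γ x * ins1 β (cdE μ Z B) γ x) x ∂μ := by
  classical
  obtain ⟨W, hW⟩ : ∃ W : Pq j → (Ed m → G) → ℝ, W = fun γ u =>
    (if γ = α then A u else 1) * (if γ = β then B u else 1) * wt Z u := ⟨_, rfl⟩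
  have hwc : Continuous fun U : Ed m → G => wt Z U := wt_cont hZ.cont
  have hWc : ∀ γ, Continuous (W γ) := by
    intro γ
    rw [hW]
    refine (Continuous.mul ?_ ?_).mul hwc
    · by_cases h : γ = α
      · simpa only [h, if_true] using hA
      · simpa only [h, if_false] using continuous_const
    · by_cases h : γ = β
      · simpa only [h, if_true] using hB
      · simpa only [h, if_false] using continuous_const
  have hAd := hZ.TTn (μ := μ) m
  have iA := ins1_ins α (cdE_cont (μ := μ) hZ hA) (cdE_cls hZ hA gA) (cdE_le hZ hA bA)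
  have iB := ins1_ins β (cdE_cont (μ := μ) hZ hB) (cdE_cls hZ hB gB) (cdE_le hZ hB bB)
  have hI : ∀ γ V, Ib μ (W γ) V = TTn μ Z m (Pool.Agent.N989.MK.lp V) *
      (ins1 α (cdE μ Z A) γ (Pool.Agent.N989.MK.lp V) *
        ins1 β (cdE μ Z B) γ (Pool.Agent.N989.MK.lp V)) := by
    intro γ V
    unfold ins1
    by_cases h1 : γ = α
    · have h2 : γ ≠ β := fun h => hαβ (h1.symm.trans h)
      rw [if_pos h1, if_neg h2, mul_one, ← Ib_cdE hZ hA gA]
      congr 1
      rw [hW]
      funext u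
      beta_reduce
      rw [if_pos h1, if_neg h2, mul_one]
    · by_cases h2 : γ = β
      · rw [if_neg h1, if_pos h2, one_mul, ← Ib_cdE hZ hB gB]
        congr 1
        rw [hW]
        funext u
        beta_reduce
        rw [if_neg h1, if_pos h2, one_mul]
      · rw [if_neg h1, if_neg h2, mul_one, mul_one, ← Ib_wt hZ]
        congr 1
        rw [hW]
        funext u
        beta_reduce
        rw [if_neg h1, if_neg h2, one_mul, one_mul]
  have hw1 : ∀ γ, Continuous fun x => TTn μ Z m x *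
      (ins1 α (cdE μ Z A) γ x * ins1 β (cdE μ Z B) γ x) := fun γ =>
    hAd.cont.mul ((iA.mul iB).c γ)
  have hw2 : ∀ γ, Cls fun x => TTn μ Z m x *
      (ins1 α (cdE μ Z A) γ x * ins1 β (cdE μ Z B) γ x) := fun γ g x => by
    have h3 := (iA.mul iB).l γ g x
    beta_reduce at h3 ⊢
    rw [hAd.cls, h3]
  have h1 := int_Ib (μ := μ) (wB_cont hWc) (ZZ_cont j hw1) fun V =>
    Ib_wB j hWc hw1 hw2 hI V
  have h2 : ∀ U : Ed (m + j) → G, (A (fun e => U (blk α e)) * B (fun e => U (blk β e))) * wt Z U =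
      wB W U := by
    intro U
    rw [wt_blk Z j U]
    unfold wB
    rw [hW]
    beta_reduce
    rw [Finset.prod_mul_distrib, Finset.prod_mul_distrib]
    congr 1
    congr 1
    · rw [Finset.prod_eq_single α (fun γ _ h => if_neg h) (fun h => absurd (Finset.mem_univ _) h),
        if_pos rfl]
    · rw [Finset.prod_eq_single β (fun γ _ h => if_neg h) (fun h => absurd (Finset.mem_univ _) h),
        if_pos rfl]
  simp only [h2]
  exact h1

lemma den_two (hZ : Adm Z) (m j : ℕ) :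
    ∫ U : Ed (m + j) → G, wt Z U ∂(Measure.pi fun _ => μ) =
      ∫ x, TTn μ (TTn μ Z m) j x ∂μ := by
  rw [part_eq hZ, TTn_add]

lemma cdE_one (hZ : Adm Z) {n : ℕ} : cdE μ Z (fun _ : Ed n → G => 1) = fun _ => 1 := by
  funext x
  unfold cdE
  simp only [one_mul]
  rw [Is_wt hZ]
  exact div_self ((hZ.TTn (μ := μ) n).pos x).ne'

/-- the expectation of two functions of blocks -/
theorem Ex_blk2 (hZ : Adm Z) {m j : ℕ} {α β : Pq j} (hαβ : α ≠ β) {A B : (Ed m → G) → ℝ}
    (hA : Continuous A) (gA : GaugeInv A) (bA : ∀ U, |A U| ≤ 1)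
    (hB : Continuous B) (gB : GaugeInv B) (bB : ∀ U, |B U| ≤ 1) :
    Ex μ Z (m + j) (fun U => A (fun e => U (blk α e)) * B (fun e => U (blk β e))) =
      Ex μ (TTn μ Z m) j (fun U => cdE μ Z A (hol U α) * cdE μ Z B (hol U β)) := by
  rw [Ex_two (hZ.TTn (μ := μ) m) α β (cdE_cont hZ hA) (cdE_cls hZ hA gA) (cdE_le hZ hA bA)
    (cdE_cont hZ hB) (cdE_cls hZ hB gB) (cdE_le hZ hB bB),
    ← num_two hZ hαβ hA gA bA hB gB bB, ← den_two hZ m j]
  rfl

/-- the expectation of a function of a block -/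
theorem Ex_blk1 (hZ : Adm Z) {m j : ℕ} {α β : Pq j} (hαβ : α ≠ β) {A : (Ed m → G) → ℝ}
    (hA : Continuous A) (gA : GaugeInv A) (bA : ∀ U, |A U| ≤ 1) :
    Ex μ Z (m + j) (fun U => A (fun e => U (blk α e))) =
      Ex μ (TTn μ Z m) j (fun U => cdE μ Z A (hol U α)) := by
  have h := Ex_blk2 (μ := μ) hZ hαβ hA gA bA (continuous_const (y := (1 : ℝ))) gauge_one
    (fun _ => by simp)
  rw [cdE_one hZ] at h
  simpa only [mul_one] using h

/-- **the covariance of gauge invariant functions of two blocks** -/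
theorem Cv_blk (hZ : Adm Z) {m j : ℕ} {α β : Pq j} (hαβ : α ≠ β) {A B : (Ed m → G) → ℝ}
    (hA : Continuous A) (gA : GaugeInv A) (bA : ∀ U, |A U| ≤ 1)
    (hB : Continuous B) (gB : GaugeInv B) (bB : ∀ U, |B U| ≤ 1) :
    Ex μ Z (m + j) (fun U => A (fun e => U (blk α e)) * B (fun e => U (blk β e))) -
      Ex μ Z (m + j) (fun U => A (fun e => U (blk α e))) *
        Ex μ Z (m + j) (fun U => B (fun e => U (blk β e))) =
      Cv μ (TTn μ Z m) j α β (cdE μ Z A) (cdE μ Z B) := by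
  rw [Ex_blk2 hZ hαβ hA gA bA hB gB bB, Ex_blk1 hZ hαβ hA gA bA, Ex_blk1 hZ hαβ.symm hB gB bB]
  rfl

end

end Pool.Agent.N991.MK
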