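import Mathlib
import Pool.Agent.N984.TW.Chart1

/-!
# Volumes of small balls and Gaussian type integrals
-/

open MeasureTheory Matrix Filter
open scoped Matrix.Norms.Frobenius ContDiff Topology
open Pool.Agent.H906R3.YM Pool.Agent.W793.YM Pool.Agent.TH618.YM Pool.Agent.N984.TW

namespace Pool.Agent.N991.MK

set_option linter.unusedSectionVars false

noncomputable section

variable {N n : ℕ} {G : Subgroup (UN N)}

/-- size of a group element -/
def nN (g : G) : ℝ := ‖mt g - 1‖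

lemma nN_nonneg (g : G) : 0 ≤ nN g := norm_nonneg _

lemma nN_cont : Continuous (nN : G → ℝ) := (mt_cont.sub continuous_const).norm

lemma nN_one : nN (1 : G) = 0 := by unfold nN; rw [mt_one, sub_self, norm_zero]

lemma nN_dist (s g : G) : nN (s⁻¹ * g) = ‖mt g - mt s‖ := by
  have h1 := norm_mt_mul s (mt (s⁻¹ * g) - 1)
  rw [mul_sub, mul_one, ← mt_mul, mul_inv_cancel_left] at h1
  exact h1.symm

lemma nN_mul_le (g h : G) : nN (g * h) ≤ nN g + nN h := by
  unfold nN
  have h1 : mt (g * h) - 1 = mt g * (mt h - 1) + (mt g - 1) := by rw [mt_mul]; noncomm_ring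
  rw [h1]
  refine (norm_add_le _ _).trans ?_
  rw [norm_mt_mul]
  linarith

lemma nN_inv (g : G) : nN g⁻¹ = nN g := by
  have h1 := nN_dist g 1
  rw [mul_one, mt_one, ← norm_neg, neg_sub] at h1
  exact h1

lemma nN_conj (g h : G) : nN (g * h * g⁻¹) = nN h := by
  unfold nN
  have h1 : mt (g * h * g⁻¹) - 1 = mt g * ((mt h - 1) * mt g⁻¹) := by
    have h2 : mt g * mt g⁻¹ = 1 := by rw [← mt_mul, mul_inv_cancel, mt_one]
    rw [mt_mul, mt_mul, sub_mul, mul_sub, one_mul, h2, mul_assoc]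
  rw [h1, norm_mt_mul, norm_mul_unit]

lemma nN_le (g : G) : nN g ≤ 2 * Real.sqrt N := by
  unfold nN
  refine (norm_sub_le _ _).trans ?_
  have h1 : ‖(1 : Mat N)‖ = Real.sqrt N := by
    have h2 : ‖(1 : Mat N)‖ ^ 2 = N := by
      rw [norm_sq_ip, ip_apply]
      simp
    rw [← h2, Real.sqrt_sq (norm_nonneg _)]
  have h3 : ‖mt g‖ = ‖(1 : Mat N)‖ := by
    have := norm_mt_mul g 1
    rwa [mul_one] at this
  rw [h3, h1]
  linarith

variable [MeasurableSpace G] [BorelSpace G] (μ : Measure G) [IsProbabilityMeasure μ]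
  [μ.IsMulLeftInvariant]

/-- balls -/
def bl (r : ℝ) : Set G := {g | nN g ≤ r}

lemma bl_meas (r : ℝ) : MeasurableSet (bl r : Set G) :=
  (isClosed_le nN_cont continuous_const).measurableSet

lemma bl_mono {r s : ℝ} (h : r ≤ s) : (bl r : Set G) ⊆ bl s := fun g (hg : nN g ≤ r) => hg.trans h

lemma bl_shift (s : G) (r : ℝ) : μ.real {g : G | ‖mt g - mt s‖ ≤ r} = μ.real (bl r : Set G) := by
  have h1 : {g : G | ‖mt g - mt s‖ ≤ r} = (fun g => s⁻¹ * g) ⁻¹' (bl r) := by
    ext g
    simp only [Set.mem_ofPred_eq, Set.mem_preimage, bl, nN_dist]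
  rw [h1]
  unfold Measure.real
  rw [measure_preimage_mul]

theorem vol_doubling : ∃ K : ℝ, 1 ≤ K ∧ ∀ r : ℝ, 0 < r →
    μ.real (bl (2 * r) : Set G) ≤ K * μ.real (bl r : Set G) := by
  classical
  set d := Module.finrank ℝ (Mat N) with hd
  refine ⟨5 ^ d, one_le_pow₀ (by norm_num), fun r hr => ?_⟩
  -- separated sets
  set P : ℕ → Prop := fun k => ∃ S : Finset G, S.card = k ∧ (∀ s ∈ S, nN s ≤ 2 * r) ∧
    ∀ s ∈ S, ∀ t ∈ S, s ≠ t → r < ‖mt s - mt t‖ with hP
  have hcard : ∀ k, P k → k ≤ 5 ^ d := by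
    rintro k ⟨S, hk, h1, h2⟩
    set T : Finset (Mat N) := S.image fun s => r⁻¹ • (mt s - 1) with hT
    have hinj : Set.InjOn (fun s : G => r⁻¹ • (mt s - 1)) S := by
      intro s _ t _ hst
      have h3 : mt s - 1 = mt t - 1 := smul_right_injective _ (inv_pos.2 hr).ne' hst
      exact mt_inj (sub_left_injective h3)
    have hTc : T.card = k := by rw [hT, Finset.card_image_of_injOn hinj, hk]
    rw [← hTc]
    refine Besicovitch.card_le_of_separated T ?_ ?_
    · intro c hc
      obtain ⟨s, hs, rfl⟩ := Finset.mem_image.1 hc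
      rw [norm_smul, norm_inv, Real.norm_eq_abs, abs_of_pos hr, inv_mul_le_iff₀ hr]
      have := h1 s hs
      unfold nN at this
      linarith
    · intro c hc e he hce
      obtain ⟨s, hs, rfl⟩ := Finset.mem_image.1 hc
      obtain ⟨t, ht, rfl⟩ := Finset.mem_image.1 he
      have hst : s ≠ t := fun h => hce (by rw [h])
      rw [← smul_sub, sub_sub_sub_cancel_right, norm_smul, norm_inv, Real.norm_eq_abs,
        abs_of_pos hr, le_inv_mul_iff₀ hr, mul_one]
      exact (h2 s hs t ht hst).le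
  have hP0 : P 0 := ⟨∅, by simp, by simp, by simp⟩
  obtain ⟨S, hSk, h1, h2⟩ : P (Nat.findGreatest P (5 ^ d)) :=
    Nat.findGreatest_spec (Nat.zero_le _) hP0
  have hcov : (bl (2 * r) : Set G) ⊆ ⋃ s ∈ S, {g : G | ‖mt g - mt s‖ ≤ r} := by
    intro g hg
    by_contra hcon
    simp only [Set.mem_iUnion, not_exists, Set.mem_ofPred_eq, not_le] at hcon
    have hgS : g ∉ S := fun h => by
      have := hcon g h
      rw [sub_self, norm_zero] at this
      exact absurd this (not_lt.2 hr.le)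
    have hP' : P (S.card + 1) := by
      refine ⟨insert g S, Finset.card_insert_of_notMem hgS, ?_, ?_⟩
      · intro s hs
        rcases Finset.mem_insert.1 hs with rfl | hs
        · exact hg
        · exact h1 s hs
      · intro s hs t ht hst
        rcases Finset.mem_insert.1 hs with hs1 | hs1
        · rcases Finset.mem_insert.1 ht with ht1 | ht1
          · exact absurd (hs1.trans ht1.symm) hst
          · rw [hs1]
            exact hcon t ht1
        · rcases Finset.mem_insert.1 ht with ht1 | ht1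
          · rw [← norm_neg, neg_sub, ht1]
            exact hcon s hs1
          · exact h2 s hs1 t ht1 hst
    have h3 := Nat.le_findGreatest (hcard _ hP') hP'
    omega
  calc μ.real (bl (2 * r) : Set G) ≤ μ.real (⋃ s ∈ S, {g : G | ‖mt g - mt s‖ ≤ r}) :=
        measureReal_mono hcov (measure_ne_top _ _)
    _ ≤ ∑ s ∈ S, μ.real {g : G | ‖mt g - mt s‖ ≤ r} := measureReal_biUnion_finset_le _ _
    _ = S.card * μ.real (bl r : Set G) := by
        rw [Finset.sum_congr rfl fun s _ => bl_shift μ s r, Finset.sum_const, nsmul_eq_mul]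
    _ ≤ 5 ^ d * μ.real (bl r : Set G) := by
        refine mul_le_mul_of_nonneg_right ?_ measureReal_nonneg
        have := hcard _ ⟨S, rfl, h1, h2⟩
        exact_mod_cast this

/-- a lower bound of the volume of small balls -/
theorem vol_lower : ∃ c : ℝ, 0 < c ∧ ∃ D : ℕ, ∀ s : ℝ, 0 < s → s ≤ 1 →
    c * s ^ D ≤ μ.real (bl s : Set G) := by
  obtain ⟨K, hK1, hK⟩ := vol_doubling μ
  obtain ⟨D, hD⟩ := pow_unbounded_of_one_lt K (one_lt_two (α := ℝ))
  set R : ℝ := 2 * Real.sqrt N + 1 with hR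
  have hR1 : 1 ≤ R := by have := Real.sqrt_nonneg (N : ℝ); rw [hR]; linarith
  have h1 : ∀ k : ℕ, 1 ≤ (2 ^ D) ^ k * μ.real (bl (R / 2 ^ k) : Set G) := by
    intro k
    induction k with
    | zero =>
      have h2 : (bl (R / 2 ^ 0) : Set G) = Set.univ := by
        rw [Set.eq_univ_iff_forall]
        intro g
        show nN g ≤ _
        rw [pow_zero, div_one]
        exact (nN_le g).trans (by linarith)
      rw [h2, pow_zero, one_mul]
      simp
    | succ k ih =>
      have h3 := hK (R / 2 ^ (k + 1)) (by positivity)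
      have h4 : 2 * (R / 2 ^ (k + 1)) = R / 2 ^ k := by rw [pow_succ]; field_simp
      rw [h4] at h3
      calc (1 : ℝ) ≤ (2 ^ D) ^ k * μ.real (bl (R / 2 ^ k) : Set G) := ih
        _ ≤ (2 ^ D) ^ k * (K * μ.real (bl (R / 2 ^ (k + 1)) : Set G)) := by gcongr
        _ ≤ (2 ^ D) ^ k * (2 ^ D * μ.real (bl (R / 2 ^ (k + 1)) : Set G)) := by
            gcongr
        _ = (2 ^ D) ^ (k + 1) * μ.real (bl (R / 2 ^ (k + 1)) : Set G) := by ring
  refine ⟨(1 / (2 * R)) ^ D, by positivity, D, fun s hs hs1 => ?_⟩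
  obtain ⟨k, hk1, hk2⟩ := exists_nat_pow_near (x := R / s) (y := (2 : ℝ))
    ((one_le_div hs).2 (hs1.trans hR1)) one_lt_two
  have h2 := h1 (k + 1)
  have h3 : R / 2 ^ (k + 1) ≤ s := by
    rw [div_le_iff₀ (by positivity)]
    rw [div_lt_iff₀ hs] at hk2
    linarith
  have h4 : μ.real (bl (R / 2 ^ (k + 1)) : Set G) ≤ μ.real (bl s : Set G) :=
    measureReal_mono (bl_mono h3) (measure_ne_top _ _)
  have h5 : (2 : ℝ) ^ (k + 1) ≤ 2 * R / s := by
    rw [pow_succ]
    calc (2 : ℝ) ^ k * 2 ≤ R / s * 2 := by gcongr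
      _ = 2 * R / s := by ring
  have h6 : ((2 : ℝ) ^ D) ^ (k + 1) ≤ (2 * R / s) ^ D := by
    rw [← pow_mul, mul_comm D, pow_mul]
    exact pow_le_pow_left₀ (by positivity) h5 D
  have h7 : (1 : ℝ) ≤ (2 * R / s) ^ D * μ.real (bl s : Set G) :=
    h2.trans (mul_le_mul h6 h4 measureReal_nonneg (by positivity))
  calc (1 / (2 * R)) ^ D * s ^ D = (s / (2 * R)) ^ D := by rw [← mul_pow]; ring
    _ = (s / (2 * R)) ^ D * 1 := (mul_one _).symm
    _ ≤ (s / (2 * R)) ^ D * ((2 * R / s) ^ D * μ.real (bl s : Set G)) :=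
        mul_le_mul_of_nonneg_left h7 (by positivity)
    _ = μ.real (bl s : Set G) := by
        rw [← mul_assoc, ← mul_pow]
        have : s / (2 * R) * (2 * R / s) = 1 := by field_simp
        rw [this, one_pow, one_mul]

/-- the same in `ENNReal` form -/
theorem vol_lower_ofReal : ∃ c : ℝ, 0 < c ∧ ∃ D : ℕ, ∀ s : ℝ, 0 < s → s ≤ 1 →
    ENNReal.ofReal (c * s ^ D) ≤ μ {g : G | ‖mt g - 1‖ ≤ s} := by
  obtain ⟨c, hc, D, h⟩ := vol_lower μ
  refine ⟨c, hc, D, fun s hs hs1 => ?_⟩
  exact ENNReal.ofReal_le_of_le_toReal (h s hs hs1)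

end

end Pool.Agent.N991.MK
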