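import Mathlib
import Pool.Agent.N984.TW.Chart1

/-!
# The complexified exponential chart: definitions and statements
-/

open MeasureTheory Matrix Filter
open scoped Matrix.Norms.Frobenius ContDiff Topology
open Pool.Agent.H906R3.YM Pool.Agent.W793.YM Pool.Agent.TH618.YM Pool.Agent.N984.TW

namespace Pool.Agent.N991.MK

set_option linter.unusedSectionVars false

noncomputable section

variable {N n : ℕ} {G : Subgroup (UN N)} (B : Frame G n) (hG : IsClosed (G : Set (UN N)))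

/-- complex coordinates to elements of the complexified Lie algebra -/
def LC (x : Fin n → ℂ) : Mat N := ∑ a, x a • B.X a

/-- the exponential of an element of the complexified Lie algebra -/
def EC (x : Fin n → ℂ) : Mat N := NormedSpace.exp (LC B x)

/-- real coordinates as complex coordinates -/
def rl (x : Fin n → ℝ) : Fin n → ℂ := fun a => (x a : ℂ)

/-- Euclidean norm of real coordinates -/
def nE (x : Fin n → ℝ) : ℝ := Real.sqrt (∑ a, x a ^ 2)

/-- Euclidean norm of complex coordinates -/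
def nC (x : Fin n → ℂ) : ℝ := Real.sqrt (∑ a, ‖x a‖ ^ 2)

/-- real parts -/
def reP (x : Fin n → ℂ) : Fin n → ℝ := fun a => (x a).re

/-- imaginary parts -/
def imP (x : Fin n → ℂ) : Fin n → ℝ := fun a => (x a).im

/-- L1: logarithms of elements of `G` near the identity. -/
def S_L1 (B : Frame G n) (hG : IsClosed (G : Set (UN N))) : Prop :=
  ∃ r C : ℝ, 0 < r ∧ 0 ≤ C ∧
    (∀ g : G, ‖mt g - 1‖ ≤ r → ∃ y : Fin n → ℝ, Eg B hG y = g ∧
      nE y ≤ (1 + C * ‖mt g - 1‖) * ‖mt g - 1‖) ∧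
    (∀ y : Fin n → ℝ, ‖mt (Eg B hG y) - 1‖ ≤ nE y) ∧
    (∀ y : Fin n → ℝ, nE y ≤ r → (1 - C * nE y) * nE y ≤ ‖mt (Eg B hG y) - 1‖)

/-- L2: the product of two exponentials. -/
def S_L2 (B : Frame G n) : Prop :=
  ∃ (r C : ℝ) (b : (Fin n → ℂ) → (Fin n → ℂ) → (Fin n → ℂ)), 0 < r ∧ 0 ≤ C ∧
    (∀ x y, nC x ≤ r → nC y ≤ r → EC B (b x y) = EC B x * EC B y ∧
      nC (b x y - x - y) ≤ C * nC x * nC y ∧
      DifferentiableAt ℂ (fun p : (Fin n → ℂ) × (Fin n → ℂ) => b p.1 p.2) (x, y)) ∧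
    (∀ x y : Fin n → ℝ, nE x ≤ r → nE y ≤ r → ∃ z : Fin n → ℝ, b (rl x) (rl y) = rl z)

/-- L3: the volume of small balls. -/
def S_L3 (B : Frame G n) [MeasurableSpace G] (μ : Measure G) : Prop :=
  (∃ c C : ℝ, 0 < c ∧ 0 < C ∧ ∀ r : ℝ, 0 < r → r ≤ 1 →
    c * r ^ n ≤ μ.real {g : G | ‖mt g - 1‖ ≤ r} ∧ μ.real {g : G | ‖mt g - 1‖ ≤ r} ≤ C * r ^ n)

/-- L4: the polar decomposition. -/
def S_L4 (B : Frame G n) (hG : IsClosed (G : Set (UN N))) : Prop :=
  ∃ r C : ℝ, 0 < r ∧ 0 ≤ C ∧ ∀ x : Fin n → ℂ, nC x ≤ r → ∃ A u : Fin n → ℝ,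
    EC B x = EC B (Complex.I • rl A) * mt (Eg B hG u) ∧
    nE (A - imP x) ≤ C * nC x * nE (imP x) ∧ nE (u - reP x) ≤ C * nC x * nE (imP x)

end

end Pool.Agent.N991.MK
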