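import Mathlib
import Pool.Agent.N991.MK.CChart

/-!
# The complexified exponential chart: logarithms
-/

open MeasureTheory Matrix Filter
open scoped Matrix.Norms.Frobenius ContDiff Topology
open Pool.Agent.H906R3.YM Pool.Agent.W793.YM Pool.Agent.TH618.YM Pool.Agent.N984.TW

namespace Pool.Agent.N991.MK

set_option linter.unusedSectionVars false

noncomputable section

variable {N n : ℕ} {G : Subgroup (UN N)} (B : Frame G n) (hG : IsClosed (G : Set (UN N)))

lemma exp_contDiffC : ContDiff ℂ ∞ (NormedSpace.exp : Mat N → Mat N) := by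
  rw [contDiff_iff_contDiffAt]
  intro x
  exact (NormedSpace.exp_analytic (𝕂 := ℂ) x).contDiffAt

lemma exp_fderivC : HasFDerivAt (NormedSpace.exp : Mat N → Mat N)
    ((ContinuousLinearEquiv.refl ℂ (Mat N) : Mat N →L[ℂ] Mat N)) 0 := by
  have := hasFDerivAt_exp_zero (𝕂 := ℂ) (𝔸 := Mat N)
  exact this

/-- the logarithm of matrices near the identity -/
def Lgm (N : ℕ) : Mat N → Mat N :=
  (exp_contDiffC (N := N)).contDiffAt.localInverse (a := 0)
    (f' := ContinuousLinearEquiv.refl ℂ (Mat N)) exp_fderivC (by simp)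

lemma Lgm_contDiffAt : ContDiffAt ℂ ∞ (Lgm N) 1 := by
  have h := (exp_contDiffC (N := N)).contDiffAt.to_localInverse (a := 0)
    (f' := ContinuousLinearEquiv.refl ℂ (Mat N)) exp_fderivC (by simp)
  rw [NormedSpace.exp_zero] at h
  exact h

lemma Lgm_left : ∀ᶠ A in 𝓝 (0 : Mat N), Lgm N (NormedSpace.exp A) = A :=
  ((exp_contDiffC (N := N)).contDiffAt.hasStrictFDerivAt' (x := 0)
    (f' := (ContinuousLinearEquiv.refl ℂ (Mat N) : Mat N →L[ℂ] Mat N))
    exp_fderivC (by simp)).eventually_left_inverse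

lemma Lgm_right : ∀ᶠ A in 𝓝 (1 : Mat N), NormedSpace.exp (Lgm N A) = A := by
  have h := ((exp_contDiffC (N := N)).contDiffAt.hasStrictFDerivAt' (x := 0)
    (f' := (ContinuousLinearEquiv.refl ℂ (Mat N) : Mat N →L[ℂ] Mat N))
    exp_fderivC (by simp)).eventually_right_inverse
  rw [NormedSpace.exp_zero] at h
  exact h

/-- complex coordinates of a matrix -/
def pC : Mat N →L[ℂ] (Fin n → ℂ) :=
  LinearMap.toContinuousLinearMap
    { toFun := fun M a => trace ((B.X a)ᴴ * M)
      map_add' := fun M M' => by funext a; simp [mul_add]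
      map_smul' := fun c M => by funext a; simp }

lemma pC_apply (M : Mat N) (a : Fin n) : pC B M a = trace ((B.X a)ᴴ * M) := rfl

lemma trace_X (a b : Fin n) : trace ((B.X a)ᴴ * B.X b) = if a = b then 1 else 0 := by
  apply Complex.ext
  · rw [B.orth a b]
    split_ifs <;> simp
  · have h1 : trace ((B.X a)ᴴ * B.X b) = star (trace ((B.X a)ᴴ * B.X b)) := by
      rw [← trace_conjTranspose, conjTranspose_mul, conjTranspose_conjTranspose, B.skewX a,
        B.skewX b]
      rw [neg_mul, neg_mul, trace_neg, trace_neg, trace_mul_comm]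
    have h2 : (trace ((B.X a)ᴴ * B.X b)).im = -(trace ((B.X a)ᴴ * B.X b)).im := by
      conv_lhs => rw [h1]
      simp
    have h3 : (trace ((B.X a)ᴴ * B.X b)).im = 0 := by linarith
    rw [h3]
    split_ifs <;> simp

/-- `LC` as a continuous linear map -/
def LCl : (Fin n → ℂ) →L[ℂ] Mat N :=
  LinearMap.toContinuousLinearMap
    { toFun := LC B
      map_add' := fun x y => by simp [LC, add_smul, Finset.sum_add_distrib]
      map_smul' := fun c x => by simp [LC, Finset.smul_sum, smul_smul] }

lemma LCl_apply (x : Fin n → ℂ) : LCl B x = LC B x := rfl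

lemma pC_LC (x : Fin n → ℂ) : pC B (LC B x) = x := by
  funext a
  rw [pC_apply]
  unfold LC
  rw [Finset.mul_sum, trace_sum]
  simp only [mul_smul_comm, trace_smul, trace_X, smul_eq_mul]
  simp

lemma LC_rl (x : Fin n → ℝ) : LC B (rl x) = LX B x := by
  unfold LC LX rl
  refine Finset.sum_congr rfl fun a _ => ?_
  ext i j
  simp

lemma EC_rl (x : Fin n → ℝ) : EC B (rl x) = EM B x := by
  unfold EC EM
  rw [LC_rl]

lemma LC_zero : LC B 0 = 0 := by simp [LC]

lemma EC_zero : EC B 0 = 1 := by rw [EC, LC_zero, NormedSpace.exp_zero]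

lemma EC_contDiff : ContDiff ℂ ∞ (EC B) := exp_contDiffC.comp (LCl B).contDiff

/-- product of exponentials in coordinates -/
def bC (x y : Fin n → ℂ) : Fin n → ℂ := pC B (Lgm N (EC B x * EC B y))

/-- the defect -/
def dC (x y : Fin n → ℂ) : Mat N := Lgm N (EC B x * EC B y) - LC B (bC B x y)

end

end Pool.Agent.N991.MK
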