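import Mathlib

/-!
# Holomorphy of integrals over a compact space depending on a parameter
-/

open MeasureTheory
open scoped ContDiff

namespace Pool.Agent.N991.MK

universe u

section

variable {Ω P : Type*} [TopologicalSpace Ω] [CompactSpace Ω] [SecondCountableTopology Ω]
    [MeasurableSpace Ω] [OpensMeasurableSpace Ω] (ν : Measure Ω) [IsFiniteMeasure ν]
    [NormedAddCommGroup P] [NormedSpace ℂ P] (κ : Ω → P) (hκ : Continuous κ)

include hκ in
theorem hasFDerivAt_integral_paramC {E F : Type*} [NormedAddCommGroup E] [NormedSpace ℂ E]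
    [ProperSpace E] [NormedAddCommGroup F] [NormedSpace ℂ F] [CompleteSpace F]
    (R : E × P → F) (hR : ContDiff ℂ 1 R) (x₀ : E) :
    HasFDerivAt (fun y : E => ∫ z, R (y, κ z) ∂ν)
      (∫ z, (fderiv ℂ R (x₀, κ z)).comp (ContinuousLinearMap.inl ℂ E P) ∂ν) x₀ := by
  set F' : E → Ω → (E →L[ℂ] F) := fun y z =>
    (fderiv ℂ R (y, κ z)).comp (ContinuousLinearMap.inl ℂ E P) with hF'
  have hcF : Continuous (fun p : E × Ω => F' p.1 p.2) := by
    have h1 : Continuous (fderiv ℂ R) := hR.continuous_fderiv (by norm_num)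
    exact (h1.comp (continuous_fst.prodMk (hκ.comp continuous_snd))).clm_comp continuous_const
  have hcR : Continuous (fun p : E × Ω => R (p.1, κ p.2)) :=
    hR.continuous.comp (continuous_fst.prodMk (hκ.comp continuous_snd))
  have hdR : ∀ y z, HasFDerivAt (fun y => R (y, κ z)) (F' y z) y := by
    intro y z
    have h1 : HasFDerivAt R (fderiv ℂ R (y, κ z)) (y, κ z) :=
      ((hR.differentiable (by norm_num)) (y, κ z)).hasFDerivAt
    exact h1.comp y (hasFDerivAt_prodMk_left y (κ z))
  have hK : IsCompact (Metric.closedBall x₀ 1 ×ˢ (Set.univ : Set Ω)) :=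
    (isCompact_closedBall x₀ 1).prod isCompact_univ
  obtain ⟨C, hC⟩ := hK.exists_bound_of_continuousOn hcF.continuousOn
  refine hasFDerivAt_integral_of_dominated_of_fderiv_le
    (F := fun y z => R (y, κ z)) (F' := F') (bound := fun _ => C)
    (Metric.closedBall_mem_nhds x₀ one_pos) ?_ ?_ ?_ ?_ ?_ ?_
  · refine Filter.Eventually.of_forall fun x => ?_
    exact (hcR.comp (Continuous.prodMk_right x)).aestronglyMeasurable
  · exact (hcR.comp (Continuous.prodMk_right x₀)).integrable_of_hasCompactSupport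
      (HasCompactSupport.of_compactSpace _)
  · exact (hcF.comp (Continuous.prodMk_right x₀)).aestronglyMeasurable
  · refine Filter.Eventually.of_forall fun t x hx => ?_
    exact hC (x, t) ⟨hx, Set.mem_univ _⟩
  · exact integrable_const _
  · exact Filter.Eventually.of_forall fun t x _ => hdR x t

include hκ in
theorem contDiff_integral_natC (n : ℕ) :
    ∀ (E F : Type u) [NormedAddCommGroup E] [NormedSpace ℂ E]
    [ProperSpace E] [NormedAddCommGroup F] [NormedSpace ℂ F] [CompleteSpace F]
    (R : E × P → F), ContDiff ℂ ∞ R → ContDiff ℂ n (fun y : E => ∫ z, R (y, κ z) ∂ν) := by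
  induction n with
  | zero =>
    intro E F _ _ _ _ _ _ R hR
    have h0 : ((0 : ℕ) : WithTop ℕ∞) = 0 := rfl
    rw [h0, contDiff_zero]
    have hcR : Continuous (fun p : E × Ω => R (p.1, κ p.2)) :=
      hR.continuous.comp (continuous_fst.prodMk (hκ.comp continuous_snd))
    have h := continuous_parametric_integral_of_continuous (μ := ν)
      (f := fun (x : E) (y : Ω) => R (x, κ y)) (s := Set.univ) hcR isCompact_univ
    simpa using h
  | succ n ih =>
    intro E F _ _ _ _ _ _ R hR
    have hmain := hasFDerivAt_integral_paramC ν κ hκ R (hR.of_le (by simp))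
    have h1 : (((n + 1 : ℕ) : ℕ) : WithTop ℕ∞) = (n : WithTop ℕ∞) + 1 := by norm_num
    rw [h1, contDiff_succ_iff_fderiv]
    refine ⟨fun x => (hmain x).differentiableAt, by simp, ?_⟩
    have e : fderiv ℂ (fun y : E => ∫ z, R (y, κ z) ∂ν) = fun x =>
        ∫ z, (fderiv ℂ R (x, κ z)).comp (ContinuousLinearMap.inl ℂ E P) ∂ν := by
      funext x
      exact (hmain x).fderiv
    rw [e]
    refine ih E (E →L[ℂ] F)
      (fun p => (fderiv ℂ R p).comp (ContinuousLinearMap.inl ℂ E P)) ?_
    have h2 : ContDiff ℂ ∞ (fderiv ℂ R) := hR.fderiv_right (m := ∞) (by simp)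
    exact h2.clm_comp contDiff_const

include hκ in
theorem contDiff_integral_paramC {E F : Type u} [NormedAddCommGroup E] [NormedSpace ℂ E]
    [ProperSpace E] [NormedAddCommGroup F] [NormedSpace ℂ F] [CompleteSpace F]
    (R : E × P → F) (hR : ContDiff ℂ ∞ R) : ContDiff ℂ ∞ (fun y : E => ∫ z, R (y, κ z) ∂ν) := by
  rw [contDiff_infty]
  intro n
  exact contDiff_integral_natC ν κ hκ n E F R hR

end

end Pool.Agent.N991.MK
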