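import Mathlib
import Pool.Agent.N991.MK.CLog
import Pool.Agent.N991.MK.Conv
import Pool.Agent.N991.MK.ParamC

/-!
# Entire extensions of class functions to invertible matrices
-/

open MeasureTheory Matrix Filter
open scoped Matrix.Norms.Frobenius ContDiff Topology
open Pool.Agent.H906R3.YM Pool.Agent.W793.YM Pool.Agent.TH618.YM Pool.Agent.N984.TW

namespace Pool.Agent.N991.MK

set_option linter.unusedSectionVars false

noncomputable section

variable {N n : ℕ} {G : Subgroup (UN N)} (B : Frame G n) (hG : IsClosed (G : Set (UN N)))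

/-- elements of `G` as invertible matrices -/
def uG : G →* (Mat N)ˣ where
  toFun g := ⟨mt g, mt g⁻¹, by rw [← mt_mul, mul_inv_cancel, mt_one],
    by rw [← mt_mul, inv_mul_cancel, mt_one]⟩
  map_one' := Units.ext (mt_one (G := G))
  map_mul' g h := Units.ext (mt_mul g h)

instance instSCU : SecondCountableTopology (UN N) :=
  TopologicalSpace.Subtype.secondCountableTopology (s := (UN N : Set (Mat N)))

instance instSCG : SecondCountableTopology G :=
  TopologicalSpace.Subtype.secondCountableTopology (s := (G : Set (UN N)))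

lemma uG_val (g : G) : ((uG g : (Mat N)ˣ) : Mat N) = mt g := rfl

lemma uG_inv_val (g : G) : (((uG g)⁻¹ : (Mat N)ˣ) : Mat N) = mt g⁻¹ := rfl

lemma LC_neg (x : Fin n → ℂ) : LC B (-x) = -LC B x := (LCl B).map_neg x

lemma LC_add (x y : Fin n → ℂ) : LC B (x + y) = LC B x + LC B y := (LCl B).map_add x y

lemma LC_smul (c : ℂ) (x : Fin n → ℂ) : LC B (c • x) = c • LC B x := (LCl B).map_smul c x

lemma EC_mul_neg (x : Fin n → ℂ) : EC B x * EC B (-x) = 1 := by
  unfold EC
  rw [LC_neg, ← Matrix.exp_add_of_commute _ _ ((Commute.refl (LC B x)).neg_right), add_neg_cancel,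
    NormedSpace.exp_zero]

lemma EC_neg_mul (x : Fin n → ℂ) : EC B (-x) * EC B x = 1 := by
  have := EC_mul_neg B (-x)
  rwa [neg_neg] at this

/-- exponentials as invertible matrices -/
def uE (x : Fin n → ℂ) : (Mat N)ˣ := ⟨EC B x, EC B (-x), EC_mul_neg B x, EC_neg_mul B x⟩

lemma uE_val (x : Fin n → ℂ) : ((uE B x : (Mat N)ˣ) : Mat N) = EC B x := rfl

lemma uE_inv_val (x : Fin n → ℂ) : (((uE B x)⁻¹ : (Mat N)ˣ) : Mat N) = EC B (-x) := rfl

lemma uE_neg (x : Fin n → ℂ) : uE B (-x) = (uE B x)⁻¹ := Units.ext rfl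

lemma uE_zero : uE B 0 = 1 := Units.ext (EC_zero B)

lemma uE_rl (x : Fin n → ℝ) : uE B (rl x) = uG (Eg B hG x) := by
  refine Units.ext ?_
  rw [uE_val, EC_rl, uG_val, mt_Eg]

lemma uE_add_smul (x : Fin n → ℂ) (s t : ℂ) :
    uE B ((s + t) • x) = uE B (s • x) * uE B (t • x) := by
  refine Units.ext ?_
  rw [Units.val_mul, uE_val, uE_val, uE_val]
  unfold EC
  rw [LC_smul, LC_smul, LC_smul, add_smul, ← Matrix.exp_add_of_commute]
  exact ((Commute.refl (LC B x)).smul_left s).smul_right t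

/-- functions of invertible matrices holomorphic in the matrix and its inverse -/
def Hol (F : (Mat N)ˣ → ℂ) : Prop := ∃ Φ : Mat N × Mat N → ℂ, ContDiff ℂ ∞ Φ ∧
  ∀ u, F u = Φ ((u : Mat N), ((u⁻¹ : (Mat N)ˣ) : Mat N))

lemma Hol.mul {F K : (Mat N)ˣ → ℂ} (hF : Hol F) (hK : Hol K) : Hol fun u => F u * K u := by
  obtain ⟨Φ, h1, h2⟩ := hF
  obtain ⟨Ψ, h3, h4⟩ := hK
  exact ⟨fun p => Φ p * Ψ p, h1.mul h3, fun u => by simp only [h2, h4]⟩

lemma Hol.pow {F : (Mat N)ˣ → ℂ} (hF : Hol F) (k : ℕ) : Hol fun u => F u ^ k := by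
  obtain ⟨Φ, h1, h2⟩ := hF
  exact ⟨fun p => Φ p ^ k, h1.pow k, fun u => by simp only [h2]⟩

/-- holomorphy along holomorphic curves -/
lemma Hol.curve {F : (Mat N)ˣ → ℂ} (hF : Hol F) {u : ℂ → (Mat N)ˣ}
    (h1 : ContDiff ℂ ∞ fun s => (u s : Mat N))
    (h2 : ContDiff ℂ ∞ fun s => (((u s)⁻¹ : (Mat N)ˣ) : Mat N)) :
    ContDiff ℂ ∞ fun s => F (u s) := by
  obtain ⟨Φ, h3, h4⟩ := hF
  have : (fun s => F (u s)) = fun s => Φ ((u s : Mat N), (((u s)⁻¹ : (Mat N)ˣ) : Mat N)) := by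
    funext s; rw [h4]
  rw [this]
  exact h3.comp (h1.prodMk h2)

lemma mt_cont' : Continuous (mt : G → Mat N) := mt_cont

lemma mt_inv_cont : Continuous (fun g : G => mt g⁻¹) := mt_cont.comp continuous_inv

lemma Hol.contG {F : (Mat N)ˣ → ℂ} (hF : Hol F) : Continuous fun g : G => F (uG g) := by
  obtain ⟨Φ, h3, h4⟩ := hF
  have : (fun g : G => F (uG g)) = fun g => Φ (mt g, mt g⁻¹) := by
    funext s; rw [h4]; rfl
  rw [this]
  exact h3.continuous.comp (mt_cont.prodMk mt_inv_cont)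

/-- joint continuity -/
lemma Hol.cont2 {F : (Mat N)ˣ → ℂ} (hF : Hol F) {T : Type*} [TopologicalSpace T]
    {u : T → (Mat N)ˣ} (h1 : Continuous fun s => (u s : Mat N))
    (h2 : Continuous fun s => (((u s)⁻¹ : (Mat N)ˣ) : Mat N)) :
    Continuous fun s => F (u s) := by
  obtain ⟨Φ, h3, h4⟩ := hF
  have : (fun s => F (u s)) = fun s => Φ ((u s : Mat N), (((u s)⁻¹ : (Mat N)ˣ) : Mat N)) := by
    funext s; rw [h4]
  rw [this]
  exact h3.continuous.comp (h1.prodMk h2)

section Conv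

variable [CompactSpace G] [MeasurableSpace G] [BorelSpace G]
  (μ : Measure G) [IsProbabilityMeasure μ] [μ.IsMulLeftInvariant] [μ.IsMulRightInvariant]
  [μ.IsInvInvariant]

/-- convolution of functions of invertible matrices -/
def convC (F K : (Mat N)ˣ → ℂ) (u : (Mat N)ˣ) : ℂ := ∫ z : G, F (uG z) * K ((uG z)⁻¹ * u) ∂μ

lemma Hol.convC {F K : (Mat N)ˣ → ℂ} (hF : Hol F) (hK : Hol K) : Hol (convC μ F K) := by
  obtain ⟨Φ, h1, h2⟩ := hF
  obtain ⟨Ψ, h3, h4⟩ := hK
  refine ⟨fun p => ∫ z : G, Φ (mt z, mt z⁻¹) * Ψ (mt z⁻¹ * p.1, p.2 * mt z) ∂μ, ?_, fun u => ?_⟩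
  · refine contDiff_integral_paramC μ (fun z : G => (mt z, mt z⁻¹))
      (mt_cont.prodMk mt_inv_cont) (fun q : (Mat N × Mat N) × (Mat N × Mat N) =>
        Φ q.2 * Ψ (q.2.2 * q.1.1, q.1.2 * q.2.1)) ?_
    refine (h1.comp contDiff_snd).mul (h3.comp (ContDiff.prodMk ?_ ?_))
    · exact (contDiff_snd.comp contDiff_snd).mul (contDiff_fst.comp contDiff_fst)
    · exact (contDiff_snd.comp contDiff_fst).mul (contDiff_fst.comp contDiff_snd)
  · unfold MK.convC
    refine integral_congr_ae (Eventually.of_forall fun z => ?_)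
    beta_reduce
    rw [h2, h4]
    rfl


/-- the data of a class function with its entire extension -/
structure CF (f : G → ℝ) (F : (Mat N)ˣ → ℂ) : Prop where
  hol : Hol F
  cls : ∀ (g : G) (u : (Mat N)ˣ), F (uG g * u * (uG g)⁻¹) = F u
  sym : ∀ u : (Mat N)ˣ, F u⁻¹ = F u
  res : ∀ g : G, F (uG g) = (f g : ℂ)

variable {μ}

lemma CF.swap {f : G → ℝ} {F : (Mat N)ˣ → ℂ} (h : CF f F) (g : G) (u : (Mat N)ˣ) :
    F (u * uG g) = F (uG g * u) := by
  have := h.cls g (u * uG g)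
  rw [← this]
  congr 1
  group

lemma CF.swap' {f : G → ℝ} {F : (Mat N)ˣ → ℂ} (h : CF f F) (g : G) (u : (Mat N)ˣ) :
    F ((uG g)⁻¹ * u) = F (u * uG g⁻¹) := by
  rw [← map_inv, h.swap]

lemma CF.clsR {f : G → ℝ} {F : (Mat N)ˣ → ℂ} (h : CF f F) : Cls f := by
  intro g x
  have h1 := h.cls g (uG x)
  rw [← map_inv, ← map_mul, ← map_mul, h.res, h.res] at h1
  exact_mod_cast h1

lemma CF.symR {f : G → ℝ} {F : (Mat N)ˣ → ℂ} (h : CF f F) : Sy f := by
  intro x
  have h1 := h.sym (uG x)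
  rw [← map_inv, h.res, h.res] at h1
  exact_mod_cast h1

lemma CF.cont {f : G → ℝ} {F : (Mat N)ˣ → ℂ} (h : CF f F) : Continuous f := by
  have h1 : Continuous fun g : G => F (uG g) := h.hol.contG
  have h2 : f = fun g => (F (uG g)).re := by
    funext g; rw [h.res]; simp
  rw [h2]
  exact Complex.continuous_re.comp h1

lemma CF.mul {f k : G → ℝ} {F K : (Mat N)ˣ → ℂ} (hF : CF f F) (hK : CF k K) :
    CF (fun x => f x * k x) (fun u => F u * K u) where
  hol := hF.hol.mul hK.hol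
  cls g u := by beta_reduce; rw [hF.cls, hK.cls]
  sym u := by beta_reduce; rw [hF.sym, hK.sym]
  res g := by beta_reduce; rw [hF.res, hK.res]; push_cast; rfl

lemma CF.pow {f : G → ℝ} {F : (Mat N)ˣ → ℂ} (hF : CF f F) (k : ℕ) :
    CF (fun x => f x ^ k) (fun u => F u ^ k) where
  hol := hF.hol.pow k
  cls g u := by beta_reduce; rw [hF.cls]
  sym u := by beta_reduce; rw [hF.sym]
  res g := by beta_reduce; rw [hF.res]; push_cast; rfl

lemma CF.convC {f k : G → ℝ} {F K : (Mat N)ˣ → ℂ} (hF : CF f F) (hK : CF k K) :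
    CF (conv μ f k) (convC μ F K) where
  hol := hF.hol.convC μ hK.hol
  cls g u := by
    unfold MK.convC
    rw [← integral_mul_left_eq_self (μ := μ)
      (fun y : G => F (uG y) * K ((uG y)⁻¹ * (uG g * u * (uG g)⁻¹))) g,
      ← integral_mul_right_eq_self (μ := μ) _ g⁻¹]
    refine integral_congr_ae (Filter.Eventually.of_forall fun y => ?_)
    beta_reduce
    have h1 : uG (g * (y * g⁻¹)) = uG g * uG y * (uG g)⁻¹ := by
      rw [map_mul, map_mul, map_inv]; group
    have h2 : (uG (g * (y * g⁻¹)))⁻¹ * (uG g * u * (uG g)⁻¹)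
        = uG g * ((uG y)⁻¹ * u) * (uG g)⁻¹ := by rw [h1]; group
    rw [h2, hK.cls, h1, hF.cls]
  sym u := by
    unfold MK.convC
    rw [← integral_inv_eq_self (μ := μ) (fun y : G => F (uG y) * K ((uG y)⁻¹ * u⁻¹))]
    refine integral_congr_ae (Filter.Eventually.of_forall fun y => ?_)
    beta_reduce
    rw [map_inv, hF.sym, inv_inv]
    congr 1
    have h1 : uG y * u⁻¹ = (u * (uG y)⁻¹)⁻¹ := by group
    rw [h1, hK.sym, ← map_inv, hK.swap]
  res g := by
    unfold MK.convC conv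
    rw [← integral_complex_ofReal]
    refine integral_congr_ae (Filter.Eventually.of_forall fun y => ?_)
    beta_reduce
    rw [← map_inv, ← map_mul, hF.res, hK.res]
    push_cast
    rfl

end Conv

end

end Pool.Agent.N991.MK
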