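import Mathlib
import Pool.Agent.N991.MK.Ent

/-!
# The contour shift
-/

open MeasureTheory Matrix Filter
open scoped Matrix.Norms.Frobenius ContDiff Topology
open Pool.Agent.H906R3.YM Pool.Agent.W793.YM Pool.Agent.TH618.YM Pool.Agent.N984.TW

namespace Pool.Agent.N991.MK

set_option linter.unusedSectionVars false

noncomputable section

/-- the real points accumulate at zero -/
lemma freq_real {p : ℂ → Prop} (h : ∀ᶠ t : ℝ in 𝓝 0, p t) : ∃ᶠ z in 𝓝[≠] (0 : ℂ), p z := by
  have h1 : Tendsto (fun t : ℝ => (t : ℂ)) (𝓝[≠] 0) (𝓝[≠] 0) := by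
    refine tendsto_nhdsWithin_iff.2 ⟨?_, ?_⟩
    · have := Complex.continuous_ofReal.tendsto 0
      rw [Complex.ofReal_zero] at this
      exact this.mono_left nhdsWithin_le_nhds
    · filter_upwards [self_mem_nhdsWithin] with t ht
      simpa using ht
  have h2 : ∀ᶠ t : ℝ in 𝓝[≠] 0, p t := h.filter_mono nhdsWithin_le_nhds
  exact h1.frequently h2.frequently

/-- the identity theorem for entire functions equal at the real points -/
lemma eq_of_real_eq {f g : ℂ → ℂ} (hf : Differentiable ℂ f) (hg : Differentiable ℂ g)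
    (h : ∀ t : ℝ, f t = g t) : f = g := by
  refine AnalyticOnNhd.eq_of_frequently_eq (z₀ := 0) (fun z _ => hf.analyticAt z)
    (fun z _ => hg.analyticAt z) ?_
  exact freq_real (Eventually.of_forall h)

variable {N n : ℕ} {G : Subgroup (UN N)} (B : Frame G n) (hG : IsClosed (G : Set (UN N)))

/-- a complex line through real coordinates -/
def ln (a b : Fin n → ℝ) (s : ℂ) : Fin n → ℂ := rl a + s • rl b

lemma ln_real (a b : Fin n → ℝ) (t : ℝ) : ln a b t = rl (a + t • b) := by
  funext i
  simp [ln, rl]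

lemma ln_I (x : Fin n → ℂ) : ln (reP x) (imP x) Complex.I = x := by
  funext i
  simp only [ln, rl, reP, imP, Pi.add_apply, Pi.smul_apply, smul_eq_mul]
  rw [mul_comm]
  exact Complex.re_add_im (x i)

lemma ln_contDiff (a b : Fin n → ℝ) : ContDiff ℂ ∞ (ln a b) :=
  contDiff_const.add (contDiff_id.smul contDiff_const)

lemma EC_ln_contDiff (a b : Fin n → ℝ) : ContDiff ℂ ∞ fun s => EC B (ln a b s) :=
  (EC_contDiff B).comp (ln_contDiff a b)

lemma EC_ln_contDiff' (a b : Fin n → ℝ) : ContDiff ℂ ∞ fun s => EC B (-ln a b s) :=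
  (EC_contDiff B).comp (ln_contDiff a b).neg

variable [CompactSpace G] [MeasurableSpace G] [BorelSpace G]
  {μ : Measure G} [IsProbabilityMeasure μ] [μ.IsMulLeftInvariant] [μ.IsMulRightInvariant]
  [μ.IsInvInvariant]

include hG in
/-- the contour shift -/
theorem convC_shift {F K : (Mat N)ˣ → ℂ} (hF : Hol F) (hK : Hol K) (x : Fin n → ℂ)
    (w : (Mat N)ˣ) :
    convC μ F K (uE B x * w) = ∫ z : G, F (uE B x * uG z) * K ((uG z)⁻¹ * w) ∂μ := by
  set a := reP x
  set b := imP x
  have h1 : (fun s : ℂ => convC μ F K (uE B (ln a b s) * w)) =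
      fun s : ℂ => ∫ z : G, F (uE B (ln a b s) * uG z) * K ((uG z)⁻¹ * w) ∂μ := by
    refine eq_of_real_eq ?_ ?_ ?_
    · refine ContDiff.differentiable ((hF.convC μ hK).curve
        (u := fun s => uE B (ln a b s) * w) ?_ ?_) (by simp)
      · exact (EC_ln_contDiff B a b).mul contDiff_const
      · have : (fun s => (((uE B (ln a b s) * w)⁻¹ : (Mat N)ˣ) : Mat N)) =
            fun s => ((w⁻¹ : (Mat N)ˣ) : Mat N) * EC B (-ln a b s) := by
          funext s
          rw [_root_.mul_inv_rev]
          rfl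
        rw [this]
        exact contDiff_const.mul (EC_ln_contDiff' B a b)
    · obtain ⟨Φ, h1, h2⟩ := hF
      obtain ⟨Ψ, h3, h4⟩ := hK
      have h5 : (fun s : ℂ => ∫ z : G, F (uE B (ln a b s) * uG z) * K ((uG z)⁻¹ * w) ∂μ) =
          fun s : ℂ => ∫ z : G, Φ (EC B (ln a b s) * mt z, mt z⁻¹ * EC B (-ln a b s)) *
            Ψ (mt z⁻¹ * w, ((w⁻¹ : (Mat N)ˣ) : Mat N) * mt z) ∂μ := by
        funext s
        refine integral_congr_ae (Eventually.of_forall fun z => ?_)
        beta_reduce
        rw [h2, h4, _root_.mul_inv_rev, _root_.mul_inv_rev, inv_inv]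
        rfl
      rw [h5]
      refine ContDiff.differentiable (n := ∞) ?_ (by simp)
      refine contDiff_integral_paramC μ (fun z : G => (mt z, mt z⁻¹))
        (mt_cont.prodMk mt_inv_cont) (fun q : ℂ × (Mat N × Mat N) =>
          Φ (EC B (ln a b q.1) * q.2.1, q.2.2 * EC B (-ln a b q.1)) *
            Ψ (q.2.2 * w, ((w⁻¹ : (Mat N)ˣ) : Mat N) * q.2.1)) ?_
      have e1 : ContDiff ℂ ∞ fun q : ℂ × (Mat N × Mat N) => q.2.1 :=
        contDiff_fst.comp contDiff_snd
      have e2 : ContDiff ℂ ∞ fun q : ℂ × (Mat N × Mat N) => q.2.2 :=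
        contDiff_snd.comp contDiff_snd
      refine (h1.comp (ContDiff.prodMk ?_ ?_)).mul (h3.comp (ContDiff.prodMk ?_ ?_))
      · exact ((EC_ln_contDiff B a b).comp contDiff_fst).mul e1
      · exact e2.mul ((EC_ln_contDiff' B a b).comp contDiff_fst)
      · exact e2.mul contDiff_const
      · exact contDiff_const.mul e1
    · intro t
      rw [ln_real, uE_rl B hG]
      unfold convC
      set g := Eg B hG (a + t • b)
      rw [← integral_mul_left_eq_self (μ := μ)
        (fun y : G => F (uG y) * K ((uG y)⁻¹ * (uG g * w))) g]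
      refine integral_congr_ae (Eventually.of_forall fun z => ?_)
      beta_reduce
      rw [map_mul]
      congr 2
      group
  have h2 := congrFun h1 Complex.I
  beta_reduce at h2
  rwa [ln_I] at h2

end

end Pool.Agent.N991.MK
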