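import Mathlib
import Pool.Agent.N984.TW.Chart1

/-!
# The group multiplication in exponential coordinates
-/

open MeasureTheory Matrix Filter
open scoped Matrix.Norms.Frobenius ContDiff Topology
open Pool.Agent.H906R3.YM Pool.Agent.W793.YM Pool.Agent.TH618.YM Pool.Agent.N984.TW

namespace Pool.Agent.N991.MK

set_option linter.unusedSectionVars false

noncomputable section

variable {N n : ℕ} {G : Subgroup (UN N)} (B : Frame G n) (hG : IsClosed (G : Set (UN N)))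

lemma h8 : (8 : WithTop ℕ∞) ≤ ∞ := by
  have : ((8 : ℕ∞) : WithTop ℕ∞) ≤ ((⊤ : ℕ∞) : WithTop ℕ∞) := WithTop.coe_le_coe.2 le_top
  exact this

/-- the logarithm of a product of two exponentials -/
def bch (Y W : Fin n → ℝ) : Fin n → ℝ := lgM B (EM B Y * EM B W)

lemma bch_zero_left : ∀ᶠ W in 𝓝 (0 : Fin n → ℝ), bch B 0 W = W := by
  filter_upwards [lgM_EM B] with W hW
  unfold bch
  rw [EM_zero, one_mul, hW]

lemma bch_zero_right : ∀ᶠ W in 𝓝 (0 : Fin n → ℝ), bch B W 0 = W := by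
  filter_upwards [lgM_EM B] with W hW
  unfold bch
  rw [EM_zero, mul_one, hW]

lemma prod_cont : Continuous fun p : (Fin n → ℝ) × (Fin n → ℝ) => EM B p.1 * EM B p.2 :=
  ((EM_contDiff B).continuous.comp continuous_fst).mul
    ((EM_contDiff B).continuous.comp continuous_snd)

lemma bch_contDiffAt : ∀ᶠ p in 𝓝 (0 : (Fin n → ℝ) × (Fin n → ℝ)),
    ContDiffAt ℝ 8 (fun p : (Fin n → ℝ) × (Fin n → ℝ) => bch B p.1 p.2) p := by
  have h1 : ∀ᶠ A in 𝓝 (1 : Mat N), ContDiffAt ℝ 8 (lgM B) A := by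
    have h := (lgM_contDiffAt B).of_le (m := 8) h8
    exact h.eventually (by simp)
  have h2 : Tendsto (fun p : (Fin n → ℝ) × (Fin n → ℝ) => EM B p.1 * EM B p.2) (𝓝 0) (𝓝 1) := by
    have := (prod_cont B).tendsto 0
    simpa [EM_zero] using this
  filter_upwards [h2.eventually h1] with p hp
  have h3 : ContDiffAt ℝ 8 (fun p : (Fin n → ℝ) × (Fin n → ℝ) => EM B p.1 * EM B p.2) p := by
    have h4 : ContDiff ℝ 8 (EM B) := (EM_contDiff B).of_le h8
    exact ((h4.comp contDiff_fst).mul (h4.comp contDiff_snd)).contDiffAt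
  exact hp.comp p h3

lemma Eg_bch : ∀ᶠ p in 𝓝 (0 : (Fin n → ℝ) × (Fin n → ℝ)),
    Eg B hG (bch B p.1 p.2) = Eg B hG p.1 * Eg B hG p.2 := by
  have h2 : Tendsto (fun p : (Fin n → ℝ) × (Fin n → ℝ) => Eg B hG p.1 * Eg B hG p.2) (𝓝 0)
      (𝓝 1) := by
    have hc : Continuous fun p : (Fin n → ℝ) × (Fin n → ℝ) => Eg B hG p.1 * Eg B hG p.2 :=
      ((Eg_cont B hG).comp continuous_fst).mul ((Eg_cont B hG).comp continuous_snd)
    have := hc.tendsto 0
    simpa [Eg_zero] using this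
  filter_upwards [h2.eventually (Eg_lg B hG)] with p hp
  rw [← hp]
  congr 1
  unfold lg bch
  rw [mt_mul, mt_Eg, mt_Eg]

/-- the properties of the chart on a ball -/
structure Good (ρ : ℝ) : Prop where
  pos : 0 < ρ
  le_one : ρ ≤ 1
  smooth : ∀ Y W : Fin n → ℝ, ‖Y‖ ≤ ρ → ‖W‖ ≤ ρ →
    ContDiffAt ℝ 8 (fun p : (Fin n → ℝ) × (Fin n → ℝ) => bch B p.1 p.2) (Y, W)
  mul : ∀ Y W : Fin n → ℝ, ‖Y‖ ≤ ρ → ‖W‖ ≤ ρ →
    Eg B hG (bch B Y W) = Eg B hG Y * Eg B hG W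
  zero_left : ∀ W : Fin n → ℝ, ‖W‖ ≤ ρ → bch B 0 W = W
  zero_right : ∀ W : Fin n → ℝ, ‖W‖ ≤ ρ → bch B W 0 = W
  lg_Eg : ∀ W : Fin n → ℝ, ‖W‖ ≤ ρ → lg B (Eg B hG W) = W
  Eg_lg : ∀ g : G, ‖mt g - 1‖ ≤ ρ → Eg B hG (lg B g) = g

lemma nhds_one_of {p : G → Prop} (h : ∀ᶠ g in 𝓝 (1 : G), p g) :
    ∃ ρ : ℝ, 0 < ρ ∧ ∀ g : G, ‖mt g - 1‖ ≤ ρ → p g := by
  have h1 : (𝓝 (1 : G)) = comap (mt : G → Mat N) (𝓝 1) := by
    rw [nhds_induced, nhds_induced, comap_comap]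
    rfl
  rw [h1, eventually_comap] at h
  obtain ⟨ε, hε, hb⟩ := Metric.eventually_nhds_iff.1 h
  refine ⟨ε / 2, half_pos hε, fun g hg => hb ?_ g rfl⟩
  rw [dist_eq_norm]
  linarith

theorem exists_good : ∃ ρ : ℝ, Good B hG ρ := by
  have e1 := (bch_contDiffAt B).and (Eg_bch B hG)
  obtain ⟨r1, hr1, h1⟩ := Metric.eventually_nhds_iff.1 e1
  have e2 := (bch_zero_left B).and ((bch_zero_right B).and (lgM_EM B))
  obtain ⟨r2, hr2, h2⟩ := Metric.eventually_nhds_iff.1 e2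
  obtain ⟨r3, hr3, h3⟩ := nhds_one_of (Eg_lg B hG)
  refine ⟨min (min (r1 / 2) (r2 / 2)) (min r3 1), ?_, ?_, ?_, ?_, ?_, ?_, ?_, ?_⟩
  · positivity
  · exact (min_le_right _ _).trans (min_le_right _ _)
  · intro Y W hY hW
    refine (h1 (y := (Y, W)) ?_).1
    rw [dist_zero_right, Prod.norm_def]
    have h4 : min (min (r1 / 2) (r2 / 2)) (min r3 1) ≤ r1 / 2 :=
      (min_le_left _ _).trans (min_le_left _ _)
    exact lt_of_le_of_lt (max_le (hY.trans h4) (hW.trans h4)) (by linarith)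
  · intro Y W hY hW
    refine (h1 (y := (Y, W)) ?_).2
    rw [dist_zero_right, Prod.norm_def]
    have h4 : min (min (r1 / 2) (r2 / 2)) (min r3 1) ≤ r1 / 2 :=
      (min_le_left _ _).trans (min_le_left _ _)
    exact lt_of_le_of_lt (max_le (hY.trans h4) (hW.trans h4)) (by linarith)
  all_goals have h4 : min (min (r1 / 2) (r2 / 2)) (min r3 1) ≤ r2 / 2 :=
      (min_le_left _ _).trans (min_le_right _ _)
  · intro W hW
    exact (h2 (y := W) (by rw [dist_zero_right]; linarith)).1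
  · intro W hW
    exact (h2 (y := W) (by rw [dist_zero_right]; linarith)).2.1
  · intro W hW
    unfold lg
    rw [mt_Eg]
    exact (h2 (y := W) (by rw [dist_zero_right]; linarith)).2.2
  · intro g hg
    exact h3 g (hg.trans ((min_le_right _ _).trans (min_le_left _ _)))

end

end Pool.Agent.N991.MK
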