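import Mathlib
import Pool.Agent.N991.MK.Bch
import Pool.Agent.N991.MK.Shift

/-!
# The product of two exponentials of elements of the complexified Lie algebra
-/

open MeasureTheory Matrix Filter
open scoped Matrix.Norms.Frobenius ContDiff Topology
open Pool.Agent.H906R3.YM Pool.Agent.W793.YM Pool.Agent.TH618.YM Pool.Agent.N984.TW

namespace Pool.Agent.N991.MK

set_option linter.unusedSectionVars false

noncomputable section

variable {N n : ℕ} {G : Subgroup (UN N)} (B : Frame G n) (hG : IsClosed (G : Set (UN N)))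

lemma Lgm_one : Lgm N 1 = 0 := by
  have := (Lgm_left (N := N)).self_of_nhds
  rwa [NormedSpace.exp_zero] at this

/-- the logarithm of the product is smooth near the origin -/
lemma LgEE_contDiffAt : ∀ᶠ p in 𝓝 (0 : (Fin n → ℂ) × (Fin n → ℂ)),
    ContDiffAt ℂ 8 (fun p : (Fin n → ℂ) × (Fin n → ℂ) => Lgm N (EC B p.1 * EC B p.2)) p := by
  have h1 : ∀ᶠ A in 𝓝 (1 : Mat N), ContDiffAt ℂ 8 (Lgm N) A := by
    have h := (Lgm_contDiffAt (N := N)).of_le (m := 8) h8
    exact h.eventually (by simp)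
  have hc : ContDiff ℂ 8 fun p : (Fin n → ℂ) × (Fin n → ℂ) => EC B p.1 * EC B p.2 := by
    have h4 : ContDiff ℂ 8 (EC B) := (EC_contDiff B).of_le h8
    exact (h4.comp contDiff_fst).mul (h4.comp contDiff_snd)
  have h2 : Tendsto (fun p : (Fin n → ℂ) × (Fin n → ℂ) => EC B p.1 * EC B p.2) (𝓝 0) (𝓝 1) := by
    have h := hc.continuous.tendsto 0
    have e : EC B (0 : (Fin n → ℂ) × (Fin n → ℂ)).1 * EC B (0 : (Fin n → ℂ) × (Fin n → ℂ)).2
        = 1 := by
      rw [Prod.fst_zero, Prod.snd_zero, EC_zero, one_mul]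
    rw [e] at h
    exact h
  filter_upwards [h2.eventually h1] with p hp
  exact hp.comp p hc.contDiffAt

/-- the logarithm of a group element near the identity -/
lemma Lgm_mt (hG : IsClosed (G : Set (UN N))) :
    ∀ᶠ g in 𝓝 (1 : G), Lgm N (mt g) = LC B (rl (lg B g)) := by
  have h1 : Tendsto (fun g : G => lg B g) (𝓝 1) (𝓝 0) := by
    have := (lgM_contDiffAt B).continuousAt.tendsto.comp (mt_tendsto (G := G))
    rwa [lgM_one] at this
  have h2 : Tendsto (fun g : G => LX B (lg B g)) (𝓝 1) (𝓝 0) := by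
    have := ((LX_contDiff B).continuous.tendsto 0).comp h1
    rwa [LX_zero] at this
  filter_upwards [h2.eventually (Lgm_left (N := N)), Eg_lg B hG] with g h3 h4
  have h5 : mt g = NormedSpace.exp (LX B (lg B g)) := by
    conv_lhs => rw [← h4]
    rw [mt_Eg]
    rfl
  rw [LC_rl, h5]
  rw [← h5]
  rw [← h5] at h3
  exact h3

lemma real_prod (hG : IsClosed (G : Set (UN N))) :
    ∀ᶠ p in 𝓝 (0 : (Fin n → ℝ) × (Fin n → ℝ)),
      Lgm N (EC B (rl p.1) * EC B (rl p.2)) = LC B (rl (lg B (Eg B hG p.1 * Eg B hG p.2))) := by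
  have h2 : Tendsto (fun p : (Fin n → ℝ) × (Fin n → ℝ) => Eg B hG p.1 * Eg B hG p.2) (𝓝 0)
      (𝓝 1) := by
    have hc : Continuous fun p : (Fin n → ℝ) × (Fin n → ℝ) => Eg B hG p.1 * Eg B hG p.2 :=
      ((Eg_cont B hG).comp continuous_fst).mul ((Eg_cont B hG).comp continuous_snd)
    have := hc.tendsto 0
    simpa [Eg_zero] using this
  filter_upwards [h2.eventually (Lgm_mt B hG)] with p hp
  rw [EC_rl, EC_rl, ← mt_Eg B hG, ← mt_Eg B hG, ← mt_mul, hp]

lemma norm_rl (a : Fin n → ℝ) : ‖rl a‖ = ‖a‖ := by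
  unfold rl
  simp only [Pi.norm_def]
  congr 2
  funext i
  apply NNReal.eq
  simp

lemma norm_reP (x : Fin n → ℂ) : ‖reP x‖ ≤ ‖x‖ := by
  refine (pi_norm_le_iff_of_nonneg (norm_nonneg _)).2 fun i => ?_
  exact (Complex.abs_re_le_norm (x i)).trans (norm_le_pi_norm x i)

lemma norm_imP (x : Fin n → ℂ) : ‖imP x‖ ≤ ‖x‖ := by
  refine (pi_norm_le_iff_of_nonneg (norm_nonneg _)).2 fun i => ?_
  exact (Complex.abs_im_le_norm (x i)).trans (norm_le_pi_norm x i)

lemma norm_ln (a b : Fin n → ℝ) (s : ℂ) : ‖ln a b s‖ ≤ ‖a‖ + ‖s‖ * ‖b‖ := by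
  unfold ln
  refine (norm_add_le _ _).trans ?_
  rw [norm_rl, norm_smul, norm_rl]

/-- the identity theorem for functions of two complex vectors vanishing at real vectors -/
lemma ident2 {m : ℕ} {E : Type*} [NormedAddCommGroup E] [NormedSpace ℂ E] [CompleteSpace E]
    (H : (Fin n → ℂ) × (Fin m → ℂ) → E) {R : ℝ} (hR : 0 < R)
    (hd : ∀ x y, ‖x‖ < 4 * R → ‖y‖ < 4 * R → DifferentiableAt ℂ H (x, y))
    (hr : ∀ a c, ‖a‖ < 4 * R → ‖c‖ < 4 * R → H (rl a, rl c) = 0) (x : Fin n → ℂ) (y : Fin m → ℂ)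
    (hx : ‖x‖ < R) (hy : ‖y‖ < R) : H (x, y) = 0 := by
  have ha := (norm_reP x).trans_lt hx
  have hb := (norm_imP x).trans_lt hx
  have hc := (norm_reP y).trans_lt hy
  have hd' := (norm_imP y).trans_lt hy
  set f : ℂ → E := fun s => H (ln (reP x) (imP x) s, ln (reP y) (imP y) s) with hf
  have hdiff : ∀ s ∈ Metric.ball (0 : ℂ) 2, DifferentiableAt ℂ f s := by
    intro s hs
    rw [mem_ball_zero_iff] at hs
    have hb1 : ‖ln (reP x) (imP x) s‖ < 4 * R := by
      have := norm_ln (reP x) (imP x) s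
      have h3 : ‖s‖ * ‖imP x‖ ≤ 2 * ‖imP x‖ := mul_le_mul_of_nonneg_right hs.le (norm_nonneg _)
      linarith
    have hb2 : ‖ln (reP y) (imP y) s‖ < 4 * R := by
      have := norm_ln (reP y) (imP y) s
      have h3 : ‖s‖ * ‖imP y‖ ≤ 2 * ‖imP y‖ := mul_le_mul_of_nonneg_right hs.le (norm_nonneg _)
      linarith
    have h6 : DifferentiableAt ℂ (fun s => (ln (reP x) (imP x) s, ln (reP y) (imP y) s)) s :=
      ((ln_contDiff _ _).differentiable (by simp) s).prodMk
      ((ln_contDiff _ _).differentiable (by simp) s)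
    exact DifferentiableAt.comp (g := H) s (hd _ _ hb1 hb2) h6
  have han : AnalyticOnNhd ℂ f (Metric.ball 0 2) :=
    DifferentiableOn.analyticOnNhd (fun s hs => (hdiff s hs).differentiableWithinAt)
      Metric.isOpen_ball
  have hz : Set.EqOn f (fun _ => 0) (Metric.ball 0 2) := by
    refine AnalyticOnNhd.eqOn_of_preconnected_of_frequently_eq (z₀ := 0) han
      (fun z _ => analyticAt_const) (convex_ball _ _).isPreconnected (by simp) ?_
    refine freq_real ?_
    filter_upwards [Metric.ball_mem_nhds (0 : ℝ) one_pos] with t ht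
    rw [mem_ball_zero_iff, Real.norm_eq_abs] at ht
    rw [hf]
    beta_reduce
    rw [ln_real, ln_real]
    refine hr _ _ ?_ ?_
    · refine (norm_add_le _ _).trans_lt ?_
      rw [norm_smul, Real.norm_eq_abs]
      have : |t| * ‖imP x‖ ≤ 1 * ‖imP x‖ := mul_le_mul_of_nonneg_right ht.le (norm_nonneg _)
      linarith
    · refine (norm_add_le _ _).trans_lt ?_
      rw [norm_smul, Real.norm_eq_abs]
      have : |t| * ‖imP y‖ ≤ 1 * ‖imP y‖ := mul_le_mul_of_nonneg_right ht.le (norm_nonneg _)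
      linarith
  have h8 := hz (x := Complex.I) (by rw [mem_ball_zero_iff, Complex.norm_I]; norm_num)
  simp only [hf, ln_I] at h8
  exact h8

lemma bC_eq (p : (Fin n → ℂ) × (Fin n → ℂ)) :
    bC B p.1 p.2 = pC B (Lgm N (EC B p.1 * EC B p.2)) := rfl

lemma dC_eq (p : (Fin n → ℂ) × (Fin n → ℂ)) : dC B p.1 p.2 =
    Lgm N (EC B p.1 * EC B p.2) - LCl B (pC B (Lgm N (EC B p.1 * EC B p.2))) := rfl

attribute [local irreducible] Lgm

lemma bC_contDiffAt : ∀ᶠ p in 𝓝 (0 : (Fin n → ℂ) × (Fin n → ℂ)),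
    ContDiffAt ℂ 8 (fun p : (Fin n → ℂ) × (Fin n → ℂ) => bC B p.1 p.2) p := by
  filter_upwards [LgEE_contDiffAt B] with p hp
  exact (pC B).contDiff.contDiffAt.comp p hp

include hG in
/-- the logarithm of the product is in the complexified Lie algebra -/
lemma dC_zero : ∀ᶠ p in 𝓝 (0 : (Fin n → ℂ) × (Fin n → ℂ)), dC B p.1 p.2 = 0 := by
  obtain ⟨R1, hR1, h1⟩ := Metric.eventually_nhds_iff.1 (LgEE_contDiffAt B)
  obtain ⟨R2, hR2, h2⟩ := Metric.eventually_nhds_iff.1 (real_prod B hG)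
  have hR : 0 < min R1 R2 / 4 := by positivity
  refine Metric.eventually_nhds_iff.2 ⟨min R1 R2 / 4, hR, ?_⟩
  rintro ⟨x, y⟩ hxy
  rw [dist_zero_right, Prod.norm_def, max_lt_iff] at hxy
  refine ident2 (fun p => dC B p.1 p.2) hR ?_ ?_ x y hxy.1 hxy.2
  · intro x y hx hy
    have h3 := h1 (y := (x, y)) (by
      rw [dist_zero_right, Prod.norm_def, max_lt_iff]
      exact ⟨by linarith [min_le_left R1 R2], by linarith [min_le_left R1 R2]⟩)
    have h5 : DifferentiableAt ℂ (fun p : (Fin n → ℂ) × (Fin n → ℂ) =>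
        Lgm N (EC B p.1 * EC B p.2)) (x, y) := h3.differentiableAt (by norm_num)
    simp only [dC_eq]
    exact h5.sub ((LCl B).differentiableAt.comp _ ((pC B).differentiableAt.comp _ h5))
  · intro a c ha hc
    have h7 := h2 (y := (a, c)) (by
      rw [dist_zero_right, Prod.norm_def, max_lt_iff]
      exact ⟨by linarith [min_le_right R1 R2], by linarith [min_le_right R1 R2]⟩)
    simp only at h7
    unfold dC bC
    rw [h7, pC_LC, sub_self]

end

end Pool.Agent.N991.MK
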