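import Mathlib
import Pool.Agent.N991.MK.CLog2

/-!
# Euclidean norms of coordinates, and the statement L2
-/

open MeasureTheory Matrix Filter
open scoped Matrix.Norms.Frobenius ContDiff Topology
open Pool.Agent.H906R3.YM Pool.Agent.W793.YM Pool.Agent.TH618.YM Pool.Agent.N984.TW

namespace Pool.Agent.N991.MK

set_option linter.unusedSectionVars false

noncomputable section

variable {N n : ℕ} {G : Subgroup (UN N)} (B : Frame G n) (hG : IsClosed (G : Set (UN N)))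

lemma nC_eq (x : Fin n → ℂ) : nC x = ‖WithLp.toLp 2 x‖ := by
  rw [EuclideanSpace.norm_eq]
  rfl

lemma nE_eq (x : Fin n → ℝ) : nE x = ‖WithLp.toLp 2 x‖ := by
  rw [EuclideanSpace.norm_eq]
  unfold nE
  simp

lemma nC_nonneg (x : Fin n → ℂ) : 0 ≤ nC x := Real.sqrt_nonneg _

lemma nE_nonneg (x : Fin n → ℝ) : 0 ≤ nE x := Real.sqrt_nonneg _

lemma nC_sq (x : Fin n → ℂ) : nC x ^ 2 = ∑ a, ‖x a‖ ^ 2 :=
  Real.sq_sqrt (Finset.sum_nonneg fun _ _ => sq_nonneg _)

lemma nE_sq (x : Fin n → ℝ) : nE x ^ 2 = ∑ a, x a ^ 2 :=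
  Real.sq_sqrt (Finset.sum_nonneg fun _ _ => sq_nonneg _)

lemma nC_add_le (x y : Fin n → ℂ) : nC (x + y) ≤ nC x + nC y := by
  simp only [nC_eq, WithLp.toLp_add]
  exact norm_add_le _ _

lemma nE_add_le (x y : Fin n → ℝ) : nE (x + y) ≤ nE x + nE y := by
  simp only [nE_eq, WithLp.toLp_add]
  exact norm_add_le _ _

lemma nC_neg (x : Fin n → ℂ) : nC (-x) = nC x := by simp [nC]

lemma nE_neg (x : Fin n → ℝ) : nE (-x) = nE x := by simp [nE]

lemma nC_sub_le (x y : Fin n → ℂ) : nC (x - y) ≤ nC x + nC y := by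
  rw [sub_eq_add_neg, ← nC_neg y]; exact nC_add_le _ _

lemma nE_sub_le (x y : Fin n → ℝ) : nE (x - y) ≤ nE x + nE y := by
  rw [sub_eq_add_neg, ← nE_neg y]; exact nE_add_le _ _

lemma nC_smul (c : ℂ) (x : Fin n → ℂ) : nC (c • x) = ‖c‖ * nC x := by
  simp only [nC_eq, WithLp.toLp_smul]
  exact norm_smul _ _

lemma nE_smul (c : ℝ) (x : Fin n → ℝ) : nE (c • x) = |c| * nE x := by
  simp only [nE_eq, WithLp.toLp_smul]
  exact norm_smul _ _

lemma nC_rl (x : Fin n → ℝ) : nC (rl x) = nE x := by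
  simp [nC, nE, rl]

lemma nC_zero : nC (0 : Fin n → ℂ) = 0 := by simp [nC]

lemma nE_zero : nE (0 : Fin n → ℝ) = 0 := by simp [nE]

lemma norm_le_nC (x : Fin n → ℂ) : ‖x‖ ≤ nC x := by
  refine (pi_norm_le_iff_of_nonneg (nC_nonneg _)).2 fun i => ?_
  refine Real.le_sqrt_of_sq_le ?_
  exact Finset.single_le_sum (f := fun a => ‖x a‖ ^ 2) (fun _ _ => sq_nonneg _) (Finset.mem_univ i)

lemma norm_le_nE (x : Fin n → ℝ) : ‖x‖ ≤ nE x := by
  rw [← norm_rl, ← nC_rl]; exact norm_le_nC _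

lemma nC_le_norm (x : Fin n → ℂ) : nC x ≤ Real.sqrt n * ‖x‖ := by
  unfold nC
  rw [← Real.sqrt_sq (norm_nonneg x), ← Real.sqrt_mul (Nat.cast_nonneg n)]
  refine Real.sqrt_le_sqrt ?_
  calc ∑ a, ‖x a‖ ^ 2 ≤ ∑ _a : Fin n, ‖x‖ ^ 2 :=
        Finset.sum_le_sum fun a _ => pow_le_pow_left₀ (norm_nonneg _) (norm_le_pi_norm x a) 2
    _ = n * ‖x‖ ^ 2 := by simp

lemma nE_le_norm (x : Fin n → ℝ) : nE x ≤ Real.sqrt n * ‖x‖ := by
  rw [← norm_rl, ← nC_rl]; exact nC_le_norm _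

lemma nE_re_im (x : Fin n → ℂ) : nC x ^ 2 = nE (reP x) ^ 2 + nE (imP x) ^ 2 := by
  rw [nC_sq, nE_sq, nE_sq, ← Finset.sum_add_distrib]
  refine Finset.sum_congr rfl fun a _ => ?_
  rw [Complex.sq_norm, Complex.normSq_apply]
  simp only [reP, imP]
  ring

lemma nE_re_le (x : Fin n → ℂ) : nE (reP x) ≤ nC x := by
  have h := nE_re_im x
  have h1 := nC_nonneg x
  have h2 := nE_nonneg (reP x)
  nlinarith [sq_nonneg (nE (imP x))]

lemma nE_im_le (x : Fin n → ℂ) : nE (imP x) ≤ nC x := by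
  have h := nE_re_im x
  have h1 := nC_nonneg x
  have h2 := nE_nonneg (imP x)
  nlinarith [sq_nonneg (nE (reP x))]

/-- the coordinates are isometric -/
lemma norm_LC (x : Fin n → ℂ) : ‖LC B x‖ = nC x := by
  have h : ‖LC B x‖ ^ 2 = nC x ^ 2 := by
    rw [norm_sq_ip, ip_apply, nC_sq]
    have h1 : trace ((LC B x)ᴴ * LC B x) = ∑ a, (star (x a) * x a) := by
      unfold LC
      rw [conjTranspose_sum, Finset.sum_mul, trace_sum]
      refine Finset.sum_congr rfl fun a _ => ?_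
      rw [Finset.mul_sum, trace_sum]
      simp only [conjTranspose_smul, smul_mul_assoc, mul_smul_comm, trace_smul, trace_X,
        smul_eq_mul]
      simp [mul_comm]
    rw [h1, Complex.re_sum]
    refine Finset.sum_congr rfl fun a _ => ?_
    rw [Complex.star_def, ← Complex.normSq_eq_conj_mul_self, Complex.ofReal_re, Complex.sq_norm]
  have h1 := norm_nonneg (LC B x)
  have h2 := nC_nonneg x
  nlinarith

lemma norm_LX (x : Fin n → ℝ) : ‖LX B x‖ = nE x := by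
  rw [← LC_rl, norm_LC, nC_rl]

end

end Pool.Agent.N991.MK
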