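import Mathlib
import Pool.Agent.N991.MK.Ent

/-!
# The Wilson action
-/

open MeasureTheory Matrix Filter
open scoped Matrix.Norms.Frobenius ContDiff Topology
open Pool.Agent.H906R3.YM Pool.Agent.W793.YM Pool.Agent.TH618.YM Pool.Agent.N984.TW

namespace Pool.Agent.N991.MK

set_option linter.unusedSectionVars false

noncomputable section

variable {N n : ℕ} {G : Subgroup (UN N)} (B : Frame G n) (hG : IsClosed (G : Set (UN N)))

/-- the Boltzmann factor of the Wilson action -/
def wil (G : Subgroup (UN N)) (β : ℝ) (g : G) : ℝ := Real.exp (β * (trace (mt g)).re)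

/-- its entire extension -/
def wilC (N : ℕ) (β : ℝ) (u : (Mat N)ˣ) : ℂ :=
  Complex.exp ((β / 2 : ℂ) * (trace (u : Mat N) + trace ((u⁻¹ : (Mat N)ˣ) : Mat N)))

/-- the trace as a continuous linear map -/
def trl (N : ℕ) : Mat N →L[ℂ] ℂ := LinearMap.toContinuousLinearMap (Matrix.traceLinearMap (Fin N) ℂ ℂ)

lemma trl_apply (M : Mat N) : trl N M = trace M := rfl

lemma mt_inv_star (g : G) : mt g⁻¹ = (mt g)ᴴ := rfl

lemma wil_pos (β : ℝ) (g : G) : 0 < wil G β g := Real.exp_pos _

theorem CF_wil (β : ℝ) : CF (wil G β) (wilC N β) where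
  hol := by
    refine ⟨fun p => Complex.exp ((β / 2 : ℂ) * (trl N p.1 + trl N p.2)), ?_, fun u => rfl⟩
    exact (contDiff_const.mul (((trl N).contDiff.comp contDiff_fst).add
      ((trl N).contDiff.comp contDiff_snd))).cexp
  cls g u := by
    unfold wilC
    have h1 : trace ((uG g * u * (uG g)⁻¹ : (Mat N)ˣ) : Mat N) = trace (u : Mat N) := by
      rw [Units.val_mul, Units.val_mul, trace_mul_comm, ← mul_assoc, ← Units.val_mul,
        inv_mul_cancel, Units.val_one, one_mul]
    have h2 : trace (((uG g * u * (uG g)⁻¹)⁻¹ : (Mat N)ˣ) : Mat N) =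
        trace ((u⁻¹ : (Mat N)ˣ) : Mat N) := by
      have e : (uG g * u * (uG g)⁻¹)⁻¹ = uG g * u⁻¹ * (uG g)⁻¹ := by group
      rw [e, Units.val_mul, Units.val_mul, trace_mul_comm, ← mul_assoc, ← Units.val_mul,
        inv_mul_cancel, Units.val_one, one_mul]
    rw [h1, h2]
  sym u := by
    unfold wilC
    rw [inv_inv, add_comm]
  res g := by
    unfold wilC wil
    rw [uG_val, uG_inv_val, mt_inv_star, trace_conjTranspose]
    push_cast
    congr 1
    have h1 : trace (mt g) + star (trace (mt g)) = 2 * ((trace (mt g)).re : ℂ) := by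
      rw [Complex.star_def, Complex.add_conj]
      push_cast
      ring
    rw [h1]
    ring

end

end Pool.Agent.N991.MK
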