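import Mathlib
import Pool.Agent.N991.MK.Vol

/-!
# Gaussian integrals on a compact group from the doubling property
-/

open MeasureTheory Matrix Filter
open scoped Matrix.Norms.Frobenius ContDiff Topology
open Pool.Agent.H906R3.YM Pool.Agent.W793.YM Pool.Agent.TH618.YM Pool.Agent.N984.TW

namespace Pool.Agent.N991.MK

set_option linter.unusedSectionVars false

noncomputable section

variable {N n : ℕ} {G : Subgroup (UN N)}

lemma exp_neg_le_pow {x : ℝ} (hx : 0 < x) (m : ℕ) : Real.exp (-x) ≤ m.factorial / x ^ m := by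
  rw [Real.exp_neg, inv_le_comm₀ (Real.exp_pos _) (by positivity), inv_div]
  exact Real.pow_div_factorial_le_exp x hx.le m

variable [MeasurableSpace G] [BorelSpace G] (μ : Measure G) [IsProbabilityMeasure μ]
  [μ.IsMulLeftInvariant]

/-- the pointwise bound by shells -/
lemma shell (a : ℝ) (ha : 0 < a) (m : ℕ) {ρ : ℝ} (hρ : 0 < ρ) (g : G) (J : ℕ)
    (hJ : nN g ≤ 2 ^ J * ρ) :
    Real.exp (-(a * (nN g / ρ) ^ 2)) ≤ (bl ρ).indicator (fun _ : G => (1 : ℝ)) g +
      ∑ j ∈ Finset.range J, (m.factorial * 4 ^ m / a ^ m) * ((1 / 4 ^ m) ^ (j + 1)) *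
        (bl (2 ^ (j + 1) * ρ)).indicator (fun _ : G => (1 : ℝ)) g := by
  induction J with
  | zero =>
    rw [pow_zero, one_mul] at hJ
    have : g ∈ bl ρ := hJ
    rw [Set.indicator_of_mem this, Finset.range_zero, Finset.sum_empty, add_zero]
    exact Real.exp_le_one_iff.2 (neg_nonpos.2 (by positivity))
  | succ J ih =>
    rw [Finset.sum_range_succ, ← add_assoc]
    by_cases h : nN g ≤ 2 ^ J * ρ
    · refine (ih h).trans (le_add_of_nonneg_right ?_)
      refine mul_nonneg (by positivity) (Set.indicator_nonneg (fun _ _ => zero_le_one) _)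
    · push Not at h
      have h1 : g ∈ bl (2 ^ (J + 1) * ρ) := hJ
      rw [Set.indicator_of_mem h1, mul_one]
      have h2 : 0 ≤ (bl ρ).indicator (fun _ : G => (1 : ℝ)) g +
        ∑ j ∈ Finset.range J, (m.factorial * 4 ^ m / a ^ m) * ((1 / 4 ^ m) ^ (j + 1)) *
        (bl (2 ^ (j + 1) * ρ)).indicator (fun _ : G => (1 : ℝ)) g := by
        refine add_nonneg (Set.indicator_nonneg (fun _ _ => zero_le_one) _)
          (Finset.sum_nonneg fun j _ => mul_nonneg (by positivity)
            (Set.indicator_nonneg (fun _ _ => zero_le_one) _))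
      refine le_trans ?_ (le_add_of_nonneg_left h2)
      have h3 : 2 ^ J < nN g / ρ := (lt_div_iff₀ hρ).2 h
      have h4 : (0 : ℝ) < 2 ^ J := by positivity
      have h5 : (4 : ℝ) ^ J ≤ (nN g / ρ) ^ 2 := by
        have : (4 : ℝ) ^ J = (2 ^ J) ^ 2 := by rw [← pow_mul, mul_comm, pow_mul]; norm_num
        rw [this]
        exact pow_le_pow_left₀ h4.le h3.le 2
      have h6 : 0 < nN g / ρ := h4.trans h3
      refine (exp_neg_le_pow (x := a * (nN g / ρ) ^ 2) (by positivity) m).trans ?_
      calc (m.factorial : ℝ) / (a * (nN g / ρ) ^ 2) ^ m ≤ m.factorial / (a * 4 ^ J) ^ m := by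
            gcongr
        _ = _ := by
            rw [mul_pow, pow_succ, one_div, inv_pow, ← pow_mul, ← pow_mul, mul_comm J m]
            field_simp

/-- **Gaussian integrals are bounded by the volume of the ball of the same width.** -/
theorem gauss_le (a : ℝ) (ha : 0 < a) : ∃ C : ℝ, 0 < C ∧ ∀ ρ : ℝ, 0 < ρ →
    ∫ g : G, Real.exp (-(a * (nN g / ρ) ^ 2)) ∂μ ≤ C * μ.real (bl ρ : Set G) := by
  obtain ⟨K, hK1, hK⟩ := vol_doubling μ
  obtain ⟨m, hm⟩ := pow_unbounded_of_one_lt (2 * K) (by norm_num : (1 : ℝ) < 4)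
  set A : ℝ := m.factorial * 4 ^ m / a ^ m with hA
  have hA0 : 0 < A := by positivity
  refine ⟨1 + A, by positivity, fun ρ hρ => ?_⟩
  obtain ⟨J, hJ⟩ := pow_unbounded_of_one_lt (2 * Real.sqrt N / ρ) (one_lt_two (α := ℝ))
  have hJ' : ∀ g : G, nN g ≤ 2 ^ J * ρ := fun g =>
    (nN_le g).trans ((div_lt_iff₀ hρ).1 hJ).le
  have hKj : ∀ j : ℕ, μ.real (bl (2 ^ j * ρ) : Set G) ≤ K ^ j * μ.real (bl ρ : Set G) := by
    intro j
    induction j with
    | zero => simp
    | succ j ih =>
      have h := hK (2 ^ j * ρ) (by positivity)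
      have e : 2 * (2 ^ j * ρ) = 2 ^ (j + 1) * ρ := by ring
      rw [e] at h
      calc _ ≤ K * μ.real (bl (2 ^ j * ρ) : Set G) := h
        _ ≤ K * (K ^ j * μ.real (bl ρ : Set G)) := by gcongr
        _ = _ := by ring
  have hint : ∀ r : ℝ, Integrable ((bl r : Set G).indicator (fun _ : G => (1 : ℝ))) μ :=
    fun r => (integrable_const _).indicator (bl_meas r)
  have hsum : Integrable (fun g : G => ∑ j ∈ Finset.range J, A * ((1 / 4 ^ m) ^ (j + 1)) *
        (bl (2 ^ (j + 1) * ρ)).indicator (fun _ : G => (1 : ℝ)) g) μ :=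
    integrable_finsetSum _ fun j _ => (hint _).const_mul _
  calc ∫ g : G, Real.exp (-(a * (nN g / ρ) ^ 2)) ∂μ
      ≤ ∫ g : G, ((bl ρ).indicator (fun _ : G => (1 : ℝ)) g +
        ∑ j ∈ Finset.range J, A * ((1 / 4 ^ m) ^ (j + 1)) *
        (bl (2 ^ (j + 1) * ρ)).indicator (fun _ : G => (1 : ℝ)) g) ∂μ := by
        refine integral_mono_of_nonneg (Eventually.of_forall fun g => (Real.exp_pos _).le)
          ((hint ρ).add hsum) (Eventually.of_forall fun g => ?_)
        exact shell a ha m hρ g J (hJ' g)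
    _ = μ.real (bl ρ : Set G) + ∑ j ∈ Finset.range J, A * ((1 / 4 ^ m) ^ (j + 1)) *
        μ.real (bl (2 ^ (j + 1) * ρ) : Set G) := by
        rw [integral_add (hint ρ) hsum, integral_finsetSum _ fun j _ => (hint _).const_mul _]
        congr 1
        · rw [integral_indicator_const _ (bl_meas ρ)]; simp
        · refine Finset.sum_congr rfl fun j _ => ?_
          rw [integral_const_mul, integral_indicator_const _ (bl_meas _)]
          simp
    _ ≤ μ.real (bl ρ : Set G) + ∑ j ∈ Finset.range J, A * (1 / 2) ^ (j + 1) *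
          μ.real (bl ρ : Set G) := by
        refine add_le_add le_rfl (Finset.sum_le_sum fun j _ => ?_)
        calc A * ((1 / 4 ^ m) ^ (j + 1)) * μ.real (bl (2 ^ (j + 1) * ρ) : Set G)
            ≤ A * ((1 / 4 ^ m) ^ (j + 1)) * (K ^ (j + 1) * μ.real (bl ρ : Set G)) := by
              gcongr
              exact hKj _
          _ = A * (K / 4 ^ m) ^ (j + 1) * μ.real (bl ρ : Set G) := by
              rw [div_eq_mul_one_div K, mul_pow]; ring
          _ ≤ A * (1 / 2) ^ (j + 1) * μ.real (bl ρ : Set G) := by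
              have h9 : K / 4 ^ m ≤ 1 / 2 := by
                rw [div_le_iff₀ (by positivity)]
                linarith [hm.le]
              refine mul_le_mul_of_nonneg_right (mul_le_mul_of_nonneg_left ?_ hA0.le)
                measureReal_nonneg
              exact pow_le_pow_left₀ (by positivity) h9 _
    _ = (1 + A * ∑ j ∈ Finset.range J, (1 / 2 : ℝ) ^ (j + 1)) * μ.real (bl ρ : Set G) := by
        rw [Finset.mul_sum, add_mul, Finset.sum_mul, one_mul]
    _ ≤ (1 + A) * μ.real (bl ρ : Set G) := by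
        have h : ∑ j ∈ Finset.range J, (1 / 2 : ℝ) ^ (j + 1) ≤ 1 := by
          have h1 : ∑ j ∈ Finset.range J, (1 / 2 : ℝ) ^ (j + 1) = 1 - (1 / 2) ^ J := by
            clear hJ hJ' hsum
            induction J with
            | zero => simp
            | succ J ih => rw [Finset.sum_range_succ, ih]; ring
          rw [h1]
          have : (0 : ℝ) < (1 / 2) ^ J := by positivity
          linarith
        have h2 : A * ∑ j ∈ Finset.range J, (1 / 2 : ℝ) ^ (j + 1) ≤ A := by
          calc _ ≤ A * 1 := by gcongr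
            _ = A := mul_one _
        gcongr

end

end Pool.Agent.N991.MK
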