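import Mathlib
import Pool.Agent.N991.MK.CNorm

/-!
# The exponential map near the identity: the statement L1
-/

open MeasureTheory Matrix Filter
open scoped Matrix.Norms.Frobenius ContDiff Topology
open Pool.Agent.H906R3.YM Pool.Agent.W793.YM Pool.Agent.TH618.YM Pool.Agent.N984.TW

namespace Pool.Agent.N991.MK

set_option linter.unusedSectionVars false

noncomputable section

variable {N n : ℕ} {G : Subgroup (UN N)} (B : Frame G n) (hG : IsClosed (G : Set (UN N)))

lemma hasDerivAt_EMs (x : Fin n → ℝ) (s : ℝ) :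
    HasDerivAt (fun s : ℝ => EM B (s • x)) (LX B x * EM B (s • x)) s := by
  have h := hasDerivAt_exp_smul_const' (𝕂 := ℝ) (LX B x) s
  simp only [EM, LX_smul]
  exact h

include hG in
lemma norm_LX_EM (x : Fin n → ℝ) (A : Mat N) (s : ℝ) : ‖A * EM B (s • x)‖ = ‖A‖ := by
  rw [← mt_Eg B hG, norm_mul_unit]

include hG in
lemma norm_EM_sub_one (x : Fin n → ℝ) {s : ℝ} (hs : 0 ≤ s) : ‖EM B (s • x) - 1‖ ≤ s * nE x := by
  have h := norm_image_sub_le_of_norm_deriv_le_segment'
    (f := fun s : ℝ => EM B (s • x)) (f' := fun s => LX B x * EM B (s • x)) (a := 0)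
    (b := s) (C := nE x) (fun s _ => (hasDerivAt_EMs B x s).hasDerivWithinAt)
    (fun s _ => by rw [norm_LX_EM B hG, norm_LX]) s (Set.right_mem_Icc.2 hs)
  rw [zero_smul, EM_zero, sub_zero, mul_comm] at h
  exact h

include hG in
lemma norm_EM_sub_sub (x : Fin n → ℝ) : ‖EM B x - 1 - LX B x‖ ≤ nE x ^ 2 := by
  have h := norm_image_sub_le_of_norm_deriv_le_segment'
    (f := fun s : ℝ => EM B (s • x) - s • LX B x)
    (f' := fun s => LX B x * EM B (s • x) - LX B x) (a := 0)
    (b := 1) (C := nE x ^ 2) (fun s _ => by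
      have h1 := hasDerivAt_EMs B x s
      have h2 : HasDerivAt (fun s : ℝ => s • LX B x) (LX B x) s := by
        have h3 := (hasDerivAt_id s).smul_const (LX B x)
        rw [one_smul] at h3
        exact h3
      exact (h1.sub h2).hasDerivWithinAt)
    (fun s hs => by
      have e : LX B x * EM B (s • x) - LX B x = LX B x * (EM B (s • x) - 1) := by
        rw [mul_sub, mul_one]
      rw [e]
      refine (norm_mul_le _ _).trans ?_
      rw [norm_LX]
      have h1 := norm_EM_sub_one B hG x hs.1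
      have h2 := nE_nonneg x
      nlinarith [hs.2.le]) 1 (Set.right_mem_Icc.2 zero_le_one)
  simp only [one_smul, zero_smul, EM_zero, sub_zero, mul_one] at h
  have e : EM B x - 1 - LX B x = EM B x - LX B x - 1 := by abel
  rw [e]
  exact h

include hG in
lemma nN_Eg_le (x : Fin n → ℝ) : ‖mt (Eg B hG x) - 1‖ ≤ nE x := by
  have h := norm_EM_sub_one B hG x zero_le_one
  rwa [one_smul, one_mul, ← mt_Eg B hG] at h

lemma nE_le_nN (x : Fin n → ℝ) : nE x ≤ ‖mt (Eg B hG x) - 1‖ + nE x ^ 2 := by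
  have h := norm_EM_sub_sub B hG x
  rw [← mt_Eg B hG] at h
  rw [← norm_LX B]
  have e : LX B x = (mt (Eg B hG x) - 1) - (mt (Eg B hG x) - 1 - LX B x) := by abel
  calc ‖LX B x‖ = ‖(mt (Eg B hG x) - 1) - (mt (Eg B hG x) - 1 - LX B x)‖ := by rw [← e]
    _ ≤ ‖mt (Eg B hG x) - 1‖ + ‖mt (Eg B hG x) - 1 - LX B x‖ := norm_sub_le _ _
    _ ≤ ‖mt (Eg B hG x) - 1‖ + ‖LX B x‖ ^ 2 := by
        rw [norm_LX] at *
        linarith

theorem s_L1 : S_L1 B hG := by
  have h1 : ∀ᶠ g in 𝓝 (1 : G), ‖lg B g‖ < 1 / (4 * (Real.sqrt n + 1)) := by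
    have h2 : Tendsto (fun g : G => lg B g) (𝓝 1) (𝓝 0) := by
      have := (lgM_contDiffAt B).continuousAt.tendsto.comp (mt_tendsto (G := G))
      rwa [lgM_one] at this
    have h3 := h2.norm
    rw [norm_zero] at h3
    exact h3.eventually (gt_mem_nhds (by positivity))
  obtain ⟨r, hr, hb⟩ := nhds_one_of ((Eg_lg B hG).and h1)
  refine ⟨min r 1, 4, by positivity, by norm_num, fun g hg => ?_, nN_Eg_le B hG, fun y _ => ?_⟩
  · obtain ⟨e1, e2⟩ := hb g (hg.trans (min_le_left _ _))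
    refine ⟨lg B g, e1, ?_⟩
    have h2 : nE (lg B g) ≤ 1 / 4 := by
      refine (nE_le_norm _).trans ?_
      have h3 : 0 ≤ Real.sqrt n := Real.sqrt_nonneg _
      calc Real.sqrt n * ‖lg B g‖ ≤ Real.sqrt n * (1 / (4 * (Real.sqrt n + 1))) := by gcongr
        _ ≤ (Real.sqrt n + 1) * (1 / (4 * (Real.sqrt n + 1))) := by gcongr; linarith
        _ = 1 / 4 := by field_simp
    have h3 := nE_le_nN B hG (lg B g)
    rw [e1] at h3
    have h4 := nE_nonneg (lg B g)
    have h5 := norm_nonneg (mt g - 1)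
    have h6 : nE (lg B g) ≤ 2 * ‖mt g - 1‖ := by nlinarith
    nlinarith
  · have h3 := nE_le_nN B hG y
    have h4 := nE_nonneg y
    nlinarith [sq_nonneg (nE y)]

end

end Pool.Agent.N991.MK
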