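import Mathlib

/-!
# Smooth functions which vanish on coordinate subspaces
-/

open scoped ContDiff Topology

namespace Pool.Agent.N991.MK

set_option linter.unusedSectionVars false

section

variable {E Q F : Type*} [NormedAddCommGroup E] [NormedSpace ℝ E] [ProperSpace E]
  [NormedAddCommGroup Q] [NormedSpace ℝ Q] [ProperSpace Q] [NormedAddCommGroup F] [NormedSpace ℝ F]

/-- bound of the first derivative by a linear function -/
theorem soft_core {f : E × Q → F} {ρ : ℝ}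
    (hf : ∀ x : E, ‖x‖ ≤ ρ → ∀ q : Q, ‖q‖ ≤ ρ → ContDiffAt ℝ 2 f (x, q)) :
    ∃ C : ℝ, 0 ≤ C ∧ ∀ x : E, ‖x‖ ≤ ρ → ∀ q : Q, ‖q‖ ≤ ρ → ∀ x' : E, ‖x'‖ ≤ ρ →
      ∀ q' : Q, ‖q'‖ ≤ ρ → ‖fderiv ℝ f (x, q) - fderiv ℝ f (x', q')‖ ≤
        C * ‖((x, q) : E × Q) - (x', q')‖ := by
  set S : Set (E × Q) := Metric.closedBall (0 : E) ρ ×ˢ Metric.closedBall (0 : Q) ρ with hS
  have hSc : IsCompact S := (isCompact_closedBall _ _).prod (isCompact_closedBall _ _)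
  have hmem : ∀ p ∈ S, ContDiffAt ℝ 2 f p := by
    rintro ⟨x, q⟩ ⟨hx, hq⟩
    exact hf x (by simpa using hx) q (by simpa using hq)
  have hcd1 : ∀ p ∈ S, ContDiffAt ℝ 1 (fderiv ℝ f) p := fun p hp =>
    (hmem p hp).fderiv_right (m := 1) (by norm_num)
  have hd2 : ContinuousOn (fderiv ℝ (fderiv ℝ f)) S := fun p hp =>
    ((hcd1 p hp).continuousAt_fderiv (by norm_num)).continuousWithinAt
  obtain ⟨C2, hC2⟩ : ∃ C2 : ℝ, ∀ p ∈ S, ‖fderiv ℝ (fderiv ℝ f) p‖ ≤ C2 := by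
    have hn := (continuous_norm (E := E × Q →L[ℝ] E × Q →L[ℝ] F)).comp_continuousOn hd2
    obtain ⟨C2, hC2⟩ := hSc.bddAbove_image hn
    exact ⟨C2, fun p hp => hC2 (Set.mem_image_of_mem _ hp)⟩
  have hconv : Convex ℝ S := (convex_closedBall _ _).prod (convex_closedBall _ _)
  refine ⟨max C2 0, le_max_right _ _, fun x hx q hq x' hx' q' hq' => ?_⟩
  have h1 : ((x, q) : E × Q) ∈ S := ⟨by simpa using hx, by simpa using hq⟩
  have h2 : ((x', q') : E × Q) ∈ S := ⟨by simpa using hx', by simpa using hq'⟩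
  have h := hconv.norm_image_sub_le_of_norm_hasFDerivWithin_le
    (f := fderiv ℝ f) (f' := fderiv ℝ (fderiv ℝ f)) (C := max C2 0)
    (fun p hp => (((hcd1 p hp).differentiableAt (by norm_num)).hasFDerivAt).hasFDerivWithinAt)
    (fun p hp => (hC2 p hp).trans (le_max_left _ _)) h2 h1
  exact h

theorem soft_int {f : E × Q → F} {ρ : ℝ}
    (hf : ∀ x : E, ‖x‖ ≤ ρ → ∀ q : Q, ‖q‖ ≤ ρ → ContDiffAt ℝ 2 f (x, q))
    {x : E} {q : Q} (hx : ‖x‖ ≤ ρ) (hq : ‖q‖ ≤ ρ) {D : ℝ}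
    (hD : ∀ s : ℝ, 0 ≤ s → s < 1 → ‖fderiv ℝ f (s • x, q) (x, 0)‖ ≤ D) :
    ‖f (x, q) - f (0, q)‖ ≤ D := by
  have hseg : ∀ s : ℝ, 0 ≤ s → s ≤ 1 → ‖s • x‖ ≤ ρ := fun s h0 h1 => by
    rw [norm_smul, Real.norm_eq_abs, abs_of_nonneg h0]
    calc s * ‖x‖ ≤ 1 * ‖x‖ := mul_le_mul_of_nonneg_right h1 (norm_nonneg _)
      _ ≤ ρ := by rw [one_mul]; exact hx
  have hpath : ∀ s : ℝ, HasDerivAt (fun s : ℝ => ((s • x, q) : E × Q)) (x, 0) s := fun s => by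
    have h1 : HasDerivAt (fun s : ℝ => s • x) x s := by
      simpa using (hasDerivAt_id s).smul_const x
    exact h1.prodMk (hasDerivAt_const s q)
  have hder : ∀ s : ℝ, 0 ≤ s → s ≤ 1 → HasDerivAt (fun s : ℝ => f (s • x, q))
      (fderiv ℝ f (s • x, q) (x, 0)) s := fun s h0 h1 => by
    have h := ((hf _ (hseg s h0 h1) _ hq).differentiableAt (by norm_num)).hasFDerivAt
    exact h.comp_hasDerivAt s (hpath s)
  have h := norm_image_sub_le_of_norm_deriv_le_segment'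
    (f := fun s : ℝ => f (s • x, q)) (f' := fun s => fderiv ℝ f (s • x, q) (x, 0)) (a := 0)
    (b := 1) (C := D) (fun s hs => (hder s hs.1 hs.2).hasDerivWithinAt)
    (fun s hs => hD s hs.1 hs.2) 1 (Set.right_mem_Icc.2 zero_le_one)
  simpa using h

/-- a function vanishing for `x = 0` and for `q = 0` -/
theorem soft2 {f : E × Q → F} {ρ : ℝ} (hρ : 0 < ρ)
    (hf : ∀ x : E, ‖x‖ ≤ ρ → ∀ q : Q, ‖q‖ ≤ ρ → ContDiffAt ℝ 2 f (x, q))
    (h1 : ∀ x : E, ‖x‖ ≤ ρ → f (x, 0) = 0) (h2 : ∀ q : Q, ‖q‖ ≤ ρ → f (0, q) = 0) :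
    ∃ C : ℝ, 0 ≤ C ∧ ∀ x : E, ‖x‖ ≤ ρ → ∀ q : Q, ‖q‖ ≤ ρ → ‖f (x, q)‖ ≤ C * ‖x‖ * ‖q‖ := by
  obtain ⟨C, hC, h⟩ := soft_core hf
  refine ⟨C, hC, fun x hx q hq => ?_⟩
  have h3 : ‖f (x, q) - f (0, q)‖ ≤ C * ‖x‖ * ‖q‖ := by
    refine soft_int hf hx hq fun s h0 hs1 => ?_
    rcases eq_or_ne x 0 with rfl | hx0
    · have e : ((0 : E), (0 : Q)) = 0 := rfl
      rw [e, map_zero]
      simp
    have hxn : 0 < ‖x‖ := norm_pos_iff.2 hx0
    have hsx : ‖s • x‖ < ρ := by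
      rw [norm_smul, Real.norm_eq_abs, abs_of_nonneg h0]
      calc s * ‖x‖ < 1 * ‖x‖ := mul_lt_mul_of_pos_right hs1 hxn
        _ ≤ ρ := by rw [one_mul]; exact hx
    have h4 : fderiv ℝ f (s • x, 0) (x, 0) = 0 := by
      have h5 : HasDerivAt (fun s : ℝ => f (s • x, (0 : Q))) (fderiv ℝ f (s • x, 0) (x, 0)) s := by
        have h := ((hf _ hsx.le 0 (by simpa using hρ.le)).differentiableAt
          (by norm_num)).hasFDerivAt
        have h1 : HasDerivAt (fun s : ℝ => s • x) x s := by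
          simpa using (hasDerivAt_id s).smul_const x
        exact h.comp_hasDerivAt s (h1.prodMk (hasDerivAt_const s (0 : Q)))
      have h6 : (fun s : ℝ => f (s • x, (0 : Q))) =ᶠ[𝓝 s] fun _ => 0 := by
        have hc : ContinuousAt (fun s : ℝ => ‖s • x‖) s := by fun_prop
        filter_upwards [hc.eventually_lt continuousAt_const hsx] with r hr
        exact h1 _ hr.le
      exact h5.unique ((hasDerivAt_const s (0 : F)).congr_of_eventuallyEq h6)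
    have h7 := h (s • x) hsx.le q hq (s • x) hsx.le 0 (by simpa using hρ.le)
    have h8 : fderiv ℝ f (s • x, q) (x, 0) =
        (fderiv ℝ f (s • x, q) - fderiv ℝ f (s • x, 0)) (x, 0) := by
      rw [_root_.sub_apply, h4, sub_zero]
    rw [h8]
    refine (ContinuousLinearMap.le_opNorm _ _).trans ?_
    have h9 : ‖((s • x, q) : E × Q) - (s • x, 0)‖ = ‖q‖ := by simp [Prod.norm_def]
    rw [h9] at h7
    have h10 : ‖((x, 0) : E × Q)‖ = ‖x‖ := by simp [Prod.norm_def]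
    rw [h10]
    calc _ ≤ C * ‖q‖ * ‖x‖ := mul_le_mul_of_nonneg_right h7 (norm_nonneg _)
      _ = C * ‖x‖ * ‖q‖ := by ring
  rwa [h2 q hq, sub_zero] at h3

/-- a function vanishing for `x = 0` with vanishing derivative at the origin -/
theorem soft3 {f : E × Q → F} {ρ : ℝ} (hρ : 0 < ρ)
    (hf : ∀ x : E, ‖x‖ ≤ ρ → ∀ q : Q, ‖q‖ ≤ ρ → ContDiffAt ℝ 2 f (x, q))
    (h1 : ∀ x : E, fderiv ℝ f (0, 0) (x, 0) = 0) (h2 : ∀ q : Q, ‖q‖ ≤ ρ → f (0, q) = 0) :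
    ∃ C : ℝ, 0 ≤ C ∧ ∀ x : E, ‖x‖ ≤ ρ → ∀ q : Q, ‖q‖ ≤ ρ →
      ‖f (x, q)‖ ≤ C * ‖x‖ * max ‖x‖ ‖q‖ := by
  obtain ⟨C, hC, h⟩ := soft_core hf
  refine ⟨C, hC, fun x hx q hq => ?_⟩
  have h3 : ‖f (x, q) - f (0, q)‖ ≤ C * ‖x‖ * max ‖x‖ ‖q‖ := by
    refine soft_int hf hx hq fun s h0 hs1 => ?_
    have hsx : ‖s • x‖ ≤ ‖x‖ := by
      rw [norm_smul, Real.norm_eq_abs, abs_of_nonneg h0]
      calc s * ‖x‖ ≤ 1 * ‖x‖ := mul_le_mul_of_nonneg_right hs1.le (norm_nonneg _)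
        _ = ‖x‖ := one_mul _
    have h7 := h (s • x) (hsx.trans hx) q hq 0 (by simpa using hρ.le) 0 (by simpa using hρ.le)
    have h8 : fderiv ℝ f (s • x, q) (x, 0) =
        (fderiv ℝ f (s • x, q) - fderiv ℝ f (0, 0)) (x, 0) := by
      rw [_root_.sub_apply, h1, sub_zero]
    rw [h8]
    refine (ContinuousLinearMap.le_opNorm _ _).trans ?_
    have h9 : ‖((s • x, q) : E × Q) - (0, 0)‖ ≤ max ‖x‖ ‖q‖ := by
      rw [Prod.norm_def]
      simp only [Prod.fst_sub, Prod.snd_sub, sub_zero]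
      exact max_le_max hsx le_rfl
    have h10 : ‖((x, 0) : E × Q)‖ = ‖x‖ := by simp [Prod.norm_def]
    rw [h10]
    calc _ ≤ C * max ‖x‖ ‖q‖ * ‖x‖ :=
          mul_le_mul_of_nonneg_right (h7.trans (mul_le_mul_of_nonneg_left h9 hC)) (norm_nonneg _)
      _ = C * ‖x‖ * max ‖x‖ ‖q‖ := by ring
  rwa [h2 q hq, sub_zero] at h3

end

end Pool.Agent.N991.MK
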