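import Mathlib
import Pool.Agent.N991.MK.CNorm
import Pool.Agent.N991.MK.Soft2

/-!
# The product of two exponentials: the statement L2
-/

open MeasureTheory Matrix Filter
open scoped Matrix.Norms.Frobenius ContDiff Topology
open Pool.Agent.H906R3.YM Pool.Agent.W793.YM Pool.Agent.TH618.YM Pool.Agent.N984.TW

namespace Pool.Agent.N991.MK

set_option linter.unusedSectionVars false

noncomputable section

variable {N n : ℕ} {G : Subgroup (UN N)} (B : Frame G n) (hG : IsClosed (G : Set (UN N)))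

lemma EE_tendsto : Tendsto (fun p : (Fin n → ℂ) × (Fin n → ℂ) => EC B p.1 * EC B p.2) (𝓝 0)
    (𝓝 1) := by
  have hc : ContDiff ℂ ∞ fun p : (Fin n → ℂ) × (Fin n → ℂ) => EC B p.1 * EC B p.2 :=
    ((EC_contDiff B).comp contDiff_fst).mul ((EC_contDiff B).comp contDiff_snd)
  have h := hc.continuous.tendsto 0
  have e : EC B (0 : (Fin n → ℂ) × (Fin n → ℂ)).1 * EC B (0 : (Fin n → ℂ) × (Fin n → ℂ)).2
      = 1 := by
    rw [Prod.fst_zero, Prod.snd_zero, EC_zero, one_mul]
  rw [e] at h
  exact h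

attribute [local irreducible] Lgm

lemma bC_right_zero : ∀ᶠ x in 𝓝 (0 : Fin n → ℂ), bC B x 0 = x ∧ bC B 0 x = x := by
  have h1 : Tendsto (LC B) (𝓝 0) (𝓝 0) := by
    have := (LCl B).continuous.tendsto 0
    rwa [map_zero] at this
  filter_upwards [h1.eventually (Lgm_left (N := N))] with x hx
  constructor
  · unfold bC
    rw [EC_zero, mul_one]
    unfold EC
    rw [hx, pC_LC]
  · unfold bC
    rw [EC_zero, one_mul]
    unfold EC
    rw [hx, pC_LC]

include hG in
theorem s_L2 : S_L2 B := by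
  obtain ⟨R1, hR1, h1⟩ := Metric.eventually_nhds_iff.1 (bC_contDiffAt B)
  obtain ⟨R2, hR2, h2⟩ := Metric.eventually_nhds_iff.1 (dC_zero B hG)
  obtain ⟨R3, hR3, h3⟩ := Metric.eventually_nhds_iff.1
    ((EE_tendsto B).eventually (Lgm_right (N := N)))
  obtain ⟨R4, hR4, h4⟩ := Metric.eventually_nhds_iff.1 (bC_right_zero B)
  obtain ⟨R5, hR5, h5⟩ := Metric.eventually_nhds_iff.1 (real_prod B hG)
  obtain ⟨r, hr, hrR⟩ : ∃ r : ℝ, 0 < r ∧ r < min (min (min R1 R2) (min R3 R4)) R5 :=
    exists_between (by positivity)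
  simp only [lt_min_iff] at hrR
  have hm : ∀ x y : Fin n → ℂ, ‖x‖ ≤ r → ‖y‖ ≤ r → ∀ R, r < R → dist (x, y) 0 < R := by
    intro x y hx hy R hR
    rw [dist_zero_right, Prod.norm_def, max_lt_iff]
    exact ⟨hx.trans_lt hR, hy.trans_lt hR⟩
  set φ : (Fin n → ℂ) × (Fin n → ℂ) → (Fin n → ℂ) := fun p => bC B p.1 p.2 - p.1 - p.2 with hφ
  obtain ⟨C, hC, hb⟩ := soft2 (f := φ) hr (fun x hx y hy => by
      have h := (h1 (hm x y hx hy R1 hrR.1.1.1)).restrict_scalars ℝ
      refine ((h.of_le (m := 2) (by norm_num)).sub contDiffAt_fst).sub contDiffAt_snd)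
    (fun x hx => by
      have h := (h4 (y := x) (by rw [dist_zero_right]; exact hx.trans_lt hrR.1.2.2)).1
      simp only [hφ]
      rw [h]; simp)
    (fun x hx => by
      have h := (h4 (y := x) (by rw [dist_zero_right]; exact hx.trans_lt hrR.1.2.2)).2
      simp only [hφ]
      rw [h]; simp)
  refine ⟨r, Real.sqrt n * C, bC B, hr, by positivity, fun x y hx hy => ?_, fun x y hx hy => ?_⟩
  · have hx' := (norm_le_nC x).trans hx
    have hy' := (norm_le_nC y).trans hy
    refine ⟨?_, ?_, ?_⟩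
    · have e1 := h2 (hm x y hx' hy' R2 hrR.1.1.2)
      have e2 := h3 (hm x y hx' hy' R3 hrR.1.2.1)
      simp only at e1 e2
      unfold dC at e1
      unfold EC at e2 ⊢
      rw [← e2]
      congr 1
      exact (sub_eq_zero.1 e1).symm
    · have h := hb x hx' y hy'
      calc nC (bC B x y - x - y) ≤ Real.sqrt n * ‖φ (x, y)‖ := nC_le_norm _
        _ ≤ Real.sqrt n * (C * ‖x‖ * ‖y‖) := by gcongr
        _ ≤ Real.sqrt n * (C * nC x * nC y) := by
            have a1 := norm_le_nC x
            have a2 := norm_le_nC y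
            have a3 := nC_nonneg x
            gcongr
        _ = _ := by ring
    · exact (h1 (hm x y hx' hy' R1 hrR.1.1.1)).differentiableAt (by norm_num)
  · have hx' := (norm_le_nE x).trans hx
    have hy' := (norm_le_nE y).trans hy
    have e := h5 (y := (x, y)) (by
      rw [dist_zero_right, Prod.norm_def, max_lt_iff]
      exact ⟨hx'.trans_lt hrR.2, hy'.trans_lt hrR.2⟩)
    simp only at e
    refine ⟨lg B (Eg B hG x * Eg B hG y), ?_⟩
    unfold bC
    rw [e, pC_LC]

end

end Pool.Agent.N991.MK
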