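import Mathlib
import Pool.Agent.N991.MK.L2

/-!
# The polar decomposition near the identity: the statement L4
-/

open MeasureTheory Matrix Filter
open scoped Matrix.Norms.Frobenius ContDiff Topology
open Pool.Agent.H906R3.YM Pool.Agent.W793.YM Pool.Agent.TH618.YM Pool.Agent.N984.TW

namespace Pool.Agent.N991.MK

set_option linter.unusedSectionVars false

noncomputable section

variable {N n : ℕ} {G : Subgroup (UN N)} (B : Frame G n) (hG : IsClosed (G : Set (UN N)))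

/-- the real parts as a continuous linear map -/
def reL (n : ℕ) : (Fin n → ℂ) →L[ℝ] (Fin n → ℝ) :=
  ContinuousLinearMap.pi fun a => Complex.reCLM.comp (ContinuousLinearMap.proj a)

/-- the imaginary parts as a continuous linear map -/
def imL (n : ℕ) : (Fin n → ℂ) →L[ℝ] (Fin n → ℝ) :=
  ContinuousLinearMap.pi fun a => Complex.imCLM.comp (ContinuousLinearMap.proj a)

lemma reL_apply (x : Fin n → ℂ) : reL n x = reP x := rfl

lemma imL_apply (x : Fin n → ℂ) : imL n x = imP x := rfl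

/-- the embedding of real coordinates as a continuous linear map -/
def rlL (n : ℕ) : (Fin n → ℝ) →L[ℝ] (Fin n → ℂ) :=
  ContinuousLinearMap.pi fun a => Complex.ofRealCLM.comp (ContinuousLinearMap.proj a)

lemma rlL_apply (x : Fin n → ℝ) : rlL n x = rl x := rfl

lemma reP_I_rl (A : Fin n → ℝ) : reP (Complex.I • rl A) = 0 := by
  funext a; simp [reP, rl]

lemma imP_I_rl (A : Fin n → ℝ) : imP (Complex.I • rl A) = A := by
  funext a; simp [imP, rl]

lemma reP_rl (A : Fin n → ℝ) : reP (rl A) = A := by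
  funext a; simp [reP, rl]

lemma imP_rl (A : Fin n → ℝ) : imP (rl A) = 0 := by
  funext a; simp [imP, rl]

/-- the polar map in coordinates -/
def Psi (p : (Fin n → ℝ) × (Fin n → ℝ)) : (Fin n → ℝ) × (Fin n → ℝ) :=
  (imP (bC B (Complex.I • rl p.1) (rl p.2)), reP (bC B (Complex.I • rl p.1) (rl p.2)))

/-- the inner map -/
def iota (n : ℕ) : (Fin n → ℝ) × (Fin n → ℝ) →L[ℝ] (Fin n → ℂ) × (Fin n → ℂ) :=
  ((Complex.I • rlL n).comp (ContinuousLinearMap.fst ℝ _ _)).prod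
    ((rlL n).comp (ContinuousLinearMap.snd ℝ _ _))

lemma iota_apply (p : (Fin n → ℝ) × (Fin n → ℝ)) : iota n p = (Complex.I • rl p.1, rl p.2) := rfl

attribute [local irreducible] Lgm bC

lemma Psi_contDiffAt : ∀ᶠ p in 𝓝 (0 : (Fin n → ℝ) × (Fin n → ℝ)), ContDiffAt ℝ 8 (Psi B) p := by
  have h1 : Tendsto (iota n) (𝓝 0) (𝓝 0) := by
    have := (iota n).continuous.tendsto 0
    rwa [map_zero] at this
  filter_upwards [h1.eventually (bC_contDiffAt B)] with p hp
  have h2 : ContDiffAt ℝ 8 (fun p : (Fin n → ℝ) × (Fin n → ℝ) =>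
      bC B (Complex.I • rl p.1) (rl p.2)) p :=
    ContDiffAt.comp (g := fun p : (Fin n → ℂ) × (Fin n → ℂ) => bC B p.1 p.2) p
      (hp.restrict_scalars ℝ) (iota n).contDiff.contDiffAt
  exact ((imL n).contDiff.contDiffAt.comp p h2).prodMk ((reL n).contDiff.contDiffAt.comp p h2)

include hG in
lemma Psi_sub : ∃ C r : ℝ, 0 < r ∧ 0 ≤ C ∧ ∀ p : (Fin n → ℝ) × (Fin n → ℝ), ‖p‖ ≤ r →
    ‖Psi B p - p‖ ≤ C * ‖p.1‖ * ‖p.2‖ := by
  have key : ∃ C r : ℝ, 0 < r ∧ 0 ≤ C ∧ ∀ x y : Fin n → ℂ, ‖x‖ ≤ r → ‖y‖ ≤ r →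
      ‖bC B x y - x - y‖ ≤ C * ‖x‖ * ‖y‖ := by
    obtain ⟨R1, hR1, h1⟩ := Metric.eventually_nhds_iff.1 (bC_contDiffAt B)
    obtain ⟨R4, hR4, h4⟩ := Metric.eventually_nhds_iff.1 (bC_right_zero B)
    obtain ⟨r, hr, hrR⟩ : ∃ r : ℝ, 0 < r ∧ r < min R1 R4 := exists_between (by positivity)
    simp only [lt_min_iff] at hrR
    obtain ⟨C, hC, hb⟩ := soft2 (E := Fin n → ℂ) (Q := Fin n → ℂ)
      (f := fun p : (Fin n → ℂ) × (Fin n → ℂ) => bC B p.1 p.2 - p.1 - p.2) hr (fun x hx y hy => by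
        have h := (h1 (y := (x, y)) (by
          rw [dist_zero_right, Prod.norm_def, max_lt_iff]
          exact ⟨hx.trans_lt hrR.1, hy.trans_lt hrR.1⟩)).restrict_scalars ℝ
        refine ((h.of_le (m := 2) (by norm_num)).sub contDiffAt_fst).sub contDiffAt_snd)
      (fun x hx => by
        have h := (h4 (y := x) (by rw [dist_zero_right]; exact hx.trans_lt hrR.2)).1
        rw [h]; simp)
      (fun x hx => by
        have h := (h4 (y := x) (by rw [dist_zero_right]; exact hx.trans_lt hrR.2)).2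
        rw [h]; simp)
    exact ⟨C, r, hr, hC, fun x y hx hy => hb x hx y hy⟩
  obtain ⟨C, r, hr, hC, hb⟩ := key
  refine ⟨C, r, hr, hC, fun p hp => ?_⟩
  rw [Prod.norm_def, max_le_iff] at hp
  have e1 : ‖Complex.I • rl p.1‖ = ‖p.1‖ := by rw [norm_smul, Complex.norm_I, one_mul, norm_rl]
  have e2 : ‖rl p.2‖ = ‖p.2‖ := norm_rl _
  have h := hb (Complex.I • rl p.1) (rl p.2) (by rw [e1]; exact hp.1) (by rw [e2]; exact hp.2)
  rw [e1, e2] at h
  rw [Prod.norm_def, max_le_iff]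
  constructor
  · have e : (Psi B p - p).1 = imP (bC B (Complex.I • rl p.1) (rl p.2) - Complex.I • rl p.1 - rl p.2) := by
      have : imP (bC B (Complex.I • rl p.1) (rl p.2) - Complex.I • rl p.1 - rl p.2) =
          imP (bC B (Complex.I • rl p.1) (rl p.2)) - imP (Complex.I • rl p.1) - imP (rl p.2) := by
        simp only [← imL_apply, map_sub]
      rw [this, imP_I_rl, imP_rl, sub_zero]
      rfl
    rw [e]
    exact (norm_imP _).trans h
  · have e : (Psi B p - p).2 = reP (bC B (Complex.I • rl p.1) (rl p.2) - Complex.I • rl p.1 - rl p.2) := by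
      have : reP (bC B (Complex.I • rl p.1) (rl p.2) - Complex.I • rl p.1 - rl p.2) =
          reP (bC B (Complex.I • rl p.1) (rl p.2)) - reP (Complex.I • rl p.1) - reP (rl p.2) := by
        simp only [← reL_apply, map_sub]
      rw [this, reP_I_rl, reP_rl, sub_zero]
      rfl
    rw [e]
    exact (norm_reP _).trans h

include hG in
lemma Psi_fderiv : HasFDerivAt (Psi B)
    ((ContinuousLinearEquiv.refl ℝ ((Fin n → ℝ) × (Fin n → ℝ)) :
      (Fin n → ℝ) × (Fin n → ℝ) →L[ℝ] (Fin n → ℝ) × (Fin n → ℝ))) 0 := by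
  obtain ⟨C, r, hr, hC, hb⟩ := Psi_sub B hG
  have h1 : HasFDerivAt (fun p => Psi B p - p)
      (0 : (Fin n → ℝ) × (Fin n → ℝ) →L[ℝ] (Fin n → ℝ) × (Fin n → ℝ)) 0 := by
    refine Asymptotics.IsBigO.hasFDerivAt (n := 2) ?_ one_lt_two
    refine Asymptotics.IsBigO.of_bound C ?_
    filter_upwards [Metric.ball_mem_nhds (0 : (Fin n → ℝ) × (Fin n → ℝ)) hr] with p hp
    rw [mem_ball_zero_iff] at hp
    have h := hb p hp.le
    rw [sub_zero, norm_pow, norm_norm]
    have a1 : ‖p.1‖ ≤ ‖p‖ := norm_fst_le p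
    have a2 : ‖p.2‖ ≤ ‖p‖ := norm_snd_le p
    calc _ ≤ C * ‖p.1‖ * ‖p.2‖ := h
      _ ≤ C * ‖p‖ * ‖p‖ := by gcongr
      _ = _ := by ring
  have h2 := h1.add (hasFDerivAt_id (𝕜 := ℝ) (0 : (Fin n → ℝ) × (Fin n → ℝ)))
  have e : (fun p => Psi B p - p) + id = Psi B := by
    funext p; simp
  rw [e, zero_add] at h2
  exact h2

include hG in
lemma Psi_zero : Psi B 0 = 0 := by
  obtain ⟨C, r, hr, hC, hb⟩ := Psi_sub B hG
  have h := hb 0 (by rw [norm_zero]; exact hr.le)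
  simp only [Prod.fst_zero, Prod.snd_zero, norm_zero, mul_zero, sub_zero] at h
  exact norm_le_zero_iff.1 h

lemma Psi_contDiffAt_zero : ContDiffAt ℝ 8 (Psi B) 0 := (Psi_contDiffAt B).self_of_nhds

/-- the polar coordinates -/
def Phi : (Fin n → ℝ) × (Fin n → ℝ) → (Fin n → ℝ) × (Fin n → ℝ) :=
  (Psi_contDiffAt_zero B).localInverse (a := 0)
    (f' := ContinuousLinearEquiv.refl ℝ ((Fin n → ℝ) × (Fin n → ℝ))) (Psi_fderiv B hG)
    (by norm_num)

lemma Phi_contDiffAt : ContDiffAt ℝ 8 (Phi B hG) 0 := by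
  have h := (Psi_contDiffAt_zero B).to_localInverse (a := 0)
    (f' := ContinuousLinearEquiv.refl ℝ ((Fin n → ℝ) × (Fin n → ℝ))) (Psi_fderiv B hG)
    (by norm_num)
  rw [Psi_zero B hG] at h
  exact h

lemma Phi_left : ∀ᶠ p in 𝓝 (0 : (Fin n → ℝ) × (Fin n → ℝ)), Phi B hG (Psi B p) = p :=
  ((Psi_contDiffAt_zero B).hasStrictFDerivAt' (x := 0)
    (f' := (ContinuousLinearEquiv.refl ℝ ((Fin n → ℝ) × (Fin n → ℝ)) :
      (Fin n → ℝ) × (Fin n → ℝ) →L[ℝ] (Fin n → ℝ) × (Fin n → ℝ)))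
    (Psi_fderiv B hG) (by norm_num)).eventually_left_inverse

lemma Phi_right : ∀ᶠ p in 𝓝 (0 : (Fin n → ℝ) × (Fin n → ℝ)), Psi B (Phi B hG p) = p := by
  have h := ((Psi_contDiffAt_zero B).hasStrictFDerivAt' (x := 0)
    (f' := (ContinuousLinearEquiv.refl ℝ ((Fin n → ℝ) × (Fin n → ℝ)) :
      (Fin n → ℝ) × (Fin n → ℝ) →L[ℝ] (Fin n → ℝ) × (Fin n → ℝ)))
    (Psi_fderiv B hG) (by norm_num)).eventually_right_inverse
  rw [Psi_zero B hG] at h
  exact h

lemma Phi_zero : Phi B hG 0 = 0 := by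
  have h := (Phi_left B hG).self_of_nhds
  rwa [Psi_zero B hG] at h

attribute [local irreducible] Psi Phi

lemma Phi_fderiv : HasFDerivAt (Phi B hG)
    (ContinuousLinearMap.id ℝ ((Fin n → ℝ) × (Fin n → ℝ))) 0 := by
  have h1 : HasFDerivAt (Phi B hG) (fderiv ℝ (Phi B hG) (Psi B 0)) (Psi B 0) := by
    rw [Psi_zero B hG]
    exact ((Phi_contDiffAt B hG).differentiableAt (by norm_num)).hasFDerivAt
  have h2 := h1.comp (0 : (Fin n → ℝ) × (Fin n → ℝ)) (Psi_fderiv B hG)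
  have h3 : HasFDerivAt (Phi B hG ∘ Psi B)
      (ContinuousLinearMap.id ℝ ((Fin n → ℝ) × (Fin n → ℝ))) 0 :=
    (hasFDerivAt_id (𝕜 := ℝ) (0 : (Fin n → ℝ) × (Fin n → ℝ))).congr_of_eventuallyEq
      (Phi_left B hG)
  have h4 := h2.unique h3
  rw [Psi_zero B hG] at h1 h4
  have h5 : fderiv ℝ (Phi B hG) 0 = ContinuousLinearMap.id ℝ ((Fin n → ℝ) × (Fin n → ℝ)) := by
    refine ContinuousLinearMap.ext fun v => ?_
    exact DFunLike.congr_fun h4 v
  rw [h5] at h1
  exact h1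

lemma rl_zero : rl (0 : Fin n → ℝ) = 0 := by
  funext a; simp [rl]

lemma re_im_eq (x : Fin n → ℂ) {y : Fin n → ℂ} (h1 : reP y = reP x) (h2 : imP y = imP x) :
    y = x := by
  funext a
  exact Complex.ext (congrFun h1 a) (congrFun h2 a)

theorem s_L4 : S_L4 B hG := by
  obtain ⟨r2, C2, b, hr2, hC2, hb, hbr⟩ := s_L2 B hG
  obtain ⟨R1, hR1, h1⟩ := Metric.eventually_nhds_iff.1
    ((Phi_contDiffAt B hG).eventually (by norm_num))
  have hPt : Tendsto (Phi B hG) (𝓝 0) (𝓝 0) := by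
    have := (Phi_contDiffAt B hG).continuousAt.tendsto
    rwa [Phi_zero] at this
  -- product formula at small arguments
  have hev : ∀ᶠ p in 𝓝 (0 : (Fin n → ℝ) × (Fin n → ℝ)),
      EC B (bC B (Complex.I • rl p.1) (rl p.2)) = EC B (Complex.I • rl p.1) * EC B (rl p.2) := by
    have h2 := (dC_zero B hG).and ((EE_tendsto B).eventually (Lgm_right (N := N)))
    have h3 : Tendsto (iota n) (𝓝 0) (𝓝 0) := by
      have := (iota n).continuous.tendsto 0
      rwa [map_zero] at this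
    filter_upwards [h3.eventually h2] with p hp
    obtain ⟨e1, e2⟩ := hp
    simp only [iota_apply] at e1 e2
    rw [← e2]
    show NormedSpace.exp _ = NormedSpace.exp _
    congr 1
    exact (sub_eq_zero.1 e1).symm
  obtain ⟨R2, hR2, h2⟩ := Metric.eventually_nhds_iff.1 ((Phi_right B hG).and (hPt.eventually hev))
  -- the left inverse at (0, v)
  have hl : ∀ᶠ p in 𝓝 (0 : (Fin n → ℝ) × (Fin n → ℝ)), p.1 = 0 → Phi B hG p = p := by
    obtain ⟨C, r, hr, hC, hs⟩ := Psi_sub B hG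
    filter_upwards [Phi_left B hG, Metric.ball_mem_nhds _ hr] with p hp hpr hp0
    rw [mem_ball_zero_iff] at hpr
    have h := hs p hpr.le
    rw [hp0, norm_zero, mul_zero, zero_mul] at h
    have h4 : Psi B p = p := sub_eq_zero.1 (norm_le_zero_iff.1 h)
    rw [h4] at hp
    exact hp
  obtain ⟨R3, hR3, h3⟩ := Metric.eventually_nhds_iff.1 hl
  obtain ⟨r, hr, hrR⟩ : ∃ r : ℝ, 0 < r ∧ r < min R1 (min R2 R3) := exists_between (by positivity)
  simp only [lt_min_iff] at hrR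
  have hm : ∀ a v : Fin n → ℝ, ‖a‖ ≤ r → ‖v‖ ≤ r → ∀ R, r < R → dist (a, v) 0 < R := by
    intro x y hx hy R hR
    rw [dist_zero_right, Prod.norm_def, max_lt_iff]
    exact ⟨hx.trans_lt hR, hy.trans_lt hR⟩
  obtain ⟨C, hC, hs⟩ := soft3 (f := fun p => Phi B hG p - p) hr
    (fun x hx y hy => ((h1 (hm x y hx hy R1 hrR.1)).of_le (by norm_num)).sub contDiffAt_id)
    (fun x => by
      have h := (Phi_fderiv B hG).sub (hasFDerivAt_id (𝕜 := ℝ) (0 : (Fin n → ℝ) × (Fin n → ℝ)))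
      have h5 := h.fderiv
      rw [sub_self] at h5
      show fderiv ℝ (Phi B hG - id) 0 (x, 0) = 0
      rw [h5]
      rfl)
    (fun y hy => by
      have h := h3 (hm 0 y (by rw [norm_zero]; exact hr.le) hy R3 hrR.2.2) rfl
      rw [h, sub_self])
  refine ⟨r, Real.sqrt n * C, hr, by positivity, fun x hx => ?_⟩
  have hx' := (norm_le_nC x).trans hx
  have ha := (norm_imP x).trans hx'
  have hv := (norm_reP x).trans hx'
  obtain ⟨e1, e2⟩ := h2 (hm _ _ ha hv R2 hrR.2.1)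
  have h4 := hs (imP x) ha (reP x) hv
  set p := Phi B hG (imP x, reP x) with hp
  have h6 : max ‖imP x‖ ‖reP x‖ ≤ nC x := max_le ((norm_imP x).trans (norm_le_nC x))
    ((norm_reP x).trans (norm_le_nC x))
  have h7 : ‖p - (imP x, reP x)‖ ≤ C * nE (imP x) * nC x := by
    refine h4.trans ?_
    have := norm_le_nE (imP x)
    have := nE_nonneg (imP x)
    gcongr
  refine ⟨p.1, p.2, ?_, ?_, ?_⟩
  · rw [mt_Eg, ← EC_rl, ← e2]
    congr 1
    symm
    refine re_im_eq x ?_ ?_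
    · have := congrArg Prod.snd e1
      unfold Psi at this
      exact this
    · have := congrArg Prod.fst e1
      unfold Psi at this
      exact this
  · calc nE (p.1 - imP x) ≤ Real.sqrt n * ‖p.1 - imP x‖ := nE_le_norm _
      _ ≤ Real.sqrt n * (C * nE (imP x) * nC x) := by
          gcongr
          exact (norm_fst_le (p - (imP x, reP x))).trans h7
      _ = _ := by ring
  · calc nE (p.2 - reP x) ≤ Real.sqrt n * ‖p.2 - reP x‖ := nE_le_norm _
      _ ≤ Real.sqrt n * (C * nE (imP x) * nC x) := by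
          gcongr
          exact (norm_snd_le (p - (imP x, reP x))).trans h7
      _ = _ := by ring

end

end Pool.Agent.N991.MK
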