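import Mathlib
import Pool.Agent.N991.MK.L1
import Pool.Agent.N991.MK.L4
import Pool.Agent.N991.MK.Vol
import Pool.Agent.N991.MK.Wil

/-!
# The tube bound: definitions and the geometry of small elements
-/

open MeasureTheory Matrix Filter
open scoped Matrix.Norms.Frobenius ContDiff Topology
open Pool.Agent.H906R3.YM Pool.Agent.W793.YM Pool.Agent.TH618.YM Pool.Agent.N984.TW

namespace Pool.Agent.N991.MK

set_option linter.unusedSectionVars false

noncomputable section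

variable {N n : ℕ} {G : Subgroup (UN N)} (B : Frame G n) (hG : IsClosed (G : Set (UN N)))

/-- the bound in the tube around the group -/
def Tube (r k : ℝ) (F : (Mat N)ˣ → ℂ) : Prop :=
  ∀ (a : Fin n → ℝ) (y : G), nE a ≤ 0.51 * r →
    ‖F (uE B (Complex.I • rl a) * uG y)‖ ≤
      ‖F 1‖ * Real.exp (k / 2 * (1.01 * nE a ^ 2 - 0.99 * min (nN y) r ^ 2))

/-- the expansion near the identity -/
def NearS (r k M : ℝ) (F : (Mat N)ˣ → ℂ) : Prop :=
  ∀ x : Fin n → ℂ, nC x < r → ∃ m : ℂ,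
    F (uE B x) = F 1 * Complex.exp (-(k / 2) * (∑ a, x a ^ 2) - m) ∧ ‖m‖ ≤ M * nC x ^ 4

lemma re_sum_sq (x : Fin n → ℂ) : (∑ a, x a ^ 2).re = nE (reP x) ^ 2 - nE (imP x) ^ 2 := by
  rw [nE_sq, nE_sq, ← Finset.sum_sub_distrib, Complex.re_sum]
  refine Finset.sum_congr rfl fun a _ => ?_
  rw [sq, Complex.mul_re]
  simp only [reP, imP]
  ring

variable {B} in
lemma NearS.norm_eq {r k M : ℝ} {F : (Mat N)ˣ → ℂ} (h : NearS B r k M F) {x : Fin n → ℂ}
    (hx : nC x < r) : ∃ t : ℝ, |t| ≤ M * nC x ^ 4 ∧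
      ‖F (uE B x)‖ = ‖F 1‖ * Real.exp (k / 2 * (nE (imP x) ^ 2 - nE (reP x) ^ 2) - t) := by
  obtain ⟨m, h1, h2⟩ := h x hx
  refine ⟨m.re, (Complex.abs_re_le_norm m).trans h2, ?_⟩
  rw [h1, norm_mul, Complex.norm_exp]
  congr 2
  have e : (-(k / 2 : ℂ) * (∑ a, x a ^ 2) - m).re = -(k / 2) * (∑ a, x a ^ 2).re - m.re := by
    rw [Complex.sub_re]
    congr 1
    have : (-(k / 2 : ℂ)) = ((-(k / 2) : ℝ) : ℂ) := by push_cast; rfl
    rw [this, Complex.re_ofReal_mul]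
  rw [e, re_sum_sq]
  ring

lemma m_small {r k M c : ℝ} (hM : M * r ^ 2 ≤ k / 1000) (hr : 0 < r) (hc : 0 ≤ c) (hcr : c < r)
    (hk : 0 ≤ k) : M * c ^ 4 ≤ k / 1000 * c ^ 2 := by
  have h1 : c ^ 2 ≤ r ^ 2 := by nlinarith
  rcases le_or_gt M 0 with h | h
  · have h2 : M * c ^ 4 ≤ 0 := mul_nonpos_of_nonpos_of_nonneg h (by positivity)
    have : 0 ≤ k / 1000 * c ^ 2 := by positivity
    linarith
  · calc M * c ^ 4 = M * c ^ 2 * c ^ 2 := by ring
      _ ≤ M * r ^ 2 * c ^ 2 := by gcongr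
      _ ≤ k / 1000 * c ^ 2 := by gcongr

variable {B} in
lemma NearS.upper {r k M : ℝ} {F : (Mat N)ˣ → ℂ} (h : NearS B r k M F) (hr : 0 < r) (hk : 0 ≤ k)
    (hM : M * r ^ 2 ≤ k / 1000) {x : Fin n → ℂ} (hx : nC x < r) :
    ‖F (uE B x)‖ ≤ ‖F 1‖ * Real.exp (k / 2 * (1.002 * nE (imP x) ^ 2 - 0.998 * nE (reP x) ^ 2)) := by
  obtain ⟨t, ht, e⟩ := h.norm_eq hx
  rw [e]
  refine mul_le_mul_of_nonneg_left (Real.exp_le_exp.2 ?_) (norm_nonneg _)
  have h1 := m_small hM hr (nC_nonneg x) hx hk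
  have h2 := nE_re_im x
  have h3 := neg_abs_le t
  rw [h2] at h1
  have h4 : -t ≤ k / 1000 * (nE (reP x) ^ 2 + nE (imP x) ^ 2) := by linarith
  nlinarith

variable {B} in
lemma NearS.lower {r k M : ℝ} {F : (Mat N)ˣ → ℂ} (h : NearS B r k M F) (hr : 0 < r) (hk : 0 ≤ k)
    (hM : M * r ^ 2 ≤ k / 1000) {x : Fin n → ℂ} (hx : nC x < r) :
    ‖F 1‖ * Real.exp (k / 2 * (0.998 * nE (imP x) ^ 2 - 1.002 * nE (reP x) ^ 2)) ≤
      ‖F (uE B x)‖ := by
  obtain ⟨t, ht, e⟩ := h.norm_eq hx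
  rw [e]
  refine mul_le_mul_of_nonneg_left (Real.exp_le_exp.2 ?_) (norm_nonneg _)
  have h1 := m_small hM hr (nC_nonneg x) hx hk
  have h2 := nE_re_im x
  have h3 := le_abs_self t
  rw [h2] at h1
  have h4 : t ≤ k / 1000 * (nE (reP x) ^ 2 + nE (imP x) ^ 2) := by linarith
  nlinarith

lemma reP_add (x y : Fin n → ℂ) : reP (x + y) = reP x + reP y := rfl
lemma imP_add (x y : Fin n → ℂ) : imP (x + y) = imP x + imP y := rfl

include hG in
/-- the coordinates of a product `e^{iA} y` -/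
theorem near_chart : ∃ C r0 : ℝ, 0 ≤ C ∧ 0 < r0 ∧ ∀ r : ℝ, 0 < r → r ≤ r0 →
    ∀ (a : Fin n → ℝ) (y : G), nE a ≤ r → nN y ≤ r → ∃ x : Fin n → ℂ,
      uE B x = uE B (Complex.I • rl a) * uG y ∧
      (1 - C * r) * nN y ≤ nE (reP x) ∧ nE (reP x) ≤ (1 + C * r) * nN y ∧
      (1 - C * r) * nE a ≤ nE (imP x) ∧ nE (imP x) ≤ (1 + C * r) * nE a := by
  obtain ⟨r1, C1, hr1, hC1, hA, hA2, -⟩ := s_L1 B hG
  obtain ⟨r2, C2, b, hr2, hC2, hb, -⟩ := s_L2 B hG
  refine ⟨C1 + 2 * C2 + 2 * C1 * C2, min (min r1 (r2 / (1 + C1))) (min 1 r2), by positivity,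
    by positivity, fun r hr hrr a y ha hy => ?_⟩
  simp only [le_min_iff] at hrr
  obtain ⟨⟨h1, h2⟩, h3, h4⟩ := hrr
  obtain ⟨u, hu, hun⟩ := hA y (hy.trans h1)
  have hN0 := nN_nonneg y
  have ha0 := nE_nonneg a
  have hu0 := nE_nonneg u
  have hyu : nN y ≤ nE u := by
    have := hA2 u
    rw [hu] at this
    exact this
  have hun1 : nE u ≤ (1 + C1 * r) * nN y := by
    refine hun.trans ?_
    show (1 + C1 * nN y) * nN y ≤ _
    gcongr
  have hur : nE u ≤ r2 := by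
    rw [le_div_iff₀ (by positivity)] at h2
    calc nE u ≤ (1 + C1 * r) * nN y := hun1
      _ ≤ (1 + C1 * 1) * r := by gcongr
      _ ≤ r2 := by linarith
  have hI : nC (Complex.I • rl a) = nE a := by rw [nC_smul, Complex.norm_I, one_mul, nC_rl]
  obtain ⟨e1, e2, -⟩ := hb (Complex.I • rl a) (rl u) (by rw [hI]; exact ha.trans h4)
    (by rw [nC_rl]; exact hur)
  rw [hI, nC_rl] at e2
  set x := b (Complex.I • rl a) (rl u) with hx
  set d := x - Complex.I • rl a - rl u with hd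
  have hxd : x = d + Complex.I • rl a + rl u := by rw [hd]; abel
  have hre : reP x = reP d + u := by
    rw [hxd, reP_add, reP_add, reP_I_rl, reP_rl, add_zero]
  have him : imP x = imP d + a := by
    rw [hxd, imP_add, imP_add, imP_I_rl, imP_rl, add_zero]
  have hdr : nE (reP d) ≤ C2 * nE a * nE u := (nE_re_le d).trans e2
  have hdi : nE (imP d) ≤ C2 * nE a * nE u := (nE_im_le d).trans e2
  have hrp := nE_add_le (reP d) u
  have hip := nE_add_le (imP d) a
  have hru : nE u ≤ nE (reP x) + nE (reP d) := by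
    have : u = reP x - reP d := by rw [hre]; abel
    calc nE u = nE (reP x - reP d) := by rw [← this]
      _ ≤ _ := nE_sub_le _ _
  have hiu : nE a ≤ nE (imP x) + nE (imP d) := by
    have : a = imP x - imP d := by rw [him]; abel
    calc nE a = nE (imP x - imP d) := by rw [← this]
      _ ≤ _ := nE_sub_le _ _
  rw [← hre] at hrp
  rw [← him] at hip
  have hu2 : nE u ≤ (1 + C1) * r := by
    calc nE u ≤ (1 + C1 * r) * nN y := hun1
      _ ≤ (1 + C1 * 1) * r := by gcongr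
      _ = _ := by ring
  have k1 : C2 * nE a * nE u ≤ C2 * r * ((1 + C1) * nN y) := by
    have : nE u ≤ (1 + C1) * nN y := by
      calc nE u ≤ (1 + C1 * r) * nN y := hun1
        _ ≤ (1 + C1 * 1) * nN y := by gcongr
        _ = _ := by ring
    gcongr
  have k2 : C2 * nE a * nE u ≤ C2 * nE a * ((1 + C1) * r) := by gcongr
  refine ⟨x, ?_, ?_, ?_, ?_, ?_⟩
  · refine Units.ext ?_
    rw [Units.val_mul, uE_val, uE_val, uG_val, e1, ← hu, mt_Eg, EC_rl]
  · have p1 : 0 ≤ C2 * r * nN y := by positivity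
    have p2 : 0 ≤ C1 * C2 * r * nN y := by positivity
    have p3 : 0 ≤ C1 * r * nN y := by positivity
    nlinarith
  · have p1 : 0 ≤ C2 * r * nN y := by positivity
    have p2 : 0 ≤ C1 * C2 * r * nN y := by positivity
    have p3 : 0 ≤ C1 * r * nN y := by positivity
    nlinarith
  · have p1 : 0 ≤ C2 * r * nE a := by positivity
    have p2 : 0 ≤ C1 * C2 * r * nE a := by positivity
    have p3 : 0 ≤ C1 * r * nE a := by positivity
    nlinarith
  · have p1 : 0 ≤ C2 * r * nE a := by positivity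
    have p2 : 0 ≤ C1 * C2 * r * nE a := by positivity
    have p3 : 0 ≤ C1 * r * nE a := by positivity
    nlinarith

include hG in
/-- the polar decomposition with bounds -/
theorem polar_chart : ∃ C r0 : ℝ, 0 ≤ C ∧ 0 < r0 ∧ ∀ r : ℝ, 0 < r → r ≤ r0 →
    ∀ x : Fin n → ℂ, nC x ≤ r → ∃ (a : Fin n → ℝ) (y : G),
      uE B x = uE B (Complex.I • rl a) * uG y ∧
      nE a ≤ (1 + C * r) * nE (imP x) ∧
      nN y ≤ nE (reP x) + C * r * nC x ∧ nE (reP x) ≤ nN y + C * r * nC x := by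
  obtain ⟨r4, C4, hr4, hC4, hb⟩ := s_L4 B hG
  refine ⟨C4 + 4, min r4 (min 1 (1 / (C4 + 1))), by positivity, by positivity,
    fun r hr hrr x hx => ?_⟩
  simp only [le_min_iff] at hrr
  obtain ⟨h1, h2, h3⟩ := hrr
  obtain ⟨A, u, e, hA, hu⟩ := hb x (hx.trans h1)
  have hx0 := nC_nonneg x
  have hi := nE_im_le x
  have hi0 := nE_nonneg (imP x)
  have hr' := nE_re_le x
  have hr0 := nE_nonneg (reP x)
  have hA' : nE A ≤ nE (A - imP x) + nE (imP x) := by
    have : A = (A - imP x) + imP x := by abel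
    calc nE A = nE ((A - imP x) + imP x) := by rw [← this]
      _ ≤ _ := nE_add_le _ _
  have hu1 : nE u ≤ nE (u - reP x) + nE (reP x) := by
    have : u = (u - reP x) + reP x := by abel
    calc nE u = nE ((u - reP x) + reP x) := by rw [← this]
      _ ≤ _ := nE_add_le _ _
  have hu2 : nE (reP x) ≤ nE u + nE (u - reP x) := by
    have : reP x = u - (u - reP x) := by abel
    calc nE (reP x) = nE (u - (u - reP x)) := by rw [← this]
      _ ≤ _ := nE_sub_le _ _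
  have k1 : C4 * nC x * nE (imP x) ≤ C4 * r * nE (imP x) := by gcongr
  have k2 : C4 * nC x * nE (imP x) ≤ C4 * r * nC x := by
    calc C4 * nC x * nE (imP x) ≤ C4 * r * nC x := by gcongr
      _ = _ := rfl
  have hCr : C4 * r ≤ 1 := by
    calc C4 * r ≤ (C4 + 1) * (1 / (C4 + 1)) := by gcongr; linarith
      _ = 1 := by field_simp
  have hu3 : nE u ≤ 2 * nC x := by nlinarith
  have hu0 := nE_nonneg u
  have hy1 : nN (Eg B hG u) ≤ nE u := nN_Eg_le B hG u
  have hy2 : nE u ≤ nN (Eg B hG u) + nE u ^ 2 := nE_le_nN B hG u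
  have hu4 : nE u ^ 2 ≤ 4 * r * nC x := by nlinarith
  refine ⟨A, Eg B hG u, ?_, ?_, ?_, ?_⟩
  · refine Units.ext ?_
    rw [Units.val_mul, uE_val, uE_val, uG_val, e]
  · have p1 : 0 ≤ r * nE (imP x) := by positivity
    nlinarith
  · have p1 : 0 ≤ r * nC x := by positivity
    nlinarith
  · have p1 : 0 ≤ r * nC x := by positivity
    nlinarith

lemma mt_unit (g : G) : mt g * (mt g)ᴴ = 1 := rhoG_unit g

lemma mt_unit' (g : G) : (mt g)ᴴ * mt g = 1 := rhoG_unit' g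

lemma nN_sq (g : G) : nN g ^ 2 = 2 * N - 2 * (trace (mt g)).re := by
  unfold nN
  rw [norm_sq_ip, ip_apply, conjTranspose_sub, conjTranspose_one, sub_mul, mul_sub, mul_one,
    one_mul, mt_unit']
  simp only [trace_sub, trace_one, trace_conjTranspose, Complex.sub_re, Fintype.card_fin]
  have : (star (trace (mt g))).re = (trace (mt g)).re := by
    rw [Complex.star_def, Complex.conj_re]
  rw [this]
  simp
  ring

lemma one_sub_mul (z : G) (A : Mat N) (hA : A = 1 - mt z) : A * Aᴴ = 1 + 1 - mt z - (mt z)ᴴ := by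
  have h1 : A * Aᴴ = 1 - mt z - (mt z)ᴴ + mt z * (mt z)ᴴ := by
    rw [hA, conjTranspose_sub, conjTranspose_one]
    noncomm_ring
  rw [h1, mt_unit]
  abel

/-- the parallelogram inequality in the group -/
lemma nN_par (g z : G) : 2 * nN g ^ 2 + 2 * nN z ^ 2 * (1 - nN g) ≤
    nN (g * z) ^ 2 + nN (g * z⁻¹) ^ 2 := by
  obtain ⟨A, hA⟩ : ∃ A : Mat N, A = 1 - mt z := ⟨_, rfl⟩
  have hAn : ‖A‖ = nN z := by rw [hA]; unfold nN; rw [norm_sub_rev]
  have h1 : mt g * (A * Aᴴ) = mt g + mt g - mt (g * z) - mt (g * z⁻¹) := by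
    rw [one_sub_mul z A hA, mul_sub, mul_sub, mul_add, mul_one, mt_mul, mt_mul, mt_inv_star]
  have h2 : (trace (mt g * (A * Aᴴ))).re =
      2 * (trace (mt g)).re - (trace (mt (g * z))).re - (trace (mt (g * z⁻¹))).re := by
    rw [h1, trace_sub, trace_sub, trace_add, Complex.sub_re, Complex.sub_re, Complex.add_re]
    ring
  have h3 : (trace (mt g * (A * Aᴴ))).re = nN z ^ 2 + ip A ((mt g - 1) * A) := by
    have e : mt g * (A * Aᴴ) = A * Aᴴ + (mt g - 1) * A * Aᴴ := by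
      rw [sub_mul, sub_mul, one_mul, mul_assoc]; abel
    rw [e, trace_add, Complex.add_re]
    congr 1
    · rw [← hAn, norm_sq_ip, ip_apply, trace_mul_comm]
    · rw [ip_apply, trace_mul_comm]
  have h4 : |ip A ((mt g - 1) * A)| ≤ nN z * (nN g * nN z) := by
    refine (abs_ip_le _ _).trans ?_
    rw [hAn]
    refine mul_le_mul_of_nonneg_left ?_ (nN_nonneg z)
    refine (norm_mul_le _ _).trans ?_
    rw [hAn]
    rfl
  have h6 := neg_abs_le (ip A ((mt g - 1) * A))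
  rw [nN_sq (g * z), nN_sq (g * z⁻¹)]
  have h7 := nN_sq g
  have h8 := nN_sq z
  nlinarith

end

end Pool.Agent.N991.MK
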