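import Mathlib
import Pool.Agent.N991.MK.Tube

/-!
# The tube bound: the range of radii and lower bounds of the normalisation
-/

open MeasureTheory Matrix Filter
open scoped Matrix.Norms.Frobenius ContDiff Topology
open Pool.Agent.H906R3.YM Pool.Agent.W793.YM Pool.Agent.TH618.YM Pool.Agent.N984.TW

namespace Pool.Agent.N991.MK

set_option linter.unusedSectionVars false

noncomputable section

variable {N n : ℕ} {G : Subgroup (UN N)} (B : Frame G n) (hG : IsClosed (G : Set (UN N)))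

/-- the admissible radii -/
structure GoodR (r : ℝ) : Prop where
  pos : 0 < r
  le : r ≤ 1 / 100
  near : ∀ (a : Fin n → ℝ) (y : G), nE a ≤ r → nN y ≤ r → ∃ x : Fin n → ℂ,
      uE B x = uE B (Complex.I • rl a) * uG y ∧
      0.9999 * nN y ≤ nE (reP x) ∧ nE (reP x) ≤ 1.0001 * nN y ∧
      0.9999 * nE a ≤ nE (imP x) ∧ nE (imP x) ≤ 1.0001 * nE a
  polar : ∀ x : Fin n → ℂ, nC x ≤ r → ∃ (a : Fin n → ℝ) (y : G),
      uE B x = uE B (Complex.I • rl a) * uG y ∧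
      nE a ≤ 1.0001 * nE (imP x) ∧
      nN y ≤ nE (reP x) + 0.0001 * nC x ∧ nE (reP x) ≤ nN y + 0.0001 * nC x

include hG in
theorem exists_goodR : ∃ r0 : ℝ, 0 < r0 ∧ ∀ r : ℝ, 0 < r → r ≤ r0 → GoodR B r := by
  obtain ⟨C1, r1, hC1, hr1, h1⟩ := near_chart B hG
  obtain ⟨C2, r2, hC2, hr2, h2⟩ := polar_chart B hG
  refine ⟨min (min r1 r2) (min (1 / 100) (min (0.0001 / (C1 + 1)) (0.0001 / (C2 + 1)))),
    by positivity, fun r hr hrr => ?_⟩
  simp only [le_min_iff] at hrr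
  obtain ⟨⟨a1, a2⟩, a3, a4, a5⟩ := hrr
  have b1 : C1 * r ≤ 0.0001 := by
    rw [le_div_iff₀ (by positivity)] at a4
    nlinarith
  have b2 : C2 * r ≤ 0.0001 := by
    rw [le_div_iff₀ (by positivity)] at a5
    nlinarith
  refine ⟨hr, a3, fun a y ha hy => ?_, fun x hx => ?_⟩
  · obtain ⟨x, e1, e2, e3, e4, e5⟩ := h1 r hr a1 a y ha hy
    have hN0 := nN_nonneg y
    have ha0 := nE_nonneg a
    refine ⟨x, e1, ?_, ?_, ?_, ?_⟩ <;> nlinarith
  · obtain ⟨a, y, e1, e2, e3, e4⟩ := h2 r hr a2 x hx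
    have h3 := nC_nonneg x
    have h4 := nE_nonneg (imP x)
    refine ⟨a, y, e1, ?_, ?_, ?_⟩ <;> nlinarith

/-- polynomials are beaten by exponentials -/
lemma exp_beats (c c' : ℝ) (hc : 0 < c) (hc' : 0 < c') (A : ℝ) (D : ℕ) :
    ∃ k0 : ℝ, 1 ≤ k0 ∧ ∀ k : ℝ, k0 ≤ k → Real.exp (A - c * k) * k ^ D ≤ c' := by
  have h1 : Tendsto (fun x : ℝ => x ^ D * Real.exp (-x)) atTop (𝓝 0) :=
    Real.tendsto_pow_mul_exp_neg_atTop_nhds_zero D
  have h2 : Tendsto (fun k : ℝ => c * k) atTop atTop := tendsto_id.const_mul_atTop hc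
  have h3 := ((h1.comp h2).const_mul (Real.exp A * (1 / c) ^ D))
  rw [mul_zero] at h3
  obtain ⟨k0, hk0⟩ := eventually_atTop.1 (h3.eventually (gt_mem_nhds hc'))
  refine ⟨max k0 1, le_max_right _ _, fun k hk => ?_⟩
  have h4 := hk0 k ((le_max_left _ _).trans hk)
  simp only [Function.comp_apply] at h4
  refine le_trans (le_of_eq ?_) h4.le
  rw [sub_eq_add_neg, Real.exp_add, mul_pow]
  have : (1 / c) ^ D * c ^ D = 1 := by rw [← mul_pow, one_div, inv_mul_cancel₀ hc.ne', one_pow]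
  calc Real.exp A * Real.exp (-(c * k)) * k ^ D
      = Real.exp A * ((1 / c) ^ D * c ^ D) * Real.exp (-(c * k)) * k ^ D := by rw [this]; ring
    _ = _ := by ring

lemma rl_zero' : Complex.I • rl (0 : Fin n → ℝ) = 0 := by rw [rl_zero, smul_zero]

variable {B}

lemma GoodR.near0 {r : ℝ} (hr : GoodR B r) {y : G} (hy : nN y ≤ 0.99 * r) :
    ∃ x : Fin n → ℂ, uE B x = uG y ∧ nC x < r ∧ nE (imP x) = 0 ∧
      0.9999 * nN y ≤ nE (reP x) ∧ nE (reP x) ≤ 1.0001 * nN y := by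
  have hp := hr.pos
  obtain ⟨x, e1, e2, e3, e4, e5⟩ := hr.near 0 y (by rw [nE_zero]; exact hp.le) (by linarith)
  rw [nE_zero, mul_zero] at e5
  have hi : nE (imP x) = 0 := le_antisymm e5 (nE_nonneg _)
  rw [rl_zero', uE_zero, one_mul] at e1
  have h1 := nE_re_im x
  rw [hi] at h1
  have h2 := nC_nonneg x
  have h3 := nE_nonneg (reP x)
  refine ⟨x, e1, ?_, hi, e2, e3⟩
  have h4 : nC x = nE (reP x) := by nlinarith
  rw [h4]
  linarith

variable [CompactSpace G] [MeasurableSpace G] [BorelSpace G]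
  {μ : Measure G} [IsProbabilityMeasure μ] [μ.IsMulLeftInvariant] [μ.IsMulRightInvariant]
  [μ.IsInvInvariant]

lemma CF.norm_res {f : G → ℝ} {F : (Mat N)ˣ → ℂ} (h : CF f F) (g : G) : ‖F (uG g)‖ = |f g| := by
  rw [h.res, Complex.norm_real, Real.norm_eq_abs]

lemma CF.one {f : G → ℝ} {F : (Mat N)ˣ → ℂ} (h : CF f F) : ‖F 1‖ = |f 1| := by
  have := h.norm_res 1
  rwa [map_one] at this

lemma int_sq_nonneg (f : G → ℝ) : 0 ≤ ∫ z, f z ^ 2 ∂μ := integral_nonneg fun z => sq_nonneg (f z)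

/-- the value of the convolution at the identity -/
lemma CF.conv_one {f : G → ℝ} {F : (Mat N)ˣ → ℂ} (h : CF f F) :
    ‖MK.convC μ F F 1‖ = ∫ z, f z ^ 2 ∂μ := by
  rw [(h.convC (μ := μ) h).one, MK.conv_one h.symR, abs_of_nonneg (int_sq_nonneg f)]

/-- lower bound of the normalisation by the volume of a ball -/
lemma int_lower {r k M : ℝ} (hr : GoodR B r) (hk : 16 / r ^ 2 ≤ k) (hM : M * r ^ 2 ≤ k / 1000)
    {f : G → ℝ} {F : (Mat N)ˣ → ℂ} (h : CF f F) (hn : NearS B r k M F) :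
    Real.exp (-2) * ‖F 1‖ ^ 2 * μ.real (bl (1 / Real.sqrt k) : Set G) ≤ ∫ z, f z ^ 2 ∂μ := by
  have hp := hr.pos
  have hk0 : 0 < k := lt_of_lt_of_le (by positivity) hk
  have hsk : 0 < Real.sqrt k := Real.sqrt_pos.2 hk0
  have hrk : 1 / Real.sqrt k ≤ r / 4 := by
    rw [div_le_iff₀ hsk]
    have h1 : Real.sqrt (16 / r ^ 2) ≤ Real.sqrt k := Real.sqrt_le_sqrt hk
    have h2 : Real.sqrt (16 / r ^ 2) = 4 / r := by
      rw [show 16 / r ^ 2 = (4 / r) ^ 2 by ring, Real.sqrt_sq (by positivity)]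
    rw [h2] at h1
    calc (1 : ℝ) = r / 4 * (4 / r) := by field_simp
      _ ≤ r / 4 * Real.sqrt k := by gcongr
  have hpt : ∀ z ∈ (bl (1 / Real.sqrt k) : Set G), Real.exp (-2) * ‖F 1‖ ^ 2 ≤ f z ^ 2 := by
    intro z hz
    have hz1 : nN z ≤ 1 / Real.sqrt k := hz
    obtain ⟨x, e1, e2, e3, e4, e5⟩ := hr.near0 (y := z) (by linarith)
    have h1 := hn.lower hp hk0.le hM e2
    rw [e1, e3, h.norm_res] at h1
    have h2 : nE (reP x) ^ 2 * k ≤ 1.01 := by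
      have h3 : nE (reP x) ≤ 1.0001 * (1 / Real.sqrt k) := by linarith
      have h4 : nE (reP x) ^ 2 ≤ (1.0001 * (1 / Real.sqrt k)) ^ 2 :=
        pow_le_pow_left₀ (nE_nonneg _) h3 2
      have h5 : (1.0001 * (1 / Real.sqrt k)) ^ 2 * k = 1.0001 ^ 2 := by
        rw [mul_pow, div_pow, Real.sq_sqrt hk0.le]
        field_simp
      calc nE (reP x) ^ 2 * k ≤ (1.0001 * (1 / Real.sqrt k)) ^ 2 * k := by gcongr
        _ = 1.0001 ^ 2 := h5
        _ ≤ 1.01 := by norm_num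
    have h3 : Real.exp (-1) ≤ Real.exp (k / 2 * (0.998 * 0 ^ 2 - 1.002 * nE (reP x) ^ 2)) :=
      Real.exp_le_exp.2 (by nlinarith)
    have h4 : ‖F 1‖ * Real.exp (-1) ≤ |f z| :=
      (mul_le_mul_of_nonneg_left h3 (norm_nonneg _)).trans h1
    have h5 : (‖F 1‖ * Real.exp (-1)) ^ 2 ≤ |f z| ^ 2 :=
      pow_le_pow_left₀ (by positivity) h4 2
    rw [sq_abs, mul_pow, ← Real.exp_nat_mul] at h5
    norm_num at h5 ⊢
    linarith
  have hint : Integrable (fun z => f z ^ 2) μ := integrable_of_cont (h.cont.pow 2)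
  calc Real.exp (-2) * ‖F 1‖ ^ 2 * μ.real (bl (1 / Real.sqrt k) : Set G)
      = ∫ _z in (bl (1 / Real.sqrt k) : Set G), Real.exp (-2) * ‖F 1‖ ^ 2 ∂μ := by
        rw [setIntegral_const, smul_eq_mul, mul_comm]
    _ ≤ ∫ z in (bl (1 / Real.sqrt k) : Set G), f z ^ 2 ∂μ :=
        setIntegral_mono_on (integrable_const _).integrableOn hint.integrableOn (bl_meas _) hpt
    _ ≤ ∫ z, f z ^ 2 ∂μ :=
        setIntegral_le_integral hint (Eventually.of_forall fun z => sq_nonneg (f z))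

/-- the polynomial lower bound of the normalisation -/
lemma int_lower_pow (μ : Measure G) [IsProbabilityMeasure μ] [μ.IsMulLeftInvariant]
    [μ.IsMulRightInvariant] [μ.IsInvInvariant] : ∃ c : ℝ, 0 < c ∧ ∃ D : ℕ,
    ∀ {r k M : ℝ}, GoodR B r → 16 / r ^ 2 ≤ k → M * r ^ 2 ≤ k / 1000 →
    ∀ {f : G → ℝ} {F : (Mat N)ˣ → ℂ}, CF f F → NearS B r k M F →
      ‖F 1‖ ^ 2 * c ≤ k ^ D * ∫ z, f z ^ 2 ∂μ := by
  obtain ⟨c, hc, D, hv⟩ := vol_lower μ
  refine ⟨Real.exp (-2) * c, by positivity, D, fun {r k M} hr hk hM f F h hn => ?_⟩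
  have h1 := int_lower (μ := μ) hr hk hM h hn
  have hp := hr.pos
  have hk1 : 1 ≤ k := by
    refine le_trans ?_ hk
    rw [le_div_iff₀ (by positivity)]
    nlinarith [hr.le]
  have hsk : 1 ≤ Real.sqrt k := Real.one_le_sqrt.2 hk1
  have h2 := hv (1 / Real.sqrt k) (by positivity) ((div_le_one (by positivity)).2 hsk)
  have h3 : (1 : ℝ) ≤ k ^ D * (1 / Real.sqrt k) ^ D := by
    rw [← mul_pow]
    refine one_le_pow₀ ?_
    rw [mul_one_div, le_div_iff₀ (by positivity), one_mul]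
    nlinarith [Real.mul_self_sqrt (zero_le_one.trans hk1)]
  have h4 : Real.exp (-2) * ‖F 1‖ ^ 2 * (c * (1 / Real.sqrt k) ^ D) ≤ ∫ z, f z ^ 2 ∂μ :=
    (mul_le_mul_of_nonneg_left h2 (by positivity)).trans h1
  calc ‖F 1‖ ^ 2 * (Real.exp (-2) * c) = Real.exp (-2) * ‖F 1‖ ^ 2 * c * 1 := by ring
    _ ≤ Real.exp (-2) * ‖F 1‖ ^ 2 * c * (k ^ D * (1 / Real.sqrt k) ^ D) := by gcongr
    _ = k ^ D * (Real.exp (-2) * ‖F 1‖ ^ 2 * (c * (1 / Real.sqrt k) ^ D)) := by ring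
    _ ≤ k ^ D * ∫ z, f z ^ 2 ∂μ := by gcongr

end

end Pool.Agent.N991.MK
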