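import Mathlib
import Pool.Agent.N991.MK.Gauss
import Pool.Agent.N991.MK.Tube2

/-!
# The far part and the moments
-/

open MeasureTheory Matrix Filter
open scoped Matrix.Norms.Frobenius ContDiff Topology
open Pool.Agent.H906R3.YM Pool.Agent.W793.YM Pool.Agent.TH618.YM Pool.Agent.N984.TW

namespace Pool.Agent.N991.MK

set_option linter.unusedSectionVars false

noncomputable section

variable {N n : ℕ} {G : Subgroup (UN N)} {B : Frame G n} (hG : IsClosed (G : Set (UN N)))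

lemma sq_lower {u R δ : ℝ} (hu : 0 ≤ u) (h : R ≤ u + δ) (hR : 0 ≤ R) (hδ : 0 ≤ δ) :
    R ^ 2 - 2 * R * δ ≤ u ^ 2 := by
  rcases le_total R u with h1 | h1
  · nlinarith [mul_nonneg hR hδ]
  · nlinarith [mul_nonneg (sub_nonneg.2 h1) (add_nonneg hR hu)]

/-- the real inequality behind the far part -/
lemma far_real {r I R a u p q : ℝ} (hr : 0 < r) (hr1 : r ≤ 1 / 100) (hI : 0 ≤ I) (hR : 0 ≤ R)
    (hIR : I ^ 2 + R ^ 2 ≤ r ^ 2 / 4) (ha0 : 0 ≤ a) (ha : a ≤ 1.0001 * I) (hu : 0 ≤ u)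
    (hu1 : u ≤ R + 0.0001 * r) (hu2 : R ≤ u + 0.0001 * r)
    {z : ℝ} (hz : r / 4 ≤ z) (hpq : 2 * u ^ 2 + 2 * z ^ 2 * (1 - u) ≤ p ^ 2 + q ^ 2) :
    1.01 * a ^ 2 - 0.495 * (min p r ^ 2 + min q r ^ 2) + 0.05 * r ^ 2 ≤
      0.998 * I ^ 2 - 1.002 * R ^ 2 := by
  have h1 : 1.01 * a ^ 2 ≤ 1.0105 * I ^ 2 := by nlinarith
  have hR2 : R ≤ r / 2 := by nlinarith
  have hmin : ∀ s : ℝ, 0 ≤ s → 0 ≤ min s r := fun s hs => le_min hs hr.le
  rcases le_or_gt p r with h2 | h2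
  · rcases le_or_gt q r with h3 | h3
    · rw [min_eq_left h2, min_eq_left h3]
      have h4 := sq_lower hu hu2 hR (by positivity)
      have h5 : u ≤ 0.01 := by linarith
      have h6 : (r / 4) ^ 2 ≤ z ^ 2 := pow_le_pow_left₀ (by positivity) hz 2
      have h7 : (r / 4) ^ 2 * 0.99 ≤ z ^ 2 * (1 - u) :=
        mul_le_mul h6 (by linarith) (by norm_num) (by positivity)
      have h8 : 2 * R * (0.0001 * r) ≤ 0.0001 * r ^ 2 := by nlinarith
      nlinarith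
    · rw [min_eq_right h3.le]
      nlinarith [sq_nonneg (min p r)]
  · rw [min_eq_right h2.le]
    nlinarith [sq_nonneg (min q r)]

variable [CompactSpace G] [MeasurableSpace G] [BorelSpace G]

/-- the pointwise far bound -/
lemma far_point {r k M : ℝ} {f : G → ℝ} {F : (Mat N)ˣ → ℂ} (hr : GoodR B r) (hk : 0 ≤ k)
    (hM : M * r ^ 2 ≤ k / 1000) (h : CF f F) (hn : NearS B r k M F) (ht : Tube B r k F)
    {w : Fin n → ℂ} (hw : nC w ≤ r / 2) {z : G} (hz : r / 4 ≤ nN z) :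
    ‖F (uE B w * uG z) * F ((uG z)⁻¹ * uE B w)‖ ≤
      ‖F (uE B w)‖ ^ 2 * Real.exp (-(0.05 * r ^ 2 * k)) := by
  have hp := hr.pos
  obtain ⟨a, g, e1, e2, e3, e4⟩ := hr.polar w (by linarith)
  have hw0 := nC_nonneg w
  have hri := nE_re_im w
  have hR := nE_nonneg (reP w)
  have hI := nE_nonneg (imP w)
  have hIr : nE (imP w) ≤ r / 2 := (nE_im_le w).trans hw
  have ha51 : nE a ≤ 0.51 * r := by linarith
  rw [norm_mul, h.swap', e1, mul_assoc, mul_assoc, ← map_mul, ← map_mul]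
  have t1 := ht a (g * z) ha51
  have t2 := ht a (g * z⁻¹) ha51
  have hlow := hn.lower hp hk hM (x := w) (by linarith)
  rw [e1] at hlow
  have hIR : nE (imP w) ^ 2 + nE (reP w) ^ 2 ≤ r ^ 2 / 4 := by
    have h1 : nC w ^ 2 ≤ (r / 2) ^ 2 := pow_le_pow_left₀ hw0 hw 2
    rw [div_pow] at h1
    norm_num at h1
    linarith
  have hreal := far_real (r := r) (I := nE (imP w)) (R := nE (reP w)) (a := nE a) (u := nN g)
    (p := nN (g * z)) (q := nN (g * z⁻¹)) hp hr.le hI hR hIR (nE_nonneg a) e2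
    (nN_nonneg g) (by linarith) (by linarith) hz (nN_par g z)
  calc ‖F (uE B (Complex.I • rl a) * uG (g * z))‖ * ‖F (uE B (Complex.I • rl a) * uG (g * z⁻¹))‖
      ≤ (‖F 1‖ * Real.exp (k / 2 * (1.01 * nE a ^ 2 - 0.99 * min (nN (g * z)) r ^ 2))) *
        (‖F 1‖ * Real.exp (k / 2 * (1.01 * nE a ^ 2 - 0.99 * min (nN (g * z⁻¹)) r ^ 2))) :=
        mul_le_mul t1 t2 (norm_nonneg _) (by positivity)
    _ = ‖F 1‖ ^ 2 * Real.exp (k * (1.01 * nE a ^ 2 -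
          0.495 * (min (nN (g * z)) r ^ 2 + min (nN (g * z⁻¹)) r ^ 2))) := by
        have : k * (1.01 * nE a ^ 2 -
          0.495 * (min (nN (g * z)) r ^ 2 + min (nN (g * z⁻¹)) r ^ 2)) =
          k / 2 * (1.01 * nE a ^ 2 - 0.99 * min (nN (g * z)) r ^ 2) +
          k / 2 * (1.01 * nE a ^ 2 - 0.99 * min (nN (g * z⁻¹)) r ^ 2) := by ring
        rw [this, Real.exp_add]
        ring
    _ ≤ ‖F 1‖ ^ 2 * Real.exp (k * (0.998 * nE (imP w) ^ 2 - 1.002 * nE (reP w) ^ 2) +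
          -(0.05 * r ^ 2 * k)) := by
        refine mul_le_mul_of_nonneg_left (Real.exp_le_exp.2 ?_) (by positivity)
        have h9 := mul_le_mul_of_nonneg_left hreal hk
        linarith
    _ = (‖F 1‖ * Real.exp (k / 2 * (0.998 * nE (imP w) ^ 2 - 1.002 * nE (reP w) ^ 2))) ^ 2 *
          Real.exp (-(0.05 * r ^ 2 * k)) := by
        rw [Real.exp_add, mul_pow, ← Real.exp_nat_mul]
        have : k * (0.998 * nE (imP w) ^ 2 - 1.002 * nE (reP w) ^ 2) =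
          ((2 : ℕ) : ℝ) * (k / 2 * (0.998 * nE (imP w) ^ 2 - 1.002 * nE (reP w) ^ 2)) := by
          push_cast; ring
        rw [this]
        ring
    _ ≤ _ := by
        refine mul_le_mul_of_nonneg_right ?_ (Real.exp_pos _).le
        exact pow_le_pow_left₀ (by positivity) hlow 2

/-- `‖F 1‖² e^{-ck}` is small compared with the normalisation -/
lemma norm_beats (μ : Measure G) [IsProbabilityMeasure μ] [μ.IsMulLeftInvariant]
    [μ.IsMulRightInvariant] [μ.IsInvInvariant] {r : ℝ} (hr : GoodR B r) (c : ℝ) (hc : 0 < c)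
    (j : ℕ) : ∃ k0 : ℝ, 1 ≤ k0 ∧ 16 / r ^ 2 ≤ k0 ∧ ∀ {k M : ℝ} {f : G → ℝ} {F : (Mat N)ˣ → ℂ},
      k0 ≤ k → M * r ^ 2 ≤ k / 1000 → CF f F → NearS B r k M F →
      ‖F 1‖ ^ 2 * Real.exp (-(c * k)) ≤ 1 / k ^ j * ∫ z, f z ^ 2 ∂μ := by
  obtain ⟨c', hc', D, hlow⟩ := int_lower_pow (B := B) μ
  obtain ⟨k1, hk1, hexp⟩ := exp_beats c c' hc hc' 0 (D + j)
  refine ⟨max k1 (16 / r ^ 2), hk1.trans (le_max_left _ _), le_max_right _ _,
    fun {k M f F} hk hM h hn => ?_⟩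
  have hka : k1 ≤ k := (le_max_left _ _).trans hk
  have hkb : 16 / r ^ 2 ≤ k := (le_max_right _ _).trans hk
  have hk0 : 0 < k := lt_of_lt_of_le one_pos (hk1.trans hka)
  have h1 := hlow hr hkb hM h hn
  have h2 := hexp k hka
  rw [zero_sub] at h2
  have h3 : ‖F 1‖ ^ 2 * (Real.exp (-(c * k)) * k ^ (D + j)) ≤ k ^ D * ∫ z, f z ^ 2 ∂μ :=
    (mul_le_mul_of_nonneg_left h2 (by positivity)).trans h1
  have hkD : 0 < k ^ D := by positivity
  have hkj : 0 < k ^ j := by positivity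
  have h4 : k ^ D * (k ^ j * (‖F 1‖ ^ 2 * Real.exp (-(c * k)))) ≤ k ^ D * ∫ z, f z ^ 2 ∂μ := by
    calc _ = ‖F 1‖ ^ 2 * (Real.exp (-(c * k)) * k ^ (D + j)) := by rw [pow_add]; ring
      _ ≤ _ := h3
  have h5 := le_of_mul_le_mul_left h4 hkD
  rw [one_div, inv_mul_eq_div, le_div_iff₀ hkj]
  linarith

/-- **the far part of the convolution** -/
theorem far_part (μ : Measure G) [IsProbabilityMeasure μ] [μ.IsMulLeftInvariant]
    [μ.IsMulRightInvariant] [μ.IsInvInvariant] {r : ℝ} (hr : GoodR B r) :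
    ∃ k0 : ℝ, 1 ≤ k0 ∧ ∀ {k M : ℝ} {f : G → ℝ} {F : (Mat N)ˣ → ℂ},
      k0 ≤ k → M * r ^ 2 ≤ k / 1000 → CF f F → NearS B r k M F → Tube B r k F →
      ∀ x : Fin n → ℂ, nC x ≤ r →
      ‖∫ z in {z : G | r / 4 < nN z}, F (uE B ((1 / 2 : ℂ) • x) * uG z) *
        F ((uG z)⁻¹ * uE B ((1 / 2 : ℂ) • x)) ∂μ‖ * ‖F 1‖ ^ 2 ≤
      1 / k ^ 2 * ‖F (uE B ((1 / 2 : ℂ) • x))‖ ^ 2 * ∫ z, f z ^ 2 ∂μ := by
  have hp := hr.pos
  obtain ⟨k0, hk0, -, hb⟩ := norm_beats μ hr (0.05 * r ^ 2) (by positivity) 2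
  refine ⟨k0, hk0, fun {k M f F} hk hM h hn ht x hx => ?_⟩
  have hk' : 0 ≤ k := by linarith
  have hw : nC ((1 / 2 : ℂ) • x) ≤ r / 2 := by
    rw [nC_smul]
    norm_num
    linarith
  set w := (1 / 2 : ℂ) • x with hwdef
  have h1 : ‖∫ z in {z : G | r / 4 < nN z}, F (uE B w * uG z) * F ((uG z)⁻¹ * uE B w) ∂μ‖ ≤
      ‖F (uE B w)‖ ^ 2 * Real.exp (-(0.05 * r ^ 2 * k)) := by
    have h2 := norm_setIntegral_le_of_norm_le_const (μ := μ) (s := {z : G | r / 4 < nN z})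
      (C := ‖F (uE B w)‖ ^ 2 * Real.exp (-(0.05 * r ^ 2 * k)))
      (f := fun z => F (uE B w * uG z) * F ((uG z)⁻¹ * uE B w)) (measure_lt_top _ _)
      (fun z hz => far_point hr hk' hM h hn ht hw (le_of_lt hz))
    refine h2.trans ?_
    have h3 : μ.real {z : G | r / 4 < nN z} ≤ 1 := measureReal_le_one
    calc _ ≤ ‖F (uE B w)‖ ^ 2 * Real.exp (-(0.05 * r ^ 2 * k)) * 1 := by gcongr
      _ = _ := mul_one _
  have h4 := hb hk hM h hn
  calc _ ≤ ‖F (uE B w)‖ ^ 2 * Real.exp (-(0.05 * r ^ 2 * k)) * ‖F 1‖ ^ 2 := by gcongr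
    _ = ‖F (uE B w)‖ ^ 2 * (‖F 1‖ ^ 2 * Real.exp (-(0.05 * r ^ 2 * k))) := by ring
    _ ≤ ‖F (uE B w)‖ ^ 2 * (1 / k ^ 2 * ∫ z, f z ^ 2 ∂μ) := by gcongr
    _ = _ := by ring

/-- **pointwise bound at far elements** -/
theorem far_ptw (μ : Measure G) [IsProbabilityMeasure μ] [μ.IsMulLeftInvariant]
    [μ.IsMulRightInvariant] [μ.IsInvInvariant] {r : ℝ} (hr : GoodR B r) :
    ∃ k0 : ℝ, 1 ≤ k0 ∧ ∀ {k M : ℝ} {f : G → ℝ} {F : (Mat N)ˣ → ℂ},
      k0 ≤ k → M * r ^ 2 ≤ k / 1000 → CF f F → NearS B r k M F → Tube B r k F →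
      ∀ x : Fin n → ℂ, nC x ≤ r / 16 → ∀ z : G, r / 4 ≤ nN z →
      ‖F (uE B x * uG z)‖ ^ 2 ≤ 1 / k ^ 4 * ∫ z, f z ^ 2 ∂μ := by
  have hp := hr.pos
  obtain ⟨k0, hk0, -, hb⟩ := norm_beats μ hr (0.03 * r ^ 2) (by positivity) 4
  refine ⟨k0, hk0, fun {k M f F} hk hM h hn ht x hx z hz => ?_⟩
  have hk' : 0 ≤ k := by linarith
  obtain ⟨a, g, e1, e2, e3, e4⟩ := hr.polar x (by linarith)
  have hx0 := nC_nonneg x
  have hri := nE_re_le x
  have hii := nE_im_le x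
  have ha : nE a ≤ 0.0626 * r := by linarith
  have hg : nN g ≤ 0.0626 * r := by linarith
  have hgz : 0.187 * r ≤ nN (g * z) := by
    have := nN_mul_le g⁻¹ (g * z)
    rw [inv_mul_cancel_left, nN_inv] at this
    linarith
  have ha0 := nE_nonneg a
  have t1 := ht a (g * z) (by linarith)
  have hmin : (0.187 * r) ^ 2 ≤ min (nN (g * z)) r ^ 2 :=
    pow_le_pow_left₀ (by positivity) (le_min hgz (by linarith)) 2
  have ha2 : nE a ^ 2 ≤ (0.0626 * r) ^ 2 := pow_le_pow_left₀ ha0 ha 2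
  rw [e1, mul_assoc, ← map_mul]
  have h1 : ‖F (uE B (Complex.I • rl a) * uG (g * z))‖ ≤
      ‖F 1‖ * Real.exp (-(0.015 * r ^ 2 * k)) := by
    refine t1.trans (mul_le_mul_of_nonneg_left (Real.exp_le_exp.2 ?_) (norm_nonneg _))
    have : 1.01 * nE a ^ 2 - 0.99 * min (nN (g * z)) r ^ 2 ≤ -(0.03 * r ^ 2) := by nlinarith
    nlinarith
  calc _ ≤ (‖F 1‖ * Real.exp (-(0.015 * r ^ 2 * k))) ^ 2 :=
        pow_le_pow_left₀ (norm_nonneg _) h1 2
    _ = ‖F 1‖ ^ 2 * Real.exp (-(0.03 * r ^ 2 * k)) := by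
        rw [mul_pow, ← Real.exp_nat_mul]
        congr 2
        push_cast
        ring
    _ ≤ _ := hb hk hM h hn

/-- **the moments** -/
theorem moments (μ : Measure G) [IsProbabilityMeasure μ] [μ.IsMulLeftInvariant]
    [μ.IsMulRightInvariant] [μ.IsInvInvariant] : ∃ Cm : ℝ, 0 < Cm ∧ ∀ {r : ℝ}, GoodR B r →
    ∀ {k M : ℝ} {f : G → ℝ} {F : (Mat N)ˣ → ℂ}, 16 / r ^ 2 ≤ k → M * r ^ 2 ≤ k / 1000 →
      CF f F → NearS B r k M F →
      ∫ z in {z : G | nN z ≤ r / 4}, f z ^ 2 * (nN z ^ 2 * Real.exp (k / 10 * nN z ^ 2)) ∂μ ≤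
        Cm / k * ∫ z, f z ^ 2 ∂μ := by
  obtain ⟨C, hC, hg⟩ := gauss_le μ 0.797 (by norm_num)
  refine ⟨10 * C * Real.exp 2, by positivity, fun {r} hr {k M f F} hk hM h hn => ?_⟩
  have hp := hr.pos
  have hk0 : 0 < k := lt_of_lt_of_le (by positivity) hk
  have hsk : 0 < Real.sqrt k := Real.sqrt_pos.2 hk0
  have hlow := int_lower (μ := μ) hr hk hM h hn
  have hcont : Continuous fun z : G => f z ^ 2 * (nN z ^ 2 * Real.exp (k / 10 * nN z ^ 2)) := by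
    have h1 := h.cont
    have h2 := nN_cont (G := G)
    fun_prop
  have hcont2 : Continuous fun z : G => 10 / k * ‖F 1‖ ^ 2 *
      Real.exp (-(0.797 * (nN z / (1 / Real.sqrt k)) ^ 2)) := by
    have h2 := nN_cont (G := G)
    fun_prop
  have hpt : ∀ z ∈ {z : G | nN z ≤ r / 4}, f z ^ 2 * (nN z ^ 2 * Real.exp (k / 10 * nN z ^ 2)) ≤
      10 / k * ‖F 1‖ ^ 2 * Real.exp (-(0.797 * (nN z / (1 / Real.sqrt k)) ^ 2)) := by
    intro z hz
    have hz1 : nN z ≤ r / 4 := hz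
    obtain ⟨x, e1, e2, e3, e4, e5⟩ := hr.near0 (y := z) (by linarith)
    have h1 := hn.upper hp hk0.le hM e2
    rw [e1, e3, h.norm_res] at h1
    have hz0 := nN_nonneg z
    have h2 : f z ^ 2 ≤ ‖F 1‖ ^ 2 * Real.exp (-(0.997 * k * nN z ^ 2)) := by
      have h3 : |f z| ≤ ‖F 1‖ * Real.exp (-(0.4985 * k * nN z ^ 2)) := by
        refine h1.trans (mul_le_mul_of_nonneg_left (Real.exp_le_exp.2 ?_) (norm_nonneg _))
        have h4 : 0.9998 * nN z ^ 2 ≤ nE (reP x) ^ 2 := by nlinarith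
        nlinarith
      calc f z ^ 2 = |f z| ^ 2 := (sq_abs _).symm
        _ ≤ (‖F 1‖ * Real.exp (-(0.4985 * k * nN z ^ 2))) ^ 2 :=
            pow_le_pow_left₀ (abs_nonneg _) h3 2
        _ = _ := by
            rw [mul_pow, ← Real.exp_nat_mul]
            congr 2
            push_cast
            ring
    have h5 : (nN z / (1 / Real.sqrt k)) ^ 2 = k * nN z ^ 2 := by
      rw [div_pow, div_pow, Real.sq_sqrt hk0.le]
      field_simp
    rw [h5]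
    have h6 : k * nN z ^ 2 ≤ 10 * Real.exp (0.1 * (k * nN z ^ 2)) := by
      have := Real.add_one_le_exp (0.1 * (k * nN z ^ 2))
      linarith
    have h7 : nN z ^ 2 ≤ 10 / k * Real.exp (0.1 * (k * nN z ^ 2)) := by
      rw [div_mul_eq_mul_div, le_div_iff₀ hk0]
      linarith
    calc f z ^ 2 * (nN z ^ 2 * Real.exp (k / 10 * nN z ^ 2))
        ≤ ‖F 1‖ ^ 2 * Real.exp (-(0.997 * k * nN z ^ 2)) *
          (10 / k * Real.exp (0.1 * (k * nN z ^ 2)) * Real.exp (k / 10 * nN z ^ 2)) := by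
          gcongr
      _ = 10 / k * ‖F 1‖ ^ 2 * (Real.exp (-(0.997 * k * nN z ^ 2)) *
          (Real.exp (0.1 * (k * nN z ^ 2)) * Real.exp (k / 10 * nN z ^ 2))) := by ring
      _ = _ := by
          rw [← Real.exp_add, ← Real.exp_add]
          congr 2
          ring
  have hint2 : Integrable (fun z : G => 10 / k * ‖F 1‖ ^ 2 *
      Real.exp (-(0.797 * (nN z / (1 / Real.sqrt k)) ^ 2))) μ := integrable_of_cont hcont2
  calc ∫ z in {z : G | nN z ≤ r / 4}, f z ^ 2 * (nN z ^ 2 * Real.exp (k / 10 * nN z ^ 2)) ∂μ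
      ≤ ∫ z in {z : G | nN z ≤ r / 4}, 10 / k * ‖F 1‖ ^ 2 *
          Real.exp (-(0.797 * (nN z / (1 / Real.sqrt k)) ^ 2)) ∂μ :=
        setIntegral_mono_on (integrable_of_cont hcont).integrableOn hint2.integrableOn
          (bl_meas _) hpt
    _ ≤ ∫ z : G, 10 / k * ‖F 1‖ ^ 2 *
          Real.exp (-(0.797 * (nN z / (1 / Real.sqrt k)) ^ 2)) ∂μ :=
        setIntegral_le_integral hint2 (Eventually.of_forall fun z => by positivity)
    _ = 10 / k * ‖F 1‖ ^ 2 * ∫ z : G, Real.exp (-(0.797 * (nN z / (1 / Real.sqrt k)) ^ 2)) ∂μ :=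
        integral_const_mul _ _
    _ ≤ 10 / k * ‖F 1‖ ^ 2 * (C * μ.real (bl (1 / Real.sqrt k) : Set G)) := by
        gcongr
        exact hg _ (by positivity)
    _ = 10 * C * Real.exp 2 / k *
          (Real.exp (-2) * ‖F 1‖ ^ 2 * μ.real (bl (1 / Real.sqrt k) : Set G)) := by
        have : Real.exp 2 * Real.exp (-2) = 1 := by rw [← Real.exp_add]; norm_num
        calc _ = 10 * C / k * ‖F 1‖ ^ 2 * μ.real (bl (1 / Real.sqrt k) : Set G) * 1 := by ring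
          _ = _ := by rw [← this]; ring
    _ ≤ _ := by gcongr

end

end Pool.Agent.N991.MK
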