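import Mathlib
import Pool.Agent.N991.MK.Tube2

/-!
# The tube bound is reproduced by the convolution
-/

open MeasureTheory Matrix Filter
open scoped Matrix.Norms.Frobenius ContDiff Topology
open Pool.Agent.H906R3.YM Pool.Agent.W793.YM Pool.Agent.TH618.YM Pool.Agent.N984.TW

namespace Pool.Agent.N991.MK

set_option linter.unusedSectionVars false

noncomputable section

variable {N n : ℕ} {G : Subgroup (UN N)} {B : Frame G n} (hG : IsClosed (G : Set (UN N)))

/-- the truncated squares -/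
lemma phi_two {r s t M : ℝ} (hr : 0 < r) (hs : 0.7 * r ≤ s) (ht : 0 ≤ t) (hM : M ≤ s + t)
    (hM0 : 0 ≤ M) :
    1 / 2 * min M r ^ 2 + 0.08 * r ^ 2 ≤ min s r ^ 2 + min t r ^ 2 := by
  obtain ⟨S, hS⟩ : ∃ S, S = min s r := ⟨_, rfl⟩
  obtain ⟨T, hT⟩ : ∃ T, T = min t r := ⟨_, rfl⟩
  obtain ⟨m, hm⟩ : ∃ m, m = min M r := ⟨_, rfl⟩
  rw [← hS, ← hT, ← hm]
  have h1 : 0.7 * r ≤ S := by rw [hS]; exact le_min hs (by linarith)
  have h2 : 0 ≤ T := by rw [hT]; exact le_min ht hr.le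
  have h3 : m ≤ r := by rw [hm]; exact min_le_right _ _
  have h0 : 0 ≤ m := by rw [hm]; exact le_min hM0 hr.le
  have h4 : m ≤ S + T := by
    rcases le_total s r with h5 | h5
    · rcases le_total t r with h6 | h6
      · rw [hm, hS, hT, min_eq_left h5, min_eq_left h6]
        exact (min_le_left _ _).trans hM
      · have : T = r := by rw [hT, min_eq_right h6]
        linarith
    · have : S = r := by rw [hS, min_eq_right h5]
      linarith
  rcases le_or_gt (0.3 * r) T with h5 | h5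
  · nlinarith
  · have h6 : m ^ 2 ≤ (S + T) ^ 2 := pow_le_pow_left₀ h0 h4 2
    nlinarith [sq_nonneg (S - T)]

/-- the two halves of an imaginary exponential -/
lemma uE_half (a : Fin n → ℝ) : uE B (Complex.I • rl a) =
    uE B (Complex.I • rl ((1 / 2 : ℝ) • a)) * uE B (Complex.I • rl ((1 / 2 : ℝ) • a)) := by
  have h := uE_add_smul B (Complex.I • rl a) (1 / 2) (1 / 2)
  have e : (1 / 2 : ℂ) • Complex.I • rl a = Complex.I • rl ((1 / 2 : ℝ) • a) := by
    funext i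
    simp [rl]
    ring
  rw [e, show (1 / 2 + 1 / 2 : ℂ) = 1 by norm_num, one_smul] at h
  exact h

/-- the improved bound in the small part of the tube -/
lemma NearS.tube {r k M : ℝ} {F : (Mat N)ˣ → ℂ} (h : NearS B r k M F) (hr : GoodR B r)
    (hk : 0 ≤ k) (hM : M * r ^ 2 ≤ k / 1000) {a : Fin n → ℝ} {y : G}
    (hay : nE a ^ 2 + nN y ^ 2 ≤ (0.95 * r) ^ 2) :
    ‖F (uE B (Complex.I • rl a) * uG y)‖ ≤
      ‖F 1‖ * Real.exp (k / 2 * (1.003 * nE a ^ 2 - 0.997 * nN y ^ 2)) := by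
  have hp := hr.pos
  have ha0 := nE_nonneg a
  have hy0 := nN_nonneg y
  have ha : nE a ≤ r := by nlinarith
  have hy : nN y ≤ r := by nlinarith
  obtain ⟨x, e1, e2, e3, e4, e5⟩ := hr.near a y ha hy
  have h1 := nE_re_im x
  have h2 := nC_nonneg x
  have h3 := nE_nonneg (reP x)
  have h4 := nE_nonneg (imP x)
  have h5 : nE (reP x) ^ 2 ≤ 1.001 * nN y ^ 2 := by nlinarith
  have h6 : nE (imP x) ^ 2 ≤ 1.0004 * nE a ^ 2 := by nlinarith
  have h7 : 0.9996 * nN y ^ 2 ≤ nE (reP x) ^ 2 := by nlinarith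
  have hx : nC x < r := by
    have h8 : nC x ^ 2 ≤ 1.001 * (0.95 * r) ^ 2 := by nlinarith
    nlinarith
  have h9 := h.upper hp hk hM hx
  rw [← e1]
  refine h9.trans (mul_le_mul_of_nonneg_left (Real.exp_le_exp.2 ?_) (norm_nonneg _))
  refine mul_le_mul_of_nonneg_left ?_ (by positivity)
  nlinarith

variable [CompactSpace G] [MeasurableSpace G] [BorelSpace G]
  {μ : Measure G} [IsProbabilityMeasure μ] [μ.IsMulLeftInvariant] [μ.IsMulRightInvariant]
  [μ.IsInvInvariant]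

/-- the pointwise bound of the integrand -/
lemma tube_point {r k M : ℝ} {F : (Mat N)ˣ → ℂ} (hr : GoodR B r) (hk : 0 ≤ k)
    (hM : M * r ^ 2 ≤ k / 1000) (hn : NearS B r k M F) (ht : Tube B r k F) {a : Fin n → ℝ}
    (ha : nE a ≤ 0.255 * r) {s t : G} {L : ℝ} (hL : 0.7 * r ≤ L) (hst : L ≤ nN s + nN t) :
    ‖F (uE B (Complex.I • rl a) * uG s)‖ * ‖F (uE B (Complex.I • rl a) * uG t)‖ ≤
      ‖F 1‖ ^ 2 * Real.exp (k / 4 * (1.01 * (2 * nE a) ^ 2 - 0.99 * min L r ^ 2) -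
        k * r ^ 2 / 2000) := by
  have hp := hr.pos
  have ha0 := nE_nonneg a
  have hs0 := nN_nonneg s
  have ht0 := nN_nonneg t
  have key : ∀ E1 E2 : ℝ, ‖F (uE B (Complex.I • rl a) * uG s)‖ ≤ ‖F 1‖ * Real.exp E1 →
      ‖F (uE B (Complex.I • rl a) * uG t)‖ ≤ ‖F 1‖ * Real.exp E2 →
      E1 + E2 ≤ k / 4 * (1.01 * (2 * nE a) ^ 2 - 0.99 * min L r ^ 2) - k * r ^ 2 / 2000 →
      ‖F (uE B (Complex.I • rl a) * uG s)‖ * ‖F (uE B (Complex.I • rl a) * uG t)‖ ≤
      ‖F 1‖ ^ 2 * Real.exp (k / 4 * (1.01 * (2 * nE a) ^ 2 - 0.99 * min L r ^ 2) -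
        k * r ^ 2 / 2000) := by
    intro E1 E2 h1 h2 h3
    calc _ ≤ (‖F 1‖ * Real.exp E1) * (‖F 1‖ * Real.exp E2) :=
          mul_le_mul h1 h2 (norm_nonneg _) (by positivity)
      _ = ‖F 1‖ ^ 2 * Real.exp (E1 + E2) := by rw [Real.exp_add]; ring
      _ ≤ _ := mul_le_mul_of_nonneg_left (Real.exp_le_exp.2 h3) (by positivity)
  have hL0 : 0 ≤ L := by linarith
  have hkr : 0 ≤ k * r ^ 2 := by positivity
  by_cases hcase : nN s ≤ 0.7 * r ∧ nN t ≤ 0.7 * r
  · obtain ⟨c1, c2⟩ := hcase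
    refine key _ _ (hn.tube hr hk hM (a := a) (y := s) ?_)
      (hn.tube hr hk hM (a := a) (y := t) ?_) ?_
    · nlinarith
    · nlinarith
    · have h1 : min L r ^ 2 ≤ L ^ 2 :=
        pow_le_pow_left₀ (le_min hL0 hp.le) (min_le_left _ _) 2
      have h2 : (0.7 * r) ^ 2 ≤ min L r ^ 2 :=
        pow_le_pow_left₀ (by positivity) (le_min hL (by linarith)) 2
      have h3 : L ^ 2 ≤ 2 * (nN s ^ 2 + nN t ^ 2) := by
        nlinarith [sq_nonneg (nN s - nN t)]
      have h4 : 0 ≤ k * nE a ^ 2 := by positivity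
      have h5 : k * min L r ^ 2 ≤ k * (2 * (nN s ^ 2 + nN t ^ 2)) :=
        mul_le_mul_of_nonneg_left (h1.trans h3) hk
      have h6 : k * (0.7 * r) ^ 2 ≤ k * min L r ^ 2 := mul_le_mul_of_nonneg_left h2 hk
      nlinarith
  · have h1 : 1 / 2 * min L r ^ 2 + 0.08 * r ^ 2 ≤ min (nN s) r ^ 2 + min (nN t) r ^ 2 := by
      rw [not_and_or, not_le, not_le] at hcase
      rcases hcase with h | h
      · exact phi_two hp h.le ht0 hst hL0
      · rw [add_comm (min (nN s) r ^ 2)]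
        exact phi_two hp h.le hs0 (by linarith) hL0
    refine key _ _ (ht a s (by linarith)) (ht a t (by linarith)) ?_
    have h2 : k * (1 / 2 * min L r ^ 2 + 0.08 * r ^ 2) ≤
        k * (min (nN s) r ^ 2 + min (nN t) r ^ 2) := mul_le_mul_of_nonneg_left h1 hk
    nlinarith

include hG in
/-- **The tube bound is reproduced by the convolution.** -/
theorem tube_conv (μ : Measure G) [IsProbabilityMeasure μ] [μ.IsMulLeftInvariant]
    [μ.IsMulRightInvariant] [μ.IsInvInvariant] {r : ℝ} (hr : GoodR B r) (C1 : ℝ) (hC1 : 0 ≤ C1) :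
    ∃ k0 : ℝ, 1 ≤ k0 ∧ ∀ {k k' M M' : ℝ} {f : G → ℝ} {F : (Mat N)ˣ → ℂ}, k0 ≤ k →
      |k' - k / 2| ≤ C1 → M * r ^ 2 ≤ k / 1000 → M' * r ^ 2 ≤ k' / 1000 → CF f F →
      NearS B r k M F → Tube B r k F → NearS B r k' M' (convC μ F F) →
      Tube B r k' (convC μ F F) := by
  obtain ⟨c, hc, D, hlow⟩ := int_lower_pow (B := B) μ
  have hp := hr.pos
  obtain ⟨k1, hk1, hexp⟩ := exp_beats (r ^ 2 / 2000) c (by positivity) hc C1 D
  refine ⟨max (max k1 (16 / r ^ 2)) (4 * C1), hk1.trans ((le_max_left _ _).trans (le_max_left _ _)),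
    fun {k k' M M' f F} hk hkk hM hM' h hn ht hn' a y ha => ?_⟩
  have hka : k1 ≤ k := (le_max_left _ _).trans ((le_max_left _ _).trans hk)
  have hkb : 16 / r ^ 2 ≤ k := (le_max_right _ _).trans ((le_max_left _ _).trans hk)
  have hkc : 4 * C1 ≤ k := (le_max_right _ _).trans hk
  have hk1' : 1 ≤ k := hk1.trans hka
  have hk0 : 0 ≤ k := by linarith
  rw [abs_le] at hkk
  have hk'0 : 0 ≤ k' := by linarith
  have ha0 := nE_nonneg a
  have hy0 := nN_nonneg y
  by_cases hcase : nE a ^ 2 + nN y ^ 2 ≤ (0.95 * r) ^ 2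
  · refine (hn'.tube hr hk'0 hM' hcase).trans ?_
    refine mul_le_mul_of_nonneg_left (Real.exp_le_exp.2 ?_) (norm_nonneg _)
    refine mul_le_mul_of_nonneg_left ?_ (by positivity)
    have h1 : min (nN y) r ^ 2 ≤ nN y ^ 2 :=
      pow_le_pow_left₀ (le_min hy0 hp.le) (min_le_left _ _) 2
    nlinarith [sq_nonneg (nE a), sq_nonneg (nN y)]
  · push Not at hcase
    have hy7 : 0.7 * r ≤ nN y := by nlinarith
    set a' : Fin n → ℝ := (1 / 2 : ℝ) • a with ha'
    have ha'n : nE a' = nE a / 2 := by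
      rw [ha', nE_smul, abs_of_pos (by norm_num : (0 : ℝ) < 1 / 2)]; ring
    have e1 : convC μ F F (uE B (Complex.I • rl a) * uG y) =
        ∫ z : G, F (uE B (Complex.I • rl a') * uG z) *
          F (uE B (Complex.I • rl a') * uG (y * z⁻¹)) ∂μ := by
      rw [uE_half, mul_assoc, convC_shift B hG h.hol h.hol]
      refine integral_congr_ae (Eventually.of_forall fun z => ?_)
      beta_reduce
      rw [h.swap', mul_assoc, ← map_mul]
    have hE : k / 4 * (1.01 * nE a ^ 2 - 0.99 * min (nN y) r ^ 2) ≤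
        k' / 2 * (1.01 * nE a ^ 2 - 0.99 * min (nN y) r ^ 2) + C1 := by
      have h2 : min (nN y) r ^ 2 ≤ r ^ 2 :=
        pow_le_pow_left₀ (le_min hy0 hp.le) (min_le_right _ _) 2
      have h3 := sq_nonneg (min (nN y) r)
      have h4 : r ≤ 1 := hr.le.trans (by norm_num)
      have h5 : |1.01 * nE a ^ 2 - 0.99 * min (nN y) r ^ 2| ≤ 2 := by
        rw [abs_le]; constructor <;> nlinarith
      have h6 : |(k / 4 - k' / 2) * (1.01 * nE a ^ 2 - 0.99 * min (nN y) r ^ 2)| ≤ C1 / 2 * 2 := by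
        rw [abs_mul]
        refine mul_le_mul ?_ h5 (abs_nonneg _) (by positivity)
        rw [abs_le]; constructor <;> linarith
      have h7 := le_abs_self ((k / 4 - k' / 2) * (1.01 * nE a ^ 2 - 0.99 * min (nN y) r ^ 2))
      linarith
    set E := k' / 2 * (1.01 * nE a ^ 2 - 0.99 * min (nN y) r ^ 2) with hEdef
    have hpt : ∀ z : G, ‖F (uE B (Complex.I • rl a') * uG z) *
          F (uE B (Complex.I • rl a') * uG (y * z⁻¹))‖ ≤
        ‖F 1‖ ^ 2 * Real.exp (E + (C1 - r ^ 2 / 2000 * k)) := by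
      intro z
      rw [norm_mul]
      have hL : nN y ≤ nN z + nN (y * z⁻¹) := by
        have := nN_mul_le (y * z⁻¹) z
        rw [inv_mul_cancel_right] at this
        linarith
      refine (tube_point hr hk0 hM hn ht (a := a') (by rw [ha'n]; linarith) hy7 hL).trans ?_
      refine mul_le_mul_of_nonneg_left (Real.exp_le_exp.2 ?_) (by positivity)
      rw [ha'n]
      have : (2 * (nE a / 2)) ^ 2 = nE a ^ 2 := by ring
      rw [this]
      linarith
    rw [e1]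
    have h8 : ‖∫ z : G, F (uE B (Complex.I • rl a') * uG z) *
          F (uE B (Complex.I • rl a') * uG (y * z⁻¹)) ∂μ‖ ≤
        ‖F 1‖ ^ 2 * Real.exp (E + (C1 - r ^ 2 / 2000 * k)) := by
      have h9 := norm_integral_le_of_norm_le_const (μ := μ) (Eventually.of_forall hpt)
      simpa using h9
    refine h8.trans ?_
    rw [h.conv_one, Real.exp_add]
    have h10 := hlow hr hkb hM h hn
    have h11 := hexp k hka
    have h12 : ‖F 1‖ ^ 2 * Real.exp (C1 - r ^ 2 / 2000 * k) ≤ ∫ z, f z ^ 2 ∂μ := by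
      have hkD : 0 < k ^ D := by positivity
      have h13 : ‖F 1‖ ^ 2 * (Real.exp (C1 - r ^ 2 / 2000 * k) * k ^ D) ≤
          k ^ D * ∫ z, f z ^ 2 ∂μ :=
        (mul_le_mul_of_nonneg_left h11 (by positivity)).trans h10
      have h14 : k ^ D * (‖F 1‖ ^ 2 * Real.exp (C1 - r ^ 2 / 2000 * k)) ≤
          k ^ D * ∫ z, f z ^ 2 ∂μ := by
        calc _ = ‖F 1‖ ^ 2 * (Real.exp (C1 - r ^ 2 / 2000 * k) * k ^ D) := by ring
          _ ≤ _ := h13
      exact le_of_mul_le_mul_left h14 hkD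
    calc ‖F 1‖ ^ 2 * (Real.exp E * Real.exp (C1 - r ^ 2 / 2000 * k))
        = (‖F 1‖ ^ 2 * Real.exp (C1 - r ^ 2 / 2000 * k)) * Real.exp E := by ring
      _ ≤ _ := by gcongr

end

end Pool.Agent.N991.MK
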