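import Mathlib
import Pool.Agent.N991.MK.Tube2

/-!
# Lower bounds of the densities on the whole group
-/

open MeasureTheory Matrix Filter
open scoped Matrix.Norms.Frobenius ContDiff Topology
open Pool.Agent.H906R3.YM Pool.Agent.W793.YM Pool.Agent.TH618.YM Pool.Agent.N984.TW

namespace Pool.Agent.N991.MK

set_option linter.unusedSectionVars false

noncomputable section

variable {N n : ℕ} {G : Subgroup (UN N)}

/-- products of at most `m` elements of the ball of radius `s` -/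
def Rch (s : ℝ) (m : ℕ) : Set G := {x | ∃ l : List G, l.length ≤ m ∧ (∀ g ∈ l, nN g ≤ s) ∧ x = l.prod}

lemma Rch_mul {s : ℝ} {a b : ℕ} {x y : G} (hx : x ∈ Rch s a) (hy : y ∈ Rch s b) :
    x * y ∈ Rch s (a + b) := by
  obtain ⟨l, h1, h2, h3⟩ := hx
  obtain ⟨l', h1', h2', h3'⟩ := hy
  refine ⟨l ++ l', ?_, ?_, ?_⟩
  · rw [List.length_append]; omega
  · intro g hg
    rcases List.mem_append.1 hg with h | h
    · exact h2 g h
    · exact h2' g h
  · rw [List.prod_append, h3, h3']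

lemma Rch_split {s : ℝ} {a b : ℕ} {x : G} (hx : x ∈ Rch s (a + b)) :
    ∃ y ∈ Rch s a, ∃ z ∈ Rch s b, x = y * z := by
  obtain ⟨l, h1, h2, h3⟩ := hx
  refine ⟨(l.take a).prod, ⟨l.take a, ?_, ?_, rfl⟩, (l.drop a).prod, ⟨l.drop a, ?_, ?_, rfl⟩, ?_⟩
  · rw [List.length_take]; omega
  · exact fun g hg => h2 g (List.mem_of_mem_take hg)
  · rw [List.length_drop]; omega
  · exact fun g hg => h2 g (List.mem_of_mem_drop hg)
  · rw [h3, ← List.prod_append, List.take_append_drop]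

lemma Rch_one {s : ℝ} {g : G} (hg : nN g ≤ s) : g ∈ Rch s 1 :=
  ⟨[g], by simp, by simpa using hg, by simp⟩

lemma Rch_mono {s : ℝ} {a b : ℕ} (h : a ≤ b) : (Rch s a : Set G) ⊆ Rch s b :=
  fun _ ⟨l, h1, h2, h3⟩ => ⟨l, h1.trans h, h2, h3⟩

lemma nN_Rch {s : ℝ} (hs : 0 ≤ s) {m : ℕ} {x : G} (hx : x ∈ Rch s m) : nN x ≤ m * s := by
  obtain ⟨l, h1, h2, h3⟩ := hx
  have h : ∀ l : List G, (∀ g ∈ l, nN g ≤ s) → nN l.prod ≤ l.length * s := by
    intro l
    induction l with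
    | nil => intro _; simp [nN_one]
    | cons g l ih =>
      intro hl
      rw [List.prod_cons, List.length_cons]
      have h4 := nN_mul_le g l.prod
      have h5 := hl g List.mem_cons_self
      have h6 := ih fun g hg => hl g (List.mem_cons_of_mem _ hg)
      push_cast
      linarith
  rw [h3]
  refine (h l h2).trans ?_
  have : (l.length : ℝ) ≤ m := by exact_mod_cast h1
  gcongr

/-- lower bound relative to an upper bound -/
def LBd (f : G → ℝ) (s : ℝ) (m : ℕ) (δ : ℝ) : Prop :=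
  ∃ S : ℝ, 0 < S ∧ (∀ x, f x ≤ S) ∧ (∀ x, 0 < f x) ∧ ∀ x ∈ Rch s m, δ * S ≤ f x

lemma LBd.pow {f : G → ℝ} {s : ℝ} {m : ℕ} {δ : ℝ} (hδ : 0 < δ) (h : LBd f s m δ) (j : ℕ) :
    LBd (fun x => f x ^ j) s m (δ ^ j) := by
  obtain ⟨S, h0, h1, h2, h3⟩ := h
  refine ⟨S ^ j, by positivity, fun x => pow_le_pow_left₀ (h2 x).le (h1 x) j,
    fun x => pow_pos (h2 x) j, fun x hx => ?_⟩
  rw [← mul_pow]
  exact pow_le_pow_left₀ (by positivity) (h3 x hx) j

variable [CompactSpace G] [MeasurableSpace G] [BorelSpace G]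
  {μ : Measure G} [IsProbabilityMeasure μ] [μ.IsMulLeftInvariant] [μ.IsMulRightInvariant]
  [μ.IsInvInvariant]

/-- the support of the lower bound spreads -/
lemma LBd.conv {f : G → ℝ} {s : ℝ} {m : ℕ} {δ : ℝ} (hδ : 0 < δ) (hf : Continuous f)
    (h : LBd f s (m + 1) δ) (hpos : ∀ x, 0 < MK.conv μ f f x) :
    LBd (MK.conv μ f f) s (m + m) (δ ^ 2 * μ.real (bl s : Set G)) := by
  obtain ⟨S, h0, h1, h2, h3⟩ := h
  have hc : ∀ x, Continuous fun y => f y * f (y⁻¹ * x) := fun x =>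
    hf.mul (hf.comp (continuous_inv.mul continuous_const))
  refine ⟨S ^ 2, by positivity, fun x => ?_, hpos, fun x hx => ?_⟩
  · have h4 : ∀ y, f y * f (y⁻¹ * x) ≤ S ^ 2 := fun y => by
      rw [sq]; exact mul_le_mul (h1 _) (h1 _) (h2 _).le h0.le
    calc MK.conv μ f f x = ∫ y, f y * f (y⁻¹ * x) ∂μ := rfl
      _ ≤ ∫ _, S ^ 2 ∂μ := integral_mono (integrable_of_cont (hc x)) (integrable_const _) h4
      _ = S ^ 2 := by simp
  · obtain ⟨y, hy, z, hz, rfl⟩ := Rch_split hx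
    have e : MK.conv μ f f (y * z) = ∫ v, f (y * v) * f (v⁻¹ * z) ∂μ := by
      unfold MK.conv
      rw [← integral_mul_left_eq_self (μ := μ) (fun u => f u * f (u⁻¹ * (y * z))) y]
      refine integral_congr_ae (Eventually.of_forall fun v => ?_)
      beta_reduce
      congr 2
      group
    have hc' : Continuous fun v => f (y * v) * f (v⁻¹ * z) :=
      (hf.comp (continuous_const.mul continuous_id)).mul
        (hf.comp (continuous_inv.mul continuous_const))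
    rw [e]
    calc δ ^ 2 * μ.real (bl s : Set G) * S ^ 2
        = ∫ _v in (bl s : Set G), (δ * S) * (δ * S) ∂μ := by
          rw [setIntegral_const, smul_eq_mul]; ring
      _ ≤ ∫ v in (bl s : Set G), f (y * v) * f (v⁻¹ * z) ∂μ := by
          refine setIntegral_mono_on (integrable_const _).integrableOn
            (integrable_of_cont hc').integrableOn (bl_meas _) fun v hv => ?_
          have hv' : nN v ≤ s := hv
          refine mul_le_mul (h3 _ (Rch_mul hy (Rch_one hv'))) (h3 _ ?_) (by positivity) (h2 _).le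
          have := Rch_mul (Rch_one (s := s) (g := v⁻¹) (by rw [nN_inv]; exact hv')) hz
          rwa [add_comm] at this
      _ ≤ ∫ v, f (y * v) * f (v⁻¹ * z) ∂μ :=
          setIntegral_le_integral (integrable_of_cont hc')
            (Eventually.of_forall fun v => (mul_pos (h2 _) (h2 _)).le)

/-- one step of the recursion on densities -/
def Rst (μ : Measure G) (f : G → ℝ) (x : G) : ℝ :=
  MK.conv μ (MK.conv μ f f) (MK.conv μ f f) x ^ 4

/-- the radii of the spreading -/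
def aj : ℕ → ℕ
  | 0 => 3
  | j + 1 => 4 * aj j - 6

lemma aj_ge (j : ℕ) : 3 ≤ aj j ∧ j ≤ aj j := by
  induction j with
  | zero => simp [aj]
  | succ j ih => simp only [aj]; omega

lemma vol_pos_bl (μ : Measure G) [IsProbabilityMeasure μ] [μ.IsMulLeftInvariant] {s : ℝ}
    (hs : 0 < s) : 0 < μ.real (bl s : Set G) := by
  obtain ⟨c, hc, D, h⟩ := vol_lower μ
  have h1 := h (min s 1) (by positivity) (min_le_right _ _)
  have h2 : μ.real (bl (min s 1) : Set G) ≤ μ.real (bl s : Set G) :=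
    measureReal_mono (bl_mono (min_le_left _ _)) (measure_ne_top _ _)
  have h3 : 0 < c * min s 1 ^ D := by positivity
  linarith

lemma Rst_cont {f : G → ℝ} (hf : Continuous f) : Continuous (Rst μ f) :=
  (cont_conv (cont_conv hf hf) (cont_conv hf hf)).pow 4

/-- the recursion step spreads the lower bound -/
lemma LBd.step {f : G → ℝ} {s : ℝ} (hs : 0 < s) {j : ℕ} {δ : ℝ} (hδ : 0 < δ) (hf : Continuous f)
    (h : LBd f s (aj j) δ) :
    LBd (Rst μ f) s (aj (j + 1))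
      (((δ ^ 2 * μ.real (bl s : Set G)) ^ 2 * μ.real (bl s : Set G)) ^ 4) := by
  have hv : 0 < μ.real (bl s : Set G) := vol_pos_bl μ hs
  have hp0 : ∀ x, 0 < f x := h.choose_spec.2.2.1
  have hp1 : ∀ x, 0 < MK.conv μ f f x := conv_pos hf hf hp0 hp0
  have hc1 : Continuous (MK.conv μ f f) := cont_conv hf hf
  have hp2 : ∀ x, 0 < MK.conv μ (MK.conv μ f f) (MK.conv μ f f) x := conv_pos hc1 hc1 hp1 hp1
  have hj := (aj_ge j).1
  obtain ⟨m, hm⟩ : ∃ m, aj j = m + 1 := ⟨aj j - 1, by omega⟩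
  rw [hm] at h
  have h1 := h.conv (μ := μ) hδ hf hp1
  obtain ⟨m', hm'⟩ : ∃ m', m + m = m' + 1 := ⟨m + m - 1, by omega⟩
  rw [hm'] at h1
  have h2 := h1.conv (μ := μ) (by positivity) hc1 hp2
  have e : m' + m' = aj (j + 1) := by simp only [aj]; omega
  rw [e] at h2
  exact h2.pow (by positivity) 4

/-- a lower bound on the whole group -/
def LBw (f : G → ℝ) (δ : ℝ) : Prop :=
  ∃ S : ℝ, 0 < S ∧ (∀ x, f x ≤ S) ∧ (∀ x, 0 < f x) ∧ ∀ x, δ * S ≤ f x

lemma LBw.toLBd {f : G → ℝ} {δ : ℝ} (h : LBw f δ) (s : ℝ) (m : ℕ) : LBd f s m δ := by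
  obtain ⟨S, h0, h1, h2, h3⟩ := h
  exact ⟨S, h0, h1, h2, fun x _ => h3 x⟩

lemma LBd.toLBw {f : G → ℝ} {δ s : ℝ} {m : ℕ} (h : LBd f s m δ)
    (hg : ∀ x : G, x ∈ Rch s m) : LBw f δ := by
  obtain ⟨S, h0, h1, h2, h3⟩ := h
  exact ⟨S, h0, h1, h2, fun x => h3 x (hg x)⟩

/-- the density of the Wilson action is bounded below -/
lemma wil_LBw {β H : ℝ} (hβ : 0 ≤ β) (hH : β ≤ H) : LBw (wil G β) (Real.exp (-(2 * N * H))) := by
  refine ⟨Real.exp (β * N), Real.exp_pos _, fun x => ?_, wil_pos β, fun x => ?_⟩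
  · unfold wil
    refine Real.exp_le_exp.2 (mul_le_mul_of_nonneg_left ?_ hβ)
    have := nN_sq x
    nlinarith [sq_nonneg (nN x)]
  · unfold wil
    rw [← Real.exp_add]
    refine Real.exp_le_exp.2 ?_
    have h1 := nN_sq x
    have h2 : nN x ^ 2 ≤ 4 * N := by
      have h3 := pow_le_pow_left₀ (nN_nonneg x) (nN_le x) 2
      rw [mul_pow, Real.sq_sqrt (Nat.cast_nonneg N)] at h3
      linarith
    have h4 : (0 : ℝ) ≤ N := Nat.cast_nonneg N
    nlinarith [mul_nonneg hβ h4, mul_le_mul_of_nonneg_right hH h4]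

variable {B : Frame G n}

/-- the lower bound near the identity -/
lemma near_LBd {r k M H : ℝ} {f : G → ℝ} {F : (Mat N)ˣ → ℂ} (hr : GoodR B r) (hk : 0 ≤ k)
    (hH : k ≤ H) (hM : M * r ^ 2 ≤ k / 1000) (h : CF f F) (hn : NearS B r k M F)
    (ht : Tube B r k F) (hp : ∀ x, 0 < f x) : LBd f (r / 6) 3 (Real.exp (-H)) := by
  have hr0 := hr.pos
  have hF1 : ‖F 1‖ = f 1 := by rw [h.one, abs_of_pos (hp 1)]
  refine ⟨f 1, hp 1, fun x => ?_, hp, fun x hx => ?_⟩
  · have h1 := ht 0 x (by rw [nE_zero]; positivity)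
    rw [rl_zero', uE_zero, one_mul, h.norm_res, abs_of_pos (hp x), nE_zero, hF1] at h1
    refine h1.trans ?_
    have h2 : Real.exp (k / 2 * (1.01 * 0 ^ 2 - 0.99 * min (nN x) r ^ 2)) ≤ 1 := by
      refine Real.exp_le_one_iff.2 ?_
      have : 0 ≤ k / 2 * (0.99 * min (nN x) r ^ 2) := by positivity
      nlinarith
    calc f 1 * Real.exp (k / 2 * (1.01 * 0 ^ 2 - 0.99 * min (nN x) r ^ 2)) ≤ f 1 * 1 :=
          mul_le_mul_of_nonneg_left h2 (hp 1).le
      _ = f 1 := mul_one _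
  · have h1 : nN x ≤ r / 2 := by
      have := nN_Rch (by positivity) hx
      push_cast at this
      linarith
    obtain ⟨w, e1, e2, e3, e4, e5⟩ := hr.near0 (y := x) (by linarith)
    have h2 := hn.lower hr0 hk hM e2
    rw [e1, e3, h.norm_res, abs_of_pos (hp x), hF1] at h2
    refine le_trans ?_ h2
    rw [mul_comm]
    refine mul_le_mul_of_nonneg_left (Real.exp_le_exp.2 ?_) (hp 1).le
    have h3 : nE (reP w) ≤ r := by linarith
    have h4 : nE (reP w) ^ 2 ≤ 1 := by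
      have := hr.le
      have h5 := nE_nonneg (reP w)
      nlinarith
    nlinarith

/-- the densities obtained from a bare action by steps which satisfy the state bounds -/
inductive Chain (μ : Measure G) (B : Frame G n) (r h0 C1 : ℝ) :
    (G → ℝ) → ((Mat N)ˣ → ℂ) → ℝ → ℝ → Prop
  | base (f : G → ℝ) (F : (Mat N)ˣ → ℂ) (k M : ℝ) : h0 ≤ k → LBw f (Real.exp (-(C1 * k))) →
      Chain μ B r h0 C1 f F k M
  | step (f : G → ℝ) (F : (Mat N)ˣ → ℂ) (k M k' M' : ℝ) : Chain μ B r h0 C1 f F k M →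
      h0 ≤ k → |k' - k| ≤ C1 → CF f F → (∀ x, 0 < f x) → M * r ^ 2 ≤ k / 1000 → NearS B r k M F →
      Tube B r k F → Chain μ B r h0 C1 (Rst μ f)
        (fun u => convC μ (convC μ F F) (convC μ F F) u ^ 4) k' M'

/-- the Wilson action starts a chain -/
lemma Chain.base_wil {r h0 C1 β M : ℝ} (hβ : 0 ≤ β) (h : h0 ≤ β) (hC : 2 * (N : ℝ) ≤ C1) :
    Chain μ B r h0 C1 (wil G β) (wilC N β) β M := by
  refine Chain.base _ _ _ _ h ?_
  obtain ⟨S, h0, h1, h2, h3⟩ := wil_LBw (G := G) hβ (le_refl β)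
  refine ⟨S, h0, h1, h2, fun x => ?_⟩
  refine (mul_le_mul_of_nonneg_right (Real.exp_le_exp.2 (neg_le_neg ?_)) h0.le).trans (h3 x)
  exact mul_le_mul_of_nonneg_right hC hβ

/-- the lower bounds along a chain -/
theorem Chain.lower {r h0 C1 : ℝ} (hr : GoodR B r) (hh0 : 0 ≤ h0) (j : ℕ) :
    ∀ H : ℝ, ∃ δ : ℝ, 0 < δ ∧ ∀ {f : G → ℝ} {F : (Mat N)ˣ → ℂ} {k M : ℝ},
      Chain μ B r h0 C1 f F k M → h0 ≤ k → k ≤ H → CF f F → (∀ x, 0 < f x) →
      M * r ^ 2 ≤ k / 1000 → NearS B r k M F → Tube B r k F → LBd f (r / 6) (aj j) δ := by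
  have hr0 := hr.pos
  induction j with
  | zero =>
    intro H
    refine ⟨Real.exp (-H), Real.exp_pos _, fun {f F k M} hc hk hH h hp hM hn ht => ?_⟩
    exact near_LBd hr (hh0.trans hk) hH hM h hn ht hp
  | succ j ih =>
    intro H
    obtain ⟨δ, hδ, hb⟩ := ih (H + C1)
    have hv : 0 < μ.real (bl (r / 6) : Set G) := vol_pos_bl μ (by positivity)
    refine ⟨min (Real.exp (-(|C1| * H)))
      (((δ ^ 2 * μ.real (bl (r / 6) : Set G)) ^ 2 * μ.real (bl (r / 6) : Set G)) ^ 4),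
      by positivity, fun {f F k M} hc hk hH h hp hM hn ht => ?_⟩
    have hmono : ∀ {δ' : ℝ}, min (Real.exp (-(|C1| * H)))
      (((δ ^ 2 * μ.real (bl (r / 6) : Set G)) ^ 2 * μ.real (bl (r / 6) : Set G)) ^ 4) ≤ δ' →
      LBd f (r / 6) (aj (j + 1)) δ' → LBd f (r / 6) (aj (j + 1)) (min (Real.exp (-(|C1| * H)))
      (((δ ^ 2 * μ.real (bl (r / 6) : Set G)) ^ 2 * μ.real (bl (r / 6) : Set G)) ^ 4)) := by
      rintro δ' hδ' ⟨S, a0, a1, a2, a3⟩
      exact ⟨S, a0, a1, a2, fun x hx => (mul_le_mul_of_nonneg_right hδ' a0.le).trans (a3 x hx)⟩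
    cases hc with
    | base f F k M hβ hlb =>
      have h1 : Real.exp (-(|C1| * H)) ≤ Real.exp (-(C1 * k)) := by
        refine Real.exp_le_exp.2 (neg_le_neg ?_)
        exact (mul_le_mul_of_nonneg_right (le_abs_self C1) (hh0.trans hk)).trans
          (mul_le_mul_of_nonneg_left hH (abs_nonneg _))
      exact hmono ((min_le_left _ _).trans h1) (hlb.toLBd _ _)
    | step f F k₁ M₁ k' M' hc hk1 hkk h1 hp1 hM1 hn1 ht1 =>
      refine hmono (min_le_right _ _) ?_
      rw [abs_le] at hkk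
      exact (hb hc hk1 (by linarith) h1 hp1 hM1 hn1 ht1).step (by positivity) hδ h1.cont

lemma bl_nhds {s : ℝ} (hs : 0 < s) : (bl s : Set G) ∈ 𝓝 (1 : G) := by
  have h1 : ∀ᶠ g : G in 𝓝 1, nN g < s := by
    have h2 := (nN_cont (G := G)).tendsto 1
    rw [nN_one] at h2
    exact h2.eventually (gt_mem_nhds hs)
  exact h1.mono fun g hg => hg.le

lemma bl_closure [ConnectedSpace G] {s : ℝ} (hs : 0 < s) :
    Subgroup.closure (bl s : Set G) = ⊤ := by
  have ho : IsOpen (Subgroup.closure (bl s : Set G) : Set G) :=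
    Subgroup.isOpen_of_mem_nhds _ (mem_of_superset (bl_nhds hs) Subgroup.subset_closure)
  have hcl : IsClosed (Subgroup.closure (bl s : Set G) : Set G) :=
    Subgroup.isClosed_of_isOpen _ ho
  have h1 : (Subgroup.closure (bl s : Set G) : Set G) = Set.univ :=
    IsClopen.eq_univ ⟨hcl, ho⟩ ⟨1, Subgroup.one_mem _⟩
  exact SetLike.coe_injective (by rw [h1, Subgroup.coe_top])

lemma Rch_inv {s : ℝ} {m : ℕ} {x : G} (hx : x ∈ Rch s m) : x⁻¹ ∈ Rch s m := by
  obtain ⟨l1, a1, a2, a3⟩ := hx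
  refine ⟨(l1.map fun g => g⁻¹).reverse, ?_, ?_, ?_⟩
  · rw [List.length_reverse, List.length_map]; exact a1
  · intro g hg
    rw [List.mem_reverse, List.mem_map] at hg
    obtain ⟨Z, hZ, rfl⟩ := hg
    rw [nN_inv]
    exact a2 Z hZ
  · rw [a3, List.prod_inv_reverse]

lemma Rch_all [ConnectedSpace G] {s : ℝ} (hs : 0 < s) (x : G) : ∃ m, x ∈ Rch s m := by
  have hx : x ∈ Subgroup.closure (bl s : Set G) := by
    rw [bl_closure hs]; exact Subgroup.mem_top x
  induction hx using Subgroup.closure_induction with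
  | mem y hy => exact ⟨1, Rch_one hy⟩
  | one => exact ⟨0, [], le_rfl, fun g hg => absurd hg List.not_mem_nil, rfl⟩
  | mul y z _ _ hy hz =>
    obtain ⟨m1, h1⟩ := hy
    obtain ⟨m2, h2⟩ := hz
    exact ⟨m1 + m2, Rch_mul h1 h2⟩
  | inv y _ hy =>
    obtain ⟨m1, h1⟩ := hy
    exact ⟨m1, Rch_inv h1⟩

lemma Rch_int [ConnectedSpace G] {s : ℝ} (hs : 0 < s) (x : G) : ∃ m, x ∈ interior (Rch s m) := by
  obtain ⟨m, hm⟩ := Rch_all hs x
  refine ⟨m + 1, ?_⟩
  rw [mem_interior_iff_mem_nhds]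
  have h1 : ∀ᶠ y in 𝓝 x, x⁻¹ * y ∈ (bl s : Set G) := by
    have h2 : Tendsto (fun y : G => x⁻¹ * y) (𝓝 x) (𝓝 (x⁻¹ * x)) :=
      (continuous_const.mul continuous_id).tendsto x
    rw [inv_mul_cancel] at h2
    exact h2.eventually (bl_nhds hs)
  refine h1.mono fun y hy => ?_
  have h2 := Rch_mul hm (Rch_one (s := s) hy)
  rwa [mul_inv_cancel_left] at h2

/-- a connected compact group is reached by finitely many small steps -/
theorem exists_rch [ConnectedSpace G] {s : ℝ} (hs : 0 < s) : ∃ m : ℕ, ∀ x : G, x ∈ Rch s m := by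
  obtain ⟨m, hm⟩ := (isCompact_univ (X := G)).elim_directed_cover
    (fun m => interior (Rch s m : Set G))
    (fun m => isOpen_interior) (fun x _ => Set.mem_iUnion.2 (Rch_int hs x))
    (monotone_nat_of_le_succ fun k => interior_mono (Rch_mono (Nat.le_succ k))).directed_le
  exact ⟨m, fun x => interior_subset (hm (Set.mem_univ x))⟩

/-- **the lower bound on the whole group along a chain** -/
theorem Chain.lower_whole [ConnectedSpace G] {r h0 C1 : ℝ} (hr : GoodR B r) (hh0 : 0 ≤ h0)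
    (H : ℝ) : ∃ δ : ℝ, 0 < δ ∧ δ ≤ 1 ∧ ∀ {f : G → ℝ} {F : (Mat N)ˣ → ℂ} {k M : ℝ},
      Chain μ B r h0 C1 f F k M → h0 ≤ k → k ≤ H → CF f F → (∀ x, 0 < f x) →
      M * r ^ 2 ≤ k / 1000 → NearS B r k M F → Tube B r k F → ∀ x, δ * f 1 ≤ f x := by
  have hr0 := hr.pos
  obtain ⟨j, hj⟩ := exists_rch (G := G) (s := r / 6) (by positivity)
  obtain ⟨δ, hδ, hb⟩ := Chain.lower (μ := μ) (C1 := C1) hr hh0 j H
  refine ⟨min δ 1, by positivity, min_le_right _ _,
    fun {f F k M} hc hk hH h hp hM hn ht x => ?_⟩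
  obtain ⟨S, a0, a1, a2, a3⟩ := hb hc hk hH h hp hM hn ht
  have h1 := a3 x (Rch_mono (aj_ge j).2 (hj x))
  calc min δ 1 * f 1 ≤ δ * S := mul_le_mul (min_le_left _ _) (a1 1) (a2 1).le hδ.le
    _ ≤ f x := h1

end

end Pool.Agent.N991.MK
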