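import Mathlib
import Pool.Agent.N991.MK.Tube3

/-!
# The tube bound for the Wilson action and for powers
-/

open MeasureTheory Matrix Filter
open scoped Matrix.Norms.Frobenius ContDiff Topology
open Pool.Agent.H906R3.YM Pool.Agent.W793.YM Pool.Agent.TH618.YM Pool.Agent.N984.TW

namespace Pool.Agent.N991.MK

set_option linter.unusedSectionVars false

noncomputable section

variable {N n : ℕ} {G : Subgroup (UN N)} (B : Frame G n) (hG : IsClosed (G : Set (UN N)))

variable {B} in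
lemma Tube.sq {r k : ℝ} {F : (Mat N)ˣ → ℂ} (h : Tube B r k F) :
    Tube B r (2 * k) (fun u => F u ^ 2) := by
  intro a y ha
  have h1 := h a y ha
  simp only [norm_pow]
  calc ‖F (uE B (Complex.I • rl a) * uG y)‖ ^ 2
      ≤ (‖F 1‖ * Real.exp (k / 2 * (1.01 * nE a ^ 2 - 0.99 * min (nN y) r ^ 2))) ^ 2 :=
        pow_le_pow_left₀ (norm_nonneg _) h1 2
    _ = _ := by
        rw [mul_pow, ← Real.exp_nat_mul]
        congr 2
        push_cast
        ring

variable {B} in
lemma NearS.sq {r k M : ℝ} {F : (Mat N)ˣ → ℂ} (h : NearS B r k M F) :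
    NearS B r (2 * k) (2 * M) (fun u => F u ^ 2) := by
  intro x hx
  obtain ⟨m, h1, h2⟩ := h x hx
  refine ⟨2 * m, ?_, ?_⟩
  · beta_reduce
    rw [h1, mul_pow, ← Complex.exp_nat_mul]
    congr 2
    push_cast
    ring
  · rw [norm_mul, Complex.norm_ofNat]
    linarith

lemma exp_small : ∀ᶠ M in 𝓝 (0 : Mat N), ‖NormedSpace.exp M - 1 - M‖ ≤ 0.001 * ‖M‖ := by
  have h := (exp_fderivC (N := N)).isLittleO
  have h1 := h.def (by norm_num : (0 : ℝ) < 0.001)
  filter_upwards [h1] with M hM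
  rw [NormedSpace.exp_zero, sub_zero] at hM
  exact hM

lemma LX_skew (a : Fin n → ℝ) : (LX B a)ᴴ = -LX B a := by
  unfold LX
  rw [conjTranspose_sum, ← Finset.sum_neg_distrib]
  refine Finset.sum_congr rfl fun i _ => ?_
  rw [conjTranspose_smul, B.skewX i, smul_neg]
  simp

lemma LC_I (a : Fin n → ℝ) : LC B (Complex.I • rl a) = Complex.I • LX B a := by
  rw [LC_smul, LC_rl]

lemma EC_I_herm (a : Fin n → ℝ) : (EC B (Complex.I • rl a))ᴴ = EC B (Complex.I • rl a) := by
  unfold EC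
  rw [← Matrix.exp_conjTranspose, LC_I, conjTranspose_smul, LX_skew, smul_neg, ← neg_smul]
  congr 2
  simp

lemma EC_nI_herm (a : Fin n → ℝ) : (EC B (-(Complex.I • rl a)))ᴴ = EC B (-(Complex.I • rl a)) := by
  have h : -(Complex.I • rl a) = Complex.I • rl (-a) := by
    funext i; simp [rl]
  rw [h]
  exact EC_I_herm B (-a)

/-- **the tube bound for the Wilson action** -/
theorem tube_wil : ∃ r0 : ℝ, 0 < r0 ∧ ∀ r : ℝ, 0 < r → r ≤ r0 → ∀ β : ℝ, 0 ≤ β →
    Tube B r β (wilC N β) := by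
  obtain ⟨ε, hε, hb⟩ := Metric.eventually_nhds_iff.1 (exp_small (N := N))
  refine ⟨ε, hε, fun r hr hrε β hβ a y ha => ?_⟩
  have ha0 := nE_nonneg a
  set a' : Fin n → ℝ := (1 / 2 : ℝ) • a with ha'
  have ha'n : nE a' = nE a / 2 := by
    rw [ha', nE_smul, abs_of_pos (by norm_num : (0 : ℝ) < 1 / 2)]; ring
  obtain ⟨H, hH⟩ : ∃ H : Mat N, H = EC B (Complex.I • rl a') := ⟨_, rfl⟩
  obtain ⟨H', hH'⟩ : ∃ H' : Mat N, H' = EC B (-(Complex.I • rl a')) := ⟨_, rfl⟩
  obtain ⟨S, hS⟩ : ∃ S : Mat N, S = H - H' := ⟨_, rfl⟩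
  have hHH : EC B (Complex.I • rl a) = H * H := by
    have := congrArg (Units.val) (uE_half (B := B) a)
    rw [Units.val_mul, uE_val, uE_val] at this
    rw [this, hH]
  have hHH' : EC B (-(Complex.I • rl a)) = H' * H' := by
    have := congrArg (fun u : (Mat N)ˣ => ((u⁻¹ : (Mat N)ˣ) : Mat N)) (uE_half (B := B) a)
    simp only [_root_.mul_inv_rev] at this
    rw [Units.val_mul, uE_inv_val, uE_inv_val] at this
    rw [this, hH']
  have h12 : H * H' = 1 := by rw [hH, hH']; exact EC_mul_neg B _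
  have h21 : H' * H = 1 := by rw [hH, hH']; exact EC_neg_mul B _
  have hSS : H * H + H' * H' = S * S + 1 + 1 := by
    rw [hS, sub_mul, mul_sub, mul_sub, h12, h21]; abel
  have hSh : Sᴴ = S := by
    rw [hS, conjTranspose_sub, hH, hH', EC_I_herm, EC_nI_herm]
  -- norm of S
  have hSn : ‖S‖ ≤ 1.001 * nE a := by
    have hM1 : ‖LC B (Complex.I • rl a')‖ = nE a / 2 := by
      rw [norm_LC, nC_smul, Complex.norm_I, one_mul, nC_rl, ha'n]
    have hM2 : ‖LC B (-(Complex.I • rl a'))‖ = nE a / 2 := by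
      rw [norm_LC, nC_neg, nC_smul, Complex.norm_I, one_mul, nC_rl, ha'n]
    have h1 := hb (y := LC B (Complex.I • rl a')) (by rw [dist_zero_right, hM1]; linarith)
    have h2 := hb (y := LC B (-(Complex.I • rl a'))) (by rw [dist_zero_right, hM2]; linarith)
    rw [hM1] at h1
    rw [hM2] at h2
    have e : S = (NormedSpace.exp (LC B (Complex.I • rl a')) - 1 - LC B (Complex.I • rl a')) -
        (NormedSpace.exp (LC B (-(Complex.I • rl a'))) - 1 - LC B (-(Complex.I • rl a'))) +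
        (LC B (Complex.I • rl a') - LC B (-(Complex.I • rl a'))) := by
      rw [hS, hH, hH']
      unfold EC
      abel
    rw [e]
    refine (norm_add_le _ _).trans ?_
    have h3 := norm_sub_le
      (NormedSpace.exp (LC B (Complex.I • rl a')) - 1 - LC B (Complex.I • rl a'))
      (NormedSpace.exp (LC B (-(Complex.I • rl a'))) - 1 - LC B (-(Complex.I • rl a')))
    have h4 := norm_sub_le (LC B (Complex.I • rl a')) (LC B (-(Complex.I • rl a')))
    rw [hM1, hM2] at h4
    linarith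
  have hSn2 : ‖S‖ ^ 2 ≤ 1.01 * nE a ^ 2 := by
    have := pow_le_pow_left₀ (norm_nonneg S) hSn 2
    nlinarith
  -- the trace
  have htr : (trace (EC B (Complex.I • rl a) * mt y)).re +
      (trace ((mt y)ᴴ * EC B (-(Complex.I • rl a)))).re ≤ 2 * N - nN y ^ 2 + ‖S‖ ^ 2 := by
    have h1 : (trace ((mt y)ᴴ * EC B (-(Complex.I • rl a)))).re =
        (trace (EC B (-(Complex.I • rl a)) * mt y)).re := by
      have h2 : ((mt y)ᴴ * EC B (-(Complex.I • rl a)))ᴴ = EC B (-(Complex.I • rl a)) * mt y := by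
        rw [conjTranspose_mul, conjTranspose_conjTranspose, EC_nI_herm]
      rw [← h2, trace_conjTranspose, Complex.star_def, Complex.conj_re]
    rw [h1, ← Complex.add_re, ← trace_add, ← add_mul, hHH, hHH', hSS, add_mul, add_mul, one_mul,
      trace_add, trace_add, Complex.add_re, Complex.add_re]
    have h3 : (trace (S * S * mt y)).re ≤ ‖S‖ ^ 2 := by
      have h4 : (trace (S * S * mt y)).re = ip S (S * mt y) := by
        rw [ip_apply, hSh, mul_assoc]
      rw [h4]
      refine (le_abs_self _).trans ((abs_ip_le _ _).trans ?_)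
      rw [norm_mul_unit, sq]
    have h5 := nN_sq y
    linarith
  have hnorm : ‖wilC N β (uE B (Complex.I • rl a) * uG y)‖ =
      Real.exp (β / 2 * ((trace (EC B (Complex.I • rl a) * mt y)).re +
      (trace ((mt y)ᴴ * EC B (-(Complex.I • rl a)))).re)) := by
    unfold wilC
    rw [Complex.norm_exp]
    congr 1
    have e1 : ((uE B (Complex.I • rl a) * uG y : (Mat N)ˣ) : Mat N) =
      EC B (Complex.I • rl a) * mt y := rfl
    have e2 : (((uE B (Complex.I • rl a) * uG y)⁻¹ : (Mat N)ˣ) : Mat N) =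
      (mt y)ᴴ * EC B (-(Complex.I • rl a)) := by
      rw [_root_.mul_inv_rev]; rfl
    rw [e1, e2]
    have e3 : (β / 2 : ℂ) = ((β / 2 : ℝ) : ℂ) := by push_cast; rfl
    rw [e3, Complex.re_ofReal_mul, Complex.add_re]
  have hone : ‖wilC N β 1‖ = Real.exp (β * N) := by
    unfold wilC
    rw [Complex.norm_exp]
    congr 1
    simp
    ring
  rw [hnorm, hone, ← Real.exp_add]
  refine Real.exp_le_exp.2 ?_
  have hmin : min (nN y) r ^ 2 ≤ nN y ^ 2 :=
    pow_le_pow_left₀ (le_min (nN_nonneg y) hr.le) (min_le_left _ _) 2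
  have h1 := mul_le_mul_of_nonneg_left htr (by positivity : 0 ≤ β / 2)
  have h2 : β / 2 * (2 * N - nN y ^ 2 + ‖S‖ ^ 2) ≤
      β * N + β / 2 * (1.01 * nE a ^ 2 - 0.99 * min (nN y) r ^ 2) := by
    have h3 : β / 2 * (‖S‖ ^ 2 - nN y ^ 2) ≤
        β / 2 * (1.01 * nE a ^ 2 - 0.99 * min (nN y) r ^ 2) := by
      refine mul_le_mul_of_nonneg_left ?_ (by positivity)
      nlinarith [sq_nonneg (min (nN y) r)]
    linarith
  exact h1.trans h2

end

end Pool.Agent.N991.MK
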