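import Mathlib
import Pool.Agent.N988.MK.Quad
import Pool.Agent.N991.MK.Low

/-!
# Isotropy of invariant quadratic forms for simple groups
-/

open MeasureTheory Matrix Filter
open scoped Matrix.Norms.Frobenius ContDiff Topology
open Pool.Agent.H906R3.YM Pool.Agent.W793.YM Pool.Agent.TH618.YM Pool.Agent.N984.TW
open Pool.Agent.N988.MK

namespace Pool.Agent.N991.MK

set_option linter.unusedSectionVars false

noncomputable section

variable {N n : ℕ} {G : Subgroup (UN N)} (B : Frame G n) (hG : IsClosed (G : Set (UN N)))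

/-- `LX` as a linear map -/
def LXm : (Fin n → ℝ) →ₗ[ℝ] Mat N where
  toFun := LX B
  map_add' := LX_add B
  map_smul' := LX_smul B

lemma LXm_apply (x : Fin n → ℝ) : LXm B x = LX B x := rfl

lemma LX_inj {x y : Fin n → ℝ} (h : LX B x = LX B y) : x = y := by
  rw [← pc_LX B x, h, pc_LX]

lemma ip_LX (x y : Fin n → ℝ) : ip (LX B x) (LX B y) = x ⬝ᵥ y := by
  have h1 : ∀ a, ip (LX B x) (B.X a) = x a := by
    intro a
    rw [ip_comm]
    exact congrFun (pc_LX B x) a
  have h2 : ip (LX B x) (LX B y) = ∑ a, y a * ip (LX B x) (B.X a) := by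
    conv_lhs => rw [show LX B y = ∑ a, y a • B.X a from rfl]
    rw [map_sum]
    simp only [map_smul, smul_eq_mul]
  rw [h2]
  unfold dotProduct
  refine Finset.sum_congr rfl fun a _ => ?_
  rw [h1, mul_comm]

lemma mt_mul_inv (g : G) : mt g * mt g⁻¹ = 1 := by rw [← mt_mul, mul_inv_cancel, mt_one]

lemma mt_inv_mul (g : G) : mt g⁻¹ * mt g = 1 := by rw [← mt_mul, inv_mul_cancel, mt_one]

lemma ip_conj (g : G) (A A' : Mat N) : ip (mt g * A * mt g⁻¹) (mt g * A' * mt g⁻¹) = ip A A' := by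
  rw [ip_apply, ip_apply, conjTranspose_mul, conjTranspose_mul, mt_inv_star,
    conjTranspose_conjTranspose]
  have h1 : mt g * (Aᴴ * (mt g)ᴴ) * (mt g * A' * (mt g)ᴴ) = mt g * (Aᴴ * A') * (mt g)ᴴ := by
    have h2 : (mt g)ᴴ * mt g = 1 := rhoG_unit' g
    calc _ = mt g * (Aᴴ * ((mt g)ᴴ * mt g) * A') * (mt g)ᴴ := by noncomm_ring
      _ = _ := by rw [h2, mul_one]
  rw [h1, trace_mul_comm, ← mul_assoc, show (mt g)ᴴ * mt g = 1 from rhoG_unit' g, one_mul]

include hG in
lemma dot_Ad (g : G) (x y : Fin n → ℝ) : Adx B g x ⬝ᵥ Adx B g y = x ⬝ᵥ y := by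
  rw [← ip_LX B, ← ip_LX B, LX_Ad B hG, LX_Ad B hG, ip_conj]

include hG in
lemma Ad_Ad_inv (g : G) (x : Fin n → ℝ) : Adx B g (Adx B g⁻¹ x) = x := by
  apply LX_inj B
  rw [LX_Ad B hG, LX_Ad B hG, inv_inv]
  calc mt g * (mt g⁻¹ * LX B x * mt g) * mt g⁻¹ = (mt g * mt g⁻¹) * LX B x * (mt g * mt g⁻¹) := by
        noncomm_ring
    _ = _ := by rw [mt_mul_inv, one_mul, mul_one]

lemma Ad_add (g : G) (x y : Fin n → ℝ) : Adx B g (x + y) = Adx B g x + Adx B g y := by
  unfold Adx
  rw [LX_add, mul_add, add_mul, pc_add]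

lemma Ad_smul (g : G) (c : ℝ) (x : Fin n → ℝ) : Adx B g (c • x) = c • Adx B g x := by
  unfold Adx
  rw [LX_smul, mul_smul_comm, smul_mul_assoc]
  funext a
  simp [pc]

/-- the bracket of two elements in coordinates -/
def Brk (w v : Fin n → ℝ) : Fin n → ℝ := pc B (LX B w * LX B v - LX B v * LX B w)

lemma hasDerivAt_conj (w v : Fin n → ℝ) : HasDerivAt (fun t : ℝ =>
    EM B (t • w) * LX B v * EM B (t • (-w))) (LX B w * LX B v - LX B v * LX B w) 0 := by
  have h1 := hasDerivAt_EMs B w 0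
  have h2 := hasDerivAt_EMs B (-w) 0
  rw [zero_smul, EM_zero, mul_one] at h1 h2
  have h3 := (h1.mul_const (LX B v)).mul h2
  rw [zero_smul, zero_smul, EM_zero, mul_one, one_mul, LX_neg, mul_neg, ← sub_eq_add_neg] at h3
  exact h3

include hG in
/-- invariant subspaces are stable under brackets -/
lemma Brk_mem {V : Submodule ℝ (Fin n → ℝ)} (hV : ∀ (g : G), ∀ v ∈ V, Adx B g v ∈ V)
    (w : Fin n → ℝ) {v : Fin n → ℝ} (hv : v ∈ V) :
    LX B w * LX B v - LX B v * LX B w ∈ V.map (LXm B) := by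
  refine deriv_mem (fun t => ?_) (hasDerivAt_conj B w v)
  refine ⟨Adx B (Eg B hG (t • w)) v, hV _ v hv, ?_⟩
  rw [LXm_apply, LX_Ad B hG, mt_Eg, ← Eg_neg, mt_Eg, smul_neg]

include hG in
lemma Brk_mem' {V : Submodule ℝ (Fin n → ℝ)} (hV : ∀ (g : G), ∀ v ∈ V, Adx B g v ∈ V)
    (w : Fin n → ℝ) {v : Fin n → ℝ} (hv : v ∈ V) : Brk B w v ∈ V := by
  obtain ⟨u, hu, h⟩ := Brk_mem B hG hV w hv
  unfold Brk
  rw [← h, LXm_apply, pc_LX]
  exact hu

include hG in
lemma LX_Brk (w v : Fin n → ℝ) : LX B (Brk B w v) = LX B w * LX B v - LX B v * LX B w := by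
  obtain ⟨u, -, h⟩ := Brk_mem B hG (V := ⊤) (fun _ _ _ => Submodule.mem_top) w
    (v := v) Submodule.mem_top
  unfold Brk
  rw [← h, LXm_apply, pc_LX]

/-- the orthogonal complement -/
def orthc (V : Submodule ℝ (Fin n → ℝ)) : Submodule ℝ (Fin n → ℝ) where
  carrier := {w | ∀ v ∈ V, w ⬝ᵥ v = 0}
  zero_mem' := fun v _ => zero_dotProduct v
  add_mem' := fun {a b} ha hb v hv => by rw [add_dotProduct, ha v hv, hb v hv, add_zero]
  smul_mem' := fun c a ha v hv => by rw [smul_dotProduct, ha v hv, smul_zero]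

include hG in
lemma orthc_Ad {V : Submodule ℝ (Fin n → ℝ)} (hV : ∀ (g : G), ∀ v ∈ V, Adx B g v ∈ V) (g : G)
    (w : Fin n → ℝ) (hw : w ∈ orthc V) : Adx B g w ∈ orthc V := by
  intro v hv
  rw [← Ad_Ad_inv B hG g v, dot_Ad B hG]
  exact hw _ (hV _ _ hv)

include hG in
lemma comm_orth {V : Submodule ℝ (Fin n → ℝ)} (hV : ∀ (g : G), ∀ v ∈ V, Adx B g v ∈ V)
    {v w : Fin n → ℝ} (hv : v ∈ V) (hw : w ∈ orthc V) : LX B w * LX B v = LX B v * LX B w := by
  have h1 : Brk B w v ∈ V := Brk_mem' B hG hV w hv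
  have h2 : Brk B v w ∈ orthc V := Brk_mem' B hG (orthc_Ad B hG hV) v hw
  have h3 : Brk B v w = -Brk B w v := by
    unfold Brk
    have : LX B v * LX B w - LX B w * LX B v = -(LX B w * LX B v - LX B v * LX B w) := by abel
    rw [this]
    funext a
    simp [pc]
  rw [h3] at h2
  have h4 := h2 _ h1
  rw [neg_dotProduct, neg_eq_zero] at h4
  have h5 : Brk B w v = 0 := dotProduct_self_eq_zero.1 h4
  have h6 := LX_Brk B hG w v
  rw [h5, LX_zero] at h6
  exact (sub_eq_zero.1 h6.symm)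

include hG in
/-- a subgroup which contains a one parameter group is infinite -/
lemma infinite_of_exp {H : Subgroup G} {w : Fin n → ℝ} (hw : w ≠ 0)
    (h : ∀ t : ℝ, Eg B hG (t • w) ∈ H) : ¬ Finite H := by
  intro hfin
  obtain ⟨ε, hε, hb⟩ := Metric.eventually_nhds_iff.1 (lgM_EM B)
  have hw0 : 0 < ‖w‖ := norm_pos_iff.2 hw
  have hsmall : ∀ k : ℕ, ‖((ε / (2 * ‖w‖)) * (1 / ((k : ℝ) + 1))) • w‖ < ε := by
    intro k
    rw [norm_smul, Real.norm_eq_abs, abs_of_pos (by positivity)]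
    have h1 : (1 : ℝ) / (k + 1) ≤ 1 := by
      rw [div_le_one (by positivity)]
      have : (0 : ℝ) ≤ k := Nat.cast_nonneg k
      linarith
    calc ε / (2 * ‖w‖) * (1 / ((k : ℝ) + 1)) * ‖w‖ ≤ ε / (2 * ‖w‖) * 1 * ‖w‖ := by gcongr
      _ = ε / 2 := by field_simp
      _ < ε := by linarith
  have hinj : Function.Injective (fun k : ℕ =>
      (⟨Eg B hG (((ε / (2 * ‖w‖)) * (1 / ((k : ℝ) + 1))) • w), h _⟩ : H)) := by
    intro k l hkl
    have h1 : Eg B hG (((ε / (2 * ‖w‖)) * (1 / ((k : ℝ) + 1))) • w) =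
        Eg B hG (((ε / (2 * ‖w‖)) * (1 / ((l : ℝ) + 1))) • w) := congrArg Subtype.val hkl
    have h2 := congrArg (H906R3.YM.mt (G := G)) h1
    rw [mt_Eg, mt_Eg] at h2
    have h3 := hb (y := ((ε / (2 * ‖w‖)) * (1 / ((k : ℝ) + 1))) • w)
      (by rw [dist_zero_right]; exact hsmall k)
    have h4 := hb (y := ((ε / (2 * ‖w‖)) * (1 / ((l : ℝ) + 1))) • w)
      (by rw [dist_zero_right]; exact hsmall l)
    rw [h2, h4] at h3
    have h5 := smul_left_injective ℝ hw h3
    have h6 : (1 : ℝ) / ((l : ℝ) + 1) = 1 / ((k : ℝ) + 1) :=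
      mul_left_cancel₀ (by positivity : ε / (2 * ‖w‖) ≠ 0) h5
    rw [one_div, one_div, _root_.inv_inj] at h6
    have h7 : (l : ℝ) = k := by linarith
    exact_mod_cast h7.symm
  exact not_injective_infinite_finite _ hinj

/-- the centraliser of a subspace -/
def Cen (V : Submodule ℝ (Fin n → ℝ)) : Subgroup G where
  carrier := {g | ∀ v ∈ V, mt g * LX B v = LX B v * mt g}
  one_mem' := fun v _ => by rw [mt_one, one_mul, mul_one]
  mul_mem' := fun {a b} ha hb v hv => by
    rw [mt_mul, mul_assoc, hb v hv, ← mul_assoc, ha v hv, mul_assoc]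
  inv_mem' := fun {a} ha v hv => by
    have h := ha v hv
    calc mt a⁻¹ * LX B v = mt a⁻¹ * LX B v * (mt a * mt a⁻¹) := by rw [mt_mul_inv, mul_one]
      _ = mt a⁻¹ * (LX B v * mt a) * mt a⁻¹ := by noncomm_ring
      _ = mt a⁻¹ * mt a * LX B v * mt a⁻¹ := by rw [← h]; noncomm_ring
      _ = _ := by rw [mt_inv_mul, one_mul]

lemma mem_Cen {V : Submodule ℝ (Fin n → ℝ)} {g : G} :
    g ∈ Cen B V ↔ ∀ v ∈ V, mt g * LX B v = LX B v * mt g := Iff.rfl

include hG in
lemma Cen_normal {V : Submodule ℝ (Fin n → ℝ)} (hV : ∀ (g : G), ∀ v ∈ V, Adx B g v ∈ V) :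
    (Cen (G := G) B V).Normal := by
  refine ⟨fun g hg h => ?_⟩
  rw [mem_Cen] at hg ⊢
  intro v hv
  have h1 := hg _ (hV h⁻¹ v hv)
  rw [LX_Ad B hG, inv_inv] at h1
  rw [mt_mul, mt_mul]
  calc mt h * mt g * mt h⁻¹ * LX B v
      = mt h * (mt g * (mt h⁻¹ * LX B v * mt h)) * mt h⁻¹ := by
        have : mt h * (mt g * (mt h⁻¹ * LX B v * mt h)) * mt h⁻¹ =
          mt h * mt g * mt h⁻¹ * LX B v * (mt h * mt h⁻¹) := by noncomm_ring
        rw [this, mt_mul_inv, mul_one]
    _ = mt h * ((mt h⁻¹ * LX B v * mt h) * mt g) * mt h⁻¹ := by rw [h1]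
    _ = (mt h * mt h⁻¹) * LX B v * (mt h * mt g * mt h⁻¹) := by noncomm_ring
    _ = _ := by rw [mt_mul_inv, one_mul]

lemma Cen_closed (V : Submodule ℝ (Fin n → ℝ)) : IsClosed (Cen (G := G) B V : Set G) := by
  have h : (Cen (G := G) B V : Set G) = ⋂ v ∈ V, {g | mt g * LX B v = LX B v * mt g} := by
    ext g
    simp only [Set.mem_iInter]
    exact Iff.rfl
  rw [h]
  refine isClosed_biInter fun v _ => ?_
  exact isClosed_eq (mt_cont.mul continuous_const) (continuous_const.mul mt_cont)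

lemma center_closed : IsClosed (Subgroup.center G : Set G) := by
  have h : (Subgroup.center G : Set G) = ⋂ g : G, {x | g * x = x * g} := by
    ext x
    simp only [Set.mem_iInter, SetLike.mem_coe, Subgroup.mem_center_iff]
    exact Iff.rfl
  rw [h]
  refine isClosed_iInter fun g => ?_
  exact isClosed_eq (continuous_const.mul continuous_id) (continuous_id.mul continuous_const)

/-- a subspace without orthogonal vectors is everything -/
lemma top_of_orthc {V : Submodule ℝ (Fin n → ℝ)} (h : ∀ w ∈ orthc V, w = 0) : V = ⊤ := by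
  by_contra hne
  obtain ⟨f, hf, hV⟩ := Submodule.exists_le_ker_of_lt_top V (lt_top_iff_ne_top.2 hne)
  set w : Fin n → ℝ := fun a => f (Pi.single a 1) with hw
  have hfw : ∀ v, f v = w ⬝ᵥ v := by
    intro v
    have h1 : v = ∑ a, v a • (Pi.single a (1 : ℝ) : Fin n → ℝ) := by
      funext b
      simp [Finset.sum_apply, Pi.single_apply]
    conv_lhs => rw [h1]
    rw [map_sum]
    unfold dotProduct
    refine Finset.sum_congr rfl fun a _ => ?_
    rw [map_smul, smul_eq_mul, mul_comm]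
  have hw0 : w = 0 := h w fun v hv => by
    rw [← hfw]
    exact hV hv
  refine hf (LinearMap.ext fun v => ?_)
  rw [hfw, hw0, zero_dotProduct]
  rfl

include hG in
/-- the adjoint representation of a simple group is irreducible -/
theorem irr_of_simple (hnc : ∃ g h : G, g * h ≠ h * g)
    (hs : ∀ H : Subgroup G, H.Normal → IsClosed (H : Set G) → Finite H ∨ H = ⊤)
    {V : Submodule ℝ (Fin n → ℝ)} (hV : ∀ (g : G), ∀ v ∈ V, Adx B g v ∈ V)
    {v₀ : Fin n → ℝ} (hv₀ : v₀ ∈ V) (hv : v₀ ≠ 0) : V = ⊤ := by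
  rcases hs (Cen B V) (Cen_normal B hG hV) (Cen_closed B V) with hfin | htop
  · refine top_of_orthc fun w hw => ?_
    by_contra hw0
    refine infinite_of_exp B hG (H := Cen B V) hw0 (fun t => ?_) hfin
    rw [mem_Cen]
    intro v hv
    rw [mt_Eg]
    have h1 : Commute (LX B (t • w)) (LX B v) := by
      show _ = _
      rw [LX_smul, smul_mul_assoc, mul_smul_comm, comm_orth B hG hV hv hw]
    exact (Commute.exp_left h1).eq
  · exfalso
    have hc : ∀ t : ℝ, Eg B hG (t • v₀) ∈ Subgroup.center G := by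
      intro t
      rw [Subgroup.mem_center_iff]
      intro g
      apply mt_inj
      rw [mt_mul, mt_mul, mt_Eg]
      have h1 : mt g * LX B v₀ = LX B v₀ * mt g := by
        have : g ∈ Cen B V := by rw [htop]; exact Subgroup.mem_top g
        exact this v₀ hv₀
      have h2 : Commute (mt g) (LX B (t • v₀)) := by
        show _ = _
        rw [LX_smul, smul_mul_assoc, mul_smul_comm, h1]
      exact (Commute.exp_right h2).eq
    rcases hs (Subgroup.center G) inferInstance center_closed with hf | ht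
    · exact infinite_of_exp B hG hv hc hf
    · obtain ⟨g, h, hgh⟩ := hnc
      have : h ∈ Subgroup.center G := by rw [ht]; exact Subgroup.mem_top h
      exact hgh (Subgroup.mem_center_iff.1 this g)

include hG in
/-- **isotropy** -/
theorem isoG_of_simple (hnc : ∃ g h : G, g * h ≠ h * g)
    (hs : ∀ H : Subgroup G, H.Normal → IsClosed (H : Set G) → Finite H ∨ H = ⊤) : IsoG B := by
  intro Q hsym hinv
  rcases Nat.eq_zero_or_pos n with hn | hn
  · exact ⟨0, fun a => by subst hn; exact a.elim0⟩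
  set A : Matrix (Fin n) (Fin n) ℝ := Matrix.of Q with hA
  have hquad : ∀ x y : Fin n → ℝ, x ⬝ᵥ (A *ᵥ y) = ∑ a, ∑ b, Q a b * (x a * y b) := by
    intro x y
    unfold dotProduct mulVec dotProduct
    refine Finset.sum_congr rfl fun a _ => ?_
    rw [Finset.mul_sum]
    refine Finset.sum_congr rfl fun b _ => ?_
    show x a * (Q a b * y b) = _
    ring
  have hsymm : ∀ x y : Fin n → ℝ, x ⬝ᵥ (A *ᵥ y) = y ⬝ᵥ (A *ᵥ x) := by
    intro x y
    rw [hquad, hquad, Finset.sum_comm]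
    refine Finset.sum_congr rfl fun a _ => Finset.sum_congr rfl fun b _ => ?_
    rw [hsym b a]
    ring
  have hbil : ∀ (g : G) (x y : Fin n → ℝ), Adx B g x ⬝ᵥ (A *ᵥ Adx B g y) = x ⬝ᵥ (A *ᵥ y) := by
    intro g x y
    have h1 := hinv g (x + y)
    rw [← hquad, ← hquad, Ad_add, mulVec_add, mulVec_add, dotProduct_add, dotProduct_add,
      add_dotProduct, add_dotProduct, add_dotProduct, add_dotProduct] at h1
    have h2 := hinv g x
    have h3 := hinv g y
    rw [← hquad, ← hquad] at h2 h3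
    have h4 := hsymm (Adx B g x) (Adx B g y)
    have h5 := hsymm x y
    linarith
  have hH : A.IsHermitian := by
    ext a b
    simp only [conjTranspose_apply, hA, Matrix.of_apply, star_trivial]
    exact hsym b a
  set j : Fin n := ⟨0, hn⟩
  set l := hH.eigenvalues j with hl
  set V : Submodule ℝ (Fin n → ℝ) :=
    { carrier := {y | A *ᵥ y = l • y}
      zero_mem' := by
        show A *ᵥ (0 : Fin n → ℝ) = l • (0 : Fin n → ℝ)
        rw [mulVec_zero, smul_zero]
      add_mem' := fun {a b} ha hb => by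
        show A *ᵥ (a + b) = l • (a + b)
        rw [mulVec_add, smul_add, show A *ᵥ a = l • a from ha, show A *ᵥ b = l • b from hb]
      smul_mem' := fun c a ha => by
        show A *ᵥ (c • a) = l • (c • a)
        rw [mulVec_smul, show A *ᵥ a = l • a from ha, smul_comm] } with hVdef
  have hmem : ∀ y, y ∈ V ↔ A *ᵥ y = l • y := fun y => Iff.rfl
  have hV : ∀ (g : G), ∀ v ∈ V, Adx B g v ∈ V := by
    intro g v hv
    rw [hmem] at hv ⊢
    refine _root_.dotProduct_eq _ _ fun x => ?_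
    rw [dotProduct_comm, ← Ad_Ad_inv B hG g x, hbil, hv, dotProduct_comm _ (Adx B g _),
      dotProduct_smul, dotProduct_smul, dot_Ad B hG]
  have hne : (⇑(hH.eigenvectorBasis j) : Fin n → ℝ) ≠ 0 := by
    intro h0
    have h1 := (hH.eigenvectorBasis).orthonormal.1 j
    have h2 : hH.eigenvectorBasis j = 0 := by
      ext a
      exact congrFun h0 a
    rw [h2, norm_zero] at h1
    exact zero_ne_one h1
  have htop := irr_of_simple B hG hnc hs hV (v₀ := ⇑(hH.eigenvectorBasis j))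
    ((hmem _).2 (hH.mulVec_eigenvectorBasis j)) hne
  refine ⟨l, fun a b => ?_⟩
  have h1 : (Pi.single b (1 : ℝ) : Fin n → ℝ) ∈ V := by rw [htop]; exact Submodule.mem_top
  rw [hmem] at h1
  have h2 := congrFun h1 a
  rw [mulVec_single_one] at h2
  simp only [Matrix.col_apply, hA, Matrix.of_apply, Pi.smul_apply, smul_eq_mul,
    Pi.single_apply] at h2
  rw [h2]
  split_ifs <;> simp

/-- the bracket with a basis element as a linear map -/
def Tb (X : Mat N) (y : Fin n → ℝ) : Mat N := X * LX B y - LX B y * X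

lemma Tb_sum (X : Mat N) (a : Fin n → ℝ) : Tb B X a =
    ∑ d, a d • Tb B X (Pi.single d 1) := by
  have h1 : ∀ d, LX B (Pi.single d (1 : ℝ)) = B.X d := by
    intro d
    unfold LX
    rw [Finset.sum_eq_single d]
    · simp
    · intro b _ hb
      rw [Pi.single_eq_of_ne hb, zero_smul]
    · intro h; exact absurd (Finset.mem_univ d) h
  unfold Tb
  simp only [h1]
  have h2 : LX B a = ∑ d, a d • B.X d := rfl
  rw [h2, Finset.mul_sum, Finset.sum_mul, ← Finset.sum_sub_distrib]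
  refine Finset.sum_congr rfl fun d _ => ?_
  rw [mul_smul_comm, smul_mul_assoc, smul_sub]

lemma LX_single (d : Fin n) : LX B (Pi.single d (1 : ℝ)) = B.X d := by
  unfold LX
  rw [Finset.sum_eq_single d]
  · simp
  · intro b _ hb
    rw [Pi.single_eq_of_ne hb, zero_smul]
  · intro h; exact absurd (Finset.mem_univ d) h

lemma ip_sum_left {ι : Type*} (s : Finset ι) (A : ι → Mat N) (C : Mat N) :
    ip (∑ i ∈ s, A i) C = ∑ i ∈ s, ip (A i) C := by
  rw [ip_comm, map_sum]
  exact Finset.sum_congr rfl fun i _ => ip_comm _ _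

lemma ip_smul_left (c : ℝ) (A C : Mat N) : ip (c • A) C = c * ip A C := by
  rw [ip_comm, map_smul, smul_eq_mul, ip_comm]

include hG in
/-- the sum of squares does not depend on the orthonormal basis -/
lemma sum_Tb (g : G) (X : Mat N) : ∑ c, ‖Tb B X (Adx B g⁻¹ (Pi.single c 1))‖ ^ 2 =
    ∑ c, ‖Tb B X (Pi.single c 1)‖ ^ 2 := by
  have h1 : ∀ c d, Adx B g⁻¹ (Pi.single c 1) d = Adx B g (Pi.single d 1) c := by
    intro c d
    have e1 : Adx B g⁻¹ (Pi.single c 1) d = (Pi.single d 1) ⬝ᵥ Adx B g⁻¹ (Pi.single c 1) := by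
      rw [single_one_dotProduct]
    have e2 : Adx B g (Pi.single d 1) c = Adx B g (Pi.single d 1) ⬝ᵥ (Pi.single c 1) := by
      rw [dotProduct_single_one]
    rw [e1, e2, ← dot_Ad B hG g, Ad_Ad_inv B hG]
  have h2 : ∀ c, ‖Tb B X (Adx B g⁻¹ (Pi.single c 1))‖ ^ 2 =
      ∑ d, ∑ e, (Adx B g (Pi.single d 1) c * Adx B g (Pi.single e 1) c) *
        ip (Tb B X (Pi.single d 1)) (Tb B X (Pi.single e 1)) := by
    intro c
    rw [norm_sq_ip, Tb_sum, ip_sum_left]
    refine Finset.sum_congr rfl fun d _ => ?_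
    rw [ip_smul_left, map_sum, Finset.mul_sum]
    refine Finset.sum_congr rfl fun e _ => ?_
    rw [map_smul, smul_eq_mul, h1, h1]
    ring
  simp only [h2]
  rw [Finset.sum_comm]
  refine Finset.sum_congr rfl fun d _ => ?_
  rw [Finset.sum_comm]
  have h3 : ∀ e, ∑ c, (Adx B g (Pi.single d 1) c * Adx B g (Pi.single e 1) c) *
        ip (Tb B X (Pi.single d 1)) (Tb B X (Pi.single e 1)) =
      (if d = e then 1 else 0) * ip (Tb B X (Pi.single d 1)) (Tb B X (Pi.single e 1)) := by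
    intro e
    rw [← Finset.sum_mul]
    congr 1
    have h4 := dot_Ad B hG g (Pi.single d (1 : ℝ)) (Pi.single e 1)
    rw [single_one_dotProduct, Pi.single_apply] at h4
    exact h4
  simp only [h3]
  rw [Finset.sum_eq_single d]
  · rw [if_pos rfl, one_mul, norm_sq_ip]
  · intro e _ he
    rw [if_neg (Ne.symm he), zero_mul]
  · intro h; exact absurd (Finset.mem_univ d) h

lemma conj_Tb (g : G) (X : Mat N) (c : Fin n → ℝ) :
    ‖Tb B (mt g * X * mt g⁻¹) c‖ = ‖X * (mt g⁻¹ * LX B c * mt g) - mt g⁻¹ * LX B c * mt g * X‖ := by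
  have h1 : mt g⁻¹ * Tb B (mt g * X * mt g⁻¹) c * mt g =
      X * (mt g⁻¹ * LX B c * mt g) - mt g⁻¹ * LX B c * mt g * X := by
    unfold Tb
    calc _ = (mt g⁻¹ * mt g) * X * (mt g⁻¹ * LX B c * mt g) -
        mt g⁻¹ * LX B c * mt g * X * (mt g⁻¹ * mt g) := by noncomm_ring
      _ = _ := by rw [mt_inv_mul, one_mul, mul_one]
  rw [← h1, norm_mul_unit, norm_mt_mul]

include hG in
/-- the Casimir constant of the adjoint representation -/
theorem exists_cA [ConnectedSpace G] [CompactSpace G] (hnc : ∃ g h : G, g * h ≠ h * g)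
    (hs : ∀ H : Subgroup G, H.Normal → IsClosed (H : Set G) → Finite H ∨ H = ⊤) :
    ∃ cA : ℝ, 0 < cA ∧ ∀ x : Fin n → ℝ,
      ∑ a, ‖LX B x * B.X a - B.X a * LX B x‖ ^ 2 = cA * ∑ a, x a ^ 2 := by
  obtain ⟨Q, hQ⟩ : ∃ Q : Fin n → Fin n → ℝ, Q = fun a b => ∑ c,
    ip (Tb B (B.X a) (Pi.single c 1)) (Tb B (B.X b) (Pi.single c 1)) := ⟨_, rfl⟩
  have hTl : ∀ (x : Fin n → ℝ) (c : Fin n), Tb B (LX B x) (Pi.single c 1) =
      ∑ a, x a • Tb B (B.X a) (Pi.single c 1) := by
    intro x c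
    unfold Tb
    have h2 : LX B x = ∑ d, x d • B.X d := rfl
    rw [h2, Finset.mul_sum, Finset.sum_mul, ← Finset.sum_sub_distrib]
    refine Finset.sum_congr rfl fun d _ => ?_
    rw [mul_smul_comm, smul_mul_assoc, smul_sub]
  have hquad : ∀ x : Fin n → ℝ, ∑ a, ∑ b, Q a b * (x a * x b) =
      ∑ c, ‖Tb B (LX B x) (Pi.single c 1)‖ ^ 2 := by
    intro x
    have h1 : ∀ c, ‖Tb B (LX B x) (Pi.single c 1)‖ ^ 2 = ∑ a, ∑ b,
        (x a * x b) * ip (Tb B (B.X a) (Pi.single c 1)) (Tb B (B.X b) (Pi.single c 1)) := by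
      intro c
      rw [norm_sq_ip, hTl, ip_sum_left]
      refine Finset.sum_congr rfl fun a _ => ?_
      rw [ip_smul_left, map_sum, Finset.mul_sum]
      refine Finset.sum_congr rfl fun b _ => ?_
      rw [map_smul, smul_eq_mul]
      ring
    simp only [h1]
    symm
    rw [Finset.sum_comm]
    refine Finset.sum_congr rfl fun a _ => ?_
    rw [Finset.sum_comm]
    refine Finset.sum_congr rfl fun b _ => ?_
    rw [hQ, ← Finset.mul_sum, mul_comm]
  have hinv : ∀ (g : G) (x : Fin n → ℝ), ∑ a, ∑ b, Q a b * (Adx B g x a * Adx B g x b) =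
      ∑ a, ∑ b, Q a b * (x a * x b) := by
    intro g x
    rw [hquad, hquad, LX_Ad B hG]
    simp only [conj_Tb]
    rw [← sum_Tb B hG g]
    refine Finset.sum_congr rfl fun c _ => ?_
    unfold Tb
    rw [LX_Ad B hG, inv_inv]
  obtain ⟨κ, hκ⟩ := isoG_of_simple B hG hnc hs Q (fun a b => by
    rw [hQ]; exact Finset.sum_congr rfl fun c _ => ip_comm _ _) hinv
  have hfin : ∀ x : Fin n → ℝ,
      ∑ a, ‖LX B x * B.X a - B.X a * LX B x‖ ^ 2 = κ * ∑ a, x a ^ 2 := by
    intro x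
    have h1 : ∑ a, ‖LX B x * B.X a - B.X a * LX B x‖ ^ 2 =
        ∑ c, ‖Tb B (LX B x) (Pi.single c 1)‖ ^ 2 := by
      refine Finset.sum_congr rfl fun c _ => ?_
      unfold Tb
      rw [LX_single]
    rw [h1, ← hquad, Finset.mul_sum]
    refine Finset.sum_congr rfl fun a _ => ?_
    rw [Finset.sum_eq_single a]
    · rw [hκ, if_pos rfl]; ring
    · intro b _ hb
      rw [hκ, if_neg (Ne.symm hb), zero_mul]
    · intro h; exact absurd (Finset.mem_univ a) h
  refine ⟨κ, ?_, hfin⟩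
  by_contra hneg
  push Not at hneg
  -- all brackets vanish
  have hbr : ∀ x y : Fin n → ℝ, Commute (LX B x) (LX B y) := by
    intro x y
    have h1 : ∑ a, ‖LX B x * B.X a - B.X a * LX B x‖ ^ 2 ≤ 0 := by
      rw [hfin]
      exact mul_nonpos_of_nonpos_of_nonneg hneg (Finset.sum_nonneg fun _ _ => sq_nonneg _)
    have h2 : ∀ a, LX B x * B.X a = B.X a * LX B x := by
      intro a
      have h3 : ‖LX B x * B.X a - B.X a * LX B x‖ ^ 2 ≤
          ∑ a, ‖LX B x * B.X a - B.X a * LX B x‖ ^ 2 :=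
        Finset.single_le_sum (f := fun a => ‖LX B x * B.X a - B.X a * LX B x‖ ^ 2)
          (fun _ _ => sq_nonneg _) (Finset.mem_univ a)
      have h4 : ‖LX B x * B.X a - B.X a * LX B x‖ = 0 :=
        pow_eq_zero_iff two_ne_zero |>.1 (le_antisymm (h3.trans h1) (sq_nonneg _))
      exact sub_eq_zero.1 (norm_eq_zero.1 h4)
    show LX B x * LX B y = LX B y * LX B x
    have h5 : LX B y = ∑ d, y d • B.X d := rfl
    rw [h5, Finset.mul_sum, Finset.sum_mul]
    refine Finset.sum_congr rfl fun d _ => ?_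
    rw [mul_smul_comm, smul_mul_assoc, h2]
  let _ : MeasurableSpace G := borel G
  have _ : BorelSpace G := ⟨rfl⟩
  obtain ⟨r1, C1, hr1, hC1, hA, -⟩ := s_L1 B hG
  have hcomm : ∀ g ∈ (bl r1 : Set G), ∀ h ∈ (bl r1 : Set G), g * h = h * g := by
    intro g hg h hh
    obtain ⟨y, hy, -⟩ := hA g hg
    obtain ⟨z, hz, -⟩ := hA h hh
    apply mt_inj
    rw [← hy, ← hz, mt_mul, mt_mul, mt_Eg, mt_Eg]
    exact (Commute.exp (hbr y z)).eq
  have hcl := bl_closure (G := G) hr1
  have hcen : ∀ g ∈ (bl r1 : Set G), ∀ h : G, g * h = h * g := by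
    intro g hg
    have h1 : Subgroup.closure (bl r1 : Set G) ≤ Subgroup.centralizer {g} := by
      rw [Subgroup.closure_le]
      intro h hh
      rw [SetLike.mem_coe, Subgroup.mem_centralizer_singleton_iff]
      exact hcomm h hh g hg
    rw [hcl] at h1
    intro h
    have h2 := h1 (Subgroup.mem_top h)
    rw [Subgroup.mem_centralizer_singleton_iff] at h2
    exact h2.symm
  have hall : Subgroup.closure (bl r1 : Set G) ≤ Subgroup.center G := by
    rw [Subgroup.closure_le]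
    intro g hg
    rw [SetLike.mem_coe, Subgroup.mem_center_iff]
    intro h
    exact (hcen g hg h).symm
  rw [hcl] at hall
  obtain ⟨g, h, hgh⟩ := hnc
  exact hgh (Subgroup.mem_center_iff.1 (hall (Subgroup.mem_top h)) g)

end

end Pool.Agent.N991.MK
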