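import Mathlib
import Pool.Agent.N991.MK.Low
import Pool.Agent.N988.MK.Schw

/-!
# Semiconcavity of the logarithm from the tube bound and the lower bound
-/

open MeasureTheory Matrix Filter Metric
open scoped Matrix.Norms.Frobenius ContDiff Topology
open Pool.Agent.H906R3.YM Pool.Agent.W793.YM Pool.Agent.TH618.YM Pool.Agent.N984.TW

namespace Pool.Agent.N991.MK

set_option linter.unusedSectionVars false

noncomputable section

variable {N n : ℕ} {G : Subgroup (UN N)} {B : Frame G n} (hG : IsClosed (G : Set (UN N)))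

/-- the extension along a complexified one parameter group -/
def phE (B : Frame G n) (F : (Mat N)ˣ → ℂ) (X : Fin n → ℝ) (x : G) (t : ℂ) : ℂ :=
  F (uE B (t • rl X) * uG x)

lemma phE_diff {F : (Mat N)ˣ → ℂ} (hF : Hol F) (X : Fin n → ℝ) (x : G) :
    Differentiable ℂ (phE B F X x) := by
  have h : ContDiff ℂ ∞ (phE B F X x) := by
    refine hF.curve (u := fun t => uE B (t • rl X) * uG x) ?_ ?_
    · show ContDiff ℂ ∞ fun t : ℂ => EC B (t • rl X) * mt x
      exact ((EC_contDiff B).comp (contDiff_id.smul contDiff_const)).mul contDiff_const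
    · have e : (fun t : ℂ => (((uE B (t • rl X) * uG x)⁻¹ : (Mat N)ˣ) : Mat N)) =
          fun t : ℂ => mt x⁻¹ * EC B (-(t • rl X)) := by
        funext t
        rw [_root_.mul_inv_rev]
        rfl
      rw [e]
      exact contDiff_const.mul ((EC_contDiff B).comp (contDiff_id.smul contDiff_const).neg)
  exact h.differentiable (by simp)

lemma phE_real (F : (Mat N)ˣ → ℂ) (X : Fin n → ℝ) (x : G) (t : ℝ) :
    phE B F X x t = F (uG (Eg B hG (t • X) * x)) := by
  unfold phE
  have : (t : ℂ) • rl X = rl (t • X) := by funext i; simp [rl]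
  rw [this, uE_rl B hG, ← map_mul]

include hG in
lemma phE_bound {r k : ℝ} {F : (Mat N)ˣ → ℂ} (hr : GoodR B r) (hk : 0 ≤ k) (ht : Tube B r k F)
    (X : Fin n → ℝ) (x : G) (t : ℂ) (hX : ‖t‖ * nE X ≤ 0.51 * r) :
    ‖phE B F X x t‖ ≤ ‖F 1‖ * Real.exp k := by
  have hp := hr.pos
  have e1 : t • rl X = ((t.im * Complex.I : ℂ) + (t.re : ℂ)) • rl X := by
    congr 1
    rw [add_comm]
    exact (Complex.re_add_im t).symm
  have e2 : (t.im * Complex.I : ℂ) • rl X = Complex.I • rl (t.im • X) := by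
    funext i; simp [rl]; ring
  have e3 : (t.re : ℂ) • rl X = rl (t.re • X) := by funext i; simp [rl]
  unfold phE
  rw [e1, uE_add_smul, e2, e3, uE_rl B hG, mul_assoc, ← map_mul]
  have hX0 := nE_nonneg X
  have ha : nE (t.im • X) ≤ 0.51 * r := by
    rw [nE_smul]
    exact (mul_le_mul_of_nonneg_right (Complex.abs_im_le_norm t) hX0).trans hX
  refine (ht _ _ ha).trans (mul_le_mul_of_nonneg_left (Real.exp_le_exp.2 ?_) (norm_nonneg _))
  have h1 : nE (t.im • X) ^ 2 ≤ 1 := by
    have h2 := nE_nonneg (t.im • X)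
    have h3 := hr.le
    nlinarith
  have h2 := sq_nonneg (min (nN (Eg B hG (t.re • X) * x)) r)
  nlinarith

/-- elementary inequality for the logarithms -/
lemma log_two {p q a : ℝ} (hp : 0 < p) (hq : 0 < q) (ha : 0 ≤ a) (ha1 : a ≤ 1 / 2)
    (h : 1 - a ≤ p * q) : -(2 * a) ≤ Real.log p + Real.log q := by
  rw [← Real.log_mul hp.ne' hq.ne']
  have h1 : 0 < 1 - a := by linarith
  have h2 := Real.log_le_log h1 h
  have h3 := Real.one_sub_inv_le_log_of_pos h1
  have h4 : -(2 * a) ≤ 1 - (1 - a)⁻¹ := by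
    have : (1 - a)⁻¹ ≤ 1 + 2 * a := by
      rw [inv_le_comm₀ h1 (by positivity), inv_le_iff_one_le_mul₀ (by positivity)]
      nlinarith
    linarith
  linarith

/-- the arithmetic of the small increments -/
lemma small_incr {fx fp fm f1 E δ R y : ℝ} (hx : 0 < fx) (hp : 0 < fp) (hm : 0 < fm)
    (hE : 1 ≤ E) (hδ : 0 < δ) (hδ1 : δ ≤ 1) (hR : 0 < R) (hy : 0 < y)
    (hlow : δ * f1 ≤ fx)
    (d1 : |fp - fx| ≤ 2 * (f1 * E) / (R / y)) (d2 : |fm - fx| ≤ 2 * (f1 * E) / (R / y))
    (d3 : |fp + fm - 2 * fx| ≤ 4 * (f1 * E) * (1 / (R / y)) ^ 2)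
    (hcase : 8 * (E / (R * δ)) ^ 2 * y ^ 2 ≤ 1 / 2) :
    -(16 * (E / (R * δ)) ^ 2 * y ^ 2) ≤ Real.log (fp / fx) + Real.log (fm / fx) := by
  obtain ⟨A, hA⟩ : ∃ A, A = E / (R * δ) := ⟨_, rfl⟩
  rw [← hA] at hcase ⊢
  have hA0 : 0 < A := by rw [hA]; positivity
  have hρi : 1 / (R / y) = y / R := by rw [one_div_div]
  have hAy : E / δ * (1 / (R / y)) = A * y := by rw [hρi, hA]; field_simp
  have h3 : f1 * E ≤ E / δ * fx := by
    rw [div_mul_eq_mul_div, le_div_iff₀ hδ]
    have := mul_le_mul_of_nonneg_left hlow (by positivity : 0 ≤ E)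
    linarith
  have hρ0 : 0 ≤ 1 / (R / y) := by positivity
  have k1 : 2 * (f1 * E) / (R / y) ≤ 2 * (A * y) * fx := by
    rw [← hAy]
    calc 2 * (f1 * E) / (R / y) = 2 * (f1 * E) * (1 / (R / y)) := by ring
      _ ≤ 2 * (E / δ * fx) * (1 / (R / y)) := by gcongr
      _ = _ := by ring
  have k2 : 4 * (f1 * E) * (1 / (R / y)) ^ 2 ≤ 4 * (A * y) ^ 2 * fx := by
    rw [← hAy]
    have h4 : (1 : ℝ) ≤ E / δ := by
      rw [one_le_div hδ]
      exact hδ1.trans hE
    have h5 : E / δ ≤ (E / δ) ^ 2 := by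
      rw [sq]; exact le_mul_of_one_le_left (by positivity) h4
    calc 4 * (f1 * E) * (1 / (R / y)) ^ 2 ≤ 4 * (E / δ * fx) * (1 / (R / y)) ^ 2 := by gcongr
      _ ≤ 4 * ((E / δ) ^ 2 * fx) * (1 / (R / y)) ^ 2 := by gcongr
      _ = _ := by ring
  have e1 : |fp / fx - 1| ≤ 2 * (A * y) := by
    have : fp / fx - 1 = (fp - fx) / fx := by field_simp
    rw [this, abs_div, abs_of_pos hx, div_le_iff₀ hx]
    exact d1.trans k1
  have e2 : |fm / fx - 1| ≤ 2 * (A * y) := by
    have : fm / fx - 1 = (fm - fx) / fx := by field_simp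
    rw [this, abs_div, abs_of_pos hx, div_le_iff₀ hx]
    exact d2.trans k1
  have e3 : |fp / fx + fm / fx - 2| ≤ 4 * (A * y) ^ 2 := by
    have : fp / fx + fm / fx - 2 = (fp + fm - 2 * fx) / fx := by field_simp
    rw [this, abs_div, abs_of_pos hx, div_le_iff₀ hx]
    exact d3.trans k2
  obtain ⟨p, hpd⟩ : ∃ p, p = fp / fx := ⟨_, rfl⟩
  obtain ⟨q, hqd⟩ : ∃ q, q = fm / fx := ⟨_, rfl⟩
  have hp0 : 0 < p := by rw [hpd]; positivity
  have hq0 : 0 < q := by rw [hqd]; positivity
  rw [← hpd] at e1 e3 ⊢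
  rw [← hqd] at e2 e3 ⊢
  have hpq : 1 - 8 * A ^ 2 * y ^ 2 ≤ p * q := by
    have h6 : p * q = 1 + (p + q - 2) + (p - 1) * (q - 1) := by ring
    have h7 : |(p - 1) * (q - 1)| ≤ (2 * (A * y)) * (2 * (A * y)) := by
      rw [abs_mul]
      exact mul_le_mul e1 e2 (abs_nonneg _) (by positivity)
    have h8 := neg_abs_le (p + q - 2)
    have h9 := neg_abs_le ((p - 1) * (q - 1))
    have h10 : (2 * (A * y)) * (2 * (A * y)) = 4 * A ^ 2 * y ^ 2 := by ring
    have h11 : 4 * (A * y) ^ 2 = 4 * A ^ 2 * y ^ 2 := by ring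
    rw [h6]
    linarith
  have h10 := log_two hp0 hq0 (by positivity) hcase hpq
  linarith

variable [CompactSpace G] [MeasurableSpace G] [BorelSpace G]

include hG in
/-- **semiconcavity of the logarithm** -/
theorem sc_tube {r k δ : ℝ} {f : G → ℝ} {F : (Mat N)ˣ → ℂ} (hr : GoodR B r) (hk : 0 ≤ k)
    (h : CF f F) (ht : Tube B r k F) (hp : ∀ x, 0 < f x) (hδ : 0 < δ) (hδ1 : δ ≤ 1)
    (hlow : ∀ x, δ * f 1 ≤ f x) (X : Fin n → ℝ) (x : G) :
    -((32 * (Real.exp k / (r / 2 * δ)) ^ 2 * (1 + Real.log (1 / δ))) * ∑ a, X a ^ 2) ≤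
      Real.log (f (Eg B hG X * x)) + Real.log (f (Eg B hG (-X) * x)) - 2 * Real.log (f x) := by
  have hr0 := hr.pos
  have hF1 : ‖F 1‖ = f 1 := by rw [h.one, abs_of_pos (hp 1)]
  set A := Real.exp k / (r / 2 * δ) with hA
  have hA0 : 0 < A := by positivity
  have hlog : 0 ≤ Real.log (1 / δ) := Real.log_nonneg ((one_le_div hδ).2 hδ1)
  rw [← nE_sq]
  set y := nE X with hy
  have hy0 : 0 ≤ y := nE_nonneg X
  have hmax : ∀ x, f x ≤ f 1 := by
    intro x
    have h1 := ht 0 x (by rw [nE_zero]; positivity)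
    rw [rl_zero', uE_zero, one_mul, h.norm_res, abs_of_pos (hp x), nE_zero, hF1] at h1
    refine h1.trans ?_
    have h2 : Real.exp (k / 2 * (1.01 * 0 ^ 2 - 0.99 * min (nN x) r ^ 2)) ≤ 1 := by
      refine Real.exp_le_one_iff.2 ?_
      have : 0 ≤ k / 2 * (0.99 * min (nN x) r ^ 2) := by positivity
      nlinarith
    calc f 1 * Real.exp (k / 2 * (1.01 * 0 ^ 2 - 0.99 * min (nN x) r ^ 2)) ≤ f 1 * 1 :=
          mul_le_mul_of_nonneg_left h2 (hp 1).le
      _ = f 1 := mul_one _
  have hx := hp x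
  set p := f (Eg B hG X * x) / f x with hpd
  set q := f (Eg B hG (-X) * x) / f x with hqd
  have hp0 : 0 < p := div_pos (hp _) hx
  have hq0 : 0 < q := div_pos (hp _) hx
  have hsum : Real.log (f (Eg B hG X * x)) + Real.log (f (Eg B hG (-X) * x)) -
      2 * Real.log (f x) = Real.log p + Real.log q := by
    rw [hpd, hqd, Real.log_div (hp _).ne' hx.ne', Real.log_div (hp _).ne' hx.ne']
    ring
  rw [hsum]
  by_cases hcase : 8 * A ^ 2 * y ^ 2 ≤ 1 / 2
  · -- small increments
    rcases hy0.eq_or_lt with hy1 | hy1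
    · -- X = 0
      have hX0 : X = 0 := by
        funext a
        have h1 := nE_sq X
        rw [← hy, ← hy1] at h1
        have h2 : X a ^ 2 ≤ ∑ a, X a ^ 2 :=
          Finset.single_le_sum (f := fun a => X a ^ 2) (fun _ _ => sq_nonneg _)
            (Finset.mem_univ a)
        have h3 : X a ^ 2 ≤ 0 := by rw [← h1] at h2; simpa using h2
        have := sq_nonneg (X a)
        exact pow_eq_zero_iff (two_ne_zero) |>.1 (le_antisymm h3 this)
      have e : p = 1 ∧ q = 1 := by
        rw [hpd, hqd, hX0, neg_zero, Eg_zero, one_mul]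
        exact ⟨div_self hx.ne', div_self hx.ne'⟩
      rw [e.1, e.2, ← hy1]
      simp
    have hR : 0 < r / 2 := by positivity
    have hAy : A * y ≤ 1 / 4 := by nlinarith [mul_nonneg hA0.le hy0]
    have hyR : y < r / 2 := by
      have h1 : Real.exp k / (r / 2 * δ) * y ≤ 1 / 4 := hAy
      rw [div_mul_eq_mul_div, div_le_iff₀ (by positivity)] at h1
      have h2 : (1 : ℝ) ≤ Real.exp k := Real.one_le_exp hk
      nlinarith
    set S := f 1 * Real.exp k with hS
    have hS0 : 0 < S := mul_pos (hp 1) (Real.exp_pos _)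
    set ρ := (r / 2) / y with hρ
    have hρ1 : 1 < ρ := (one_lt_div hy1).2 hyR
    have hρ0 : 0 < ρ := by linarith
    have hbd : ∀ t ∈ ball (0 : ℂ) ρ, ‖phE B F X x t‖ ≤ S := by
      intro t ht'
      rw [mem_ball_zero_iff, hρ, lt_div_iff₀ hy1] at ht'
      have := phE_bound hG hr hk ht X x t (by linarith)
      rwa [hF1] at this
    have hdiff := phE_diff (B := B) h.hol X x
    have v1 : phE B F X x 1 = (f (Eg B hG X * x) : ℂ) := by
      have := phE_real (B := B) hG F X x 1
      rwa [Complex.ofReal_one, one_smul, h.res] at this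
    have v2 : phE B F X x (-1) = (f (Eg B hG (-X) * x) : ℂ) := by
      have := phE_real (B := B) hG F X x (-1)
      rwa [Complex.ofReal_neg, Complex.ofReal_one, neg_one_smul, h.res] at this
    have v0 : phE B F X x 0 = (f x : ℂ) := by
      have := phE_real (B := B) hG F X x 0
      rwa [Complex.ofReal_zero, zero_smul, Eg_zero, one_mul, h.res] at this
    -- first differences
    have hmaps : Set.MapsTo (phE B F X x) (ball 0 ρ) (closedBall (phE B F X x 0) (2 * S)) := by
      intro t ht'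
      rw [mem_closedBall, dist_eq_norm]
      refine (norm_sub_le _ _).trans ?_
      have := hbd t ht'
      have := hbd 0 (mem_ball_self hρ0)
      linarith
    have d1 : |f (Eg B hG X * x) - f x| ≤ 2 * S / ρ := by
      have h1 := Complex.dist_le_div_mul_dist_of_mapsTo_ball hdiff.differentiableOn hmaps
        (z := 1) (by rw [mem_ball_zero_iff, norm_one]; exact hρ1)
      rw [v1, v0, dist_eq_norm, dist_zero_right, norm_one, mul_one, ← Complex.ofReal_sub,
        Complex.norm_real, Real.norm_eq_abs] at h1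
      exact h1
    have d2 : |f (Eg B hG (-X) * x) - f x| ≤ 2 * S / ρ := by
      have h1 := Complex.dist_le_div_mul_dist_of_mapsTo_ball hdiff.differentiableOn hmaps
        (z := -1) (by rw [mem_ball_zero_iff, norm_neg, norm_one]; exact hρ1)
      rw [v2, v0, dist_eq_norm, dist_zero_right, norm_neg, norm_one, mul_one,
        ← Complex.ofReal_sub, Complex.norm_real, Real.norm_eq_abs] at h1
      exact h1
    -- second difference
    have d3 : |f (Eg B hG X * x) + f (Eg B hG (-X) * x) - 2 * f x| ≤ 4 * S * (1 / ρ) ^ 2 := by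
      have h1 := Pool.Agent.N988.MK.even_schw
        (g := fun t : ℂ => phE B F X x t + phE B F X x (-t) - 2 * phE B F X x 0) (ρ := ρ)
        (S := 4 * S) ?_ ?_ ?_ ?_ (ζ := 1) (by rw [mem_ball_zero_iff, norm_one]; exact hρ1)
      · beta_reduce at h1
        rw [v1, v2, v0, norm_one] at h1
        have e : ((f (Eg B hG X * x) : ℂ) + (f (Eg B hG (-X) * x) : ℂ) - 2 * (f x : ℂ)) =
          ((f (Eg B hG X * x) + f (Eg B hG (-X) * x) - 2 * f x : ℝ) : ℂ) := by push_cast; ring
        rw [e, Complex.norm_real, Real.norm_eq_abs] at h1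
        exact h1
      · have h2 : Differentiable ℂ fun t : ℂ => phE B F X x (-t) := hdiff.comp differentiable_neg
        exact ((hdiff.add h2).sub (differentiable_const _)).differentiableOn
      · intro t _
        rw [neg_neg]
        ring
      · rw [neg_zero]
        ring
      · intro t ht'
        have b1 := hbd t ht'
        have b2 := hbd (-t) (by rw [mem_ball_zero_iff, norm_neg]; rwa [mem_ball_zero_iff] at ht')
        have b3 := hbd 0 (mem_ball_self hρ0)
        refine (norm_sub_le _ _).trans ?_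
        rw [norm_mul, Complex.norm_ofNat]
        have := norm_add_le (phE B F X x t) (phE B F X x (-t))
        linarith
    have hcase' : 8 * (Real.exp k / (r / 2 * δ)) ^ 2 * y ^ 2 ≤ 1 / 2 := hcase
    have h10 := small_incr (fx := f x) (fp := f (Eg B hG X * x)) (fm := f (Eg B hG (-X) * x))
      (f1 := f 1) hx (hp _) (hp _) (Real.one_le_exp hk) hδ hδ1 hR hy1 (hlow x) d1 d2 d3
      hcase'
    have h11 : 16 * A ^ 2 * y ^ 2 ≤ 32 * A ^ 2 * (1 + Real.log (1 / δ)) * y ^ 2 := by
      have h12 : 0 ≤ A ^ 2 * y ^ 2 := by positivity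
      have h13 := mul_nonneg h12 hlog
      linarith
    exact (neg_le_neg h11).trans h10
  · -- large increments
    push Not at hcase
    have h1 : ∀ z, Real.log δ ≤ Real.log (f z / f x) := by
      intro z
      refine Real.log_le_log hδ ?_
      rw [le_div_iff₀ hx]
      have := hlow z
      have := hmax x
      nlinarith
    have h2 : Real.log δ = -Real.log (1 / δ) := by rw [one_div, Real.log_inv, neg_neg]
    have h3 := h1 (Eg B hG X * x)
    have h4 := h1 (Eg B hG (-X) * x)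
    rw [h2] at h3 h4
    have h5 : 2 * Real.log (1 / δ) ≤ 32 * A ^ 2 * (1 + Real.log (1 / δ)) * y ^ 2 := by
      have h6 : 0 ≤ A ^ 2 * y ^ 2 := by positivity
      nlinarith [mul_nonneg h6 hlog]
    linarith

variable {μ : Measure G} [IsProbabilityMeasure μ] [μ.IsMulLeftInvariant] [μ.IsMulRightInvariant]
  [μ.IsInvInvariant]

include hG in
/-- **semiconcavity along a chain, uniformly in bounded windows** -/
theorem Chain.sc [ConnectedSpace G] {r h0 C1 : ℝ} (hr : GoodR B r) (hh0 : 0 ≤ h0) (H : ℝ) :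
    ∃ K : ℝ, 0 ≤ K ∧ ∀ {f : G → ℝ} {F : (Mat N)ˣ → ℂ} {k M : ℝ},
      Chain μ B r h0 C1 f F k M → h0 ≤ k → k ≤ H → CF f F → (∀ x, 0 < f x) →
      M * r ^ 2 ≤ k / 1000 → NearS B r k M F → Tube B r k F → ∀ (X : Fin n → ℝ) (x : G),
      -(K * ∑ a, X a ^ 2) ≤
        Real.log (f (Eg B hG X * x)) + Real.log (f (Eg B hG (-X) * x)) - 2 * Real.log (f x) := by
  have hr0 := hr.pos
  obtain ⟨δ, hδ, hδ1, hb⟩ := Chain.lower_whole (μ := μ) (C1 := C1) hr hh0 H
  have hlog : 0 ≤ Real.log (1 / δ) := Real.log_nonneg ((one_le_div hδ).2 hδ1)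
  refine ⟨32 * (Real.exp H / (r / 2 * δ)) ^ 2 * (1 + Real.log (1 / δ)), by positivity,
    fun {f F k M} hc hk hH h hp hM hn ht X x => ?_⟩
  have h1 := sc_tube hG hr (hh0.trans hk) h ht hp hδ hδ1 (hb hc hk hH h hp hM hn ht) X x
  refine le_trans (neg_le_neg ?_) h1
  have h2 : 0 ≤ ∑ a, X a ^ 2 := Finset.sum_nonneg fun _ _ => sq_nonneg _
  have h3 : Real.exp k ≤ Real.exp H := Real.exp_le_exp.2 hH
  gcongr

end

end Pool.Agent.N991.MK
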