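import Mathlib
import Pool.Agent.N988.MK.State
import Pool.Agent.N991.MK.CNorm
import Pool.Agent.N991.MK.Wil

/-!
# The Wilson action satisfies the state bounds
-/

open MeasureTheory Matrix Filter Asymptotics
open scoped Matrix.Norms.Frobenius ContDiff Topology
open Pool.Agent.H906R3.YM Pool.Agent.W793.YM Pool.Agent.TH618.YM Pool.Agent.N984.TW
open Pool.Agent.N988.MK (St qC qC_diff qC_neg qC_eq)

namespace Pool.Agent.N991.MK

set_option linter.unusedSectionVars false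

noncomputable section

variable {N n : ℕ} {G : Subgroup (UN N)} (B : Frame G n) (hG : IsClosed (G : Set (UN N)))

/-- the Taylor expansion of the exponential -/
lemma exp_taylor : ∃ C ε : ℝ, 0 ≤ C ∧ 0 < ε ∧ ∀ Y : Mat N, ‖Y‖ < ε →
    ‖NormedSpace.exp Y - (1 + Y + (1 / 2 : ℂ) • Y ^ 2 + (1 / 6 : ℂ) • Y ^ 3)‖ ≤ C * ‖Y‖ ^ 4 := by
  have h := (NormedSpace.exp_hasFPowerSeriesAt_zero (𝕂 := ℂ)
    (𝔸 := Mat N)).isBigO_sub_partialSum_pow 4
  obtain ⟨C, hC⟩ := h.bound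
  obtain ⟨ε, hε, hb⟩ := Metric.eventually_nhds_iff.1 hC
  refine ⟨max C 0, ε, le_max_right _ _, hε, fun Y hY => ?_⟩
  have h1 := hb (y := Y) (by rwa [dist_zero_right])
  rw [zero_add] at h1
  have h2 : (NormedSpace.expSeries ℂ (Mat N)).partialSum 4 Y =
      1 + Y + (1 / 2 : ℂ) • Y ^ 2 + (1 / 6 : ℂ) • Y ^ 3 := by
    unfold FormalMultilinearSeries.partialSum
    simp only [NormedSpace.expSeries_apply_eq, Finset.sum_range_succ, Finset.sum_range_zero]
    norm_num [Nat.factorial]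
  have h3 := congrArg (fun Z : Mat N => ‖NormedSpace.exp Y - Z‖) h2
  have h4 : ‖NormedSpace.exp Y - (1 + Y + (1 / 2 : ℂ) • Y ^ 2 + (1 / 6 : ℂ) • Y ^ 3)‖ ≤
      C * ‖‖Y‖ ^ 4‖ := h3.symm.le.trans h1
  refine h4.trans ?_
  rw [norm_pow, norm_norm]
  gcongr
  exact le_max_left _ _

lemma norm_trace_le (M : Mat N) : ‖trace M‖ ≤ 2 * ‖(1 : Mat N)‖ * ‖M‖ := by
  have h1 : |(trace M).re| ≤ ‖(1 : Mat N)‖ * ‖M‖ := by
    have := abs_ip_le (1 : Mat N) M
    rwa [ip_apply, conjTranspose_one, one_mul] at this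
  have h2 : |(trace M).im| ≤ ‖(1 : Mat N)‖ * ‖M‖ := by
    have := abs_ip_le (1 : Mat N) (Complex.I • M)
    rw [ip_apply, conjTranspose_one, one_mul, norm_smul, Complex.norm_I, one_mul, trace_smul,
      smul_eq_mul, Complex.I_mul_re, abs_neg] at this
    exact this
  have h3 := Complex.norm_le_abs_re_add_abs_im (trace M)
  linarith

/-- the quartic remainder of the Wilson action -/
def mW (β : ℝ) (x : Fin n → ℂ) : ℂ :=
  (β / 2 : ℂ) * (2 * N - trace (EC B x) - trace (EC B (-x)) - qC x)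

/-- **the Wilson action satisfies the state bounds** -/
theorem wil_state : ∃ CW r0 : ℝ, 0 ≤ CW ∧ 0 < r0 ∧ ∀ r : ℝ, 0 < r → r ≤ r0 → ∀ β : ℝ, 0 ≤ β →
    St B r β (CW * β) (wilC N β) (mW B β) := by
  obtain ⟨C, ε, hC, hε, hb⟩ := exp_taylor (N := N)
  refine ⟨2 * ‖(1 : Mat N)‖ * C, ε, by positivity, hε, fun r hr hrε β hβ => ⟨fun x hx => ?_, fun x hx => ?_,
    fun x hx => ?_, fun x hx => ?_⟩⟩
  · unfold wilC mW
    rw [uE_val, uE_inv_val, Units.val_one, inv_one, Units.val_one, trace_one, Fintype.card_fin,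
      ← Complex.exp_add]
    congr 1
    ring
  · unfold mW
    have h1 : Differentiable ℂ fun x : Fin n → ℂ => trace (EC B x) :=
      ((trl N).differentiable).comp ((EC_contDiff B).differentiable (by simp))
    have h2 : Differentiable ℂ fun x : Fin n → ℂ => trace (EC B (-x)) :=
      h1.comp (differentiable_id.neg)
    exact (((((differentiable_const _).sub h1).sub h2).sub qC_diff).const_mul _) x
  · unfold mW
    rw [neg_neg, qC_neg]
    ring
  · have hn1 : ‖LC B x‖ = nC x := norm_LC B x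
    have hn2 : ‖LC B (-x)‖ = nC x := by rw [norm_LC, N991.MK.nC_neg]
    have h1 := hb (LC B x) (by rw [hn1]; linarith)
    have h2 := hb (LC B (-x)) (by rw [hn2]; linarith)
    rw [hn1] at h1
    rw [hn2] at h2
    have e : 2 * N - trace (EC B x) - trace (EC B (-x)) - qC x =
        -(trl N (EC B x - (1 + LC B x + (1 / 2 : ℂ) • LC B x ^ 2 + (1 / 6 : ℂ) • LC B x ^ 3)) +
          trl N (EC B (-x) - (1 + LC B (-x) + (1 / 2 : ℂ) • LC B (-x) ^ 2 +
            (1 / 6 : ℂ) • LC B (-x) ^ 3))) := by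
      have hq := qC_eq B x
      rw [LC_neg, hq]
      simp only [map_sub, map_add, map_smul, trl_apply, smul_eq_mul, map_neg, neg_sq, trace_one,
        Fintype.card_fin]
      have h3 : (-LC B x) ^ 3 = -(LC B x) ^ 3 := by noncomm_ring
      rw [h3, trace_neg, sq]
      ring
    unfold mW
    rw [e, norm_mul, norm_neg]
    have h3 : ‖(β / 2 : ℂ)‖ = β / 2 := by
      have : (β / 2 : ℂ) = ((β / 2 : ℝ) : ℂ) := by push_cast; rfl
      rw [this, Complex.norm_real, Real.norm_eq_abs, abs_of_nonneg (by positivity)]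
    rw [h3]
    have h4 := norm_trace_le (EC B x - (1 + LC B x + (1 / 2 : ℂ) • LC B x ^ 2 +
      (1 / 6 : ℂ) • LC B x ^ 3))
    have h5 := norm_trace_le (EC B (-x) - (1 + LC B (-x) + (1 / 2 : ℂ) • LC B (-x) ^ 2 +
      (1 / 6 : ℂ) • LC B (-x) ^ 3))
    have h6 := norm_add_le
      (trl N (EC B x - (1 + LC B x + (1 / 2 : ℂ) • LC B x ^ 2 + (1 / 6 : ℂ) • LC B x ^ 3)))
      (trl N (EC B (-x) - (1 + LC B (-x) + (1 / 2 : ℂ) • LC B (-x) ^ 2 +
            (1 / 6 : ℂ) • LC B (-x) ^ 3)))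
    rw [trl_apply, trl_apply] at h6
    rw [trl_apply, trl_apply]
    have h7 : 2 * ‖(1 : Mat N)‖ * ‖EC B x - (1 + LC B x + (1 / 2 : ℂ) • LC B x ^ 2 +
      (1 / 6 : ℂ) • LC B x ^ 3)‖ ≤ 2 * ‖(1 : Mat N)‖ * (C * nC x ^ 4) :=
      mul_le_mul_of_nonneg_left h1 (by positivity)
    have h8 : 2 * ‖(1 : Mat N)‖ * ‖EC B (-x) - (1 + LC B (-x) + (1 / 2 : ℂ) • LC B (-x) ^ 2 +
      (1 / 6 : ℂ) • LC B (-x) ^ 3)‖ ≤ 2 * ‖(1 : Mat N)‖ * (C * nC x ^ 4) :=
      mul_le_mul_of_nonneg_left h2 (by positivity)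
    calc _ ≤ β / 2 * (2 * (2 * ‖(1 : Mat N)‖ * (C * nC x ^ 4))) := by
          refine mul_le_mul_of_nonneg_left ?_ (by positivity)
          linarith
      _ = _ := by ring

end

end Pool.Agent.N991.MK
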