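import Mathlib
import Pool.Agent.N991.MK.Far
import Pool.Agent.N991.MK.Tube3

/-!
# Bilinear forms of the tube estimates
-/

open MeasureTheory Matrix Filter
open scoped Matrix.Norms.Frobenius ContDiff Topology
open Pool.Agent.H906R3.YM Pool.Agent.W793.YM Pool.Agent.TH618.YM Pool.Agent.N984.TW

namespace Pool.Agent.N991.MK

set_option linter.unusedSectionVars false

noncomputable section

variable {N n : ℕ} {G : Subgroup (UN N)} {B : Frame G n} (hG : IsClosed (G : Set (UN N)))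

variable (B) in
/-- the tube bound of a difference -/
structure TB (r k c : ℝ) (D : (Mat N)ˣ → ℂ) : Prop where
  near : ∀ (a : Fin n → ℝ) (y : G), nE a ^ 2 + nN y ^ 2 ≤ (0.95 * r) ^ 2 →
    ‖D (uE B (Complex.I • rl a) * uG y)‖ ≤
      c * Real.exp (k / 2 * (1.003 * nE a ^ 2 - 0.997 * nN y ^ 2))
  tube : ∀ (a : Fin n → ℝ) (y : G), nE a ≤ 0.51 * r → (0.95 * r) ^ 2 < nE a ^ 2 + nN y ^ 2 →
    ‖D (uE B (Complex.I • rl a) * uG y)‖ ≤
      c * Real.exp (k / 2 * (1.01 * nE a ^ 2 - 0.99 * min (nN y) r ^ 2))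

lemma TB.full {r k c : ℝ} {D : (Mat N)ˣ → ℂ} (h : TB B r k c D) (hr : 0 < r) (hk : 0 ≤ k)
    (hc : 0 ≤ c) (a : Fin n → ℝ) (y : G) (ha : nE a ≤ 0.51 * r) :
    ‖D (uE B (Complex.I • rl a) * uG y)‖ ≤
      c * Real.exp (k / 2 * (1.01 * nE a ^ 2 - 0.99 * min (nN y) r ^ 2)) := by
  rcases le_or_gt (nE a ^ 2 + nN y ^ 2) ((0.95 * r) ^ 2) with h1 | h1
  · refine (h.near a y h1).trans (mul_le_mul_of_nonneg_left (Real.exp_le_exp.2 ?_) hc)
    refine mul_le_mul_of_nonneg_left ?_ (by positivity)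
    have hy0 := nN_nonneg y
    have h2 : min (nN y) r ^ 2 ≤ nN y ^ 2 :=
      pow_le_pow_left₀ (le_min hy0 hr.le) (min_le_left _ _) 2
    nlinarith [sq_nonneg (nE a), sq_nonneg (nN y)]
  · exact h.tube a y ha h1

lemma m_small2 {r k M c e : ℝ} (hM : M * r ^ 2 ≤ e * k) (hc : 0 ≤ c) (hcr : c < r)
    (he : 0 ≤ e * k) : M * c ^ 4 ≤ e * k * c ^ 2 := by
  have h1 : c ^ 2 ≤ r ^ 2 := by nlinarith
  rcases le_or_gt M 0 with h | h
  · have h2 : M * c ^ 4 ≤ 0 := mul_nonpos_of_nonpos_of_nonneg h (by positivity)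
    have : 0 ≤ e * k * c ^ 2 := by positivity
    linarith
  · calc M * c ^ 4 = M * c ^ 2 * c ^ 2 := by ring
      _ ≤ M * r ^ 2 * c ^ 2 := by gcongr
      _ ≤ e * k * c ^ 2 := by gcongr

lemma NearS.upper2 {r k M : ℝ} {F : (Mat N)ˣ → ℂ} (h : NearS B r k M F) (hk : 0 ≤ k)
    (hM : M * r ^ 2 ≤ k / 2000) {x : Fin n → ℂ} (hx : nC x < r) :
    ‖F (uE B x)‖ ≤ ‖F 1‖ * Real.exp (k / 2 * (1.001 * nE (imP x) ^ 2 - 0.999 * nE (reP x) ^ 2)) := by
  obtain ⟨t, ht, e⟩ := h.norm_eq hx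
  rw [e]
  refine mul_le_mul_of_nonneg_left (Real.exp_le_exp.2 ?_) (norm_nonneg _)
  have h1 := m_small2 (e := 1 / 2000) (k := k) (M := M) (r := r) (by linarith) (nC_nonneg x) hx
    (by positivity)
  have h2 := nE_re_im x
  have h3 := neg_abs_le t
  rw [h2] at h1
  have h4 : -t ≤ 1 / 2000 * k * (nE (reP x) ^ 2 + nE (imP x) ^ 2) := by linarith
  nlinarith

lemma NearS.lower2 {r k M : ℝ} {F : (Mat N)ˣ → ℂ} (h : NearS B r k M F) (hk : 0 ≤ k)
    (hM : M * r ^ 2 ≤ k / 2000) {x : Fin n → ℂ} (hx : nC x < r) :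
    ‖F 1‖ * Real.exp (k / 2 * (0.999 * nE (imP x) ^ 2 - 1.001 * nE (reP x) ^ 2)) ≤
      ‖F (uE B x)‖ := by
  obtain ⟨t, ht, e⟩ := h.norm_eq hx
  rw [e]
  refine mul_le_mul_of_nonneg_left (Real.exp_le_exp.2 ?_) (norm_nonneg _)
  have h1 := m_small2 (e := 1 / 2000) (k := k) (M := M) (r := r) (by linarith) (nC_nonneg x) hx
    (by positivity)
  have h2 := nE_re_im x
  have h3 := le_abs_self t
  rw [h2] at h1
  have h4 : t ≤ 1 / 2000 * k * (nE (reP x) ^ 2 + nE (imP x) ^ 2) := by linarith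
  nlinarith

/-- (B1): the states satisfy the bound with every smaller coupling -/
theorem TB.of_state {r k k1 M : ℝ} {F : (Mat N)ˣ → ℂ} (hr : GoodR B r) (hk : 0 ≤ k)
    (hk1 : k ≤ k1) (hk2 : k1 ≤ 1.0001 * k) (hM : M * r ^ 2 ≤ k1 / 2000) (h : NearS B r k1 M F)
    (ht : Tube B r k1 F) : TB B r k ‖F 1‖ F := by
  have hp := hr.pos
  refine ⟨fun a y hay => ?_, fun a y ha hay => ?_⟩
  · have ha0 := nE_nonneg a
    have hy0 := nN_nonneg y
    have ha : nE a ≤ r := by nlinarith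
    have hy : nN y ≤ r := by nlinarith
    obtain ⟨x, e1, e2, e3, e4, e5⟩ := hr.near a y ha hy
    have h1 := nE_re_im x
    have h2 := nC_nonneg x
    have h3 := nE_nonneg (reP x)
    have h4 := nE_nonneg (imP x)
    have h5 : nE (reP x) ^ 2 ≤ 1.001 * nN y ^ 2 := by nlinarith
    have h6 : nE (imP x) ^ 2 ≤ 1.0004 * nE a ^ 2 := by nlinarith
    have h7 : 0.9996 * nN y ^ 2 ≤ nE (reP x) ^ 2 := by nlinarith
    have hx : nC x < r := by
      have h8 : nC x ^ 2 ≤ 1.001 * (0.95 * r) ^ 2 := by nlinarith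
      nlinarith
    have h9 := h.upper2 (by linarith) hM hx
    rw [← e1]
    refine h9.trans (mul_le_mul_of_nonneg_left (Real.exp_le_exp.2 ?_) (norm_nonneg _))
    have k0 : 0 ≤ k1 := by linarith
    have a1 : k1 * (1.001 * nE (imP x) ^ 2) ≤ k1 * (1.0015 * nE a ^ 2) :=
      mul_le_mul_of_nonneg_left (by nlinarith [sq_nonneg (nE a)]) k0
    have a2 : k1 * (1.0015 * nE a ^ 2) ≤ 1.0001 * k * (1.0015 * nE a ^ 2) :=
      mul_le_mul_of_nonneg_right hk2 (by positivity)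
    have a3 : 0 ≤ k * nE a ^ 2 := by positivity
    have b1 : k1 * (0.998 * nN y ^ 2) ≤ k1 * (0.999 * nE (reP x) ^ 2) :=
      mul_le_mul_of_nonneg_left (by nlinarith [sq_nonneg (nN y)]) k0
    have b2 : k * (0.998 * nN y ^ 2) ≤ k1 * (0.998 * nN y ^ 2) :=
      mul_le_mul_of_nonneg_right hk1 (by positivity)
    have b3 : 0 ≤ k * nN y ^ 2 := by positivity
    linarith
  · have ha0 := nE_nonneg a
    have hy0 := nN_nonneg y
    refine (ht a y ha).trans (mul_le_mul_of_nonneg_left (Real.exp_le_exp.2 ?_) (norm_nonneg _))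
    have h1 : (0.8 * r) ^ 2 ≤ min (nN y) r ^ 2 := by
      refine pow_le_pow_left₀ (by positivity) (le_min ?_ (by linarith)) 2
      nlinarith
    have h2 : 1.01 * nE a ^ 2 - 0.99 * min (nN y) r ^ 2 ≤ 0 := by nlinarith
    nlinarith

variable [CompactSpace G] [MeasurableSpace G] [BorelSpace G]
  {μ : Measure G} [IsProbabilityMeasure μ] [μ.IsMulLeftInvariant] [μ.IsMulRightInvariant]
  [μ.IsInvInvariant]

/-- the pointwise bound of the integrand -/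
lemma tube_point2 {r k c1 c2 : ℝ} {D1 D2 : (Mat N)ˣ → ℂ} (hr : GoodR B r) (hk : 0 ≤ k)
    (hc1 : 0 ≤ c1) (hc2 : 0 ≤ c2) (h1 : TB B r k c1 D1) (h2 : TB B r k c2 D2) {a : Fin n → ℝ}
    (ha : nE a ≤ 0.255 * r) {s t : G} {L : ℝ} (hL : 0.7 * r ≤ L) (hst : L ≤ nN s + nN t) :
    ‖D1 (uE B (Complex.I • rl a) * uG s)‖ * ‖D2 (uE B (Complex.I • rl a) * uG t)‖ ≤
      c1 * c2 * Real.exp (k / 4 * (1.01 * (2 * nE a) ^ 2 - 0.99 * min L r ^ 2) -
        k * r ^ 2 / 2000) := by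
  have hp := hr.pos
  have ha0 := nE_nonneg a
  have hs0 := nN_nonneg s
  have ht0 := nN_nonneg t
  have key : ∀ E1 E2 : ℝ, ‖D1 (uE B (Complex.I • rl a) * uG s)‖ ≤ c1 * Real.exp E1 →
      ‖D2 (uE B (Complex.I • rl a) * uG t)‖ ≤ c2 * Real.exp E2 →
      E1 + E2 ≤ k / 4 * (1.01 * (2 * nE a) ^ 2 - 0.99 * min L r ^ 2) - k * r ^ 2 / 2000 →
      ‖D1 (uE B (Complex.I • rl a) * uG s)‖ * ‖D2 (uE B (Complex.I • rl a) * uG t)‖ ≤
      c1 * c2 * Real.exp (k / 4 * (1.01 * (2 * nE a) ^ 2 - 0.99 * min L r ^ 2) -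
        k * r ^ 2 / 2000) := by
    intro E1 E2 h1 h2 h3
    calc _ ≤ (c1 * Real.exp E1) * (c2 * Real.exp E2) :=
          mul_le_mul h1 h2 (norm_nonneg _) (by positivity)
      _ = c1 * c2 * Real.exp (E1 + E2) := by rw [Real.exp_add]; ring
      _ ≤ _ := mul_le_mul_of_nonneg_left (Real.exp_le_exp.2 h3) (by positivity)
  have hL0 : 0 ≤ L := by linarith
  have hkr : 0 ≤ k * r ^ 2 := by positivity
  by_cases hcase : nN s ≤ 0.7 * r ∧ nN t ≤ 0.7 * r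
  · obtain ⟨c1', c2'⟩ := hcase
    refine key _ _ (h1.near a s ?_) (h2.near a t ?_) ?_
    · nlinarith
    · nlinarith
    · have h1 : min L r ^ 2 ≤ L ^ 2 :=
        pow_le_pow_left₀ (le_min hL0 hp.le) (min_le_left _ _) 2
      have h2 : (0.7 * r) ^ 2 ≤ min L r ^ 2 :=
        pow_le_pow_left₀ (by positivity) (le_min hL (by linarith)) 2
      have h3 : L ^ 2 ≤ 2 * (nN s ^ 2 + nN t ^ 2) := by
        nlinarith [sq_nonneg (nN s - nN t)]
      have h4 : 0 ≤ k * nE a ^ 2 := by positivity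
      have h5 : k * min L r ^ 2 ≤ k * (2 * (nN s ^ 2 + nN t ^ 2)) :=
        mul_le_mul_of_nonneg_left (h1.trans h3) hk
      have h6 : k * (0.7 * r) ^ 2 ≤ k * min L r ^ 2 := mul_le_mul_of_nonneg_left h2 hk
      nlinarith
  · have h3 : 1 / 2 * min L r ^ 2 + 0.08 * r ^ 2 ≤ min (nN s) r ^ 2 + min (nN t) r ^ 2 := by
      rw [not_and_or, not_le, not_le] at hcase
      rcases hcase with h | h
      · exact phi_two hp h.le ht0 hst hL0
      · rw [add_comm (min (nN s) r ^ 2)]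
        exact phi_two hp h.le hs0 (by linarith) hL0
    refine key _ _ (h1.full hp hk hc1 a s (by linarith)) (h2.full hp hk hc2 a t (by linarith)) ?_
    have h4 : k * (1 / 2 * min L r ^ 2 + 0.08 * r ^ 2) ≤
        k * (min (nN s) r ^ 2 + min (nN t) r ^ 2) := mul_le_mul_of_nonneg_left h3 hk
    nlinarith

include hG in
/-- (B2): the convolution of two differences in the tube, away from the identity -/
theorem tube_conv2 (μ : Measure G) [IsProbabilityMeasure μ] [μ.IsMulLeftInvariant]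
    [μ.IsMulRightInvariant] [μ.IsInvInvariant] {r : ℝ} (hr : GoodR B r) (C1 : ℝ) (hC1 : 0 ≤ C1) :
    ∃ k0 : ℝ, 1 ≤ k0 ∧ ∀ {k k1 k' M : ℝ} {f : G → ℝ} {F : (Mat N)ˣ → ℂ}, k0 ≤ k → k ≤ k1 →
      k1 ≤ 1.0001 * k → |k' - k / 2| ≤ C1 → M * r ^ 2 ≤ k1 / 1000 → CF f F → NearS B r k1 M F →
      ‖F 1‖ = 1 → ∀ {c1 c2 : ℝ} {d1 d2 : G → ℝ} {D1 D2 : (Mat N)ˣ → ℂ}, 0 ≤ c1 → 0 ≤ c2 →
      CF d1 D1 → CF d2 D2 → TB B r k c1 D1 → TB B r k c2 D2 →
      ∀ (a : Fin n → ℝ) (y : G), nE a ≤ 0.51 * r → (0.95 * r) ^ 2 < nE a ^ 2 + nN y ^ 2 →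
      ‖convC μ D1 D2 (uE B (Complex.I • rl a) * uG y)‖ ≤
        1 / k ^ 2 * c1 * c2 * Real.exp (k' / 2 * (1.01 * nE a ^ 2 - 0.99 * min (nN y) r ^ 2)) *
          ∫ z, f z ^ 2 ∂μ := by
  have hp := hr.pos
  obtain ⟨k2, hk2, -, hnb⟩ := norm_beats (B := B) μ hr (r ^ 2 / 4000) (by positivity) 2
  refine ⟨max k2 (5000 * C1 / r ^ 2), hk2.trans (le_max_left _ _),
    fun {k k1 k' M f F} hk hkk1 hk1k hkk hM h hn hF1 {c1 c2 d1 d2 D1 D2} hc1 hc2 hd1 hd2 hT1 hT2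
      a y ha hcase => ?_⟩
  have hka : k2 ≤ k := (le_max_left _ _).trans hk
  have hkb : 5000 * C1 / r ^ 2 ≤ k := (le_max_right _ _).trans hk
  have hk1' : 1 ≤ k := hk2.trans hka
  have hk0 : 0 < k := by linarith
  have hkc : 5000 * C1 ≤ k * r ^ 2 := by
    rwa [div_le_iff₀ (by positivity)] at hkb
  rw [abs_le] at hkk
  have ha0 := nE_nonneg a
  have hy0 := nN_nonneg y
  have hy7 : 0.7 * r ≤ nN y := by nlinarith
  set a' : Fin n → ℝ := (1 / 2 : ℝ) • a with ha'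
  have ha'n : nE a' = nE a / 2 := by
    rw [ha', nE_smul, abs_of_pos (by norm_num : (0 : ℝ) < 1 / 2)]; ring
  have e1 : convC μ D1 D2 (uE B (Complex.I • rl a) * uG y) =
      ∫ z : G, D1 (uE B (Complex.I • rl a') * uG z) *
        D2 (uE B (Complex.I • rl a') * uG (y * z⁻¹)) ∂μ := by
    rw [uE_half, mul_assoc, convC_shift B hG hd1.hol hd2.hol]
    refine integral_congr_ae (Eventually.of_forall fun z => ?_)
    beta_reduce
    rw [hd2.swap', mul_assoc, ← map_mul]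
  have hE : k / 4 * (1.01 * nE a ^ 2 - 0.99 * min (nN y) r ^ 2) ≤
      k' / 2 * (1.01 * nE a ^ 2 - 0.99 * min (nN y) r ^ 2) + C1 := by
    have h2 : min (nN y) r ^ 2 ≤ r ^ 2 :=
      pow_le_pow_left₀ (le_min hy0 hp.le) (min_le_right _ _) 2
    have h3 := sq_nonneg (min (nN y) r)
    have h4 : r ≤ 1 := hr.le.trans (by norm_num)
    have h5 : |1.01 * nE a ^ 2 - 0.99 * min (nN y) r ^ 2| ≤ 2 := by
      rw [abs_le]; constructor <;> nlinarith
    have h6 : |(k / 4 - k' / 2) * (1.01 * nE a ^ 2 - 0.99 * min (nN y) r ^ 2)| ≤ C1 / 2 * 2 := by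
      rw [abs_mul]
      refine mul_le_mul ?_ h5 (abs_nonneg _) (by positivity)
      rw [abs_le]; constructor <;> linarith
    have h7 := le_abs_self ((k / 4 - k' / 2) * (1.01 * nE a ^ 2 - 0.99 * min (nN y) r ^ 2))
    linarith
  set E := k' / 2 * (1.01 * nE a ^ 2 - 0.99 * min (nN y) r ^ 2) with hEdef
  have hpt : ∀ z : G, ‖D1 (uE B (Complex.I • rl a') * uG z) *
        D2 (uE B (Complex.I • rl a') * uG (y * z⁻¹))‖ ≤
      c1 * c2 * Real.exp (E + (C1 - r ^ 2 / 2000 * k)) := by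
    intro z
    rw [norm_mul]
    have hL : nN y ≤ nN z + nN (y * z⁻¹) := by
      have := nN_mul_le (y * z⁻¹) z
      rw [inv_mul_cancel_right] at this
      linarith
    refine (tube_point2 hr hk0.le hc1 hc2 hT1 hT2 (a := a') (by rw [ha'n]; linarith) hy7 hL).trans ?_
    refine mul_le_mul_of_nonneg_left (Real.exp_le_exp.2 ?_) (by positivity)
    rw [ha'n]
    have : (2 * (nE a / 2)) ^ 2 = nE a ^ 2 := by ring
    rw [this]
    linarith
  rw [e1]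
  have h8 : ‖∫ z : G, D1 (uE B (Complex.I • rl a') * uG z) *
        D2 (uE B (Complex.I • rl a') * uG (y * z⁻¹)) ∂μ‖ ≤
      c1 * c2 * Real.exp (E + (C1 - r ^ 2 / 2000 * k)) := by
    have h9 := norm_integral_le_of_norm_le_const (μ := μ) (Eventually.of_forall hpt)
    simpa using h9
  refine h8.trans ?_
  have h10 := hnb (hka.trans hkk1) hM h hn
  rw [hF1, one_pow, one_mul] at h10
  have h11 : Real.exp (C1 - r ^ 2 / 2000 * k) ≤ 1 / k ^ 2 * ∫ z, f z ^ 2 ∂μ := by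
    have h12 : Real.exp (C1 - r ^ 2 / 2000 * k) ≤ Real.exp (-(r ^ 2 / 4000 * k1)) := by
      refine Real.exp_le_exp.2 ?_
      have h13 : k1 * r ^ 2 ≤ 1.0001 * k * r ^ 2 :=
        mul_le_mul_of_nonneg_right hk1k (by positivity)
      linarith
    refine (h12.trans h10).trans (mul_le_mul_of_nonneg_right ?_ (int_sq_nonneg f))
    exact one_div_le_one_div_of_le (by positivity) (pow_le_pow_left₀ hk0.le hkk1 2)
  calc c1 * c2 * Real.exp (E + (C1 - r ^ 2 / 2000 * k))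
      = c1 * c2 * Real.exp E * Real.exp (C1 - r ^ 2 / 2000 * k) := by rw [Real.exp_add]; ring
    _ ≤ c1 * c2 * Real.exp E * (1 / k ^ 2 * ∫ z, f z ^ 2 ∂μ) := by gcongr
    _ = _ := by ring

/-- the pointwise far bound -/
lemma far_point2 {r k k1 M c1 c2 : ℝ} {F D1 D2 : (Mat N)ˣ → ℂ} {d2 : G → ℝ} (hr : GoodR B r)
    (hk : 0 ≤ k) (hk1 : k ≤ k1) (hk2 : k1 ≤ 1.0001 * k) (hM : M * r ^ 2 ≤ k1 / 2000)
    (hn : NearS B r k1 M F) (hF1 : ‖F 1‖ = 1) (hc1 : 0 ≤ c1) (hc2 : 0 ≤ c2)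
    (hd2 : CF d2 D2) (h1 : TB B r k c1 D1) (h2 : TB B r k c2 D2)
    {w : Fin n → ℂ} (hw : nC w ≤ r / 2) {z : G} (hz : r / 4 ≤ nN z) :
    ‖D1 (uE B w * uG z) * D2 ((uG z)⁻¹ * uE B w)‖ ≤
      c1 * c2 * ‖F (uE B w)‖ ^ 2 * Real.exp (-(0.05 * r ^ 2 * k)) := by
  have hp := hr.pos
  obtain ⟨a, g, e1, e2, e3, e4⟩ := hr.polar w (by linarith)
  have hw0 := nC_nonneg w
  have hri := nE_re_im w
  have hR := nE_nonneg (reP w)
  have hI := nE_nonneg (imP w)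
  have hIr : nE (imP w) ≤ r / 2 := (nE_im_le w).trans hw
  have ha51 : nE a ≤ 0.51 * r := by linarith
  rw [norm_mul, hd2.swap', e1, mul_assoc, mul_assoc, ← map_mul, ← map_mul]
  have t1 := h1.full hp hk hc1 a (g * z) ha51
  have t2 := h2.full hp hk hc2 a (g * z⁻¹) ha51
  have hlow := hn.lower2 (by linarith) hM (x := w) (by linarith)
  rw [e1, hF1, one_mul] at hlow
  have hIR : nE (imP w) ^ 2 + nE (reP w) ^ 2 ≤ r ^ 2 / 4 := by
    have h1 : nC w ^ 2 ≤ (r / 2) ^ 2 := pow_le_pow_left₀ hw0 hw 2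
    rw [div_pow] at h1
    norm_num at h1
    linarith
  have hreal := far_real (r := r) (I := nE (imP w)) (R := nE (reP w)) (a := nE a) (u := nN g)
    (p := nN (g * z)) (q := nN (g * z⁻¹)) hp hr.le hI hR hIR (nE_nonneg a) e2
    (nN_nonneg g) (by linarith) (by linarith) hz (nN_par g z)
  have hkk : k * (0.998 * nE (imP w) ^ 2 - 1.002 * nE (reP w) ^ 2) ≤
      k1 * (0.999 * nE (imP w) ^ 2 - 1.001 * nE (reP w) ^ 2) := by
    have a1 : k * (0.998 * nE (imP w) ^ 2) ≤ k1 * (0.999 * nE (imP w) ^ 2) := by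
      have h3 := mul_le_mul_of_nonneg_right hk1 (sq_nonneg (nE (imP w)))
      have h4 : 0 ≤ k * nE (imP w) ^ 2 := by positivity
      nlinarith
    have a2 : k1 * (1.001 * nE (reP w) ^ 2) ≤ k * (1.002 * nE (reP w) ^ 2) := by
      have h3 := mul_le_mul_of_nonneg_right hk2 (sq_nonneg (nE (reP w)))
      have h4 : 0 ≤ k * nE (reP w) ^ 2 := by positivity
      nlinarith
    linarith
  calc ‖D1 (uE B (Complex.I • rl a) * uG (g * z))‖ * ‖D2 (uE B (Complex.I • rl a) * uG (g * z⁻¹))‖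
      ≤ (c1 * Real.exp (k / 2 * (1.01 * nE a ^ 2 - 0.99 * min (nN (g * z)) r ^ 2))) *
        (c2 * Real.exp (k / 2 * (1.01 * nE a ^ 2 - 0.99 * min (nN (g * z⁻¹)) r ^ 2))) :=
        mul_le_mul t1 t2 (norm_nonneg _) (by positivity)
    _ = c1 * c2 * Real.exp (k * (1.01 * nE a ^ 2 -
          0.495 * (min (nN (g * z)) r ^ 2 + min (nN (g * z⁻¹)) r ^ 2))) := by
        have : k * (1.01 * nE a ^ 2 -
          0.495 * (min (nN (g * z)) r ^ 2 + min (nN (g * z⁻¹)) r ^ 2)) =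
          k / 2 * (1.01 * nE a ^ 2 - 0.99 * min (nN (g * z)) r ^ 2) +
          k / 2 * (1.01 * nE a ^ 2 - 0.99 * min (nN (g * z⁻¹)) r ^ 2) := by ring
        rw [this, Real.exp_add]
        ring
    _ ≤ c1 * c2 * Real.exp (k1 * (0.999 * nE (imP w) ^ 2 - 1.001 * nE (reP w) ^ 2) +
          -(0.05 * r ^ 2 * k)) := by
        refine mul_le_mul_of_nonneg_left (Real.exp_le_exp.2 ?_) (by positivity)
        have h9 := mul_le_mul_of_nonneg_left hreal hk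
        linarith
    _ = c1 * c2 * (Real.exp (k1 / 2 * (0.999 * nE (imP w) ^ 2 - 1.001 * nE (reP w) ^ 2))) ^ 2 *
          Real.exp (-(0.05 * r ^ 2 * k)) := by
        rw [Real.exp_add, ← Real.exp_nat_mul]
        have : k1 * (0.999 * nE (imP w) ^ 2 - 1.001 * nE (reP w) ^ 2) =
          ((2 : ℕ) : ℝ) * (k1 / 2 * (0.999 * nE (imP w) ^ 2 - 1.001 * nE (reP w) ^ 2)) := by
          push_cast; ring
        rw [this]
        ring
    _ ≤ _ := by
        refine mul_le_mul_of_nonneg_right ?_ (Real.exp_pos _).le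
        exact mul_le_mul_of_nonneg_left (pow_le_pow_left₀ (Real.exp_pos _).le hlow 2)
          (by positivity)

/-- (B3): the far part of the convolution of two differences -/
theorem far2 (μ : Measure G) [IsProbabilityMeasure μ] [μ.IsMulLeftInvariant]
    [μ.IsMulRightInvariant] [μ.IsInvInvariant] {r : ℝ} (hr : GoodR B r) :
    ∃ k0 : ℝ, 1 ≤ k0 ∧ ∀ {k k1 M : ℝ} {f : G → ℝ} {F : (Mat N)ˣ → ℂ}, k0 ≤ k → k ≤ k1 →
      k1 ≤ 1.0001 * k → M * r ^ 2 ≤ k1 / 2000 → CF f F → NearS B r k1 M F →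
      ‖F 1‖ = 1 → ∀ {c1 c2 : ℝ} {d1 d2 : G → ℝ} {D1 D2 : (Mat N)ˣ → ℂ}, 0 ≤ c1 → 0 ≤ c2 →
      CF d1 D1 → CF d2 D2 → TB B r k c1 D1 → TB B r k c2 D2 →
      ∀ x : Fin n → ℂ, nC x ≤ r →
      ‖∫ z in {z : G | r / 4 < nN z}, D1 (uE B ((1 / 2 : ℂ) • x) * uG z) *
        D2 ((uG z)⁻¹ * uE B ((1 / 2 : ℂ) • x)) ∂μ‖ ≤
      1 / k ^ 2 * Real.exp (-(0.01 * r ^ 2 * k)) * c1 * c2 *
        ‖F (uE B ((1 / 2 : ℂ) • x))‖ ^ 2 * ∫ z, f z ^ 2 ∂μ := by
  have hp := hr.pos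
  obtain ⟨k0, hk0, -, hb⟩ := norm_beats (B := B) μ hr (0.03 * r ^ 2) (by positivity) 2
  refine ⟨k0, hk0, fun {k k1 M f F} hk hkk1 hk1k hM h hn hF1 {c1 c2 d1 d2 D1 D2} hc1 hc2 hd1 hd2
    hT1 hT2 x hx => ?_⟩
  have hk' : 0 < k := by linarith
  have hw : nC ((1 / 2 : ℂ) • x) ≤ r / 2 := by
    rw [nC_smul]
    norm_num
    linarith
  set w := (1 / 2 : ℂ) • x with hwdef
  have h1 : ‖∫ z in {z : G | r / 4 < nN z}, D1 (uE B w * uG z) * D2 ((uG z)⁻¹ * uE B w) ∂μ‖ ≤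
      c1 * c2 * ‖F (uE B w)‖ ^ 2 * Real.exp (-(0.05 * r ^ 2 * k)) := by
    have h2 := norm_setIntegral_le_of_norm_le_const (μ := μ) (s := {z : G | r / 4 < nN z})
      (C := c1 * c2 * ‖F (uE B w)‖ ^ 2 * Real.exp (-(0.05 * r ^ 2 * k)))
      (f := fun z => D1 (uE B w * uG z) * D2 ((uG z)⁻¹ * uE B w)) (measure_lt_top _ _)
      (fun z hz => far_point2 hr hk'.le hkk1 hk1k hM hn hF1 hc1 hc2 hd2 hT1 hT2 hw (le_of_lt hz))
    refine h2.trans ?_
    have h3 : μ.real {z : G | r / 4 < nN z} ≤ 1 := measureReal_le_one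
    calc _ ≤ c1 * c2 * ‖F (uE B w)‖ ^ 2 * Real.exp (-(0.05 * r ^ 2 * k)) * 1 := by gcongr
      _ = _ := mul_one _
  have hM' : M * r ^ 2 ≤ k1 / 1000 := by linarith
  have h4 := hb (hk.trans hkk1) hM' h hn
  rw [hF1, one_pow, one_mul] at h4
  have h5 : Real.exp (-(0.05 * r ^ 2 * k)) ≤
      Real.exp (-(0.01 * r ^ 2 * k)) * (1 / k ^ 2 * ∫ z, f z ^ 2 ∂μ) := by
    have h6 : Real.exp (-(0.05 * r ^ 2 * k)) ≤
        Real.exp (-(0.01 * r ^ 2 * k)) * Real.exp (-(0.03 * r ^ 2 * k1)) := by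
      rw [← Real.exp_add]
      refine Real.exp_le_exp.2 ?_
      have h13 : k1 * r ^ 2 ≤ 1.0001 * k * r ^ 2 :=
        mul_le_mul_of_nonneg_right hk1k (by positivity)
      have h14 : 0 ≤ k * r ^ 2 := by positivity
      linarith
    refine h6.trans (mul_le_mul_of_nonneg_left (h4.trans
      (mul_le_mul_of_nonneg_right ?_ (int_sq_nonneg f))) (Real.exp_pos _).le)
    exact one_div_le_one_div_of_le (by positivity) (pow_le_pow_left₀ hk'.le hkk1 2)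
  calc _ ≤ c1 * c2 * ‖F (uE B w)‖ ^ 2 * Real.exp (-(0.05 * r ^ 2 * k)) := h1
    _ ≤ c1 * c2 * ‖F (uE B w)‖ ^ 2 *
        (Real.exp (-(0.01 * r ^ 2 * k)) * (1 / k ^ 2 * ∫ z, f z ^ 2 ∂μ)) := by gcongr
    _ = _ := by ring

end

end Pool.Agent.N991.MK
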