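import Mathlib
import Pool.Agent.N988.MK.Pair5

/-!
# Tangent vectors of states
-/

open MeasureTheory Filter Metric Asymptotics Matrix
open scoped Matrix.Norms.Frobenius Topology ContDiff
open Pool.Agent.H906R3.YM Pool.Agent.W793.YM Pool.Agent.TH618.YM Pool.Agent.N984.TW
open Pool.Agent.N988.MK (IsoG St cf_smul qC qC_diff far_neg norm_qC_le)

namespace Pool.Agent.N991.MK

set_option linter.unusedSectionVars false

noncomputable section

variable {N n : ℕ} {G : Subgroup (UN N)} {B : Frame G n}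

/-- a tangent vector (numerator) of a normalised state -/
structure Tg (B : Frame G n) (r k a lam L : ℝ) (F H : (Mat N)ˣ → ℂ)
    (η : (Fin n → ℂ) → ℂ) : Prop where
  lam0 : 0 ≤ lam
  L0 : 0 ≤ L
  near : ∀ x, nC x < r → H (uE B x) = F (uE B x) * (-(a / 2) * qC x - η x)
  md : ∀ x, nC x < r → DifferentiableAt ℂ η x
  even : ∀ x, nC x < r → η (-x) = η x
  bd : ∀ x, nC x < r → ‖η x‖ ≤ lam * nC x ^ 4
  far : ∀ (v : Fin n → ℝ) (y : G), nE v ≤ 0.51 * r → (0.95 * r) ^ 2 < nE v ^ 2 + nN y ^ 2 →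
    ‖H (uE B (Complex.I • rl v) * uG y)‖ ≤
      L * Real.exp (k / 2 * (1.01 * nE v ^ 2 - 0.99 * min (nN y) r ^ 2))

variable (B) in
/-- the strict form of the tube bound, away from the identity -/
def TubeS (r k : ℝ) (F : (Mat N)ˣ → ℂ) : Prop :=
  ∀ (v : Fin n → ℝ) (y : G), nE v ≤ 0.51 * r → (0.95 * r) ^ 2 < nE v ^ 2 + nN y ^ 2 →
    ‖F (uE B (Complex.I • rl v) * uG y)‖ ≤
      1 / 2 * ‖F 1‖ * Real.exp (k / 2 * (1.01 * nE v ^ 2 - 0.99 * min (nN y) r ^ 2))

variable {r k M a lam L : ℝ} {F H : (Mat N)ˣ → ℂ} {m η : (Fin n → ℂ) → ℂ}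

/-- the logarithmic derivative -/
def phT (a : ℝ) (η : (Fin n → ℂ) → ℂ) (x : Fin n → ℂ) : ℂ := -(a / 2) * qC x - η x

/-- the quartic remainder of the perturbed state -/
def mT (a t : ℝ) (m η : (Fin n → ℂ) → ℂ) (x : Fin n → ℂ) : ℂ :=
  m x - Complex.log (1 + t * phT a η x) - (t * a / 2) * qC x

lemma Tg.phT_le (h : Tg B r k a lam L F H η) (hr : r ≤ 1) (ha : |a| + lam + L ≤ 1)
    {x : Fin n → ℂ} (hx : nC x < r) : ‖phT a η x‖ ≤ nC x ^ 2 := by
  have h0 := nC_nonneg x
  have h1 := h.bd x hx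
  have h2 := norm_qC_le x
  have h3 := h.lam0
  have h4 := h.L0
  unfold phT
  refine (norm_sub_le _ _).trans ?_
  rw [norm_mul, norm_neg]
  have e : ‖((a : ℂ) / 2)‖ = |a| / 2 := by
    rw [norm_div, Complex.norm_real, Real.norm_eq_abs]
    norm_num
  rw [e]
  have h5 : nC x ^ 2 ≤ 1 := by
    have : nC x ≤ 1 := by linarith
    exact pow_le_one₀ h0 this
  have h6 : lam * nC x ^ 4 ≤ lam * nC x ^ 2 := by
    refine mul_le_mul_of_nonneg_left ?_ h3
    have e4 : nC x ^ 4 = nC x ^ 2 * nC x ^ 2 := by ring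
    rw [e4]
    exact mul_le_of_le_one_right (by positivity) h5
  have h7 : |a| / 2 * ‖qC x‖ ≤ |a| / 2 * nC x ^ 2 :=
    mul_le_mul_of_nonneg_left h2 (by positivity)
  have h8 := abs_nonneg a
  have h9 : 0 ≤ nC x ^ 2 := by positivity
  calc |a| / 2 * ‖qC x‖ + ‖η x‖ ≤ |a| / 2 * nC x ^ 2 + lam * nC x ^ 2 := by linarith
    _ = (|a| / 2 + lam) * nC x ^ 2 := by ring
    _ ≤ 1 * nC x ^ 2 := mul_le_mul_of_nonneg_right (by linarith) h9
    _ = _ := one_mul _

/-- the perturbed state near the identity -/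
theorem Tg.st (h : Tg B r k a lam L F H η) (hr : r ≤ 1) (ha : |a| + lam + L ≤ 1)
    (hs : St B r k M F m) (h1 : F 1 = 1) (hH : H 1 = 0) {t : ℝ} (ht : |t| ≤ 1 / 2) :
    St B r (k + t * a) (M + 2 * |t|) (fun u => F u + t * H u) (mT a t m η) ∧
    ∀ x, nC x < r → ‖mT a t m η x - m x‖ ≤ 2 * |t| * nC x ^ 4 := by
  have hlam := h.lam0
  have hL := h.L0
  have ht0 := abs_nonneg t
  have hph : ∀ x, nC x < r → ‖(t : ℂ) * phT a η x‖ ≤ |t| * nC x ^ 2 := by
    intro x hx
    rw [norm_mul, Complex.norm_real, Real.norm_eq_abs]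
    exact mul_le_mul_of_nonneg_left (h.phT_le hr ha hx) ht0
  have hx1 : ∀ x : Fin n → ℂ, nC x < r → nC x ^ 2 ≤ 1 := fun x hx =>
    pow_le_one₀ (nC_nonneg x) (by linarith)
  have hsm : ∀ x, nC x < r → ‖(t : ℂ) * phT a η x‖ ≤ 1 / 2 := by
    intro x hx
    refine (hph x hx).trans ?_
    have := mul_le_mul ht (hx1 x hx) (by positivity) (by norm_num)
    linarith
  have hslit : ∀ x, nC x < r → 1 + (t : ℂ) * phT a η x ∈ Complex.slitPlane := by
    intro x hx
    left
    have h2 := Complex.abs_re_le_norm ((t : ℂ) * phT a η x)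
    have h3 := hsm x hx
    rw [Complex.add_re, Complex.one_re]
    have := neg_abs_le ((t : ℂ) * phT a η x).re
    linarith
  have hdiff : ∀ x, nC x < r → ‖mT a t m η x - m x‖ ≤ 2 * |t| * nC x ^ 4 := by
    intro x hx
    have e : mT a t m η x - m x = -(Complex.log (1 + t * phT a η x) - t * phT a η x) +
        t * η x := by
      unfold mT phT
      ring
    rw [e]
    refine (norm_add_le _ _).trans ?_
    rw [norm_neg]
    have h2 := Complex.norm_log_one_add_sub_self_le (z := (t : ℂ) * phT a η x)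
      (by linarith [hsm x hx])
    have h3 : (1 - ‖(t : ℂ) * phT a η x‖)⁻¹ ≤ 2 := by
      rw [inv_le_comm₀ (by linarith [hsm x hx]) (by norm_num)]
      linarith [hsm x hx]
    have h4 : ‖(t : ℂ) * phT a η x‖ ^ 2 ≤ (|t| * nC x ^ 2) ^ 2 :=
      pow_le_pow_left₀ (norm_nonneg _) (hph x hx) 2
    have h5 : ‖(t : ℂ) * phT a η x‖ ^ 2 * (1 - ‖(t : ℂ) * phT a η x‖)⁻¹ / 2 ≤
        (|t| * nC x ^ 2) ^ 2 := by
      have h6 : ‖(t : ℂ) * phT a η x‖ ^ 2 * (1 - ‖(t : ℂ) * phT a η x‖)⁻¹ ≤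
          (|t| * nC x ^ 2) ^ 2 * 2 :=
        mul_le_mul h4 h3 (inv_nonneg.2 (by linarith [hsm x hx])) (by positivity)
      linarith
    have h7 : ‖(t : ℂ) * η x‖ ≤ |t| * (lam * nC x ^ 4) := by
      rw [norm_mul, Complex.norm_real, Real.norm_eq_abs]
      exact mul_le_mul_of_nonneg_left (h.bd x hx) ht0
    have hn4 : 0 ≤ nC x ^ 4 := by have := nC_nonneg x; positivity
    have h8 : (|t| * nC x ^ 2) ^ 2 ≤ |t| * nC x ^ 4 := by
      have e2 : (|t| * nC x ^ 2) ^ 2 = |t| * |t| * nC x ^ 4 := by ring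
      rw [e2]
      refine mul_le_mul_of_nonneg_right ?_ hn4
      exact mul_le_of_le_one_right ht0 (by linarith)
    have h9 : |t| * (lam * nC x ^ 4) ≤ |t| * nC x ^ 4 := by
      refine mul_le_mul_of_nonneg_left ?_ ht0
      have := abs_nonneg a
      exact mul_le_of_le_one_left hn4 (by linarith)
    linarith
  refine ⟨⟨fun x hx => ?_, fun x hx => ?_, fun x hx => ?_, fun x hx => ?_⟩, hdiff⟩
  · 
    rw [h.near x hx, hH, mul_zero, add_zero, h1, one_mul]
    have e : F (uE B x) + (t : ℂ) * (F (uE B x) * (-(a / 2) * qC x - η x)) =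
        F (uE B x) * (1 + t * phT a η x) := by
      unfold phT
      ring
    have hne : 1 + (t : ℂ) * phT a η x ≠ 0 := Complex.slitPlane_ne_zero (hslit x hx)
    rw [e, hs.eq x hx, h1, one_mul]
    have e2 : -(((k + t * a : ℝ) : ℂ) / 2) * qC x - mT a t m η x =
        (-((k : ℂ) / 2) * qC x - m x) + Complex.log (1 + t * phT a η x) := by
      unfold mT
      push_cast
      ring
    rw [e2, Complex.exp_add, Complex.exp_log hne]
  · have h2 : DifferentiableAt ℂ (phT a η) x := by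
      unfold phT
      exact ((differentiableAt_const _).mul (qC_diff x)).sub (h.md x hx)
    have h3 : DifferentiableAt ℂ (fun x => 1 + (t : ℂ) * phT a η x) x :=
      (differentiableAt_const _).add ((differentiableAt_const _).mul h2)
    have h4 : DifferentiableAt ℂ (fun x => Complex.log (1 + (t : ℂ) * phT a η x)) x :=
      h3.clog (hslit x hx)
    exact ((hs.md x hx).sub h4).sub ((differentiableAt_const _).mul (qC_diff x))
  · unfold mT phT
    rw [hs.even x hx, h.even x hx, N988.MK.qC_neg]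
  · have h2 := hs.bd x hx
    have h3 := hdiff x hx
    have e : mT a t m η x = m x + (mT a t m η x - m x) := by ring
    rw [e]
    refine (norm_add_le _ _).trans ?_
    linarith

/-- the tube bound of the perturbed state -/
theorem Tg.tube (h : Tg B r k a lam L F H η) (hgr : GoodR B r) (ha : |a| + lam + L ≤ 1)
    (hs : St B r k M F m) (h1 : F 1 = 1) (hH : H 1 = 0) (hS : TubeS B r k F) {t : ℝ}
    (ht : |t| ≤ 1 / 100) (hk : 1 ≤ k) (hM : (M + 1) * r ^ 2 ≤ k / 2000) :
    Tube B r (k + t * a) (fun u => F u + t * H u) := by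
  have hr := hgr.pos
  have hr1 : r ≤ 1 := by have := hgr.le; linarith
  have hlam := h.lam0
  have hL := h.L0
  have ha0 := abs_nonneg a
  have ht0 := abs_nonneg t
  have hta : |t * a| ≤ 1 / 100 := by
    rw [abs_mul]
    have := mul_le_mul ht (show |a| ≤ 1 by linarith) ha0 (by norm_num)
    linarith
  have hta' := abs_le.1 hta
  obtain ⟨hst, -⟩ := h.st hr1 ha hs h1 hH (t := t) (by linarith)
  have hF1 : (fun u => F u + (t : ℂ) * H u) 1 = 1 := by
    beta_reduce
    rw [h1, hH, mul_zero, add_zero]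
  intro v y hv
  have hv0 := nE_nonneg v
  have hy0 := nN_nonneg y
  by_cases hcase : nE v ^ 2 + nN y ^ 2 ≤ (0.95 * r) ^ 2
  · have hM' : (M + 2 * |t|) * r ^ 2 ≤ (k + t * a) / 1000 := by
      have h2 : (M + 2 * |t|) * r ^ 2 ≤ (M + 1) * r ^ 2 :=
        mul_le_mul_of_nonneg_right (by linarith) (by positivity)
      linarith
    have hkt : 0 ≤ k + t * a := by linarith
    refine (hst.nearS.tube hgr hkt hM' hcase).trans ?_
    refine mul_le_mul_of_nonneg_left (Real.exp_le_exp.2 ?_) (norm_nonneg _)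
    refine mul_le_mul_of_nonneg_left ?_ (by linarith)
    have h2 : min (nN y) r ^ 2 ≤ nN y ^ 2 :=
      pow_le_pow_left₀ (le_min hy0 hr.le) (min_le_left _ _) 2
    nlinarith [sq_nonneg (nE v), sq_nonneg (nN y)]
  · push Not at hcase
    have hX := far_neg hr hv0 hy0 hv hcase
    have h2 := hS v y hv hcase
    have h3 := h.far v y hv hcase
    rw [h1, norm_one, mul_one] at h2
    rw [hF1, norm_one, one_mul]
    obtain ⟨X, hXd⟩ : ∃ X, X = 1.01 * nE v ^ 2 - 0.99 * min (nN y) r ^ 2 := ⟨_, rfl⟩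
    rw [← hXd] at hX h2 h3 ⊢
    have hX1 : -1 ≤ X := by
      have h4 : min (nN y) r ^ 2 ≤ r ^ 2 :=
        pow_le_pow_left₀ (le_min hy0 hr.le) (min_le_right _ _) 2
      have h5 : r ^ 2 ≤ 1 := pow_le_one₀ hr.le hr1
      have h6 := sq_nonneg (nE v)
      rw [hXd]
      linarith
    obtain ⟨E, hE⟩ : ∃ E, E = Real.exp (k / 2 * X) := ⟨_, rfl⟩
    rw [← hE] at h2 h3
    have hE0 : 0 < E := by rw [hE]; exact Real.exp_pos _
    have h4 : ‖F (uE B (Complex.I • rl v) * uG y) +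
        (t : ℂ) * H (uE B (Complex.I • rl v) * uG y)‖ ≤ 0.51 * E := by
      refine (norm_add_le _ _).trans ?_
      rw [norm_mul, Complex.norm_real, Real.norm_eq_abs]
      have h5 : |t| * ‖H (uE B (Complex.I • rl v) * uG y)‖ ≤ 1 / 100 * (1 * E) :=
        mul_le_mul ht (h3.trans (mul_le_mul_of_nonneg_right (by linarith) hE0.le))
          (norm_nonneg _) (by norm_num)
      linarith
    refine h4.trans ?_
    have h5 : Real.exp ((k + t * a) / 2 * X) = E * Real.exp (t * a / 2 * X) := by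
      rw [hE, ← Real.exp_add]
      congr 1
      ring
    rw [h5]
    have h6 : 0.51 ≤ Real.exp (t * a / 2 * X) := by
      have h7 := Real.add_one_le_exp (t * a / 2 * X)
      have h8 : -(1 / 100) ≤ t * a / 2 * X := by nlinarith
      linarith
    calc 0.51 * E ≤ Real.exp (t * a / 2 * X) * E := mul_le_mul_of_nonneg_right h6 hE0.le
      _ = _ := by ring

lemma cf_add {f g : G → ℝ} (h1 : CF f F) (h2 : CF g H) (t : ℝ) :
    CF (fun x => f x + t * g x) (fun u => F u + t * H u) where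
  hol := by
    obtain ⟨Φ, a1, a2⟩ := h1.hol
    obtain ⟨Ψ, b1, b2⟩ := h2.hol
    exact ⟨fun p => Φ p + (t : ℂ) * Ψ p, a1.add (contDiff_const.mul b1), fun u => by
      simp only [a2, b2]⟩
  cls g' u := by rw [h1.cls, h2.cls]
  sym u := by rw [h1.sym, h2.sym]
  res g' := by rw [h1.res, h2.res]; push_cast; rfl

end

end Pool.Agent.N991.MK
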