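import Mathlib
import Pool.Agent.N989.MK.Grp

/-!
# Smooth functions on a closed subgroup of the unitary group and their derivatives
-/

open MeasureTheory Matrix Filter
open scoped Matrix.Norms.Frobenius ContDiff Topology
open Pool.Agent.H906R3.YM Pool.Agent.W793.YM Pool.Agent.TH618.YM Pool.Agent.N984.TW

namespace Pool.Agent.N991.MK

set_option linter.unusedSectionVars false

noncomputable section

/-- differentiation under the integral sign over a compact space -/
lemma hasDerivAt_int {Ω : Type*} [TopologicalSpace Ω] [CompactSpace Ω] [SecondCountableTopology Ω]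
    [MeasurableSpace Ω] [OpensMeasurableSpace Ω] (ν : Measure Ω) [IsFiniteMeasure ν]
    {Φ Φ' : ℝ → Ω → ℝ} (hc : Continuous fun p : ℝ × Ω => Φ p.1 p.2)
    (hc' : Continuous fun p : ℝ × Ω => Φ' p.1 p.2)
    (hd : ∀ s z, HasDerivAt (fun r => Φ r z) (Φ' s z) s) (s : ℝ) :
    HasDerivAt (fun r => ∫ z, Φ r z ∂ν) (∫ z, Φ' s z ∂ν) s := by
  have hK : IsCompact (Metric.closedBall s 1 ×ˢ (Set.univ : Set Ω)) :=
    (isCompact_closedBall s 1).prod isCompact_univ
  obtain ⟨C, hC⟩ := hK.exists_bound_of_continuousOn hc'.continuousOn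
  refine (hasDerivAt_integral_of_dominated_loc_of_deriv_le (F := Φ) (F' := Φ')
    (bound := fun _ => C) (Metric.closedBall_mem_nhds s one_pos) ?_ ?_ ?_ ?_ ?_ ?_).2
  · exact Eventually.of_forall fun x => (hc.comp (Continuous.prodMk_right x)).aestronglyMeasurable
  · exact (hc.comp (Continuous.prodMk_right s)).integrable_of_hasCompactSupport
      (HasCompactSupport.of_compactSpace _)
  · exact (hc'.comp (Continuous.prodMk_right s)).aestronglyMeasurable
  · exact Eventually.of_forall fun t x hx => hC (x, t) ⟨hx, Set.mem_univ _⟩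
  · exact integrable_const _
  · exact Eventually.of_forall fun t x _ => hd x t

variable {N n : ℕ} {G : Subgroup (UN N)} (B : Frame G n) (hG : IsClosed (G : Set (UN N)))

/-- smooth functions on the group -/
def Smo (f : G → ℝ) : Prop := ∃ F : Mat N → ℝ, ContDiff ℝ ∞ F ∧ ∀ g, f g = F (mt g)

lemma Smo.cont {f : G → ℝ} (hf : Smo f) : Continuous f := by
  obtain ⟨F, hF, h⟩ := hf
  have : f = F ∘ mt := funext h
  rw [this]
  exact hF.continuous.comp mt_cont

lemma Smo.mul {f k : G → ℝ} (hf : Smo f) (hk : Smo k) : Smo fun x => f x * k x := by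
  obtain ⟨F, hF, h⟩ := hf
  obtain ⟨K, hK, h'⟩ := hk
  exact ⟨fun M => F M * K M, hF.mul hK, fun g => by simp only [h, h']⟩

lemma Smo.add {f k : G → ℝ} (hf : Smo f) (hk : Smo k) : Smo fun x => f x + k x := by
  obtain ⟨F, hF, h⟩ := hf
  obtain ⟨K, hK, h'⟩ := hk
  exact ⟨fun M => F M + K M, hF.add hK, fun g => by simp only [h, h']⟩

lemma Smo.const (c : ℝ) : Smo fun _ : G => c := ⟨fun _ => c, contDiff_const, fun _ => rfl⟩

/-- derivative of `f` along the one-parameter subgroup `exp (t X)`, from the right -/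
def dR (X : Fin n → ℝ) (f : G → ℝ) (x : G) : ℝ :=
  deriv (fun t : ℝ => f (x * Eg B hG (t • X))) 0

lemma EM_smul_add (X : Fin n → ℝ) (s t : ℝ) :
    EM B ((s + t) • X) = EM B (s • X) * EM B (t • X) := by
  unfold EM
  rw [← Matrix.exp_add_of_commute, ← LX_add, add_smul]
  rw [LX_smul, LX_smul]
  exact ((Commute.refl (LX B X)).smul_left s).smul_right t

lemma Eg_smul_add (X : Fin n → ℝ) (s t : ℝ) :
    Eg B hG ((s + t) • X) = Eg B hG (s • X) * Eg B hG (t • X) :=
  mt_inj (by rw [mt_mul, mt_Eg, mt_Eg, mt_Eg, EM_smul_add])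

lemma hasDerivAt_EM_zero (X : Fin n → ℝ) :
    HasDerivAt (fun t : ℝ => EM B (t • X)) (LX B X) 0 := by
  have h1 : HasDerivAt (fun t : ℝ => t • X) X 0 := by
    simpa using (hasDerivAt_id (0 : ℝ)).smul_const X
  have h2 := hasFDerivAt_EM B
  rw [← zero_smul ℝ X] at h2
  exact h2.comp_hasDerivAt (0 : ℝ) h1

lemma hasDerivAt_line_Eg {F : Mat N → ℝ} (hF : ContDiff ℝ 1 F) (x : G) (X : Fin n → ℝ) (s : ℝ) :
    HasDerivAt (fun t : ℝ => F (mt (x * Eg B hG (t • X))))
      (fderiv ℝ F (mt (x * Eg B hG (s • X))) (mt (x * Eg B hG (s • X)) * LX B X)) s := by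
  have h1 : HasDerivAt (fun t : ℝ => mt (x * Eg B hG (t • X)))
      (mt (x * Eg B hG (s • X)) * LX B X) s := by
    have h2 : HasDerivAt (fun t : ℝ => EM B ((t - s) • X)) (LX B X) s := by
      have h3 := hasDerivAt_EM_zero B X
      rw [← sub_self s] at h3
      exact (HasDerivAt.comp_sub_const (f := fun t : ℝ => EM B (t • X)) s s h3)
    have h4 := (h2.const_mul (mt (x * Eg B hG (s • X))))
    refine h4.congr_of_eventuallyEq (Eventually.of_forall fun t => ?_)
    show mt (x * Eg B hG (t • X)) = mt (x * Eg B hG (s • X)) * EM B ((t - s) • X)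
    rw [mt_mul, mt_mul, mt_Eg, mt_Eg, mul_assoc, ← EM_smul_add, add_sub_cancel]
  exact ((hF.differentiable (by norm_num)) _).hasFDerivAt.comp_hasDerivAt s h1

lemma dR_eq {f : G → ℝ} {F : Mat N → ℝ} (hF : ContDiff ℝ 1 F) (h : ∀ g, f g = F (mt g))
    (X : Fin n → ℝ) (x : G) : dR B hG X f x = fderiv ℝ F (mt x) (mt x * LX B X) := by
  have h1 := hasDerivAt_line_Eg B hG hF x X 0
  unfold dR
  simp only [h]
  rw [h1.deriv, zero_smul, Eg_zero, mul_one]

lemma dR_smo {f : G → ℝ} (hf : Smo f) (X : Fin n → ℝ) : Smo (dR B hG X f) := by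
  obtain ⟨F, hF, h⟩ := hf
  refine ⟨fun M => fderiv ℝ F M (M * LX B X), ?_, fun g =>
    dR_eq B hG (hF.of_le (by simp)) h X g⟩
  exact (hF.fderiv_right (m := ∞) (by simp)).clm_apply (contDiff_id.mul contDiff_const)

lemma hasDerivAt_dR {f : G → ℝ} (hf : Smo f) (X : Fin n → ℝ) (x : G) (s : ℝ) :
    HasDerivAt (fun t : ℝ => f (x * Eg B hG (t • X))) (dR B hG X f (x * Eg B hG (s • X))) s := by
  obtain ⟨F, hF, h⟩ := hf
  rw [dR_eq B hG (hF.of_le (by simp)) h]
  simp only [h]
  exact hasDerivAt_line_Eg B hG (hF.of_le (by simp)) x X s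

lemma dR_mul {f k : G → ℝ} (hf : Smo f) (hk : Smo k) (X : Fin n → ℝ) (x : G) :
    dR B hG X (fun y => f y * k y) x = dR B hG X f x * k x + f x * dR B hG X k x := by
  have h1 := hasDerivAt_dR B hG hf X x 0
  have h2 := hasDerivAt_dR B hG hk X x 0
  have h3 := (h1.mul h2).deriv
  simp only [zero_smul, Eg_zero, mul_one] at h3
  exact h3

/-- derivatives of class functions are equivariant -/
lemma dR_cls_swap {f : G → ℝ} (hc : Cls f) (X : Fin n → ℝ) (x u : G) :
    deriv (fun t : ℝ => f (x * Eg B hG (t • X) * u)) 0 = dR B hG X f (u * x) := by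
  unfold dR
  congr 1
  funext t
  rw [hc.swap, ← mul_assoc]

lemma dR_inv {f : G → ℝ} (hf : Smo f) (hc : Cls f) (hs : Sy f) (X : Fin n → ℝ) (u : G) :
    dR B hG X f u⁻¹ = -dR B hG X f u := by
  have h1 : (fun t : ℝ => f (u⁻¹ * Eg B hG (t • X))) =
      fun t : ℝ => f (u * Eg B hG ((-t) • X)) := by
    funext t
    rw [← hs, _root_.mul_inv_rev, inv_inv, ← Eg_neg, ← neg_smul, hc.swap]
  have h2 := hasDerivAt_dR B hG hf X u (-0)
  have h3 := (h2.scomp (0 : ℝ) (hasDerivAt_neg (0 : ℝ)))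
  unfold dR
  rw [h1]
  have h4 : (fun t : ℝ => f (u * Eg B hG ((-t) • X))) =
      (fun t : ℝ => f (u * Eg B hG (t • X))) ∘ Neg.neg := rfl
  rw [h4, h3.deriv, neg_zero, zero_smul, Eg_zero, mul_one]
  simp [dR]

end

end Pool.Agent.N991.MK
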