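import Mathlib
import Pool.Agent.N988.MK.Fish
import Pool.Agent.N991.MK.Der
import Pool.Agent.N991.MK.Tube

/-!
# Integration by parts on the group
-/

open MeasureTheory Matrix Filter
open scoped Matrix.Norms.Frobenius ContDiff Topology
open Pool.Agent.H906R3.YM Pool.Agent.W793.YM Pool.Agent.TH618.YM Pool.Agent.N984.TW
open Pool.Agent.N988.MK (St qC Lz Dz pz Lz_realcurve Lz_curve F_diff)

namespace Pool.Agent.N991.MK

set_option linter.unusedSectionVars false

noncomputable section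

variable {N n : ℕ} {G : Subgroup (UN N)} {B : Frame G n} (hG : IsClosed (G : Set (UN N)))
variable [CompactSpace G] [MeasurableSpace G] [BorelSpace G]
  {μ : Measure G} [IsProbabilityMeasure μ] [μ.IsMulLeftInvariant] [μ.IsMulRightInvariant]
  [μ.IsInvInvariant]

lemma CF.smo {f : G → ℝ} {F : (Mat N)ˣ → ℂ} (h : CF f F) : Smo f := by
  obtain ⟨Φ, h1, h2⟩ := h.hol
  refine ⟨fun M => (Φ (M, ctL N M)).re, ?_, fun g => ?_⟩
  · exact Complex.reCLM.contDiff.comp
      ((h1.restrict_scalars ℝ).comp (contDiff_id.prodMk (ctL N).contDiff))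
  · have h3 := h.res g
    rw [h2] at h3
    have h4 := congrArg Complex.re h3
    rw [Complex.ofReal_re] at h4
    exact h4.symm

lemma pz_smo (a : Fin n) : Smo fun z : G => pz B z a :=
  ⟨fun M => ip (B.X a) (M - 1), (ip (B.X a)).contDiff.comp (contDiff_id.sub contDiff_const),
    fun _ => rfl⟩

/-- the integral of a derivative vanishes -/
lemma int_dR {f : G → ℝ} (hf : Smo f) (X : Fin n → ℝ) : ∫ z, dR B hG X f z ∂μ = 0 := by
  have hE : Continuous fun p : ℝ × G => p.2 * Eg B hG (p.1 • X) :=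
    continuous_snd.mul ((Eg_cont B hG).comp (continuous_fst.smul continuous_const))
  have h1 := hasDerivAt_int μ (Φ := fun s z => f (z * Eg B hG (s • X)))
    (Φ' := fun s z => dR B hG X f (z * Eg B hG (s • X))) (hf.cont.comp hE)
    ((dR_smo B hG hf X).cont.comp hE) (fun s z => hasDerivAt_dR B hG hf X z s) 0
  have h2 : (fun s : ℝ => ∫ z, f (z * Eg B hG (s • X)) ∂μ) = fun _ => ∫ z, f z ∂μ := by
    funext s
    exact integral_mul_right_eq_self (μ := μ) f _
  rw [h2] at h1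
  have h3 := h1.unique (hasDerivAt_const (0 : ℝ) _)
  simpa [Eg_zero] using h3

lemma dR_Dz {f : G → ℝ} {F : (Mat N)ˣ → ℂ} (h : CF f F) (a : Fin n) (z : G) :
    dR B hG (Pi.single a 1) f z = Dz B F z a := by
  have h1 := hasDerivAt_dR B hG h.smo (Pi.single a 1) z 0
  rw [zero_smul, Eg_zero, mul_one] at h1
  have h2 : HasDerivAt (fun t : ℝ => (F (uE B (rl (t • Pi.single a (1 : ℝ))) * uG z)).re)
      (Lz B F z (rl (Pi.single a 1))).re 0 :=
    Complex.reCLM.hasFDerivAt.comp_hasDerivAt (0 : ℝ) (Lz_realcurve (B := B) h.hol z _)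
  have h3 : (fun t : ℝ => (F (uE B (rl (t • Pi.single a (1 : ℝ))) * uG z)).re) =
      fun t : ℝ => f (z * Eg B hG (t • Pi.single a 1)) := by
    funext t
    rw [uE_rl B hG, ← map_mul, h.res, Complex.ofReal_re, h.clsR.swap]
  rw [h3] at h2
  exact h1.unique h2

lemma LX_sing (a : Fin n) : LX B (Pi.single a (1 : ℝ)) = B.X a := by
  unfold LX
  rw [Finset.sum_eq_single a]
  · simp
  · intro b _ hb
    rw [Pi.single_eq_of_ne hb, zero_smul]
  · intro h; exact absurd (Finset.mem_univ a) h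

lemma dR_pz (a : Fin n) (z : G) : dR B hG (Pi.single a 1) (fun z : G => pz B z a) z =
    ip (B.X a) (mt z * B.X a) := by
  have hF : ContDiff ℝ 1 fun M : Mat N => ip (B.X a) (M - 1) :=
    (ip (B.X a)).contDiff.comp (contDiff_id.sub contDiff_const)
  rw [dR_eq B hG (f := fun z : G => pz B z a) hF (fun g => rfl), LX_sing]
  have h1 : HasFDerivAt (fun M : Mat N => ip (B.X a) (M - 1)) (ip (B.X a)) (mt z) := by
    have h2 : (fun M : Mat N => ip (B.X a) (M - 1)) = fun M => ip (B.X a) M - ip (B.X a) 1 := by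
      funext M; rw [map_sub]
    rw [h2]
    exact (ip (B.X a)).hasFDerivAt.sub_const _
  rw [h1.fderiv]

include hG in
/-- **integration by parts** -/
lemma ibp {f : G → ℝ} {F : (Mat N)ˣ → ℂ} (h : CF f F) (a : Fin n) :
    ∫ z, (Dz B F z a * pz B z a + f z * ip (B.X a) (mt z * B.X a)) ∂μ = 0 := by
  have h1 := int_dR (B := B) (μ := μ) hG (h.smo.mul (pz_smo (B := B) a)) (Pi.single a 1)
  rw [← h1]
  refine integral_congr_ae (Eventually.of_forall fun z => ?_)
  beta_reduce
  rw [dR_mul B hG h.smo (pz_smo a), dR_Dz hG h, dR_pz]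

/-- the diagonal term -/
lemma ip_diag (a : Fin n) (z : G) :
    |ip (B.X a) (mt z * B.X a) - 1| ≤ ‖B.X a‖ ^ 2 * nN z ^ 2 / 2 := by
  have h1 : ip (B.X a) (mt z * B.X a) = 1 + ip (B.X a) ((mt z - 1) * B.X a) := by
    rw [sub_mul, one_mul, map_sub]
    have : ip (B.X a) (B.X a) = 1 := by have := B.orth a a; rw [if_pos rfl] at this; exact this
    rw [this]; ring
  -- symmetrise
  have h2 : ip (B.X a) ((mt z - 1) * B.X a) = -(1 / 2 * ‖(1 - mt z)ᴴ * B.X a‖ ^ 2) := by
    obtain ⟨A, hA⟩ : ∃ A : Mat N, A = 1 - mt z := ⟨_, rfl⟩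
    obtain ⟨X, hX⟩ : ∃ X : Mat N, X = B.X a := ⟨_, rfl⟩
    rw [← hA, ← hX]
    have hAA := one_sub_mul z A hA
    have h3 : ip X ((mt z - 1) * X) = ip X (((mt z)ᴴ - 1) * X) := by
      rw [ip_comm X (((mt z)ᴴ - 1) * X), ip_apply, ip_apply, conjTranspose_mul,
        conjTranspose_sub, conjTranspose_one, conjTranspose_conjTranspose, mul_assoc]
    have h4 : ‖Aᴴ * X‖ ^ 2 = ip X (A * Aᴴ * X) := by
      rw [norm_sq_ip, ip_apply, ip_apply, conjTranspose_mul, conjTranspose_conjTranspose]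
      congr 2
      noncomm_ring
    have h5 : ip X (A * Aᴴ * X) = -ip X ((mt z - 1) * X) - ip X (((mt z)ᴴ - 1) * X) := by
      rw [hAA, ← map_neg, ← map_sub]
      congr 1
      noncomm_ring
    rw [h4, h5, ← h3]
    ring
  rw [h1, h2, add_sub_cancel_left, abs_neg, abs_of_nonneg (by positivity)]
  have h3 : ‖(1 - mt z)ᴴ * B.X a‖ ≤ nN z * ‖B.X a‖ := by
    refine (norm_mul_le _ _).trans ?_
    have : ‖(1 - mt z)ᴴ‖ = nN z := by
      have e : ‖(1 - mt z)ᴴ‖ = ‖1 - mt z‖ := Matrix.frobenius_norm_conjTranspose _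
      rw [e]; unfold nN; rw [norm_sub_rev]
    rw [this]
  have h4 := pow_le_pow_left₀ (norm_nonneg _) h3 2
  nlinarith

end

end Pool.Agent.N991.MK
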