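import Mathlib
import Pool.Agent.N991.MK.Gauss
import Pool.Agent.N991.MK.Tube2

/-!
# First moments of the densities
-/

open MeasureTheory Matrix Filter
open scoped Matrix.Norms.Frobenius ContDiff Topology
open Pool.Agent.H906R3.YM Pool.Agent.W793.YM Pool.Agent.TH618.YM Pool.Agent.N984.TW

namespace Pool.Agent.N991.MK

set_option linter.unusedSectionVars false

noncomputable section

variable {N n : ℕ} {G : Subgroup (UN N)} {B : Frame G n} (hG : IsClosed (G : Set (UN N)))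
variable [CompactSpace G] [MeasurableSpace G] [BorelSpace G]
  {μ : Measure G} [IsProbabilityMeasure μ] [μ.IsMulLeftInvariant] [μ.IsMulRightInvariant]
  [μ.IsInvInvariant]

/-- Gaussian upper bound near the identity -/
lemma near_up {r k M : ℝ} {f : G → ℝ} {F : (Mat N)ˣ → ℂ} (hr : GoodR B r) (hk : 0 ≤ k)
    (hM : M * r ^ 2 ≤ k / 1000) (h : CF f F) (hn : NearS B r k M F) {z : G}
    (hz : nN z ≤ r / 2) : |f z| ≤ ‖F 1‖ * Real.exp (-(0.4985 * k * nN z ^ 2)) := by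
  have hp := hr.pos
  obtain ⟨x, e1, e2, e3, e4, e5⟩ := hr.near0 (y := z) (by linarith)
  have h1 := hn.upper hp hk hM e2
  rw [e1, e3, h.norm_res] at h1
  have hz0 := nN_nonneg z
  refine h1.trans (mul_le_mul_of_nonneg_left (Real.exp_le_exp.2 ?_) (norm_nonneg _))
  have h4 : 0.9998 * nN z ^ 2 ≤ nE (reP x) ^ 2 := by nlinarith
  nlinarith

/-- the upper bound at far points -/
lemma far_up {r k : ℝ} {f : G → ℝ} {F : (Mat N)ˣ → ℂ} (hr : GoodR B r) (hk : 0 ≤ k)
    (h : CF f F) (ht : Tube B r k F) {z : G} (hz : r / 4 ≤ nN z) :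
    |f z| ≤ ‖F 1‖ * Real.exp (-(0.03 * r ^ 2 * k)) := by
  have hp := hr.pos
  have h1 := ht 0 z (by rw [nE_zero]; positivity)
  rw [rl_zero', uE_zero, one_mul, h.norm_res, nE_zero] at h1
  refine h1.trans (mul_le_mul_of_nonneg_left (Real.exp_le_exp.2 ?_) (norm_nonneg _))
  have h2 : (r / 4) ^ 2 ≤ min (nN z) r ^ 2 :=
    pow_le_pow_left₀ (by positivity) (le_min hz (by linarith)) 2
  have h3 : k * (r / 4) ^ 2 ≤ k * min (nN z) r ^ 2 := mul_le_mul_of_nonneg_left h2 hk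
  have h4 : 0 ≤ r ^ 2 * k := by positivity
  nlinarith

/-- lower bound of the integral by the volume of a ball -/
lemma int1_lower {r k M : ℝ} (hr : GoodR B r) (hk : 16 / r ^ 2 ≤ k) (hM : M * r ^ 2 ≤ k / 1000)
    {f : G → ℝ} {F : (Mat N)ˣ → ℂ} (h : CF f F) (hpos : ∀ x, 0 < f x) (hn : NearS B r k M F) :
    Real.exp (-1) * ‖F 1‖ * μ.real (bl (1 / Real.sqrt k) : Set G) ≤ ∫ z, f z ∂μ := by
  have hp := hr.pos
  have hk0 : 0 < k := lt_of_lt_of_le (by positivity) hk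
  have hsk : 0 < Real.sqrt k := Real.sqrt_pos.2 hk0
  have hrk : 1 / Real.sqrt k ≤ r / 4 := by
    rw [div_le_iff₀ hsk]
    have h1 : Real.sqrt (16 / r ^ 2) ≤ Real.sqrt k := Real.sqrt_le_sqrt hk
    have h2 : Real.sqrt (16 / r ^ 2) = 4 / r := by
      rw [show 16 / r ^ 2 = (4 / r) ^ 2 by ring, Real.sqrt_sq (by positivity)]
    rw [h2] at h1
    calc (1 : ℝ) = r / 4 * (4 / r) := by field_simp
      _ ≤ r / 4 * Real.sqrt k := by gcongr
  have hpt : ∀ z ∈ (bl (1 / Real.sqrt k) : Set G), Real.exp (-1) * ‖F 1‖ ≤ f z := by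
    intro z hz
    have hz1 : nN z ≤ 1 / Real.sqrt k := hz
    obtain ⟨x, e1, e2, e3, e4, e5⟩ := hr.near0 (y := z) (by linarith)
    have h1 := hn.lower hp hk0.le hM e2
    rw [e1, e3, h.norm_res, abs_of_pos (hpos z)] at h1
    have h2 : nE (reP x) ^ 2 * k ≤ 1.01 := by
      have h3 : nE (reP x) ≤ 1.0001 * (1 / Real.sqrt k) := by linarith
      have h4 : nE (reP x) ^ 2 ≤ (1.0001 * (1 / Real.sqrt k)) ^ 2 :=
        pow_le_pow_left₀ (nE_nonneg _) h3 2
      have h5 : (1.0001 * (1 / Real.sqrt k)) ^ 2 * k = 1.0001 ^ 2 := by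
        rw [mul_pow, div_pow, Real.sq_sqrt hk0.le]
        field_simp
      calc nE (reP x) ^ 2 * k ≤ (1.0001 * (1 / Real.sqrt k)) ^ 2 * k := by gcongr
        _ = 1.0001 ^ 2 := h5
        _ ≤ 1.01 := by norm_num
    have h3 : Real.exp (-1) ≤ Real.exp (k / 2 * (0.998 * 0 ^ 2 - 1.002 * nE (reP x) ^ 2)) :=
      Real.exp_le_exp.2 (by nlinarith)
    have h4 : ‖F 1‖ * Real.exp (-1) ≤ f z :=
      (mul_le_mul_of_nonneg_left h3 (norm_nonneg _)).trans h1
    linarith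
  have hint : Integrable (fun z => f z) μ := integrable_of_cont h.cont
  calc Real.exp (-1) * ‖F 1‖ * μ.real (bl (1 / Real.sqrt k) : Set G)
      = ∫ _z in (bl (1 / Real.sqrt k) : Set G), Real.exp (-1) * ‖F 1‖ ∂μ := by
        rw [setIntegral_const, smul_eq_mul, mul_comm]
    _ ≤ ∫ z in (bl (1 / Real.sqrt k) : Set G), f z ∂μ :=
        setIntegral_mono_on (integrable_const _).integrableOn hint.integrableOn (bl_meas _) hpt
    _ ≤ ∫ z, f z ∂μ :=
        setIntegral_le_integral hint (Eventually.of_forall fun z => (hpos z).le)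

/-- `‖F 1‖ e^{-ck}` is small compared with the integral -/
lemma norm_beats1 (μ : Measure G) [IsProbabilityMeasure μ] [μ.IsMulLeftInvariant]
    [μ.IsMulRightInvariant] [μ.IsInvInvariant] {r : ℝ} (hr : GoodR B r) (c : ℝ) (hc : 0 < c)
    (j : ℕ) : ∃ k0 : ℝ, 1 ≤ k0 ∧ 16 / r ^ 2 ≤ k0 ∧ ∀ {k M : ℝ} {f : G → ℝ} {F : (Mat N)ˣ → ℂ},
      k0 ≤ k → M * r ^ 2 ≤ k / 1000 → CF f F → (∀ x, 0 < f x) → NearS B r k M F →
      k ^ j * (‖F 1‖ * Real.exp (-(c * k))) ≤ ∫ z, f z ∂μ := by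
  obtain ⟨c', hc', D, hv⟩ := vol_lower μ
  obtain ⟨k1, hk1, hexp⟩ := exp_beats c (Real.exp (-1) * c') hc (by positivity) 0 (D + j)
  refine ⟨max k1 (16 / r ^ 2), hk1.trans (le_max_left _ _), le_max_right _ _,
    fun {k M f F} hk hM h hpos hn => ?_⟩
  have hka : k1 ≤ k := (le_max_left _ _).trans hk
  have hkb : 16 / r ^ 2 ≤ k := (le_max_right _ _).trans hk
  have hk1' : 1 ≤ k := hk1.trans hka
  have hk0 : 0 < k := lt_of_lt_of_le one_pos hk1'
  have h1 := int1_lower (μ := μ) hr hkb hM h hpos hn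
  have h2 := hexp k hka
  rw [zero_sub] at h2
  have hsk : 1 ≤ Real.sqrt k := Real.one_le_sqrt.2 hk1'
  have h5 := hv (1 / Real.sqrt k) (by positivity) ((div_le_one (by positivity)).2 hsk)
  have h3 : (1 : ℝ) ≤ k ^ D * (1 / Real.sqrt k) ^ D := by
    rw [← mul_pow]
    refine one_le_pow₀ ?_
    rw [mul_one_div, le_div_iff₀ (by positivity), one_mul]
    nlinarith [Real.mul_self_sqrt (zero_le_one.trans hk1')]
  have hkD : 0 < k ^ D := by positivity
  have h6 : k ^ D * (k ^ j * (‖F 1‖ * Real.exp (-(c * k)))) ≤ k ^ D * ∫ z, f z ∂μ := by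
    calc k ^ D * (k ^ j * (‖F 1‖ * Real.exp (-(c * k))))
        = ‖F 1‖ * (Real.exp (-(c * k)) * k ^ (D + j)) := by rw [pow_add]; ring
      _ ≤ ‖F 1‖ * (Real.exp (-1) * c') := mul_le_mul_of_nonneg_left h2 (norm_nonneg _)
      _ = Real.exp (-1) * ‖F 1‖ * c' * 1 := by ring
      _ ≤ Real.exp (-1) * ‖F 1‖ * c' * (k ^ D * (1 / Real.sqrt k) ^ D) := by gcongr
      _ = k ^ D * (Real.exp (-1) * ‖F 1‖ * (c' * (1 / Real.sqrt k) ^ D)) := by ring
      _ ≤ k ^ D * (Real.exp (-1) * ‖F 1‖ * μ.real (bl (1 / Real.sqrt k) : Set G)) := by gcongr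
      _ ≤ k ^ D * ∫ z, f z ∂μ := by gcongr
  exact le_of_mul_le_mul_left h6 hkD

/-- the moments with respect to the density -/
theorem moments1 (μ : Measure G) [IsProbabilityMeasure μ] [μ.IsMulLeftInvariant]
    [μ.IsMulRightInvariant] [μ.IsInvInvariant] (j : ℕ) : ∃ Cm : ℝ, 0 < Cm ∧ ∀ {r : ℝ}, GoodR B r →
    ∀ {k M : ℝ} {f : G → ℝ} {F : (Mat N)ˣ → ℂ}, 16 / r ^ 2 ≤ k → M * r ^ 2 ≤ k / 1000 →
      CF f F → (∀ x, 0 < f x) → NearS B r k M F →
      k ^ j * ∫ z in {z : G | nN z ≤ r / 4}, f z * nN z ^ (2 * j) ∂μ ≤ Cm * ∫ z, f z ∂μ := by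
  obtain ⟨C, hC, hg⟩ := gauss_le μ 0.2985 (by norm_num)
  refine ⟨j.factorial * 5 ^ j * C * Real.exp 1, by positivity,
    fun {r} hr {k M f F} hk hM h hpos hn => ?_⟩
  have hp := hr.pos
  have hk0 : 0 < k := lt_of_lt_of_le (by positivity) hk
  have hsk : 0 < Real.sqrt k := Real.sqrt_pos.2 hk0
  have hlow := int1_lower (μ := μ) hr hk hM h hpos hn
  have hcont : Continuous fun z : G => f z * nN z ^ (2 * j) :=
    h.cont.mul ((nN_cont (G := G)).pow _)
  have hcont2 : Continuous fun z : G => j.factorial * 5 ^ j * ‖F 1‖ *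
      Real.exp (-(0.2985 * (nN z / (1 / Real.sqrt k)) ^ 2)) := by
    have h2 := nN_cont (G := G)
    fun_prop
  have hpt : ∀ z ∈ {z : G | nN z ≤ r / 4}, k ^ j * (f z * nN z ^ (2 * j)) ≤
      j.factorial * 5 ^ j * ‖F 1‖ * Real.exp (-(0.2985 * (nN z / (1 / Real.sqrt k)) ^ 2)) := by
    intro z hz
    have hz1 : nN z ≤ r / 4 := hz
    have h2 := near_up hr hk0.le hM h hn (z := z) (by linarith)
    rw [abs_of_pos (hpos z)] at h2
    have hz0 := nN_nonneg z
    have h5 : (nN z / (1 / Real.sqrt k)) ^ 2 = k * nN z ^ 2 := by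
      rw [div_pow, div_pow, Real.sq_sqrt hk0.le]
      field_simp
    rw [h5]
    have h6 : (k * nN z ^ 2) ^ j ≤ j.factorial * 5 ^ j * Real.exp (0.2 * (k * nN z ^ 2)) := by
      have h7 := Real.pow_div_factorial_le_exp (0.2 * (k * nN z ^ 2)) (by positivity) j
      rw [div_le_iff₀ (by positivity), mul_pow] at h7
      calc (k * nN z ^ 2) ^ j = 5 ^ j * (0.2 ^ j * (k * nN z ^ 2) ^ j) := by
            rw [← mul_assoc, ← mul_pow]; norm_num
        _ ≤ 5 ^ j * (Real.exp (0.2 * (k * nN z ^ 2)) * j.factorial) := by gcongr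
        _ = _ := by ring
    calc k ^ j * (f z * nN z ^ (2 * j)) = f z * (k * nN z ^ 2) ^ j := by
          rw [mul_pow, ← pow_mul]; ring
      _ ≤ ‖F 1‖ * Real.exp (-(0.4985 * k * nN z ^ 2)) *
          (j.factorial * 5 ^ j * Real.exp (0.2 * (k * nN z ^ 2))) := by
          gcongr
      _ = j.factorial * 5 ^ j * ‖F 1‖ * (Real.exp (-(0.4985 * k * nN z ^ 2)) *
          Real.exp (0.2 * (k * nN z ^ 2))) := by ring
      _ = _ := by
          rw [← Real.exp_add]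
          congr 2
          ring
  have hint2 : Integrable (fun z : G => j.factorial * 5 ^ j * ‖F 1‖ *
      Real.exp (-(0.2985 * (nN z / (1 / Real.sqrt k)) ^ 2))) μ := integrable_of_cont hcont2
  calc k ^ j * ∫ z in {z : G | nN z ≤ r / 4}, f z * nN z ^ (2 * j) ∂μ
      = ∫ z in {z : G | nN z ≤ r / 4}, k ^ j * (f z * nN z ^ (2 * j)) ∂μ :=
        (integral_const_mul _ _).symm
    _ ≤ ∫ z in {z : G | nN z ≤ r / 4}, j.factorial * 5 ^ j * ‖F 1‖ *
          Real.exp (-(0.2985 * (nN z / (1 / Real.sqrt k)) ^ 2)) ∂μ :=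
        setIntegral_mono_on (integrable_of_cont (continuous_const.mul hcont)).integrableOn
          hint2.integrableOn (bl_meas _) hpt
    _ ≤ ∫ z : G, j.factorial * 5 ^ j * ‖F 1‖ *
          Real.exp (-(0.2985 * (nN z / (1 / Real.sqrt k)) ^ 2)) ∂μ :=
        setIntegral_le_integral hint2 (Eventually.of_forall fun z => by positivity)
    _ = j.factorial * 5 ^ j * ‖F 1‖ *
          ∫ z : G, Real.exp (-(0.2985 * (nN z / (1 / Real.sqrt k)) ^ 2)) ∂μ :=
        integral_const_mul _ _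
    _ ≤ j.factorial * 5 ^ j * ‖F 1‖ * (C * μ.real (bl (1 / Real.sqrt k) : Set G)) := by
        gcongr
        exact hg _ (by positivity)
    _ = j.factorial * 5 ^ j * C * Real.exp 1 *
          (Real.exp (-1) * ‖F 1‖ * μ.real (bl (1 / Real.sqrt k) : Set G)) := by
        have : Real.exp 1 * Real.exp (-1) = 1 := by rw [← Real.exp_add]; norm_num
        obtain ⟨V, hV⟩ : ∃ V, V = μ.real (bl (1 / Real.sqrt k) : Set G) := ⟨_, rfl⟩
        rw [← hV]
        calc j.factorial * 5 ^ j * ‖F 1‖ * (C * V) = j.factorial * 5 ^ j * ‖F 1‖ * (C * V) *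
              (Real.exp 1 * Real.exp (-1)) := by rw [this, mul_one]
          _ = _ := by ring
    _ ≤ _ := by gcongr

end

end Pool.Agent.N991.MK
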