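import Mathlib
import Pool.Agent.N988.MK.Fish
import Pool.Agent.N991.MK.Tube2
import Pool.Agent.N991.MK.WilS

/-!
# The mean of the squared distance
-/

open MeasureTheory Matrix Filter Metric
open scoped Matrix.Norms.Frobenius ContDiff Topology
open Pool.Agent.H906R3.YM Pool.Agent.W793.YM Pool.Agent.TH618.YM Pool.Agent.N984.TW
open Pool.Agent.N988.MK (St qC Lz Dz pz Lz_realcurve Lz_curve F_diff BC exists_BC Uf dC2 exists_pz
  Dz_cont pz_cont qC_rl)

namespace Pool.Agent.N991.MK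

set_option linter.unusedSectionVars false

noncomputable section

variable {N n : ℕ} {G : Subgroup (UN N)} {B : Frame G n} (hG : IsClosed (G : Set (UN N)))
variable [CompactSpace G] [MeasurableSpace G] [BorelSpace G]
  {μ : Measure G} [IsProbabilityMeasure μ] [μ.IsMulLeftInvariant] [μ.IsMulRightInvariant]
  [μ.IsInvInvariant]

lemma St.toNear {r k M : ℝ} {F : (Mat N)ˣ → ℂ} {m : (Fin n → ℂ) → ℂ}
    (h : Pool.Agent.N988.MK.St B r k M F m) : NearS B r k M F :=
  fun x hx => ⟨m x, h.eq x hx, h.bd x hx⟩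

/-- the pointwise bound of the extension at far points -/
lemma far_ext {r k : ℝ} {F : (Mat N)ˣ → ℂ} (hr : GoodR B r) (hk : 0 ≤ k) (ht : Tube B r k F)
    {x : Fin n → ℂ} (hx : nC x ≤ r / 16) {z : G} (hz : r / 4 ≤ nN z) :
    ‖F (uE B x * uG z)‖ ≤ ‖F 1‖ * Real.exp (-(0.015 * r ^ 2 * k)) := by
  have hp := hr.pos
  obtain ⟨a, g, e1, e2, e3, e4⟩ := hr.polar x (by linarith)
  have hx0 := nC_nonneg x
  have hri := nE_re_le x
  have hii := nE_im_le x
  have ha : nE a ≤ 0.0626 * r := by linarith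
  have hg : nN g ≤ 0.0626 * r := by linarith
  have hgz : 0.187 * r ≤ nN (g * z) := by
    have := nN_mul_le g⁻¹ (g * z)
    rw [inv_mul_cancel_left, nN_inv] at this
    linarith
  have ha0 := nE_nonneg a
  have t1 := ht a (g * z) (by linarith)
  have hmin : (0.187 * r) ^ 2 ≤ min (nN (g * z)) r ^ 2 :=
    pow_le_pow_left₀ (by positivity) (le_min hgz (by linarith)) 2
  have ha2 : nE a ^ 2 ≤ (0.0626 * r) ^ 2 := pow_le_pow_left₀ ha0 ha 2
  rw [e1, mul_assoc, ← map_mul]
  refine t1.trans (mul_le_mul_of_nonneg_left (Real.exp_le_exp.2 ?_) (norm_nonneg _))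
  have h2 : 1.01 * nE a ^ 2 - 0.99 * min (nN (g * z)) r ^ 2 ≤ -(0.03 * r ^ 2) := by nlinarith
  nlinarith

lemma far_Dz {r k : ℝ} {F : (Mat N)ˣ → ℂ} (hF : Hol F) (hr : GoodR B r) (hk : 0 ≤ k)
    (ht : Tube B r k F) (a : Fin n) {z : G} (hz : r / 4 ≤ nN z) :
    |Dz B F z a| ≤ 16 / r * (‖F 1‖ * Real.exp (-(0.015 * r ^ 2 * k))) := by
  have hp := hr.pos
  have hne : nE (Pi.single a (1 : ℝ) : Fin n → ℝ) = 1 := by
    unfold nE
    have : ∑ b, (Pi.single a (1 : ℝ) : Fin n → ℝ) b ^ 2 = 1 := by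
      rw [Finset.sum_eq_single a]
      · simp
      · intro b _ hb
        rw [Pi.single_eq_of_ne hb]; norm_num
      · intro h; exact absurd (Finset.mem_univ a) h
    rw [this, Real.sqrt_one]
  have hd : Differentiable ℂ fun ζ : ℂ => F (uE B (ζ • rl (Pi.single a (1 : ℝ))) * uG z) := by
    intro ζ
    have h3 := (F_diff (B := B) hF z) (ζ • rl (Pi.single a (1 : ℝ)))
    have h4 : DifferentiableAt ℂ (fun ζ : ℂ => ζ • rl (Pi.single a (1 : ℝ))) ζ := by fun_prop
    exact DifferentiableAt.comp (f := fun ζ : ℂ => ζ • rl (Pi.single a (1 : ℝ)))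
      (g := fun x => F (uE B x * uG z)) ζ h3 h4
  have h1 := Complex.norm_deriv_le_of_forall_mem_sphere_norm_le (c := 0)
    (C := ‖F 1‖ * Real.exp (-(0.015 * r ^ 2 * k))) (R := r / 16) (by positivity)
    (hd.diffContOnCl (s := ball 0 (r / 16))) (fun ζ hζ => by
      refine far_ext hr hk ht ?_ hz
      rw [mem_sphere_zero_iff_norm] at hζ
      rw [nC_smul, nC_rl, hζ, hne, mul_one])
  rw [(Lz_curve (B := B) hF z (rl (Pi.single a (1 : ℝ)))).deriv] at h1
  refine ((Complex.abs_re_le_norm _).trans h1).trans (le_of_eq ?_)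
  field_simp

lemma abs_pz_le (a : Fin n) (z : G) : |pz B z a| ≤ nN z := by
  have h1 : |pz B z a| ≤ ‖B.X a‖ * ‖mt z - 1‖ := abs_ip_le (B.X a) (mt z - 1)
  have h2 : ‖B.X a‖ = 1 := by
    have h3 : ‖B.X a‖ ^ 2 = 1 := by
      rw [norm_sq_ip]
      have := B.orth a a
      rw [if_pos rfl] at this
      exact this
    have := norm_nonneg (B.X a)
    nlinarith
  rw [h2, one_mul] at h1
  exact h1

lemma norm_X (a : Fin n) : ‖B.X a‖ = 1 := by
  have h3 : ‖B.X a‖ ^ 2 = 1 := by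
    rw [norm_sq_ip]
    have := B.orth a a
    rw [if_pos rfl] at this
    exact this
  have := norm_nonneg (B.X a)
  nlinarith

/-- the squared distance in exponential coordinates -/
lemma nN_sq_near (B : Frame G n) (hG : IsClosed (G : Set (UN N))) : ∃ Cw ρ : ℝ, 0 ≤ Cw ∧ 0 < ρ ∧
    ∀ y : Fin n → ℝ, nE y < ρ → |nN (Eg B hG y) ^ 2 - nE y ^ 2| ≤ Cw * nE y ^ 4 := by
  obtain ⟨CW, ρ, hCW, hρ, hs⟩ := wil_state B
  refine ⟨CW * 2, ρ, by positivity, hρ, fun y hy => ?_⟩
  have h1 := (hs ρ hρ le_rfl 2 (by norm_num)).bd (rl y) (by rw [nC_rl]; exact hy)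
  have h2 : mW B 2 (rl y) = ((nN (Eg B hG y) ^ 2 - nE y ^ 2 : ℝ) : ℂ) := by
    unfold mW
    have e1 : trace (EC B (rl y)) = trace (mt (Eg B hG y)) := by rw [EC_rl, mt_Eg]
    have e2 : trace (EC B (-rl y)) = star (trace (mt (Eg B hG y))) := by
      have : EC B (-rl y) = mt (Eg B hG y)⁻¹ := by
        have h3 : -rl y = rl (-y) := by funext i; simp [rl]
        rw [h3, EC_rl, ← Eg_neg, mt_Eg]
      rw [this, mt_inv_star, trace_conjTranspose]
    rw [e1, e2, qC_rl, nN_sq]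
    have e3 : trace (mt (Eg B hG y)) + star (trace (mt (Eg B hG y))) =
        2 * ((trace (mt (Eg B hG y))).re : ℂ) := by
      rw [Complex.star_def, Complex.add_conj]
      push_cast
      ring
    push_cast
    linear_combination -e3
  rw [h2, Complex.norm_real, Real.norm_eq_abs, nC_rl] at h1
  exact h1

end

end Pool.Agent.N991.MK
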