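import Mathlib
import Pool.Agent.N988.MK.Step
import Pool.Agent.N991.MK.Fm
import Pool.Agent.N991.MK.Fm3

/-!
# The weak coupling law of the mean of the squared distance
-/

open MeasureTheory Matrix Filter Metric
open scoped Matrix.Norms.Frobenius ContDiff Topology
open Pool.Agent.H906R3.YM Pool.Agent.W793.YM Pool.Agent.TH618.YM Pool.Agent.N984.TW
open Pool.Agent.N988.MK (St qC Lz Dz pz Lz_sum BC exists_BC Uf dC2 exists_pz
  Dz_cont pz_cont qC_rl Cst exists_Cst dC2_rl dR_le dR_sub nE_add_le)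

namespace Pool.Agent.N991.MK

set_option linter.unusedSectionVars false

noncomputable section

variable {N n : ℕ} {G : Subgroup (UN N)} {B : Frame G n} {hG : IsClosed (G : Set (UN N))}
variable [CompactSpace G] [MeasurableSpace G] [BorelSpace G]

lemma dR_self (y : Fin n → ℝ) : N988.MK.dR y y = nE y ^ 2 := by
  rw [nE_sq]
  unfold N988.MK.dR
  exact Finset.sum_congr rfl fun a _ => (sq _).symm

/-- the arithmetic of the near estimate -/
lemma near_arith {S f k M q e1 n2 E V Cu Cp Cw : ℝ} (hf : 0 ≤ f) (hk : 0 ≤ k) (hM : 0 ≤ M)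
    (hCu : 0 ≤ Cu) (hCp : 0 ≤ Cp) (hCw : 0 ≤ Cw) (hE : 0 ≤ E)
    (h1 : |S + f * (k * q)| ≤ f * ((k / 4 * Cu + 81 * M) * 2 * E))
    (h2 : |q - e1| ≤ Cp * E) (h3 : |n2 - e1| ≤ Cw * E) (h4 : E ≤ 2.5 * V) :
    |-S - k * (f * n2)| ≤ (2 * Cu + 405 + 3 * Cp + 3 * Cw) * (k + M) * (f * V) := by
  have e : -S - k * (f * n2) = -(S + f * (k * q)) + k * f * ((q - e1) - (n2 - e1)) := by ring
  have hkf : 0 ≤ k * f := mul_nonneg hk hf
  have h5 : |(q - e1) - (n2 - e1)| ≤ Cp * E + Cw * E :=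
    (abs_sub _ _).trans (add_le_add h2 h3)
  have h6 : |-S - k * (f * n2)| ≤ f * ((k / 4 * Cu + 81 * M) * 2 * E) +
      k * f * (Cp * E + Cw * E) := by
    rw [e]
    refine (abs_add_le _ _).trans (add_le_add (by rwa [abs_neg]) ?_)
    rw [abs_mul, abs_of_nonneg hkf]
    exact mul_le_mul_of_nonneg_left h5 hkf
  have h7 : f * ((k / 4 * Cu + 81 * M) * 2 * E) + k * f * (Cp * E + Cw * E) =
      ((k / 2 * Cu + 162 * M) + k * Cp + k * Cw) * (f * E) := by ring
  have h8 : f * E ≤ 2.5 * (f * V) := by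
    calc f * E ≤ f * (2.5 * V) := mul_le_mul_of_nonneg_left h4 hf
      _ = _ := by ring
  have hfV : 0 ≤ f * V := by
    have : 0 ≤ f * E := mul_nonneg hf hE
    linarith
  have h9 : ((k / 2 * Cu + 162 * M) + k * Cp + k * Cw) * 2.5 ≤
      (2 * Cu + 405 + 3 * Cp + 3 * Cw) * (k + M) := by
    have a1 : 0 ≤ k * Cu := by positivity
    have a2 : 0 ≤ k * Cp := by positivity
    have a3 : 0 ≤ k * Cw := by positivity
    have a4 : 0 ≤ M * Cu := by positivity
    have a5 : 0 ≤ M * Cp := by positivity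
    have a6 : 0 ≤ M * Cw := by positivity
    nlinarith
  calc |-S - k * (f * n2)| ≤ ((k / 2 * Cu + 162 * M) + k * Cp + k * Cw) * (f * E) := by
        rw [← h7]; exact h6
    _ ≤ ((k / 2 * Cu + 162 * M) + k * Cp + k * Cw) * (2.5 * (f * V)) :=
        mul_le_mul_of_nonneg_left h8 (by positivity)
    _ = ((k / 2 * Cu + 162 * M) + k * Cp + k * Cw) * 2.5 * (f * V) := by ring
    _ ≤ _ := mul_le_mul_of_nonneg_right h9 hfV

lemma near_T {r₀ C Cq Cu Cs Cp : ℝ} {b : (Fin n → ℂ) → (Fin n → ℂ) → (Fin n → ℂ)}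
    (c : Cst B hG r₀ C b Cq Cu Cs Cp) {Cw ρ : ℝ} (hCw : 0 ≤ Cw)
    (hw : ∀ y : Fin n → ℝ, nE y < ρ → |nN (Eg B hG y) ^ 2 - nE y ^ 2| ≤ Cw * nE y ^ 4)
    {r k M : ℝ} (hr : 0 < r) (hrr : r ≤ r₀) (hrρ : r ≤ ρ) (hk : 0 ≤ k) (hM : 0 ≤ M)
    {f : G → ℝ} {F : (Mat N)ˣ → ℂ} {m : (Fin n → ℂ) → ℂ} (hf : CF f F) (hpos : ∀ x, 0 < f x)
    (hs : Pool.Agent.N988.MK.St B r k M F m) {z : G} (hz : nN z ≤ r / 4) :
    |(-∑ a, Dz B F z a * pz B z a) - k * (f z * nN z ^ 2)| ≤
      (2 * Cu + 405 + 3 * Cp + 3 * Cw) * (k + M) * (f z * nN z ^ 4) := by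
  obtain ⟨y, hy, hy2⟩ := c.hl.lg z (by linarith)
  have hN0 := nN_nonneg z
  have hy0 := nE_nonneg y
  have hy3 : nE y < r / 3 := by linarith
  have h1' : F 1 ≠ 0 := by
    have := hf.res 1
    rw [map_one] at this
    rw [this]
    exact_mod_cast (hpos 1).ne'
  have hpy := c.hp y (by linarith)
  have hp2 : nE (pz B (Eg B hG y)) ≤ 2 * nE y := by
    have h2 := nE_add_le (pz B (Eg B hG y) - y) y
    rw [sub_add_cancel] at h2
    have h4 : Cp * nE y ^ 2 ≤ 1 := by
      refine le_trans ?_ c.hps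
      have := c.hCp
      have h5 : nE y ≤ r₀ := by linarith
      gcongr
    have h5 : Cp * nE y ^ 3 ≤ nE y := by
      calc Cp * nE y ^ 3 = Cp * nE y ^ 2 * nE y := by ring
        _ ≤ 1 * nE y := mul_le_mul_of_nonneg_right h4 hy0
        _ = nE y := one_mul _
    linarith
  have hL := Pool.Agent.N988.MK.St.Lz_near (hG := hG) hs hf h1' c.h hrr hr hM hk c.hCu c.hu hy3
    (rl (pz B (Eg B hG y)))
  rw [hy] at hL hpy hp2
  rw [Lz_sum (hG := hG) hf z (rl (pz B z)), dC2_rl, nC_rl] at hL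
  have e1 : (∑ a, rl (pz B z) a * ((Dz B F z a : ℝ) : ℂ)) + (f z : ℂ) * ((k : ℂ) * (N988.MK.dR (pz B z) y : ℂ))
      = ((∑ a, Dz B F z a * pz B z a + f z * (k * N988.MK.dR (pz B z) y) : ℝ) : ℂ) := by
    push_cast
    congr 1
    refine Finset.sum_congr rfl fun a _ => ?_
    unfold rl
    ring
  rw [e1, Complex.norm_real, Real.norm_eq_abs, abs_of_pos (hpos z)] at hL
  have hCu := c.hCu
  have hCp := c.hCp
  refine near_arith (E := nE y ^ 4) (q := N988.MK.dR (pz B z) y) (e1 := nE y ^ 2) (hpos z).le hk hM hCu hCp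
    hCw (by positivity) ?_ ?_ ?_ ?_
  · refine hL.trans (mul_le_mul_of_nonneg_left ?_ (hpos z).le)
    calc (k / 4 * Cu + 81 * M) * nE (pz B z) * nE y ^ 3
        ≤ (k / 4 * Cu + 81 * M) * (2 * nE y) * nE y ^ 3 := by gcongr
      _ = _ := by ring
  · rw [← dR_self]
    have h6 : N988.MK.dR (pz B z) y - N988.MK.dR y y = N988.MK.dR y (pz B z - y) := by
      rw [dR_sub]
      congr 1
      unfold N988.MK.dR
      exact Finset.sum_congr rfl fun a _ => mul_comm _ _
    rw [h6]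
    refine (dR_le _ _).trans ?_
    calc nE y * nE (pz B z - y) ≤ nE y * (Cp * nE y ^ 3) := by gcongr
      _ = _ := by ring
  · have := hw y (by linarith)
    rw [hy] at this
    exact this
  · have h7 : nE y ^ 4 ≤ (5 / 4 * nN z) ^ 4 := pow_le_pow_left₀ hy0 hy2 4
    have h8 : (5 / 4 * nN z) ^ 4 = 625 / 256 * nN z ^ 4 := by ring
    have h9 : 0 ≤ nN z ^ 4 := by positivity
    linarith

/-- the far estimate -/
lemma far_T {r k : ℝ} {f : G → ℝ} {F : (Mat N)ˣ → ℂ} (hf : CF f F) (hr : GoodR B r) (hk : 1 ≤ k)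
    (ht : Tube B r k F) {z : G} (hz : r / 4 ≤ nN z) :
    |(-∑ a, Dz B F z a * pz B z a) - k * (f z * nN z ^ 2)| ≤
      (32 * n * Real.sqrt N / r + 4 * N) * (k * (‖F 1‖ * Real.exp (-(0.015 * r ^ 2 * k)))) := by
  have hp := hr.pos
  have hk0 : 0 ≤ k := by linarith
  have h0 := nN_nonneg z
  have hle := nN_le z
  obtain ⟨E, hE⟩ : ∃ E, E = ‖F 1‖ * Real.exp (-(0.015 * r ^ 2 * k)) := ⟨_, rfl⟩
  rw [← hE]
  have hE0 : 0 ≤ E := by rw [hE]; positivity
  have h1 : ∀ a, |Dz B F z a * pz B z a| ≤ 16 / r * E * (2 * Real.sqrt N) := by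
    intro a
    rw [abs_mul]
    refine mul_le_mul ?_ ((abs_pz_le a z).trans hle) (abs_nonneg _) (by positivity)
    rw [hE]
    exact far_Dz hf.hol hr hk0 ht a hz
  have h2 : |(-∑ a, Dz B F z a * pz B z a)| ≤ n * (16 / r * E * (2 * Real.sqrt N)) := by
    rw [abs_neg]
    refine (Finset.abs_sum_le_sum_abs _ _).trans ((Finset.sum_le_sum fun a _ => h1 a).trans ?_)
    rw [Finset.sum_const, Finset.card_univ, Fintype.card_fin, nsmul_eq_mul]
  have h3 : |k * (f z * nN z ^ 2)| ≤ k * (E * (4 * N)) := by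
    rw [abs_mul, abs_mul, abs_of_nonneg hk0, abs_of_nonneg (by positivity : 0 ≤ nN z ^ 2)]
    have h4 : |f z| ≤ E := by
      refine (far_up hr hk0 hf ht hz).trans ?_
      rw [hE]
      refine mul_le_mul_of_nonneg_left (Real.exp_le_exp.2 ?_) (norm_nonneg _)
      have : 0 ≤ r ^ 2 * k := by positivity
      nlinarith
    have h5 : nN z ^ 2 ≤ 4 * N := by
      have h6 := pow_le_pow_left₀ h0 hle 2
      rw [mul_pow, Real.sq_sqrt (Nat.cast_nonneg N)] at h6
      linarith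
    gcongr
  have h7 : n * (16 / r * E * (2 * Real.sqrt N)) ≤ 32 * n * Real.sqrt N / r * (k * E) := by
    have e : n * (16 / r * E * (2 * Real.sqrt N)) = 32 * n * Real.sqrt N / r * (1 * E) := by
      field_simp
      ring
    rw [e]
    gcongr
  calc |(-∑ a, Dz B F z a * pz B z a) - k * (f z * nN z ^ 2)|
      ≤ n * (16 / r * E * (2 * Real.sqrt N)) + k * (E * (4 * N)) :=
        (abs_sub _ _).trans (add_le_add h2 h3)
    _ ≤ 32 * n * Real.sqrt N / r * (k * E) + k * (E * (4 * N)) := by gcongr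
    _ = _ := by ring

/-- splitting an integral into its near and far parts -/
lemma split_le (μ : Measure G) [IsProbabilityMeasure μ] [μ.IsMulLeftInvariant]
    [μ.IsMulRightInvariant] [μ.IsInvInvariant] {φ ψ : G → ℝ} (hφ : Continuous φ)
    (hψ : Continuous ψ) {s A : ℝ} (hA : 0 ≤ A) (h1 : ∀ z : G, nN z ≤ s → |φ z| ≤ ψ z)
    (h2 : ∀ z : G, s ≤ nN z → |φ z| ≤ A) :
    |∫ z, φ z ∂μ| ≤ ∫ z in {z : G | nN z ≤ s}, ψ z ∂μ + A := by
  have hm : MeasurableSet {z : G | nN z ≤ s} := (isClosed_le nN_cont continuous_const).measurableSet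
  have i1 : Integrable φ μ := integrable_of_cont hφ
  have i2 : Integrable ψ μ := integrable_of_cont hψ
  rw [← integral_add_compl hm i1]
  refine (abs_add_le _ _).trans (add_le_add ?_ ?_)
  · refine (abs_integral_le_integral_abs).trans ?_
    exact setIntegral_mono_on i1.abs.integrableOn i2.integrableOn hm fun z hz => h1 z hz
  · have h3 : ‖∫ z in {z : G | nN z ≤ s}ᶜ, φ z ∂μ‖ ≤ A * μ.real {z : G | nN z ≤ s}ᶜ :=
      norm_setIntegral_le_of_norm_le_const (measure_lt_top μ _) fun z hz => by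
        rw [Real.norm_eq_abs]
        refine h2 z ?_
        have : ¬ nN z ≤ s := hz
        exact (not_le.1 this).le
    rw [Real.norm_eq_abs] at h3
    refine h3.trans ?_
    calc A * μ.real {z : G | nN z ≤ s}ᶜ ≤ A * 1 := by
          refine mul_le_mul_of_nonneg_left ?_ hA
          exact measureReal_le_one
      _ = A := mul_one _

end

end Pool.Agent.N991.MK
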