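import Mathlib
import Pool.Agent.N989.MK.Char
import Pool.Agent.N991.MK.Fm2
import Pool.Agent.N991.MK.Fm4

/-!
# The weak coupling law of the Wilson observable
-/

open MeasureTheory Matrix Filter Metric
open scoped Matrix.Norms.Frobenius ContDiff Topology
open Pool.Agent.H906R3.YM Pool.Agent.W793.YM Pool.Agent.TH618.YM Pool.Agent.N984.TW
open Pool.Agent.N988.MK (St qC Lz Dz pz Lz_sum BC exists_BC Uf dC2 exists_pz
  Dz_cont pz_cont qC_rl Cst exists_Cst dC2_rl dR_le dR_sub nE_add_le)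

namespace Pool.Agent.N991.MK

set_option linter.unusedSectionVars false

noncomputable section

variable {N n : ℕ} {G : Subgroup (UN N)}
variable [CompactSpace G] [MeasurableSpace G] [BorelSpace G]

lemma fin_arith {X K k M m2 I L P : ℝ} (hk : 1 ≤ k) (hM : 0 ≤ M) (hK : 0 ≤ K) (hm2 : 0 ≤ m2)
    (hI : 0 ≤ I) (hL : 0 ≤ L) (hP : 0 ≤ P)
    (h : X ≤ K * (k + M) * (m2 / k ^ 2 * I) + L * (I / k) + P * (I / k)) :
    X ≤ (K * m2 + L + P) * (1 + M) / k * I := by
  have hk0 : 0 < k := by linarith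
  refine h.trans ?_
  have h6 : k + M ≤ (1 + M) * k := by nlinarith
  have h5 : (k + M) * (m2 / k ^ 2 * I) ≤ m2 * (1 + M) * (I / k) := by
    calc (k + M) * (m2 / k ^ 2 * I) ≤ ((1 + M) * k) * (m2 / k ^ 2 * I) := by gcongr
      _ = _ := by field_simp
  have hIk : 0 ≤ I / k := by positivity
  calc K * (k + M) * (m2 / k ^ 2 * I) + L * (I / k) + P * (I / k)
      = K * ((k + M) * (m2 / k ^ 2 * I)) + (L + P) * 1 * (I / k) := by ring
    _ ≤ K * (m2 * (1 + M) * (I / k)) + (L + P) * (1 + M) * (I / k) := by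
        gcongr
        linarith
    _ = _ := by ring

/-- the mean of the squared distance to the identity -/
theorem mean_law (B : Frame G n) (hG : IsClosed (G : Set (UN N))) (μ : Measure G)
    [IsProbabilityMeasure μ] [μ.IsMulLeftInvariant] [μ.IsMulRightInvariant] [μ.IsInvInvariant] :
    ∃ r2 : ℝ, 0 < r2 ∧ ∀ r : ℝ, 0 < r → r ≤ r2 → GoodR B r →
    ∃ k0 C : ℝ, 1 ≤ k0 ∧ 0 ≤ C ∧ ∀ {k M : ℝ} {f : G → ℝ} {F : (Mat N)ˣ → ℂ}
      {m : (Fin n → ℂ) → ℂ}, k0 ≤ k → 0 ≤ M → M * r ^ 2 ≤ k / 1000 → CF f F → (∀ x, 0 < f x) →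
      Pool.Agent.N988.MK.St B r k M F m → Tube B r k F →
      |k * (∫ z, f z * nN z ^ 2 ∂μ) - n * ∫ z, f z ∂μ| ≤ C * (1 + M) / k * ∫ z, f z ∂μ := by
  obtain ⟨r₀, C₀, b, Cq, Cu, Cs, Cp, c⟩ := exists_Cst B hG
  obtain ⟨Cw, ρ, hCw, hρ, hw⟩ := nN_sq_near B hG
  obtain ⟨m1, hm1, hmom1⟩ := moments1 (B := B) μ 1
  obtain ⟨m2, hm2, hmom2⟩ := moments1 (B := B) μ 2
  have hr₀ := c.h.pos
  refine ⟨min r₀ ρ, by positivity, fun r hr hrr hgr => ?_⟩
  have hrr₀ : r ≤ r₀ := hrr.trans (min_le_left _ _)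
  have hrρ : r ≤ ρ := hrr.trans (min_le_right _ _)
  obtain ⟨k1, hk1, hk1', hb⟩ := norm_beats1 (B := B) μ hgr (0.015 * r ^ 2) (by positivity) 2
  have hCu := c.hCu
  have hCp := c.hCp
  obtain ⟨K, hK⟩ : ∃ K, K = 2 * Cu + 405 + 3 * Cp + 3 * Cw := ⟨_, rfl⟩
  have hK0 : 0 ≤ K := by rw [hK]; positivity
  obtain ⟨L, hL⟩ : ∃ L, L = 32 * n * Real.sqrt N / r + 4 * N := ⟨_, rfl⟩
  have hL0 : 0 ≤ L := by rw [hL]; positivity
  refine ⟨k1, K * m2 + L + n / 2 * (m1 + 4 * N), hk1, by positivity,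
    fun {k M f F m} hk hM hMr hf hpos hs ht => ?_⟩
  have hk1k : 1 ≤ k := hk1.trans hk
  have hk0 : 0 < k := by linarith
  have hNs := Pool.Agent.N991.MK.St.toNear hs
  have hkr : 16 / r ^ 2 ≤ k := hk1'.trans hk
  obtain ⟨I, hI⟩ : ∃ I, I = ∫ z, f z ∂μ := ⟨_, rfl⟩
  obtain ⟨J, hJ⟩ : ∃ J, J = ∫ z, f z * nN z ^ 2 ∂μ := ⟨_, rfl⟩
  obtain ⟨E, hE⟩ : ∃ E, E = ‖F 1‖ * Real.exp (-(0.015 * r ^ 2 * k)) := ⟨_, rfl⟩
  have hE0 : 0 ≤ E := by rw [hE]; positivity
  have hEI : k ^ 2 * E ≤ I := by rw [hE, hI]; exact hb hk hMr hf hpos hNs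
  have hI0 : 0 ≤ I := by rw [hI]; exact integral_nonneg fun z => (hpos z).le
  rw [← hI, ← hJ]
  have cN : Continuous (nN : G → ℝ) := nN_cont
  have cD : ∀ a, Continuous fun z : G => Dz B F z a := fun a => Dz_cont hf.hol a
  have cp : ∀ a, Continuous fun z : G => pz B z a := fun a => pz_cont a
  have cT : Continuous fun z : G => -∑ a, Dz B F z a * pz B z a :=
    (continuous_finsetSum _ fun a _ => (cD a).mul (cp a)).neg
  have cF := hf.cont
  have cfn : Continuous fun z : G => f z * nN z ^ 2 := cF.mul (cN.pow 2)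
  have cfn4 : Continuous fun z : G => f z * nN z ^ 4 := cF.mul (cN.pow 4)
  -- the near and the far part of the derivative term
  have hEk : E ≤ I / k ^ 2 := by rw [le_div_iff₀ (by positivity)]; linarith
  have hkE : k * E ≤ I / k := by
    rw [le_div_iff₀ hk0]
    calc k * E * k = k ^ 2 * E := by ring
      _ ≤ I := hEI
  have s1 : |∫ z, ((-∑ a, Dz B F z a * pz B z a) - k * (f z * nN z ^ 2)) ∂μ| ≤
      K * (k + M) * (m2 / k ^ 2 * I) + L * (I / k) := by
    have h1 := split_le μ (φ := fun z => (-∑ a, Dz B F z a * pz B z a) - k * (f z * nN z ^ 2))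
      (ψ := fun z => K * (k + M) * (f z * nN z ^ 4)) (s := r / 4)
      (A := L * (k * E)) (cT.sub (continuous_const.mul cfn))
      (continuous_const.mul cfn4) (by positivity)
      (fun z hz => by
        rw [hK]
        exact near_T c hCw hw hr hrr₀ hrρ hk0.le hM hf hpos hs hz)
      (fun z hz => by
        rw [hL, hE]
        exact far_T hf hgr hk1k ht hz)
    refine h1.trans (add_le_add ?_ (mul_le_mul_of_nonneg_left hkE hL0))
    rw [integral_const_mul]
    refine mul_le_mul_of_nonneg_left ?_ (by positivity)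
    have h2 := hmom2 hgr hkr hMr hf hpos hNs
    rw [← hI] at h2
    rw [div_mul_eq_mul_div, le_div_iff₀ (by positivity)]
    linarith
  have s2 : J ≤ m1 / k * I + 4 * N * E := by
    have h1 := split_le μ (φ := fun z => f z * nN z ^ 2)
      (ψ := fun z => f z * nN z ^ 2) (s := r / 4) (A := 4 * N * E) cfn cfn (by positivity)
      (fun z _ => by
        rw [abs_of_nonneg]
        have := (hpos z).le
        positivity)
      (fun z hz => by
        rw [abs_mul, abs_of_nonneg (by positivity : 0 ≤ nN z ^ 2)]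
        have h4 : |f z| ≤ E := by
          refine (far_up hgr hk0.le hf ht hz).trans ?_
          rw [hE]
          refine mul_le_mul_of_nonneg_left (Real.exp_le_exp.2 ?_) (norm_nonneg _)
          have : 0 ≤ r ^ 2 * k := by positivity
          nlinarith
        have h5 : nN z ^ 2 ≤ 4 * N := by
          have h6 := pow_le_pow_left₀ (nN_nonneg z) (nN_le z) 2
          rw [mul_pow, Real.sq_sqrt (Nat.cast_nonneg N)] at h6
          linarith
        calc |f z| * nN z ^ 2 ≤ E * (4 * N) := by gcongr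
          _ = _ := by ring)
    refine ((le_abs_self _).trans (by rw [hJ]; exact h1)).trans (add_le_add ?_ le_rfl)
    have h2 := hmom1 hgr hkr hMr hf hpos hNs
    rw [← hI, pow_one] at h2
    rw [div_mul_eq_mul_div, le_div_iff₀ (by positivity)]
    linarith
  -- integration by parts
  have cip : ∀ a, Continuous fun z : G => ip (B.X a) (mt z * B.X a) := fun a =>
    (ip (B.X a)).continuous.comp (mt_cont.mul continuous_const)
  have ci : ∀ {φ : G → ℝ}, Continuous φ → Integrable φ μ := fun h => integrable_of_cont h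
  have s3 : ∫ z, (-∑ a, Dz B F z a * pz B z a) ∂μ =
      ∫ z, f z * ∑ a, ip (B.X a) (mt z * B.X a) ∂μ := by
    have h1 : ∀ z, f z * ∑ a, ip (B.X a) (mt z * B.X a) - (-∑ a, Dz B F z a * pz B z a) =
        ∑ a, (Dz B F z a * pz B z a + f z * ip (B.X a) (mt z * B.X a)) := by
      intro z
      rw [Finset.sum_add_distrib, Finset.mul_sum]
      ring
    have h2 : ∫ z, (f z * ∑ a, ip (B.X a) (mt z * B.X a) -
        (-∑ a, Dz B F z a * pz B z a)) ∂μ = 0 := by
      have i1 : ∀ a ∈ (Finset.univ : Finset (Fin n)), Integrable (fun z : G =>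
          Dz B F z a * pz B z a + f z * ip (B.X a) (mt z * B.X a)) μ := fun a _ =>
        ci (((cD a).mul (cp a)).add (cF.mul (cip a)))
      rw [integral_congr_ae (Eventually.of_forall h1), integral_finsetSum _ i1]
      exact Finset.sum_eq_zero fun a _ => ibp hG hf a
    have i2 : Integrable (fun z : G => f z * ∑ a, ip (B.X a) (mt z * B.X a)) μ :=
      ci (cF.mul (continuous_finsetSum _ fun a _ => cip a))
    rw [integral_sub i2 (ci cT)] at h2
    linarith
  have s4 : |∫ z, f z * ∑ a, ip (B.X a) (mt z * B.X a) ∂μ - n * I| ≤ n / 2 * J := by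
    have h1 : ∫ z, f z * ∑ a, ip (B.X a) (mt z * B.X a) ∂μ - n * I =
        ∫ z, f z * ∑ a, (ip (B.X a) (mt z * B.X a) - 1) ∂μ := by
      have i2 : Integrable (fun z : G => f z * ∑ a, ip (B.X a) (mt z * B.X a)) μ :=
        ci (cF.mul (continuous_finsetSum _ fun a _ => cip a))
      have i3 : Integrable (fun z : G => (n : ℝ) * f z) μ := ci (continuous_const.mul cF)
      rw [hI, ← integral_const_mul, ← integral_sub i2 i3]
      refine integral_congr_ae (Eventually.of_forall fun z => ?_)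
      beta_reduce
      rw [Finset.sum_sub_distrib, Finset.sum_const, Finset.card_univ, Fintype.card_fin,
        nsmul_eq_mul]
      ring
    rw [h1, hJ, ← integral_const_mul]
    refine (abs_integral_le_integral_abs).trans (integral_mono (ci ?_).abs
      (ci (continuous_const.mul cfn)) fun z => ?_)
    · exact cF.mul (continuous_finsetSum _ fun a _ => (cip a).sub continuous_const)
    · beta_reduce
      rw [abs_mul, abs_of_pos (hpos z)]
      have h2 : |∑ a, (ip (B.X a) (mt z * B.X a) - 1)| ≤ n * (nN z ^ 2 / 2) := by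
        refine (Finset.abs_sum_le_sum_abs _ _).trans ((Finset.sum_le_sum fun a _ =>
          (ip_diag a z).trans (le_of_eq (by rw [norm_X, one_pow, one_mul]))).trans ?_)
        rw [Finset.sum_const, Finset.card_univ, Fintype.card_fin, nsmul_eq_mul]
      calc f z * |∑ a, (ip (B.X a) (mt z * B.X a) - 1)| ≤ f z * (n * (nN z ^ 2 / 2)) :=
            mul_le_mul_of_nonneg_left h2 (hpos z).le
        _ = _ := by ring
  have i4 : Integrable (fun z : G => k * (f z * nN z ^ 2)) μ := ci (continuous_const.mul cfn)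
  rw [integral_sub (ci cT) i4, integral_const_mul, ← hJ, s3] at s1
  have hJ2 : J ≤ (m1 + 4 * N) * (I / k) := by
    have h1 : 4 * N * E ≤ 4 * N * (I / k) := by
      refine mul_le_mul_of_nonneg_left ?_ (by positivity)
      refine le_trans ?_ hkE
      nlinarith
    calc J ≤ m1 / k * I + 4 * N * E := s2
      _ ≤ m1 / k * I + 4 * N * (I / k) := by linarith
      _ = _ := by ring
  have hfin : |k * J - n * I| ≤ K * (k + M) * (m2 / k ^ 2 * I) + L * (I / k) +
      n / 2 * ((m1 + 4 * N) * (I / k)) := by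
    have e : k * J - n * I = -((∫ z, f z * ∑ a, ip (B.X a) (mt z * B.X a) ∂μ) - k * J) +
        ((∫ z, f z * ∑ a, ip (B.X a) (mt z * B.X a) ∂μ) - n * I) := by ring
    rw [e]
    refine (abs_add_le _ _).trans (add_le_add (by rwa [abs_neg]) (s4.trans ?_))
    exact mul_le_mul_of_nonneg_left hJ2 (by positivity)
  refine fin_arith hk1k hM hK0 hm2.le hI0 hL0 (by positivity) (hfin.trans (le_of_eq ?_))
  ring

open Pool.Agent.N989.MK (WW chi) in
/-- **the weak coupling law of the Wilson observable** -/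
theorem wil_law (B : Frame G n) (hG : IsClosed (G : Set (UN N))) (hN : 0 < N) (μ : Measure G)
    [IsProbabilityMeasure μ] [μ.IsMulLeftInvariant] [μ.IsMulRightInvariant] [μ.IsInvInvariant] :
    ∃ r2 : ℝ, 0 < r2 ∧ ∀ r : ℝ, 0 < r → r ≤ r2 → GoodR B r →
    ∃ k0 C : ℝ, 1 ≤ k0 ∧ 0 ≤ C ∧ ∀ {k M : ℝ} {f : G → ℝ} {F : (Mat N)ˣ → ℂ}
      {m : (Fin n → ℂ) → ℂ}, k0 ≤ k → 0 ≤ M → M * r ^ 2 ≤ k / 1000 → CF f F → (∀ x, 0 < f x) →
      Pool.Agent.N988.MK.St B r k M F m → Tube B r k F →
      |1 - WW μ (chi G) f - (n / (2 * N) : ℝ) / k| ≤ C * (1 + M) / k ^ 2 := by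
  obtain ⟨r2, hr2, h⟩ := mean_law B hG μ
  refine ⟨r2, hr2, fun r hr hrr hgr => ?_⟩
  obtain ⟨k0, C, hk0, hC, h⟩ := h r hr hrr hgr
  refine ⟨k0, C, hk0, hC, fun {k M f F m} hk hM hMr hf hpos hs ht => ?_⟩
  have h1 := h hk hM hMr hf hpos hs ht
  have hk0' : 0 < k := by linarith
  have hN' : (0 : ℝ) < N := by exact_mod_cast hN
  have hN1 : (1 : ℝ) ≤ N := by exact_mod_cast hN
  have cF := hf.cont
  have cN : Continuous (nN : G → ℝ) := nN_cont
  have cc : Continuous (chi G) := Pool.Agent.N989.MK.chi_cont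
  obtain ⟨I, hI⟩ : ∃ I, I = ∫ z, f z ∂μ := ⟨_, rfl⟩
  have hIpos : 0 < I := by
    rw [hI]
    have h2 := norm_beats1 (B := B) μ hgr 1 one_pos 0
    rw [integral_pos_iff_support_of_nonneg (fun z => (hpos z).le) (integrable_of_cont cF)]
    have h3 : Function.support f = Set.univ := by
      ext z; simp [(hpos z).ne']
    rw [h3, measure_univ]
    exact one_pos
  have h2 : ∫ z, f z * chi G z ∂μ = I - (∫ z, f z * nN z ^ 2 ∂μ) / (2 * N) := by
    have h3 : ∀ z, f z * chi G z = f z - (f z * nN z ^ 2) / (2 * N) := by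
      intro z
      unfold chi
      rw [nN_sq]
      field_simp
      ring
    have i2 : Integrable (fun z : G => f z * nN z ^ 2 / (2 * N)) μ :=
      integrable_of_cont ((cF.mul (cN.pow 2)).div_const _)
    rw [integral_congr_ae (Eventually.of_forall h3), integral_sub (integrable_of_cont cF) i2,
      integral_div, hI]
  have h3 : 1 - WW μ (chi G) f - (n / (2 * N) : ℝ) / k =
      (k * (∫ z, f z * nN z ^ 2 ∂μ) - n * I) / (2 * N * k * I) := by
    unfold WW
    rw [h2, ← hI]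
    field_simp
    ring
  rw [h3, abs_div, abs_of_pos (by positivity : 0 < 2 * N * k * I), div_le_iff₀ (by positivity)]
  rw [← hI] at h1
  refine h1.trans ?_
  have h4 : C * (1 + M) / k * I = C * (1 + M) / k ^ 2 * (1 * k * I) := by
    field_simp
  rw [h4]
  gcongr
  linarith

end

end Pool.Agent.N991.MK
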