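import Mathlib
import Pool.Agent.N988.MK.Kap
import Pool.Agent.N991.MK.Fm2
import Pool.Agent.N991.MK.WilS

/-!
# The weak coupling law of the character of a constituent of the defining representation
-/

open MeasureTheory Matrix Filter Metric
open scoped Matrix.Norms.Frobenius ContDiff Topology
open Pool.Agent.H906R3.YM Pool.Agent.W793.YM Pool.Agent.TH618.YM Pool.Agent.N984.TW
open Pool.Agent.N988.MK (St qC Lz Dz pz Lz_sum BC exists_BC Uf dC2 exists_pz
  Dz_cont pz_cont qC_rl dC2_rl dR_le dR_sub nE_add_le)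

namespace Pool.Agent.N991.MK

set_option linter.unusedSectionVars false

noncomputable section

variable {N n : ℕ} {G : Subgroup (UN N)}

/-- an invariant projection of the defining representation -/
structure IPr (G : Subgroup (UN N)) (P : Mat N) : Prop where
  herm : Pᴴ = P
  idem : P * P = P
  comm : ∀ g : G, P * mt g = mt g * P

variable {P : Mat N}

/-- the infinitesimal commutation -/
lemma IPr.commX (hP : IPr G P) (B : Frame G n) (hG : IsClosed (G : Set (UN N))) (x : Fin n → ℝ) :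
    P * LX B x = LX B x * P := by
  have h1 : HasDerivAt (fun s : ℝ => P * EM B (s • x)) (P * LX B x) 0 := by
    have h := hasDerivAt_EMs B x 0
    rw [zero_smul, EM_zero, mul_one] at h
    exact ((ContinuousLinearMap.mul ℝ (Mat N)) P).hasFDerivAt.comp_hasDerivAt (0 : ℝ) h
  have h2 : HasDerivAt (fun s : ℝ => EM B (s • x) * P) (LX B x * P) 0 := by
    have h := hasDerivAt_EMs B x 0
    rw [zero_smul, EM_zero, mul_one] at h
    exact ((ContinuousLinearMap.mul ℝ (Mat N)).flip P).hasFDerivAt.comp_hasDerivAt (0 : ℝ) h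
  have h3 : (fun s : ℝ => P * EM B (s • x)) = fun s : ℝ => EM B (s • x) * P := by
    funext s
    rw [← mt_Eg B hG, hP.comm]
  rw [h3] at h1
  exact h1.unique h2

/-- the squared distance in the constituent -/
def wP (P : Mat N) (z : G) : ℝ := 2 * (trace (P * (1 - mt z))).re

lemma wP_cont : Continuous (wP P : G → ℝ) := by
  unfold wP
  exact continuous_const.mul (Complex.continuous_re.comp (Continuous.matrix_trace
    (continuous_const.mul (continuous_const.sub mt_cont))))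

lemma IPr.wP_eq (hP : IPr G P) (z : G) : wP P z = ‖P * (mt z - 1)‖ ^ 2 := by
  rw [norm_sq_ip, ip_apply]
  unfold wP
  have h1 : (P * (mt z - 1))ᴴ * (P * (mt z - 1)) = P * (1 - mt z) + (P * (1 - mt z))ᴴ := by
    rw [conjTranspose_mul, conjTranspose_mul, hP.herm, conjTranspose_sub, conjTranspose_sub,
      conjTranspose_one]
    have e1 : ((mt z)ᴴ - 1) * P * (P * (mt z - 1)) = ((mt z)ᴴ - 1) * (P * P) * (mt z - 1) := by
      noncomm_ring
    have e2 : P * (mt z - 1) = (mt z - 1) * P := by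
      rw [mul_sub, sub_mul, hP.comm, one_mul, mul_one]
    rw [e1, hP.idem, mul_assoc, e2, ← mul_assoc]
    have e3 : ((mt z)ᴴ - 1) * (mt z - 1) = 1 - mt z + (1 - (mt z)ᴴ) := by
      have : (mt z)ᴴ * mt z = 1 := mt_unit' z
      rw [sub_mul, mul_sub, this]
      noncomm_ring
    rw [e3, add_mul]
    congr 1
    rw [sub_mul, mul_sub, hP.comm, one_mul, mul_one]
  rw [h1, trace_add, Complex.add_re, trace_conjTranspose]
  have : (star (trace (P * (1 - mt z)))).re = (trace (P * (1 - mt z))).re := by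
    rw [Complex.star_def, Complex.conj_re]
  rw [this]
  ring

lemma IPr.norm_mul_le (hP : IPr G P) (A : Mat N) : ‖P * A‖ ≤ ‖A‖ := by
  have h1 : ‖A‖ ^ 2 = ‖P * A‖ ^ 2 + ‖A - P * A‖ ^ 2 := by
    rw [norm_sq_ip, norm_sq_ip, norm_sq_ip, ip_apply, ip_apply, ip_apply, ← Complex.add_re,
      ← trace_add]
    congr 2
    rw [conjTranspose_mul, conjTranspose_sub, conjTranspose_mul, hP.herm]
    have e1 : Aᴴ * P * (P * A) = Aᴴ * P * A := by
      rw [← mul_assoc, mul_assoc Aᴴ P P, hP.idem]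
    have e2 : (Aᴴ - Aᴴ * P) * (A - P * A) = Aᴴ * A - Aᴴ * P * A - Aᴴ * P * A + Aᴴ * P * (P * A) := by
      noncomm_ring
    rw [e2, e1]
    abel
  have h2 := norm_nonneg (P * A)
  have h3 := norm_nonneg A
  nlinarith [sq_nonneg ‖A - P * A‖]

lemma IPr.wP_nonneg (hP : IPr G P) (z : G) : 0 ≤ wP P z := by rw [hP.wP_eq]; positivity

lemma IPr.wP_le (hP : IPr G P) (z : G) : wP P z ≤ nN z ^ 2 := by
  rw [hP.wP_eq]
  exact pow_le_pow_left₀ (norm_nonneg _) (hP.norm_mul_le _) 2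

variable (B : Frame G n)

/-- the test functions -/
def qP (P : Mat N) (z : G) : Fin n → ℝ := fun a => ip (P * B.X a) (mt z - 1)

lemma qP_cont (a : Fin n) : Continuous fun z : G => qP B P z a := by
  unfold qP
  exact (ip (P * B.X a)).continuous.comp (mt_cont.sub continuous_const)

lemma norm_X1 (a : Fin n) : ‖B.X a‖ = 1 := by
  have h3 : ‖B.X a‖ ^ 2 = 1 := by
    rw [norm_sq_ip]
    have := B.orth a a
    rw [if_pos rfl] at this
    exact this
  have := norm_nonneg (B.X a)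
  nlinarith

lemma IPr.norm_PX (hP : IPr G P) (a : Fin n) : ‖P * B.X a‖ ≤ 1 := by
  refine (hP.norm_mul_le _).trans ?_
  rw [norm_X1]

lemma IPr.abs_qP_le (hP : IPr G P) (a : Fin n) (z : G) : |qP B P z a| ≤ nN z := by
  unfold qP
  refine (abs_ip_le _ _).trans ?_
  have h1 := hP.norm_PX B a
  have h2 := nN_nonneg z
  have h3 : ‖mt z - 1‖ = nN z := rfl
  rw [h3]
  nlinarith

lemma dR_qP (z : G) (y : Fin n → ℝ) : N988.MK.dR (qP B P z) y = ip (P * LX B y) (mt z - 1) := by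
  unfold N988.MK.dR qP LX
  rw [Finset.mul_sum, ip_comm, map_sum]
  refine Finset.sum_congr rfl fun a _ => ?_
  rw [mul_smul_comm, map_smul, smul_eq_mul, ip_comm, mul_comm]

lemma ip_rsmul (A Z : Mat N) (c : ℝ) : ip A ((c : ℂ) • Z) = c * ip A Z := by
  rw [ip_apply, ip_apply, mul_smul_comm, trace_smul, smul_eq_mul, Complex.re_ofReal_mul]

/-- the identity behind the cancellation of the cubic terms -/
lemma ip_skew {P Y : Mat N} (hP : Pᴴ = P) (hY : Yᴴ = -Y) (hc : P * Y = Y * P) (j : ℕ)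
    (hj : Odd j) : ip P (Y ^ j) = 0 := by
  rw [ip_apply, hP]
  have h1 : (P * Y ^ j)ᴴ = -(P * Y ^ j) := by
    rw [conjTranspose_mul, hP, conjTranspose_pow, hY, hj.neg_pow, neg_mul]
    have : Commute P (Y ^ j) := Commute.pow_right hc j
    rw [this.eq]
  have h2 : star (trace (P * Y ^ j)) = -trace (P * Y ^ j) := by
    rw [← trace_conjTranspose, h1, trace_neg]
  have h3 := congrArg Complex.re h2
  rw [Complex.star_def, Complex.conj_re, Complex.neg_re] at h3
  linarith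

lemma PY_arith {P Y R : Mat N} {c : ℝ} (hP : Pᴴ = P) (hY : Yᴴ = -Y) (hc : P * Y = Y * P)
    (hR : ‖R‖ ≤ c * ‖Y‖ ^ 4) (hY1 : ‖Y‖ ≤ 1) {Z : Mat N}
    (hZ : Z = Y + (1 / 2 : ℂ) • Y ^ 2 + (1 / 6 : ℂ) • Y ^ 3 + R) :
    |ip (P * Y) Z + 2 * ip P Z| ≤ ‖P‖ * (1 + 3 * c) * ‖Y‖ ^ 4 := by
  have h1 : ∀ W : Mat N, ip (P * Y) W = -ip P (Y * W) := by
    intro W
    rw [ip_apply, ip_apply, hP, conjTranspose_mul, hY, hP, neg_mul, neg_mul, trace_neg,
      Complex.neg_re, ← hc, mul_assoc]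
  have k1 := ip_skew hP hY hc 1 (by decide)
  have k3 := ip_skew hP hY hc 3 (by decide)
  rw [pow_one] at k1
  have e2 : (1 / 2 : ℂ) = ((1 / 2 : ℝ) : ℂ) := by push_cast; ring
  have e6 : (1 / 6 : ℂ) = ((1 / 6 : ℝ) : ℂ) := by push_cast; ring
  have h2 : ip P (Y * Z) = ip P (Y ^ 2) + 1 / 6 * ip P (Y ^ 4) + ip P (Y * R) := by
    have : Y * Z = Y ^ 2 + ((1 / 2 : ℝ) : ℂ) • Y ^ 3 + ((1 / 6 : ℝ) : ℂ) • Y ^ 4 + Y * R := by
      rw [hZ, mul_add, mul_add, mul_add, mul_smul_comm, mul_smul_comm, e2, e6, ← sq, ← pow_succ',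
        ← pow_succ']
    rw [this, map_add, map_add, map_add, ip_rsmul, ip_rsmul, k3]
    ring
  have h3 : ip P Z = 1 / 2 * ip P (Y ^ 2) + ip P R := by
    rw [hZ, map_add, map_add, map_add, e2, e6, ip_rsmul, ip_rsmul, k1, k3]
    ring
  have h4 : ip (P * Y) Z + 2 * ip P Z = -(1 / 6 * ip P (Y ^ 4)) - ip P (Y * R) + 2 * ip P R := by
    rw [h1, h2, h3]; ring
  rw [h4]
  have b1 : |ip P (Y ^ 4)| ≤ ‖P‖ * ‖Y‖ ^ 4 := by
    refine (abs_ip_le _ _).trans (mul_le_mul_of_nonneg_left ?_ (norm_nonneg _))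
    exact norm_pow_le' Y (by norm_num)
  have b2 : |ip P (Y * R)| ≤ ‖P‖ * (c * ‖Y‖ ^ 4) := by
    refine (abs_ip_le _ _).trans (mul_le_mul_of_nonneg_left ?_ (norm_nonneg _))
    refine (norm_mul_le _ _).trans ?_
    have := norm_nonneg Y
    have := norm_nonneg R
    nlinarith
  have b3 : |ip P R| ≤ ‖P‖ * (c * ‖Y‖ ^ 4) :=
    (abs_ip_le _ _).trans (mul_le_mul_of_nonneg_left hR (norm_nonneg _))
  have p0 : 0 ≤ ‖P‖ * ‖Y‖ ^ 4 := by positivity
  have q1 := abs_le.1 b1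
  have q2 := abs_le.1 b2
  have q3 := abs_le.1 b3
  rw [abs_le]
  constructor <;> nlinarith [q1.1, q1.2, q2.1, q2.2, q3.1, q3.2]

lemma IPr.near_q (hP : IPr G P) (B : Frame G n) (hG : IsClosed (G : Set (UN N))) :
    ∃ Cw ρ : ℝ, 0 ≤ Cw ∧ 0 < ρ ∧ ∀ y : Fin n → ℝ, nE y < ρ →
      |N988.MK.dR (qP B P (Eg B hG y)) y - wP P (Eg B hG y)| ≤ Cw * nE y ^ 4 := by
  obtain ⟨C, ε, hC, hε, hb⟩ := exp_taylor (N := N)
  refine ⟨‖P‖ * (1 + 3 * C), min ε 1, by positivity, by positivity, fun y hy => ?_⟩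
  have h1 : nE y < ε := lt_of_lt_of_le hy (min_le_left _ _)
  have h2 : nE y < 1 := lt_of_lt_of_le hy (min_le_right _ _)
  have hYn : ‖LX B y‖ = nE y := Pool.Agent.N991.MK.norm_LX B y
  have h3 := hb (LX B y) (by rw [hYn]; exact h1)
  have hsk : (LX B y)ᴴ = -LX B y := by
    unfold LX
    rw [conjTranspose_sum, ← Finset.sum_neg_distrib]
    refine Finset.sum_congr rfl fun a _ => ?_
    rw [conjTranspose_smul, B.skewX, smul_neg]
    simp
  have h4 := PY_arith (P := P) (Y := LX B y)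
    (R := NormedSpace.exp (LX B y) - (1 + LX B y + (1 / 2 : ℂ) • LX B y ^ 2 +
      (1 / 6 : ℂ) • LX B y ^ 3)) (c := C) hP.herm hsk (hP.commX B hG y) h3 (by rw [hYn]; linarith)
    (Z := mt (Eg B hG y) - 1) (by
      rw [mt_Eg]
      unfold EM
      abel)
  rw [hYn] at h4
  have h5 : N988.MK.dR (qP B P (Eg B hG y)) y - wP P (Eg B hG y) =
      ip (P * LX B y) (mt (Eg B hG y) - 1) + 2 * ip P (mt (Eg B hG y) - 1) := by
    rw [dR_qP]
    unfold wP
    have e : ip P (mt (Eg B hG y) - 1) = -(trace (P * (1 - mt (Eg B hG y)))).re := by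
      rw [ip_apply, hP.herm, ← Complex.neg_re, ← trace_neg]
      congr 2
      noncomm_ring
    rw [e]
    ring
  rw [h5]
  exact h4

/-- the diagonal term -/
lemma IPr.diag (hP : IPr G P) (a : Fin n) (z : G) :
    |ip (P * B.X a) (mt z * B.X a) - ‖P * B.X a‖ ^ 2| ≤ nN z ^ 2 / 2 := by
  obtain ⟨A, hA⟩ : ∃ A : Mat N, A = 1 - mt z := ⟨_, rfl⟩
  obtain ⟨X, hX⟩ : ∃ X : Mat N, X = P * B.X a := ⟨_, rfl⟩
  have hPX : P * X = X := by rw [hX, ← mul_assoc, hP.idem]
  have e0 : ip (P * B.X a) (mt z * B.X a) = ip X (mt z * X) := by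
    rw [ip_apply, ip_apply, ← hX]
    have : Xᴴ * (mt z * X) = Xᴴ * (mt z * B.X a) := by
      calc Xᴴ * (mt z * X) = (Xᴴ * (mt z * P)) * B.X a := by rw [hX]; noncomm_ring
        _ = (Xᴴ * (P * mt z)) * B.X a := by rw [hP.comm]
        _ = ((P * X)ᴴ * mt z) * B.X a := by
            rw [conjTranspose_mul, hP.herm]; noncomm_ring
        _ = _ := by rw [hPX]; noncomm_ring
    rw [this]
  have h1 : ip X (mt z * X) = ‖X‖ ^ 2 + ip X ((mt z - 1) * X) := by
    rw [sub_mul, one_mul, map_sub, norm_sq_ip]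
    ring
  have h2 : ip X ((mt z - 1) * X) = -(1 / 2 * ‖(1 - mt z)ᴴ * X‖ ^ 2) := by
    rw [← hA]
    have hAA := one_sub_mul z A hA
    have h3 : ip X ((mt z - 1) * X) = ip X (((mt z)ᴴ - 1) * X) := by
      rw [ip_comm X (((mt z)ᴴ - 1) * X), ip_apply, ip_apply, conjTranspose_mul,
        conjTranspose_sub, conjTranspose_one, conjTranspose_conjTranspose, mul_assoc]
    have h4 : ‖Aᴴ * X‖ ^ 2 = ip X (A * Aᴴ * X) := by
      rw [norm_sq_ip, ip_apply, ip_apply, conjTranspose_mul, conjTranspose_conjTranspose]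
      congr 2
      noncomm_ring
    have h5 : ip X (A * Aᴴ * X) = -ip X ((mt z - 1) * X) - ip X (((mt z)ᴴ - 1) * X) := by
      rw [hAA, ← map_neg, ← map_sub]
      congr 1
      noncomm_ring
    rw [h4, h5, ← h3]
    ring
  rw [e0, ← hX, h1, h2, add_sub_cancel_left, abs_neg, abs_of_nonneg (by positivity)]
  have hX1 : ‖X‖ ≤ 1 := by rw [hX]; exact hP.norm_PX B a
  have h3 : ‖(1 - mt z)ᴴ * X‖ ≤ nN z * 1 := by
    refine (_root_.norm_mul_le _ _).trans ?_
    have : ‖(1 - mt z)ᴴ‖ = nN z := by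
      have e : ‖(1 - mt z)ᴴ‖ = ‖1 - mt z‖ := Matrix.frobenius_norm_conjTranspose _
      rw [e]; unfold nN; rw [norm_sub_rev]
    rw [this]
    exact mul_le_mul_of_nonneg_left hX1 (nN_nonneg z)
  have h4 := pow_le_pow_left₀ (norm_nonneg _) h3 2
  nlinarith

lemma qP_smo (a : Fin n) : Smo fun z : G => qP B P z a :=
  ⟨fun M => ip (P * B.X a) (M - 1), (ip (P * B.X a)).contDiff.comp (contDiff_id.sub contDiff_const),
    fun _ => rfl⟩

variable [CompactSpace G] [MeasurableSpace G] [BorelSpace G]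

lemma dR_qP' (hG : IsClosed (G : Set (UN N))) (a : Fin n) (z : G) :
    dR B hG (Pi.single a 1) (fun z : G => qP B P z a) z = ip (P * B.X a) (mt z * B.X a) := by
  have hF : ContDiff ℝ 1 fun M : Mat N => ip (P * B.X a) (M - 1) :=
    (ip (P * B.X a)).contDiff.comp (contDiff_id.sub contDiff_const)
  rw [dR_eq B hG (f := fun z : G => qP B P z a) hF (fun g => rfl), LX_sing]
  have h1 : HasFDerivAt (fun M : Mat N => ip (P * B.X a) (M - 1)) (ip (P * B.X a)) (mt z) := by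
    have h2 : (fun M : Mat N => ip (P * B.X a) (M - 1)) =
        fun M => ip (P * B.X a) M - ip (P * B.X a) 1 := by
      funext M; rw [map_sub]
    rw [h2]
    exact (ip (P * B.X a)).hasFDerivAt.sub_const _
  rw [h1.fderiv]

/-- **integration by parts** -/
lemma ibpP (hG : IsClosed (G : Set (UN N))) (μ : Measure G) [IsProbabilityMeasure μ]
    [μ.IsMulLeftInvariant] [μ.IsMulRightInvariant] [μ.IsInvInvariant] {f : G → ℝ}
    {F : (Mat N)ˣ → ℂ} (h : CF f F) (a : Fin n) :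
    ∫ z, (Dz B F z a * qP B P z a + f z * ip (P * B.X a) (mt z * B.X a)) ∂μ = 0 := by
  have h1 := int_dR (B := B) (μ := μ) hG (h.smo.mul (qP_smo (P := P) B a)) (Pi.single a 1)
  rw [← h1]
  refine integral_congr_ae (Eventually.of_forall fun z => ?_)
  beta_reduce
  rw [dR_mul B hG h.smo (qP_smo B a), dR_Dz hG h, dR_qP']

end

end Pool.Agent.N991.MK
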