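import Mathlib
import Pool.Agent.N991.MK.Fm5
import Pool.Agent.N991.MK.FmP

/-!
# The weak coupling law of the character of a constituent, conclusion
-/

open MeasureTheory Matrix Filter Metric
open scoped Matrix.Norms.Frobenius ContDiff Topology
open Pool.Agent.H906R3.YM Pool.Agent.W793.YM Pool.Agent.TH618.YM Pool.Agent.N984.TW
open Pool.Agent.N988.MK (St qC Lz Dz pz Lz_sum BC exists_BC Uf dC2 exists_pz
  Dz_cont pz_cont qC_rl Cst exists_Cst dC2_rl dR_le dR_sub nE_add_le)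

namespace Pool.Agent.N991.MK

set_option linter.unusedSectionVars false

noncomputable section

variable {N n : ℕ} {G : Subgroup (UN N)} {B : Frame G n} {hG : IsClosed (G : Set (UN N))}
variable [CompactSpace G] [MeasurableSpace G] [BorelSpace G] {P : Mat N}

/-- the arithmetic of the near estimate -/
lemma near_arithP {S f k M q w E V Cu Cw s : ℝ} (hf : 0 ≤ f) (hk : 0 ≤ k) (hM : 0 ≤ M)
    (hCu : 0 ≤ Cu) (hCw : 0 ≤ Cw) (hs : 0 ≤ s) (hE : 0 ≤ E)
    (h1 : |S + f * (k * q)| ≤ f * ((k / 4 * Cu + 81 * M) * s * E))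
    (h2 : |q - w| ≤ Cw * E) (h4 : E ≤ 2.5 * V) :
    |-S - k * (f * w)| ≤ ((Cu + 203) * s + 3 * Cw) * (k + M) * (f * V) := by
  have e : -S - k * (f * w) = -(S + f * (k * q)) + k * f * (q - w) := by ring
  have hkf : 0 ≤ k * f := mul_nonneg hk hf
  have h6 : |-S - k * (f * w)| ≤ f * ((k / 4 * Cu + 81 * M) * s * E) + k * f * (Cw * E) := by
    rw [e]
    refine (abs_add_le _ _).trans (add_le_add (by rwa [abs_neg]) ?_)
    rw [abs_mul, abs_of_nonneg hkf]
    exact mul_le_mul_of_nonneg_left h2 hkf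
  have h7 : f * ((k / 4 * Cu + 81 * M) * s * E) + k * f * (Cw * E) =
      ((k / 4 * Cu + 81 * M) * s + k * Cw) * (f * E) := by ring
  have h8 : f * E ≤ 2.5 * (f * V) := by
    calc f * E ≤ f * (2.5 * V) := mul_le_mul_of_nonneg_left h4 hf
      _ = _ := by ring
  have hfV : 0 ≤ f * V := by
    have : 0 ≤ f * E := mul_nonneg hf hE
    linarith
  have h9 : ((k / 4 * Cu + 81 * M) * s + k * Cw) * 2.5 ≤ ((Cu + 203) * s + 3 * Cw) * (k + M) := by
    have a1 : 0 ≤ k * Cu * s := by positivity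
    have a3 : 0 ≤ k * Cw := by positivity
    have a4 : 0 ≤ M * Cu * s := by positivity
    have a6 : 0 ≤ M * Cw := by positivity
    have a7 : 0 ≤ M * s := by positivity
    have a8 : 0 ≤ k * s := by positivity
    nlinarith
  calc |-S - k * (f * w)| ≤ ((k / 4 * Cu + 81 * M) * s + k * Cw) * (f * E) := by
        rw [← h7]; exact h6
    _ ≤ ((k / 4 * Cu + 81 * M) * s + k * Cw) * (2.5 * (f * V)) :=
        mul_le_mul_of_nonneg_left h8 (by positivity)
    _ = ((k / 4 * Cu + 81 * M) * s + k * Cw) * 2.5 * (f * V) := by ring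
    _ ≤ _ := mul_le_mul_of_nonneg_right h9 hfV

lemma nE_le_sqrt (q : Fin n → ℝ) {c : ℝ} (hc : 0 ≤ c) (h : ∀ a, |q a| ≤ c) :
    nE q ≤ Real.sqrt n * c := by
  unfold nE
  have h1 : ∑ a, q a ^ 2 ≤ n * c ^ 2 := by
    refine (Finset.sum_le_sum fun a _ => (sq_le_sq.2 (by rw [abs_of_nonneg hc]; exact h a) :
      q a ^ 2 ≤ c ^ 2)).trans ?_
    rw [Finset.sum_const, Finset.card_univ, Fintype.card_fin, nsmul_eq_mul]
  refine (Real.sqrt_le_sqrt h1).trans ?_
  rw [Real.sqrt_mul (Nat.cast_nonneg n), Real.sqrt_sq hc]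

lemma near_TP (hP : IPr G P) {r₀ C Cq Cu Cs Cp : ℝ}
    {b : (Fin n → ℂ) → (Fin n → ℂ) → (Fin n → ℂ)}
    (c : Cst B hG r₀ C b Cq Cu Cs Cp) {Cw ρ : ℝ} (hCw : 0 ≤ Cw)
    (hw : ∀ y : Fin n → ℝ, nE y < ρ →
      |N988.MK.dR (qP B P (Eg B hG y)) y - wP P (Eg B hG y)| ≤ Cw * nE y ^ 4)
    {r k M : ℝ} (hr : 0 < r) (hrr : r ≤ r₀) (hrρ : r ≤ ρ) (hk : 0 ≤ k) (hM : 0 ≤ M)
    {f : G → ℝ} {F : (Mat N)ˣ → ℂ} {m : (Fin n → ℂ) → ℂ} (hf : CF f F) (hpos : ∀ x, 0 < f x)
    (hs : Pool.Agent.N988.MK.St B r k M F m) {z : G} (hz : nN z ≤ r / 4) :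
    |(-∑ a, Dz B F z a * qP B P z a) - k * (f z * wP P z)| ≤
      ((Cu + 203) * Real.sqrt n + 3 * Cw) * (k + M) * (f z * nN z ^ 4) := by
  obtain ⟨y, hy, hy2⟩ := c.hl.lg z (by linarith)
  have hN0 := nN_nonneg z
  have hy0 := nE_nonneg y
  have hy3 : nE y < r / 3 := by linarith
  have h1' : F 1 ≠ 0 := by
    have := hf.res 1
    rw [map_one] at this
    rw [this]
    exact_mod_cast (hpos 1).ne'
  have hle := c.hl.le y
  rw [hy] at hle
  have hp2 : nE (qP B P z) ≤ Real.sqrt n * nE y :=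
    nE_le_sqrt _ hy0 fun a => (hP.abs_qP_le B a z).trans hle
  have hL := Pool.Agent.N988.MK.St.Lz_near (hG := hG) hs hf h1' c.h hrr hr hM hk c.hCu c.hu hy3
    (rl (qP B P z))
  rw [hy] at hL
  rw [Lz_sum (hG := hG) hf z (rl (qP B P z)), dC2_rl, nC_rl] at hL
  have e1 : (∑ a, rl (qP B P z) a * ((Dz B F z a : ℝ) : ℂ)) +
      (f z : ℂ) * ((k : ℂ) * (N988.MK.dR (qP B P z) y : ℂ))
      = ((∑ a, Dz B F z a * qP B P z a + f z * (k * N988.MK.dR (qP B P z) y) : ℝ) : ℂ) := by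
    push_cast
    congr 1
    refine Finset.sum_congr rfl fun a _ => ?_
    unfold rl
    ring
  rw [e1, Complex.norm_real, Real.norm_eq_abs, abs_of_pos (hpos z)] at hL
  have hCu := c.hCu
  refine near_arithP (E := nE y ^ 4) (q := N988.MK.dR (qP B P z) y) (hpos z).le hk hM hCu
    hCw (Real.sqrt_nonneg _) (by positivity) ?_ ?_ ?_
  · refine hL.trans (mul_le_mul_of_nonneg_left ?_ (hpos z).le)
    calc (k / 4 * Cu + 81 * M) * nE (qP B P z) * nE y ^ 3
        ≤ (k / 4 * Cu + 81 * M) * (Real.sqrt n * nE y) * nE y ^ 3 := by gcongr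
      _ = _ := by ring
  · have := hw y (by linarith)
    rw [hy] at this
    exact this
  · have h7 : nE y ^ 4 ≤ (5 / 4 * nN z) ^ 4 := pow_le_pow_left₀ hy0 hy2 4
    have h8 : (5 / 4 * nN z) ^ 4 = 625 / 256 * nN z ^ 4 := by ring
    have h9 : 0 ≤ nN z ^ 4 := by positivity
    linarith

/-- the far estimate -/
lemma far_TP (hP : IPr G P) {r k : ℝ} {f : G → ℝ} {F : (Mat N)ˣ → ℂ} (hf : CF f F)
    (hr : GoodR B r) (hk : 1 ≤ k) (ht : Tube B r k F) {z : G} (hz : r / 4 ≤ nN z) :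
    |(-∑ a, Dz B F z a * qP B P z a) - k * (f z * wP P z)| ≤
      (32 * n * Real.sqrt N / r + 4 * N) * (k * (‖F 1‖ * Real.exp (-(0.015 * r ^ 2 * k)))) := by
  have hp := hr.pos
  have hk0 : 0 ≤ k := by linarith
  have h0 := nN_nonneg z
  have hle := nN_le z
  obtain ⟨E, hE⟩ : ∃ E, E = ‖F 1‖ * Real.exp (-(0.015 * r ^ 2 * k)) := ⟨_, rfl⟩
  rw [← hE]
  have hE0 : 0 ≤ E := by rw [hE]; positivity
  have h1 : ∀ a, |Dz B F z a * qP B P z a| ≤ 16 / r * E * (2 * Real.sqrt N) := by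
    intro a
    rw [abs_mul]
    refine mul_le_mul ?_ ((hP.abs_qP_le B a z).trans hle) (abs_nonneg _) (by positivity)
    rw [hE]
    exact far_Dz hf.hol hr hk0 ht a hz
  have h2 : |(-∑ a, Dz B F z a * qP B P z a)| ≤ n * (16 / r * E * (2 * Real.sqrt N)) := by
    rw [abs_neg]
    refine (Finset.abs_sum_le_sum_abs _ _).trans ((Finset.sum_le_sum fun a _ => h1 a).trans ?_)
    rw [Finset.sum_const, Finset.card_univ, Fintype.card_fin, nsmul_eq_mul]
  have h3 : |k * (f z * wP P z)| ≤ k * (E * (4 * N)) := by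
    rw [abs_mul, abs_mul, abs_of_nonneg hk0, abs_of_nonneg (hP.wP_nonneg z)]
    have h4 : |f z| ≤ E := by
      refine (far_up hr hk0 hf ht hz).trans ?_
      rw [hE]
      refine mul_le_mul_of_nonneg_left (Real.exp_le_exp.2 ?_) (norm_nonneg _)
      have : 0 ≤ r ^ 2 * k := by positivity
      nlinarith
    have h5 : wP P z ≤ 4 * N := by
      refine (hP.wP_le z).trans ?_
      have h6 := pow_le_pow_left₀ h0 hle 2
      rw [mul_pow, Real.sq_sqrt (Nat.cast_nonneg N)] at h6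
      linarith
    have := hP.wP_nonneg z
    gcongr
  have h7 : n * (16 / r * E * (2 * Real.sqrt N)) ≤ 32 * n * Real.sqrt N / r * (k * E) := by
    have e : n * (16 / r * E * (2 * Real.sqrt N)) = 32 * n * Real.sqrt N / r * (1 * E) := by
      field_simp
      ring
    rw [e]
    gcongr
  calc |(-∑ a, Dz B F z a * qP B P z a) - k * (f z * wP P z)|
      ≤ n * (16 / r * E * (2 * Real.sqrt N)) + k * (E * (4 * N)) :=
        (abs_sub _ _).trans (add_le_add h2 h3)
    _ ≤ 32 * n * Real.sqrt N / r * (k * E) + k * (E * (4 * N)) := by gcongr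
    _ = _ := by ring

/-- the mean of the squared distance to the identity -/
theorem mean_lawP (B : Frame G n) (hG : IsClosed (G : Set (UN N))) (μ : Measure G)
    [IsProbabilityMeasure μ] [μ.IsMulLeftInvariant] [μ.IsMulRightInvariant] [μ.IsInvInvariant]
    (hP : IPr G P) :
    ∃ r2 : ℝ, 0 < r2 ∧ ∀ r : ℝ, 0 < r → r ≤ r2 → GoodR B r →
    ∃ k0 C : ℝ, 1 ≤ k0 ∧ 0 ≤ C ∧ ∀ {k M : ℝ} {f : G → ℝ} {F : (Mat N)ˣ → ℂ}
      {m : (Fin n → ℂ) → ℂ}, k0 ≤ k → 0 ≤ M → M * r ^ 2 ≤ k / 1000 → CF f F → (∀ x, 0 < f x) →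
      Pool.Agent.N988.MK.St B r k M F m → Tube B r k F →
      |k * (∫ z, f z * wP P z ∂μ) - (∑ a, ‖P * B.X a‖ ^ 2) * ∫ z, f z ∂μ| ≤
        C * (1 + M) / k * ∫ z, f z ∂μ := by
  obtain ⟨r₀, C₀, b, Cq, Cu, Cs, Cp, c⟩ := exists_Cst B hG
  obtain ⟨Cw, ρ, hCw, hρ, hw⟩ := hP.near_q B hG
  obtain ⟨m1, hm1, hmom1⟩ := moments1 (B := B) μ 1
  obtain ⟨m2, hm2, hmom2⟩ := moments1 (B := B) μ 2
  have hr₀ := c.h.pos
  refine ⟨min r₀ ρ, by positivity, fun r hr hrr hgr => ?_⟩
  have hrr₀ : r ≤ r₀ := hrr.trans (min_le_left _ _)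
  have hrρ : r ≤ ρ := hrr.trans (min_le_right _ _)
  obtain ⟨k1, hk1, hk1', hb⟩ := norm_beats1 (B := B) μ hgr (0.015 * r ^ 2) (by positivity) 2
  have hCu := c.hCu
  obtain ⟨K, hK⟩ : ∃ K, K = (Cu + 203) * Real.sqrt n + 3 * Cw := ⟨_, rfl⟩
  have hK0 : 0 ≤ K := by rw [hK]; positivity
  obtain ⟨L, hL⟩ : ∃ L, L = 32 * n * Real.sqrt N / r + 4 * N := ⟨_, rfl⟩
  have hL0 : 0 ≤ L := by rw [hL]; positivity
  refine ⟨k1, K * m2 + L + n / 2 * (m1 + 4 * N), hk1, by positivity,
    fun {k M f F m} hk hM hMr hf hpos hs ht => ?_⟩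
  have hk1k : 1 ≤ k := hk1.trans hk
  have hk0 : 0 < k := by linarith
  have hNs := Pool.Agent.N991.MK.St.toNear hs
  have hkr : 16 / r ^ 2 ≤ k := hk1'.trans hk
  obtain ⟨s2, hs2⟩ : ∃ s2, s2 = ∑ a, ‖P * B.X a‖ ^ 2 := ⟨_, rfl⟩
  obtain ⟨I, hI⟩ : ∃ I, I = ∫ z, f z ∂μ := ⟨_, rfl⟩
  obtain ⟨J, hJ⟩ : ∃ J, J = ∫ z, f z * wP P z ∂μ := ⟨_, rfl⟩
  obtain ⟨J2, hJ2⟩ : ∃ J2, J2 = ∫ z, f z * nN z ^ 2 ∂μ := ⟨_, rfl⟩
  obtain ⟨E, hE⟩ : ∃ E, E = ‖F 1‖ * Real.exp (-(0.015 * r ^ 2 * k)) := ⟨_, rfl⟩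
  have hE0 : 0 ≤ E := by rw [hE]; positivity
  have hEI : k ^ 2 * E ≤ I := by rw [hE, hI]; exact hb hk hMr hf hpos hNs
  have hI0 : 0 ≤ I := by rw [hI]; exact integral_nonneg fun z => (hpos z).le
  rw [← hI, ← hJ, ← hs2]
  have cN : Continuous (nN : G → ℝ) := nN_cont
  have cW : Continuous (wP P : G → ℝ) := wP_cont
  have cD : ∀ a, Continuous fun z : G => Dz B F z a := fun a => Dz_cont hf.hol a
  have cp : ∀ a, Continuous fun z : G => qP B P z a := fun a => qP_cont B a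
  have cT : Continuous fun z : G => -∑ a, Dz B F z a * qP B P z a :=
    (continuous_finsetSum _ fun a _ => (cD a).mul (cp a)).neg
  have cF := hf.cont
  have cfn : Continuous fun z : G => f z * nN z ^ 2 := cF.mul (cN.pow 2)
  have cfw : Continuous fun z : G => f z * wP P z := cF.mul cW
  have cfn4 : Continuous fun z : G => f z * nN z ^ 4 := cF.mul (cN.pow 4)
  -- the near and the far part of the derivative term
  have hEk : E ≤ I / k ^ 2 := by rw [le_div_iff₀ (by positivity)]; linarith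
  have hkE : k * E ≤ I / k := by
    rw [le_div_iff₀ hk0]
    calc k * E * k = k ^ 2 * E := by ring
      _ ≤ I := hEI
  have s1 : |∫ z, ((-∑ a, Dz B F z a * qP B P z a) - k * (f z * wP P z)) ∂μ| ≤
      K * (k + M) * (m2 / k ^ 2 * I) + L * (I / k) := by
    have h1 := split_le μ (φ := fun z => (-∑ a, Dz B F z a * qP B P z a) - k * (f z * wP P z))
      (ψ := fun z => K * (k + M) * (f z * nN z ^ 4)) (s := r / 4)
      (A := L * (k * E)) (cT.sub (continuous_const.mul cfw))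
      (continuous_const.mul cfn4) (by positivity)
      (fun z hz => by
        rw [hK]
        exact near_TP hP c hCw hw hr hrr₀ hrρ hk0.le hM hf hpos hs hz)
      (fun z hz => by
        rw [hL, hE]
        exact far_TP hP hf hgr hk1k ht hz)
    refine h1.trans (add_le_add ?_ (mul_le_mul_of_nonneg_left hkE hL0))
    rw [integral_const_mul]
    refine mul_le_mul_of_nonneg_left ?_ (by positivity)
    have h2 := hmom2 hgr hkr hMr hf hpos hNs
    rw [← hI] at h2
    rw [div_mul_eq_mul_div, le_div_iff₀ (by positivity)]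
    linarith
  have s2' : J2 ≤ m1 / k * I + 4 * N * E := by
    have h1 := split_le μ (φ := fun z => f z * nN z ^ 2)
      (ψ := fun z => f z * nN z ^ 2) (s := r / 4) (A := 4 * N * E) cfn cfn (by positivity)
      (fun z _ => by
        rw [abs_of_nonneg]
        have := (hpos z).le
        positivity)
      (fun z hz => by
        rw [abs_mul, abs_of_nonneg (by positivity : 0 ≤ nN z ^ 2)]
        have h4 : |f z| ≤ E := by
          refine (far_up hgr hk0.le hf ht hz).trans ?_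
          rw [hE]
          refine mul_le_mul_of_nonneg_left (Real.exp_le_exp.2 ?_) (norm_nonneg _)
          have : 0 ≤ r ^ 2 * k := by positivity
          nlinarith
        have h5 : nN z ^ 2 ≤ 4 * N := by
          have h6 := pow_le_pow_left₀ (nN_nonneg z) (nN_le z) 2
          rw [mul_pow, Real.sq_sqrt (Nat.cast_nonneg N)] at h6
          linarith
        calc |f z| * nN z ^ 2 ≤ E * (4 * N) := by gcongr
          _ = _ := by ring)
    refine ((le_abs_self _).trans (by rw [hJ2]; exact h1)).trans (add_le_add ?_ le_rfl)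
    have h2 := hmom1 hgr hkr hMr hf hpos hNs
    rw [← hI, pow_one] at h2
    rw [div_mul_eq_mul_div, le_div_iff₀ (by positivity)]
    linarith
  -- integration by parts
  have cip : ∀ a, Continuous fun z : G => ip (P * B.X a) (mt z * B.X a) := fun a =>
    (ip (P * B.X a)).continuous.comp (mt_cont.mul continuous_const)
  have ci : ∀ {φ : G → ℝ}, Continuous φ → Integrable φ μ := fun h => integrable_of_cont h
  have s3 : ∫ z, (-∑ a, Dz B F z a * qP B P z a) ∂μ =
      ∫ z, f z * ∑ a, ip (P * B.X a) (mt z * B.X a) ∂μ := by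
    have h1 : ∀ z, f z * ∑ a, ip (P * B.X a) (mt z * B.X a) - (-∑ a, Dz B F z a * qP B P z a) =
        ∑ a, (Dz B F z a * qP B P z a + f z * ip (P * B.X a) (mt z * B.X a)) := by
      intro z
      rw [Finset.sum_add_distrib, Finset.mul_sum]
      ring
    have h2 : ∫ z, (f z * ∑ a, ip (P * B.X a) (mt z * B.X a) -
        (-∑ a, Dz B F z a * qP B P z a)) ∂μ = 0 := by
      have i1 : ∀ a ∈ (Finset.univ : Finset (Fin n)), Integrable (fun z : G =>
          Dz B F z a * qP B P z a + f z * ip (P * B.X a) (mt z * B.X a)) μ := fun a _ =>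
        ci (((cD a).mul (cp a)).add (cF.mul (cip a)))
      rw [integral_congr_ae (Eventually.of_forall h1), integral_finsetSum _ i1]
      exact Finset.sum_eq_zero fun a _ => ibpP B hG μ hf a
    have i2 : Integrable (fun z : G => f z * ∑ a, ip (P * B.X a) (mt z * B.X a)) μ :=
      ci (cF.mul (continuous_finsetSum _ fun a _ => cip a))
    rw [integral_sub i2 (ci cT)] at h2
    linarith
  have s4 : |∫ z, f z * ∑ a, ip (P * B.X a) (mt z * B.X a) ∂μ - s2 * I| ≤ n / 2 * J2 := by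
    have h1 : ∫ z, f z * ∑ a, ip (P * B.X a) (mt z * B.X a) ∂μ - s2 * I =
        ∫ z, f z * ∑ a, (ip (P * B.X a) (mt z * B.X a) - ‖P * B.X a‖ ^ 2) ∂μ := by
      have i2 : Integrable (fun z : G => f z * ∑ a, ip (P * B.X a) (mt z * B.X a)) μ :=
        ci (cF.mul (continuous_finsetSum _ fun a _ => cip a))
      have i3 : Integrable (fun z : G => s2 * f z) μ := ci (continuous_const.mul cF)
      rw [hI, ← integral_const_mul, ← integral_sub i2 i3]
      refine integral_congr_ae (Eventually.of_forall fun z => ?_)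
      beta_reduce
      rw [Finset.sum_sub_distrib, ← hs2]
      ring
    rw [h1, hJ2, ← integral_const_mul]
    refine (abs_integral_le_integral_abs).trans (integral_mono (ci ?_).abs
      (ci (continuous_const.mul cfn)) fun z => ?_)
    · exact cF.mul (continuous_finsetSum _ fun a _ => (cip a).sub continuous_const)
    · beta_reduce
      rw [abs_mul, abs_of_pos (hpos z)]
      have h2 : |∑ a, (ip (P * B.X a) (mt z * B.X a) - ‖P * B.X a‖ ^ 2)| ≤ n * (nN z ^ 2 / 2) := by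
        refine (Finset.abs_sum_le_sum_abs _ _).trans ((Finset.sum_le_sum fun a _ =>
          hP.diag B a z).trans ?_)
        rw [Finset.sum_const, Finset.card_univ, Fintype.card_fin, nsmul_eq_mul]
      calc f z * |∑ a, (ip (P * B.X a) (mt z * B.X a) - ‖P * B.X a‖ ^ 2)| ≤
            f z * (n * (nN z ^ 2 / 2)) := mul_le_mul_of_nonneg_left h2 (hpos z).le
        _ = _ := by ring
  have i4 : Integrable (fun z : G => k * (f z * wP P z)) μ := ci (continuous_const.mul cfw)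
  rw [integral_sub (ci cT) i4, integral_const_mul, ← hJ, s3] at s1
  have hJ3 : J2 ≤ (m1 + 4 * N) * (I / k) := by
    have h1 : 4 * N * E ≤ 4 * N * (I / k) := by
      refine mul_le_mul_of_nonneg_left ?_ (by positivity)
      refine le_trans ?_ hkE
      nlinarith
    calc J2 ≤ m1 / k * I + 4 * N * E := s2'
      _ ≤ m1 / k * I + 4 * N * (I / k) := by linarith
      _ = _ := by ring
  have hfin : |k * J - s2 * I| ≤ K * (k + M) * (m2 / k ^ 2 * I) + L * (I / k) +
      n / 2 * ((m1 + 4 * N) * (I / k)) := by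
    have e : k * J - s2 * I = -((∫ z, f z * ∑ a, ip (P * B.X a) (mt z * B.X a) ∂μ) - k * J) +
        ((∫ z, f z * ∑ a, ip (P * B.X a) (mt z * B.X a) ∂μ) - s2 * I) := by ring
    rw [e]
    refine (abs_add_le _ _).trans (add_le_add (by rwa [abs_neg]) (s4.trans ?_))
    exact mul_le_mul_of_nonneg_left hJ3 (by positivity)
  refine fin_arith hk1k hM hK0 hm2.le hI0 hL0 (by positivity) (hfin.trans (le_of_eq ?_))
  ring

/-- the normalised character of the constituent -/
def chiP (P : Mat N) (x : G) : ℝ := (trace (P * mt x)).re / (trace P).re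

open Pool.Agent.N989.MK (WW) in
/-- **the weak coupling law of the Wilson observable in a constituent** -/
theorem wil_lawP (B : Frame G n) (hG : IsClosed (G : Set (UN N))) (μ : Measure G)
    [IsProbabilityMeasure μ] [μ.IsMulLeftInvariant] [μ.IsMulRightInvariant] [μ.IsInvInvariant]
    (hP : IPr G P) (hP0 : 0 < (trace P).re) :
    ∃ r2 : ℝ, 0 < r2 ∧ ∀ r : ℝ, 0 < r → r ≤ r2 → GoodR B r →
    ∃ k0 C : ℝ, 1 ≤ k0 ∧ 0 ≤ C ∧ ∀ {k M : ℝ} {f : G → ℝ} {F : (Mat N)ˣ → ℂ}
      {m : (Fin n → ℂ) → ℂ}, k0 ≤ k → 0 ≤ M → M * r ^ 2 ≤ k / 1000 → CF f F → (∀ x, 0 < f x) →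
      Pool.Agent.N988.MK.St B r k M F m → Tube B r k F →
      |1 - WW μ (chiP P : G → ℝ) f - ((∑ a, ‖P * B.X a‖ ^ 2) / (2 * (trace P).re)) / k| ≤
        C * (1 + M) / k ^ 2 := by
  obtain ⟨r2, hr2, h⟩ := mean_lawP B hG μ hP
  refine ⟨r2, hr2, fun r hr hrr hgr => ?_⟩
  obtain ⟨k0, C, hk0, hC, h⟩ := h r hr hrr hgr
  refine ⟨k0, C / (2 * (trace P).re), hk0, by positivity,
    fun {k M f F m} hk hM hMr hf hpos hs ht => ?_⟩
  have h1 := h hk hM hMr hf hpos hs ht
  have hk0' : 0 < k := by linarith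
  obtain ⟨t, ht⟩ : ∃ t, t = (trace P).re := ⟨_, rfl⟩
  rw [← ht] at hP0 ⊢
  have cF := hf.cont
  have cW : Continuous (wP P : G → ℝ) := wP_cont
  obtain ⟨I, hI⟩ : ∃ I, I = ∫ z, f z ∂μ := ⟨_, rfl⟩
  have hIpos : 0 < I := by
    rw [hI, integral_pos_iff_support_of_nonneg (fun z => (hpos z).le) (integrable_of_cont cF)]
    have h3 : Function.support f = Set.univ := by
      ext z; simp [(hpos z).ne']
    rw [h3, measure_univ]
    exact one_pos
  have h2 : ∫ z, f z * chiP P z ∂μ = I - (∫ z, f z * wP P z ∂μ) / (2 * t) := by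
    have h3 : ∀ z, f z * chiP P z = f z - (f z * wP P z) / (2 * t) := by
      intro z
      unfold chiP wP
      rw [mul_sub, mul_one, trace_sub, Complex.sub_re, ← ht]
      field_simp
      ring
    have i2 : Integrable (fun z : G => f z * wP P z / (2 * t)) μ :=
      integrable_of_cont ((cF.mul cW).div_const _)
    rw [integral_congr_ae (Eventually.of_forall h3), integral_sub (integrable_of_cont cF) i2,
      integral_div, hI]
  have h3 : 1 - WW μ (chiP P : G → ℝ) f - ((∑ a, ‖P * B.X a‖ ^ 2) / (2 * t)) / k =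
      (k * (∫ z, f z * wP P z ∂μ) - (∑ a, ‖P * B.X a‖ ^ 2) * I) / (2 * t * k * I) := by
    unfold WW
    rw [h2, ← hI]
    field_simp
    ring
  rw [h3, abs_div, abs_of_pos (by positivity : 0 < 2 * t * k * I), div_le_iff₀ (by positivity)]
  rw [← hI] at h1
  refine h1.trans (le_of_eq ?_)
  field_simp

end

end Pool.Agent.N991.MK
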