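import Mathlib
import Pool.Agent.N988.MK.Sharp
import Pool.Agent.N988.MK.State
import Pool.Agent.N991.MK.CNorm

/-!
# Functions of two variables, even in each of them, which vanish to order five
-/

open MeasureTheory Filter Metric Asymptotics Matrix
open scoped Matrix.Norms.Frobenius Topology ContDiff
open Pool.Agent.H906R3.YM Pool.Agent.W793.YM Pool.Agent.TH618.YM Pool.Agent.N984.TW
open Pool.Agent.N988.MK

namespace Pool.Agent.N991.MK

set_option linter.unusedSectionVars false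

noncomputable section

variable {n : ℕ}

/-- **the Schwarz lemma of order six for functions which are even in two groups of variables** -/
theorem ee_six {E : (Fin n → ℂ) → (Fin n → ℂ) → ℂ} {ρ K : ℝ} (hp : 0 < ρ) (hK0 : 0 ≤ K)
    (hEb : ∀ x y, nC x < ρ → nC y < ρ → ‖E x y‖ ≤ K * nC x ^ 2 * nC y ^ 2)
    (hEd : ∀ x y, nC x < ρ → nC y < ρ →
      DifferentiableAt ℂ (fun p : (Fin n → ℂ) × (Fin n → ℂ) => E p.1 p.2) (x, y))
    (hE1 : ∀ x y, nC x < ρ → nC y < ρ → E (-x) y = E x y)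
    (hE2 : ∀ x y, nC x < ρ → nC y < ρ → E x (-y) = E x y)
    (h5 : ∀ x y, (fun t : ℂ => E (t • x) (t • y)) =O[𝓝 0] fun t : ℂ => t ^ 5)
    {x y : Fin n → ℂ} (hx : nC x < ρ) (hy : nC y < ρ) :
    ‖E x y‖ ≤ 4 * K / ρ ^ 2 * nC x ^ 2 * nC y ^ 2 * max (nC x) (nC y) ^ 2 := by
  have hn : ∀ y : Fin n → ℂ, nC y < ρ → nC (-y) < ρ := fun y hy => by rwa [nC_neg]
  have hz : ∀ x y, nC x < ρ → nC y < ρ → nC x * nC y = 0 → E x y = 0 := by
    intro x y hx hy hxy
    have h1 := hEb x y hx hy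
    have h2 : K * nC x ^ 2 * nC y ^ 2 = K * (nC x * nC y) ^ 2 := by ring
    rw [h2, hxy] at h1
    exact norm_le_zero_iff.1 (h1.trans (by simp))
  obtain ⟨S, hS⟩ : ∃ S, S = K * ρ ^ 4 := ⟨_, rfl⟩
  have hS0 : 0 ≤ S := by rw [hS]; positivity
  -- six
  have h6 : ∀ x y, nC x < ρ → nC y < ρ → ‖E x y‖ ≤ S * (max (nC x) (nC y) / ρ) ^ 6 := by
    intro x y hx hy
    obtain ⟨m, hm⟩ : ∃ m, m = max (nC x) (nC y) := ⟨_, rfl⟩
    rw [← hm]
    have hmx : nC x ≤ m := by rw [hm]; exact le_max_left _ _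
    have hmy : nC y ≤ m := by rw [hm]; exact le_max_right _ _
    have hmr : m < ρ := by rw [hm]; exact max_lt hx hy
    have hm0 : 0 ≤ m := (nC_nonneg x).trans hmx
    rcases hm0.eq_or_lt with h0 | hmp
    · have : nC x * nC y = 0 := by
        have : nC x = 0 := le_antisymm (h0 ▸ hmx) (nC_nonneg x)
        rw [this, zero_mul]
      rw [hz x y hx hy this, norm_zero]
      positivity
    have hball : ∀ ζ ∈ ball (0 : ℂ) (ρ / m), nC (ζ • x) < ρ ∧ nC (ζ • y) < ρ := by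
      intro ζ hζ
      rw [mem_ball_zero_iff, lt_div_iff₀ hmp] at hζ
      rw [nC_smul, nC_smul]
      exact ⟨lt_of_le_of_lt (mul_le_mul_of_nonneg_left hmx (norm_nonneg _)) hζ,
        lt_of_le_of_lt (mul_le_mul_of_nonneg_left hmy (norm_nonneg _)) hζ⟩
    have h1m : (1 : ℂ) ∈ ball (0 : ℂ) (ρ / m) := by
      rw [mem_ball_zero_iff, norm_one, lt_div_iff₀ hmp, one_mul]; exact hmr
    have := even_six (g := fun ζ : ℂ => E (ζ • x) (ζ • y)) (ρ := ρ / m) (S := S) (by positivity)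
      (fun ζ hζ => by
        have h3 := hEd (ζ • x) (ζ • y) (hball ζ hζ).1 (hball ζ hζ).2
        have h4 : DifferentiableAt ℂ
            (fun ζ : ℂ => ((ζ • x, ζ • y) : (Fin n → ℂ) × (Fin n → ℂ))) ζ := by fun_prop
        exact (DifferentiableAt.comp
          (f := fun ζ : ℂ => ((ζ • x, ζ • y) : (Fin n → ℂ) × (Fin n → ℂ)))
          (g := fun p : (Fin n → ℂ) × (Fin n → ℂ) => E p.1 p.2) ζ h3 h4).differentiableWithinAt)
      (fun ζ hζ => by
        rw [neg_smul, neg_smul, hE1 _ _ (hball ζ hζ).1 (hn _ (hball ζ hζ).2),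
          hE2 _ _ (hball ζ hζ).1 (hball ζ hζ).2])
      (h5 x y)
      (fun ζ hζ => by
        refine (hEb _ _ (hball ζ hζ).1 (hball ζ hζ).2).trans ?_
        have g1 := (hball ζ hζ).1.le
        have g2 := (hball ζ hζ).2.le
        have g3 := nC_nonneg (ζ • x)
        have g4 := nC_nonneg (ζ • y)
        calc K * nC (ζ • x) ^ 2 * nC (ζ • y) ^ 2 ≤ K * ρ ^ 2 * ρ ^ 2 := by gcongr
          _ = S := by rw [hS]; ring)
      h1m
    simp only [one_smul, norm_one, one_div_div] at this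
    exact this
  obtain ⟨m, hm⟩ : ∃ m, m = max (nC x) (nC y) := ⟨_, rfl⟩
  rw [← hm]
  have hmx : nC x ≤ m := by rw [hm]; exact le_max_left _ _
  have hmy : nC y ≤ m := by rw [hm]; exact le_max_right _ _
  have hm0 : 0 ≤ m := (nC_nonneg x).trans hmx
  have hx0 := nC_nonneg x
  have hy0 := nC_nonneg y
  rcases lt_or_ge m (ρ / 2) with hmr | hmr
  · rcases hm0.eq_or_lt with h0 | hmp
    · have : nC x * nC y = 0 := by
        have : nC x = 0 := le_antisymm (h0 ▸ hmx) (nC_nonneg x)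
        rw [this, zero_mul]
      rw [hz x y (by linarith) (by linarith) this, norm_zero]
      positivity
    have := even_even (T := E) (r := 2 * m) (r' := 2 * m) (S := S * (2 * m / ρ) ^ 6)
      (fun x y hx hy => hEd x y (by linarith) (by linarith))
      (fun x y hx hy => hE1 x y (by linarith) (by linarith))
      (fun x y hx hy => hE2 x y (by linarith) (by linarith))
      (fun y hy => hz 0 y (by rw [nC_zero]; exact hp) (by linarith) (by rw [nC_zero, zero_mul]))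
      (fun x hx => hz x 0 (by linarith) (by rw [nC_zero]; exact hp) (by rw [nC_zero, mul_zero]))
      (fun x y hx hy => (h6 x y (by linarith) (by linarith)).trans (by
        have g1 : max (nC x) (nC y) ≤ 2 * m := max_le hx.le hy.le
        have g2 : 0 ≤ max (nC x) (nC y) := (nC_nonneg x).trans (le_max_left _ _)
        gcongr))
      (x := x) (y := y) (by linarith) (by linarith)
    refine this.trans (le_of_eq ?_)
    rw [hS]
    field_simp
    ring
  · refine (hEb x y hx hy).trans ?_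
    have h1 : 1 ≤ 4 * m ^ 2 / ρ ^ 2 := by
      rw [le_div_iff₀ (by positivity)]
      nlinarith
    have h2 : 0 ≤ K * nC x ^ 2 * nC y ^ 2 := by positivity
    calc K * nC x ^ 2 * nC y ^ 2 ≤ K * nC x ^ 2 * nC y ^ 2 * (4 * m ^ 2 / ρ ^ 2) :=
          le_mul_of_one_le_right h2 h1
      _ = _ := by field_simp

/-! ## the quartic part -/

/-- the second difference of a function in the additive sense -/
def T4 (m4 : (Fin n → ℂ) → ℂ) (x y : Fin n → ℂ) : ℂ :=
  m4 (x + y) + m4 (x - y) - 2 * m4 x - 2 * m4 y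

/-- what is needed from the quartic part of the action -/
structure Qrt (r M C₀ : ℝ) (m m4 : (Fin n → ℂ) → ℂ) : Prop where
  hC : 0 ≤ C₀
  df : Differentiable ℂ m4
  ev : ∀ x, m4 (-x) = m4 x
  hom : ∀ (c : ℂ) (x : Fin n → ℂ), m4 (c • x) = c ^ 4 * m4 x
  bd : ∀ x, ‖m4 x‖ ≤ M * nC x ^ 4
  near : ∀ x, nC x < r → ‖m x - m4 x‖ ≤ C₀ * nC x ^ 6
  hom2 : ∀ (c d : ℂ) (x y : Fin n → ℂ), T4 m4 (c • x) (d • y) = c ^ 2 * d ^ 2 * T4 m4 x y

lemma Qrt.T4_le {r M C₀ : ℝ} {m m4 : (Fin n → ℂ) → ℂ} (h : Qrt r M C₀ m m4) (hM : 0 ≤ M)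
    (x y : Fin n → ℂ) : ‖T4 m4 x y‖ ≤ 36 * M * nC x ^ 2 * nC y ^ 2 := by
  -- unit vectors
  have key : ∀ x y : Fin n → ℂ, nC x ≤ 1 → nC y ≤ 1 → ‖T4 m4 x y‖ ≤ 36 * M := by
    intro x y hx hy
    have h1 : ∀ w : Fin n → ℂ, nC w ≤ 2 → ‖m4 w‖ ≤ 16 * M := by
      intro w hw
      refine (h.bd w).trans ?_
      have := pow_le_pow_left₀ (nC_nonneg w) hw 4
      nlinarith
    have h2 : ∀ w : Fin n → ℂ, nC w ≤ 1 → ‖m4 w‖ ≤ M := by
      intro w hw
      refine (h.bd w).trans ?_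
      have := pow_le_pow_left₀ (nC_nonneg w) hw 4
      nlinarith
    have h3 := h1 (x + y) ((nC_add_le x y).trans (by linarith))
    have h4 := h1 (x - y) ((nC_sub_le x y).trans (by linarith))
    have h5 := h2 x hx
    have h6 := h2 y hy
    unfold T4
    have n4 : ‖2 * m4 x‖ = 2 * ‖m4 x‖ := by rw [norm_mul]; norm_num
    have n5 : ‖2 * m4 y‖ = 2 * ‖m4 y‖ := by rw [norm_mul]; norm_num
    calc _ ≤ ‖m4 (x + y)‖ + ‖m4 (x - y)‖ + ‖2 * m4 x‖ + ‖2 * m4 y‖ := by
          refine (norm_sub_le _ _).trans (add_le_add ?_ le_rfl)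
          refine (norm_sub_le _ _).trans (add_le_add ?_ le_rfl)
          exact norm_add_le _ _
      _ ≤ _ := by rw [n4, n5]; linarith
  by_cases hx0 : nC x = 0
  · have hx1 : x = 0 := nC_eq_zero hx0.le
    have h1 := h.hom2 0 1 x y
    rw [zero_smul, one_smul] at h1
    rw [hx1, h1]
    simp [nC_zero]
  by_cases hy0 : nC y = 0
  · have hy1 : y = 0 := nC_eq_zero hy0.le
    have h1 := h.hom2 1 0 x y
    rw [zero_smul, one_smul] at h1
    rw [hy1, h1]
    simp [nC_zero]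
  have px : 0 < nC x := lt_of_le_of_ne (nC_nonneg x) (Ne.symm hx0)
  have py : 0 < nC y := lt_of_le_of_ne (nC_nonneg y) (Ne.symm hy0)
  have ex : x = ((nC x : ℝ) : ℂ) • (((nC x)⁻¹ : ℝ) : ℂ) • x := by
    rw [smul_smul, ← Complex.ofReal_mul, mul_inv_cancel₀ hx0, Complex.ofReal_one, one_smul]
  have ey : y = ((nC y : ℝ) : ℂ) • (((nC y)⁻¹ : ℝ) : ℂ) • y := by
    rw [smul_smul, ← Complex.ofReal_mul, mul_inv_cancel₀ hy0, Complex.ofReal_one, one_smul]
  have ux : nC ((((nC x)⁻¹ : ℝ) : ℂ) • x) ≤ 1 := by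
    rw [nC_smul, Complex.norm_real, Real.norm_eq_abs, abs_of_pos (by positivity)]
    rw [inv_mul_cancel₀ hx0]
  have uy : nC ((((nC y)⁻¹ : ℝ) : ℂ) • y) ≤ 1 := by
    rw [nC_smul, Complex.norm_real, Real.norm_eq_abs, abs_of_pos (by positivity)]
    rw [inv_mul_cancel₀ hy0]
  have h1 := key _ _ ux uy
  have h2 := h.hom2 (nC x : ℝ) (nC y : ℝ) ((((nC x)⁻¹ : ℝ) : ℂ) • x) ((((nC y)⁻¹ : ℝ) : ℂ) • y)
  rw [← ex, ← ey] at h2
  rw [h2, norm_mul, norm_mul, norm_pow, norm_pow, Complex.norm_real, Complex.norm_real,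
    Real.norm_eq_abs, Real.norm_eq_abs, sq_abs, sq_abs]
  calc nC x ^ 2 * nC y ^ 2 * ‖T4 m4 ((((nC x)⁻¹ : ℝ) : ℂ) • x) ((((nC y)⁻¹ : ℝ) : ℂ) • y)‖ ≤
      nC x ^ 2 * nC y ^ 2 * (36 * M) := mul_le_mul_of_nonneg_left h1 (by positivity)
    _ = _ := by ring

variable {N : ℕ} {G : Subgroup (UN N)} {B : Frame G n} {hG : IsClosed (G : Set (UN N))}
variable {r₀ C : ℝ} {b : (Fin n → ℂ) → (Fin n → ℂ) → (Fin n → ℂ)}
variable {r k M Cm Cq Cu C₀ : ℝ} {F : (Mat N)ˣ → ℂ} {m m4 : (Fin n → ℂ) → ℂ} {f : G → ℝ}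
variable [CompactSpace G] [MeasurableSpace G] [BorelSpace G]

lemma T4_neg_right (x y : Fin n → ℂ) (hev : ∀ x, m4 (-x) = m4 x) : T4 m4 x (-y) = T4 m4 x y := by
  unfold T4
  rw [sub_neg_eq_add, ← sub_eq_add_neg, hev]
  ring

lemma T4_neg_left (x y : Fin n → ℂ) (hev : ∀ x, m4 (-x) = m4 x) : T4 m4 (-x) y = T4 m4 x y := by
  unfold T4
  have e1 : -x + y = -(x - y) := by abel
  have e2 : -x - y = -(x + y) := by abel
  rw [e1, e2, hev, hev, hev]
  ring

lemma T4_diff (hd : Differentiable ℂ m4) :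
    Differentiable ℂ fun p : (Fin n → ℂ) × (Fin n → ℂ) => T4 m4 p.1 p.2 := by
  unfold T4
  have h1 : Differentiable ℂ fun p : (Fin n → ℂ) × (Fin n → ℂ) => m4 (p.1 + p.2) :=
    hd.comp (differentiable_fst.add differentiable_snd)
  have h2 : Differentiable ℂ fun p : (Fin n → ℂ) × (Fin n → ℂ) => m4 (p.1 - p.2) :=
    hd.comp (differentiable_fst.sub differentiable_snd)
  have h3 : Differentiable ℂ fun p : (Fin n → ℂ) × (Fin n → ℂ) => m4 p.1 :=
    hd.comp differentiable_fst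
  have h4 : Differentiable ℂ fun p : (Fin n → ℂ) × (Fin n → ℂ) => m4 p.2 :=
    hd.comp differentiable_snd
  exact ((h1.add h2).sub (h3.const_mul 2)).sub (h4.const_mul 2)

/-- the jet of the quartic part along the product -/
lemma Qrt.jet (hq : Qrt r M C₀ m m4) (hr0 : 0 < r) (h : BC B r₀ C b)
    (x y : Fin n → ℂ) :
    (fun t : ℂ => m (b (t • x) (t • y)) - t ^ 4 * m4 (x + y)) =O[𝓝 0] fun t : ℂ => t ^ 5 := by
  have hp := h.pos
  have hC := h.Cpos
  -- the argument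
  obtain ⟨w, hw⟩ : ∃ w : ℂ → (Fin n → ℂ), w = fun t => b (t • x) (t • y) := ⟨_, rfl⟩
  have hxs : ∀ᶠ t in 𝓝 (0 : ℂ), nC (t • x) < r₀ := (nC_smul_tendsto x).eventually
    (gt_mem_nhds hp)
  have hys : ∀ᶠ t in 𝓝 (0 : ℂ), nC (t • y) < r₀ := (nC_smul_tendsto y).eventually
    (gt_mem_nhds hp)
  have hwb : ∀ᶠ t in 𝓝 (0 : ℂ), nC (w t - t • (x + y)) ≤ C * nC x * nC y * ‖t‖ ^ 2 := by
    filter_upwards [hxs, hys] with t h1 h2
    have h3 := h.near (t • x) (t • y) h1.le h2.le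
    rw [hw]
    have e : b (t • x) (t • y) - t • (x + y) = b (t • x) (t • y) - t • x - t • y := by
      rw [smul_add]; abel
    rw [e]
    refine h3.trans (le_of_eq ?_)
    rw [nC_smul, nC_smul]
    ring
  have hwn : ∀ᶠ t in 𝓝 (0 : ℂ), nC (w t) ≤ (C * nC x * nC y + nC x + nC y) * ‖t‖ := by
    have h1 : ∀ᶠ t in 𝓝 (0 : ℂ), ‖t‖ < 1 := by
      filter_upwards [ball_mem_nhds (0 : ℂ) one_pos] with t ht
      rwa [mem_ball_zero_iff] at ht
    filter_upwards [hwb, h1] with t h2 h3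
    have h4 := nC_add_le (w t - t • (x + y)) (t • (x + y))
    rw [sub_add_cancel] at h4
    rw [nC_smul] at h4
    have h5 := nC_add_le x y
    have h6 := norm_nonneg t
    have h7 : C * nC x * nC y * ‖t‖ ^ 2 ≤ C * nC x * nC y * ‖t‖ := by
      have h8 : ‖t‖ ^ 2 ≤ ‖t‖ := by nlinarith
      have h9 := nC_nonneg x
      have h10 := nC_nonneg y
      exact mul_le_mul_of_nonneg_left h8 (by positivity)
    have h8 := mul_le_mul_of_nonneg_left h5 h6
    linarith
  obtain ⟨D, hD⟩ : ∃ D, D = C * nC x * nC y + nC x + nC y := ⟨_, rfl⟩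
  have hD0 : 0 ≤ D := by
    have h9 := nC_nonneg x
    have h10 := nC_nonneg y
    rw [hD]; positivity
  rw [← hD] at hwn
  -- the remainder of order six
  have hwr : ∀ᶠ t in 𝓝 (0 : ℂ), nC (w t) < r := by
    have h1 : Tendsto (fun t : ℂ => D * ‖t‖) (𝓝 0) (𝓝 0) := by
      have : Continuous fun t : ℂ => D * ‖t‖ := by fun_prop
      have := this.tendsto 0
      simpa using this
    filter_upwards [hwn, h1.eventually (gt_mem_nhds hr0)] with t h2 h3
    linarith
  have p1 : (fun t : ℂ => m (w t) - m4 (w t)) =O[𝓝 0] fun t : ℂ => t ^ 5 := by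
    have p2 : (fun t : ℂ => m (w t) - m4 (w t)) =O[𝓝 0] fun t : ℂ => t ^ 6 := by
      refine IsBigO.of_bound (C₀ * D ^ 6) ?_
      filter_upwards [hwr, hwn] with t h1 h2
      have h3 := pow_le_pow_left₀ (nC_nonneg _) h2 6
      have h4 := hq.hC
      refine (hq.near _ h1).trans ((mul_le_mul_of_nonneg_left h3 h4).trans (le_of_eq ?_))
      rw [norm_pow]
      ring
    exact p2.trans (pw_le 5 6 (by norm_num))
  -- the quartic part
  have p3 : (fun t : ℂ => m4 (w t) - t ^ 4 * m4 (x + y)) =O[𝓝 0] fun t : ℂ => t ^ 5 := by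
    obtain ⟨v, hv⟩ : ∃ v : ℂ → (Fin n → ℂ), v = fun t => t⁻¹ • w t := ⟨_, rfl⟩
    -- the derivative bound at `x + y`
    have hd := (hq.df (x + y)).hasFDerivAt.isBigO_sub
    obtain ⟨K, hK0, hK⟩ := hd.exists_nonneg
    obtain ⟨δ, hδ, hb⟩ := Metric.eventually_nhds_iff.1 hK.bound
    have hsm : ∀ᶠ t in 𝓝 (0 : ℂ), C * nC x * nC y * ‖t‖ < δ := by
      have : Continuous fun t : ℂ => C * nC x * nC y * ‖t‖ := by fun_prop
      have h1 := this.tendsto 0
      simp only [norm_zero, mul_zero] at h1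
      exact h1.eventually (gt_mem_nhds hδ)
    refine IsBigO.of_bound (K * (C * nC x * nC y)) ?_
    filter_upwards [hwb, hsm] with t h1 h2
    by_cases ht : t = 0
    · have h3 : w 0 = 0 := by
        rw [hw]
        beta_reduce
        rw [zero_smul, zero_smul, h.zero_left (by rw [nC_zero]; exact hp.le)]
      have h4 : m4 0 = 0 := by
        have := hq.hom 0 0
        rw [zero_smul] at this
        rw [this]; simp
      rw [ht, h3, h4]
      simp
    have ht' : 0 < ‖t‖ := norm_pos_iff.2 ht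
    have e1 : w t = t • v t := by rw [hv]; beta_reduce; rw [smul_smul, mul_inv_cancel₀ ht, one_smul]
    have h3 : nC (v t - (x + y)) ≤ C * nC x * nC y * ‖t‖ := by
      have e2 : t • (v t - (x + y)) = w t - t • (x + y) := by rw [smul_sub, ← e1]
      have h4 := h1
      rw [← e2, nC_smul] at h4
      have h5 : ‖t‖ * nC (v t - (x + y)) ≤ ‖t‖ * (C * nC x * nC y * ‖t‖) := by
        refine h4.trans (le_of_eq ?_); ring
      exact le_of_mul_le_mul_left h5 ht'
    have h4 : ‖v t - (x + y)‖ ≤ nC (v t - (x + y)) :=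
      (pi_norm_le_iff_of_nonneg (nC_nonneg _)).2 fun a => abs_le_nC _ a
    have h5 := hb (y := v t) (by rw [dist_eq_norm]; linarith)
    rw [e1, hq.hom]
    have e3 : t ^ 4 * m4 (v t) - t ^ 4 * m4 (x + y) = t ^ 4 * (m4 (v t) - m4 (x + y)) := by ring
    rw [e3, norm_mul, norm_pow, norm_pow]
    calc ‖t‖ ^ 4 * ‖m4 (v t) - m4 (x + y)‖ ≤ ‖t‖ ^ 4 * (K * ‖v t - (x + y)‖) :=
          mul_le_mul_of_nonneg_left h5 (by positivity)
      _ ≤ ‖t‖ ^ 4 * (K * (C * nC x * nC y * ‖t‖)) := by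
          have := h4.trans h3
          gcongr
      _ = _ := by ring
  refine (p1.add p3).congr_left fun t => ?_
  rw [hw]
  ring

/-- **the second difference of the quartic part, with the exact leading term** -/
theorem St.T4_near (hs : St B r k M F m) (hf : CF f F) (h1 : F 1 ≠ 0) (h : BC B r₀ C b)
    (hG : IsClosed (G : Set (UN N))) (hr : r ≤ r₀) (hr0 : 0 < r) (hM : 0 ≤ M)
    (hq : Qrt r M C₀ m m4) {x y : Fin n → ℂ} (hx : nC x < r / 3) (hy : nC y < r / 3) :
    ‖Tf b m x y - T4 m4 x y‖ ≤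
      5184 * M / r ^ 2 * nC x ^ 2 * nC y ^ 2 * max (nC x) (nC y) ^ 2 := by
  have key := ee_six (E := fun x y => Tf b m x y - T4 m4 x y) (ρ := r / 3) (K := 144 * M)
    (by positivity) (by positivity) ?_ ?_ ?_ ?_ ?_ hx hy
  · refine key.trans (le_of_eq ?_)
    field_simp
    ring
  · intro x y hx hy
    have h2 := St.Tm hG hs hf h1 h hr hM (x := x) (y := y) (by linarith) hy
    have h3 := hq.T4_le hM x y
    refine (norm_sub_le _ _).trans ((add_le_add h2 h3).trans (le_of_eq ?_))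
    ring
  · intro x y hx hy
    exact (St.Tm_diff hs h hr (by linarith) hy).sub ((T4_diff hq.df) (x, y))
  · intro x y hx hy
    rw [T4_neg_left x y hq.ev, Tf_neg_left m x y (hs.even x (by linarith))
      (St.msym hG hs hf h1 h hr (by linarith) hy)]
    have := St.msym hG hs hf h1 h hr (x := x) (y := -y) (by linarith) (by rwa [nC_neg])
    rwa [neg_neg] at this
  · intro x y hx hy
    rw [T4_neg_right x y hq.ev, Tf_neg_right m x y (hs.even y (by linarith))]
  · intro x y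
    have j1 := hq.jet hr0 h x y
    have j2 := hq.jet hr0 h x (-y)
    have j3 := hq.jet hr0 h x 0
    have j4 := hq.jet hr0 h 0 y
    have hp := h.pos
    have hxs : ∀ᶠ t in 𝓝 (0 : ℂ), nC (t • x) < r₀ := (nC_smul_tendsto x).eventually
      (gt_mem_nhds hp)
    have hys : ∀ᶠ t in 𝓝 (0 : ℂ), nC (t • y) < r₀ := (nC_smul_tendsto y).eventually
      (gt_mem_nhds hp)
    have j5 := ((j1.add j2).sub (j3.const_mul_left 2)).sub (j4.const_mul_left 2)
    refine j5.congr' ?_ EventuallyEq.rfl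
    filter_upwards [hxs, hys] with t h2 h3
    rw [smul_zero, h.zero_right h2.le, h.zero_left h3.le, smul_neg, add_zero, zero_add]
    have e1 : T4 m4 (t • x) (t • y) = t ^ 4 * T4 m4 x y := by
      rw [hq.hom2]; ring
    rw [e1]
    unfold Tf T4
    rw [← sub_eq_add_neg]
    ring

end

end Pool.Agent.N991.MK
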