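import Mathlib
import Pool.Agent.N991.MK.Fm3
import Pool.Agent.N991.MK.FmP

/-!
# The fourth moments in linear coordinates, to leading order
-/

open MeasureTheory Filter Metric Asymptotics Matrix
open scoped Matrix.Norms.Frobenius Topology ContDiff
open Pool.Agent.H906R3.YM Pool.Agent.W793.YM Pool.Agent.TH618.YM Pool.Agent.N984.TW
open Pool.Agent.N988.MK

namespace Pool.Agent.N991.MK

set_option linter.unusedSectionVars false

noncomputable section

variable {N n : ℕ} {G : Subgroup (UN N)} {B : Frame G n} {hG : IsClosed (G : Set (UN N))}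

lemma nE_single (a : Fin n) : nE (Pi.single a (1 : ℝ)) = 1 := by
  unfold nE
  rw [Finset.sum_eq_single a]
  · simp
  · intro c _ hc
    simp [hc]
  · intro h; exact absurd (Finset.mem_univ _) h

lemma dR_single (a : Fin n) (v : Fin n → ℝ) : N988.MK.dR (Pi.single a (1 : ℝ)) v = v a := by
  unfold N988.MK.dR
  rw [Finset.sum_eq_single a]
  · simp
  · intro c _ hc
    simp [hc]
  · intro h; exact absurd (Finset.mem_univ _) h

variable [CompactSpace G] [MeasurableSpace G] [BorelSpace G] {μ : Measure G}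
  [IsProbabilityMeasure μ] [μ.IsMulLeftInvariant] [μ.IsMulRightInvariant] [μ.IsInvInvariant]
variable {r₀ C : ℝ} {b : (Fin n → ℂ) → (Fin n → ℂ) → (Fin n → ℂ)}
variable {r k M Cm Cq Cu Cs Cp Cy cA : ℝ} {F : (Mat N)ˣ → ℂ} {m : (Fin n → ℂ) → ℂ} {f : G → ℝ}

variable (B) in
/-- the derivative of a linear coordinate -/
def aM (c b : Fin n) (z : G) : ℝ := ip (B.X c) (mt z * B.X b)

lemma aM_cont (c b : Fin n) : Continuous fun z : G => aM B c b z := by
  unfold aM
  exact (ip (B.X c)).continuous.comp (mt_cont.mul continuous_const)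

lemma dR_pz2 (hG : IsClosed (G : Set (UN N))) (c b : Fin n) (z : G) :
    dR B hG (Pi.single b 1) (fun z : G => pz B z c) z = aM B c b z := by
  have hF : ContDiff ℝ 1 fun M : Mat N => ip (B.X c) (M - 1) :=
    (ip (B.X c)).contDiff.comp (contDiff_id.sub contDiff_const)
  rw [dR_eq B hG (f := fun z : G => pz B z c) hF (fun g => rfl), LX_sing]
  have h1 : HasFDerivAt (fun M : Mat N => ip (B.X c) (M - 1)) (ip (B.X c)) (mt z) := by
    have h2 : (fun M : Mat N => ip (B.X c) (M - 1)) = fun M => ip (B.X c) M - ip (B.X c) 1 := by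
      funext M; rw [map_sub]
    rw [h2]
    exact (ip (B.X c)).hasFDerivAt.sub_const _
  rw [h1.fderiv]
  rfl

lemma mt_inv_eq (z : G) : mt z⁻¹ = (mt z)ᴴ := mt_inv_star z

lemma aM_le (c b : Fin n) (z : G) : |aM B c b z| ≤ 1 := by
  unfold aM
  refine (abs_ip_le _ _).trans ?_
  rw [norm_mt_mul, norm_X1, norm_X1, one_mul]

lemma aM_sym (c b : Fin n) (z : G) :
    |aM B c b z + aM B c b z⁻¹ - 2 * (if b = c then 1 else 0)| ≤ nN z ^ 2 := by
  have h1 : ip (B.X c) (B.X b) = if b = c then 1 else 0 := by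
    have := B.orth c b
    rw [ip_apply, this]
    simp [eq_comm]
  have h2 : mt z * mt z⁻¹ = 1 := by rw [← mt_mul, mul_inv_cancel, mt_one]
  have h3 : aM B c b z + aM B c b z⁻¹ - 2 * (if b = c then 1 else 0) =
      ip (B.X c) (-((mt z - 1) * (mt z⁻¹ - 1)) * B.X b) := by
    rw [← h1]
    unfold aM
    have e : -((mt z - 1) * (mt z⁻¹ - 1)) * B.X b =
        mt z * B.X b + mt z⁻¹ * B.X b - (B.X b + B.X b) := by
      have : (mt z - 1) * (mt z⁻¹ - 1) = 1 + 1 - mt z - mt z⁻¹ := by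
        rw [sub_mul, mul_sub, h2, mul_one, one_mul]; abel
      rw [this]
      noncomm_ring
    rw [e, map_sub, map_add, map_add]
    ring
  rw [h3]
  refine (abs_ip_le _ _).trans ?_
  rw [norm_X1, one_mul]
  refine (norm_mul_le _ _).trans ?_
  rw [norm_X1, mul_one, norm_neg]
  refine (norm_mul_le _ _).trans ?_
  have h4 : ‖mt z⁻¹ - 1‖ = nN z := nN_inv z
  rw [h4, sq]
  exact le_rfl

lemma pz_inv (z : G) (a : Fin n) : pz B z⁻¹ a = -pz B z a := by
  unfold pz pc
  have h1 : mt z⁻¹ - 1 = (mt z - 1)ᴴ := by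
    rw [mt_inv_star, conjTranspose_sub, conjTranspose_one]
  rw [h1, ip_apply, ip_apply, B.skewX a, neg_mul, neg_mul, trace_neg, trace_neg]
  have h2 : trace (B.X a * (mt z - 1)ᴴ) = star (trace ((mt z - 1) * (B.X a)ᴴ)) := by
    rw [← trace_conjTranspose, conjTranspose_mul, conjTranspose_conjTranspose]
  rw [h2, B.skewX a, mul_neg, trace_neg, trace_mul_comm]
  simp

/-- integrals over the near set are invariant under inversion -/
lemma inv_near {φ : G → ℝ} : ∫ z in {z : G | nN z ≤ r / 4}, φ z⁻¹ ∂μ =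
    ∫ z in {z : G | nN z ≤ r / 4}, φ z ∂μ := by
  rw [← integral_indicator meas_near, ← integral_indicator meas_near,
    ← integral_inv_eq_self (μ := μ) fun z => {z : G | nN z ≤ r / 4}.indicator (fun z => φ z) z]
  refine integral_congr_ae (Eventually.of_forall fun z => ?_)
  beta_reduce
  have h1 : nN z⁻¹ = nN z := nN_inv z
  by_cases hz : nN z ≤ r / 4
  · rw [Set.indicator_of_mem (show z ∈ {z : G | nN z ≤ r / 4} from hz),
      Set.indicator_of_mem (show z⁻¹ ∈ {z : G | nN z ≤ r / 4} by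
        show nN z⁻¹ ≤ r / 4; rw [h1]; exact hz)]
  · rw [Set.indicator_of_notMem (show z ∉ {z : G | nN z ≤ r / 4} from hz),
      Set.indicator_of_notMem (show z⁻¹ ∉ {z : G | nN z ≤ r / 4} by
        show ¬nN z⁻¹ ≤ r / 4; rw [h1]; exact hz)]

lemma f_inv (hf : CF f F) (z : G) : f z⁻¹ = f z := by
  have h := hf.sym (uG z)
  rw [← map_inv, hf.res, hf.res] at h
  exact_mod_cast h

/-- the coefficient of the far part -/
def sN (N : ℕ) : ℝ := 2 * Real.sqrt N

lemma sN_nonneg (N : ℕ) : 0 ≤ sN N := by unfold sN; positivity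

/-- the error of the fourth moments -/
def E4 (N : ℕ) (Cm Cu Cp r k M : ℝ) : ℝ :=
  4 * K2 Cu Cp k M * (200 / k ^ 2 * (Cm / k)) +
    sN N ^ 3 * (1 / k ^ 2 + 256 / (r ^ 2 * k ^ 4)) +
    3 * (1 / 2 * (10 / k * (Cm / k)) + sN N ^ 2 * (1 / k ^ 2))

section

variable (Z : Hz B hG μ r₀ C b r k M Cm Cq Cu Cs Cp cA f F m)
include Z

/-- one term of the derivative -/
lemma a_term (β c d e : Fin n) :
    |∫ z, (f z) ^ 2 * (aM B c β z * (pz B z d * pz B z e)) ∂μ -
      (if β = c then PQ B μ r f d e else 0)| ≤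
      (1 / 2 * (10 / k * (Cm / k)) + sN N ^ 2 * (1 / k ^ 2)) * ∫ z, (f z) ^ 2 ∂μ := by
  have H := Z.H
  have hk := H.hk
  have hfc : Continuous f := H.hf.cont
  obtain ⟨W, hWd⟩ : ∃ W : ℝ, W = ∫ z : G, (f z) ^ 2 ∂μ := ⟨_, rfl⟩
  have hpc : Continuous fun z : G => pz B z d * pz B z e := (pz_cont d).mul (pz_cont e)
  have hac : Continuous fun z : G => aM B c β z := aM_cont c β
  have hinv : Continuous fun z : G => aM B c β z⁻¹ := hac.comp continuous_inv
  have hc1 : Continuous fun z : G => (f z) ^ 2 * (aM B c β z * (pz B z d * pz B z e)) :=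
    (hfc.pow 2).mul (hac.mul hpc)
  have hc2 : Continuous fun z : G => (f z) ^ 2 * (aM B c β z⁻¹ * (pz B z d * pz B z e)) :=
    (hfc.pow 2).mul (hinv.mul hpc)
  obtain ⟨δ, hδ⟩ : ∃ δ : ℝ, δ = if β = c then 1 else 0 := ⟨_, rfl⟩
  have e0 : (if β = c then PQ B μ r f d e else 0) = δ * PQ B μ r f d e := by
    rw [hδ]; split_ifs <;> simp
  rw [split_intR (μ := μ) (r := r) hc1, e0, ← hWd]
  -- the near part
  have n1 : ∫ z in {z : G | nN z ≤ r / 4}, (f z) ^ 2 * (aM B c β z * (pz B z d * pz B z e)) ∂μ =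
      ∫ z in {z : G | nN z ≤ r / 4}, (f z) ^ 2 * (aM B c β z⁻¹ * (pz B z d * pz B z e)) ∂μ := by
    rw [← inv_near (φ := fun z => (f z) ^ 2 * (aM B c β z * (pz B z d * pz B z e)))]
    refine integral_congr_ae (Eventually.of_forall fun z => ?_)
    beta_reduce
    rw [f_inv H.hf, pz_inv, pz_inv]
    ring
  have n2 : (∫ z in {z : G | nN z ≤ r / 4}, (f z) ^ 2 * (aM B c β z * (pz B z d * pz B z e)) ∂μ) -
      δ * PQ B μ r f d e = 1 / 2 * ∫ z in {z : G | nN z ≤ r / 4}, (f z) ^ 2 *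
        ((aM B c β z + aM B c β z⁻¹ - 2 * δ) * (pz B z d * pz B z e)) ∂μ := by
    have i1 : IntegrableOn (fun z : G => (f z) ^ 2 * (aM B c β z * (pz B z d * pz B z e)))
      {z : G | nN z ≤ r / 4} μ := (intgR hc1).integrableOn
    have i2 : IntegrableOn (fun z : G => (f z) ^ 2 * (aM B c β z⁻¹ * (pz B z d * pz B z e)))
      {z : G | nN z ≤ r / 4} μ := (intgR hc2).integrableOn
    have i3 : IntegrableOn (fun z : G => (f z) ^ 2 * (pz B z d * pz B z e))
      {z : G | nN z ≤ r / 4} μ := (intgR ((hfc.pow 2).mul hpc)).integrableOn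
    have e1 : ∀ z : G, (f z) ^ 2 *
        ((aM B c β z + aM B c β z⁻¹ - 2 * δ) * (pz B z d * pz B z e)) =
        ((f z) ^ 2 * (aM B c β z * (pz B z d * pz B z e)) +
          (f z) ^ 2 * (aM B c β z⁻¹ * (pz B z d * pz B z e))) -
          2 * δ * ((f z) ^ 2 * (pz B z d * pz B z e)) := by
      intro z; ring
    have e2 : ∫ z in {z : G | nN z ≤ r / 4}, (f z) ^ 2 *
        ((aM B c β z + aM B c β z⁻¹ - 2 * δ) * (pz B z d * pz B z e)) ∂μ =
        ((∫ z in {z : G | nN z ≤ r / 4}, (f z) ^ 2 * (aM B c β z * (pz B z d * pz B z e)) ∂μ) +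
        ∫ z in {z : G | nN z ≤ r / 4}, (f z) ^ 2 * (aM B c β z⁻¹ * (pz B z d * pz B z e)) ∂μ) -
        2 * δ * ∫ z in {z : G | nN z ≤ r / 4}, (f z) ^ 2 * (pz B z d * pz B z e) ∂μ := by
      have i4 : IntegrableOn (fun z : G => (f z) ^ 2 * (aM B c β z * (pz B z d * pz B z e)) +
        (f z) ^ 2 * (aM B c β z⁻¹ * (pz B z d * pz B z e))) {z : G | nN z ≤ r / 4} μ := i1.add i2
      have i5 : IntegrableOn (fun z : G => 2 * δ * ((f z) ^ 2 * (pz B z d * pz B z e)))
        {z : G | nN z ≤ r / 4} μ := i3.const_mul _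
      rw [integral_congr_ae (Eventually.of_forall e1), integral_sub i4 i5, integral_add i1 i2,
        integral_const_mul]
    rw [e2, ← n1]
    unfold PQ
    ring
  have n3 : |∫ z in {z : G | nN z ≤ r / 4}, (f z) ^ 2 *
      ((aM B c β z + aM B c β z⁻¹ - 2 * δ) * (pz B z d * pz B z e)) ∂μ| ≤
      10 / k * (Cm / k * W) := by
    have h2 := mom4 H.hi H.hf hk
    rw [← hWd] at h2
    refine (abs_integral_le_integral_abs).trans (le_trans ?_ h2)
    refine setIntegral_mono_on ?_ ?_ meas_near fun z _ => ?_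
    · refine ((intgR ((hfc.pow 2).mul (Continuous.mul ?_ hpc))).abs).integrableOn
      exact (hac.add hinv).sub continuous_const
    · exact (intgR ((hfc.pow 2).mul (N988.MK.nN_cont.pow 4))).integrableOn
    · rw [abs_mul, abs_mul, abs_mul, abs_of_nonneg (sq_nonneg (f z))]
      have h3 := aM_sym (B := B) c β z
      rw [← hδ] at h3
      have h4 := abs_pz_le (B := B) d z
      have h5 := abs_pz_le (B := B) e z
      have h6 := nN_nonneg z
      calc f z ^ 2 * (|aM B c β z + aM B c β z⁻¹ - 2 * δ| * (|pz B z d| * |pz B z e|)) ≤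
          f z ^ 2 * (nN z ^ 2 * (nN z * nN z)) := by gcongr
        _ = _ := by ring
  have f1 : |∫ z in {z : G | r / 4 < nN z}, (f z) ^ 2 * (aM B c β z * (pz B z d * pz B z e)) ∂μ| ≤
      sN N ^ 2 * (1 / k ^ 2 * W) := by
    have h2 := H.hi.far0 H.hf H.h1 H.hr0
    rw [← hWd] at h2
    have hm : MeasurableSet {z : G | r / 4 < nN z} :=
      (isOpen_lt continuous_const N988.MK.nN_cont).measurableSet
    refine (abs_integral_le_integral_abs).trans ?_
    have h3 : ∫ z in {z : G | r / 4 < nN z}, |(f z) ^ 2 * (aM B c β z *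
        (pz B z d * pz B z e))| ∂μ ≤ ∫ z in {z : G | r / 4 < nN z}, sN N ^ 2 * (f z) ^ 2 ∂μ := by
      refine setIntegral_mono_on ((intgR hc1).abs).integrableOn
        ((intgR (hfc.pow 2)).const_mul _).integrableOn hm fun z _ => ?_
      rw [abs_mul, abs_mul, abs_mul, abs_of_nonneg (sq_nonneg (f z))]
      have h3 := aM_le (B := B) c β z
      have h4 := (abs_pz_le (B := B) d z).trans (nN_le z)
      have h5 := (abs_pz_le (B := B) e z).trans (nN_le z)
      have h6 : |pz B z d| * |pz B z e| ≤ sN N * sN N :=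
        mul_le_mul h4 h5 (abs_nonneg _) (sN_nonneg N)
      calc f z ^ 2 * (|aM B c β z| * (|pz B z d| * |pz B z e|)) ≤
          f z ^ 2 * (1 * (sN N * sN N)) := by
            have := sN_nonneg N
            gcongr
        _ = _ := by ring
    refine h3.trans ?_
    rw [integral_const_mul]
    exact mul_le_mul_of_nonneg_left h2 (sq_nonneg _)
  have e3 : (∫ z in {z : G | nN z ≤ r / 4}, (f z) ^ 2 * (aM B c β z * (pz B z d * pz B z e)) ∂μ) +
      (∫ z in {z : G | r / 4 < nN z}, (f z) ^ 2 * (aM B c β z * (pz B z d * pz B z e)) ∂μ) -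
      δ * PQ B μ r f d e = ((∫ z in {z : G | nN z ≤ r / 4}, (f z) ^ 2 *
        (aM B c β z * (pz B z d * pz B z e)) ∂μ) - δ * PQ B μ r f d e) +
      (∫ z in {z : G | r / 4 < nN z}, (f z) ^ 2 * (aM B c β z * (pz B z d * pz B z e)) ∂μ) := by
    ring
  rw [e3, n2]
  refine (abs_add_le _ _).trans ?_
  rw [abs_mul, abs_of_pos (show (0 : ℝ) < 1 / 2 by norm_num)]
  calc _ ≤ 1 / 2 * (10 / k * (Cm / k * W)) + sN N ^ 2 * (1 / k ^ 2 * W) := by
        have := mul_le_mul_of_nonneg_left n3 (show (0 : ℝ) ≤ 1 / 2 by norm_num)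
        linarith
    _ = _ := by ring

/-- **the fourth moments** -/
theorem mom4_tensor (β c d e : Fin n) :
    |2 * k * (∫ z in {z : G | nN z ≤ r / 4}, (f z) ^ 2 *
        (pz B z β * (pz B z c * (pz B z d * pz B z e))) ∂μ) -
      ((if β = c then PQ B μ r f d e else 0) + (if β = d then PQ B μ r f c e else 0) +
        (if β = e then PQ B μ r f c d else 0))| ≤
      E4 N Cm Cu Cp r k M * ∫ z, (f z) ^ 2 ∂μ := by
  have H := Z.H
  have hk := H.hk
  have hr0 := H.hr0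
  have hfc : Continuous f := H.hf.cont
  have hK := Z.K2_nonneg
  obtain ⟨W, hWd⟩ : ∃ W : ℝ, W = ∫ z : G, (f z) ^ 2 ∂μ := ⟨_, rfl⟩
  obtain ⟨φ, hφ⟩ : ∃ φ : G → ℝ, φ = fun z => pz B z c * (pz B z d * pz B z e) := ⟨_, rfl⟩
  obtain ⟨D, hD⟩ : ∃ D : G → ℝ, D = fun z => Dz B F z β := ⟨_, rfl⟩
  have hDc : Continuous D := by rw [hD]; exact Dz_cont H.hf.hol β
  have hsp : ∀ a : Fin n, Smo fun z : G => pz B z a := fun a => pz_smo a
  have hφs : Smo φ := by rw [hφ]; exact (hsp c).mul ((hsp d).mul (hsp e))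
  have hφc : Continuous φ := hφs.cont
  have hfs : Smo f := H.hf.smo
  -- integration by parts
  have h1 := int_dR (B := B) (μ := μ) hG ((hfs.mul hfs).mul hφs) (Pi.single β 1)
  have h2 : ∀ z : G, dR B hG (Pi.single β 1) (fun z => f z * f z * φ z) z =
      2 * (f z * D z * φ z) + ((f z) ^ 2 * (aM B c β z * (pz B z d * pz B z e)) +
        (f z) ^ 2 * (aM B d β z * (pz B z c * pz B z e)) +
        (f z) ^ 2 * (aM B e β z * (pz B z c * pz B z d))) := by
    intro z
    rw [dR_mul B hG (hfs.mul hfs) hφs, dR_mul B hG hfs hfs, dR_Dz hG H.hf]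
    have h3 : dR B hG (Pi.single β 1) φ z = aM B c β z * (pz B z d * pz B z e) +
        pz B z c * (aM B d β z * pz B z e + pz B z d * aM B e β z) := by
      rw [hφ, dR_mul B hG (hsp c) ((hsp d).mul (hsp e)), dR_mul B hG (hsp d) (hsp e),
        dR_pz2, dR_pz2, dR_pz2]
    rw [h3, hD, hφ]
    ring
  have hac : ∀ c d e : Fin n, Continuous fun z : G =>
      (f z) ^ 2 * (aM B c β z * (pz B z d * pz B z e)) := fun c d e =>
    (hfc.pow 2).mul ((aM_cont c β).mul ((pz_cont d).mul (pz_cont e)))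
  have j0 : Integrable (fun z : G => f z * D z * φ z) μ := intgR ((hfc.mul hDc).mul hφc)
  have j1 := intgR (μ := μ) (hac c d e)
  have j2 := intgR (μ := μ) (hac d c e)
  have j3 := intgR (μ := μ) (hac e c d)
  have h3 : 2 * (∫ z, f z * D z * φ z ∂μ) +
      ((∫ z, (f z) ^ 2 * (aM B c β z * (pz B z d * pz B z e)) ∂μ) +
        (∫ z, (f z) ^ 2 * (aM B d β z * (pz B z c * pz B z e)) ∂μ) +
        ∫ z, (f z) ^ 2 * (aM B e β z * (pz B z c * pz B z d)) ∂μ) = 0 := by
    have i1 : Integrable (fun z : G => (f z) ^ 2 * (aM B c β z * (pz B z d * pz B z e)) +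
        (f z) ^ 2 * (aM B d β z * (pz B z c * pz B z e))) μ := j1.add j2
    have i2 : Integrable (fun z : G => (f z) ^ 2 * (aM B c β z * (pz B z d * pz B z e)) +
        (f z) ^ 2 * (aM B d β z * (pz B z c * pz B z e)) +
        (f z) ^ 2 * (aM B e β z * (pz B z c * pz B z d))) μ := i1.add j3
    have i3 : Integrable (fun z : G => 2 * (f z * D z * φ z)) μ := j0.const_mul 2
    rw [← h1, integral_congr_ae (Eventually.of_forall h2), integral_add i3 i2,
      integral_add i1 j3, integral_add j1 j2, integral_const_mul]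
  -- near and far parts of the first term
  have hc0 : Continuous fun z : G => f z * D z * φ z := (hfc.mul hDc).mul hφc
  have h4 := split_intR (μ := μ) (r := r) hc0
  have hc4 : Continuous fun z : G => (f z) ^ 2 *
      (pz B z β * (pz B z c * (pz B z d * pz B z e))) :=
    (hfc.pow 2).mul ((pz_cont β).mul ((pz_cont c).mul ((pz_cont d).mul (pz_cont e))))
  have hφn : ∀ z : G, |φ z| ≤ nN z ^ 3 := by
    intro z
    have h6 := abs_pz_le (B := B) c z
    have h7 := abs_pz_le (B := B) d z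
    have h8 := abs_pz_le (B := B) e z
    have h9 := nN_nonneg z
    rw [hφ, abs_mul, abs_mul]
    calc |pz B z c| * (|pz B z d| * |pz B z e|) ≤ nN z * (nN z * nN z) := by gcongr
      _ = _ := by ring
  have n1 : |∫ z in {z : G | nN z ≤ r / 4}, (f z * D z * φ z + k * ((f z) ^ 2 *
      (pz B z β * (pz B z c * (pz B z d * pz B z e))))) ∂μ| ≤
      2 * K2 Cu Cp k M * (200 / k ^ 2 * (Cm / k * W)) := by
    have h5 := mom6 H.hi H.hf hk
    rw [← hWd] at h5
    refine (abs_integral_le_integral_abs).trans ?_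
    have h6 : ∫ z in {z : G | nN z ≤ r / 4}, |f z * D z * φ z + k * ((f z) ^ 2 *
        (pz B z β * (pz B z c * (pz B z d * pz B z e))))| ∂μ ≤
        ∫ z in {z : G | nN z ≤ r / 4}, 2 * K2 Cu Cp k M * ((f z) ^ 2 * nN z ^ 6) ∂μ := by
      refine setIntegral_mono_on ?_ ?_ meas_near fun z hz => ?_
      · exact ((intgR (hc0.add (continuous_const.mul hc4))).abs).integrableOn
      · exact (intgR (continuous_const.mul
          ((hfc.pow 2).mul (N988.MK.nN_cont.pow 6)))).integrableOn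
      · obtain ⟨h7, -⟩ := Z.near_der hz (Pi.single β 1)
        rw [nE_single, dR_single, mul_one] at h7
        have h8 : D z = (Lz B F z (rl (Pi.single β 1))).re := by rw [hD]; rfl
        rw [← h8] at h7
        have e1 : f z * D z * φ z + k * ((f z) ^ 2 *
            (pz B z β * (pz B z c * (pz B z d * pz B z e)))) =
            f z * (D z + f z * (k * pz B z β)) * φ z := by
          rw [hφ]; ring
        rw [e1, abs_mul, abs_mul]
        have h9 := hφn z
        have h10 := nN_nonneg z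
        calc |f z| * |D z + f z * (k * pz B z β)| * |φ z| ≤
            |f z| * (|f z| * (K2 Cu Cp k M * (2 * nN z ^ 3))) * nN z ^ 3 := by gcongr
          _ = 2 * K2 Cu Cp k M * (|f z| ^ 2 * nN z ^ 6) := by ring
          _ = _ := by rw [sq_abs]
    refine h6.trans ?_
    rw [integral_const_mul]
    exact mul_le_mul_of_nonneg_left h5 (by positivity)
  have n2 : ∫ z in {z : G | nN z ≤ r / 4}, (f z * D z * φ z + k * ((f z) ^ 2 *
      (pz B z β * (pz B z c * (pz B z d * pz B z e))))) ∂μ =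
      (∫ z in {z : G | nN z ≤ r / 4}, f z * D z * φ z ∂μ) +
      k * ∫ z in {z : G | nN z ≤ r / 4}, (f z) ^ 2 *
        (pz B z β * (pz B z c * (pz B z d * pz B z e))) ∂μ := by
    rw [integral_add j0.integrableOn ((intgR hc4).const_mul k).integrableOn, integral_const_mul]
  have f1 : |∫ z in {z : G | r / 4 < nN z}, f z * D z * φ z ∂μ| ≤
      1 / 2 * sN N ^ 3 * ((1 / k ^ 2 + 256 / (r ^ 2 * k ^ 4)) * W) := by
    have h5 := H.hi.far0 H.hf H.h1 H.hr0
    rw [← hWd] at h5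
    have hm : MeasurableSet {z : G | r / 4 < nN z} :=
      (isOpen_lt continuous_const N988.MK.nN_cont).measurableSet
    have hW0 : 0 < W := by rw [hWd]; exact H.hW
    refine (abs_integral_le_integral_abs).trans ?_
    have hs := sN_nonneg N
    have h6 : ∫ z in {z : G | r / 4 < nN z}, |f z * D z * φ z| ∂μ ≤
        ∫ z in {z : G | r / 4 < nN z}, (1 / 2 * sN N ^ 3 * (f z) ^ 2 +
          1 / 2 * sN N ^ 3 * (256 / (r ^ 2 * k ^ 4) * W)) ∂μ := by
      refine setIntegral_mono_on (j0.abs).integrableOn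
        (((intgR (hfc.pow 2)).const_mul _).add (integrable_const _)).integrableOn hm
        fun z hz => ?_
      have h7 := Z.far_der hz (Pi.single β 1)
      rw [nE_single, one_pow, one_mul, ← hWd] at h7
      have h8 : D z = (Lz B F z (rl (Pi.single β 1))).re := by rw [hD]; rfl
      rw [← h8] at h7
      have h9 : |φ z| ≤ sN N ^ 3 := (hφn z).trans (pow_le_pow_left₀ (nN_nonneg z) (nN_le z) 3)
      have h10 : |f z * D z| ≤ 1 / 2 * ((f z) ^ 2 + D z ^ 2) := by
        rw [abs_mul, ← sq_abs (f z), ← sq_abs (D z)]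
        nlinarith [sq_nonneg (|f z| - |D z|)]
      rw [abs_mul]
      calc |f z * D z| * |φ z| ≤ (1 / 2 * ((f z) ^ 2 + 256 / (r ^ 2 * k ^ 4) * W)) * sN N ^ 3 := by
            refine mul_le_mul (h10.trans ?_) h9 (abs_nonneg _) (by positivity)
            linarith
        _ = _ := by ring
    refine h6.trans ?_
    have i6 : IntegrableOn (fun z : G => 1 / 2 * sN N ^ 3 * (f z) ^ 2) {z : G | r / 4 < nN z} μ :=
      ((intgR (hfc.pow 2)).const_mul _).integrableOn
    have i7 : IntegrableOn (fun _ : G => 1 / 2 * sN N ^ 3 * (256 / (r ^ 2 * k ^ 4) * W))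
      {z : G | r / 4 < nN z} μ := (integrable_const _).integrableOn
    rw [integral_add i6 i7, integral_const_mul, setIntegral_const, smul_eq_mul]
    have h7 : μ.real {z : G | r / 4 < nN z} ≤ 1 := measureReal_le_one
    have h8 : μ.real {z : G | r / 4 < nN z} * (1 / 2 * sN N ^ 3 * (256 / (r ^ 2 * k ^ 4) * W)) ≤
        1 / 2 * sN N ^ 3 * (256 / (r ^ 2 * k ^ 4) * W) :=
      mul_le_of_le_one_left (by positivity) h7
    have h9 : 1 / 2 * sN N ^ 3 * ∫ z in {z : G | r / 4 < nN z}, (f z) ^ 2 ∂μ ≤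
        1 / 2 * sN N ^ 3 * (1 / k ^ 2 * W) := mul_le_mul_of_nonneg_left h5 (by positivity)
    calc _ ≤ 1 / 2 * sN N ^ 3 * (1 / k ^ 2 * W) +
          1 / 2 * sN N ^ 3 * (256 / (r ^ 2 * k ^ 4) * W) := add_le_add h9 h8
      _ = _ := by ring
  have t1 := a_term Z β c d e
  have t2 := a_term Z β d c e
  have t3 := a_term Z β e c d
  rw [← hWd] at t1 t2 t3 ⊢
  rw [n2] at n1
  obtain ⟨I0, hI0⟩ : ∃ I0, I0 = ∫ z in {z : G | nN z ≤ r / 4}, (f z) ^ 2 *
        (pz B z β * (pz B z c * (pz B z d * pz B z e))) ∂μ := ⟨_, rfl⟩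
  obtain ⟨I1, hI1⟩ : ∃ I1, I1 = ∫ z in {z : G | nN z ≤ r / 4}, f z * D z * φ z ∂μ := ⟨_, rfl⟩
  obtain ⟨I2, hI2⟩ : ∃ I2, I2 = ∫ z in {z : G | r / 4 < nN z}, f z * D z * φ z ∂μ := ⟨_, rfl⟩
  obtain ⟨J1, hJ1⟩ : ∃ J1, J1 = ∫ z, (f z) ^ 2 * (aM B c β z * (pz B z d * pz B z e)) ∂μ :=
    ⟨_, rfl⟩
  obtain ⟨J2, hJ2⟩ : ∃ J2, J2 = ∫ z, (f z) ^ 2 * (aM B d β z * (pz B z c * pz B z e)) ∂μ :=
    ⟨_, rfl⟩
  obtain ⟨J3, hJ3⟩ : ∃ J3, J3 = ∫ z, (f z) ^ 2 * (aM B e β z * (pz B z c * pz B z d)) ∂μ :=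
    ⟨_, rfl⟩
  rw [← hI0, ← hI1] at n1
  rw [← hI2] at f1
  rw [← hJ1] at t1
  rw [← hJ2] at t2
  rw [← hJ3] at t3
  rw [h4, ← hI1, ← hI2, ← hJ1, ← hJ2, ← hJ3] at h3
  rw [← hI0]
  obtain ⟨Q1, hQ1⟩ : ∃ Q1, Q1 = (if β = c then PQ B μ r f d e else 0) := ⟨_, rfl⟩
  obtain ⟨Q2, hQ2⟩ : ∃ Q2, Q2 = (if β = d then PQ B μ r f c e else 0) := ⟨_, rfl⟩
  obtain ⟨Q3, hQ3⟩ : ∃ Q3, Q3 = (if β = e then PQ B μ r f c d else 0) := ⟨_, rfl⟩
  rw [← hQ1] at t1 ⊢
  rw [← hQ2] at t2 ⊢
  rw [← hQ3] at t3 ⊢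
  have e9 : 2 * k * I0 - (Q1 + Q2 + Q3) = 2 * (I1 + k * I0) + 2 * I2 + ((J1 - Q1) + (J2 - Q2) +
      (J3 - Q3)) := by linarith
  rw [e9]
  have b1 : |2 * (I1 + k * I0)| ≤ 2 * (2 * K2 Cu Cp k M * (200 / k ^ 2 * (Cm / k * W))) := by
    rw [abs_mul, abs_two]; linarith
  have b2 : |2 * I2| ≤ 2 * (1 / 2 * sN N ^ 3 * ((1 / k ^ 2 + 256 / (r ^ 2 * k ^ 4)) * W)) := by
    rw [abs_mul, abs_two]; linarith
  have b3 := abs_add_le (2 * (I1 + k * I0) + 2 * I2) ((J1 - Q1) + (J2 - Q2) + (J3 - Q3))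
  have b4 := abs_add_le (2 * (I1 + k * I0)) (2 * I2)
  have b5 := abs_add_le ((J1 - Q1) + (J2 - Q2)) (J3 - Q3)
  have b6 := abs_add_le (J1 - Q1) (J2 - Q2)
  have e10 : E4 N Cm Cu Cp r k M * W = 2 * (2 * K2 Cu Cp k M * (200 / k ^ 2 * (Cm / k * W))) +
      2 * (1 / 2 * sN N ^ 3 * ((1 / k ^ 2 + 256 / (r ^ 2 * k ^ 4)) * W)) +
      3 * ((1 / 2 * (10 / k * (Cm / k)) + sN N ^ 2 * (1 / k ^ 2)) * W) := by
    unfold E4; ring
  rw [e10]
  linarith

end

end

end Pool.Agent.N991.MK
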