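import Mathlib
import Pool.Agent.N988.MK.Del
import Pool.Agent.N988.MK.Odd
import Pool.Agent.N991.MK.CNorm

/-!
# The exact first derivative of a class function in exponential coordinates
-/

open MeasureTheory Filter Metric Asymptotics Matrix
open scoped Matrix.Norms.Frobenius Topology ContDiff
open Pool.Agent.H906R3.YM Pool.Agent.W793.YM Pool.Agent.TH618.YM Pool.Agent.N984.TW
open Pool.Agent.N988.MK

namespace Pool.Agent.N991.MK

set_option linter.unusedSectionVars false

noncomputable section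

section Exp

variable {N : ℕ}

/-- the derivative of the exponential -/
def Dx (W : Mat N) : Mat N →L[ℂ] Mat N := fderiv ℂ (NormedSpace.exp : Mat N → Mat N) W

lemma Dx_has (W : Mat N) : HasFDerivAt (NormedSpace.exp : Mat N → Mat N) (Dx W) W :=
  ((exp_contDiffC (N := N)).differentiable (by simp) W).hasFDerivAt

lemma exp_half (A : Mat N) : NormedSpace.exp A = NormedSpace.exp ((1 / 2 : ℂ) • A) *
    NormedSpace.exp ((1 / 2 : ℂ) • A) := by
  rw [← Matrix.exp_add_of_commute _ _ (Commute.refl _)]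
  congr 1
  module

lemma Dx_half (W V : Mat N) : Dx W V = NormedSpace.exp ((1 / 2 : ℂ) • W) *
    ((1 / 2 : ℂ) • Dx ((1 / 2 : ℂ) • W) V) + ((1 / 2 : ℂ) • Dx ((1 / 2 : ℂ) • W) V) *
      NormedSpace.exp ((1 / 2 : ℂ) • W) := by
  have h1 : HasFDerivAt (fun A : Mat N => (1 / 2 : ℂ) • A)
      ((1 / 2 : ℂ) • ContinuousLinearMap.id ℂ (Mat N)) W :=
    (ContinuousLinearMap.hasFDerivAt ((1 / 2 : ℂ) • ContinuousLinearMap.id ℂ (Mat N)))
  have h2 := (Dx_has ((1 / 2 : ℂ) • W)).comp W h1
  have h3 := h2.mul' h2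
  have h4 : HasFDerivAt (NormedSpace.exp : Mat N → Mat N) _ W :=
    h3.congr_of_eventuallyEq (Eventually.of_forall fun A => by
      show NormedSpace.exp A = _
      rw [exp_half]
      rfl)
  rw [(Dx_has W).unique h4]
  show NormedSpace.exp ((1 / 2 : ℂ) • W) * (Dx ((1 / 2 : ℂ) • W) ((1 / 2 : ℂ) • V)) +
    (Dx ((1 / 2 : ℂ) • W) ((1 / 2 : ℂ) • V)) * NormedSpace.exp ((1 / 2 : ℂ) • W) = _
  rw [map_smul]

lemma tr_half {C W : Mat N} (hC : Commute C W) (V : Mat N) :
    trace (C * (NormedSpace.exp (-W) * Dx W V)) =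
      trace (C * (NormedSpace.exp (-((1 / 2 : ℂ) • W)) * Dx ((1 / 2 : ℂ) • W) V)) := by
  obtain ⟨E, hE⟩ : ∃ E, E = NormedSpace.exp ((1 / 2 : ℂ) • W) := ⟨_, rfl⟩
  obtain ⟨E', hE'⟩ : ∃ E', E' = NormedSpace.exp (-((1 / 2 : ℂ) • W)) := ⟨_, rfl⟩
  obtain ⟨D, hD⟩ : ∃ D, D = Dx ((1 / 2 : ℂ) • W) V := ⟨_, rfl⟩
  have h1 : E * E' = 1 := by
    rw [hE, hE', ← Matrix.exp_add_of_commute _ _
      (Commute.neg_right (Commute.refl ((1 / 2 : ℂ) • W))),
      add_neg_cancel, NormedSpace.exp_zero]
  have h2 : E' * E = 1 := by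
    rw [hE, hE', ← Matrix.exp_add_of_commute _ _
      (Commute.neg_left (Commute.refl ((1 / 2 : ℂ) • W))),
      neg_add_cancel, NormedSpace.exp_zero]
  have h3 : NormedSpace.exp (-W) = E' * E' := by
    rw [exp_half (-W), hE', smul_neg]
  have h4 : E * C = C * E := by
    have : Commute C ((1 / 2 : ℂ) • W) := hC.smul_right _
    rw [hE]
    exact (this.exp_right).eq.symm
  rw [h3, Dx_half, ← hE, ← hE', ← hD]
  have e1 : C * (E' * E' * (E * ((1 / 2 : ℂ) • D) + ((1 / 2 : ℂ) • D) * E)) =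
      (1 / 2 : ℂ) • (C * E' * D) + (1 / 2 : ℂ) • (C * E' * E' * D * E) := by
    have : E' * E' * (E * ((1 / 2 : ℂ) • D)) = (1 / 2 : ℂ) • (E' * D) := by
      rw [mul_assoc, ← mul_assoc E' E, h2, one_mul, mul_smul_comm]
    rw [mul_add, this]
    simp only [mul_add, smul_mul_assoc, mul_smul_comm, mul_assoc]
  have e2 : trace (C * E' * E' * D * E) = trace (C * E' * D) := by
    rw [trace_mul_comm]
    have : E * (C * E' * E' * D) = C * (E * E') * E' * D := by
      simp only [← mul_assoc]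
      rw [h4]
    rw [this, h1, mul_one]
  rw [e1, trace_add, trace_smul, trace_smul, e2, smul_eq_mul]
  rw [show C * E' * D = C * (E' * D) from mul_assoc _ _ _]
  ring

/-- **the trace of the logarithmic derivative of the exponential** -/
theorem tr_dexp {C W : Mat N} (hC : Commute C W) (V : Mat N) :
    trace (C * (NormedSpace.exp (-W) * Dx W V)) = trace (C * V) := by
  have hit : ∀ j : ℕ, trace (C * (NormedSpace.exp (-W) * Dx W V)) =
      trace (C * (NormedSpace.exp (-((1 / 2 : ℂ) ^ j • W)) * Dx ((1 / 2 : ℂ) ^ j • W) V)) := by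
    intro j
    induction j with
    | zero => simp
    | succ j ih =>
        rw [ih, tr_half (hC.smul_right _), smul_smul, pow_succ']
  have hc : Continuous fun t : ℂ => trace (C * (NormedSpace.exp (-(t • W)) * Dx (t • W) V)) := by
    have h1 : Continuous fun t : ℂ => NormedSpace.exp (-(t • W)) :=
      (exp_contDiffC (N := N)).continuous.comp (by fun_prop)
    have h2 : Continuous fun t : ℂ => Dx (t • W) V := by
      have h3 : Continuous fun A : Mat N => Dx A :=
        (exp_contDiffC (N := N)).continuous_fderiv (by simp)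
      exact (h3.comp (by fun_prop)).clm_apply continuous_const
    exact (trC N).continuous.comp (continuous_const.mul (h1.mul h2))
  have hp : Tendsto (fun j : ℕ => ((1 / 2 : ℂ)) ^ j) atTop (𝓝 0) :=
    tendsto_pow_atTop_nhds_zero_of_norm_lt_one (by norm_num)
  have hl := (hc.tendsto 0).comp hp
  have h0 : Dx (0 : Mat N) V = V := by
    have h1 := (Dx_has (0 : Mat N)).unique (hasFDerivAt_exp_zero (𝕂 := ℂ) (𝔸 := Mat N))
    rw [h1]; rfl
  have h2 : Tendsto (fun _ : ℕ => trace (C * (NormedSpace.exp (-W) * Dx W V))) atTop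
      (𝓝 (trace (C * V))) := by
    have h3 : trace (C * (NormedSpace.exp (-((0 : ℂ) • W)) * Dx ((0 : ℂ) • W) V)) =
        trace (C * V) := by
      rw [zero_smul, neg_zero, NormedSpace.exp_zero, one_mul, h0]
    rw [h3] at hl
    refine hl.congr fun j => ?_
    exact (hit j).symm
  exact tendsto_nhds_unique tendsto_const_nhds h2

end Exp

variable {N n : ℕ} {G : Subgroup (UN N)} {B : Frame G n} {hG : IsClosed (G : Set (UN N))}
variable {r₀ C : ℝ} {b : (Fin n → ℂ) → (Fin n → ℂ) → (Fin n → ℂ)}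
variable {r k M Cm Cq Cu : ℝ} {F : (Mat N)ˣ → ℂ} {m : (Fin n → ℂ) → ℂ} {f : G → ℝ}

/-- the bilinear form is minus the trace of the product -/
lemma dC2_eq (B : Frame G n) (x y : Fin n → ℂ) : dC2 x y = -trace (LC B x * LC B y) := by
  have h1 := qC_add x y
  rw [qC_eq B, qC_eq B, qC_eq B, LC_add] at h1
  have h2 : trace ((LC B x + LC B y) * (LC B x + LC B y)) = trace (LC B x * LC B x) +
      trace (LC B y * LC B y) + 2 * trace (LC B x * LC B y) := by
    rw [mul_add, add_mul, add_mul, trace_add, trace_add, trace_add, trace_mul_comm (LC B y)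
      (LC B x)]
    ring
  rw [h2] at h1
  linear_combination -h1 / 2

/-- **the exact derivative of the quadratic form along the product** -/
theorem BC.q_der (h : BC B r₀ C b) {w : Fin n → ℂ} (hw : nC w ≤ r₀) (x : Fin n → ℂ) :
    HasDerivAt (fun ζ : ℂ => qC (b (ζ • x) w)) (2 * dC2 x w) 0 := by
  have hp := h.pos
  have hz0 : nC ((0 : ℂ) • x) ≤ r₀ := by rw [zero_smul, nC_zero]; exact hp.le
  obtain ⟨Bc, hBc⟩ : ∃ Bc : ℂ → Mat N, Bc = fun ζ => LC B (b (ζ • x) w) := ⟨_, rfl⟩
  have hB0 : Bc 0 = LC B w := by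
    rw [hBc]
    beta_reduce
    rw [zero_smul, h.zero_left hw]
  have hd : DifferentiableAt ℂ Bc 0 := by
    have c1 : DifferentiableAt ℂ (fun ζ : ℂ => ((ζ • x, w) : (Fin n → ℂ) × (Fin n → ℂ))) 0 := by
      fun_prop
    have d1 := DifferentiableAt.comp (f := fun ζ : ℂ => ((ζ • x, w) : (Fin n → ℂ) × (Fin n → ℂ)))
      (g := fun p : (Fin n → ℂ) × (Fin n → ℂ) => b p.1 p.2) 0
      (h.diff ((0 : ℂ) • x) w hz0 hw) c1
    have d2 := (LCl B).differentiable.differentiableAt (x := b ((0 : ℂ) • x) w)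
    have d3 := DifferentiableAt.comp (f := fun ζ : ℂ => b (ζ • x) w) (g := fun v => LCl B v) 0 d2 d1
    rw [hBc]
    exact d3
  obtain ⟨V, hV⟩ : ∃ V, V = deriv Bc 0 := ⟨_, rfl⟩
  have hBd : HasDerivAt Bc V 0 := by rw [hV]; exact hd.hasDerivAt
  obtain ⟨X, hX⟩ : ∃ X, X = LC B x := ⟨_, rfl⟩
  obtain ⟨W, hW⟩ : ∃ W, W = LC B w := ⟨_, rfl⟩
  rw [← hW] at hB0
  -- the derivative of the exponential of the curve
  have h1 : HasDerivAt (fun ζ => NormedSpace.exp (Bc ζ)) (Dx W V) 0 := by
    have h2 : HasFDerivAt (NormedSpace.exp : Mat N → Mat N) (Dx W) (Bc 0) := by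
      rw [hB0]; exact Dx_has W
    exact h2.comp_hasDerivAt (0 : ℂ) hBd
  have h3 : HasDerivAt (fun ζ : ℂ => NormedSpace.exp (ζ • X) * NormedSpace.exp W)
      (X * NormedSpace.exp W) 0 := by
    have h4 : HasDerivAt (fun ζ : ℂ => NormedSpace.exp (ζ • X)) X 0 := by
      have h5 := hasDerivAt_exp_smul_const (𝕂 := ℂ) X (0 : ℂ)
      refine h5.congr_deriv ?_
      rw [zero_smul, NormedSpace.exp_zero, one_mul]
    exact h4.mul_const _
  have h4 : (fun ζ : ℂ => NormedSpace.exp (Bc ζ)) =ᶠ[𝓝 0]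
      fun ζ : ℂ => NormedSpace.exp (ζ • X) * NormedSpace.exp W := by
    filter_upwards [(nC_smul_tendsto x).eventually (gt_mem_nhds hp)] with ζ hζ
    have h5 := h.mul (ζ • x) w hζ.le hw
    rw [hBc, hX, hW, ← LC_smul]
    exact h5
  have h5 : Dx W V = X * NormedSpace.exp W := (h1.congr_of_eventuallyEq h4.symm).unique h3
  have h6 := tr_dexp (C := W) (W := W) (Commute.refl _) V
  rw [h5] at h6
  have h7 : trace (W * (NormedSpace.exp (-W) * (X * NormedSpace.exp W))) = trace (W * X) := by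
    have e1 : Commute W (NormedSpace.exp W) := (Commute.refl W).exp_right
    have e2 : NormedSpace.exp W * NormedSpace.exp (-W) = 1 := by
      rw [← Matrix.exp_add_of_commute _ _ (Commute.neg_right (Commute.refl W)),
        add_neg_cancel, NormedSpace.exp_zero]
    have e3 : W * (NormedSpace.exp (-W) * (X * NormedSpace.exp W)) =
        (W * NormedSpace.exp (-W) * X) * NormedSpace.exp W := by simp only [mul_assoc]
    rw [e3, trace_mul_comm]
    have e4 : NormedSpace.exp W * (W * NormedSpace.exp (-W) * X) =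
        W * (NormedSpace.exp W * NormedSpace.exp (-W)) * X := by
      simp only [← mul_assoc]
      rw [e1.eq]
    rw [e4, e2, mul_one]
  rw [h7] at h6
  -- the quadratic form
  have h8 : (fun ζ : ℂ => qC (b (ζ • x) w)) = fun ζ => -trace (Bc ζ * Bc ζ) := by
    funext ζ
    rw [qC_eq B, hBc]
  rw [h8]
  have h9 : HasDerivAt (fun ζ => Bc ζ * Bc ζ) (V * W + W * V) 0 := by
    have := hBd.mul hBd
    rw [hB0] at this
    exact this
  have h10 : HasDerivAt (fun ζ => -trace (Bc ζ * Bc ζ)) (-trace (V * W + W * V)) 0 :=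
    ((trC N).hasFDerivAt.comp_hasDerivAt (0 : ℂ) h9).neg
  refine h10.congr_deriv ?_
  rw [dC2_eq B, ← hX, ← hW, trace_add, trace_mul_comm V W, ← h6, trace_mul_comm W X]
  ring

variable [CompactSpace G] [MeasurableSpace G] [BorelSpace G]

/-- **the exact derivative of the class function near the identity** -/
theorem St.Lz_exact (hs : St B r k M F m) (hf : CF f F) (h : BC B r₀ C b)
    (hr : r ≤ r₀) (hr0 : 0 < r) (hM : 0 ≤ M)
    {y : Fin n → ℝ} (hy : nE y < r / 3) (x : Fin n → ℂ) :
    ‖Lz B F (Eg B hG y) x + (f (Eg B hG y) : ℂ) * (k * dC2 x (rl y))‖ ≤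
      |f (Eg B hG y)| * (81 * M * nC x * nE y ^ 3) := by
  obtain ⟨w, hw⟩ : ∃ w, w = rl y := ⟨_, rfl⟩
  obtain ⟨z, hz⟩ : ∃ z, z = Eg B hG y := ⟨_, rfl⟩
  rw [← hz, ← hw]
  have hzw : uG z = uE B w := by rw [hz, hw, uE_rl B hG]
  have hwn : nC w = nE y := by rw [hw, nC_rl]
  have hw3 : nC w < r / 3 := by rw [hwn]; exact hy
  have hw0 := nC_nonneg w
  have hC := h.Cpos
  obtain ⟨m1, hm1⟩ : ∃ m1 : ℂ → ℂ, m1 = fun ζ => m (b (ζ • x) w) := ⟨_, rfl⟩
  have hev : ∀ᶠ ζ in 𝓝 (0 : ℂ), nC (ζ • x) < r / 2 := (nC_smul_tendsto x).eventually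
    (gt_mem_nhds (by positivity))
  have hmd : ∀ ζ : ℂ, nC (ζ • x) < r / 2 → DifferentiableAt ℂ m1 ζ := by
    intro ζ hζ
    have c1 : DifferentiableAt ℂ (fun ζ : ℂ => ((ζ • x, w) : (Fin n → ℂ) × (Fin n → ℂ))) ζ := by
      fun_prop
    have d1 := DifferentiableAt.comp (f := fun ζ : ℂ => ((ζ • x, w) : (Fin n → ℂ) × (Fin n → ℂ)))
      (g := fun p : (Fin n → ℂ) × (Fin n → ℂ) => b p.1 p.2) ζ
      (h.diff (ζ • x) w (by linarith) (by linarith)) c1
    have e1 := DifferentiableAt.comp (f := fun ζ : ℂ => b (ζ • x) w) (g := m) ζ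
      (hs.md _ (h.in_r hr hζ hw3)) d1
    rw [hm1]
    exact e1
  have hz0 : nC ((0 : ℂ) • x) < r / 2 := by rw [zero_smul, nC_zero]; positivity
  obtain ⟨d, hd⟩ : ∃ d, d = deriv m1 0 := ⟨_, rfl⟩
  have hmder : HasDerivAt m1 d 0 := by rw [hd]; exact (hmd 0 hz0).hasDerivAt
  -- the bound of the derivative of the quartic part
  have hdb : ‖d‖ ≤ 81 * M * nC x * nC w ^ 3 := by
    by_cases hw1 : nC w = 0
    · have hw2 : w = 0 := nC_eq_zero hw1.le
      -- `m1` is even around zero, use the bound of order four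
      have h1 : m1 =O[𝓝 0] fun ζ : ℂ => ζ ^ 4 := by
        refine IsBigO.of_bound (M * nC x ^ 4) ?_
        filter_upwards [hev] with ζ hζ
        rw [hm1, hw2]
        beta_reduce
        rw [h.zero_right (by linarith)]
        refine (hs.bd _ (by linarith)).trans (le_of_eq ?_)
        rw [nC_smul, norm_pow]
        ring
      have h2 : HasDerivAt m1 0 0 := by
        have h3 : (fun ζ => m1 ζ) =o[𝓝 0] fun ζ : ℂ => ζ := by
          refine h1.trans_isLittleO ?_
          have h4 : (fun t : ℂ => t ^ 3 * t) =o[𝓝 0] fun t : ℂ => 1 * t := by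
            refine IsLittleO.mul_isBigO ?_ (isBigO_refl _ _)
            rw [isLittleO_one_iff]
            have := (continuous_pow (M := ℂ) 3).tendsto 0
            simpa using this
          refine (h4.congr_left fun t => by ring).congr_right fun t => by ring
        have h5 : m1 0 = 0 := by
          rw [hm1]
          beta_reduce
          rw [zero_smul, hw2, h.zero_right (by rw [nC_zero]; linarith), hs.m0 hr0]
        rw [hasDerivAt_iff_isLittleO]
        refine (h3.congr_left fun ζ => ?_).congr_right fun ζ => ?_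
        · rw [h5]; simp
        · simp
      rw [hmder.unique h2, norm_zero, hw1]
      simp
    · have pw : 0 < nC w := lt_of_le_of_ne hw0 (Ne.symm hw1)
      by_cases hx0 : nC x = 0
      · have hx1 : x = 0 := nC_eq_zero hx0.le
        have h1 : m1 = fun _ => m1 0 := by
          funext ζ
          rw [hm1, hx1]
          beta_reduce
          rw [smul_zero, smul_zero]
        have h2 : HasDerivAt m1 0 0 := by
          rw [h1]
          exact hasDerivAt_const _ _
        rw [hmder.unique h2, norm_zero, hx0]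
        simp
      have px : 0 < nC x := lt_of_le_of_ne (nC_nonneg x) (Ne.symm hx0)
      have hR : 0 < nC w / nC x := by positivity
      have hin : ∀ ζ : ℂ, ‖ζ‖ ≤ nC w / nC x → nC (ζ • x) ≤ nC w := by
        intro ζ hζ
        rw [nC_smul]
        calc ‖ζ‖ * nC x ≤ nC w / nC x * nC x := mul_le_mul_of_nonneg_right hζ px.le
          _ = nC w := by field_simp
      have hdo : DifferentiableOn ℂ m1 (closedBall 0 (nC w / nC x)) := by
        intro ζ hζ
        rw [mem_closedBall_zero_iff] at hζ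
        have := hin ζ hζ
        exact (hmd ζ (by linarith)).differentiableWithinAt
      have h1 := Complex.norm_deriv_le_of_forall_mem_sphere_norm_le (c := 0)
        (C := 81 * M * nC w ^ 4) hR (f := m1)
        (DifferentiableOn.diffContOnCl (by
          rw [closure_ball _ hR.ne']; exact hdo)) (fun ζ hζ => by
          rw [mem_sphere_zero_iff_norm] at hζ
          have h2 := hin ζ hζ.le
          have h3 := h.in_r (r := r) hr (x := ζ • x) (y := w) (by linarith) hw3
          have h4 := hs.bd _ h3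
          have h5 := h.nC_le (x := ζ • x) (y := w) (by linarith) (by linarith)
          have h6 : C * nC (ζ • x) ≤ 1 := by
            have : C * nC (ζ • x) ≤ C * r₀ := mul_le_mul_of_nonneg_left (by linarith) hC
            linarith [h.small]
          have h7 : nC (b (ζ • x) w) ≤ 3 * nC w := by
            have : C * nC (ζ • x) * nC w ≤ 1 * nC w := mul_le_mul_of_nonneg_right h6 hw0
            linarith
          have h8 := pow_le_pow_left₀ (nC_nonneg _) h7 4
          rw [hm1]
          refine h4.trans ((mul_le_mul_of_nonneg_left h8 hM).trans (le_of_eq ?_))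
          ring)
      rw [← hd] at h1
      refine h1.trans (le_of_eq ?_)
      field_simp
  -- the derivative of the class function
  have hq := BC.q_der h (w := w) (by linarith) x
  obtain ⟨G1, hG1⟩ : ∃ G1 : ℂ → ℂ, G1 = fun ζ => k / 2 * qC (b (ζ • x) w) + m1 ζ := ⟨_, rfl⟩
  have hder : HasDerivAt G1 (k / 2 * (2 * dC2 x w) + d) 0 := by
    rw [hG1]
    exact (hq.const_mul _).add hmder
  have hfz : F 1 * Complex.exp (-G1 0) = (f z : ℂ) := by
    rw [hG1, hm1]
    beta_reduce
    rw [zero_smul, h.zero_left (by linarith), ← hf.res z, hzw, hs.eq w (by linarith)]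
    congr 2
    ring
  have hL : Lz B F z x = -((f z : ℂ) * (k / 2 * (2 * dC2 x w) + d)) := by
    have h2 := Lz_curve (B := B) hf.hol z x
    have h3 : (fun ζ : ℂ => F (uE B (ζ • x) * uG z)) =ᶠ[𝓝 0]
        fun ζ : ℂ => F 1 * Complex.exp (-G1 ζ) := by
      filter_upwards [hev] with ζ hζ
      rw [hzw, ← h.uE_mul (by linarith) (by linarith), hs.eq _ (h.in_r hr hζ hw3), hG1, hm1]
      congr 2
      ring
    have h4 : HasDerivAt (fun ζ : ℂ => F 1 * Complex.exp (-G1 ζ))
        (F 1 * (Complex.exp (-G1 0) * -(k / 2 * (2 * dC2 x w) + d))) 0 :=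
      (hder.neg.cexp).const_mul (F 1)
    have h5 := (h2.congr_of_eventuallyEq h3.symm).unique h4
    rw [h5, ← hfz]
    ring
  have e : Lz B F z x + (f z : ℂ) * (k * dC2 x w) = -((f z : ℂ) * d) := by
    rw [hL]
    ring
  rw [e, norm_neg, norm_mul, Complex.norm_real, Real.norm_eq_abs, ← hwn]
  exact mul_le_mul_of_nonneg_left hdb (abs_nonneg _)

end

end Pool.Agent.N991.MK
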