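import Mathlib
import Pool.Agent.N988.MK.Dlt
import Pool.Agent.N991.MK.Fm3
import Pool.Agent.N991.MK.FmP

/-!
# Coordinates on the group which agree with the exponential coordinates up to order five
-/

open MeasureTheory Filter Metric Asymptotics Matrix
open scoped Matrix.Norms.Frobenius Topology ContDiff
open Pool.Agent.H906R3.YM Pool.Agent.W793.YM Pool.Agent.TH618.YM Pool.Agent.N984.TW
open Pool.Agent.N988.MK (St Inp Hy Hz BC LN nE_eq nE_nonneg nE_sq nE_smul nE_zero nE_cont LX_star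
  pz pz_cont pz_Ad conj_inv_near meas_near intgR sum_sq_expand nE_add_le nE_neg Adx)

namespace Pool.Agent.N991.MK

set_option linter.unusedSectionVars false

noncomputable section

/-- the exponential up to order five -/
lemma exp5 (N : ℕ) : (fun A : Mat N => NormedSpace.exp A -
    (1 + A + (1 / 2 : ℂ) • (A * A) + (1 / 6 : ℂ) • (A * (A * A)) +
      (1 / 24 : ℂ) • (A * (A * (A * A))))) =O[𝓝 0] fun A : Mat N => ‖A‖ ^ 5 := by
  have h := (NormedSpace.exp_hasFPowerSeriesAt_zero (𝕂 := ℂ) (𝔸 := Mat N)).isBigO_sub_partialSum_pow 5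
  refine h.congr_left fun A => ?_
  rw [zero_add, FormalMultilinearSeries.partialSum]
  simp only [NormedSpace.expSeries_apply_eq]
  simp only [Finset.sum_range_succ, Finset.sum_range_zero, pow_succ, pow_zero,
    Nat.factorial, one_mul, zero_add, mul_one]
  norm_num
  simp only [mul_assoc]
  rfl

variable {N n : ℕ} {G : Subgroup (UN N)} {B : Frame G n}

lemma pc_herm {H : Mat N} (hH : Hᴴ = H) : pc B H = 0 := by
  funext a
  unfold pc
  rw [ip_apply]
  have h3 : star (trace ((B.X a)ᴴ * H)) = -trace ((B.X a)ᴴ * H) := by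
    rw [← trace_conjTranspose, conjTranspose_mul, conjTranspose_conjTranspose, hH, B.skewX a,
      trace_mul_comm]
    simp
  have h4 := congrArg Complex.re h3
  simp only [Complex.star_def, Complex.conj_re, Complex.neg_re] at h4
  simp only [Pi.zero_apply]
  linarith

lemma nE_pc_le (A : Mat N) : nE (pc B A) ≤ Real.sqrt n * ‖A‖ := by
  have h7 : nE (pc B A) ^ 2 ≤ (Real.sqrt n * ‖A‖) ^ 2 := by
    rw [nE_sq, mul_pow, Real.sq_sqrt (by positivity)]
    calc ∑ a, pc B A a ^ 2 ≤ ∑ _a : Fin n, ‖A‖ ^ 2 := by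
          refine Finset.sum_le_sum fun a _ => ?_
          have h8 := abs_ip_le (B.X a) A
          rw [norm_X1 B a, one_mul] at h8
          rw [← sq_abs]
          exact pow_le_pow_left₀ (abs_nonneg _) h8 2
      _ = n * ‖A‖ ^ 2 := by simp
  exact (abs_le_of_sq_le_sq' h7 (by positivity)).2

variable (B) in
/-- coordinates which agree with the exponential coordinates up to order five -/
def yq (z : G) : Fin n → ℝ := fun a => 4 / 3 * pz B z a - 1 / 6 * pz B (z * z) a

section Top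
variable [CompactSpace G] [MeasurableSpace G] [BorelSpace G]

lemma yq_cont (a : Fin n) : Continuous fun z : G => yq B z a := by
  unfold yq
  exact (continuous_const.mul (pz_cont a)).sub
    (continuous_const.mul ((pz_cont (B := B) a).comp (continuous_id.mul continuous_id)))

lemma yq_Ad (hG : IsClosed (G : Set (UN N))) (g z : G) (x : Fin n → ℝ) :
    ∑ a, Adx B g x a * yq B z a = ∑ a, x a * yq B (g⁻¹ * z * g) a := by
  have h1 := pz_Ad (B := B) (hG := hG) g z x
  have h2 := pz_Ad (B := B) (hG := hG) g (z * z) x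
  have h3 : g⁻¹ * z * g * (g⁻¹ * z * g) = g⁻¹ * (z * z) * g := by group
  have e1 : ∑ a, Adx B g x a * yq B z a = 4 / 3 * (∑ a, Adx B g x a * pz B z a) -
      1 / 6 * ∑ a, Adx B g x a * pz B (z * z) a := by
    rw [Finset.mul_sum, Finset.mul_sum, ← Finset.sum_sub_distrib]
    refine Finset.sum_congr rfl fun a _ => ?_
    unfold yq
    ring
  have e2 : ∑ a, x a * yq B (g⁻¹ * z * g) a = 4 / 3 * (∑ a, x a * pz B (g⁻¹ * z * g) a) -
      1 / 6 * ∑ a, x a * pz B (g⁻¹ * (z * z) * g) a := by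
    rw [Finset.mul_sum, Finset.mul_sum, ← Finset.sum_sub_distrib]
    refine Finset.sum_congr rfl fun a _ => ?_
    unfold yq
    rw [h3]
    ring
  rw [e1, e2, h1, h2]

end Top

lemma abs_yq_le [CompactSpace G] [MeasurableSpace G] [BorelSpace G] (a : Fin n) (z : G) : |yq B z a| ≤ 2 * nN z := by
  unfold yq
  have h1 := abs_pz_le (B := B) a z
  have h2 := abs_pz_le (B := B) a (z * z)
  have h3 := nN_mul_le z z
  have h0 := nN_nonneg z
  refine (abs_sub _ _).trans ?_
  rw [abs_mul, abs_mul, abs_of_pos (show (0 : ℝ) < 4 / 3 by norm_num),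
    abs_of_pos (show (0 : ℝ) < 1 / 6 by norm_num)]
  linarith

/-- the coordinates `yq` agree with the exponential coordinates up to order five -/
lemma exists_yq (B : Frame G n) (hG : IsClosed (G : Set (UN N))) : ∃ ρ Cy : ℝ, 0 < ρ ∧ 0 ≤ Cy ∧
    ∀ y : Fin n → ℝ, nE y < ρ → nE (yq B (Eg B hG y) - y) ≤ Cy * nE y ^ 5 := by
  obtain ⟨c, hc0, hc⟩ := (exp5 N).exists_nonneg
  obtain ⟨ρ, hρ, hb⟩ := Metric.eventually_nhds_iff.1 hc.bound
  -- one point
  have key : ∀ y : Fin n → ℝ, nE y < ρ → ∃ R : Mat N, ‖R‖ ≤ c * nE y ^ 5 ∧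
      ∀ a, pz B (Eg B hG y) a = y a + 1 / 6 * pc B (LX B y * (LX B y * LX B y)) a + pc B R a := by
    intro y hy
    obtain ⟨Y, hY⟩ : ∃ Y, Y = LX B y := ⟨_, rfl⟩
    have hYn : ‖Y‖ = nE y := by rw [hY]; exact norm_LX B y
    have h1 := hb (y := Y) (by rw [dist_zero_right, hYn]; exact hy)
    obtain ⟨R, hR⟩ : ∃ R, R = NormedSpace.exp Y - (1 + Y + (1 / 2 : ℂ) • (Y * Y) +
      (1 / 6 : ℂ) • (Y * (Y * Y)) + (1 / 24 : ℂ) • (Y * (Y * (Y * Y)))) := ⟨_, rfl⟩
    rw [← hR] at h1
    refine ⟨R, h1.trans (le_of_eq ?_), fun a => ?_⟩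
    · rw [norm_pow, norm_norm, hYn]
    have hYs : Yᴴ = -Y := by rw [hY]; exact LX_star B y
    have hdec : mt (Eg B hG y) - 1 = Y + ((1 / 2 : ℂ) • (Y * Y)) +
        ((1 / 24 : ℂ) • (Y * (Y * (Y * Y)))) + (1 / 6 : ℂ) • (Y * (Y * Y)) + R := by
      rw [mt_Eg, EM, ← hY, hR]; abel
    have g1 : pc B ((1 / 2 : ℂ) • (Y * Y)) = 0 := by
      refine pc_herm ?_
      rw [conjTranspose_smul, conjTranspose_mul, hYs, neg_mul_neg]
      simp
    have g2 : pc B ((1 / 24 : ℂ) • (Y * (Y * (Y * Y)))) = 0 := by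
      refine pc_herm ?_
      rw [conjTranspose_smul, conjTranspose_mul, conjTranspose_mul, conjTranspose_mul, hYs]
      simp [mul_assoc]
    have g3 : pc B ((1 / 6 : ℂ) • (Y * (Y * Y))) a = 1 / 6 * pc B (Y * (Y * Y)) a := by
      unfold pc
      have := ip_rsmul (B.X a) (Y * (Y * Y)) (1 / 6)
      rw [← this]
      congr 2
      push_cast
      norm_num
    show pc B (mt (Eg B hG y) - 1) a = _
    rw [hdec, pc_add, pc_add, pc_add, pc_add, g1, g2]
    simp only [Pi.add_apply, add_zero]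
    rw [g3, hY, pc_LX]
  refine ⟨ρ / 2, Real.sqrt n * (20 * c), by positivity, by positivity, fun y hy => ?_⟩
  have hy0 := nE_nonneg y
  have h2y : nE ((2 : ℝ) • y) = 2 * nE y := by rw [nE_smul]; norm_num
  obtain ⟨R, hR, hR2⟩ := key y (by linarith)
  obtain ⟨R', hR', hR2'⟩ := key ((2 : ℝ) • y) (by rw [h2y]; linarith)
  have hE2 : Eg B hG y * Eg B hG y = Eg B hG ((2 : ℝ) • y) := by
    have h1 := Eg_smul_add B hG y 1 1
    rw [one_smul, one_add_one_eq_two] at h1
    exact h1.symm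
  have hcub : ∀ a, pc B (LX B ((2 : ℝ) • y) * (LX B ((2 : ℝ) • y) * LX B ((2 : ℝ) • y))) a =
      8 * pc B (LX B y * (LX B y * LX B y)) a := by
    intro a
    unfold pc
    have h1 : LX B ((2 : ℝ) • y) * (LX B ((2 : ℝ) • y) * LX B ((2 : ℝ) • y)) =
        ((8 : ℝ) : ℂ) • (LX B y * (LX B y * LX B y)) := by
      rw [LX_smul]
      simp only [smul_mul_assoc, mul_smul_comm, smul_smul]
      rw [← Complex.coe_smul]
      norm_num
    rw [h1, ip_rsmul]
  have hfin : yq B (Eg B hG y) - y = pc B (((4 / 3 : ℝ) : ℂ) • R + ((-(1 / 6) : ℝ) : ℂ) • R') := by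
    funext a
    rw [pc_add]
    have e1 : pc B (((4 / 3 : ℝ) : ℂ) • R) a = 4 / 3 * pc B R a := by
      unfold pc
      rw [ip_rsmul]
    have e2 : pc B (((-(1 / 6) : ℝ) : ℂ) • R') a = -(1 / 6) * pc B R' a := by
      unfold pc
      rw [ip_rsmul]
    rw [Pi.add_apply, e1, e2, Pi.sub_apply]
    unfold yq
    rw [hE2, hR2, hR2', hcub]
    simp only [Pi.smul_apply, smul_eq_mul]
    ring
  rw [hfin]
  refine (nE_pc_le _).trans ?_
  rw [mul_assoc]
  refine mul_le_mul_of_nonneg_left ?_ (Real.sqrt_nonneg _)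
  refine (norm_add_le _ _).trans ?_
  rw [norm_smul, norm_smul, Complex.norm_real, Complex.norm_real, Real.norm_eq_abs,
    Real.norm_eq_abs, abs_neg, abs_of_pos (show (0 : ℝ) < 4 / 3 by norm_num),
    abs_of_pos (show (0 : ℝ) < 1 / 6 by norm_num)]
  rw [h2y] at hR'
  have h5 : 0 ≤ c * nE y ^ 5 := by positivity
  have h6 : c * (2 * nE y) ^ 5 = 32 * (c * nE y ^ 5) := by ring
  rw [h6] at hR'
  linarith

end

end Pool.Agent.N991.MK
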