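import Mathlib
import Pool.Agent.N991.MK.TwoA
import Pool.Agent.N991.MK.TwoB

/-!
# The second moment in exponential coordinates, to the next order
-/

open MeasureTheory Filter Metric Asymptotics Matrix
open scoped Matrix.Norms.Frobenius Topology ContDiff
open Pool.Agent.H906R3.YM Pool.Agent.W793.YM Pool.Agent.TH618.YM Pool.Agent.N984.TW
open Pool.Agent.N988.MK

namespace Pool.Agent.N991.MK

set_option linter.unusedSectionVars false

noncomputable section

variable {N n : ℕ} {G : Subgroup (UN N)} (B : Frame G n) (hG : IsClosed (G : Set (UN N)))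
variable [CompactSpace G] [MeasurableSpace G] [BorelSpace G] (μ : Measure G)
  [IsProbabilityMeasure μ] [μ.IsMulLeftInvariant] [μ.IsMulRightInvariant] [μ.IsInvInvariant]

/-- the second moments of the coordinates -/
def YQ (r : ℝ) (f : G → ℝ) (a c : Fin n) : ℝ :=
  ∫ z in {z : G | nN z ≤ r / 4}, (f z) ^ 2 * (yq B z a * yq B z c) ∂μ

variable {B hG μ}
variable {r₀ C : ℝ} {b : (Fin n → ℂ) → (Fin n → ℂ) → (Fin n → ℂ)}
variable {r k M Cm Cq Cu Cs Cp Cy cA : ℝ} {F : (Mat N)ˣ → ℂ} {m : (Fin n → ℂ) → ℂ} {f : G → ℝ}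

lemma YQ_bil (hfc : Continuous f) (T : Fin n → Fin n → ℝ) : ∑ a, ∑ c, YQ B μ r f a c * T a c =
    ∫ z in {z : G | nN z ≤ r / 4}, (f z) ^ 2 * ∑ a, ∑ c, T a c * (yq B z a * yq B z c) ∂μ := by
  have hint : ∀ a c, IntegrableOn (fun z : G => (f z) ^ 2 * (T a c * (yq B z a * yq B z c)))
      {z : G | nN z ≤ r / 4} μ := fun a c =>
    (intgR ((hfc.pow 2).mul (continuous_const.mul ((yq_cont a).mul (yq_cont c))))).integrableOn
  have h1 : ∀ z : G, (f z) ^ 2 * ∑ a, ∑ c, T a c * (yq B z a * yq B z c) =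
      ∑ a, ∑ c, (f z) ^ 2 * (T a c * (yq B z a * yq B z c)) := by
    intro z
    rw [Finset.mul_sum]
    refine Finset.sum_congr rfl fun a _ => ?_
    rw [Finset.mul_sum]
  rw [integral_congr_ae (Eventually.of_forall h1), integral_finsetSum]
  · refine Finset.sum_congr rfl fun a _ => ?_
    rw [integral_finsetSum]
    · refine Finset.sum_congr rfl fun c _ => ?_
      unfold YQ
      rw [← integral_mul_const]
      refine integral_congr_ae (Eventually.of_forall fun z => ?_)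
      beta_reduce
      ring
    · intro c _
      exact hint a c
  · intro a _
    exact integrable_finsetSum _ fun c _ => hint a c

include hG in
/-- the second moments are isotropic -/
lemma YQ_iso (hI : IsoG B) (hf : CF f F) : ∃ p₁ : ℝ, ∀ a c, YQ B μ r f a c =
    if a = c then p₁ else 0 := by
  have hfc : Continuous f := hf.cont
  refine hI (YQ B μ r f) (fun a c => ?_) fun g x => ?_
  · unfold YQ
    refine integral_congr_ae (Eventually.of_forall fun z => ?_)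
    beta_reduce
    ring
  · rw [YQ_bil hfc fun a c => Adx B g x a * Adx B g x c, YQ_bil hfc fun a c => x a * x c,
      ← conj_inv_near (μ := μ) (r := r)
        (φ := fun z => (f z) ^ 2 * ∑ a, ∑ c, x a * x c * (yq B z a * yq B z c)) g]
    refine integral_congr_ae (Eventually.of_forall fun z => ?_)
    beta_reduce
    have h1 : f (g⁻¹ * z * g) = f z := by
      have h2 := hf.cls g⁻¹ (uG z)
      rw [map_inv, inv_inv, ← map_inv, ← map_mul, ← map_mul, hf.res, hf.res] at h2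
      exact_mod_cast h2
    have h3 : ∀ (v w : Fin n → ℝ), ∑ a, ∑ c, v a * v c * (w a * w c) = (∑ a, v a * w a) ^ 2 := by
      intro v w
      rw [sum_sq_expand]
      refine Finset.sum_congr rfl fun a _ => Finset.sum_congr rfl fun c _ => ?_
      ring
    rw [h1, h3, h3, yq_Ad hG]

variable (B hG μ) in
/-- the hypotheses of the second order estimate -/
structure Hy2 (r₀ C : ℝ) (b : (Fin n → ℂ) → (Fin n → ℂ) → (Fin n → ℂ))
    (r k M Cm Cq Cu Cs Cp Cy cA : ℝ) (f : G → ℝ) (F : (Mat N)ˣ → ℂ) (m : (Fin n → ℂ) → ℂ) :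
    Prop where
  Z : Hz B hG μ r₀ C b r k M Cm Cq Cu Cs Cp cA f F m
  hCy : 0 ≤ Cy
  h5 : ∀ y : Fin n → ℝ, nE y < r₀ → nE (yq B (Eg B hG y) - y) ≤ Cy * nE y ^ 5
  h5s : Cy * r₀ ^ 4 ≤ 1

/-- the error of the second moment -/
def E1q (Cm Cy r k M : ℝ) : ℝ :=
  810 * k * M * (10 / k * (Cm / k)) + (52 * k ^ 2 * Cy + 52488 * M ^ 2) * (200 / k ^ 2 * (Cm / k)) +
    256 / (r ^ 2 * k ^ 4)

lemma sq_arith {k M Cy f x t s e l : ℝ} (hk : 0 ≤ k) (hM : 0 ≤ M) (hCy : 0 ≤ Cy) (hx : 0 ≤ x)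
    (ht : 0 ≤ t) (hCt : Cy * t ^ 4 ≤ 1) (he : e = l + f * (k * s))
    (h1 : |e| ≤ |f| * (x * (162 * M * t ^ 3 + 4 * k * Cy * t ^ 5)))
    (h2 : |s| ≤ x * (5 / 2 * t)) :
    |l ^ 2 - k ^ 2 * (f ^ 2 * s ^ 2)| ≤ x ^ 2 * (810 * k * M * (f ^ 2 * t ^ 4) +
      (52 * k ^ 2 * Cy + 52488 * M ^ 2) * (f ^ 2 * t ^ 6)) := by
  obtain ⟨q, hq⟩ : ∃ q, q = 162 * M * t ^ 3 + 4 * k * Cy * t ^ 5 := ⟨_, rfl⟩
  have hq0 : 0 ≤ q := by rw [hq]; positivity
  rw [← hq] at h1
  have e1 : l ^ 2 - k ^ 2 * (f ^ 2 * s ^ 2) = e * e - 2 * (f * (k * s)) * e := by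
    rw [he]; ring
  rw [e1]
  refine (abs_sub _ _).trans ?_
  rw [abs_mul e e, abs_mul (2 * (f * (k * s))) e, abs_mul 2, abs_mul f, abs_mul k, abs_two,
    abs_of_nonneg hk]
  have g1 : |e| * |e| ≤ (|f| * (x * q)) * (|f| * (x * q)) :=
    mul_le_mul h1 h1 (abs_nonneg _) (by positivity)
  have g2 : 2 * (|f| * (k * |s|)) * |e| ≤ 2 * (|f| * (k * (x * (5 / 2 * t)))) *
      (|f| * (x * q)) := by gcongr
  have g3 : q ^ 2 ≤ 52488 * M ^ 2 * t ^ 6 + 32 * k ^ 2 * Cy * t ^ 6 := by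
    have h3 : q ^ 2 ≤ 2 * (162 * M * t ^ 3) ^ 2 + 2 * (4 * k * Cy * t ^ 5) ^ 2 := by
      rw [hq]
      nlinarith [sq_nonneg (162 * M * t ^ 3 - 4 * k * Cy * t ^ 5)]
    have h4 : 2 * (4 * k * Cy * t ^ 5) ^ 2 ≤ 32 * k ^ 2 * Cy * t ^ 6 := by
      have h5 : 2 * (4 * k * Cy * t ^ 5) ^ 2 = 32 * k ^ 2 * Cy * t ^ 6 * (Cy * t ^ 4) := by ring
      rw [h5]
      exact mul_le_of_le_one_right (by positivity) hCt
    have h6 : 2 * (162 * M * t ^ 3) ^ 2 = 52488 * M ^ 2 * t ^ 6 := by ring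
    linarith
  have g4 : |f| ^ 2 * x ^ 2 * q ^ 2 ≤
      |f| ^ 2 * x ^ 2 * (52488 * M ^ 2 * t ^ 6 + 32 * k ^ 2 * Cy * t ^ 6) :=
    mul_le_mul_of_nonneg_left g3 (by positivity)
  calc _ ≤ (|f| * (x * q)) * (|f| * (x * q)) + 2 * (|f| * (k * (x * (5 / 2 * t)))) *
        (|f| * (x * q)) := add_le_add g1 g2
    _ = |f| ^ 2 * x ^ 2 * q ^ 2 + |f| ^ 2 * x ^ 2 * (5 * k * t * q) := by ring
    _ ≤ |f| ^ 2 * x ^ 2 * (52488 * M ^ 2 * t ^ 6 + 32 * k ^ 2 * Cy * t ^ 6) +
        |f| ^ 2 * x ^ 2 * (5 * k * t * q) := by linarith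
    _ = |f| ^ 2 * (x ^ 2 * (810 * k * M * t ^ 4 + (52 * k ^ 2 * Cy + 52488 * M ^ 2) * t ^ 6)) := by
        rw [hq]; ring
    _ = _ := by rw [sq_abs]; ring

namespace Hy2

variable (Z : Hy2 B hG μ r₀ C b r k M Cm Cq Cu Cs Cp Cy cA f F m)
include Z

lemma yq_le {y : Fin n → ℝ} (hy : nE y < r₀) : nE (yq B (Eg B hG y)) ≤ 2 * nE y := by
  have h1 := Z.h5 y hy
  have h2 := nE_add_le (yq B (Eg B hG y) - y) y
  rw [sub_add_cancel] at h2
  have h0 := nE_nonneg y
  have h3 : Cy * nE y ^ 5 ≤ nE y := by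
    have h4 : Cy * nE y ^ 4 ≤ 1 := by
      refine le_trans ?_ Z.h5s
      have := Z.hCy
      gcongr
    calc Cy * nE y ^ 5 = Cy * nE y ^ 4 * nE y := by ring
      _ ≤ 1 * nE y := mul_le_mul_of_nonneg_right h4 h0
      _ = nE y := one_mul _
  linarith

/-- the derivative at near points -/
lemma near_sq2 {z : G} (hz : nN z ≤ r / 4) (x : Fin n → ℝ) :
    |(Lz B F z (rl x)).re ^ 2 - k ^ 2 * ((f z) ^ 2 * N988.MK.dR x (yq B z) ^ 2)| ≤
      nE x ^ 2 * (810 * k * M * ((f z) ^ 2 * nN z ^ 4) +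
        (52 * k ^ 2 * Cy + 52488 * M ^ 2) * ((f z) ^ 2 * nN z ^ 6)) := by
  have H := Z.Z.H
  have hr0 := H.hr0
  have hr := H.hr
  have hk := H.hk
  have hM := H.hM
  have hCy := Z.hCy
  obtain ⟨y, hy, hy2⟩ := H.hl.lg z (by linarith)
  have hz0 : 0 ≤ nN z := norm_nonneg _
  have hy3 : nE y < r / 3 := by linarith
  have hy0 := nE_nonneg y
  have hx0 := nE_nonneg x
  have h1 := St.Lz_exact (hG := hG) H.hs H.hf H.h H.hr hr0 H.hM hy3 (rl x)
  have h2 := Z.h5 y (by linarith)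
  rw [hy] at h1 h2
  have h5 := Z.yq_le (y := y) (by linarith)
  rw [hy] at h5
  have h3 : |(Lz B F z (rl x)).re + f z * (k * N988.MK.dR x y)| ≤
      |f z| * (81 * M * nE x * nE y ^ 3) := by
    have h4 := (Complex.abs_re_le_norm _).trans h1
    rw [Complex.add_re, dC2_rl, nC_rl] at h4
    have e : ((f z : ℂ) * (k * (N988.MK.dR x y : ℂ))).re = f z * (k * N988.MK.dR x y) := by
      rw [← Complex.ofReal_mul, ← Complex.ofReal_mul, Complex.ofReal_re]
    rw [e] at h4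
    exact h4
  have hyc : nE y ^ 3 ≤ 2 * nN z ^ 3 := by
    have h6 := pow_le_pow_left₀ hy0 hy2 3
    have h7 : 0 ≤ nN z ^ 3 := by positivity
    have h8 : (5 / 4 * nN z) ^ 3 = 125 / 64 * nN z ^ 3 := by ring
    linarith
  have hy5 : nE y ^ 5 ≤ 4 * nN z ^ 5 := by
    have h6 := pow_le_pow_left₀ hy0 hy2 5
    have h7 : 0 ≤ nN z ^ 5 := by positivity
    have h8 : (5 / 4 * nN z) ^ 5 = 3125 / 1024 * nN z ^ 5 := by ring
    linarith
  have hCt : Cy * nN z ^ 4 ≤ 1 := by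
    refine le_trans ?_ Z.h5s
    have : nN z ≤ r₀ := by linarith
    gcongr
  refine sq_arith (s := N988.MK.dR x (yq B z)) hk.le hM hCy hx0 hz0 hCt rfl ?_ ?_
  · have e : (Lz B F z (rl x)).re + f z * (k * N988.MK.dR x (yq B z)) =
        ((Lz B F z (rl x)).re + f z * (k * N988.MK.dR x y)) +
          f z * (k * N988.MK.dR x (yq B z - y)) := by
      rw [dR_sub]; ring
    rw [e]
    refine (abs_add_le _ _).trans ?_
    have h6 : |f z * (k * N988.MK.dR x (yq B z - y))| ≤ |f z| * (k * (nE x * (Cy * nE y ^ 5))) := by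
      rw [abs_mul, abs_mul, abs_of_pos hk]
      have h7 := dR_le x (yq B z - y)
      have h9 : nE x * nE (yq B z - y) ≤ nE x * (Cy * nE y ^ 5) :=
        mul_le_mul_of_nonneg_left h2 hx0
      exact mul_le_mul_of_nonneg_left (mul_le_mul_of_nonneg_left (h7.trans h9) hk.le)
        (abs_nonneg _)
    have h8 : |f z| * (81 * M * nE x * nE y ^ 3) ≤ |f z| * (81 * M * nE x * (2 * nN z ^ 3)) := by
      gcongr
    have h9 : |f z| * (k * (nE x * (Cy * nE y ^ 5))) ≤
        |f z| * (k * (nE x * (Cy * (4 * nN z ^ 5)))) := by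
      gcongr
    calc _ ≤ |f z| * (81 * M * nE x * (2 * nN z ^ 3)) +
          |f z| * (k * (nE x * (Cy * (4 * nN z ^ 5)))) :=
          add_le_add (h3.trans h8) (h6.trans h9)
      _ = _ := by ring
  · refine (dR_le _ _).trans (mul_le_mul_of_nonneg_left ?_ hx0)
    linarith

/-- **the Fisher form and the second moments, to the next order** -/
theorem kappa2 {κ p₂ : ℝ}
    (hκ : ∀ x : Fin n → ℂ, ∫ z : G, (Lz B F z x) ^ 2 ∂μ = (κ : ℂ) * qC x)
    (hp₂ : ∀ a c, YQ B μ r f a c = if a = c then p₂ else 0) :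
    |κ - k ^ 2 * p₂| ≤ E1q Cm Cy r k M * ∫ z : G, (f z) ^ 2 ∂μ := by
  have H := Z.Z.H
  have hr0 := H.hr0
  have hk := H.hk
  have hM := H.hM
  have hCy := Z.hCy
  have hfc : Continuous f := H.hf.cont
  obtain ⟨W, hWd⟩ : ∃ W : ℝ, W = ∫ z : G, (f z) ^ 2 ∂μ := ⟨_, rfl⟩
  obtain ⟨x, hxd⟩ : ∃ x : Fin n → ℝ, x = Pi.single (⟨0, Z.Z.hn⟩ : Fin n) (1 : ℝ) := ⟨_, rfl⟩
  have hx1 : nE x = 1 := by
    rw [hxd]
    unfold nE
    rw [Finset.sum_eq_single (⟨0, Z.Z.hn⟩ : Fin n)]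
    · simp
    · intro c _ hc
      simp [hc]
    · intro h; exact absurd (Finset.mem_univ _) h
  have hLc : Continuous fun z : G => (Lz B F z (rl x)).re :=
    Complex.continuous_re.comp (Lz_cont H.hf.hol _)
  have e1 : ∫ z : G, (Lz B F z (rl x)).re ^ 2 ∂μ = κ := by
    have h1 := hκ (rl x)
    rw [qC_rl, hx1] at h1
    have h2 : ∀ z : G, (Lz B F z (rl x)) ^ 2 = (((Lz B F z (rl x)).re ^ 2 : ℝ) : ℂ) := by
      intro z
      have h3 := Lz_im (B := B) (hG := hG) H.hf z x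
      have h4 : Lz B F z (rl x) = ((Lz B F z (rl x)).re : ℂ) := by
        refine Complex.ext ?_ ?_
        · rw [Complex.ofReal_re]
        · rw [Complex.ofReal_im, h3]
      rw [h4]
      push_cast
      rfl
    rw [integral_congr_ae (Eventually.of_forall h2), integral_complex_ofReal] at h1
    have h5 : ((∫ z : G, (Lz B F z (rl x)).re ^ 2 ∂μ : ℝ) : ℂ) = ((κ : ℝ) : ℂ) := by
      rw [h1]; simp
    exact_mod_cast h5
  have e2 : ∫ z in {z : G | nN z ≤ r / 4}, (f z) ^ 2 * N988.MK.dR x (yq B z) ^ 2 ∂μ = p₂ := by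
    have h1 := YQ_bil (B := B) (μ := μ) (r := r) hfc fun a c => x a * x c
    have h2 : ∑ a, ∑ c, YQ B μ r f a c * (x a * x c) = p₂ := by
      have h3 : ∑ a, ∑ c, YQ B μ r f a c * (x a * x c) = ∑ a, p₂ * x a ^ 2 := by
        refine Finset.sum_congr rfl fun a _ => ?_
        rw [Finset.sum_eq_single a]
        · rw [hp₂, if_pos rfl]; ring
        · intro c _ hc
          rw [hp₂, if_neg (Ne.symm hc), zero_mul]
        · intro h; exact absurd (Finset.mem_univ _) h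
      rw [h3, ← Finset.mul_sum, ← nE_sq, hx1]
      ring
    rw [h2] at h1
    rw [h1]
    refine integral_congr_ae (Eventually.of_forall fun z => ?_)
    beta_reduce
    congr 1
    unfold N988.MK.dR
    rw [sum_sq_expand]
    refine Finset.sum_congr rfl fun a _ => Finset.sum_congr rfl fun c _ => ?_
    ring
  have hLi : Continuous fun z : G => (Lz B F z (rl x)).re ^ 2 := hLc.pow 2
  have hdc : Continuous fun z : G => (f z) ^ 2 * N988.MK.dR x (yq B z) ^ 2 := by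
    refine (hfc.pow 2).mul (Continuous.pow ?_ 2)
    unfold N988.MK.dR
    exact continuous_finsetSum _ fun a _ => continuous_const.mul (yq_cont a)
  have hsp := split_intR (μ := μ) (r := r) hLi
  rw [e1] at hsp
  have e3 : κ - k ^ 2 * p₂ = (∫ z in {z : G | nN z ≤ r / 4}, ((Lz B F z (rl x)).re ^ 2 -
      k ^ 2 * ((f z) ^ 2 * N988.MK.dR x (yq B z) ^ 2)) ∂μ) +
      ∫ z in {z : G | r / 4 < nN z}, (Lz B F z (rl x)).re ^ 2 ∂μ := by
    rw [integral_sub (intgR hLi).integrableOn ((intgR hdc).const_mul _).integrableOn,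
      integral_const_mul, e2, hsp]
    ring
  have e4 : |∫ z in {z : G | nN z ≤ r / 4}, ((Lz B F z (rl x)).re ^ 2 -
      k ^ 2 * ((f z) ^ 2 * N988.MK.dR x (yq B z) ^ 2)) ∂μ| ≤
      810 * k * M * (10 / k * (Cm / k * W)) +
        (52 * k ^ 2 * Cy + 52488 * M ^ 2) * (200 / k ^ 2 * (Cm / k * W)) := by
    refine (abs_integral_le_integral_abs).trans ?_
    have h1 : ∫ z in {z : G | nN z ≤ r / 4}, |(Lz B F z (rl x)).re ^ 2 -
        k ^ 2 * ((f z) ^ 2 * N988.MK.dR x (yq B z) ^ 2)| ∂μ ≤ ∫ z in {z : G | nN z ≤ r / 4},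
          (810 * k * M * ((f z) ^ 2 * nN z ^ 4) +
            (52 * k ^ 2 * Cy + 52488 * M ^ 2) * ((f z) ^ 2 * nN z ^ 6)) ∂μ := by
      refine setIntegral_mono_on ?_ ?_ meas_near fun z hz => ?_
      · exact ((intgR (hLi.sub (continuous_const.mul hdc))).abs).integrableOn
      · exact (intgR ((continuous_const.mul ((hfc.pow 2).mul (N988.MK.nN_cont.pow 4))).add
          (continuous_const.mul ((hfc.pow 2).mul (N988.MK.nN_cont.pow 6))))).integrableOn
      · have h2 := Z.near_sq2 hz x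
        rwa [hx1, one_pow, one_mul] at h2
    refine h1.trans ?_
    rw [integral_add, integral_const_mul, integral_const_mul]
    · have h2 := mom4 H.hi H.hf hk
      have h3 := mom6 H.hi H.hf hk
      rw [← hWd] at h2 h3
      exact add_le_add (mul_le_mul_of_nonneg_left h2 (by positivity))
        (mul_le_mul_of_nonneg_left h3 (by positivity))
    · exact (intgR (continuous_const.mul ((hfc.pow 2).mul (N988.MK.nN_cont.pow 4)))).integrableOn
    · exact (intgR (continuous_const.mul ((hfc.pow 2).mul (N988.MK.nN_cont.pow 6)))).integrableOn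
  have e5 : |∫ z in {z : G | r / 4 < nN z}, (Lz B F z (rl x)).re ^ 2 ∂μ| ≤
      256 / (r ^ 2 * k ^ 4) * W := by
    rw [abs_of_nonneg (integral_nonneg fun z => sq_nonneg _)]
    have hm : MeasurableSet {z : G | r / 4 < nN z} :=
      (isOpen_lt continuous_const N988.MK.nN_cont).measurableSet
    have h1 : ∫ z in {z : G | r / 4 < nN z}, (Lz B F z (rl x)).re ^ 2 ∂μ ≤
        ∫ _z in {z : G | r / 4 < nN z}, 256 / (r ^ 2 * k ^ 4) * W ∂μ := by
      refine setIntegral_mono_on (intgR hLi).integrableOn (integrable_const _).integrableOn hm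
        fun z hz => ?_
      have h2 := Z.Z.far_der hz x
      rwa [hx1, one_pow, one_mul, ← hWd] at h2
    refine h1.trans ?_
    rw [setIntegral_const, smul_eq_mul]
    have h2 : μ.real {z : G | r / 4 < nN z} ≤ 1 := measureReal_le_one
    have h3 : 0 ≤ 256 / (r ^ 2 * k ^ 4) * W := by
      have := H.hW
      rw [← hWd] at this
      positivity
    exact mul_le_of_le_one_left h3 h2
  rw [e3, ← hWd]
  refine (abs_add_le _ _).trans ?_
  refine (add_le_add e4 e5).trans (le_of_eq ?_)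
  unfold E1q
  ring

end Hy2

end

end Pool.Agent.N991.MK
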