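import Mathlib
import Pool.Agent.N991.MK.TwoC
import Pool.Agent.N991.MK.TwoS

/-!
# The interaction of the two points to the next order
-/

open MeasureTheory Filter Metric Asymptotics Matrix
open scoped Matrix.Norms.Frobenius Topology ContDiff
open Pool.Agent.H906R3.YM Pool.Agent.W793.YM Pool.Agent.TH618.YM Pool.Agent.N984.TW
open Pool.Agent.N988.MK

namespace Pool.Agent.N991.MK

set_option linter.unusedSectionVars false

noncomputable section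

variable {N n : ℕ} {G : Subgroup (UN N)} (B : Frame G n) {hG : IsClosed (G : Set (UN N))}

/-- the commutator -/
def cm (A D : Mat N) : Mat N := A * D - D * A

lemma cm_norm (A D : Mat N) : ‖cm A D‖ ≤ 2 * (‖A‖ * ‖D‖) := norm_comm_le A D

lemma cm_smul_left (c : ℂ) (A D : Mat N) : cm (c • A) D = c • cm A D := by
  unfold cm; rw [smul_mul_assoc, mul_smul_comm, smul_sub]

lemma cm_smul_right (c : ℂ) (A D : Mat N) : cm A (c • D) = c • cm A D := by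
  unfold cm; rw [smul_mul_assoc, mul_smul_comm, smul_sub]

/-- the square of the norm of the double bracket -/
def b4R (v x : Fin n → ℝ) : ℝ := ‖cm (LX B v) (cm (LX B v) (LX B x))‖ ^ 2

/-- the double bracket form -/
def b2C (x y : Fin n → ℂ) : ℂ :=
  -trace (cm (LC B x) (cm (LC B x) (LC B y)) * cm (LC B x) (cm (LC B x) (LC B y)))

lemma skew_tr {S : Mat N} (hSs : Sᴴ = -S) : -trace (S * S) = ((‖S‖ ^ 2 : ℝ) : ℂ) := by
  have h1 : -trace (S * S) = trace (Sᴴ * S) := by rw [hSs, neg_mul, trace_neg]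
  have h2 : star (trace (Sᴴ * S)) = trace (Sᴴ * S) := by
    rw [← trace_conjTranspose, conjTranspose_mul, conjTranspose_conjTranspose]
  rw [h1, norm_sq_ip, ip_apply]
  refine Complex.ext ?_ ?_
  · rw [Complex.ofReal_re]
  · rw [Complex.ofReal_im]
    have := congrArg Complex.im h2
    simp only [Complex.star_def, Complex.conj_im] at this
    linarith

lemma cm_skew {A D : Mat N} (hA : Aᴴ = -A) (hD : Dᴴ = -D) : (cm A D)ᴴ = -cm A D := by
  unfold cm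
  rw [conjTranspose_sub, conjTranspose_mul, conjTranspose_mul, hA, hD]
  noncomm_ring

lemma b2C_rl (x v : Fin n → ℝ) : b2C B (rl x) (rl v) = (b4R B x v : ℂ) := by
  unfold b2C b4R
  rw [LC_rl, LC_rl]
  exact skew_tr (cm_skew (LX_star B x) (cm_skew (LX_star B x) (LX_star B v)))

lemma b2C_smul (x y : Fin n → ℂ) (s t : ℂ) : b2C B (s • x) (t • y) = s ^ 4 * t ^ 2 * b2C B x y := by
  unfold b2C
  rw [LC_smul, LC_smul]
  simp only [cm_smul_left, cm_smul_right, smul_mul_assoc, mul_smul_comm, smul_smul, trace_smul,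
    smul_eq_mul]
  ring

lemma norm_b2C_le (x y : Fin n → ℂ) : ‖b2C B x y‖ ≤ 32 * nC x ^ 4 * nC y ^ 2 := by
  unfold b2C
  rw [norm_neg]
  refine (norm_trace_mul_le _ _).trans ?_
  have h1 := cm_norm (LC B x) (LC B y)
  have h2 := cm_norm (LC B x) (cm (LC B x) (LC B y))
  rw [norm_LC] at h1 h2
  rw [norm_LC] at h1
  have hx0 := nC_nonneg x
  have hy0 := nC_nonneg y
  have h3 : ‖cm (LC B x) (cm (LC B x) (LC B y))‖ ≤ 4 * (nC x ^ 2 * nC y) := by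
    refine h2.trans ?_
    calc 2 * (nC x * ‖cm (LC B x) (LC B y)‖) ≤ 2 * (nC x * (2 * (nC x * nC y))) := by gcongr
      _ = _ := by ring
  have h0 := norm_nonneg (cm (LC B x) (cm (LC B x) (LC B y)))
  have h4 := mul_le_mul h3 h3 h0 (by positivity)
  calc _ ≤ 2 * (4 * (nC x ^ 2 * nC y) * (4 * (nC x ^ 2 * nC y))) := by linarith
    _ = _ := by ring

lemma cm_sub_left (A A' D : Mat N) : cm (A - A') D = cm A D - cm A' D := by
  unfold cm; noncomm_ring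

lemma cm_sub_right (A D D' : Mat N) : cm A (D - D') = cm A D - cm A D' := by
  unfold cm; noncomm_ring

lemma LX_sub (v w : Fin n → ℝ) : LX B (v - w) = LX B v - LX B w := by
  rw [sub_eq_add_neg, LX_add, LX_neg]; abel

lemma b4R_diff (v w x : Fin n → ℝ) : |b4R B v x - b4R B w x| ≤
    16 * nE x ^ 2 * nE (v - w) * (nE v + nE w) * (nE v ^ 2 + nE w ^ 2) := by
  unfold b4R
  obtain ⟨X, hX⟩ : ∃ X, X = LX B x := ⟨_, rfl⟩
  obtain ⟨V, hV⟩ : ∃ V, V = LX B v := ⟨_, rfl⟩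
  obtain ⟨W, hW⟩ : ∃ W, W = LX B w := ⟨_, rfl⟩
  have nX : ‖X‖ = nE x := by rw [hX, norm_LX]
  have nV : ‖V‖ = nE v := by rw [hV, norm_LX]
  have nW : ‖W‖ = nE w := by rw [hW, norm_LX]
  have nD : ‖V - W‖ = nE (v - w) := by rw [hV, hW, ← LX_sub, norm_LX]
  have hx0 := nE_nonneg x
  have hv0 := nE_nonneg v
  have hw0 := nE_nonneg w
  have hd0 := nE_nonneg (v - w)
  rw [← hX, ← hV, ← hW]
  have e1 : cm V (cm V X) - cm W (cm W X) = cm (V - W) (cm V X) + cm W (cm (V - W) X) := by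
    rw [cm_sub_left, cm_sub_left, cm_sub_right]; abel
  have h1 : ‖cm V (cm V X) - cm W (cm W X)‖ ≤ 4 * (nE x * (nE (v - w) * (nE v + nE w))) := by
    rw [e1]
    refine (norm_add_le _ _).trans ?_
    have g1 := cm_norm (V - W) (cm V X)
    have g2 := cm_norm V X
    have g3 := cm_norm W (cm (V - W) X)
    have g4 := cm_norm (V - W) X
    rw [nD] at g1
    rw [nV, nX] at g2
    rw [nW] at g3
    rw [nD, nX] at g4
    calc _ ≤ 2 * (nE (v - w) * (2 * (nE v * nE x))) + 2 * (nE w * (2 * (nE (v - w) * nE x))) := by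
          refine add_le_add (g1.trans ?_) (g3.trans ?_)
          · gcongr
          · gcongr
      _ = _ := by ring
  have h2 : ∀ (U : Mat N), ‖cm U (cm U X)‖ ≤ 4 * (nE x * ‖U‖ ^ 2) := by
    intro U
    have g1 := cm_norm U (cm U X)
    have g2 := cm_norm U X
    rw [nX] at g2
    refine g1.trans ?_
    calc 2 * (‖U‖ * ‖cm U X‖) ≤ 2 * (‖U‖ * (2 * (‖U‖ * nE x))) := by gcongr
      _ = _ := by ring
  have h3 := h2 V
  have h4 := h2 W
  rw [nV] at h3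
  rw [nW] at h4
  have e : ‖cm V (cm V X)‖ ^ 2 - ‖cm W (cm W X)‖ ^ 2 =
      (‖cm V (cm V X)‖ - ‖cm W (cm W X)‖) * (‖cm V (cm V X)‖ + ‖cm W (cm W X)‖) := by ring
  rw [e, abs_mul, abs_of_nonneg (a := ‖cm V (cm V X)‖ + ‖cm W (cm W X)‖)
    (add_nonneg (norm_nonneg _) (norm_nonneg _))]
  have h5 := (abs_norm_sub_norm_le (cm V (cm V X)) (cm W (cm W X))).trans h1
  calc |‖cm V (cm V X)‖ - ‖cm W (cm W X)‖| * (‖cm V (cm V X)‖ + ‖cm W (cm W X)‖) ≤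
      4 * (nE x * (nE (v - w) * (nE v + nE w))) * (4 * (nE x * nE v ^ 2) + 4 * (nE x * nE w ^ 2)) :=
        mul_le_mul h5 (add_le_add h3 h4) (add_nonneg (norm_nonneg _) (norm_nonneg _))
          (mul_nonneg (by norm_num) (mul_nonneg hx0 (mul_nonneg hd0 (add_nonneg hv0 hw0))))
    _ = _ := by ring

variable {B}
variable [CompactSpace G] [MeasurableSpace G] [BorelSpace G] {μ : Measure G}
  [IsProbabilityMeasure μ] [μ.IsMulLeftInvariant] [μ.IsMulRightInvariant] [μ.IsInvInvariant]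
variable {r₀ C : ℝ} {b : (Fin n → ℂ) → (Fin n → ℂ) → (Fin n → ℂ)}
variable {r k M Cm Cq Cu Cs Cp Cy C6 C₀ D cA : ℝ} {F : (Mat N)ˣ → ℂ}
  {m m4 : (Fin n → ℂ) → ℂ} {f : G → ℝ}

lemma LXpz_cont : Continuous fun z : G => LX B (pz B z) := by
  unfold LX
  exact continuous_finsetSum _ fun a _ => (pz_cont a).smul continuous_const

lemma b4R_cont (x : Fin n → ℝ) : Continuous fun z : G => b4R B (pz B z) x := by
  unfold b4R cm
  have h := LXpz_cont (B := B)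
  exact ((((h.mul ((h.mul continuous_const).sub (continuous_const.mul h))).sub
    (((h.mul continuous_const).sub (continuous_const.mul h)).mul h))).norm).pow 2

lemma bRq_cont (x : Fin n → ℝ) : Continuous fun z : G => bR B x (yq B z) := by
  have e : (fun z : G => bR B x (yq B z)) = fun z => ∑ a, ∑ c,
    ip (LX B x * B.X a - B.X a * LX B x) (LX B x * B.X c - B.X c * LX B x) *
      (yq B z a * yq B z c) := by
    funext z; exact bR_eq B x _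
  rw [e]
  exact continuous_finsetSum _ fun a _ => continuous_finsetSum _ fun c _ =>
    continuous_const.mul ((yq_cont a).mul (yq_cont c))

/-- the integral of the bracket form -/
lemma bRq_int (hfc : Continuous f) {p₂ : ℝ} (hp₂ : ∀ a c, YQ B μ r f a c = if a = c then p₂ else 0)
    (hcA : ∀ x : Fin n → ℝ, ∑ a, ‖LX B x * B.X a - B.X a * LX B x‖ ^ 2 = cA * nE x ^ 2)
    (x : Fin n → ℝ) :
    ∫ z in {z : G | nN z ≤ r / 4}, (f z) ^ 2 * bR B x (yq B z) ∂μ = p₂ * (cA * nE x ^ 2) := by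
  have h1 := YQ_bil (B := B) (μ := μ) (r := r) hfc fun a c =>
    ip (LX B x * B.X a - B.X a * LX B x) (LX B x * B.X c - B.X c * LX B x)
  have h2 : ∑ a, ∑ c, YQ B μ r f a c *
      ip (LX B x * B.X a - B.X a * LX B x) (LX B x * B.X c - B.X c * LX B x) =
      p₂ * (cA * nE x ^ 2) := by
    rw [← hcA, Finset.mul_sum]
    refine Finset.sum_congr rfl fun a _ => ?_
    rw [Finset.sum_eq_single a]
    · rw [hp₂, if_pos rfl, norm_sq_ip]
    · intro c _ hc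
      rw [hp₂, if_neg (Ne.symm hc), zero_mul]
    · intro h; exact absurd (Finset.mem_univ _) h
  rw [h2] at h1
  rw [h1]
  refine integral_congr_ae (Eventually.of_forall fun z => ?_)
  beta_reduce
  rw [bR_eq]

/-- a quadratic form of the coordinates -/
lemma quad_diff {t : Fin n → Fin n → ℂ} (hD : ∀ a c, ‖t a c‖ ≤ D) (v w : Fin n → ℝ) :
    ‖(∑ a, ∑ c, t a c * ((v a * v c : ℝ) : ℂ)) - ∑ a, ∑ c, t a c * ((w a * w c : ℝ) : ℂ)‖ ≤
      n ^ 2 * D * (nE (v - w) * (nE v + nE w)) := by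
  rw [← Finset.sum_sub_distrib]
  have h1 : ∀ a : Fin n, |v a - w a| ≤ nE (v - w) := by
    intro a
    have := abs_le_nC (rl (v - w)) a
    rwa [nC_rl, rl, Complex.norm_real] at this
  have h2 : ∀ (u : Fin n → ℝ) (a : Fin n), |u a| ≤ nE u := by
    intro u a
    have := abs_le_nC (rl u) a
    rwa [nC_rl, rl, Complex.norm_real] at this
  have h3 : ∀ a c, ‖t a c * ((v a * v c : ℝ) : ℂ) - t a c * ((w a * w c : ℝ) : ℂ)‖ ≤
      D * (nE (v - w) * (nE v + nE w)) := by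
    intro a c
    rw [← mul_sub, norm_mul, ← Complex.ofReal_sub, Complex.norm_real, Real.norm_eq_abs]
    have h4 : |v a * v c - w a * w c| ≤ nE (v - w) * (nE v + nE w) := by
      have e : v a * v c - w a * w c = (v a - w a) * v c + w a * (v c - w c) := by ring
      rw [e]
      refine (abs_add_le _ _).trans ?_
      rw [abs_mul, abs_mul]
      have g1 := h1 a
      have g2 := h1 c
      have g3 := h2 v c
      have g4 := h2 w a
      have g5 := nE_nonneg (v - w)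
      have g6 := nE_nonneg w
      calc |v a - w a| * |v c| + |w a| * |v c - w c| ≤
          nE (v - w) * nE v + nE w * nE (v - w) := by gcongr
        _ = _ := by ring
    exact mul_le_mul (hD a c) h4 (abs_nonneg _) ((norm_nonneg _).trans (hD a c))
  calc _ ≤ ∑ _a : Fin n, ∑ _c : Fin n, D * (nE (v - w) * (nE v + nE w)) := by
        refine (norm_sum_le _ _).trans (Finset.sum_le_sum fun a _ => ?_)
        rw [← Finset.sum_sub_distrib]
        exact (norm_sum_le _ _).trans (Finset.sum_le_sum fun c _ => h3 a c)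
    _ = _ := by
        simp only [Finset.sum_const, Finset.card_univ, Fintype.card_fin, nsmul_eq_mul]
        ring

variable (B hG μ) in
/-- the hypotheses of the second order estimate of the interaction -/
structure Hy6 (r₀ C : ℝ) (b : (Fin n → ℂ) → (Fin n → ℂ) → (Fin n → ℂ))
    (r k M Cm Cq Cu Cs Cp Cy C6 C₀ cA : ℝ) (f : G → ℝ) (F : (Mat N)ˣ → ℂ)
    (m m4 : (Fin n → ℂ) → ℂ) : Prop where
  Y : Hy2 B hG μ r₀ C b r k M Cm Cq Cu Cs Cp Cy cA f F m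
  hC6 : 0 ≤ C6
  h6 : ∀ x y : Fin n → ℂ, nC x < r₀ / 2 → nC y < r₀ / 2 →
    ‖Tf b qC x y + 1 / 6 * brC B x y + 1 / 360 * (b2C B x y + b2C B y x)‖ ≤
      C6 * nC x ^ 2 * nC y ^ 2 * max (nC x) (nC y) ^ 4
  Q : Qrt r M C₀ m m4

/-- the coefficient of the sixth moment -/
def a6 (Cp Cy C6 : ℝ) : ℝ := C6 / 8 + Cy / 4 + Cp / 12

/-- the coefficient of the fourth moment -/
def a4 (n : ℕ) (Cp r M D : ℝ) : ℝ := 1296 * M / r ^ 2 + 3 / 4 * (n ^ 2 * D * Cp)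

/-- the coefficient of the irrelevant term -/
def a0 (C6 r k M : ℝ) : ℝ := k * C6 / 8 + 1296 * M / r ^ 2 + k / 360

variable (B) in
/-- the second order interaction -/
def AA (k : ℝ) (m4 : (Fin n → ℂ) → ℂ) (x : Fin n → ℝ) (z : G) : ℂ :=
  ((k / 12 * bR B x (yq B z) + k / 720 * b4R B (pz B z) x : ℝ) : ℂ) -
    T4 m4 (rl x) (rl (pz B z))

lemma twoD_k1 {A Y Y' c : ℝ} (hA : A ≤ c * Y ^ 5) (hY : Y' ≤ 2 * Y) (hA0 : 0 ≤ A) (hY0 : 0 ≤ Y)
    (hY0' : 0 ≤ Y') : 4 * 1 ^ 2 * A * (Y' + Y) ≤ 12 * c * Y ^ 6 := by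
  have h0 := hA0.trans hA
  calc 4 * 1 ^ 2 * A * (Y' + Y) ≤ 4 * 1 ^ 2 * (c * Y ^ 5) * (2 * Y + Y) := by gcongr
    _ = _ := by ring

lemma twoD_k2 {A Y Y' c : ℝ} (hA : A ≤ c * Y ^ 3) (hY : Y' ≤ 2 * Y) (hA0 : 0 ≤ A) (hY0 : 0 ≤ Y)
    (hY0' : 0 ≤ Y') :
    16 * 1 ^ 2 * A * (Y' + Y) * (Y' ^ 2 + Y ^ 2) ≤ 240 * c * Y ^ 6 := by
  have h0 := hA0.trans hA
  calc 16 * 1 ^ 2 * A * (Y' + Y) * (Y' ^ 2 + Y ^ 2)
      ≤ 16 * 1 ^ 2 * (c * Y ^ 3) * (2 * Y + Y) * ((2 * Y) ^ 2 + Y ^ 2) := by gcongr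
    _ = _ := by ring

lemma twoD_k3 {A Y Y' c E : ℝ} (hA : A ≤ c * Y ^ 3) (hY : Y' ≤ 2 * Y) (hA0 : 0 ≤ A)
    (hY0 : 0 ≤ Y) (hY0' : 0 ≤ Y') (hE : 0 ≤ E) :
    E * (A * (Y' + Y)) ≤ 3 * (E * c) * Y ^ 4 := by
  have h0 := hA0.trans hA
  calc E * (A * (Y' + Y)) ≤ E * (c * Y ^ 3 * (2 * Y + Y)) := by gcongr
    _ = _ := by ring

namespace Hy6

variable (S : Hy6 B hG μ r₀ C b r k M Cm Cq Cu Cs Cp Cy C6 C₀ cA f F m m4)
include S

/-- the interaction at near points, expanded to the next order -/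
lemma Th_exp2 {x : Fin n → ℝ} (hx1 : nE x = 1) {t : Fin n → Fin n → ℂ}
    (ht : ∀ v : Fin n → ℝ, T4 m4 (rl x) (rl v) = ∑ a, ∑ c, t a c * ((v a * v c : ℝ) : ℂ))
    (hD : ∀ a c, ‖t a c‖ ≤ D) {y : Fin n → ℝ} (hy : nE y < r / 3) {ζ : ℂ} (hζ : ‖ζ‖ < r / 3)
    (hζ1 : ‖ζ‖ ≤ 1) :
    ‖Th b k m (ζ • rl x) (rl y) + 1 / 4 * ζ ^ 2 * AA B k m4 x (Eg B hG y)‖ ≤
      ‖ζ‖ ^ 2 * (k * a6 Cp Cy C6 * nE y ^ 6 + a4 n Cp r M D * nE y ^ 4) +
        ‖ζ‖ ^ 4 * (a0 C6 r k M * nE y ^ 2) := by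
  have H := S.Y.Z.H
  have hr0 := H.hr0
  have hr := H.hr
  have hk := H.hk
  have hCp := S.Y.Z.hCp
  have hCy := S.Y.hCy
  have hC6 := S.hC6
  have hM := H.hM
  have hy0 := nE_nonneg y
  have hζ0 := norm_nonneg ζ
  obtain ⟨v, hv⟩ : ∃ v, v = (1 / 2 : ℂ) • (ζ • rl x) := ⟨_, rfl⟩
  have hvn : nC v = ‖ζ‖ / 2 := by rw [hv, nC_half, nC_smul, nC_rl, hx1, mul_one]
  have hyn : nC (rl y) = nE y := nC_rl y
  have h1 := S.h6 v (rl y) (by rw [hvn]; linarith) (by rw [hyn]; linarith)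
  have h2 := St.T4_near H.hs H.hf H.h1 H.h hG H.hr hr0 H.hM S.Q (x := v) (y := rl y)
    (by rw [hvn]; linarith) (by rw [hyn]; exact hy)
  rw [hvn, hyn] at h1 h2
  have h4v : v = (ζ / 2) • rl x := by rw [hv, smul_smul]; congr 1; ring
  have hbr : brC B v (rl y) = ζ ^ 2 / 4 * (bR B x y : ℂ) := by
    have h3 := brC_smul (B := B) (rl x) (rl y) (ζ / 2) 1
    rw [one_smul] at h3
    rw [h4v, h3, brC_rl]
    ring
  have hb2 : b2C B (rl y) v = ζ ^ 2 / 4 * (b4R B y x : ℂ) := by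
    have h3 := b2C_smul B (rl y) (rl x) 1 (ζ / 2)
    rw [one_smul] at h3
    rw [h4v, h3, b2C_rl]
    ring
  have hb3 := norm_b2C_le B v (rl y)
  rw [hvn, hyn] at hb3
  have hT : T4 m4 v (rl y) = ζ ^ 2 / 4 * T4 m4 (rl x) (rl y) := by
    have h3 := S.Q.hom2 (ζ / 2) 1 (rl x) (rl y)
    rw [one_smul] at h3
    rw [h4v, h3]
    ring
  have g1 := bR_diff B x (yq B (Eg B hG y)) y
  have g2 := S.Y.h5 y (by linarith)
  have g3 := S.Y.yq_le (y := y) (by linarith)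
  have g4 := b4R_diff B (pz B (Eg B hG y)) y x
  have g5 := S.Y.Z.hp y (by linarith)
  have g6 := S.Y.Z.pz_le (y := y) (by linarith)
  have g7 := quad_diff hD (pz B (Eg B hG y)) y
  rw [← ht, ← ht] at g7
  rw [hx1] at g1 g4
  have n0 := nE_nonneg (yq B (Eg B hG y) - y)
  have n0' := nE_nonneg (yq B (Eg B hG y))
  have n1 := nE_nonneg (pz B (Eg B hG y) - y)
  have n1' := nE_nonneg (pz B (Eg B hG y))
  have k1 : |bR B x (yq B (Eg B hG y)) - bR B x y| ≤ 12 * Cy * nE y ^ 6 := by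
    exact g1.trans (twoD_k1 g2 g3 n0 hy0 n0')
  have k2 : |b4R B (pz B (Eg B hG y)) x - b4R B y x| ≤ 240 * Cp * nE y ^ 6 := by
    exact g4.trans (twoD_k2 g5 g6 n1 hy0 n1')
  have hD0 : 0 ≤ D := by
    have := hD ⟨0, S.Y.Z.hn⟩ ⟨0, S.Y.Z.hn⟩
    exact (norm_nonneg _).trans this
  have k3 : ‖T4 m4 (rl x) (rl (pz B (Eg B hG y))) - T4 m4 (rl x) (rl y)‖ ≤
      3 * (n ^ 2 * D * Cp) * nE y ^ 4 := by
    exact g7.trans (twoD_k3 g5 g6 n1 hy0 n1' (mul_nonneg (sq_nonneg _) hD0))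
  obtain ⟨e1, he1⟩ : ∃ e, e = Tf b qC v (rl y) + 1 / 6 * brC B v (rl y) +
    1 / 360 * (b2C B v (rl y) + b2C B (rl y) v) := ⟨_, rfl⟩
  obtain ⟨e2, he2⟩ : ∃ e, e = Tf b m v (rl y) - T4 m4 v (rl y) := ⟨_, rfl⟩
  rw [← he1] at h1
  rw [← he2] at h2
  have e : Th b k m (ζ • rl x) (rl y) + 1 / 4 * ζ ^ 2 * AA B k m4 x (Eg B hG y) =
      (k / 2 : ℂ) * e1 + e2 - (k / 720 : ℂ) * b2C B v (rl y) +
      ((k / 48 : ℂ) * ζ ^ 2 * ((bR B x (yq B (Eg B hG y)) - bR B x y : ℝ) : ℂ) +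
      (k / 2880 : ℂ) * ζ ^ 2 * ((b4R B (pz B (Eg B hG y)) x - b4R B y x : ℝ) : ℂ) -
      1 / 4 * ζ ^ 2 * (T4 m4 (rl x) (rl (pz B (Eg B hG y))) - T4 m4 (rl x) (rl y))) := by
    unfold Th AA
    rw [← hv, he1, he2, hbr, hb2, hT]
    push_cast
    ring
  rw [e]
  have c1 : ∀ q : ℝ, 0 < q → ‖(k / q : ℂ)‖ = k / q := by
    intro q hq
    have : (k / q : ℂ) = ((k / q : ℝ) : ℂ) := by push_cast; ring
    rw [this, Complex.norm_real, Real.norm_eq_abs, abs_of_nonneg (div_nonneg hk.le hq.le)]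
  have c2 := c1 2 (by norm_num)
  have c720 := c1 720 (by norm_num)
  have c48 := c1 48 (by norm_num)
  have c2880 := c1 2880 (by norm_num)
  push_cast at c2 c720 c48 c2880
  have c4 : ‖(1 / 4 : ℂ)‖ = 1 / 4 := by norm_num
  have hm4 : max (‖ζ‖ / 2) (nE y) ^ 4 ≤ ‖ζ‖ ^ 2 + nE y ^ 4 := by
    rcases max_cases (‖ζ‖ / 2) (nE y) with ⟨h, _⟩ | ⟨h, _⟩
    · rw [h]
      have i1 : (‖ζ‖ / 2) ^ 4 = ‖ζ‖ ^ 2 * (‖ζ‖ ^ 2 / 16) := by ring
      have i2 : ‖ζ‖ ^ 2 ≤ 1 := pow_le_one₀ hζ0 hζ1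
      have i3 : ‖ζ‖ ^ 2 * (‖ζ‖ ^ 2 / 16) ≤ ‖ζ‖ ^ 2 * 1 :=
        mul_le_mul_of_nonneg_left (by linarith) (sq_nonneg _)
      have i4 : 0 ≤ nE y ^ 4 := pow_nonneg hy0 4
      linarith
    · rw [h]
      have := sq_nonneg ‖ζ‖
      linarith
  have hm2 : max (‖ζ‖ / 2) (nE y) ^ 2 ≤ ‖ζ‖ ^ 2 + nE y ^ 2 := by
    rcases max_cases (‖ζ‖ / 2) (nE y) with ⟨h, _⟩ | ⟨h, _⟩
    · have i1 : (‖ζ‖ / 2) ^ 2 = ‖ζ‖ ^ 2 / 4 := by ring
      rw [h, i1]
      have i2 := sq_nonneg ‖ζ‖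
      have i3 := sq_nonneg (nE y)
      linarith
    · rw [h]
      exact le_add_of_nonneg_left (sq_nonneg _)
  have l1 : ‖(k / 2 : ℂ) * e1‖ ≤ k / 2 * (C6 * (‖ζ‖ / 2) ^ 2 * nE y ^ 2 *
      (‖ζ‖ ^ 2 + nE y ^ 4)) := by
    rw [norm_mul, c2]
    refine mul_le_mul_of_nonneg_left (h1.trans ?_) (div_nonneg hk.le zero_le_two)
    exact mul_le_mul_of_nonneg_left hm4
      (mul_nonneg (mul_nonneg hC6 (sq_nonneg _)) (sq_nonneg _))
  have l2 : ‖e2‖ ≤ 5184 * M / r ^ 2 * (‖ζ‖ / 2) ^ 2 * nE y ^ 2 * (‖ζ‖ ^ 2 + nE y ^ 2) :=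
    h2.trans (mul_le_mul_of_nonneg_left hm2 (mul_nonneg (mul_nonneg (div_nonneg
      (mul_nonneg (by norm_num) hM) (sq_nonneg _)) (sq_nonneg _)) (sq_nonneg _)))
  have l3 : ‖(k / 720 : ℂ) * b2C B v (rl y)‖ ≤ k / 720 * (32 * (‖ζ‖ / 2) ^ 4 * nE y ^ 2) := by
    rw [norm_mul, c720]
    exact mul_le_mul_of_nonneg_left hb3 (div_nonneg hk.le (by norm_num))
  have l4 : ‖(k / 48 : ℂ) * ζ ^ 2 * ((bR B x (yq B (Eg B hG y)) - bR B x y : ℝ) : ℂ)‖ ≤
      k / 48 * ‖ζ‖ ^ 2 * (12 * Cy * nE y ^ 6) := by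
    rw [norm_mul, norm_mul, norm_pow, c48, Complex.norm_real, Real.norm_eq_abs]
    exact mul_le_mul_of_nonneg_left k1 (mul_nonneg (div_nonneg hk.le (by norm_num)) (sq_nonneg _))
  have l5 : ‖(k / 2880 : ℂ) * ζ ^ 2 * ((b4R B (pz B (Eg B hG y)) x - b4R B y x : ℝ) : ℂ)‖ ≤
      k / 2880 * ‖ζ‖ ^ 2 * (240 * Cp * nE y ^ 6) := by
    rw [norm_mul, norm_mul, norm_pow, c2880, Complex.norm_real, Real.norm_eq_abs]
    exact mul_le_mul_of_nonneg_left k2 (mul_nonneg (div_nonneg hk.le (by norm_num)) (sq_nonneg _))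
  have l6 : ‖1 / 4 * ζ ^ 2 * (T4 m4 (rl x) (rl (pz B (Eg B hG y))) - T4 m4 (rl x) (rl y))‖ ≤
      1 / 4 * ‖ζ‖ ^ 2 * (3 * (n ^ 2 * D * Cp) * nE y ^ 4) := by
    rw [norm_mul, norm_mul, norm_pow, c4]
    exact mul_le_mul_of_nonneg_left k3 (mul_nonneg (by norm_num) (sq_nonneg _))
  calc _ ≤ ‖(k / 2 : ℂ) * e1‖ + ‖e2‖ + ‖(k / 720 : ℂ) * b2C B v (rl y)‖ +
      (‖(k / 48 : ℂ) * ζ ^ 2 * ((bR B x (yq B (Eg B hG y)) - bR B x y : ℝ) : ℂ)‖ +
      ‖(k / 2880 : ℂ) * ζ ^ 2 * ((b4R B (pz B (Eg B hG y)) x - b4R B y x : ℝ) : ℂ)‖ +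
      ‖1 / 4 * ζ ^ 2 * (T4 m4 (rl x) (rl (pz B (Eg B hG y))) - T4 m4 (rl x) (rl y))‖) := by
        refine (norm_add_le _ _).trans (add_le_add ?_ ?_)
        · refine (norm_sub_le _ _).trans (add_le_add ?_ le_rfl)
          exact norm_add_le _ _
        · refine (norm_sub_le _ _).trans (add_le_add ?_ le_rfl)
          exact norm_add_le _ _
    _ ≤ _ := add_le_add (add_le_add (add_le_add l1 l2) l3) (add_le_add (add_le_add l4 l5) l6)
    _ = _ := by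
        unfold a6 a4 a0
        ring

end Hy6

end

end Pool.Agent.N991.MK
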