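import Mathlib
import Pool.Agent.N991.MK.TwoD

/-!
# The coupling after one convolution square, to the next order
-/

open MeasureTheory Filter Metric Asymptotics Matrix
open scoped Matrix.Norms.Frobenius Topology ContDiff
open Pool.Agent.H906R3.YM Pool.Agent.W793.YM Pool.Agent.TH618.YM Pool.Agent.N984.TW
open Pool.Agent.N988.MK

namespace Pool.Agent.N991.MK

set_option linter.unusedSectionVars false

noncomputable section

variable {N n : ℕ} {G : Subgroup (UN N)} {B : Frame G n} {hG : IsClosed (G : Set (UN N))}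

/-! ## the quartic Casimir form -/

lemma cm_sum_left (v : Fin n → ℝ) (X : Fin n → Mat N) (D : Mat N) :
    cm (∑ a, v a • X a) D = ∑ a, v a • cm (X a) D := by
  unfold cm
  rw [Finset.sum_mul, Finset.mul_sum, ← Finset.sum_sub_distrib]
  refine Finset.sum_congr rfl fun a _ => ?_
  rw [smul_mul_assoc, mul_smul_comm, smul_sub]

lemma cm_sum_right (v : Fin n → ℝ) (X : Fin n → Mat N) (D : Mat N) :
    cm D (∑ a, v a • X a) = ∑ a, v a • cm D (X a) := by
  unfold cm
  rw [Finset.sum_mul, Finset.mul_sum, ← Finset.sum_sub_distrib]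
  refine Finset.sum_congr rfl fun a _ => ?_
  rw [smul_mul_assoc, mul_smul_comm, smul_sub]

lemma LX_sing' (a : Fin n) : LX B (Pi.single a (1 : ℝ)) = B.X a := by
  unfold LX
  rw [Finset.sum_eq_single a]
  · simp
  · intro b _ hb
    rw [Pi.single_eq_of_ne hb, zero_smul]
  · intro h; exact absurd (Finset.mem_univ a) h

variable (B) in
/-- the coefficients of the quartic Casimir form -/
def TT4 (b c d e : Fin n) : ℝ :=
  ∑ a, ip (cm (B.X b) (cm (B.X c) (B.X a))) (cm (B.X d) (cm (B.X e) (B.X a)))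

lemma TT4_le (b c d e : Fin n) : |TT4 B b c d e| ≤ 16 * n := by
  have h1 : ∀ (b c a : Fin n), ‖cm (B.X b) (cm (B.X c) (B.X a))‖ ≤ 4 := by
    intro b c a
    have h2 := cm_norm (B.X c) (B.X a)
    have h3 := cm_norm (B.X b) (cm (B.X c) (B.X a))
    rw [norm_X1, norm_X1] at h2
    rw [norm_X1] at h3
    linarith
  unfold TT4
  refine (Finset.abs_sum_le_sum_abs _ _).trans ?_
  calc ∑ a, |ip (cm (B.X b) (cm (B.X c) (B.X a))) (cm (B.X d) (cm (B.X e) (B.X a)))| ≤
      ∑ _a : Fin n, (16 : ℝ) := by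
        refine Finset.sum_le_sum fun a _ => (abs_ip_le _ _).trans ?_
        have g1 := h1 b c a
        have g2 := h1 d e a
        have g3 := mul_le_mul g1 g2 (norm_nonneg _) (by norm_num)
        linarith
    _ = _ := by simp [mul_comm]

lemma b4_expand (v : Fin n → ℝ) : ∑ a, b4R B v (Pi.single a 1) =
    ∑ b, ∑ c, ∑ d, ∑ e, TT4 B b c d e * (v b * (v c * (v d * v e))) := by
  have h1 : ∀ a : Fin n, cm (LX B v) (cm (LX B v) (LX B (Pi.single a 1))) =
      ∑ b, ∑ c, (v b * v c) • cm (B.X b) (cm (B.X c) (B.X a)) := by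
    intro a
    rw [LX_sing']
    unfold LX
    rw [cm_sum_left v B.X (B.X a), cm_sum_right v (fun c => cm (B.X c) (B.X a))]
    have h2 : ∀ c : Fin n, cm (∑ b, v b • B.X b) (cm (B.X c) (B.X a)) =
        ∑ b, v b • cm (B.X b) (cm (B.X c) (B.X a)) := fun c => cm_sum_left v B.X _
    simp only [h2, Finset.smul_sum, smul_smul]
    rw [Finset.sum_comm]
    refine Finset.sum_congr rfl fun b _ => Finset.sum_congr rfl fun c _ => ?_
    rw [mul_comm (v c) (v b)]
  have h3 : ∀ a : Fin n, b4R B v (Pi.single a 1) = ∑ b, ∑ c, ∑ d, ∑ e,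
      ip (cm (B.X b) (cm (B.X c) (B.X a))) (cm (B.X d) (cm (B.X e) (B.X a))) *
        (v b * (v c * (v d * v e))) := by
    intro a
    unfold b4R
    rw [h1, norm_sq_ip]
    have e1 : ∀ U : Mat N, ip U (∑ d, ∑ e, (v d * v e) • cm (B.X d) (cm (B.X e) (B.X a))) =
        ∑ d, ∑ e, (v d * v e) * ip U (cm (B.X d) (cm (B.X e) (B.X a))) := by
      intro U
      rw [map_sum]
      refine Finset.sum_congr rfl fun d _ => ?_
      rw [map_sum]
      refine Finset.sum_congr rfl fun e _ => ?_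
      rw [map_smul, smul_eq_mul]
    rw [ip_comm]
    rw [map_sum]
    refine Finset.sum_congr rfl fun b _ => ?_
    rw [map_sum]
    refine Finset.sum_congr rfl fun c _ => ?_
    rw [map_smul, smul_eq_mul, ip_comm, e1, Finset.mul_sum]
    refine Finset.sum_congr rfl fun d _ => ?_
    rw [Finset.mul_sum]
    refine Finset.sum_congr rfl fun e _ => ?_
    ring
  simp only [h3]
  rw [Finset.sum_comm]
  refine Finset.sum_congr rfl fun b _ => ?_
  rw [Finset.sum_comm]
  refine Finset.sum_congr rfl fun c _ => ?_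
  rw [Finset.sum_comm]
  refine Finset.sum_congr rfl fun d _ => ?_
  rw [Finset.sum_comm]
  refine Finset.sum_congr rfl fun e _ => ?_
  unfold TT4
  rw [Finset.sum_mul]

/-- the contraction of the quartic Casimir form -/
def CasPair (B : Frame G n) (cA : ℝ) : Prop :=
  ∑ a, ∑ b, ∑ d, (ip (cm (B.X b) (cm (B.X b) (B.X a))) (cm (B.X d) (cm (B.X d) (B.X a))) +
      ip (cm (B.X b) (cm (B.X d) (B.X a))) (cm (B.X b) (cm (B.X d) (B.X a))) +
      ip (cm (B.X b) (cm (B.X d) (B.X a))) (cm (B.X d) (cm (B.X b) (B.X a)))) =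
      5 / 2 * n * cA ^ 2

lemma CasPair.contr {cA : ℝ} (h : CasPair B cA) {p : ℝ} {Q : Fin n → Fin n → ℝ}
    (hQ : ∀ a c, Q a c = if a = c then p else 0) :
    ∑ b, ∑ c, ∑ d, ∑ e, TT4 B b c d e * ((if b = c then Q d e else 0) +
      (if b = d then Q c e else 0) + (if b = e then Q c d else 0)) = 5 / 2 * n * cA ^ 2 * p := by
  have h1 : ∑ b, ∑ c, ∑ d, ∑ e, TT4 B b c d e * (if b = c then Q d e else 0) =
      ∑ b, ∑ d, TT4 B b b d d * p := by
    refine Finset.sum_congr rfl fun b _ => ?_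
    rw [Finset.sum_eq_single b]
    · refine Finset.sum_congr rfl fun d _ => ?_
      rw [Finset.sum_eq_single d]
      · rw [if_pos rfl, hQ, if_pos rfl]
      · intro e _ he
        rw [if_pos rfl, hQ, if_neg (Ne.symm he), mul_zero]
      · intro h; exact absurd (Finset.mem_univ _) h
    · intro c _ hc
      refine Finset.sum_eq_zero fun d _ => Finset.sum_eq_zero fun e _ => ?_
      rw [if_neg (Ne.symm hc), mul_zero]
    · intro h; exact absurd (Finset.mem_univ _) h
  have h2 : ∑ b, ∑ c, ∑ d, ∑ e, TT4 B b c d e * (if b = d then Q c e else 0) =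
      ∑ b, ∑ c, TT4 B b c b c * p := by
    refine Finset.sum_congr rfl fun b _ => Finset.sum_congr rfl fun c _ => ?_
    rw [Finset.sum_eq_single b]
    · rw [Finset.sum_eq_single c]
      · rw [if_pos rfl, hQ, if_pos rfl]
      · intro e _ he
        rw [if_pos rfl, hQ, if_neg (Ne.symm he), mul_zero]
      · intro h; exact absurd (Finset.mem_univ _) h
    · intro d _ hd
      refine Finset.sum_eq_zero fun e _ => ?_
      rw [if_neg (Ne.symm hd), mul_zero]
    · intro h; exact absurd (Finset.mem_univ _) h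
  have h3 : ∑ b, ∑ c, ∑ d, ∑ e, TT4 B b c d e * (if b = e then Q c d else 0) =
      ∑ b, ∑ c, TT4 B b c c b * p := by
    refine Finset.sum_congr rfl fun b _ => Finset.sum_congr rfl fun c _ => ?_
    rw [Finset.sum_eq_single c]
    · rw [Finset.sum_eq_single b]
      · rw [if_pos rfl, hQ, if_pos rfl]
      · intro e _ he
        rw [if_neg (Ne.symm he), mul_zero]
      · intro h; exact absurd (Finset.mem_univ _) h
    · intro d _ hd
      refine Finset.sum_eq_zero fun e _ => ?_
      rw [hQ, if_neg (Ne.symm hd)]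
      simp
    · intro h; exact absurd (Finset.mem_univ _) h
  have e1 : ∑ b, ∑ c, ∑ d, ∑ e, TT4 B b c d e * ((if b = c then Q d e else 0) +
      (if b = d then Q c e else 0) + (if b = e then Q c d else 0)) =
      (∑ b, ∑ c, ∑ d, ∑ e, TT4 B b c d e * (if b = c then Q d e else 0)) +
      (∑ b, ∑ c, ∑ d, ∑ e, TT4 B b c d e * (if b = d then Q c e else 0)) +
      ∑ b, ∑ c, ∑ d, ∑ e, TT4 B b c d e * (if b = e then Q c d else 0) := by
    simp only [← Finset.sum_add_distrib]
    refine Finset.sum_congr rfl fun b _ => Finset.sum_congr rfl fun c _ =>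
      Finset.sum_congr rfl fun d _ => Finset.sum_congr rfl fun e _ => ?_
    ring
  rw [e1, h1, h2, h3]
  have h4 : ∑ b, ∑ d, TT4 B b b d d * p + ∑ b, ∑ c, TT4 B b c b c * p +
      ∑ b, ∑ c, TT4 B b c c b * p = (∑ a, ∑ b, ∑ d,
      (ip (cm (B.X b) (cm (B.X b) (B.X a))) (cm (B.X d) (cm (B.X d) (B.X a))) +
      ip (cm (B.X b) (cm (B.X d) (B.X a))) (cm (B.X b) (cm (B.X d) (B.X a))) +
      ip (cm (B.X b) (cm (B.X d) (B.X a))) (cm (B.X d) (cm (B.X b) (B.X a))))) * p := by
    have h5 : ∀ (b : Fin n), ∑ a, ∑ d,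
        (ip (cm (B.X b) (cm (B.X b) (B.X a))) (cm (B.X d) (cm (B.X d) (B.X a))) +
        ip (cm (B.X b) (cm (B.X d) (B.X a))) (cm (B.X b) (cm (B.X d) (B.X a))) +
        ip (cm (B.X b) (cm (B.X d) (B.X a))) (cm (B.X d) (cm (B.X b) (B.X a)))) =
        ∑ d, (TT4 B b b d d + TT4 B b d b d + TT4 B b d d b) := by
      intro b
      rw [Finset.sum_comm]
      refine Finset.sum_congr rfl fun d _ => ?_
      unfold TT4
      rw [← Finset.sum_add_distrib, ← Finset.sum_add_distrib]
    have h6 : ∑ a, ∑ b, ∑ d,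
        (ip (cm (B.X b) (cm (B.X b) (B.X a))) (cm (B.X d) (cm (B.X d) (B.X a))) +
        ip (cm (B.X b) (cm (B.X d) (B.X a))) (cm (B.X b) (cm (B.X d) (B.X a))) +
        ip (cm (B.X b) (cm (B.X d) (B.X a))) (cm (B.X d) (cm (B.X b) (B.X a)))) =
        ∑ b, ∑ d, (TT4 B b b d d + TT4 B b d b d + TT4 B b d d b) := by
      rw [Finset.sum_comm]
      exact Finset.sum_congr rfl fun b _ => h5 b
    rw [h6]
    simp only [Finset.sum_mul, add_mul, Finset.sum_add_distrib]
  unfold CasPair at h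
  rw [h4, h]

end

end Pool.Agent.N991.MK
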