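import Mathlib
import Pool.Agent.N988.MK.M4
import Pool.Agent.N991.MK.TwoE
import Pool.Agent.N991.MK.TwoG

/-!
# The coupling after one convolution square, to the next order: conclusion
-/

open MeasureTheory Filter Metric Asymptotics Matrix
open scoped Matrix.Norms.Frobenius Topology ContDiff
open Pool.Agent.H906R3.YM Pool.Agent.W793.YM Pool.Agent.TH618.YM Pool.Agent.N984.TW
open Pool.Agent.N988.MK

namespace Pool.Agent.N991.MK

set_option linter.unusedSectionVars false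

noncomputable section

variable {N n : ℕ} {G : Subgroup (UN N)} {B : Frame G n} {hG : IsClosed (G : Set (UN N))}
variable [CompactSpace G] [MeasurableSpace G] [BorelSpace G] {μ : Measure G}
  [IsProbabilityMeasure μ] [μ.IsMulLeftInvariant] [μ.IsMulRightInvariant] [μ.IsInvInvariant]
variable {r₀ C : ℝ} {b : (Fin n → ℂ) → (Fin n → ℂ) → (Fin n → ℂ)}
variable {r k M Cm Cq Cu Cs Cp Cy C6 C₀ D cA : ℝ} {F : (Mat N)ˣ → ℂ}
  {m m4 : (Fin n → ℂ) → ℂ} {f : G → ℝ}

/-- **the quartic Casimir moment** -/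
theorem t4_mom (Z : Hz B hG μ r₀ C b r k M Cm Cq Cu Cs Cp cA f F m) (hcas : CasPair B cA) {p₁ : ℝ}
    (hp₁ : ∀ a c, PQ B μ r f a c = if a = c then p₁ else 0) :
    |2 * k * (∑ a, ∫ z in {z : G | nN z ≤ r / 4}, (f z) ^ 2 *
      b4R B (pz B z) (Pi.single a 1) ∂μ) - 5 / 2 * n * cA ^ 2 * p₁| ≤
      16 * n ^ 5 * (E4 N Cm Cu Cp r k M * ∫ z, (f z) ^ 2 ∂μ) := by
  have H := Z.H
  have hk := H.hk
  have hfc : Continuous f := H.hf.cont
  obtain ⟨I, hI⟩ : ∃ I : Fin n → Fin n → Fin n → Fin n → ℝ, I = fun b c d e =>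
    ∫ z in {z : G | nN z ≤ r / 4}, (f z) ^ 2 *
      (pz B z b * (pz B z c * (pz B z d * pz B z e))) ∂μ := ⟨_, rfl⟩
  obtain ⟨E, hE⟩ : ∃ E, E = E4 N Cm Cu Cp r k M * ∫ z, (f z) ^ 2 ∂μ := ⟨_, rfl⟩
  have h1 : ∑ a, ∫ z in {z : G | nN z ≤ r / 4}, (f z) ^ 2 * b4R B (pz B z) (Pi.single a 1) ∂μ =
      ∑ b, ∑ c, ∑ d, ∑ e, TT4 B b c d e * I b c d e := by
    have hc1 : ∀ a : Fin n, IntegrableOn (fun z : G => (f z) ^ 2 *
        b4R B (pz B z) (Pi.single a 1)) {z : G | nN z ≤ r / 4} μ := fun a =>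
      (intgR ((hfc.pow 2).mul (b4R_cont _))).integrableOn
    rw [← integral_finsetSum _ fun a _ => hc1 a]
    have h2 : ∀ z : G, ∑ a, (f z) ^ 2 * b4R B (pz B z) (Pi.single a 1) =
        ∑ b, ∑ c, ∑ d, ∑ e, TT4 B b c d e * ((f z) ^ 2 *
          (pz B z b * (pz B z c * (pz B z d * pz B z e)))) := by
      intro z
      rw [← Finset.mul_sum, b4_expand]
      simp only [Finset.mul_sum]
      refine Finset.sum_congr rfl fun b _ => Finset.sum_congr rfl fun c _ =>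
        Finset.sum_congr rfl fun d _ => Finset.sum_congr rfl fun e _ => ?_
      ring
    rw [integral_congr_ae (Eventually.of_forall h2)]
    have hc2 : ∀ b c d e : Fin n, IntegrableOn (fun z : G => TT4 B b c d e * ((f z) ^ 2 *
          (pz B z b * (pz B z c * (pz B z d * pz B z e))))) {z : G | nN z ≤ r / 4} μ :=
      fun b c d e => (intgR (continuous_const.mul ((hfc.pow 2).mul ((pz_cont b).mul
        ((pz_cont c).mul ((pz_cont d).mul (pz_cont e))))))).integrableOn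
    rw [integral_finsetSum _ fun b _ => integrable_finsetSum _ fun c _ =>
      integrable_finsetSum _ fun d _ => integrable_finsetSum _ fun e _ => hc2 b c d e]
    refine Finset.sum_congr rfl fun b _ => ?_
    rw [integral_finsetSum _ fun c _ =>
      integrable_finsetSum _ fun d _ => integrable_finsetSum _ fun e _ => hc2 b c d e]
    refine Finset.sum_congr rfl fun c _ => ?_
    rw [integral_finsetSum _ fun d _ => integrable_finsetSum _ fun e _ => hc2 b c d e]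
    refine Finset.sum_congr rfl fun d _ => ?_
    rw [integral_finsetSum _ fun e _ => hc2 b c d e]
    refine Finset.sum_congr rfl fun e _ => ?_
    rw [integral_const_mul, hI]
  have h2 := CasPair.contr hcas hp₁
  rw [h1, ← h2, Finset.mul_sum, ← Finset.sum_sub_distrib]
  have h3 : ∀ b c d e : Fin n, |2 * k * (TT4 B b c d e * I b c d e) - TT4 B b c d e *
      ((if b = c then PQ B μ r f d e else 0) + (if b = d then PQ B μ r f c e else 0) +
        (if b = e then PQ B μ r f c d else 0))| ≤ 16 * n * E := by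
    intro b c d e
    have h4 := mom4_tensor Z b c d e
    rw [← hE] at h4
    have e1 : 2 * k * (TT4 B b c d e * I b c d e) - TT4 B b c d e *
      ((if b = c then PQ B μ r f d e else 0) + (if b = d then PQ B μ r f c e else 0) +
        (if b = e then PQ B μ r f c d else 0)) = TT4 B b c d e * (2 * k * I b c d e -
      ((if b = c then PQ B μ r f d e else 0) + (if b = d then PQ B μ r f c e else 0) +
        (if b = e then PQ B μ r f c d else 0))) := by ring
    rw [e1, abs_mul]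
    have h5 := TT4_le (B := B) b c d e
    rw [hI]
    exact mul_le_mul h5 h4 (abs_nonneg _) (by positivity)
  rw [← hE]
  calc _ ≤ ∑ _b : Fin n, ∑ _c : Fin n, ∑ _d : Fin n, ∑ _e : Fin n, 16 * n * E := by
        refine (Finset.abs_sum_le_sum_abs _ _).trans (Finset.sum_le_sum fun b _ => ?_)
        rw [Finset.mul_sum, ← Finset.sum_sub_distrib]
        refine (Finset.abs_sum_le_sum_abs _ _).trans (Finset.sum_le_sum fun c _ => ?_)
        rw [Finset.mul_sum, ← Finset.sum_sub_distrib]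
        refine (Finset.abs_sum_le_sum_abs _ _).trans (Finset.sum_le_sum fun d _ => ?_)
        rw [Finset.mul_sum, ← Finset.sum_sub_distrib]
        exact (Finset.abs_sum_le_sum_abs _ _).trans (Finset.sum_le_sum fun e _ => h3 b c d e)
    _ = _ := by
        simp only [Finset.sum_const, Finset.card_univ, Fintype.card_fin, nsmul_eq_mul]
        ring

/-- the trace of the quartic part -/
def qb (n : ℕ) (m : (Fin n → ℂ) → ℂ) : ℝ :=
  1 / (12 * n) * ∑ a, ∑ c, (N988.MK.T4 m (Pi.single a 1) (Pi.single c 1)).re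

lemma rl_single (a : Fin n) : rl (Pi.single a (1 : ℝ)) = Pi.single a (1 : ℂ) := by
  funext c
  unfold rl
  by_cases h : c = a
  · rw [h, Pi.single_eq_same, Pi.single_eq_same, Complex.ofReal_one]
  · rw [Pi.single_eq_of_ne h, Pi.single_eq_of_ne h, Complex.ofReal_zero]

/-- the real arithmetic at the end -/
lemma fin_arith2 {k c δ q P1 P2 J e1 e2 e3 e4 : ℝ} (hk : 1 ≤ k)
    (h1 : |k ^ 2 * P1 - (k / 2 + 2 * δ)| ≤ e1) (h2 : |k ^ 2 * P2 - (k / 2 + 2 * δ)| ≤ e2)
    (h3 : |2 * k * J - 5 / 2 * c ^ 2 * P1| ≤ e3)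
    (h4 : |δ + c / 48 * (k * P2) + k / 2880 * J - 3 * q * P1| ≤ e4) {d Q : ℝ}
    (hd : |δ| ≤ d) (hq : |q| ≤ Q) (hc : 0 ≤ c) :
    |2 * δ - (-(c / 48) + (c ^ 2 / 2304 + 3 * q) / k)| ≤
      2 * e4 + (c / 24 * (e2 / k)) + e3 / 2880 + (c ^ 2 / 1152) * ((2 * d + e1) / k ^ 2) +
      6 * Q * ((2 * d + e1) / k ^ 2) +
      c / 12 / k * (e4 + c / 48 * ((2 * d + e2) / k) + e3 / 5760 +
        c ^ 2 / 2304 * (1 / (2 * k) + (2 * d + e1) / k ^ 2) +
        3 * Q * (1 / (2 * k) + (2 * d + e1) / k ^ 2)) := by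
  have hk0 : 0 < k := by linarith
  have hQ : 0 ≤ Q := (abs_nonneg q).trans hq
  have hd0 : 0 ≤ d := (abs_nonneg δ).trans hd
  have e10 : 0 ≤ e1 := (abs_nonneg _).trans h1
  have e20 : 0 ≤ e2 := (abs_nonneg _).trans h2
  have e30 : 0 ≤ e3 := (abs_nonneg _).trans h3
  have e40 : 0 ≤ e4 := (abs_nonneg _).trans h4
  -- the remainders
  obtain ⟨ε1, hε1⟩ : ∃ ε, ε = k * P1 - (1 / 2 + 2 * δ / k) := ⟨_, rfl⟩
  obtain ⟨ε2, hε2⟩ : ∃ ε, ε = k * P2 - (1 / 2 + 2 * δ / k) := ⟨_, rfl⟩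
  obtain ⟨ε3, hε3⟩ : ∃ ε, ε = 2 * k * J - 5 / 2 * c ^ 2 * P1 := ⟨_, rfl⟩
  obtain ⟨ε4, hε4⟩ : ∃ ε, ε = δ + c / 48 * (k * P2) + k / 2880 * J - 3 * q * P1 := ⟨_, rfl⟩
  have b1 : |ε1| ≤ e1 / k := by
    have : ε1 = (k ^ 2 * P1 - (k / 2 + 2 * δ)) / k := by rw [hε1]; field_simp
    rw [this, abs_div, abs_of_pos hk0]
    gcongr
  have b2 : |ε2| ≤ e2 / k := by
    have : ε2 = (k ^ 2 * P2 - (k / 2 + 2 * δ)) / k := by rw [hε2]; field_simp
    rw [this, abs_div, abs_of_pos hk0]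
    gcongr
  have b3 : |ε3| ≤ e3 := by rw [hε3]; exact h3
  have b4 : |ε4| ≤ e4 := by rw [hε4]; exact h4
  -- `P1`
  obtain ⟨R1, hR1⟩ : ∃ R, R = P1 - 1 / (2 * k) := ⟨_, rfl⟩
  have c1 : R1 = (2 * δ / k + ε1) / k := by rw [hR1, hε1]; field_simp; ring
  have c2 : |R1| ≤ (2 * d + e1) / k ^ 2 := by
    rw [c1, abs_div, abs_of_pos hk0]
    have : |2 * δ / k + ε1| ≤ (2 * d + e1) / k := by
      refine (abs_add_le _ _).trans ?_
      rw [abs_div, abs_mul, abs_two, abs_of_pos hk0, add_div]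
      gcongr
    calc |2 * δ / k + ε1| / k ≤ (2 * d + e1) / k / k := by gcongr
      _ = _ := by field_simp
  have cP : |P1| ≤ 1 / (2 * k) + (2 * d + e1) / k ^ 2 := by
    have : P1 = 1 / (2 * k) + R1 := by rw [hR1]; ring
    rw [this]
    refine (abs_add_le _ _).trans (add_le_add (le_of_eq ?_) c2)
    exact abs_of_pos (by positivity)
  -- the first order
  obtain ⟨e5, he5⟩ : ∃ e, e = δ + c / 96 := ⟨_, rfl⟩
  have c3 : e5 = ε4 - c / 48 * (2 * δ / k + ε2) - ε3 / 5760 - c ^ 2 / 2304 * P1 +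
      3 * q * P1 := by
    have hJ : k * J = ε3 / 2 + 5 / 4 * c ^ 2 * P1 := by rw [hε3]; ring
    have hP : k * P2 = ε2 + (1 / 2 + 2 * δ / k) := by rw [hε2]; ring
    have h5 : ε4 = δ + c / 48 * (ε2 + (1 / 2 + 2 * δ / k)) + (ε3 / 2 + 5 / 4 * c ^ 2 * P1) / 2880 -
        3 * q * P1 := by
      rw [hε4, hP, ← hJ]; ring
    rw [h5, he5]
    ring
  have c4 : |e5| ≤ e4 + c / 48 * ((2 * d + e2) / k) + e3 / 5760 +
        c ^ 2 / 2304 * (1 / (2 * k) + (2 * d + e1) / k ^ 2) +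
        3 * Q * (1 / (2 * k) + (2 * d + e1) / k ^ 2) := by
    rw [c3]
    have t1 : |c / 48 * (2 * δ / k + ε2)| ≤ c / 48 * ((2 * d + e2) / k) := by
      rw [abs_mul, abs_of_nonneg (show 0 ≤ c / 48 by positivity)]
      refine mul_le_mul_of_nonneg_left ?_ (by positivity)
      refine (abs_add_le _ _).trans ?_
      rw [abs_div, abs_mul, abs_two, abs_of_pos hk0, add_div]
      gcongr
    have t2 : |ε3 / 5760| ≤ e3 / 5760 := by
      rw [abs_div, abs_of_pos (show (0 : ℝ) < 5760 by norm_num)]; gcongr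
    have t3 : |c ^ 2 / 2304 * P1| ≤ c ^ 2 / 2304 * (1 / (2 * k) + (2 * d + e1) / k ^ 2) := by
      rw [abs_mul, abs_of_nonneg (show 0 ≤ c ^ 2 / 2304 by positivity)]
      exact mul_le_mul_of_nonneg_left cP (by positivity)
    have t4 : |3 * q * P1| ≤ 3 * Q * (1 / (2 * k) + (2 * d + e1) / k ^ 2) := by
      rw [abs_mul, abs_mul, abs_of_pos (show (0 : ℝ) < 3 by norm_num)]
      exact mul_le_mul (by linarith) cP (abs_nonneg _) (by positivity)
    refine (abs_add_le _ _).trans (add_le_add ?_ t4)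
    refine (abs_sub _ _).trans (add_le_add ?_ t3)
    refine (abs_sub _ _).trans (add_le_add ?_ t2)
    exact (abs_sub _ _).trans (add_le_add b4 t1)
  have key : 2 * δ - (-(c / 48) + (c ^ 2 / 2304 + 3 * q) / k) =
      2 * ε4 - c / 24 * ε2 - ε3 / 2880 - c ^ 2 / 1152 * R1 + 6 * q * R1 - c / 12 / k * e5 := by
    have h5 : e5 = δ + c / 96 := he5
    have h6 : δ = e5 - c / 96 := by rw [h5]; ring
    have h7 : P1 = 1 / (2 * k) + R1 := by rw [hR1]; ring
    have h8 : 2 * δ / k = 2 * e5 / k - c / 48 / k := by rw [h6]; field_simp; ring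
    have h9 : 2 * δ = 2 * (ε4 - c / 48 * (2 * e5 / k - c / 48 / k + ε2) - ε3 / 5760 -
        c ^ 2 / 2304 * (1 / (2 * k) + R1) + 3 * q * (1 / (2 * k) + R1)) - c / 48 := by
      rw [← h8, ← h7, ← c3, he5]; ring
    rw [h9]
    field_simp
    ring
  rw [key]
  have t1 : |2 * ε4| ≤ 2 * e4 := by rw [abs_mul, abs_two]; linarith
  have t2 : |c / 24 * ε2| ≤ c / 24 * (e2 / k) := by
    rw [abs_mul, abs_of_nonneg (show 0 ≤ c / 24 by positivity)]; gcongr
  have t3 : |ε3 / 2880| ≤ e3 / 2880 := by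
    rw [abs_div, abs_of_pos (show (0 : ℝ) < 2880 by norm_num)]; gcongr
  have t4 : |c ^ 2 / 1152 * R1| ≤ c ^ 2 / 1152 * ((2 * d + e1) / k ^ 2) := by
    rw [abs_mul, abs_of_nonneg (show 0 ≤ c ^ 2 / 1152 by positivity)]; gcongr
  have t5 : |6 * q * R1| ≤ 6 * Q * ((2 * d + e1) / k ^ 2) := by
    rw [abs_mul, abs_mul, abs_of_pos (show (0 : ℝ) < 6 by norm_num)]
    exact mul_le_mul (by linarith) c2 (abs_nonneg _) (by positivity)
  have t6 : |c / 12 / k * e5| ≤ c / 12 / k * (e4 + c / 48 * ((2 * d + e2) / k) + e3 / 5760 +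
        c ^ 2 / 2304 * (1 / (2 * k) + (2 * d + e1) / k ^ 2) +
        3 * Q * (1 / (2 * k) + (2 * d + e1) / k ^ 2)) := by
    rw [abs_mul, abs_of_nonneg (show 0 ≤ c / 12 / k by positivity)]
    exact mul_le_mul_of_nonneg_left c4 (by positivity)
  refine (abs_sub _ _).trans (add_le_add ?_ t6)
  refine (abs_add_le _ _).trans (add_le_add ?_ t5)
  refine (abs_sub _ _).trans (add_le_add ?_ t4)
  refine (abs_sub _ _).trans (add_le_add ?_ t3)
  exact (abs_sub _ _).trans (add_le_add t1 t2)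

/-- the final constant -/
def KK (n' c d E A2 A3 A5 : ℝ) : ℝ :=
  2 * A5 + c / 24 * A2 + A3 / 2880 + c ^ 2 / 1152 * (2 * d + E) + 18 * n' * (2 * d + E) +
    c / 12 * (A5 + c / 48 * (2 * d + A2) + A3 / 5760 + c ^ 2 / 2304 * (1 / 2 + (2 * d + E)) +
      9 * n' * (1 / 2 + (2 * d + E)))

lemma fin_bound {k M n' c d e1 e2 e3 e4 Q E A2 A3 A5 : ℝ} (hk : 1 ≤ k) (hM : 0 ≤ M)
    (hn' : 0 ≤ n') (hc : 0 ≤ c) (hd : 0 ≤ d) (h10 : 0 ≤ e1) (hE : e1 ≤ E)
    (hA2 : 0 ≤ A2) (hA3 : 0 ≤ A3) (hA5 : 0 ≤ A5)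
    (h2 : e2 ≤ A2 * (1 + M) / k) (h3 : e3 ≤ A3 / k ^ 2) (h4 : e4 ≤ A5 * (1 + M) / k ^ 2)
    (hQ : Q = 3 * n' * M) :
    2 * e4 + (c / 24 * (e2 / k)) + e3 / 2880 + (c ^ 2 / 1152) * ((2 * d + e1) / k ^ 2) +
      6 * Q * ((2 * d + e1) / k ^ 2) +
      c / 12 / k * (e4 + c / 48 * ((2 * d + e2) / k) + e3 / 5760 +
        c ^ 2 / 2304 * (1 / (2 * k) + (2 * d + e1) / k ^ 2) +
        3 * Q * (1 / (2 * k) + (2 * d + e1) / k ^ 2)) ≤ KK n' c d E A2 A3 A5 * (1 + M) / k ^ 2 := by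
  have hk0 : 0 < k := by linarith
  obtain ⟨i, hi⟩ : ∃ i, i = 1 / k := ⟨_, rfl⟩
  have hi0 : 0 < i := by rw [hi]; positivity
  have hi1 : i ≤ 1 := by rw [hi, div_le_one hk0]; exact hk
  have d1 : ∀ x : ℝ, x / k = x * i := fun x => by rw [hi]; field_simp
  have d2 : ∀ x : ℝ, x / k ^ 2 = x * i ^ 2 := fun x => by rw [hi]; field_simp
  have d3 : 1 / (2 * k) = 1 / 2 * i := by rw [hi]; field_simp
  rw [d1] at h2
  rw [d2] at h3 h4
  simp only [d1, d2, d3]
  have hE0 : 0 ≤ E := h10.trans hE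
  have hM1 : 1 ≤ 1 + M := by linarith
  have i21 : i ^ 2 ≤ i := by
    have : i ^ 2 = i * i := sq i
    rw [this]; exact mul_le_of_le_one_left hi0.le hi1
  have T1 : 2 * e4 ≤ 2 * A5 * (1 + M) * i ^ 2 := by linarith
  have T2 : c / 24 * (e2 * i) ≤ c / 24 * A2 * (1 + M) * i ^ 2 := by
    have : e2 * i ≤ A2 * (1 + M) * i * i := mul_le_mul_of_nonneg_right h2 hi0.le
    calc c / 24 * (e2 * i) ≤ c / 24 * (A2 * (1 + M) * i * i) :=
          mul_le_mul_of_nonneg_left this (by positivity)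
      _ = _ := by ring
  have h3' : e3 ≤ A3 * (1 + M) * i ^ 2 := by
    refine h3.trans ?_
    have : A3 * 1 ≤ A3 * (1 + M) := mul_le_mul_of_nonneg_left hM1 hA3
    rw [mul_one] at this
    exact mul_le_mul_of_nonneg_right this (by positivity)
  have T3 : e3 / 2880 ≤ A3 / 2880 * (1 + M) * i ^ 2 := by linarith
  have g1 : (2 * d + e1) * i ^ 2 ≤ (2 * d + E) * i ^ 2 :=
    mul_le_mul_of_nonneg_right (by linarith) (by positivity)
  have g2 : (2 * d + E) * i ^ 2 ≤ (2 * d + E) * (1 + M) * i ^ 2 := by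
    have : (2 * d + E) * 1 ≤ (2 * d + E) * (1 + M) :=
      mul_le_mul_of_nonneg_left hM1 (by positivity)
    rw [mul_one] at this
    exact mul_le_mul_of_nonneg_right this (by positivity)
  have T4 : c ^ 2 / 1152 * ((2 * d + e1) * i ^ 2) ≤
      c ^ 2 / 1152 * (2 * d + E) * (1 + M) * i ^ 2 := by
    calc c ^ 2 / 1152 * ((2 * d + e1) * i ^ 2) ≤ c ^ 2 / 1152 * ((2 * d + E) * (1 + M) * i ^ 2) :=
          mul_le_mul_of_nonneg_left (g1.trans g2) (by positivity)
      _ = _ := by ring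
  have T5 : 6 * Q * ((2 * d + e1) * i ^ 2) ≤ 18 * n' * (2 * d + E) * (1 + M) * i ^ 2 := by
    rw [hQ]
    calc 6 * (3 * n' * M) * ((2 * d + e1) * i ^ 2) ≤ 6 * (3 * n' * (1 + M)) * ((2 * d + E) * i ^ 2) := by
          have : M ≤ 1 + M := by linarith
          gcongr
      _ = _ := by ring
  have P1 : 1 / 2 * i + (2 * d + e1) * i ^ 2 ≤ (1 / 2 + (2 * d + E)) * i := by
    have : (2 * d + E) * i ^ 2 ≤ (2 * d + E) * i := mul_le_mul_of_nonneg_left i21 (by positivity)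
    linarith
  have T6 : c / 12 * i * (e4 + c / 48 * ((2 * d + e2) * i) + e3 / 5760 +
        c ^ 2 / 2304 * (1 / 2 * i + (2 * d + e1) * i ^ 2) +
        3 * Q * (1 / 2 * i + (2 * d + e1) * i ^ 2)) ≤
      c / 12 * (A5 + c / 48 * (2 * d + A2) + A3 / 5760 + c ^ 2 / 2304 * (1 / 2 + (2 * d + E)) +
      9 * n' * (1 / 2 + (2 * d + E))) * (1 + M) * i ^ 2 := by
    have s1 : e4 ≤ A5 * (1 + M) * i := by
      refine h4.trans ?_
      exact mul_le_mul_of_nonneg_left i21 (by positivity)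
    have s2 : c / 48 * ((2 * d + e2) * i) ≤ c / 48 * (2 * d + A2) * (1 + M) * i := by
      have s3 : e2 ≤ A2 * (1 + M) := by
        refine h2.trans ?_
        exact mul_le_of_le_one_right (by positivity) hi1
      have s4 : 2 * d + e2 ≤ (2 * d + A2) * (1 + M) := by
        have : 2 * d * 1 ≤ 2 * d * (1 + M) := mul_le_mul_of_nonneg_left hM1 (by positivity)
        linarith
      calc c / 48 * ((2 * d + e2) * i) ≤ c / 48 * ((2 * d + A2) * (1 + M) * i) :=
            mul_le_mul_of_nonneg_left (mul_le_mul_of_nonneg_right s4 hi0.le) (by positivity)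
        _ = _ := by ring
    have s3 : e3 / 5760 ≤ A3 / 5760 * (1 + M) * i := by
      have : A3 * (1 + M) * i ^ 2 ≤ A3 * (1 + M) * i := mul_le_mul_of_nonneg_left i21 (by positivity)
      linarith
    have s4 : c ^ 2 / 2304 * (1 / 2 * i + (2 * d + e1) * i ^ 2) ≤
        c ^ 2 / 2304 * (1 / 2 + (2 * d + E)) * (1 + M) * i := by
      have s5 : (1 / 2 + (2 * d + E)) * i ≤ (1 / 2 + (2 * d + E)) * (1 + M) * i := by
        have : (1 / 2 + (2 * d + E)) * 1 ≤ (1 / 2 + (2 * d + E)) * (1 + M) :=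
          mul_le_mul_of_nonneg_left hM1 (by positivity)
        rw [mul_one] at this
        exact mul_le_mul_of_nonneg_right this hi0.le
      calc c ^ 2 / 2304 * (1 / 2 * i + (2 * d + e1) * i ^ 2) ≤
          c ^ 2 / 2304 * ((1 / 2 + (2 * d + E)) * (1 + M) * i) :=
            mul_le_mul_of_nonneg_left (P1.trans s5) (by positivity)
        _ = _ := by ring
    have s5 : 3 * Q * (1 / 2 * i + (2 * d + e1) * i ^ 2) ≤
        9 * n' * (1 / 2 + (2 * d + E)) * (1 + M) * i := by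
      rw [hQ]
      calc 3 * (3 * n' * M) * (1 / 2 * i + (2 * d + e1) * i ^ 2) ≤
          3 * (3 * n' * (1 + M)) * ((1 / 2 + (2 * d + E)) * i) := by
            have : M ≤ 1 + M := by linarith
            gcongr
        _ = _ := by ring
    have s6 : e4 + c / 48 * ((2 * d + e2) * i) + e3 / 5760 +
        c ^ 2 / 2304 * (1 / 2 * i + (2 * d + e1) * i ^ 2) +
        3 * Q * (1 / 2 * i + (2 * d + e1) * i ^ 2) ≤
        (A5 + c / 48 * (2 * d + A2) + A3 / 5760 + c ^ 2 / 2304 * (1 / 2 + (2 * d + E)) +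
      9 * n' * (1 / 2 + (2 * d + E))) * (1 + M) * i := by
      have := add_le_add (add_le_add (add_le_add (add_le_add s1 s2) s3) s4) s5
      refine this.trans (le_of_eq ?_)
      ring
    calc _ ≤ c / 12 * i * ((A5 + c / 48 * (2 * d + A2) + A3 / 5760 +
        c ^ 2 / 2304 * (1 / 2 + (2 * d + E)) + 9 * n' * (1 / 2 + (2 * d + E))) * (1 + M) * i) :=
          mul_le_mul_of_nonneg_left s6 (by positivity)
      _ = _ := by ring
  refine (add_le_add (add_le_add (add_le_add (add_le_add (add_le_add T1 T2) T3) T4) T5)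
    T6).trans (le_of_eq ?_)
  unfold KK
  ring

end

end Pool.Agent.N991.MK
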