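import Mathlib
import Pool.Agent.N988.MK.Dlt2
import Pool.Agent.N991.MK.TwoD

/-!
# The value of the quadratic correction to the next order
-/

open MeasureTheory Filter Metric Asymptotics Matrix
open scoped Matrix.Norms.Frobenius Topology ContDiff
open Pool.Agent.H906R3.YM Pool.Agent.W793.YM Pool.Agent.TH618.YM Pool.Agent.N984.TW
open Pool.Agent.N988.MK

namespace Pool.Agent.N991.MK

set_option linter.unusedSectionVars false

noncomputable section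

variable {N n : ℕ} {G : Subgroup (UN N)} {B : Frame G n} {hG : IsClosed (G : Set (UN N))}
variable [CompactSpace G] [MeasurableSpace G] [BorelSpace G] {μ : Measure G}
  [IsProbabilityMeasure μ] [μ.IsMulLeftInvariant] [μ.IsMulRightInvariant] [μ.IsInvInvariant]
variable {r₀ C : ℝ} {b : (Fin n → ℂ) → (Fin n → ℂ) → (Fin n → ℂ)}
variable {r k M Cm Cq Cu Cs Cp Cy C6 C₀ D cA : ℝ} {F : (Mat N)ˣ → ℂ}
  {m m4 : (Fin n → ℂ) → ℂ} {f : G → ℝ}

/-- the coefficient of the irrelevant terms of the near part -/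
def aK (Cq C6 r k M : ℝ) : ℝ := a0 C6 r k M * (2 * (r / 4) ^ 2) +
  (Aq Cq k M * (r / 4) ^ 2) ^ 2 * Real.exp (Aq Cq k M * (r / 4) ^ 2)

/-- the error of the quadratic correction -/
def E2q (n : ℕ) (Cm Cp Cy C6 r k M D : ℝ) : ℝ :=
  4 * (k * a6 Cp Cy C6) * (200 / k ^ 2 * (Cm / k)) +
    5 / 2 * a4 n Cp r M D * (10 / k * (Cm / k)) + 2 / k ^ 2 / r ^ 2

/-- the quadratic form in the second moments -/
lemma T4_int (hfc : Continuous f) {p₁ : ℝ}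
    (hp₁ : ∀ a c, PQ B μ r f a c = if a = c then p₁ else 0) {x : Fin n → ℝ}
    {t : Fin n → Fin n → ℂ}
    (ht : ∀ v : Fin n → ℝ, T4 m4 (rl x) (rl v) = ∑ a, ∑ c, t a c * ((v a * v c : ℝ) : ℂ)) :
    ∫ z in {z : G | nN z ≤ r / 4}, (f z : ℂ) ^ 2 * T4 m4 (rl x) (rl (pz B z)) ∂μ =
      (p₁ : ℂ) * ∑ a, t a a := by
  have h1 : ∀ z : G, (f z : ℂ) ^ 2 * T4 m4 (rl x) (rl (pz B z)) =
      ∑ a, ∑ c, t a c * (((f z) ^ 2 * (pz B z a * pz B z c) : ℝ) : ℂ) := by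
    intro z
    rw [ht, Finset.mul_sum]
    refine Finset.sum_congr rfl fun a _ => ?_
    rw [Finset.mul_sum]
    refine Finset.sum_congr rfl fun c _ => ?_
    push_cast
    ring
  have hc : ∀ a c : Fin n, Continuous fun z : G => (f z) ^ 2 * (pz B z a * pz B z c) :=
    fun a c => (hfc.pow 2).mul ((pz_cont a).mul (pz_cont c))
  have hint : ∀ a c : Fin n, IntegrableOn (fun z : G => t a c *
      (((f z) ^ 2 * (pz B z a * pz B z c) : ℝ) : ℂ)) {z : G | nN z ≤ r / 4} μ := fun a c =>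
    ((intg (Complex.continuous_ofReal.comp (hc a c))).const_mul _).integrableOn
  rw [integral_congr_ae (Eventually.of_forall h1), integral_finsetSum, Finset.mul_sum]
  · refine Finset.sum_congr rfl fun a _ => ?_
    rw [integral_finsetSum]
    · rw [Finset.sum_eq_single a]
      · rw [integral_const_mul, integral_complex_ofReal]
        have h2 := hp₁ a a
        rw [if_pos rfl] at h2
        unfold PQ at h2
        rw [h2]
        ring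
      · intro c _ hc'
        rw [integral_const_mul, integral_complex_ofReal]
        have h2 := hp₁ a c
        rw [if_neg (Ne.symm hc')] at h2
        unfold PQ at h2
        rw [h2]
        simp
      · intro h; exact absurd (Finset.mem_univ _) h
    · intro c _
      exact hint a c
  · intro a _
    exact integrable_finsetSum _ fun c _ => hint a c

lemma T4pz_cont (hd : Differentiable ℂ m4) (x : Fin n → ℝ) :
    Continuous fun z : G => T4 m4 (rl x) (rl (pz B z)) := by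
  have h1 : Continuous fun z : G => pz B z := continuous_pi fun a => pz_cont a
  have h2 := (T4_diff hd).continuous
  exact h2.comp (continuous_const.prodMk (rl_cont.comp h1))

lemma AA_cont (hd : Differentiable ℂ m4) (x : Fin n → ℝ) :
    Continuous fun z : G => AA B k m4 x z := by
  unfold AA
  exact (Complex.continuous_ofReal.comp ((continuous_const.mul (bRq_cont x)).add
    (continuous_const.mul (b4R_cont x)))).sub (T4pz_cont hd x)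

namespace Hy6

variable (S : Hy6 B hG μ r₀ C b r k M Cm Cq Cu Cs Cp Cy C6 C₀ cA f F m m4)
include S

/-- the near part of the second order expansion -/
lemma near_exp2 {x : Fin n → ℝ} (hx1 : nE x = 1) {t : Fin n → Fin n → ℂ}
    (ht : ∀ v : Fin n → ℝ, T4 m4 (rl x) (rl v) = ∑ a, ∑ c, t a c * ((v a * v c : ℝ) : ℂ))
    (hD : ∀ a c, ‖t a c‖ ≤ D) {z : G} (hz : nN z ≤ r / 4) {ζ : ℂ}
    (hζ : ‖ζ‖ < r / 3) (hζ1 : ‖ζ‖ ≤ 1) :
    ‖Jn B F (ζ • rl x) z * F 1 ^ 2 / F (uE B ((1 / 2 : ℂ) • (ζ • rl x))) ^ 2 - (f z : ℂ) ^ 2 -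
      1 / 4 * ζ ^ 2 * ((f z : ℂ) ^ 2 * AA B k m4 x z)‖ ≤
      ‖ζ‖ ^ 2 * (4 * (k * a6 Cp Cy C6) * ((f z) ^ 2 * nN z ^ 6) +
        5 / 2 * a4 n Cp r M D * ((f z) ^ 2 * nN z ^ 4)) +
      ‖ζ‖ ^ 4 * ((f z) ^ 2 * aK Cq C6 r k M) := by
  have H := S.Y.Z.H
  have hr0 := H.hr0
  have hr := H.hr
  have hk := H.hk
  have hCp := S.Y.Z.hCp
  have hCy := S.Y.hCy
  have hC6 := S.hC6
  have hM := H.hM
  have hAq := H.Aq_nonneg
  have hD0 : 0 ≤ D := (norm_nonneg _).trans (hD ⟨0, S.Y.Z.hn⟩ ⟨0, S.Y.Z.hn⟩)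
  have hζ0 := norm_nonneg ζ
  have hz0 : 0 ≤ nN z := norm_nonneg _
  have hxn : nC (ζ • rl x) = ‖ζ‖ := by rw [nC_smul, nC_rl, hx1, mul_one]
  have hxr : nC (ζ • rl x) < r := by rw [hxn]; linarith
  obtain ⟨y, hy, hy2, hy3, -, h4, h5⟩ := near_pt H.hs H.hf H.h1 H.h H.hr H.hr0 H.hl H.hM hk.le
    H.hq H.hCq hxr hz
  have hP := H.Pne hxr
  obtain ⟨P, hPd⟩ : ∃ P, P = F (uE B ((1 / 2 : ℂ) • (ζ • rl x))) := ⟨_, rfl⟩
  obtain ⟨Θ, hΘ⟩ : ∃ Θ, Θ = Th b k m (ζ • rl x) (rl y) := ⟨_, rfl⟩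
  have h6 := S.Th_exp2 hx1 ht hD hy3 hζ hζ1
  rw [hy, ← hΘ] at h6
  rw [← hPd] at h4 hP ⊢
  rw [← hΘ] at h4 h5
  rw [h4]
  obtain ⟨A, hA⟩ : ∃ A, A = AA B k m4 x z := ⟨_, rfl⟩
  rw [← hA] at h6 ⊢
  have e : P ^ 2 * (f z : ℂ) ^ 2 * Complex.exp (-Θ) / P ^ 2 - (f z : ℂ) ^ 2 -
      1 / 4 * ζ ^ 2 * ((f z : ℂ) ^ 2 * A) =
      (f z : ℂ) ^ 2 * ((Complex.exp (-Θ) - 1 + Θ) - (Θ + 1 / 4 * ζ ^ 2 * A)) := by
    field_simp
    ring
  rw [e, norm_mul, norm_pow, Complex.norm_real, Real.norm_eq_abs, sq_abs]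
  have hΘn : ‖Θ‖ ≤ Aq Cq k M * ‖ζ‖ ^ 2 * (r / 4) ^ 2 := by
    refine h5.trans ?_
    rw [hxn]
    have : (Cq / 8 * k + 27 * M) * (25 / 16) = Aq Cq k M := rfl
    rw [this]
    gcongr
  have g1 : ‖Complex.exp (-Θ) - 1 + Θ‖ ≤ ‖ζ‖ ^ 4 * ((Aq Cq k M * (r / 4) ^ 2) ^ 2 *
      Real.exp (Aq Cq k M * (r / 4) ^ 2)) := by
    refine (exp_sub_two_le Θ).trans ?_
    have h7 : ‖Θ‖ ≤ Aq Cq k M * (r / 4) ^ 2 := by
      refine hΘn.trans ?_
      have : Aq Cq k M * ‖ζ‖ ^ 2 ≤ Aq Cq k M * 1 := by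
        refine mul_le_mul_of_nonneg_left ?_ hAq
        exact pow_le_one₀ hζ0 hζ1
      rw [mul_one] at this
      exact mul_le_mul_of_nonneg_right this (sq_nonneg _)
    calc ‖Θ‖ ^ 2 * Real.exp ‖Θ‖ ≤ (Aq Cq k M * ‖ζ‖ ^ 2 * (r / 4) ^ 2) ^ 2 *
          Real.exp (Aq Cq k M * (r / 4) ^ 2) := by gcongr
      _ = _ := by ring
  have hy0 := nE_nonneg y
  have hy66 : nE y ^ 6 ≤ 4 * nN z ^ 6 := by
    have h8 := pow_le_pow_left₀ hy0 hy2 6
    have h9 : 0 ≤ nN z ^ 6 := by positivity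
    have h10 : (5 / 4 * nN z) ^ 6 = 15625 / 4096 * nN z ^ 6 := by ring
    linarith
  have hy44 : nE y ^ 4 ≤ 5 / 2 * nN z ^ 4 := by
    have h8 := pow_le_pow_left₀ hy0 hy2 4
    have h9 : 0 ≤ nN z ^ 4 := by positivity
    have h10 : (5 / 4 * nN z) ^ 4 = 625 / 256 * nN z ^ 4 := by ring
    linarith
  have hy2r : nE y ^ 2 ≤ 2 * (r / 4) ^ 2 := by
    have h8 := pow_le_pow_left₀ hy0 hy2 2
    have h9 : nN z ^ 2 ≤ (r / 4) ^ 2 := pow_le_pow_left₀ hz0 hz 2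
    have h10 : (5 / 4 * nN z) ^ 2 = 25 / 16 * nN z ^ 2 := by ring
    have h11 := sq_nonneg (nN z)
    linarith
  have ha6 : 0 ≤ k * a6 Cp Cy C6 := by unfold a6; positivity
  have ha4 : 0 ≤ a4 n Cp r M D := by unfold a4; positivity
  have ha0 : 0 ≤ a0 C6 r k M := by unfold a0; positivity
  have g2 : ‖Θ + 1 / 4 * ζ ^ 2 * A‖ ≤
      ‖ζ‖ ^ 2 * (4 * (k * a6 Cp Cy C6) * nN z ^ 6 + 5 / 2 * a4 n Cp r M D * nN z ^ 4) +
        ‖ζ‖ ^ 4 * (a0 C6 r k M * (2 * (r / 4) ^ 2)) := by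
    refine h6.trans ?_
    have i1 : k * a6 Cp Cy C6 * nE y ^ 6 ≤ 4 * (k * a6 Cp Cy C6) * nN z ^ 6 := by
      refine (mul_le_mul_of_nonneg_left hy66 ha6).trans (le_of_eq ?_)
      ring
    have i2 : a4 n Cp r M D * nE y ^ 4 ≤ 5 / 2 * a4 n Cp r M D * nN z ^ 4 := by
      refine (mul_le_mul_of_nonneg_left hy44 ha4).trans (le_of_eq ?_)
      ring
    have i5 : a0 C6 r k M * nE y ^ 2 ≤ a0 C6 r k M * (2 * (r / 4) ^ 2) :=
      mul_le_mul_of_nonneg_left hy2r ha0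
    have i6 : 0 ≤ ‖ζ‖ ^ 2 := sq_nonneg _
    have i7 : 0 ≤ ‖ζ‖ ^ 4 := by positivity
    exact add_le_add (mul_le_mul_of_nonneg_left (add_le_add i1 i2) i6)
      (mul_le_mul_of_nonneg_left i5 i7)
  have g3 := norm_sub_le (Complex.exp (-Θ) - 1 + Θ) (Θ + 1 / 4 * ζ ^ 2 * A)
  calc (f z) ^ 2 * ‖(Complex.exp (-Θ) - 1 + Θ) - (Θ + 1 / 4 * ζ ^ 2 * A)‖ ≤
      (f z) ^ 2 * (‖ζ‖ ^ 4 * ((Aq Cq k M * (r / 4) ^ 2) ^ 2 *
        Real.exp (Aq Cq k M * (r / 4) ^ 2)) +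
        (‖ζ‖ ^ 2 * (4 * (k * a6 Cp Cy C6) * nN z ^ 6 + 5 / 2 * a4 n Cp r M D * nN z ^ 4) +
        ‖ζ‖ ^ 4 * (a0 C6 r k M * (2 * (r / 4) ^ 2)))) :=
        mul_le_mul_of_nonneg_left (g3.trans (add_le_add g1 g2)) (sq_nonneg _)
    _ = _ := by unfold aK; ring

/-- the second order expansion of the ratio -/
theorem ratio_exp2 {x : Fin n → ℝ} (hx1 : nE x = 1) {t : Fin n → Fin n → ℂ}
    (ht : ∀ v : Fin n → ℝ, T4 m4 (rl x) (rl v) = ∑ a, ∑ c, t a c * ((v a * v c : ℝ) : ℂ))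
    (hD : ∀ a c, ‖t a c‖ ≤ D) {A : ℂ}
    (hA : A = ∫ z in {z : G | nN z ≤ r / 4}, (f z : ℂ) ^ 2 * AA B k m4 x z ∂μ) : ∃ K' : ℝ, ∀ ζ : ℂ,
    ‖ζ‖ < r / 3 → ‖ζ‖ ≤ 1 →
    ‖(EE B μ f F (ζ • rl x) - 1) * ((∫ z, (f z) ^ 2 ∂μ : ℝ) : ℂ) - 1 / 4 * ζ ^ 2 * A‖ ≤
      ‖ζ‖ ^ 2 * (E2q n Cm Cp Cy C6 r k M D * ∫ z, (f z) ^ 2 ∂μ) + ‖ζ‖ ^ 4 * K' := by
  have H := S.Y.Z.H
  have hr0 := H.hr0
  have hk := H.hk
  have hCp := S.Y.Z.hCp
  have hCy := S.Y.hCy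
  have hC6 := S.hC6
  have hM := H.hM
  have hCm := H.hCm
  have hD0 : 0 ≤ D := (norm_nonneg _).trans (hD ⟨0, S.Y.Z.hn⟩ ⟨0, S.Y.Z.hn⟩)
  have hfc : Continuous f := H.hf.cont
  obtain ⟨W, hWd⟩ : ∃ W : ℝ, W = ∫ z : G, (f z) ^ 2 ∂μ := ⟨_, rfl⟩
  have hW : 0 < W := by rw [hWd]; exact H.hW
  have ha6 : 0 ≤ k * a6 Cp Cy C6 := by unfold a6; positivity
  have ha4 : 0 ≤ a4 n Cp r M D := by unfold a4; positivity
  have ha0 : 0 ≤ a0 C6 r k M := by unfold a0; positivity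
  obtain ⟨K₀, hK₀⟩ : ∃ K₀, K₀ = aK Cq C6 r k M := ⟨_, rfl⟩
  have hK₀0 : 0 ≤ K₀ := by rw [hK₀]; unfold aK; positivity
  refine ⟨K₀ * W, fun ζ hζ hζ1 => ?_⟩
  rw [← hWd]
  have hxn : nC (ζ • rl x) = ‖ζ‖ := by rw [nC_smul, nC_rl, hx1, mul_one]
  have hxr : nC (ζ • rl x) < r := by rw [hxn]; linarith
  have hP := H.Pne hxr
  obtain ⟨P, hPd⟩ : ∃ P, P = F (uE B ((1 / 2 : ℂ) • (ζ • rl x))) := ⟨_, rfl⟩
  rw [← hPd] at hP
  have hf2 : Continuous fun z : G => ((f z : ℝ) : ℂ) ^ 2 :=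
    (Complex.continuous_ofReal.comp hfc).pow 2
  have hJ := Jn_cont (B := B) (G := G) H.hf.hol (ζ • rl x)
  have hbc : Continuous fun z : G => (f z : ℂ) ^ 2 * AA B k m4 x z :=
    hf2.mul (AA_cont S.Q.df x)
  have eW : (W : ℂ) = ∫ z : G, ((f z : ℝ) : ℂ) ^ 2 ∂μ := by
    rw [hWd, ← integral_complex_ofReal]
    refine integral_congr_ae (Eventually.of_forall fun z => ?_)
    beta_reduce
    push_cast
    rfl
  have hEE : (EE B μ f F (ζ • rl x) - 1) * (W : ℂ) =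
      convC μ F F (uE B (ζ • rl x)) * (F 1 ^ 2 / P ^ 2) - W := by
    have hWc : (W : ℂ) ≠ 0 := Complex.ofReal_ne_zero.2 hW.ne'
    unfold EE
    rw [← hWd, ← hPd]
    field_simp
  have e1 : (EE B μ f F (ζ • rl x) - 1) * (W : ℂ) - 1 / 4 * ζ ^ 2 * A =
      (∫ z in {z : G | nN z ≤ r / 4}, (Jn B F (ζ • rl x) z * F 1 ^ 2 / P ^ 2 - (f z : ℂ) ^ 2 -
        1 / 4 * ζ ^ 2 * ((f z : ℂ) ^ 2 * AA B k m4 x z)) ∂μ) +
      ((∫ z in {z : G | r / 4 < nN z}, Jn B F (ζ • rl x) z ∂μ) * (F 1 ^ 2 / P ^ 2) -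
        ((∫ z in {z : G | r / 4 < nN z}, (f z) ^ 2 ∂μ : ℝ) : ℂ)) := by
    have e2 : ((∫ z in {z : G | r / 4 < nN z}, (f z) ^ 2 ∂μ : ℝ) : ℂ) =
        ∫ z in {z : G | r / 4 < nN z}, ((f z : ℝ) : ℂ) ^ 2 ∂μ := by
      rw [← integral_complex_ofReal]
      refine integral_congr_ae (Eventually.of_forall fun z => ?_)
      beta_reduce
      push_cast
      rfl
    have i1 : IntegrableOn (fun z : G => Jn B F (ζ • rl x) z * F 1 ^ 2 / P ^ 2)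
      {z : G | nN z ≤ r / 4} μ := (intg ((hJ.mul continuous_const).div_const _)).integrableOn
    have i2 : IntegrableOn (fun z : G => (f z : ℂ) ^ 2) {z : G | nN z ≤ r / 4} μ :=
      (intg hf2).integrableOn
    have i3 : IntegrableOn (fun z : G => Jn B F (ζ • rl x) z * F 1 ^ 2 / P ^ 2 - (f z : ℂ) ^ 2)
      {z : G | nN z ≤ r / 4} μ := i1.sub i2
    have i4 : IntegrableOn (fun z : G => 1 / 4 * ζ ^ 2 * ((f z : ℂ) ^ 2 * AA B k m4 x z))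
      {z : G | nN z ≤ r / 4} μ := (intg (continuous_const.mul hbc)).integrableOn
    have e3 : ∫ z in {z : G | nN z ≤ r / 4}, (Jn B F (ζ • rl x) z * F 1 ^ 2 / P ^ 2 -
        (f z : ℂ) ^ 2 - 1 / 4 * ζ ^ 2 * ((f z : ℂ) ^ 2 * AA B k m4 x z)) ∂μ =
        (∫ z in {z : G | nN z ≤ r / 4}, Jn B F (ζ • rl x) z ∂μ) * (F 1 ^ 2 / P ^ 2) -
        (∫ z in {z : G | nN z ≤ r / 4}, (f z : ℂ) ^ 2 ∂μ) - 1 / 4 * ζ ^ 2 * A := by
      rw [integral_sub i3 i4, integral_sub i1 i2, integral_const_mul, ← hA, ← integral_mul_const]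
      congr 2
      refine integral_congr_ae (Eventually.of_forall fun z => ?_)
      beta_reduce
      ring
    rw [hEE, e3, e2, conv_eq (B := B) (hG := hG) (μ := μ) H.hf.hol (ζ • rl x), eW,
      split_int (r := r) hJ, split_int (r := r) hf2]
    ring
  have e4 : ‖∫ z in {z : G | nN z ≤ r / 4}, (Jn B F (ζ • rl x) z * F 1 ^ 2 / P ^ 2 -
      (f z : ℂ) ^ 2 - 1 / 4 * ζ ^ 2 * ((f z : ℂ) ^ 2 * AA B k m4 x z)) ∂μ‖ ≤
      ‖ζ‖ ^ 2 * (4 * (k * a6 Cp Cy C6) * (200 / k ^ 2 * (Cm / k * W)) +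
        5 / 2 * a4 n Cp r M D * (10 / k * (Cm / k * W))) + ‖ζ‖ ^ 4 * (W * K₀) := by
    refine (norm_integral_le_integral_norm _).trans ?_
    have j6 : Continuous fun z : G => 4 * (k * a6 Cp Cy C6) * ((f z) ^ 2 * nN z ^ 6) :=
      continuous_const.mul ((hfc.pow 2).mul (N988.MK.nN_cont.pow 6))
    have j4 : Continuous fun z : G => 5 / 2 * a4 n Cp r M D * ((f z) ^ 2 * nN z ^ 4) :=
      continuous_const.mul ((hfc.pow 2).mul (N988.MK.nN_cont.pow 4))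
    have j0 : Continuous fun z : G => (f z) ^ 2 * K₀ := (hfc.pow 2).mul continuous_const
    have j64 : Continuous fun z : G => 4 * (k * a6 Cp Cy C6) * ((f z) ^ 2 * nN z ^ 6) +
      5 / 2 * a4 n Cp r M D * ((f z) ^ 2 * nN z ^ 4) := j6.add j4
    have h1 : ∫ z in {z : G | nN z ≤ r / 4}, ‖Jn B F (ζ • rl x) z * F 1 ^ 2 / P ^ 2 -
        (f z : ℂ) ^ 2 - 1 / 4 * ζ ^ 2 * ((f z : ℂ) ^ 2 * AA B k m4 x z)‖ ∂μ ≤
        ∫ z in {z : G | nN z ≤ r / 4}, (‖ζ‖ ^ 2 * (4 * (k * a6 Cp Cy C6) *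
          ((f z) ^ 2 * nN z ^ 6) + 5 / 2 * a4 n Cp r M D * ((f z) ^ 2 * nN z ^ 4)) +
          ‖ζ‖ ^ 4 * ((f z) ^ 2 * K₀)) ∂μ := by
      refine setIntegral_mono_on ?_ ?_ meas_near fun z hz => ?_
      · exact (intg ((((hJ.mul continuous_const).div_const _).sub hf2).sub
          (continuous_const.mul hbc))).norm.integrableOn
      · exact (intgR ((continuous_const.mul j64).add (continuous_const.mul j0))).integrableOn
      · have h2 := S.near_exp2 hx1 ht hD hz hζ hζ1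
        rw [← hPd, ← hK₀] at h2
        exact h2
    refine h1.trans ?_
    have i6 : IntegrableOn (fun z : G => 4 * (k * a6 Cp Cy C6) * ((f z) ^ 2 * nN z ^ 6))
      {z : G | nN z ≤ r / 4} μ := (intgR j6).integrableOn
    have i4 : IntegrableOn (fun z : G => 5 / 2 * a4 n Cp r M D * ((f z) ^ 2 * nN z ^ 4))
      {z : G | nN z ≤ r / 4} μ := (intgR j4).integrableOn
    have i64 : IntegrableOn (fun z : G => ‖ζ‖ ^ 2 * (4 * (k * a6 Cp Cy C6) *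
      ((f z) ^ 2 * nN z ^ 6) + 5 / 2 * a4 n Cp r M D * ((f z) ^ 2 * nN z ^ 4)))
      {z : G | nN z ≤ r / 4} μ := (intgR (continuous_const.mul j64)).integrableOn
    have i0 : IntegrableOn (fun z : G => ‖ζ‖ ^ 4 * ((f z) ^ 2 * K₀))
      {z : G | nN z ≤ r / 4} μ := (intgR (continuous_const.mul j0)).integrableOn
    rw [integral_add i64 i0, integral_const_mul, integral_const_mul, integral_add i6 i4,
      integral_const_mul, integral_const_mul, integral_mul_const]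
    have h2 := mom6 H.hi H.hf hk
    have h3 := mom4 H.hi H.hf hk
    have h4 : ∫ z in {z : G | nN z ≤ r / 4}, (f z) ^ 2 ∂μ ≤ W := by
      rw [hWd]
      exact setIntegral_le_integral (intgR (hfc.pow 2))
        (Eventually.of_forall fun z => sq_nonneg _)
    rw [← hWd] at h2 h3
    gcongr
  have e5 := S.Y.Z.far_R hx1 (ζ := ζ) (by linarith)
  rw [← hPd, ← hWd] at e5
  rw [e1]
  refine (norm_add_le _ _).trans ((add_le_add e4 e5).trans (le_of_eq ?_))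
  unfold E2q
  field_simp
  ring

/-- **the value of the correction to the next order**, in one direction -/
theorem sharp2 {δ : ℝ} (hδ : ∀ x : Fin n → ℂ, nC x < r →
      ‖S.Y.Z.H.ll x - δ * qC x‖ ≤ 3 * eta Cq Cm r k M * (nC x / r) ^ 4)
    {x : Fin n → ℝ} (hx1 : nE x = 1) {t : Fin n → Fin n → ℂ}
    (ht : ∀ v : Fin n → ℝ, T4 m4 (rl x) (rl v) = ∑ a, ∑ c, t a c * ((v a * v c : ℝ) : ℂ))
    (hD : ∀ a c, ‖t a c‖ ≤ D) {p₁ p₂ : ℝ}
    (hp₁ : ∀ a c, PQ B μ r f a c = if a = c then p₁ else 0)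
    (hp₂ : ∀ a c, YQ B μ r f a c = if a = c then p₂ else 0) :
    ‖((δ * (∫ z, (f z) ^ 2 ∂μ) + k / 48 * (p₂ * cA) + k / 2880 *
      (∫ z in {z : G | nN z ≤ r / 4}, (f z) ^ 2 * b4R B (pz B z) x ∂μ) : ℝ) : ℂ) -
      1 / 4 * ((p₁ : ℂ) * ∑ a, t a a)‖ ≤ E2q n Cm Cp Cy C6 r k M D * ∫ z, (f z) ^ 2 ∂μ := by
  have H := S.Y.Z.H
  have hr0 := H.hr0
  have hk := H.hk
  have hfc : Continuous f := H.hf.cont
  obtain ⟨W, hWd⟩ : ∃ W : ℝ, W = ∫ z : G, (f z) ^ 2 ∂μ := ⟨_, rfl⟩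
  have hW : 0 < W := by rw [hWd]; exact H.hW
  obtain ⟨J, hJ⟩ : ∃ J : ℝ, J = ∫ z in {z : G | nN z ≤ r / 4}, (f z) ^ 2 * b4R B (pz B z) x ∂μ :=
    ⟨_, rfl⟩
  obtain ⟨A, hA⟩ : ∃ A : ℂ, A = ∫ z in {z : G | nN z ≤ r / 4},
    (f z : ℂ) ^ 2 * AA B k m4 x z ∂μ := ⟨_, rfl⟩
  obtain ⟨K', hK'⟩ := S.ratio_exp2 hx1 ht hD hA
  rw [← hWd] at hK'
  have hAv : A = ((k / 12 * (p₂ * cA) + k / 720 * J : ℝ) : ℂ) - (p₁ : ℂ) * ∑ a, t a a := by
    have h1 := bRq_int (B := B) (μ := μ) (r := r) hfc hp₂ S.Y.Z.hcA x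
    rw [hx1, one_pow, mul_one] at h1
    have h2 := T4_int (B := B) (μ := μ) (r := r) (m4 := m4) hfc hp₁ ht
    have c1 : Continuous fun z : G => (f z) ^ 2 * bR B x (yq B z) := (hfc.pow 2).mul (bRq_cont x)
    have c2 : Continuous fun z : G => (f z) ^ 2 * b4R B (pz B z) x :=
      (hfc.pow 2).mul (b4R_cont x)
    have c3 : Continuous fun z : G => (f z : ℂ) ^ 2 * T4 m4 (rl x) (rl (pz B z)) :=
      ((Complex.continuous_ofReal.comp hfc).pow 2).mul (T4pz_cont S.Q.df x)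
    have c4 : Continuous fun z : G => k / 12 * ((f z) ^ 2 * bR B x (yq B z)) +
      k / 720 * ((f z) ^ 2 * b4R B (pz B z) x) :=
      (continuous_const.mul c1).add (continuous_const.mul c2)
    have h3 : ∀ z : G, (f z : ℂ) ^ 2 * AA B k m4 x z =
        ((k / 12 * ((f z) ^ 2 * bR B x (yq B z)) +
          k / 720 * ((f z) ^ 2 * b4R B (pz B z) x) : ℝ) : ℂ) -
          (f z : ℂ) ^ 2 * T4 m4 (rl x) (rl (pz B z)) := by
      intro z
      unfold AA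
      push_cast
      ring
    have i1 : IntegrableOn (fun z : G => ((k / 12 * ((f z) ^ 2 * bR B x (yq B z)) +
        k / 720 * ((f z) ^ 2 * b4R B (pz B z) x) : ℝ) : ℂ)) {z : G | nN z ≤ r / 4} μ :=
      (intg (Complex.continuous_ofReal.comp c4)).integrableOn
    have i2 : IntegrableOn (fun z : G => (f z : ℂ) ^ 2 * T4 m4 (rl x) (rl (pz B z)))
        {z : G | nN z ≤ r / 4} μ := (intg c3).integrableOn
    have i3 : IntegrableOn (fun z : G => k / 12 * ((f z) ^ 2 * bR B x (yq B z)))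
        {z : G | nN z ≤ r / 4} μ := (intgR (continuous_const.mul c1)).integrableOn
    have i4 : IntegrableOn (fun z : G => k / 720 * ((f z) ^ 2 * b4R B (pz B z) x))
        {z : G | nN z ≤ r / 4} μ := (intgR (continuous_const.mul c2)).integrableOn
    rw [hA, integral_congr_ae (Eventually.of_forall h3), integral_sub i1 i2,
      integral_complex_ofReal, integral_add i3 i4, integral_const_mul, integral_const_mul, h1, h2,
      ← hJ]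
  have hxn : ∀ ζ : ℂ, nC (ζ • rl x) = ‖ζ‖ := fun ζ => by rw [nC_smul, nC_rl, hx1, mul_one]
  have hbr : ∀ᶠ ζ in 𝓝 (0 : ℂ), ‖ζ‖ < r / 3 := by
    filter_upwards [ball_mem_nhds (0 : ℂ) (show 0 < r / 3 by positivity)] with ζ hζ
    rwa [mem_ball_zero_iff] at hζ
  have hb1 : ∀ᶠ ζ in 𝓝 (0 : ℂ), ‖ζ‖ ≤ 1 := by
    filter_upwards [ball_mem_nhds (0 : ℂ) one_pos] with ζ hζ
    rw [mem_ball_zero_iff] at hζ
    exact hζ.le
  have hlim : Tendsto (fun ζ : ℂ => (1 - Complex.exp (-H.ll (ζ • rl x))) / ζ ^ 2) (𝓝[≠] 0)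
      (𝓝 (δ : ℂ)) := by
    refine exp_limit ?_
    refine IsBigO.of_bound (3 * eta Cq Cm r k M / r ^ 4) ?_
    filter_upwards [hbr] with ζ hζ
    have h6 := hδ (ζ • rl x) (by rw [hxn]; linarith)
    rw [hxn, qC_smul, qC_rl, hx1, one_pow, Complex.ofReal_one, mul_one] at h6
    refine h6.trans (le_of_eq ?_)
    rw [norm_pow]
    field_simp
  have hlim2 : Tendsto (fun ζ : ℂ => ‖((EE B μ f F (ζ • rl x) - 1) * (W : ℂ) -
      1 / 4 * ζ ^ 2 * A) / ζ ^ 2‖) (𝓝[≠] 0) (𝓝 ‖-(δ : ℂ) * W - 1 / 4 * A‖) := by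
    have h6 := (((hlim.neg).mul_const (W : ℂ)).sub_const (1 / 4 * A)).norm
    refine h6.congr' ?_
    filter_upwards [self_mem_nhdsWithin, mem_nhdsWithin_of_mem_nhds hbr] with ζ hζ hζr
    have hζr' : ‖ζ‖ < r / 3 := hζr
    have hζr'' : nC (ζ • rl x) < r := by rw [hxn]; linarith
    have hζ0 : ζ ≠ 0 := hζ
    have h7 : Complex.exp (-H.ll (ζ • rl x)) = EE B μ f F (ζ • rl x) := by
      unfold Hy.ll
      rw [neg_neg, Complex.exp_log (Complex.slitPlane_ne_zero (H.EE_slit hζr''))]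
    rw [h7]
    congr 1
    field_simp
    ring
  have hlim3 : Tendsto (fun ζ : ℂ => E2q n Cm Cp Cy C6 r k M D * W + ‖ζ‖ ^ 2 * K') (𝓝[≠] 0)
      (𝓝 (E2q n Cm Cp Cy C6 r k M D * W)) := by
    have h6 : Continuous fun ζ : ℂ => E2q n Cm Cp Cy C6 r k M D * W + ‖ζ‖ ^ 2 * K' := by fun_prop
    have h7 := h6.tendsto 0
    simp only [norm_zero, ne_eq, OfNat.ofNat_ne_zero, not_false_eq_true, zero_pow, zero_mul,
      add_zero] at h7
    exact h7.mono_left nhdsWithin_le_nhds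
  have h6 := le_of_tendsto_of_tendsto hlim2 hlim3 (by
    filter_upwards [self_mem_nhdsWithin, mem_nhdsWithin_of_mem_nhds hbr,
      mem_nhdsWithin_of_mem_nhds hb1] with ζ hζ hζr hζ1
    have hζ0 : 0 < ‖ζ‖ ^ 2 := by
      have : 0 < ‖ζ‖ := norm_pos_iff.2 hζ
      positivity
    rw [norm_div, norm_pow, div_le_iff₀ hζ0]
    refine (hK' ζ hζr hζ1).trans (le_of_eq ?_)
    ring)
  rw [← hWd, ← hJ]
  have e : ((δ * W + k / 48 * (p₂ * cA) + k / 2880 * J : ℝ) : ℂ) -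
      1 / 4 * ((p₁ : ℂ) * ∑ a, t a a) = -(-(δ : ℂ) * W - 1 / 4 * A) := by
    rw [hAv]
    push_cast
    ring
  rw [e, norm_neg]
  exact h6

end Hy6

end

end Pool.Agent.N991.MK
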