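import Mathlib
import Pool.Agent.N988.MK.Step
import Pool.Agent.N991.MK.TwoC

/-!
# The hypotheses of the second order estimates follow from those of the one-step theorem
-/

open MeasureTheory Filter Metric Asymptotics Matrix
open scoped Matrix.Norms.Frobenius Topology ContDiff
open Pool.Agent.H906R3.YM Pool.Agent.W793.YM Pool.Agent.TH618.YM Pool.Agent.N984.TW
open Pool.Agent.N988.MK

namespace Pool.Agent.N991.MK

set_option linter.unusedSectionVars false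

noncomputable section

variable {N n : ℕ} {G : Subgroup (UN N)} {B : Frame G n} {hG : IsClosed (G : Set (UN N))}
variable {r₀ C : ℝ} {b : (Fin n → ℂ) → (Fin n → ℂ) → (Fin n → ℂ)}
variable {Cm Cq Cu Cs Cp Cy cA : ℝ}

lemma Cst.mono (T : Cst B hG r₀ C b Cq Cu Cs Cp) {r : ℝ} (hr : 0 < r) (hrr : r ≤ r₀) :
    Cst B hG r C b Cq Cu Cs Cp where
  h := T.h.mono hr hrr
  hl := ⟨fun g hg => T.hl.lg g (hg.trans hrr), T.hl.le⟩
  hCq := T.hCq
  hq x y hx hy := T.hq x y (lt_of_lt_of_le hx hrr) (lt_of_lt_of_le hy hrr)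
  hCu := T.hCu
  hu x y hx hy := T.hu x y (by linarith) (by linarith)
  hCs := T.hCs
  hsh x y hx hy := T.hsh x y (by linarith) (by linarith)
  hCp := T.hCp
  hp y hy := T.hp y (lt_of_lt_of_le hy hrr)
  hps := by
    refine le_trans ?_ T.hps
    have := T.hCp
    gcongr

/-- the constants of the chart, with the coordinates of order five -/
structure Cst2 (B : Frame G n) (hG : IsClosed (G : Set (UN N))) (r₀ C : ℝ)
    (b : (Fin n → ℂ) → (Fin n → ℂ) → (Fin n → ℂ)) (Cq Cu Cs Cp Cy : ℝ) : Prop where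
  T : Cst B hG r₀ C b Cq Cu Cs Cp
  le1 : r₀ ≤ 1
  hCy : 0 ≤ Cy
  h5 : ∀ y : Fin n → ℝ, nE y < r₀ → nE (yq B (Eg B hG y) - y) ≤ Cy * nE y ^ 5
  h5s : Cy * r₀ ^ 4 ≤ 1

lemma Cst2.mono (T : Cst2 B hG r₀ C b Cq Cu Cs Cp Cy) {r : ℝ} (hr : 0 < r) (hrr : r ≤ r₀) :
    Cst2 B hG r C b Cq Cu Cs Cp Cy where
  T := Cst.mono T.T hr hrr
  le1 := hrr.trans T.le1
  hCy := T.hCy
  h5 y hy := T.h5 y (lt_of_lt_of_le hy hrr)
  h5s := by
    refine le_trans ?_ T.h5s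
    have := T.hCy
    gcongr

theorem exists_Cst2 (B : Frame G n) (hG : IsClosed (G : Set (UN N))) :
    ∃ (r₀ C : ℝ) (b : (Fin n → ℂ) → (Fin n → ℂ) → (Fin n → ℂ)) (Cq Cu Cs Cp Cy : ℝ),
      Cst2 B hG r₀ C b Cq Cu Cs Cp Cy := by
  obtain ⟨r₁, C, b, Cq, Cu, Cs, Cp, T⟩ := exists_Cst B hG
  obtain ⟨ρ, Cy, hρ, hCy, h5⟩ := exists_yq B hG
  have hr₁ := T.h.pos
  obtain ⟨r₀, hr₀⟩ : ∃ r₀, r₀ = min (min r₁ ρ) (min 1 (1 / (Cy + 1))) := ⟨_, rfl⟩
  have p0 : 0 < r₀ := by rw [hr₀]; positivity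
  have q1 : r₀ ≤ r₁ := by rw [hr₀]; exact (min_le_left _ _).trans (min_le_left _ _)
  have q2 : r₀ ≤ ρ := by rw [hr₀]; exact (min_le_left _ _).trans (min_le_right _ _)
  have q3 : r₀ ≤ 1 := by rw [hr₀]; exact (min_le_right _ _).trans (min_le_left _ _)
  have q4 : r₀ ≤ 1 / (Cy + 1) := by rw [hr₀]; exact (min_le_right _ _).trans (min_le_right _ _)
  refine ⟨r₀, C, b, Cq, Cu, Cs, Cp, Cy, Cst.mono T p0 q1, q3, hCy,
    fun y hy => h5 y (lt_of_lt_of_le hy q2), ?_⟩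
  have h1 : Cy * r₀ ≤ 1 := by
    have : Cy * r₀ ≤ Cy * (1 / (Cy + 1)) := mul_le_mul_of_nonneg_left q4 hCy
    refine this.trans ?_
    rw [mul_one_div, div_le_one (by positivity)]
    linarith
  have h2 : Cy * r₀ ^ 4 = (Cy * r₀) * r₀ ^ 3 := by ring
  rw [h2]
  exact mul_le_one₀ h1 (by positivity) (pow_le_one₀ p0.le q3)

variable [CompactSpace G] [MeasurableSpace G] [BorelSpace G]

/-- **the hypotheses of the second order estimates** -/
theorem Cst2.exists_Hy2 (T2 : Cst2 B hG r₀ C b Cq Cu Cs Cp Cy) (μ : Measure G)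
    [IsProbabilityMeasure μ] [μ.IsMulLeftInvariant] [μ.IsMulRightInvariant] [μ.IsInvInvariant]
    (hI : IsoG B) (hn : 0 < n)
    (hcA : ∀ x : Fin n → ℝ, ∑ a, ‖LX B x * B.X a - B.X a * LX B x‖ ^ 2 = cA * nE x ^ 2) :
    ∃ Cm r₁ ε₁ : ℝ, 0 < Cm ∧ 0 < r₁ ∧ r₁ ≤ r₀ ∧ 0 < ε₁ ∧ ε₁ ≤ 1 / 1000 ∧
      ∀ r : ℝ, 0 < r → r ≤ r₁ → GoodR B r ∧
      ∃ k₀ : ℝ, 3 ≤ k₀ ∧ 16 / r ^ 2 ≤ k₀ ∧ ∀ {k M : ℝ} {f : G → ℝ} {F : (Mat N)ˣ → ℂ}
        {m : (Fin n → ℂ) → ℂ}, k₀ ≤ k → 0 ≤ M → M * r ^ 2 ≤ ε₁ * k → CF f F → (∀ x, 0 < f x) →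
        St B r k M F m → Tube B r k F →
        Hy2 B hG μ r₀ C b r k M Cm Cq Cu Cs Cp Cy cA f F m := by
  have T := T2.T
  obtain ⟨Cm, hCm, hmom⟩ := moments (B := B) μ
  obtain ⟨rg, hrg, hgood⟩ := exists_goodR B hG
  have hr₀ := T.h.pos
  have hCq := T.hCq
  obtain ⟨S, hS⟩ : ∃ S : ℝ, S = min (1 / 10) (1 / (4 * (Cm + 1))) := ⟨_, rfl⟩
  have hS0 : 0 < S := by rw [hS]; positivity
  have hS1 : S ≤ 1 / 10 := by rw [hS]; exact min_le_left _ _
  have hS2 : S * Cm ≤ 1 / 4 := by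
    have h1 : S ≤ 1 / (4 * (Cm + 1)) := by rw [hS]; exact min_le_right _ _
    have h2 : S * Cm ≤ 1 / (4 * (Cm + 1)) * Cm := mul_le_mul_of_nonneg_right h1 hCm.le
    refine h2.trans ?_
    rw [one_div_mul_eq_div, div_le_div_iff₀ (by positivity) (by norm_num)]
    linarith
  refine ⟨Cm, min (min r₀ rg) (min 1 (S / (Cq + 1))), min (1 / 1000) (S / 100), hCm,
    by positivity, (min_le_left _ _).trans (min_le_left _ _), by positivity, min_le_left _ _,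
    fun r hr hrr => ?_⟩
  obtain ⟨ε, hεd⟩ : ∃ ε, ε = min (1 / 1000) (S / 100) := ⟨_, rfl⟩
  have hε1 : ε ≤ 1 / 1000 := by rw [hεd]; exact min_le_left _ _
  have hε2 : ε ≤ S / 100 := by rw [hεd]; exact min_le_right _ _
  have q1 : r ≤ r₀ := hrr.trans ((min_le_left _ _).trans (min_le_left _ _))
  have q2 : r ≤ rg := hrr.trans ((min_le_left _ _).trans (min_le_right _ _))
  have q3 : r ≤ 1 := hrr.trans ((min_le_right _ _).trans (min_le_left _ _))
  have q4 : r ≤ S / (Cq + 1) := hrr.trans ((min_le_right _ _).trans (min_le_right _ _))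
  have hgr : GoodR B r := hgood r hr q2
  refine ⟨hgr, ?_⟩
  rw [← hεd]
  have q5 : Cq * r ^ 2 ≤ S := by
    have h1 : Cq * r ≤ S := by
      have h2 : (Cq + 1) * r ≤ S := by
        rw [le_div_iff₀ (by positivity)] at q4
        linarith
      linarith
    have h3 : Cq * r ^ 2 = (Cq * r) * r := by ring
    rw [h3]
    have h4 : 0 ≤ Cq * r := by positivity
    exact (mul_le_of_le_one_right h4 q3).trans h1
  have hr2 : 0 < r ^ 2 := by positivity
  obtain ⟨k1, hk1, hfar⟩ := far_part μ hgr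
  obtain ⟨k2, hk2, hptw⟩ := far_ptw μ hgr
  refine ⟨max (max k1 k2) (max 3 (16 / r ^ 2)), (le_max_left _ _).trans (le_max_right _ _),
    (le_max_right _ _).trans (le_max_right _ _), fun {k M f F m} hk hM hMr hf hpos hs ht => ?_⟩
  have l1 : k1 ≤ k := ((le_max_left _ _).trans (le_max_left _ _)).trans hk
  have l2 : k2 ≤ k := ((le_max_right _ _).trans (le_max_left _ _)).trans hk
  have l4 : 3 ≤ k := ((le_max_left _ _).trans (le_max_right _ _)).trans hk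
  have l5 : 16 / r ^ 2 ≤ k := ((le_max_right _ _).trans (le_max_right _ _)).trans hk
  have hk0 : 0 < k := by linarith
  have hM1 : M * r ^ 2 ≤ k / 1000 := by
    have := mul_le_mul_of_nonneg_right hε1 hk0.le
    linarith
  have hns := hs.nearS
  have hF1 : F 1 ≠ 0 := by
    rw [CF.F1 hf]
    exact Complex.ofReal_ne_zero.2 (hpos 1).ne'
  have hfc : Continuous f := hf.cont
  have hW : 0 < ∫ z : G, (f z) ^ 2 ∂μ := by
    refine (integral_pos_iff_support_of_nonneg (fun z => sq_nonneg _)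
      (intgR (μ := μ) (hfc.pow 2))).2 ?_
    have : Function.support (fun z : G => (f z) ^ 2) = Set.univ := by
      ext z
      simp only [Function.mem_support, Set.mem_univ, iff_true]
      exact pow_ne_zero 2 (hpos z).ne'
    rw [this, measure_univ]
    exact one_pos
  have hinp : Inp B μ r k Cm f F := by
    refine ⟨hmom hgr l5 hM1 hf hns, fun x hx => hfar l1 hM1 hf hns ht x hx.le, fun x hx z hz => ?_⟩
    exact hptw l2 hM1 hf hns ht x hx z hz.le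
  have hAq : Aq Cq k M * r ^ 2 ≤ S * k := by
    unfold Aq
    have h1 : Cq * r ^ 2 * k ≤ S * k := mul_le_mul_of_nonneg_right q5 hk0.le
    have h2 : ε * k ≤ S / 100 * k := mul_le_mul_of_nonneg_right hε2 hk0.le
    have h3 : (Cq / 8 * k + 27 * M) * (25 / 16) * r ^ 2 =
        25 / 128 * (Cq * r ^ 2 * k) + 675 / 16 * (M * r ^ 2) := by ring
    rw [h3]
    have h4 : 0 ≤ S * k := by positivity
    linarith
  have hAr : Aq Cq k M * r ^ 2 ≤ k / 10 := by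
    refine hAq.trans ?_
    have := mul_le_mul_of_nonneg_right hS1 hk0.le
    linarith
  have het : eta Cq Cm r k M ≤ 1 / 2 := by
    unfold eta
    have h1 : Aq Cq k M * r ^ 2 * Cm / k ≤ 1 / 4 := by
      rw [div_le_iff₀ hk0]
      have h2 := mul_le_mul_of_nonneg_right hAq hCm.le
      have h3 := mul_le_mul_of_nonneg_right hS2 hk0.le
      calc Aq Cq k M * r ^ 2 * Cm ≤ S * k * Cm := h2
        _ = S * Cm * k := by ring
        _ ≤ _ := h3
    have h4 : 2 / k ^ 2 ≤ 1 / 4 := by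
      rw [div_le_div_iff₀ (by positivity) (by norm_num)]
      have h5 : (3 : ℝ) ^ 2 ≤ k ^ 2 := pow_le_pow_left₀ (by norm_num) l4 2
      linarith
    linarith
  have H : Hy B hG μ r₀ C b r k M Cm Cq f F m :=
    ⟨hs, hf, hF1, T.h, q1, hr, T.hl, hM, hk0, hinp, T.hq, T.hCq, hCm.le, hAr, het, hW⟩
  have Z : Hz B hG μ r₀ C b r k M Cm Cq Cu Cs Cp cA f F m :=
    ⟨H, hI, hn, T.hCu, T.hu, T.hCs, T.hsh, T.hCp, T.hp, T.hps, hcA⟩
  exact ⟨Z, T2.hCy, T2.h5, T2.h5s⟩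

end

end Pool.Agent.N991.MK
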