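import Mathlib
import Pool.Agent.N988.MK.M4c
import Pool.Agent.N988.MK.Pair1
import Pool.Agent.N991.MK.TwoF
import Pool.Agent.N991.MK.TwoH
import Pool.Agent.N991.MK.TwoK

/-!
# The coupling after one convolution square, to the next order: the theorem
-/

open MeasureTheory Filter Metric Asymptotics Matrix
open scoped Matrix.Norms.Frobenius Topology ContDiff
open Pool.Agent.H906R3.YM Pool.Agent.W793.YM Pool.Agent.TH618.YM Pool.Agent.N984.TW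
open Pool.Agent.N988.MK

namespace Pool.Agent.N991.MK

set_option linter.unusedSectionVars false

noncomputable section

/-- the bound of the linear coefficient -/
def kap2 (Cu Cp r : ℝ) : ℝ := Cu / 4 + Cp + 81 / (1000 * r ^ 2)

lemma K2_bound {Cu Cp k M r : ℝ} (hr : 0 < r) (hM : M * r ^ 2 ≤ k / 1000) :
    K2 Cu Cp k M ≤ kap2 Cu Cp r * k := by
  have hMk : M ≤ k * (1 / (1000 * r ^ 2)) := by
    rw [mul_one_div, le_div_iff₀ (by positivity)]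
    linarith
  unfold K2 kap2
  have : 81 * M ≤ 81 * (k * (1 / (1000 * r ^ 2))) := by linarith
  calc k / 4 * Cu + 81 * M + k * Cp ≤ k / 4 * Cu + 81 * (k * (1 / (1000 * r ^ 2))) + k * Cp := by
        linarith
    _ = _ := by ring

/-- the bound of the first error -/
def E1c (Cm Cu Cp r : ℝ) : ℝ :=
  100 * Cm * kap2 Cu Cp r + 800 * Cm * kap2 Cu Cp r ^ 2 + 256 / r ^ 2

lemma E1_bound {Cm Cu Cp k M r : ℝ} (hr : 0 < r) (hM : M * r ^ 2 ≤ k / 1000) (hk : 1 ≤ k)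
    (hCm : 0 ≤ Cm) (hK : 0 ≤ K2 Cu Cp k M) :
    E1 Cm Cu Cp r k M ≤ E1c Cm Cu Cp r := by
  have hk0 : 0 < k := by linarith
  have hK2 := K2_bound (Cu := Cu) (Cp := Cp) hr hM
  unfold E1 E1c
  obtain ⟨κ, hκd⟩ : ∃ κ, κ = kap2 Cu Cp r := ⟨_, rfl⟩
  rw [← hκd] at hK2 ⊢
  have t1 : 100 * Cm * K2 Cu Cp k M / k ≤ 100 * Cm * κ := by
    rw [div_le_iff₀ hk0]
    calc 100 * Cm * K2 Cu Cp k M ≤ 100 * Cm * (κ * k) := by gcongr
      _ = _ := by ring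
  have t2 : 800 * Cm * K2 Cu Cp k M ^ 2 / k ^ 3 ≤ 800 * Cm * κ ^ 2 := by
    rw [div_le_iff₀ (by positivity)]
    calc 800 * Cm * K2 Cu Cp k M ^ 2 ≤ 800 * Cm * (κ * k) ^ 2 := by gcongr
      _ = 800 * Cm * κ ^ 2 * k ^ 2 * 1 := by ring
      _ ≤ 800 * Cm * κ ^ 2 * k ^ 2 * k := by
          have : 0 ≤ 800 * Cm * κ ^ 2 * k ^ 2 := by positivity
          exact mul_le_mul_of_nonneg_left hk this
      _ = _ := by ring
  have t3 : 256 / (r ^ 2 * k ^ 4) ≤ 256 / r ^ 2 := by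
    refine div_le_div_of_nonneg_left (by norm_num) (by positivity) ?_
    have : 1 ≤ k ^ 4 := one_le_pow₀ hk
    exact le_mul_of_one_le_right (by positivity) this
  linarith

/-- the bound of the error of the second moment -/
def A2c (Cm Cy r : ℝ) : ℝ :=
  8100 * Cm + 10400 * Cy * Cm + 10497600 * Cm / (1000 * r ^ 2) + 256 / r ^ 2

lemma E1q_bound {Cm Cy k M r : ℝ} (hr : 0 < r) (hM0 : 0 ≤ M) (hM : M * r ^ 2 ≤ k / 1000)
    (hk : 1 ≤ k) (hCm : 0 ≤ Cm) (hCy : 0 ≤ Cy) :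
    E1q Cm Cy r k M ≤ A2c Cm Cy r * (1 + M) / k := by
  have hk0 : 0 < k := by linarith
  have hMk : M ≤ k * (1 / (1000 * r ^ 2)) := by
    rw [mul_one_div, le_div_iff₀ (by positivity)]
    linarith
  rw [le_div_iff₀ hk0]
  unfold E1q A2c
  have t1 : 810 * k * M * (10 / k * (Cm / k)) * k = 8100 * Cm * M := by field_simp; ring
  have t2 : (52 * k ^ 2 * Cy) * (200 / k ^ 2 * (Cm / k)) * k = 10400 * Cy * Cm := by
    field_simp; ring
  have t3 : 52488 * M ^ 2 * (200 / k ^ 2 * (Cm / k)) * k ≤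
      10497600 * Cm / (1000 * r ^ 2) * M := by
    have e1 : 52488 * M ^ 2 * (200 / k ^ 2 * (Cm / k)) * k = 10497600 * Cm * (M / k) * (M / k) := by
      field_simp; ring
    have e2 : M / k ≤ 1 / (1000 * r ^ 2) := by
      rw [div_le_iff₀ hk0]; linarith
    have e3 : M / k ≤ M := div_le_self hM0 hk
    rw [e1]
    calc 10497600 * Cm * (M / k) * (M / k) ≤ 10497600 * Cm * (1 / (1000 * r ^ 2)) * M := by
          gcongr
      _ = _ := by ring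
  have t4 : 256 / (r ^ 2 * k ^ 4) * k ≤ 256 / r ^ 2 := by
    have e1 : 256 / (r ^ 2 * k ^ 4) * k = 256 / (r ^ 2 * k ^ 3) := by field_simp
    rw [e1]
    refine div_le_div_of_nonneg_left (by norm_num) (by positivity) ?_
    have : 1 ≤ k ^ 3 := one_le_pow₀ hk
    exact le_mul_of_one_le_right (by positivity) this
  have e : (810 * k * M * (10 / k * (Cm / k)) +
      (52 * k ^ 2 * Cy + 52488 * M ^ 2) * (200 / k ^ 2 * (Cm / k)) + 256 / (r ^ 2 * k ^ 4)) * k =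
      810 * k * M * (10 / k * (Cm / k)) * k + (52 * k ^ 2 * Cy) * (200 / k ^ 2 * (Cm / k)) * k +
      52488 * M ^ 2 * (200 / k ^ 2 * (Cm / k)) * k + 256 / (r ^ 2 * k ^ 4) * k := by ring
  rw [e, t1, t2]
  obtain ⟨x1, hx1⟩ : ∃ x, x = 10497600 * Cm / (1000 * r ^ 2) := ⟨_, rfl⟩
  obtain ⟨x2, hx2⟩ : ∃ x, x = 256 / r ^ 2 := ⟨_, rfl⟩
  have p1 : 0 ≤ x1 := by rw [hx1]; positivity
  have p2 : 0 ≤ x2 := by rw [hx2]; positivity
  rw [← hx1] at t3 ⊢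
  rw [← hx2] at t4 ⊢
  have q1 := mul_nonneg p1 hM0
  have q2 := mul_nonneg p2 hM0
  have q3 : 0 ≤ Cy * Cm * M := by positivity
  have q4 : 0 ≤ Cm * M := by positivity
  nlinarith

/-- the bound of the error of the fourth moment -/
def A4c (N : ℕ) (Cm Cu Cp r : ℝ) : ℝ :=
  800 * kap2 Cu Cp r * Cm + sN N ^ 3 * (1 + 256 / r ^ 2) + 15 * Cm + 3 * sN N ^ 2

lemma E4_bound {N : ℕ} {Cm Cu Cp k M r : ℝ} (hr : 0 < r) (hM : M * r ^ 2 ≤ k / 1000)
    (hk : 1 ≤ k) (hCm : 0 ≤ Cm) : E4 N Cm Cu Cp r k M ≤ A4c N Cm Cu Cp r / k ^ 2 := by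
  have hk0 : 0 < k := by linarith
  have hK2 := K2_bound (Cu := Cu) (Cp := Cp) hr hM
  have hs := sN_nonneg N
  rw [le_div_iff₀ (by positivity)]
  unfold E4 A4c
  have t1 : 4 * K2 Cu Cp k M * (200 / k ^ 2 * (Cm / k)) * k ^ 2 ≤ 800 * kap2 Cu Cp r * Cm := by
    have e1 : 4 * K2 Cu Cp k M * (200 / k ^ 2 * (Cm / k)) * k ^ 2 =
        800 * (K2 Cu Cp k M / k) * Cm := by field_simp; ring
    have e2 : K2 Cu Cp k M / k ≤ kap2 Cu Cp r := by
      rw [div_le_iff₀ hk0]; exact hK2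
    rw [e1]
    gcongr
  have t2 : sN N ^ 3 * (1 / k ^ 2 + 256 / (r ^ 2 * k ^ 4)) * k ^ 2 ≤
      sN N ^ 3 * (1 + 256 / r ^ 2) := by
    have e1 : sN N ^ 3 * (1 / k ^ 2 + 256 / (r ^ 2 * k ^ 4)) * k ^ 2 =
        sN N ^ 3 * (1 + 256 / (r ^ 2 * k ^ 2)) := by field_simp
    rw [e1]
    have e2 : 256 / (r ^ 2 * k ^ 2) ≤ 256 / r ^ 2 := by
      refine div_le_div_of_nonneg_left (by norm_num) (by positivity) ?_
      have : 1 ≤ k ^ 2 := one_le_pow₀ hk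
      exact le_mul_of_one_le_right (by positivity) this
    gcongr
  have t3 : 3 * (1 / 2 * (10 / k * (Cm / k)) + sN N ^ 2 * (1 / k ^ 2)) * k ^ 2 =
      15 * Cm + 3 * sN N ^ 2 := by field_simp; ring
  rw [add_mul, add_mul, t3]
  linarith

/-- the bound of the error of the correction -/
def A5c (n : ℕ) (Cm Cp Cy C6 r : ℝ) : ℝ :=
  800 * a6 Cp Cy C6 * Cm + 25 * Cm * (1296 / r ^ 2 + 81 * (n ^ 2 * Cp)) + 2 / r ^ 2

lemma E2q_bound {n : ℕ} {Cm Cp Cy C6 k M r : ℝ} (hr : 0 < r) (hM0 : 0 ≤ M)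
    (hk : 1 ≤ k) (hCm : 0 ≤ Cm) (hCp : 0 ≤ Cp) (hCy : 0 ≤ Cy) (hC6 : 0 ≤ C6) :
    E2q n Cm Cp Cy C6 r k M (108 * M) ≤ A5c n Cm Cp Cy C6 r * (1 + M) / k ^ 2 := by
  have hk0 : 0 < k := by linarith
  have ha6 : 0 ≤ a6 Cp Cy C6 := by unfold a6; positivity
  rw [le_div_iff₀ (by positivity)]
  unfold E2q A5c a4
  have t1 : 4 * (k * a6 Cp Cy C6) * (200 / k ^ 2 * (Cm / k)) * k ^ 2 =
      800 * a6 Cp Cy C6 * Cm := by field_simp; ring
  have t2 : 5 / 2 * (1296 * M / r ^ 2 + 3 / 4 * (n ^ 2 * (108 * M) * Cp)) *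
      (10 / k * (Cm / k)) * k ^ 2 = 25 * Cm * (1296 / r ^ 2 + 81 * (n ^ 2 * Cp)) * M := by
    field_simp; ring
  have t3 : 2 / k ^ 2 / r ^ 2 * k ^ 2 = 2 / r ^ 2 := by field_simp
  rw [add_mul, add_mul, t1, t2, t3]
  have p1 : 0 ≤ 800 * a6 Cp Cy C6 * Cm := by positivity
  have p2 : 0 ≤ 25 * Cm * (1296 / r ^ 2 + 81 * (n ^ 2 * Cp)) := by positivity
  have p3 : 0 ≤ 2 / r ^ 2 := by positivity
  have q1 := mul_nonneg p1 hM0
  have q3 := mul_nonneg p3 hM0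
  linarith

variable {N n : ℕ} {G : Subgroup (UN N)} {B : Frame G n} {hG : IsClosed (G : Set (UN N))}
variable [CompactSpace G] [MeasurableSpace G] [BorelSpace G] {μ : Measure G}
  [IsProbabilityMeasure μ] [μ.IsMulLeftInvariant] [μ.IsMulRightInvariant] [μ.IsInvInvariant]
variable {r₀ C : ℝ} {b : (Fin n → ℂ) → (Fin n → ℂ) → (Fin n → ℂ)}
variable {r k M Cm Cq Cu Cs Cp Cy C6 C₀ D cA : ℝ} {F : (Mat N)ˣ → ℂ}
  {m : (Fin n → ℂ) → ℂ} {f : G → ℝ}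

lemma qb_le (hs : St B r k M F m) (hf : Hol F) (h1 : F 1 ≠ 0) (hr : 0 < r) (hM : 0 ≤ M)
    (hn : 0 < n) : |qb n m| ≤ 3 * n * M := by
  have hQ := hs.qrt hf h1 hr hM
  unfold qb
  have hn' : (0 : ℝ) < n := by exact_mod_cast hn
  have h2 : |∑ a, ∑ c, (N988.MK.T4 m (Pi.single a 1) (Pi.single c 1)).re| ≤ 36 * M * n ^ 2 := by
    calc _ ≤ ∑ _a : Fin n, ∑ _c : Fin n, 36 * M := by
          refine (Finset.abs_sum_le_sum_abs _ _).trans (Finset.sum_le_sum fun a _ => ?_)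
          refine (Finset.abs_sum_le_sum_abs _ _).trans (Finset.sum_le_sum fun c _ => ?_)
          refine (Complex.abs_re_le_norm _).trans ?_
          have h3 := hQ.T4_le hM (Pi.single a 1) (Pi.single c 1)
          rw [T4_eq', nC_single, nC_single] at h3
          linarith
      _ = _ := by
          simp only [Finset.sum_const, Finset.card_univ, Fintype.card_fin, nsmul_eq_mul]
          ring
  rw [abs_mul, abs_of_pos (by positivity)]
  calc 1 / (12 * (n : ℝ)) * |∑ a, ∑ c, (N988.MK.T4 m (Pi.single a 1) (Pi.single c 1)).re| ≤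
      1 / (12 * n) * (36 * M * n ^ 2) := mul_le_mul_of_nonneg_left h2 (by positivity)
    _ = _ := by field_simp; ring

/-- **the coupling after one convolution square, to the next order**, under the hypotheses `Hy6` -/
theorem K_one (S : Hy6 B hG μ r₀ C b r k M Cm Cq Cu Cs Cp Cy C6 C₀ cA f F m (N988.MK.m4 m))
    (hcas : CasPair B cA) (hk : 1 ≤ k) (hMr : M * r ^ 2 ≤ k / 1000) (hcA : 0 ≤ cA) {δ κ : ℝ}
    (hκ : ∀ x : Fin n → ℂ, ∫ z : G, (Lz B F z x) ^ 2 ∂μ = (κ : ℂ) * qC x)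
    (hκ2 : κ = (k / 2 + 2 * δ) * ∫ z : G, (f z) ^ 2 ∂μ)
    (hδ1 : |δ| ≤ 3 / 2 * eta Cq Cm r k M / r ^ 2)
    (hδ : ∀ x : Fin n → ℂ, nC x < r →
      ‖S.Y.Z.H.ll x - δ * qC x‖ ≤ 3 * eta Cq Cm r k M * (nC x / r) ^ 4) :
    |2 * δ - (-(cA / 48) + (cA ^ 2 / 2304 + 3 * qb n m) / k)| ≤
      KK n cA (3 / (4 * r ^ 2)) (E1c Cm Cu Cp r) (A2c Cm Cy r) (16 * n ^ 4 * A4c N Cm Cu Cp r)
        (A5c n Cm Cp Cy C6 r) * (1 + M) / k ^ 2 := by
  have Z := S.Y.Z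
  have H := Z.H
  have hr0 := H.hr0
  have hk0 : 0 < k := by linarith
  have hn := Z.hn
  have hn' : (0 : ℝ) < n := by exact_mod_cast hn
  have hM := H.hM
  obtain ⟨W, hWd⟩ : ∃ W : ℝ, W = ∫ z : G, (f z) ^ 2 ∂μ := ⟨_, rfl⟩
  have hW : 0 < W := by rw [hWd]; exact H.hW
  obtain ⟨p₁, hp₁⟩ := PQ_iso (B := B) (hG := hG) (μ := μ) (r := r) Z.hI H.hf
  obtain ⟨p₂, hp₂⟩ := YQ_iso (B := B) (hG := hG) (μ := μ) (r := r) Z.hI H.hf
  have k1 := Z.kappa_eq hκ hp₁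
  have k2 := S.Y.kappa2 hκ hp₂
  have k3 := t4_mom Z hcas hp₁
  rw [hκ2, ← hWd] at k1 k2
  rw [← hWd] at k3
  obtain ⟨J, hJ⟩ : ∃ J : Fin n → ℝ, J = fun a => ∫ z in {z : G | nN z ≤ r / 4}, (f z) ^ 2 *
      b4R B (pz B z) (Pi.single a 1) ∂μ := ⟨_, rfl⟩
  have hJa : ∀ a, ∫ z in {z : G | nN z ≤ r / 4}, (f z) ^ 2 *
      b4R B (pz B z) (Pi.single a 1) ∂μ = J a := fun a => by rw [hJ]
  simp only [hJa] at k3
  obtain ⟨t, ht⟩ : ∃ t : Fin n → ℂ, t = fun a => ∑ c, t4s m (rl (Pi.single a 1)) c c := ⟨_, rfl⟩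
  -- one direction
  have k4 : ∀ a : Fin n, |δ * W + k / 48 * (p₂ * cA) + k / 2880 * J a - 1 / 4 * (p₁ * (t a).re)| ≤
      E2q n Cm Cp Cy C6 r k M (108 * M) * W := by
    intro a
    have h1 : ∀ v : Fin n → ℝ, T4 (N988.MK.m4 m) (rl (Pi.single a 1)) (rl v) =
        ∑ c, ∑ d, t4s m (rl (Pi.single a 1)) c d * ((v c * v d : ℝ) : ℂ) := by
      intro v
      rw [T4_eq', T4_sym]
      refine Finset.sum_congr rfl fun c _ => Finset.sum_congr rfl fun d _ => ?_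
      unfold rl
      push_cast
      ring
    have h2 : ∀ c d, ‖t4s m (rl (Pi.single a 1)) c d‖ ≤ 108 * M := by
      intro c d
      have h3 := St.t4s_le H.hs H.hf.hol H.h1 hr0 hM (rl (Pi.single a 1)) c d
      rw [nC_rl, nE_single] at h3
      linarith
    have h3 := S.sharp2 hδ (nE_single a) h1 h2 hp₁ hp₂
    rw [← hWd, hJa] at h3
    have h4 : ∑ c, t4s m (rl (Pi.single a 1)) c c = t a := by rw [ht]
    rw [h4] at h3
    refine le_trans ?_ h3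
    refine le_trans (le_of_eq ?_) (Complex.abs_re_le_norm _)
    congr 1
    rw [Complex.sub_re, Complex.ofReal_re]
    have e1 : (1 / 4 * ((p₁ : ℂ) * t a)).re = 1 / 4 * (p₁ * (t a).re) := by
      have : (1 / 4 * ((p₁ : ℂ) * t a)) = ((1 / 4 * p₁ : ℝ) : ℂ) * t a := by push_cast; ring
      rw [this, Complex.re_ofReal_mul]
      ring
    rw [e1]
  -- the sum over the directions
  have hqb : ∑ a, (t a).re = 12 * n * qb n m := by
    unfold qb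
    have e1 : ∀ a, (t a).re = ∑ c, (N988.MK.T4 m (Pi.single a 1) (Pi.single c 1)).re := by
      intro a
      rw [ht, Complex.re_sum]
      refine Finset.sum_congr rfl fun c _ => ?_
      rw [t4s_eq]
      have e2 : (t4c m (rl (Pi.single a 1)) c c + t4c m (rl (Pi.single a 1)) c c) / 2 =
          t4c m (rl (Pi.single a 1)) c c := by ring
      rw [e2, t4c_diag, rl_single]
    rw [Finset.sum_congr rfl fun a _ => e1 a]
    field_simp
  have k5 : |n * (δ * W + k / 48 * (p₂ * cA)) + k / 2880 * (∑ a, J a) -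
      1 / 4 * (p₁ * (12 * n * qb n m))| ≤ n * (E2q n Cm Cp Cy C6 r k M (108 * M) * W) := by
    have e1 : n * (δ * W + k / 48 * (p₂ * cA)) + k / 2880 * (∑ a, J a) -
        1 / 4 * (p₁ * (12 * n * qb n m)) =
        ∑ a, (δ * W + k / 48 * (p₂ * cA) + k / 2880 * J a - 1 / 4 * (p₁ * (t a).re)) := by
      rw [← hqb]
      simp only [Finset.sum_sub_distrib, Finset.sum_add_distrib, Finset.mul_sum, Finset.sum_const,
        Finset.card_univ, Fintype.card_fin, nsmul_eq_mul]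
      ring
    rw [e1]
    refine (Finset.abs_sum_le_sum_abs _ _).trans ((Finset.sum_le_sum fun a _ => k4 a).trans ?_)
    simp
  -- normalisation
  obtain ⟨P1, hP1⟩ : ∃ P, P = p₁ / W := ⟨_, rfl⟩
  obtain ⟨P2, hP2⟩ : ∃ P, P = p₂ / W := ⟨_, rfl⟩
  obtain ⟨Q, hQ⟩ : ∃ Q, Q = (∑ a, J a) / (n * W) := ⟨_, rfl⟩
  have q1 : p₁ = P1 * W := by rw [hP1]; field_simp
  have q2 : p₂ = P2 * W := by rw [hP2]; field_simp
  have q3 : ∑ a, J a = Q * (n * W) := by rw [hQ]; field_simp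
  rw [q1] at k1
  rw [q2] at k2
  rw [q1, q3] at k3
  rw [q1, q2, q3] at k5
  have a1 : |k ^ 2 * P1 - (k / 2 + 2 * δ)| ≤ E1 Cm Cu Cp r k M := by
    have e : (k / 2 + 2 * δ) * W - k ^ 2 * (P1 * W) = -(k ^ 2 * P1 - (k / 2 + 2 * δ)) * W := by
      ring
    rw [e, abs_mul, abs_neg, abs_of_pos hW] at k1
    exact le_of_mul_le_mul_right k1 hW
  have a2 : |k ^ 2 * P2 - (k / 2 + 2 * δ)| ≤ E1q Cm Cy r k M := by
    have e : (k / 2 + 2 * δ) * W - k ^ 2 * (P2 * W) = -(k ^ 2 * P2 - (k / 2 + 2 * δ)) * W := by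
      ring
    rw [e, abs_mul, abs_neg, abs_of_pos hW] at k2
    exact le_of_mul_le_mul_right k2 hW
  have hnW : 0 < (n : ℝ) * W := by positivity
  have a3 : |2 * k * Q - 5 / 2 * cA ^ 2 * P1| ≤ 16 * n ^ 4 * E4 N Cm Cu Cp r k M := by
    have e : 2 * k * (Q * (n * W)) - 5 / 2 * n * cA ^ 2 * (P1 * W) =
        (2 * k * Q - 5 / 2 * cA ^ 2 * P1) * (n * W) := by ring
    rw [e, abs_mul, abs_of_pos hnW] at k3
    have e2 : 16 * (n : ℝ) ^ 5 * (E4 N Cm Cu Cp r k M * W) =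
        16 * n ^ 4 * E4 N Cm Cu Cp r k M * (n * W) := by ring
    rw [e2] at k3
    exact le_of_mul_le_mul_right k3 hnW
  have a4' : |δ + cA / 48 * (k * P2) + k / 2880 * Q - 3 * qb n m * P1| ≤
      E2q n Cm Cp Cy C6 r k M (108 * M) := by
    have e : n * (δ * W + k / 48 * (P2 * W * cA)) + k / 2880 * (Q * (n * W)) -
        1 / 4 * (P1 * W * (12 * n * qb n m)) =
        (δ + cA / 48 * (k * P2) + k / 2880 * Q - 3 * qb n m * P1) * (n * W) := by ring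
    rw [e, abs_mul, abs_of_pos hnW] at k5
    have e2 : n * (E2q n Cm Cp Cy C6 r k M (108 * M) * W) =
        E2q n Cm Cp Cy C6 r k M (108 * M) * (n * W) := by ring
    rw [e2] at k5
    exact le_of_mul_le_mul_right k5 hnW
  have hd : |δ| ≤ 3 / (4 * r ^ 2) := by
    have h1 : 3 / 2 * eta Cq Cm r k M / r ^ 2 ≤ 3 / 2 * (1 / 2) / r ^ 2 := by
      have := H.het
      gcongr
    have h3 : 3 / (4 * r ^ 2) = 3 / 2 * (1 / 2) / r ^ 2 := by field_simp; norm_num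
    rw [h3]
    exact hδ1.trans h1
  have hqb2 := qb_le H.hs H.hf.hol H.h1 hr0 hM hn
  have hfin := fin_arith2 hk a1 a2 a3 a4' hd hqb2 hcA
  refine hfin.trans ?_
  have hCu := Z.hCu
  have hCp := Z.hCp
  have hCy := S.Y.hCy
  have hC6 := S.hC6
  have hCm := H.hCm
  have hκ0 : 0 ≤ kap2 Cu Cp r := by unfold kap2; positivity
  have hs := sN_nonneg N
  have ha6 : 0 ≤ a6 Cp Cy C6 := by unfold a6; positivity
  refine fin_bound hk hM hn'.le hcA (by positivity) ((abs_nonneg _).trans a1)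
    (E1_bound hr0 hMr hk hCm Z.K2_nonneg) (by unfold A2c; positivity)
    (by unfold A4c; positivity) (by unfold A5c; positivity) (E1q_bound hr0 hM hMr hk hCm hCy) ?_
    (E2q_bound hr0 hM hk hCm hCp hCy hC6) rfl
  have := E4_bound (N := N) (Cu := Cu) (Cp := Cp) hr0 hMr hk hCm
  calc 16 * (n : ℝ) ^ 4 * E4 N Cm Cu Cp r k M ≤ 16 * n ^ 4 * (A4c N Cm Cu Cp r / k ^ 2) :=
        mul_le_mul_of_nonneg_left this (by positivity)
    _ = _ := by ring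

/-- the expansion of order eight of the quadratic form -/
def H6 (B : Frame G n) : Prop :=
  ∀ (r₀ C : ℝ) (b : (Fin n → ℂ) → (Fin n → ℂ) → (Fin n → ℂ)), BC B r₀ C b →
    ∃ C6 : ℝ, 0 ≤ C6 ∧ ∀ x y : Fin n → ℂ, nC x < r₀ / 2 → nC y < r₀ / 2 →
      ‖Tf b qC x y + 1 / 6 * brC B x y + 1 / 360 * (b2C B x y + b2C B y x)‖ ≤
        C6 * nC x ^ 2 * nC y ^ 2 * max (nC x) (nC y) ^ 4

variable (μ) in
/-- **the coupling after one convolution square, to the next order** -/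
theorem two_K (hG : IsClosed (G : Set (UN N))) (hI : IsoG B) (hn : 0 < n)
    (hcA : ∀ x : Fin n → ℝ, ∑ a, ‖LX B x * B.X a - B.X a * LX B x‖ ^ 2 = cA * nE x ^ 2)
    (h6 : H6 B) (hcas : CasPair B cA) :
    ∃ r₁ ε₁ : ℝ, 0 < r₁ ∧ 0 < ε₁ ∧ ε₁ ≤ 1 / 1000 ∧ ∀ r : ℝ, 0 < r → r ≤ r₁ →
      ∃ k₀ K : ℝ, 1 ≤ k₀ ∧ 0 ≤ K ∧ ∀ {k M : ℝ} {f : G → ℝ} {F : (Mat N)ˣ → ℂ}
        {m : (Fin n → ℂ) → ℂ}, k₀ ≤ k → 0 ≤ M → M * r ^ 2 ≤ ε₁ * k → CF f F → (∀ x, 0 < f x) →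
        St B r k M F m → Tube B r k F →
        ∀ {k' M' : ℝ} {m' : (Fin n → ℂ) → ℂ}, St B r k' M' (convC μ F F) m' →
        |k' - (k / 2 - cA / 48 + (cA ^ 2 / 2304 + 3 * qb n m) / k)| ≤ K * (1 + M) / k ^ 2 := by
  obtain ⟨r₀, C, b, Cq, Cu, Cs, Cp, Cy, T⟩ := exists_Cst2 B hG
  obtain ⟨C6, hC6, h6'⟩ := h6 r₀ C b T.T.h
  obtain ⟨Cm, r₁, ε₁, hCm, hr₁, hr₁0, hε₁, hε₁', hst⟩ := T.exists_Hy2 μ hI hn hcA
  have hcA0 : 0 ≤ cA := by
    have h1 := hcA (Pi.single (⟨0, hn⟩ : Fin n) (1 : ℝ))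
    rw [nE_single, one_pow, mul_one] at h1
    rw [← h1]
    exact Finset.sum_nonneg fun a _ => sq_nonneg _
  refine ⟨r₁, ε₁, hr₁, hε₁, hε₁', fun r hr hrr => ?_⟩
  obtain ⟨-, k₀, hk3, hk16, hH⟩ := hst r hr hrr
  have hCu := T.T.hCu
  have hCp := T.T.hCp
  have hCy := T.hCy
  have hs := sN_nonneg N
  refine ⟨k₀, KK n cA (3 / (4 * r ^ 2)) (E1c Cm Cu Cp r) (A2c Cm Cy r)
    (16 * n ^ 4 * A4c N Cm Cu Cp r) (A5c n Cm Cp Cy C6 r), by linarith, ?_, ?_⟩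
  · have p1 : 0 ≤ kap2 Cu Cp r := by unfold kap2; positivity
    have p2 : 0 ≤ E1c Cm Cu Cp r := by unfold E1c; positivity
    have p3 : 0 ≤ A2c Cm Cy r := by unfold A2c; positivity
    have p4 : 0 ≤ A4c N Cm Cu Cp r := by unfold A4c; positivity
    have p5 : 0 ≤ a6 Cp Cy C6 := by unfold a6; positivity
    have p6 : 0 ≤ A5c n Cm Cp Cy C6 r := by unfold A5c; positivity
    unfold KK
    positivity
  · intro k M f F m hk hM hMr hf hpos hst' ht k' M' m' hs'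
    have Y := hH hk hM hMr hf hpos hst' ht
    have H := Y.Z.H
    have hk1 : 1 ≤ k := by linarith
    have hMr' : M * r ^ 2 ≤ k / 1000 := by
      have := mul_le_mul_of_nonneg_right hε₁' (show 0 ≤ k by linarith)
      linarith
    have S : Hy6 B hG μ r₀ C b r k M Cm Cq Cu Cs Cp Cy C6 (2 * M / r ^ 2) cA f F m
        (N988.MK.m4 m) :=
      ⟨Y, hC6, h6', hst'.qrt hf.hol H.h1 hr hM⟩
    obtain ⟨δ, κ, d1, d2, d3, d4⟩ := H.exists_delta hI hn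
    have hnew := Hy.new_state H d4
    have hF1 : convC μ F F 1 ≠ 0 := by
      rw [N988.MK.conv_one (B := B) (hG := hG) hf]
      exact Complex.ofReal_ne_zero.2 H.hW.ne'
    have hk' : k' = k / 2 + 2 * δ :=
      (St.uniq hs' hnew hr hn hF1 fun x => rfl).1
    have hfin := K_one S hcas hk1 hMr' hcA0 d1 d2 d3 d4
    have e : k' - (k / 2 - cA / 48 + (cA ^ 2 / 2304 + 3 * qb n m) / k) =
        2 * δ - (-(cA / 48) + (cA ^ 2 / 2304 + 3 * qb n m) / k) := by rw [hk']; ring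
    rw [e]
    exact hfin

end

end Pool.Agent.N991.MK
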