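import Mathlib
import Pool.Agent.N991.MK.Tan1

/-!
# The strict tube bound
-/

open MeasureTheory Matrix Filter
open scoped Matrix.Norms.Frobenius ContDiff Topology
open Pool.Agent.H906R3.YM Pool.Agent.W793.YM Pool.Agent.TH618.YM Pool.Agent.N984.TW

namespace Pool.Agent.N991.MK

set_option linter.unusedSectionVars false

noncomputable section

variable {N n : ℕ} {G : Subgroup (UN N)} {B : Frame G n} (hG : IsClosed (G : Set (UN N)))
variable [CompactSpace G] [MeasurableSpace G] [BorelSpace G]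
  {μ : Measure G} [IsProbabilityMeasure μ] [μ.IsMulLeftInvariant] [μ.IsMulRightInvariant]
  [μ.IsInvInvariant]

include hG in
/-- **the strict tube bound is produced by the convolution** -/
theorem tubeS_conv (μ : Measure G) [IsProbabilityMeasure μ] [μ.IsMulLeftInvariant]
    [μ.IsMulRightInvariant] [μ.IsInvInvariant] {r : ℝ} (hr : GoodR B r) (C1 : ℝ) (hC1 : 0 ≤ C1) :
    ∃ k0 : ℝ, 1 ≤ k0 ∧ ∀ {k k' M : ℝ} {f : G → ℝ} {F : (Mat N)ˣ → ℂ}, k0 ≤ k →
      |k' - k / 2| ≤ C1 → M * r ^ 2 ≤ k / 1000 → CF f F →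
      NearS B r k M F → Tube B r k F → TubeS B r k' (convC μ F F) := by
  obtain ⟨c, hc, D, hlow⟩ := int_lower_pow (B := B) μ
  have hp := hr.pos
  obtain ⟨k1, hk1, hexp⟩ := exp_beats (r ^ 2 / 2000) c (by positivity) hc (C1 + 1) D
  refine ⟨max (max k1 (16 / r ^ 2)) (4 * C1), hk1.trans ((le_max_left _ _).trans (le_max_left _ _)),
    fun {k k' M f F} hk hkk hM h hn ht a y ha hcase => ?_⟩
  have hka : k1 ≤ k := (le_max_left _ _).trans ((le_max_left _ _).trans hk)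
  have hkb : 16 / r ^ 2 ≤ k := (le_max_right _ _).trans ((le_max_left _ _).trans hk)
  have hkc : 4 * C1 ≤ k := (le_max_right _ _).trans hk
  have hk1' : 1 ≤ k := hk1.trans hka
  have hk0 : 0 ≤ k := by linarith
  rw [abs_le] at hkk
  have hk'0 : 0 ≤ k' := by linarith
  have ha0 := nE_nonneg a
  have hy0 := nN_nonneg y
  have hy7 : 0.7 * r ≤ nN y := by nlinarith
  set a' : Fin n → ℝ := (1 / 2 : ℝ) • a with ha'
  have ha'n : nE a' = nE a / 2 := by
    rw [ha', nE_smul, abs_of_pos (by norm_num : (0 : ℝ) < 1 / 2)]; ring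
  have e1 : convC μ F F (uE B (Complex.I • rl a) * uG y) =
      ∫ z : G, F (uE B (Complex.I • rl a') * uG z) *
        F (uE B (Complex.I • rl a') * uG (y * z⁻¹)) ∂μ := by
    rw [uE_half, mul_assoc, convC_shift B hG h.hol h.hol]
    refine integral_congr_ae (Eventually.of_forall fun z => ?_)
    beta_reduce
    rw [h.swap', mul_assoc, ← map_mul]
  have hE : k / 4 * (1.01 * nE a ^ 2 - 0.99 * min (nN y) r ^ 2) ≤
      k' / 2 * (1.01 * nE a ^ 2 - 0.99 * min (nN y) r ^ 2) + C1 := by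
    have h2 : min (nN y) r ^ 2 ≤ r ^ 2 :=
      pow_le_pow_left₀ (le_min hy0 hp.le) (min_le_right _ _) 2
    have h3 := sq_nonneg (min (nN y) r)
    have h4 : r ≤ 1 := hr.le.trans (by norm_num)
    have h5 : |1.01 * nE a ^ 2 - 0.99 * min (nN y) r ^ 2| ≤ 2 := by
      rw [abs_le]; constructor <;> nlinarith
    have h6 : |(k / 4 - k' / 2) * (1.01 * nE a ^ 2 - 0.99 * min (nN y) r ^ 2)| ≤ C1 / 2 * 2 := by
      rw [abs_mul]
      refine mul_le_mul ?_ h5 (abs_nonneg _) (by positivity)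
      rw [abs_le]; constructor <;> linarith
    have h7 := le_abs_self ((k / 4 - k' / 2) * (1.01 * nE a ^ 2 - 0.99 * min (nN y) r ^ 2))
    linarith
  set E := k' / 2 * (1.01 * nE a ^ 2 - 0.99 * min (nN y) r ^ 2) with hEdef
  have hpt : ∀ z : G, ‖F (uE B (Complex.I • rl a') * uG z) *
        F (uE B (Complex.I • rl a') * uG (y * z⁻¹))‖ ≤
      ‖F 1‖ ^ 2 * Real.exp (E + (C1 - r ^ 2 / 2000 * k)) := by
    intro z
    rw [norm_mul]
    have hL : nN y ≤ nN z + nN (y * z⁻¹) := by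
      have := nN_mul_le (y * z⁻¹) z
      rw [inv_mul_cancel_right] at this
      linarith
    refine (tube_point hr hk0 hM hn ht (a := a') (by rw [ha'n]; linarith) hy7 hL).trans ?_
    refine mul_le_mul_of_nonneg_left (Real.exp_le_exp.2 ?_) (by positivity)
    rw [ha'n]
    have : (2 * (nE a / 2)) ^ 2 = nE a ^ 2 := by ring
    rw [this]
    linarith
  rw [e1]
  have h8 : ‖∫ z : G, F (uE B (Complex.I • rl a') * uG z) *
        F (uE B (Complex.I • rl a') * uG (y * z⁻¹)) ∂μ‖ ≤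
      ‖F 1‖ ^ 2 * Real.exp (E + (C1 - r ^ 2 / 2000 * k)) := by
    have h9 := norm_integral_le_of_norm_le_const (μ := μ) (Eventually.of_forall hpt)
    simpa using h9
  refine h8.trans ?_
  rw [h.conv_one, Real.exp_add]
  have h10 := hlow hr hkb hM h hn
  have h11 := hexp k hka
  have h12 : ‖F 1‖ ^ 2 * Real.exp (C1 + 1 - r ^ 2 / 2000 * k) ≤ ∫ z, f z ^ 2 ∂μ := by
    have hkD : 0 < k ^ D := by positivity
    have h13 : ‖F 1‖ ^ 2 * (Real.exp (C1 + 1 - r ^ 2 / 2000 * k) * k ^ D) ≤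
        k ^ D * ∫ z, f z ^ 2 ∂μ :=
      (mul_le_mul_of_nonneg_left h11 (by positivity)).trans h10
    have h14 : k ^ D * (‖F 1‖ ^ 2 * Real.exp (C1 + 1 - r ^ 2 / 2000 * k)) ≤
        k ^ D * ∫ z, f z ^ 2 ∂μ := by
      calc _ = ‖F 1‖ ^ 2 * (Real.exp (C1 + 1 - r ^ 2 / 2000 * k) * k ^ D) := by ring
        _ ≤ _ := h13
    exact le_of_mul_le_mul_left h14 hkD
  have h15 : Real.exp (C1 - r ^ 2 / 2000 * k) ≤
      1 / 2 * Real.exp (C1 + 1 - r ^ 2 / 2000 * k) := by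
    have e2 : C1 + 1 - r ^ 2 / 2000 * k = (C1 - r ^ 2 / 2000 * k) + 1 := by ring
    rw [e2, Real.exp_add]
    have e3 : 2 ≤ Real.exp 1 := by
      have := Real.add_one_le_exp (1 : ℝ)
      linarith
    have e4 := Real.exp_pos (C1 - r ^ 2 / 2000 * k)
    nlinarith
  have h16 : ‖F 1‖ ^ 2 * Real.exp (C1 - r ^ 2 / 2000 * k) ≤ 1 / 2 * ∫ z, f z ^ 2 ∂μ := by
    calc ‖F 1‖ ^ 2 * Real.exp (C1 - r ^ 2 / 2000 * k)
        ≤ ‖F 1‖ ^ 2 * (1 / 2 * Real.exp (C1 + 1 - r ^ 2 / 2000 * k)) :=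
          mul_le_mul_of_nonneg_left h15 (by positivity)
      _ = 1 / 2 * (‖F 1‖ ^ 2 * Real.exp (C1 + 1 - r ^ 2 / 2000 * k)) := by ring
      _ ≤ _ := mul_le_mul_of_nonneg_left h12 (by norm_num)
  calc ‖F 1‖ ^ 2 * (Real.exp E * Real.exp (C1 - r ^ 2 / 2000 * k))
      = (‖F 1‖ ^ 2 * Real.exp (C1 - r ^ 2 / 2000 * k)) * Real.exp E := by ring
    _ ≤ _ := mul_le_mul_of_nonneg_right h16 (Real.exp_pos _).le

/-- the strict tube bound of a power -/
lemma TubeS.pow4 {r k : ℝ} {F : (Mat N)ˣ → ℂ} (h : TubeS B r k F) :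
    TubeS B r (4 * k) (fun u => F u ^ 4) := by
  intro v y hv hvy
  have h1 := h v y hv hvy
  rw [norm_pow]
  obtain ⟨X, hX⟩ : ∃ X, X = 1.01 * nE v ^ 2 - 0.99 * min (nN y) r ^ 2 := ⟨_, rfl⟩
  rw [← hX] at h1 ⊢
  have h2 : ‖F (uE B (Complex.I • rl v) * uG y)‖ ^ 4 ≤
      (1 / 2 * ‖F 1‖ * Real.exp (k / 2 * X)) ^ 4 := pow_le_pow_left₀ (norm_nonneg _) h1 4
  have e1 : Real.exp (4 * k / 2 * X) = Real.exp (k / 2 * X) ^ 4 := by
    rw [← Real.exp_nat_mul]
    congr 1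
    push_cast
    ring
  have e2 : (1 / 2 * ‖F 1‖ * Real.exp (k / 2 * X)) ^ 4 =
      1 / 16 * (‖F 1‖ ^ 4 * Real.exp (k / 2 * X) ^ 4) := by ring
  have e3 : 0 ≤ ‖F 1‖ ^ 4 * Real.exp (k / 2 * X) ^ 4 := by positivity
  rw [e1, norm_pow]
  rw [e2] at h2
  refine h2.trans ?_
  linarith

/-- the strict tube bound under scaling -/
lemma TubeS.smul {r k : ℝ} {F : (Mat N)ˣ → ℂ} (h : TubeS B r k F) (c : ℂ) :
    TubeS B r k (fun u => c * F u) := by
  intro v y hv hvy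
  have h1 := h v y hv hvy
  beta_reduce
  rw [norm_mul, norm_mul]
  have h2 := mul_le_mul_of_nonneg_left h1 (norm_nonneg c)
  refine h2.trans (le_of_eq ?_)
  ring

/-- the strict tube bound from the bounds at the double radius -/
lemma tubeS_of_double {r k M : ℝ} {F : (Mat N)ˣ → ℂ} (hr : 0 < r) (hgr : GoodR B (2 * r))
    (hk : 1000 / r ^ 2 ≤ k) (hM : M * (2 * r) ^ 2 ≤ k / 1000) (hn : NearS B (2 * r) k M F)
    (ht : Tube B (2 * r) k F) : TubeS B r k F := by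
  have hr2 : 0 < r ^ 2 := by positivity
  have hk0 : 0 < k := lt_of_lt_of_le (by positivity) hk
  have hkr : 1000 ≤ k * r ^ 2 := by rwa [div_le_iff₀ hr2] at hk
  intro v y hv hvy
  have hv0 := nE_nonneg v
  have hy0 := nN_nonneg y
  have hE : ∀ Y Z : ℝ, Y + 2 ≤ Z →
      Real.exp Y ≤ 1 / 2 * Real.exp Z := by
    intro Y Z h
    have h1 : Real.exp Z = Real.exp Y * Real.exp (Z - Y) := by
      rw [← Real.exp_add]
      congr 1
      ring
    have h2 := Real.add_one_le_exp (Z - Y)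
    have h3 := Real.exp_pos Y
    rw [h1]
    nlinarith
  have key : ∀ Y Z : ℝ, Y + 2 ≤ Z → ‖F (uE B (Complex.I • rl v) * uG y)‖ ≤ ‖F 1‖ * Real.exp Y →
      ‖F (uE B (Complex.I • rl v) * uG y)‖ ≤ 1 / 2 * ‖F 1‖ * Real.exp Z := by
    intro Y Z h h1
    refine h1.trans ?_
    calc ‖F 1‖ * Real.exp Y ≤ ‖F 1‖ * (1 / 2 * Real.exp Z) :=
          mul_le_mul_of_nonneg_left (hE Y Z h) (norm_nonneg _)
      _ = _ := by ring
  have hmin : min (nN y) r ^ 2 ≤ nN y ^ 2 :=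
    pow_le_pow_left₀ (le_min hy0 hr.le) (min_le_left _ _) 2
  by_cases hcase : nE v ^ 2 + nN y ^ 2 ≤ (0.95 * (2 * r)) ^ 2
  · refine key _ _ ?_ (hn.tube hgr hk0.le hM hcase)
    have h1 : 0.9 * r ^ 2 ≤ nE v ^ 2 + nN y ^ 2 := by nlinarith
    have h2 : k * (0.9 * r ^ 2) ≤ k * (nE v ^ 2 + nN y ^ 2) := mul_le_mul_of_nonneg_left h1 hk0.le
    have h3 : k * min (nN y) r ^ 2 ≤ k * nN y ^ 2 := mul_le_mul_of_nonneg_left hmin hk0.le
    nlinarith
  · push Not at hcase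
    refine key _ _ ?_ (ht v y (by linarith))
    have h1 : nE v ^ 2 ≤ (0.51 * r) ^ 2 := pow_le_pow_left₀ hv0 hv 2
    have h2 : (1.8 * r) ^ 2 ≤ nN y ^ 2 := by nlinarith
    have h3 : 1.8 * r ≤ nN y := by
      by_contra hcon
      push Not at hcon
      have := pow_lt_pow_left₀ hcon hy0 (by norm_num : (2 : ℕ) ≠ 0)
      linarith
    have h4 : (1.8 * r) ^ 2 ≤ min (nN y) (2 * r) ^ 2 :=
      pow_le_pow_left₀ (by positivity) (le_min h3 (by linarith)) 2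
    have h5 : min (nN y) r ^ 2 ≤ r ^ 2 :=
      pow_le_pow_left₀ (le_min hy0 hr.le) (min_le_right _ _) 2
    have h6 : k * (1.8 * r) ^ 2 ≤ k * min (nN y) (2 * r) ^ 2 := mul_le_mul_of_nonneg_left h4 hk0.le
    have h7 : k * min (nN y) r ^ 2 ≤ k * r ^ 2 := mul_le_mul_of_nonneg_left h5 hk0.le
    nlinarith

end

end Pool.Agent.N991.MK
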