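import Mathlib
import Pool.Agent.N991.MK.Fm2
import Pool.Agent.N991.MK.Fm4

/-!
# Comparison of two densities: preliminary estimates
-/

open MeasureTheory Matrix Filter Metric
open scoped Matrix.Norms.Frobenius ContDiff Topology
open Pool.Agent.H906R3.YM Pool.Agent.W793.YM Pool.Agent.TH618.YM Pool.Agent.N984.TW
open Pool.Agent.N988.MK (St qC Lz Dz pz Lz_sum BC exists_BC Uf dC2 exists_pz
  Dz_cont pz_cont qC_rl Cst exists_Cst dC2_rl dR_le dR_sub nE_add_le)

namespace Pool.Agent.N991.MK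

set_option linter.unusedSectionVars false

noncomputable section

variable {N n : ℕ} {G : Subgroup (UN N)}
variable [CompactSpace G] [MeasurableSpace G] [BorelSpace G]

lemma fin_arith' {X K k M m2 I L P : ℝ} (hk : 1 ≤ k) (hM : 0 ≤ M) (hK : 0 ≤ K) (hm2 : 0 ≤ m2)
    (hI : 0 ≤ I) (hL : 0 ≤ L) (hP : 0 ≤ P)
    (h : X ≤ K * (k + M) * (m2 / k ^ 2 * I) + L * (I / k) + P * (I / k)) :
    X ≤ (K * m2 + L + P) * (1 + M / k) / k * I := by
  have hk0 : 0 < k := by linarith
  refine h.trans ?_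
  have h6 : k + M = (1 + M / k) * k := by field_simp
  have h5 : (k + M) * (m2 / k ^ 2 * I) = m2 * (1 + M / k) * (I / k) := by
    rw [h6]; field_simp
  have hIk : 0 ≤ I / k := by positivity
  have hMk : 0 ≤ M / k := by positivity
  calc K * (k + M) * (m2 / k ^ 2 * I) + L * (I / k) + P * (I / k)
      = K * ((k + M) * (m2 / k ^ 2 * I)) + (L + P) * 1 * (I / k) := by ring
    _ ≤ K * (m2 * (1 + M / k) * (I / k)) + (L + P) * (1 + M / k) * (I / k) := by
        rw [h5]
        gcongr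
        linarith
    _ = _ := by ring

/-- the mean of the squared distance to the identity -/
theorem mean_law' (B : Frame G n) (hG : IsClosed (G : Set (UN N))) (μ : Measure G)
    [IsProbabilityMeasure μ] [μ.IsMulLeftInvariant] [μ.IsMulRightInvariant] [μ.IsInvInvariant] :
    ∃ r2 : ℝ, 0 < r2 ∧ ∀ r : ℝ, 0 < r → r ≤ r2 → GoodR B r →
    ∃ k0 C : ℝ, 1 ≤ k0 ∧ 0 ≤ C ∧ ∀ {k M : ℝ} {f : G → ℝ} {F : (Mat N)ˣ → ℂ}
      {m : (Fin n → ℂ) → ℂ}, k0 ≤ k → 0 ≤ M → M * r ^ 2 ≤ k / 1000 → CF f F → (∀ x, 0 < f x) →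
      Pool.Agent.N988.MK.St B r k M F m → Tube B r k F →
      |k * (∫ z, f z * nN z ^ 2 ∂μ) - n * ∫ z, f z ∂μ| ≤ C * (1 + M / k) / k * ∫ z, f z ∂μ := by
  obtain ⟨r₀, C₀, b, Cq, Cu, Cs, Cp, c⟩ := exists_Cst B hG
  obtain ⟨Cw, ρ, hCw, hρ, hw⟩ := nN_sq_near B hG
  obtain ⟨m1, hm1, hmom1⟩ := moments1 (B := B) μ 1
  obtain ⟨m2, hm2, hmom2⟩ := moments1 (B := B) μ 2
  have hr₀ := c.h.pos
  refine ⟨min r₀ ρ, by positivity, fun r hr hrr hgr => ?_⟩
  have hrr₀ : r ≤ r₀ := hrr.trans (min_le_left _ _)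
  have hrρ : r ≤ ρ := hrr.trans (min_le_right _ _)
  obtain ⟨k1, hk1, hk1', hb⟩ := norm_beats1 (B := B) μ hgr (0.015 * r ^ 2) (by positivity) 2
  have hCu := c.hCu
  have hCp := c.hCp
  obtain ⟨K, hK⟩ : ∃ K, K = 2 * Cu + 405 + 3 * Cp + 3 * Cw := ⟨_, rfl⟩
  have hK0 : 0 ≤ K := by rw [hK]; positivity
  obtain ⟨L, hL⟩ : ∃ L, L = 32 * n * Real.sqrt N / r + 4 * N := ⟨_, rfl⟩
  have hL0 : 0 ≤ L := by rw [hL]; positivity
  refine ⟨k1, K * m2 + L + n / 2 * (m1 + 4 * N), hk1, by positivity,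
    fun {k M f F m} hk hM hMr hf hpos hs ht => ?_⟩
  have hk1k : 1 ≤ k := hk1.trans hk
  have hk0 : 0 < k := by linarith
  have hNs := Pool.Agent.N991.MK.St.toNear hs
  have hkr : 16 / r ^ 2 ≤ k := hk1'.trans hk
  obtain ⟨I, hI⟩ : ∃ I, I = ∫ z, f z ∂μ := ⟨_, rfl⟩
  obtain ⟨J, hJ⟩ : ∃ J, J = ∫ z, f z * nN z ^ 2 ∂μ := ⟨_, rfl⟩
  obtain ⟨E, hE⟩ : ∃ E, E = ‖F 1‖ * Real.exp (-(0.015 * r ^ 2 * k)) := ⟨_, rfl⟩
  have hE0 : 0 ≤ E := by rw [hE]; positivity
  have hEI : k ^ 2 * E ≤ I := by rw [hE, hI]; exact hb hk hMr hf hpos hNs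
  have hI0 : 0 ≤ I := by rw [hI]; exact integral_nonneg fun z => (hpos z).le
  rw [← hI, ← hJ]
  have cN : Continuous (nN : G → ℝ) := nN_cont
  have cD : ∀ a, Continuous fun z : G => Dz B F z a := fun a => Dz_cont hf.hol a
  have cp : ∀ a, Continuous fun z : G => pz B z a := fun a => pz_cont a
  have cT : Continuous fun z : G => -∑ a, Dz B F z a * pz B z a :=
    (continuous_finsetSum _ fun a _ => (cD a).mul (cp a)).neg
  have cF := hf.cont
  have cfn : Continuous fun z : G => f z * nN z ^ 2 := cF.mul (cN.pow 2)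
  have cfn4 : Continuous fun z : G => f z * nN z ^ 4 := cF.mul (cN.pow 4)
  -- the near and the far part of the derivative term
  have hEk : E ≤ I / k ^ 2 := by rw [le_div_iff₀ (by positivity)]; linarith
  have hkE : k * E ≤ I / k := by
    rw [le_div_iff₀ hk0]
    calc k * E * k = k ^ 2 * E := by ring
      _ ≤ I := hEI
  have s1 : |∫ z, ((-∑ a, Dz B F z a * pz B z a) - k * (f z * nN z ^ 2)) ∂μ| ≤
      K * (k + M) * (m2 / k ^ 2 * I) + L * (I / k) := by
    have h1 := split_le μ (φ := fun z => (-∑ a, Dz B F z a * pz B z a) - k * (f z * nN z ^ 2))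
      (ψ := fun z => K * (k + M) * (f z * nN z ^ 4)) (s := r / 4)
      (A := L * (k * E)) (cT.sub (continuous_const.mul cfn))
      (continuous_const.mul cfn4) (by positivity)
      (fun z hz => by
        rw [hK]
        exact near_T c hCw hw hr hrr₀ hrρ hk0.le hM hf hpos hs hz)
      (fun z hz => by
        rw [hL, hE]
        exact far_T hf hgr hk1k ht hz)
    refine h1.trans (add_le_add ?_ (mul_le_mul_of_nonneg_left hkE hL0))
    rw [integral_const_mul]
    refine mul_le_mul_of_nonneg_left ?_ (by positivity)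
    have h2 := hmom2 hgr hkr hMr hf hpos hNs
    rw [← hI] at h2
    rw [div_mul_eq_mul_div, le_div_iff₀ (by positivity)]
    linarith
  have s2 : J ≤ m1 / k * I + 4 * N * E := by
    have h1 := split_le μ (φ := fun z => f z * nN z ^ 2)
      (ψ := fun z => f z * nN z ^ 2) (s := r / 4) (A := 4 * N * E) cfn cfn (by positivity)
      (fun z _ => by
        rw [abs_of_nonneg]
        have := (hpos z).le
        positivity)
      (fun z hz => by
        rw [abs_mul, abs_of_nonneg (by positivity : 0 ≤ nN z ^ 2)]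
        have h4 : |f z| ≤ E := by
          refine (far_up hgr hk0.le hf ht hz).trans ?_
          rw [hE]
          refine mul_le_mul_of_nonneg_left (Real.exp_le_exp.2 ?_) (norm_nonneg _)
          have : 0 ≤ r ^ 2 * k := by positivity
          nlinarith
        have h5 : nN z ^ 2 ≤ 4 * N := by
          have h6 := pow_le_pow_left₀ (nN_nonneg z) (nN_le z) 2
          rw [mul_pow, Real.sq_sqrt (Nat.cast_nonneg N)] at h6
          linarith
        calc |f z| * nN z ^ 2 ≤ E * (4 * N) := by gcongr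
          _ = _ := by ring)
    refine ((le_abs_self _).trans (by rw [hJ]; exact h1)).trans (add_le_add ?_ le_rfl)
    have h2 := hmom1 hgr hkr hMr hf hpos hNs
    rw [← hI, pow_one] at h2
    rw [div_mul_eq_mul_div, le_div_iff₀ (by positivity)]
    linarith
  -- integration by parts
  have cip : ∀ a, Continuous fun z : G => ip (B.X a) (mt z * B.X a) := fun a =>
    (ip (B.X a)).continuous.comp (mt_cont.mul continuous_const)
  have ci : ∀ {φ : G → ℝ}, Continuous φ → Integrable φ μ := fun h => integrable_of_cont h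
  have s3 : ∫ z, (-∑ a, Dz B F z a * pz B z a) ∂μ =
      ∫ z, f z * ∑ a, ip (B.X a) (mt z * B.X a) ∂μ := by
    have h1 : ∀ z, f z * ∑ a, ip (B.X a) (mt z * B.X a) - (-∑ a, Dz B F z a * pz B z a) =
        ∑ a, (Dz B F z a * pz B z a + f z * ip (B.X a) (mt z * B.X a)) := by
      intro z
      rw [Finset.sum_add_distrib, Finset.mul_sum]
      ring
    have h2 : ∫ z, (f z * ∑ a, ip (B.X a) (mt z * B.X a) -
        (-∑ a, Dz B F z a * pz B z a)) ∂μ = 0 := by
      have i1 : ∀ a ∈ (Finset.univ : Finset (Fin n)), Integrable (fun z : G =>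
          Dz B F z a * pz B z a + f z * ip (B.X a) (mt z * B.X a)) μ := fun a _ =>
        ci (((cD a).mul (cp a)).add (cF.mul (cip a)))
      rw [integral_congr_ae (Eventually.of_forall h1), integral_finsetSum _ i1]
      exact Finset.sum_eq_zero fun a _ => ibp hG hf a
    have i2 : Integrable (fun z : G => f z * ∑ a, ip (B.X a) (mt z * B.X a)) μ :=
      ci (cF.mul (continuous_finsetSum _ fun a _ => cip a))
    rw [integral_sub i2 (ci cT)] at h2
    linarith
  have s4 : |∫ z, f z * ∑ a, ip (B.X a) (mt z * B.X a) ∂μ - n * I| ≤ n / 2 * J := by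
    have h1 : ∫ z, f z * ∑ a, ip (B.X a) (mt z * B.X a) ∂μ - n * I =
        ∫ z, f z * ∑ a, (ip (B.X a) (mt z * B.X a) - 1) ∂μ := by
      have i2 : Integrable (fun z : G => f z * ∑ a, ip (B.X a) (mt z * B.X a)) μ :=
        ci (cF.mul (continuous_finsetSum _ fun a _ => cip a))
      have i3 : Integrable (fun z : G => (n : ℝ) * f z) μ := ci (continuous_const.mul cF)
      rw [hI, ← integral_const_mul, ← integral_sub i2 i3]
      refine integral_congr_ae (Eventually.of_forall fun z => ?_)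
      beta_reduce
      rw [Finset.sum_sub_distrib, Finset.sum_const, Finset.card_univ, Fintype.card_fin,
        nsmul_eq_mul]
      ring
    rw [h1, hJ, ← integral_const_mul]
    refine (abs_integral_le_integral_abs).trans (integral_mono (ci ?_).abs
      (ci (continuous_const.mul cfn)) fun z => ?_)
    · exact cF.mul (continuous_finsetSum _ fun a _ => (cip a).sub continuous_const)
    · beta_reduce
      rw [abs_mul, abs_of_pos (hpos z)]
      have h2 : |∑ a, (ip (B.X a) (mt z * B.X a) - 1)| ≤ n * (nN z ^ 2 / 2) := by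
        refine (Finset.abs_sum_le_sum_abs _ _).trans ((Finset.sum_le_sum fun a _ =>
          (ip_diag a z).trans (le_of_eq (by rw [norm_X, one_pow, one_mul]))).trans ?_)
        rw [Finset.sum_const, Finset.card_univ, Fintype.card_fin, nsmul_eq_mul]
      calc f z * |∑ a, (ip (B.X a) (mt z * B.X a) - 1)| ≤ f z * (n * (nN z ^ 2 / 2)) :=
            mul_le_mul_of_nonneg_left h2 (hpos z).le
        _ = _ := by ring
  have i4 : Integrable (fun z : G => k * (f z * nN z ^ 2)) μ := ci (continuous_const.mul cfn)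
  rw [integral_sub (ci cT) i4, integral_const_mul, ← hJ, s3] at s1
  have hJ2 : J ≤ (m1 + 4 * N) * (I / k) := by
    have h1 : 4 * N * E ≤ 4 * N * (I / k) := by
      refine mul_le_mul_of_nonneg_left ?_ (by positivity)
      refine le_trans ?_ hkE
      nlinarith
    calc J ≤ m1 / k * I + 4 * N * E := s2
      _ ≤ m1 / k * I + 4 * N * (I / k) := by linarith
      _ = _ := by ring
  have hfin : |k * J - n * I| ≤ K * (k + M) * (m2 / k ^ 2 * I) + L * (I / k) +
      n / 2 * ((m1 + 4 * N) * (I / k)) := by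
    have e : k * J - n * I = -((∫ z, f z * ∑ a, ip (B.X a) (mt z * B.X a) ∂μ) - k * J) +
        ((∫ z, f z * ∑ a, ip (B.X a) (mt z * B.X a) ∂μ) - n * I) := by ring
    rw [e]
    refine (abs_add_le _ _).trans (add_le_add (by rwa [abs_neg]) (s4.trans ?_))
    exact mul_le_mul_of_nonneg_left hJ2 (by positivity)
  refine fin_arith' hk1k hM hK0 hm2.le hI0 hL0 (by positivity) (hfin.trans (le_of_eq ?_))
  ring


/-- upper bound of the integral by the volume of a ball -/
theorem int1_upper (B : Frame G n) (μ : Measure G) [IsProbabilityMeasure μ]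
    [μ.IsMulLeftInvariant] [μ.IsMulRightInvariant] [μ.IsInvInvariant] :
    ∃ C : ℝ, 0 < C ∧ ∀ {r : ℝ}, GoodR B r → ∃ k0 : ℝ, 1 ≤ k0 ∧
      ∀ {k M : ℝ} {f : G → ℝ} {F : (Mat N)ˣ → ℂ}, k0 ≤ k → M * r ^ 2 ≤ k / 1000 → CF f F →
      (∀ x, 0 < f x) → NearS B r k M F → Tube B r k F →
      ∫ z, f z ∂μ ≤ C * ‖F 1‖ * μ.real (bl (1 / Real.sqrt k) : Set G) := by
  obtain ⟨C, hC, hg⟩ := gauss_le μ 0.4985 (by norm_num)
  obtain ⟨c', hc', D, hv⟩ := vol_lower μ
  refine ⟨C + 1, by positivity, fun {r} hr => ?_⟩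
  have hp := hr.pos
  obtain ⟨k1, hk1, hexp⟩ := exp_beats (0.03 * r ^ 2) c' (by positivity) hc' 0 D
  refine ⟨k1, hk1, fun {k M f F} hk hM h hpos hn ht => ?_⟩
  have hk1' : 1 ≤ k := hk1.trans hk
  have hk0 : 0 < k := lt_of_lt_of_le one_pos hk1'
  have hsk : 1 ≤ Real.sqrt k := Real.one_le_sqrt.2 hk1'
  have hcont2 : Continuous fun z : G => ‖F 1‖ *
      Real.exp (-(0.4985 * (nN z / (1 / Real.sqrt k)) ^ 2)) := by
    have h2 := nN_cont (G := G)
    fun_prop
  have h1 := split_le μ (φ := fun z => f z) (ψ := fun z => ‖F 1‖ *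
      Real.exp (-(0.4985 * (nN z / (1 / Real.sqrt k)) ^ 2))) (s := r / 4)
    (A := ‖F 1‖ * Real.exp (-(0.03 * r ^ 2 * k))) h.cont hcont2 (by positivity)
    (fun z hz => by
      refine (near_up hr hk0.le hM h hn (z := z) (by linarith)).trans (le_of_eq ?_)
      have h5 : (nN z / (1 / Real.sqrt k)) ^ 2 = k * nN z ^ 2 := by
        rw [div_pow, div_pow, Real.sq_sqrt hk0.le]
        field_simp
      rw [h5]
      congr 3
      ring)
    (fun z hz => far_up hr hk0.le h ht hz)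
  refine ((le_abs_self _).trans h1).trans ?_
  have hint2 : Integrable (fun z : G => ‖F 1‖ *
      Real.exp (-(0.4985 * (nN z / (1 / Real.sqrt k)) ^ 2))) μ := integrable_of_cont hcont2
  have h2 : ∫ z in {z : G | nN z ≤ r / 4}, ‖F 1‖ *
      Real.exp (-(0.4985 * (nN z / (1 / Real.sqrt k)) ^ 2)) ∂μ ≤
      ‖F 1‖ * (C * μ.real (bl (1 / Real.sqrt k) : Set G)) := by
    refine (setIntegral_le_integral hint2 (Eventually.of_forall fun z => by positivity)).trans ?_
    rw [integral_const_mul]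
    exact mul_le_mul_of_nonneg_left (hg _ (by positivity)) (norm_nonneg _)
  have h3 : Real.exp (-(0.03 * r ^ 2 * k)) ≤ μ.real (bl (1 / Real.sqrt k) : Set G) := by
    have h4 := hexp k hk
    rw [zero_sub] at h4
    have h5 := hv (1 / Real.sqrt k) (by positivity) ((div_le_one (by positivity)).2 hsk)
    refine le_trans ?_ h5
    have h6 : (1 : ℝ) ≤ k ^ D * (1 / Real.sqrt k) ^ D := by
      rw [← mul_pow]
      refine one_le_pow₀ ?_
      rw [mul_one_div, le_div_iff₀ (by positivity), one_mul]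
      nlinarith [Real.mul_self_sqrt (zero_le_one.trans hk1')]
    calc Real.exp (-(0.03 * r ^ 2 * k)) = Real.exp (-(0.03 * r ^ 2 * k)) * 1 := (mul_one _).symm
      _ ≤ Real.exp (-(0.03 * r ^ 2 * k)) * (k ^ D * (1 / Real.sqrt k) ^ D) := by gcongr
      _ = (Real.exp (-(0.03 * r ^ 2 * k)) * k ^ D) * (1 / Real.sqrt k) ^ D := by ring
      _ ≤ c' * (1 / Real.sqrt k) ^ D := by gcongr
  calc _ ≤ ‖F 1‖ * (C * μ.real (bl (1 / Real.sqrt k) : Set G)) +
        ‖F 1‖ * μ.real (bl (1 / Real.sqrt k) : Set G) :=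
        add_le_add h2 (mul_le_mul_of_nonneg_left h3 (norm_nonneg _))
    _ = _ := by ring

/-- lower bound of the integral over a small ball -/
lemma ball_lower {B : Frame G n} {μ : Measure G} [IsProbabilityMeasure μ]
    [μ.IsMulLeftInvariant] [μ.IsMulRightInvariant] [μ.IsInvInvariant] {r k M s : ℝ}
    (hr : GoodR B r) (hk : 16 / r ^ 2 ≤ k) (hM : M * r ^ 2 ≤ k / 1000)
    {f : G → ℝ} {F : (Mat N)ˣ → ℂ} (h : CF f F) (hpos : ∀ x, 0 < f x) (hn : NearS B r k M F)
    (hs : s ≤ 1 / Real.sqrt k) :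
    Real.exp (-1) * ‖F 1‖ * μ.real (bl s : Set G) ≤ ∫ z in (bl s : Set G), f z ∂μ := by
  have hp := hr.pos
  have hk0 : 0 < k := lt_of_lt_of_le (by positivity) hk
  have hsk : 0 < Real.sqrt k := Real.sqrt_pos.2 hk0
  have hrk : 1 / Real.sqrt k ≤ r / 4 := by
    rw [div_le_iff₀ hsk]
    have h1 : Real.sqrt (16 / r ^ 2) ≤ Real.sqrt k := Real.sqrt_le_sqrt hk
    have h2 : Real.sqrt (16 / r ^ 2) = 4 / r := by
      rw [show 16 / r ^ 2 = (4 / r) ^ 2 by ring, Real.sqrt_sq (by positivity)]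
    rw [h2] at h1
    calc (1 : ℝ) = r / 4 * (4 / r) := by field_simp
      _ ≤ r / 4 * Real.sqrt k := by gcongr
  have hpt : ∀ z ∈ (bl s : Set G), Real.exp (-1) * ‖F 1‖ ≤ f z := by
    intro z hz
    have hz0 : nN z ≤ s := hz
    have hz1 : nN z ≤ 1 / Real.sqrt k := hz0.trans hs
    obtain ⟨x, e1, e2, e3, e4, e5⟩ := hr.near0 (y := z) (by linarith)
    have h1 := hn.lower hp hk0.le hM e2
    rw [e1, e3, h.norm_res, abs_of_pos (hpos z)] at h1
    have h2 : nE (reP x) ^ 2 * k ≤ 1.01 := by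
      have h3 : nE (reP x) ≤ 1.0001 * (1 / Real.sqrt k) := by linarith
      have h4 : nE (reP x) ^ 2 ≤ (1.0001 * (1 / Real.sqrt k)) ^ 2 :=
        pow_le_pow_left₀ (nE_nonneg _) h3 2
      have h5 : (1.0001 * (1 / Real.sqrt k)) ^ 2 * k = 1.0001 ^ 2 := by
        rw [mul_pow, div_pow, Real.sq_sqrt hk0.le]
        field_simp
      calc nE (reP x) ^ 2 * k ≤ (1.0001 * (1 / Real.sqrt k)) ^ 2 * k := by gcongr
        _ = 1.0001 ^ 2 := h5
        _ ≤ 1.01 := by norm_num
    have h3 : Real.exp (-1) ≤ Real.exp (k / 2 * (0.998 * 0 ^ 2 - 1.002 * nE (reP x) ^ 2)) :=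
      Real.exp_le_exp.2 (by nlinarith)
    have h4 : ‖F 1‖ * Real.exp (-1) ≤ f z :=
      (mul_le_mul_of_nonneg_left h3 (norm_nonneg _)).trans h1
    linarith
  have hint : Integrable (fun z => f z) μ := integrable_of_cont h.cont
  calc Real.exp (-1) * ‖F 1‖ * μ.real (bl s : Set G)
      = ∫ _z in (bl s : Set G), Real.exp (-1) * ‖F 1‖ ∂μ := by
        rw [setIntegral_const, smul_eq_mul, mul_comm]
    _ ≤ ∫ z in (bl s : Set G), f z ∂μ :=
        setIntegral_mono_on (integrable_const _).integrableOn hint.integrableOn (bl_meas _) hpt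

/-- iterated doubling -/
lemma vol_iter (μ : Measure G) [IsProbabilityMeasure μ] [μ.IsMulLeftInvariant]
    [μ.IsMulRightInvariant] [μ.IsInvInvariant] (s : ℝ) (hs : 0 < s) : ∃ K : ℝ, 1 ≤ K ∧
    ∀ t : ℝ, 0 < t → μ.real (bl t : Set G) ≤ K * μ.real (bl (s * t) : Set G) := by
  obtain ⟨K, hK1, hK⟩ := vol_doubling μ
  have hK0 : 0 ≤ K := by linarith
  obtain ⟨m, hm⟩ := pow_unbounded_of_one_lt (1 / s) (one_lt_two (α := ℝ))
  refine ⟨K ^ m, one_le_pow₀ hK1, fun t ht => ?_⟩
  have h1 : ∀ j : ℕ, μ.real (bl (2 ^ j * (s * t)) : Set G) ≤ K ^ j * μ.real (bl (s * t) : Set G) := by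
    intro j
    induction j with
    | zero => simp
    | succ j ih =>
      have e : (2 : ℝ) ^ (j + 1) * (s * t) = 2 * (2 ^ j * (s * t)) := by rw [pow_succ]; ring
      rw [e]
      calc _ ≤ K * μ.real (bl (2 ^ j * (s * t)) : Set G) := hK _ (by positivity)
        _ ≤ K * (K ^ j * μ.real (bl (s * t) : Set G)) := by gcongr
        _ = _ := by rw [pow_succ]; ring
  refine le_trans (measureReal_mono (bl_mono ?_)) (h1 m)
  rw [div_lt_iff₀ hs] at hm
  nlinarith

end

end Pool.Agent.N991.MK
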