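import Mathlib
import Pool.Agent.N991.MK.Ent
import Pool.Agent.N991.MK.Vol

/-!
# Comparison of the means of two densities
-/

open MeasureTheory Matrix Filter Metric
open scoped Matrix.Norms.Frobenius ContDiff Topology
open Pool.Agent.H906R3.YM Pool.Agent.W793.YM Pool.Agent.TH618.YM Pool.Agent.N984.TW

namespace Pool.Agent.N991.MK

set_option linter.unusedSectionVars false

noncomputable section

/-- a mean value form of the difference of two exponentials -/
lemma exp_mv (p q : ℝ) : ∃ θ : ℝ, min (Real.exp p) (Real.exp q) ≤ θ ∧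
    θ ≤ max (Real.exp p) (Real.exp q) ∧ Real.exp p - Real.exp q = (p - q) * θ := by
  have h1 : Real.exp q * (p - q) ≤ Real.exp p - Real.exp q := by
    have := Real.add_one_le_exp (p - q)
    rw [Real.exp_sub, le_div_iff₀ (Real.exp_pos q)] at this
    linarith
  have h2 : Real.exp p * (q - p) ≤ Real.exp q - Real.exp p := by
    have := Real.add_one_le_exp (q - p)
    rw [Real.exp_sub, le_div_iff₀ (Real.exp_pos p)] at this
    linarith
  rcases lt_trichotomy p q with h | h | h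
  · refine ⟨(Real.exp p - Real.exp q) / (p - q), ?_, ?_, ?_⟩
    · refine (min_le_left _ _).trans ?_
      rw [le_div_iff_of_neg (by linarith)]
      linarith
    · refine le_trans ?_ (le_max_right _ _)
      rw [div_le_iff_of_neg (by linarith)]
      linarith
    · rw [mul_div_cancel₀]
      linarith
  · subst h
    exact ⟨Real.exp p, min_le_left _ _, le_max_left _ _, by ring⟩
  · refine ⟨(Real.exp p - Real.exp q) / (p - q), ?_, ?_, ?_⟩
    · refine (min_le_right _ _).trans ?_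
      rw [le_div_iff₀ (by linarith)]
      linarith
    · refine le_trans ?_ (le_max_left _ _)
      rw [div_le_iff₀ (by linarith)]
      linarith
    · rw [mul_div_cancel₀]
      linarith

/-- the pointwise inequality behind the lower bound -/
lemma pt_lower {w a δ l p q f : ℝ} (hw : 0 ≤ w) (ha : 0 ≤ a) (hδ : 0 ≤ δ) (hf : 0 ≤ f)
    (hl : 0 ≤ l) (hp : p = -(δ / 2 * a)) (hq : |q + δ / 2 * w| ≤ l * w ^ 2) :
    ∃ θ : ℝ, min (Real.exp p) (Real.exp q) ≤ θ ∧
      δ / 2 * (w - a) ^ 2 * θ * f ≤ (w - a) * (Real.exp p * f - Real.exp q * f) +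
        l * (w + a) * w ^ 2 * (Real.exp q * f + f) := by
  obtain ⟨θ, h1, h2, h3⟩ := exp_mv p q
  refine ⟨θ, h1, ?_⟩
  have hp1 : Real.exp p ≤ 1 := Real.exp_le_one_iff.2 (by rw [hp]; have := mul_nonneg hδ ha; linarith)
  have hθ0 : 0 ≤ θ := le_trans (le_min (Real.exp_pos p).le (Real.exp_pos q).le) h1
  have hθ : θ ≤ 1 + Real.exp q := by
    refine h2.trans (max_le ?_ ?_)
    · have := Real.exp_pos q; linarith
    · linarith
  obtain ⟨e, he⟩ : ∃ e, e = q + δ / 2 * w := ⟨_, rfl⟩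
  rw [← he] at hq
  have h4 : p - q = δ / 2 * (w - a) - e := by rw [hp, he]; ring
  have h5 : (w - a) * (Real.exp p * f - Real.exp q * f) = δ / 2 * (w - a) ^ 2 * θ * f -
      (w - a) * e * θ * f := by
    have : Real.exp p * f - Real.exp q * f = (Real.exp p - Real.exp q) * f := by ring
    rw [this, h3, h4]
    ring
  have h6 : |(w - a) * e * θ * f| ≤ (w + a) * (l * w ^ 2) * (1 + Real.exp q) * f := by
    rw [abs_mul, abs_mul, abs_mul, abs_of_nonneg hf, abs_of_nonneg hθ0]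
    have h7 : |w - a| ≤ w + a := by rw [abs_le]; constructor <;> linarith
    have := Real.exp_pos q
    gcongr
  have h8 := (abs_le.1 h6).2
  have h9 : l * (w + a) * w ^ 2 * (Real.exp q * f + f) =
      (w + a) * (l * w ^ 2) * (1 + Real.exp q) * f := by ring
  rw [h5, h9]
  linarith

/-- the pointwise upper bound of the difference -/
lemma pt_upper {q f : ℝ} (hf : 0 ≤ f) : |Real.exp q * f - f| ≤ |q| * (Real.exp q * f + f) := by
  obtain ⟨θ, h1, h2, h3⟩ := exp_mv q 0
  rw [Real.exp_zero, sub_zero] at h3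
  rw [Real.exp_zero] at h1 h2
  have hθ0 : 0 ≤ θ := le_trans (le_min (Real.exp_pos q).le zero_le_one) h1
  have hθ : θ ≤ Real.exp q + 1 := by
    refine h2.trans (max_le ?_ ?_)
    · linarith
    · have := Real.exp_pos q; linarith
  have h4 : Real.exp q * f - f = q * θ * f := by
    have : Real.exp q * f - f = (Real.exp q - 1) * f := by ring
    rw [this, h3]
  rw [h4, abs_mul, abs_mul, abs_of_nonneg hf, abs_of_nonneg hθ0]
  calc |q| * θ * f ≤ |q| * (Real.exp q + 1) * f := by gcongr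
    _ = _ := by ring

variable {N n : ℕ} {G : Subgroup (UN N)}
variable [CompactSpace G] [MeasurableSpace G] [BorelSpace G]

/-- the comparison of two densities -/
structure RP (r δ l τ : ℝ) (f1 f2 : G → ℝ) : Prop where
  near : ∀ z : G, nN z ≤ r / 4 →
    |Real.log (f1 z) - Real.log (f2 z) + δ / 2 * nN z ^ 2| ≤ l * nN z ^ 4
  far : ∀ z : G, r / 4 ≤ nN z → |f1 z - f2 z| ≤ τ

lemma RP.symm {r δ l τ : ℝ} {f1 f2 : G → ℝ} (h : RP r δ l τ f1 f2) : RP r (-δ) l τ f2 f1 := by
  refine ⟨fun z hz => ?_, fun z hz => ?_⟩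
  · rw [← abs_neg]
    refine le_trans (le_of_eq ?_) (h.near z hz)
    congr 1
    ring
  · rw [abs_sub_comm]
    exact h.far z hz

/-- the bounds of the moments -/
structure Mo (μ : Measure G) (r k m : ℝ) (f : G → ℝ) : Prop where
  m1 : ∫ z in {z : G | nN z ≤ r / 4}, f z * nN z ^ 2 ∂μ ≤ m / k * ∫ z, f z ∂μ
  m2 : ∫ z in {z : G | nN z ≤ r / 4}, f z * nN z ^ 4 ∂μ ≤ m / k ^ 2 * ∫ z, f z ∂μ
  m3 : ∫ z in {z : G | nN z ≤ r / 4}, f z * nN z ^ 6 ∂μ ≤ m / k ^ 3 * ∫ z, f z ∂μ
  m4 : ∫ z in {z : G | nN z ≤ r / 4}, f z * nN z ^ 8 ∂μ ≤ m / k ^ 4 * ∫ z, f z ∂μ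

lemma f_eq {f1 f2 : G → ℝ} (p1 : ∀ x, 0 < f1 x) (p2 : ∀ x, 0 < f2 x) (z : G) :
    f1 z = Real.exp (Real.log (f1 z) - Real.log (f2 z)) * f2 z := by
  rw [Real.exp_sub, Real.exp_log (p1 z), Real.exp_log (p2 z), div_mul_cancel₀ _ (p2 z).ne']

/-- **lower bound of the difference of the means of the squared distance** -/
theorem core_lower (μ : Measure G) [IsProbabilityMeasure μ] [μ.IsMulLeftInvariant]
    [μ.IsMulRightInvariant] [μ.IsInvInvariant] {f1 f2 : G → ℝ}
    (c1 : Continuous f1) (c2 : Continuous f2) (p1 : ∀ x, 0 < f1 x) (p2 : ∀ x, 0 < f2 x)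
    {r k δ l τ τ' a0 a1 m c a s0 A : ℝ} (hk : 0 < k) (hδ : 0 ≤ δ) (hl : 0 ≤ l) (hτ : 0 ≤ τ)
    (hτ' : 0 ≤ τ') (hp : RP r δ l τ f1 f2) (hf2 : ∀ z : G, r / 4 ≤ nN z → f2 z ≤ τ')
    (ha : ∫ z, f2 z * nN z ^ 2 ∂μ = a * ∫ z, f2 z ∂μ) (ha0 : a0 / k ≤ a) (ha1 : a ≤ a1 / k)
    (ha00 : 0 ≤ a0) (M1 : Mo μ r k m f1) (M2 : Mo μ r k m f2)
    (hball : c * ∫ z, f2 z ∂μ ≤ ∫ z in (bl s0 : Set G), f2 z ∂μ) (hs0 : s0 ^ 2 ≤ a0 / (2 * k))
    (hs1 : s0 ≤ r / 4) (hδk : δ * a1 ≤ 2 * A * k) (hlk : l * a0 ^ 2 ≤ 2 * A * k ^ 2)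
    (hk1 : a1 ≤ 2 * k) :
    δ * (c * Real.exp (-A) * a0 ^ 2 / (8 * k ^ 2)) * (∫ z, f2 z ∂μ) -
      l * (m + a1 * m) / k ^ 3 * ((∫ z, f1 z ∂μ) + ∫ z, f2 z ∂μ) - 4 * N * (τ + δ * τ') ≤
      a * (∫ z, f1 z ∂μ) - ∫ z, f1 z * nN z ^ 2 ∂μ := by
  obtain ⟨p, hpdef⟩ : ∃ p, p = -(δ / 2 * a) := ⟨_, rfl⟩
  obtain ⟨I1, hI1⟩ : ∃ I, I = ∫ z, f1 z ∂μ := ⟨_, rfl⟩
  obtain ⟨I2, hI2⟩ : ∃ I, I = ∫ z, f2 z ∂μ := ⟨_, rfl⟩
  have ci : ∀ {φ : G → ℝ}, Continuous φ → Integrable φ μ := fun h => integrable_of_cont h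
  have cN : Continuous (nN : G → ℝ) := nN_cont
  have hI1p : 0 ≤ I1 := by rw [hI1]; exact integral_nonneg fun z => (p1 z).le
  have hI2p : 0 < I2 := by
    rw [hI2, integral_pos_iff_support_of_nonneg (fun z => (p2 z).le) (ci c2)]
    have h3 : Function.support f2 = Set.univ := by
      ext z; simp [(p2 z).ne']
    rw [h3, measure_univ]
    exact one_pos
  have ha' : 0 ≤ a := le_trans (by positivity) ha0
  have ha1' : 0 ≤ a1 := by
    have h1 : a0 / k ≤ a1 / k := ha0.trans ha1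
    rw [div_le_div_iff_of_pos_right hk] at h1
    linarith
  have hw4 : ∀ z : G, nN z ^ 2 ≤ 4 * N := by
    intro z
    have h6 := pow_le_pow_left₀ (nN_nonneg z) (nN_le z) 2
    rw [mul_pow, Real.sq_sqrt (Nat.cast_nonneg N)] at h6
    linarith
  have ha4 : a ≤ 4 * N := by
    have h1 : ∫ z, f2 z * nN z ^ 2 ∂μ ≤ ∫ z, f2 z * (4 * N) ∂μ := by
      refine integral_mono (ci (c2.mul (cN.pow 2))) (ci (c2.mul continuous_const)) fun z => ?_
      exact mul_le_mul_of_nonneg_left (hw4 z) (p2 z).le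
    rw [ha, integral_mul_const, ← hI2, mul_comm] at h1
    exact le_of_mul_le_mul_left h1 hI2p
  -- the basic identity
  have e1 : a * I1 - ∫ z, f1 z * nN z ^ 2 ∂μ =
      ∫ z, (nN z ^ 2 - a) * (Real.exp p * f2 z - f1 z) ∂μ := by
    have h1 : ∀ z, (nN z ^ 2 - a) * (Real.exp p * f2 z - f1 z) =
        (Real.exp p * (f2 z * nN z ^ 2) - Real.exp p * a * f2 z) - (f1 z * nN z ^ 2 - a * f1 z) := by
      intro z; ring
    have i1 : Integrable (fun z : G => Real.exp p * (f2 z * nN z ^ 2)) μ :=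
      ci (continuous_const.mul (c2.mul (cN.pow 2)))
    have i2 : Integrable (fun z : G => Real.exp p * a * f2 z) μ := ci (continuous_const.mul c2)
    have i3 : Integrable (fun z : G => f1 z * nN z ^ 2) μ := ci (c1.mul (cN.pow 2))
    have i4 : Integrable (fun z : G => a * f1 z) μ := ci (continuous_const.mul c1)
    have i12 : Integrable (fun z : G => Real.exp p * (f2 z * nN z ^ 2) -
      Real.exp p * a * f2 z) μ := i1.sub i2
    have i34 : Integrable (fun z : G => f1 z * nN z ^ 2 - a * f1 z) μ := i3.sub i4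
    rw [integral_congr_ae (Eventually.of_forall h1), integral_sub i12 i34,
      integral_sub i1 i2, integral_sub i3 i4, integral_const_mul, integral_const_mul,
      integral_const_mul, ha, ← hI1, ← hI2]
    ring
  have cφ : Continuous fun z : G => (nN z ^ 2 - a) * (Real.exp p * f2 z - f1 z) :=
    ((cN.pow 2).sub continuous_const).mul ((continuous_const.mul c2).sub c1)
  have cψ : Continuous fun z : G => l * (nN z ^ 2 + a) * (nN z ^ 2) ^ 2 * (f1 z + f2 z) :=
    ((continuous_const.mul ((cN.pow 2).add continuous_const)).mul ((cN.pow 2).pow 2)).mul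
      (c1.add c2)
  have hm : MeasurableSet {z : G | nN z ≤ r / 4} :=
    (isClosed_le nN_cont continuous_const).measurableSet
  -- the near part
  have near1 : ∀ z : G, nN z ≤ r / 4 → ∃ θ, min (Real.exp p) (f1 z / f2 z) ≤ θ ∧
      δ / 2 * (nN z ^ 2 - a) ^ 2 * θ * f2 z ≤ (nN z ^ 2 - a) * (Real.exp p * f2 z - f1 z) +
        l * (nN z ^ 2 + a) * (nN z ^ 2) ^ 2 * (f1 z + f2 z) := by
    intro z hz
    have h1 := hp.near z hz
    have h2 : nN z ^ 4 = (nN z ^ 2) ^ 2 := by ring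
    rw [h2] at h1
    obtain ⟨θ, t1, t2⟩ := pt_lower (w := nN z ^ 2) (a := a) (δ := δ) (l := l) (p := p)
      (q := Real.log (f1 z) - Real.log (f2 z)) (f := f2 z) (by positivity) ha' hδ (p2 z).le hl
      hpdef h1
    have h3 : Real.exp (Real.log (f1 z) - Real.log (f2 z)) = f1 z / f2 z := by
      rw [Real.exp_sub, Real.exp_log (p1 z), Real.exp_log (p2 z)]
    rw [← f_eq p1 p2 z] at t2
    rw [h3] at t1
    exact ⟨θ, t1, t2⟩
  have near0 : ∀ z : G, nN z ≤ r / 4 → 0 ≤ (nN z ^ 2 - a) * (Real.exp p * f2 z - f1 z) +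
        l * (nN z ^ 2 + a) * (nN z ^ 2) ^ 2 * (f1 z + f2 z) := by
    intro z hz
    obtain ⟨θ, t1, t2⟩ := near1 z hz
    refine le_trans ?_ t2
    have h1 : 0 ≤ θ := le_trans (le_min (Real.exp_pos p).le (div_pos (p1 z) (p2 z)).le) t1
    have := (p2 z).le
    positivity
  have nearb : ∀ z ∈ (bl s0 : Set G), δ / 2 * (a0 / (2 * k)) ^ 2 * Real.exp (-A) * f2 z ≤
      (nN z ^ 2 - a) * (Real.exp p * f2 z - f1 z) +
        l * (nN z ^ 2 + a) * (nN z ^ 2) ^ 2 * (f1 z + f2 z) := by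
    intro z hz
    have hz1 : nN z ≤ s0 := hz
    have hz2 : nN z ≤ r / 4 := hz1.trans hs1
    obtain ⟨θ, t1, t2⟩ := near1 z hz2
    refine le_trans ?_ t2
    have hw : nN z ^ 2 ≤ a0 / (2 * k) := (pow_le_pow_left₀ (nN_nonneg z) hz1 2).trans hs0
    have hw0 : 0 ≤ nN z ^ 2 := by positivity
    have h2k : a0 / (2 * k) = a0 / k / 2 := by field_simp
    have h1 : (a0 / (2 * k)) ^ 2 ≤ (nN z ^ 2 - a) ^ 2 := by
      have : a0 / (2 * k) ≤ a - nN z ^ 2 := by rw [h2k] at hw ⊢; linarith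
      have h2 := pow_le_pow_left₀ (by positivity) this 2
      calc _ ≤ (a - nN z ^ 2) ^ 2 := h2
        _ = _ := by ring
    have h3 : Real.exp (-A) ≤ θ := by
      refine le_trans (le_min ?_ ?_) t1
      · refine Real.exp_le_exp.2 ?_
        rw [hpdef]
        have h4 : δ * a ≤ δ * (a1 / k) := mul_le_mul_of_nonneg_left ha1 hδ
        have h5 : δ * (a1 / k) ≤ 2 * A := by
          rw [mul_div_assoc', div_le_iff₀ hk]; exact hδk
        linarith
      · have h4 : f1 z / f2 z = Real.exp (Real.log (f1 z) - Real.log (f2 z)) := by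
          rw [Real.exp_sub, Real.exp_log (p1 z), Real.exp_log (p2 z)]
        rw [h4]
        refine Real.exp_le_exp.2 ?_
        have h5 := (abs_le.1 (hp.near z hz2)).1
        have h6 : δ / 2 * nN z ^ 2 ≤ A / 2 := by
          have h7 : δ * nN z ^ 2 ≤ δ * (a0 / (2 * k)) := mul_le_mul_of_nonneg_left hw hδ
          have h8 : δ * (a0 / (2 * k)) ≤ A := by
            rw [mul_div_assoc', div_le_iff₀ (by positivity), show A * (2 * k) = 2 * A * k by ring]
            have h9 : a0 ≤ a1 := by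
              have h1 : a0 / k ≤ a1 / k := ha0.trans ha1
              rwa [div_le_div_iff_of_pos_right hk] at h1
            exact (mul_le_mul_of_nonneg_left h9 hδ).trans hδk
          linarith
        have h7 : l * nN z ^ 4 ≤ A / 2 := by
          have h8 : nN z ^ 4 ≤ (a0 / (2 * k)) ^ 2 := by
            calc nN z ^ 4 = (nN z ^ 2) ^ 2 := by ring
              _ ≤ _ := pow_le_pow_left₀ hw0 hw 2
          calc l * nN z ^ 4 ≤ l * (a0 / (2 * k)) ^ 2 := mul_le_mul_of_nonneg_left h8 hl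
            _ = l * a0 ^ 2 / (4 * k ^ 2) := by rw [div_pow]; ring
            _ ≤ A / 2 := by
                rw [div_le_iff₀ (by positivity)]
                linarith
        linarith
    have := (p2 z).le
    gcongr
  have s1 : δ / 2 * (a0 / (2 * k)) ^ 2 * Real.exp (-A) * (c * I2) ≤
      ∫ z in {z : G | nN z ≤ r / 4}, ((nN z ^ 2 - a) * (Real.exp p * f2 z - f1 z) +
        l * (nN z ^ 2 + a) * (nN z ^ 2) ^ 2 * (f1 z + f2 z)) ∂μ := by
    have i0 : Integrable (fun z : G => (nN z ^ 2 - a) * (Real.exp p * f2 z - f1 z) +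
        l * (nN z ^ 2 + a) * (nN z ^ 2) ^ 2 * (f1 z + f2 z)) μ := ci (cφ.add cψ)
    calc δ / 2 * (a0 / (2 * k)) ^ 2 * Real.exp (-A) * (c * I2)
        ≤ δ / 2 * (a0 / (2 * k)) ^ 2 * Real.exp (-A) * ∫ z in (bl s0 : Set G), f2 z ∂μ := by
          rw [hI2]
          exact mul_le_mul_of_nonneg_left hball (by positivity)
      _ = ∫ z in (bl s0 : Set G), δ / 2 * (a0 / (2 * k)) ^ 2 * Real.exp (-A) * f2 z ∂μ :=
          (integral_const_mul _ _).symm
      _ ≤ ∫ z in (bl s0 : Set G), ((nN z ^ 2 - a) * (Real.exp p * f2 z - f1 z) +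
        l * (nN z ^ 2 + a) * (nN z ^ 2) ^ 2 * (f1 z + f2 z)) ∂μ :=
          setIntegral_mono_on (ci (continuous_const.mul c2)).integrableOn i0.integrableOn
            (bl_meas _) nearb
      _ ≤ _ := by
          refine setIntegral_mono_set i0.integrableOn ?_ ?_
          · exact (ae_restrict_mem hm).mono fun z hz => near0 z hz
          · exact Eventually.of_forall (bl_mono hs1)
  have s2 : ∫ z in {z : G | nN z ≤ r / 4},
      l * (nN z ^ 2 + a) * (nN z ^ 2) ^ 2 * (f1 z + f2 z) ∂μ ≤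
      l * (m + a1 * m) / k ^ 3 * (I1 + I2) := by
    have h1 : ∀ z, l * (nN z ^ 2 + a) * (nN z ^ 2) ^ 2 * (f1 z + f2 z) =
        l * (f1 z * nN z ^ 6 + f2 z * nN z ^ 6) + l * a * (f1 z * nN z ^ 4 + f2 z * nN z ^ 4) := by
      intro z; ring
    have j1 : Integrable (fun z : G => f1 z * nN z ^ 6) μ := ci (c1.mul (cN.pow 6))
    have j2 : Integrable (fun z : G => f2 z * nN z ^ 6) μ := ci (c2.mul (cN.pow 6))
    have j3 : Integrable (fun z : G => f1 z * nN z ^ 4) μ := ci (c1.mul (cN.pow 4))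
    have j4 : Integrable (fun z : G => f2 z * nN z ^ 4) μ := ci (c2.mul (cN.pow 4))
    have j5 : IntegrableOn (fun z : G => l * (f1 z * nN z ^ 6 + f2 z * nN z ^ 6))
      {z : G | nN z ≤ r / 4} μ := ((j1.add j2).const_mul _).integrableOn
    have j6 : IntegrableOn (fun z : G => l * a * (f1 z * nN z ^ 4 + f2 z * nN z ^ 4))
      {z : G | nN z ≤ r / 4} μ := ((j3.add j4).const_mul _).integrableOn
    rw [integral_congr_ae (Eventually.of_forall h1), integral_add j5 j6, integral_const_mul,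
      integral_const_mul, integral_add j1.integrableOn j2.integrableOn,
      integral_add j3.integrableOn j4.integrableOn]
    have b1 := M1.m3
    have b2 := M2.m3
    have b3 := M1.m2
    have b4 := M2.m2
    rw [← hI1] at b1 b3
    rw [← hI2] at b2 b4
    have j7 : 0 ≤ ∫ z in {z : G | nN z ≤ r / 4}, f1 z * nN z ^ 4 ∂μ :=
      setIntegral_nonneg hm fun z _ => by have := (p1 z).le; positivity
    have j8 : 0 ≤ ∫ z in {z : G | nN z ≤ r / 4}, f2 z * nN z ^ 4 ∂μ :=
      setIntegral_nonneg hm fun z _ => by have := (p2 z).le; positivity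
    calc l * ((∫ z in {z : G | nN z ≤ r / 4}, f1 z * nN z ^ 6 ∂μ) +
          ∫ z in {z : G | nN z ≤ r / 4}, f2 z * nN z ^ 6 ∂μ) + l * a *
          ((∫ z in {z : G | nN z ≤ r / 4}, f1 z * nN z ^ 4 ∂μ) +
            ∫ z in {z : G | nN z ≤ r / 4}, f2 z * nN z ^ 4 ∂μ)
        ≤ l * (m / k ^ 3 * I1 + m / k ^ 3 * I2) + l * (a1 / k) *
          (m / k ^ 2 * I1 + m / k ^ 2 * I2) := by
          refine add_le_add (mul_le_mul_of_nonneg_left (add_le_add b1 b2) hl)
            (mul_le_mul (mul_le_mul_of_nonneg_left ha1 hl) (add_le_add b3 b4) (by positivity)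
              (by positivity))
      _ = _ := by
          field_simp
  have s3 : |∫ z in {z : G | nN z ≤ r / 4}ᶜ, (nN z ^ 2 - a) * (Real.exp p * f2 z - f1 z) ∂μ| ≤
      4 * N * (τ + δ * τ') := by
    have h3 : ‖∫ z in {z : G | nN z ≤ r / 4}ᶜ, (nN z ^ 2 - a) * (Real.exp p * f2 z - f1 z) ∂μ‖ ≤
        4 * N * (τ + δ * τ') * μ.real {z : G | nN z ≤ r / 4}ᶜ :=
      norm_setIntegral_le_of_norm_le_const (measure_lt_top μ _) fun z hz => by
        have hz1 : r / 4 ≤ nN z := by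
          have : ¬ nN z ≤ r / 4 := hz
          exact (not_le.1 this).le
        rw [norm_mul, Real.norm_eq_abs, Real.norm_eq_abs]
        have h4 : |nN z ^ 2 - a| ≤ 4 * N := by
          have h5 := hw4 z
          have h6 : 0 ≤ nN z ^ 2 := by positivity
          rw [abs_le]; constructor <;> linarith
        have h5 : |Real.exp p * f2 z - f1 z| ≤ τ + δ * τ' := by
          have h6 := hp.far z hz1
          have h7 := hf2 z hz1
          have h8 : 1 - Real.exp p ≤ δ := by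
            have h9 := Real.add_one_le_exp p
            have h10 : δ / 2 * a ≤ δ := by
              have : a ≤ 2 := ha1.trans (by rw [div_le_iff₀ hk]; linarith)
              calc δ / 2 * a ≤ δ / 2 * 2 := by gcongr
                _ = δ := by ring
            rw [hpdef] at h9 ⊢
            linarith
          have h9 : 0 ≤ 1 - Real.exp p := by
            have : Real.exp p ≤ 1 := Real.exp_le_one_iff.2
              (by rw [hpdef]; have := mul_nonneg hδ ha'; linarith)
            linarith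
          have h10 : Real.exp p * f2 z - f1 z = -(f1 z - f2 z) - (1 - Real.exp p) * f2 z := by ring
          rw [h10]
          refine (abs_sub _ _).trans (add_le_add (by rwa [abs_neg]) ?_)
          rw [abs_mul, abs_of_nonneg h9, abs_of_pos (p2 z)]
          exact mul_le_mul h8 h7 (p2 z).le hδ
        exact mul_le_mul h4 h5 (abs_nonneg _) (by positivity)
    rw [Real.norm_eq_abs] at h3
    refine h3.trans ?_
    calc 4 * N * (τ + δ * τ') * μ.real {z : G | nN z ≤ r / 4}ᶜ ≤ 4 * N * (τ + δ * τ') * 1 := by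
          refine mul_le_mul_of_nonneg_left measureReal_le_one (by positivity)
      _ = _ := mul_one _
  rw [← hI1, ← hI2, e1, ← integral_add_compl hm (ci cφ)]
  rw [integral_add (ci cφ).integrableOn (ci cψ).integrableOn] at s1
  have s3' := (abs_le.1 s3).1
  have e5 : δ * (c * Real.exp (-A) * a0 ^ 2 / (8 * k ^ 2)) * I2 =
      δ / 2 * (a0 / (2 * k)) ^ 2 * Real.exp (-A) * (c * I2) := by
    field_simp
    ring
  rw [e5]
  linarith

end

end Pool.Agent.N991.MK
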