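import Mathlib
import Pool.Agent.N991.MK.Fm4
import Pool.Agent.N991.MK.Lip2

/-!
# Comparison of the means of two densities: general observables
-/

open MeasureTheory Matrix Filter Metric
open scoped Matrix.Norms.Frobenius ContDiff Topology
open Pool.Agent.H906R3.YM Pool.Agent.W793.YM Pool.Agent.TH618.YM Pool.Agent.N984.TW

namespace Pool.Agent.N991.MK

set_option linter.unusedSectionVars false

noncomputable section

variable {N n : ℕ} {G : Subgroup (UN N)}
variable [CompactSpace G] [MeasurableSpace G] [BorelSpace G]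

/-- the moments of the states -/
theorem mo_of (B : Frame G n) (μ : Measure G) [IsProbabilityMeasure μ] [μ.IsMulLeftInvariant]
    [μ.IsMulRightInvariant] [μ.IsInvInvariant] : ∃ m : ℝ, 0 < m ∧ ∀ {r : ℝ}, GoodR B r →
    ∀ {k M : ℝ} {f : G → ℝ} {F : (Mat N)ˣ → ℂ}, 16 / r ^ 2 ≤ k → M * r ^ 2 ≤ k / 1000 →
      CF f F → (∀ x, 0 < f x) → NearS B r k M F → Mo μ r k m f := by
  obtain ⟨m1, h1, hm1⟩ := moments1 (B := B) μ 1
  obtain ⟨m2, h2, hm2⟩ := moments1 (B := B) μ 2
  obtain ⟨m3, h3, hm3⟩ := moments1 (B := B) μ 3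
  obtain ⟨m4, h4, hm4⟩ := moments1 (B := B) μ 4
  refine ⟨m1 + m2 + m3 + m4, by positivity, fun {r} hr {k M f F} hk hM h hpos hn => ?_⟩
  have hp := hr.pos
  have hk0 : 0 < k := lt_of_lt_of_le (by positivity) hk
  have hI : 0 ≤ ∫ z, f z ∂μ := integral_nonneg fun z => (hpos z).le
  have a1 := hm1 hr hk hM h hpos hn
  have a2 := hm2 hr hk hM h hpos hn
  have a3 := hm3 hr hk hM h hpos hn
  have a4 := hm4 hr hk hM h hpos hn
  refine ⟨?_, ?_, ?_, ?_⟩
  · rw [pow_one] at a1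
    rw [div_mul_eq_mul_div, le_div_iff₀ (by positivity), mul_comm]
    exact a1.trans (mul_le_mul_of_nonneg_right (by linarith) hI)
  · rw [div_mul_eq_mul_div, le_div_iff₀ (by positivity), mul_comm]
    exact a2.trans (mul_le_mul_of_nonneg_right (by linarith) hI)
  · rw [div_mul_eq_mul_div, le_div_iff₀ (by positivity), mul_comm]
    exact a3.trans (mul_le_mul_of_nonneg_right (by linarith) hI)
  · rw [div_mul_eq_mul_div, le_div_iff₀ (by positivity), mul_comm]
    exact a4.trans (mul_le_mul_of_nonneg_right (by linarith) hI)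

/-- **the difference of the means of a quartic observable** -/
theorem core_obs (μ : Measure G) [IsProbabilityMeasure μ] [μ.IsMulLeftInvariant]
    [μ.IsMulRightInvariant] [μ.IsInvInvariant] {f1 f2 h : G → ℝ}
    (c1 : Continuous f1) (c2 : Continuous f2) (ch : Continuous h) (p1 : ∀ x, 0 < f1 x)
    (p2 : ∀ x, 0 < f2 x) {r k δ l τ m H H0 b b0 : ℝ} (hk : 0 < k) (hδ : 0 ≤ δ) (hl : 0 ≤ l)
    (hτ : 0 ≤ τ) (hp : RP r δ l τ f1 f2) (hb : ∫ z, f2 z * h z ∂μ = b * ∫ z, f2 z ∂μ)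
    (hb0 : |b| ≤ b0 / k ^ 2) (hH : ∀ z : G, nN z ≤ r / 4 → |h z| ≤ H * nN z ^ 4)
    (hH0 : ∀ z : G, |h z| ≤ H0) (hHp : 0 ≤ H) (hb00 : 0 ≤ b0)
    (M1 : Mo μ r k m f1) (M2 : Mo μ r k m f2) :
    |(∫ z, f1 z * h z ∂μ) - b * ∫ z, f1 z ∂μ| ≤
      (δ / 2 * ((H + b0) * m) / k ^ 3 + l * ((H + b0) * m) / k ^ 4) *
        ((∫ z, f1 z ∂μ) + ∫ z, f2 z ∂μ) + (H0 + b0 / k ^ 2) * τ := by
  obtain ⟨I1, hI1⟩ : ∃ I, I = ∫ z, f1 z ∂μ := ⟨_, rfl⟩
  obtain ⟨I2, hI2⟩ : ∃ I, I = ∫ z, f2 z ∂μ := ⟨_, rfl⟩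
  have ci : ∀ {φ : G → ℝ}, Continuous φ → Integrable φ μ := fun h => integrable_of_cont h
  have cN : Continuous (nN : G → ℝ) := nN_cont
  have hH00 : 0 ≤ H0 := (abs_nonneg _).trans (hH0 1)
  have e1 : (∫ z, f1 z * h z ∂μ) - b * I1 = ∫ z, (h z - b) * (f1 z - f2 z) ∂μ := by
    have h1 : ∀ z, (h z - b) * (f1 z - f2 z) =
        (f1 z * h z - b * f1 z) - (f2 z * h z - b * f2 z) := by
      intro z; ring
    have i1 : Integrable (fun z : G => f1 z * h z) μ := ci (c1.mul ch)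
    have i2 : Integrable (fun z : G => b * f1 z) μ := ci (continuous_const.mul c1)
    have i3 : Integrable (fun z : G => f2 z * h z) μ := ci (c2.mul ch)
    have i4 : Integrable (fun z : G => b * f2 z) μ := ci (continuous_const.mul c2)
    have i12 : Integrable (fun z : G => f1 z * h z - b * f1 z) μ := i1.sub i2
    have i34 : Integrable (fun z : G => f2 z * h z - b * f2 z) μ := i3.sub i4
    rw [integral_congr_ae (Eventually.of_forall h1), integral_sub i12 i34,
      integral_sub i1 i2, integral_sub i3 i4, integral_const_mul, integral_const_mul, hb, ← hI1]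
    ring
  have cφ : Continuous fun z : G => (h z - b) * (f1 z - f2 z) :=
    (ch.sub continuous_const).mul (c1.sub c2)
  have cψ : Continuous fun z : G => (H * nN z ^ 4 + b0 / k ^ 2) *
      ((δ / 2 * nN z ^ 2 + l * nN z ^ 4) * (f1 z + f2 z)) :=
    ((continuous_const.mul (cN.pow 4)).add continuous_const).mul
      (((continuous_const.mul (cN.pow 2)).add (continuous_const.mul (cN.pow 4))).mul (c1.add c2))
  have hm : MeasurableSet {z : G | nN z ≤ r / 4} :=
    (isClosed_le nN_cont continuous_const).measurableSet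
  have h1 := split_le μ (φ := fun z => (h z - b) * (f1 z - f2 z))
    (ψ := fun z => (H * nN z ^ 4 + b0 / k ^ 2) *
      ((δ / 2 * nN z ^ 2 + l * nN z ^ 4) * (f1 z + f2 z)))
    (s := r / 4) (A := (H0 + b0 / k ^ 2) * τ) cφ cψ (by positivity)
    (fun z hz => by
      rw [abs_mul]
      have q1 : |h z - b| ≤ H * nN z ^ 4 + b0 / k ^ 2 :=
        (abs_sub _ _).trans (add_le_add (hH z hz) hb0)
      have q2 : |f1 z - f2 z| ≤ (δ / 2 * nN z ^ 2 + l * nN z ^ 4) * (f1 z + f2 z) := by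
        have h3 := pt_upper (q := Real.log (f1 z) - Real.log (f2 z)) (p2 z).le
        rw [← f_eq p1 p2 z] at h3
        refine h3.trans (mul_le_mul_of_nonneg_right ?_ (by linarith [p1 z, p2 z]))
        have h4 := hp.near z hz
        have h5 : |δ / 2 * nN z ^ 2| = δ / 2 * nN z ^ 2 := abs_of_nonneg (by positivity)
        calc |Real.log (f1 z) - Real.log (f2 z)|
            = |(Real.log (f1 z) - Real.log (f2 z) + δ / 2 * nN z ^ 2) - δ / 2 * nN z ^ 2| := by
              congr 1; ring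
          _ ≤ l * nN z ^ 4 + δ / 2 * nN z ^ 2 :=
              (abs_sub _ _).trans (add_le_add h4 h5.le)
          _ = _ := by ring
      have := nN_nonneg z
      exact mul_le_mul q1 q2 (abs_nonneg _) (by positivity))
    (fun z hz => by
      rw [abs_mul]
      exact mul_le_mul ((abs_sub _ _).trans (add_le_add (hH0 z) hb0)) (hp.far z hz)
        (abs_nonneg _) (by positivity))
  rw [← hI1, ← hI2, e1]
  refine h1.trans (add_le_add ?_ le_rfl)
  have h2 : ∀ z, (H * nN z ^ 4 + b0 / k ^ 2) *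
      ((δ / 2 * nN z ^ 2 + l * nN z ^ 4) * (f1 z + f2 z)) =
      (H * (δ / 2) * (f1 z * nN z ^ 6 + f2 z * nN z ^ 6) +
      H * l * (f1 z * nN z ^ 8 + f2 z * nN z ^ 8)) +
      (b0 / k ^ 2 * (δ / 2) * (f1 z * nN z ^ 2 + f2 z * nN z ^ 2) +
      b0 / k ^ 2 * l * (f1 z * nN z ^ 4 + f2 z * nN z ^ 4)) := by
    intro z; ring
  have J : ∀ (c : ℝ) (j : ℕ), IntegrableOn (fun z : G => c * (f1 z * nN z ^ j + f2 z * nN z ^ j))
      {z : G | nN z ≤ r / 4} μ := fun c j =>
    ((((ci (c1.mul (cN.pow j))).add (ci (c2.mul (cN.pow j)))).const_mul c).integrableOn)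
  have J1 : ∀ (j : ℕ), IntegrableOn (fun z : G => f1 z * nN z ^ j)
      {z : G | nN z ≤ r / 4} μ := fun j => (ci (c1.mul (cN.pow j))).integrableOn
  have J2 : ∀ (j : ℕ), IntegrableOn (fun z : G => f2 z * nN z ^ j)
      {z : G | nN z ≤ r / 4} μ := fun j => (ci (c2.mul (cN.pow j))).integrableOn
  have J3 : IntegrableOn (fun z : G => H * (δ / 2) * (f1 z * nN z ^ 6 + f2 z * nN z ^ 6) +
      H * l * (f1 z * nN z ^ 8 + f2 z * nN z ^ 8)) {z : G | nN z ≤ r / 4} μ := (J _ 6).add (J _ 8)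
  have J4 : IntegrableOn (fun z : G => b0 / k ^ 2 * (δ / 2) * (f1 z * nN z ^ 2 + f2 z * nN z ^ 2) +
      b0 / k ^ 2 * l * (f1 z * nN z ^ 4 + f2 z * nN z ^ 4)) {z : G | nN z ≤ r / 4} μ :=
    (J _ 2).add (J _ 4)
  rw [integral_congr_ae (Eventually.of_forall h2), integral_add J3 J4,
    integral_add (J _ 6) (J _ 8), integral_add (J _ 2) (J _ 4), integral_const_mul,
    integral_const_mul, integral_const_mul, integral_const_mul,
    integral_add (J1 6) (J2 6), integral_add (J1 8) (J2 8), integral_add (J1 2) (J2 2),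
    integral_add (J1 4) (J2 4)]
  have b1 := M1.m3
  have b2 := M2.m3
  have b3 := M1.m4
  have b4 := M2.m4
  have b5 := M1.m1
  have b6 := M2.m1
  have b7 := M1.m2
  have b8 := M2.m2
  rw [← hI1] at b1 b3 b5 b7
  rw [← hI2] at b2 b4 b6 b8
  calc _ ≤ (H * (δ / 2) * (m / k ^ 3 * I1 + m / k ^ 3 * I2) +
        H * l * (m / k ^ 4 * I1 + m / k ^ 4 * I2)) +
        (b0 / k ^ 2 * (δ / 2) * (m / k * I1 + m / k * I2) +
        b0 / k ^ 2 * l * (m / k ^ 2 * I1 + m / k ^ 2 * I2)) := by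
        refine add_le_add (add_le_add
          (mul_le_mul_of_nonneg_left (add_le_add b1 b2) (by positivity))
          (mul_le_mul_of_nonneg_left (add_le_add b3 b4) (by positivity))) (add_le_add
          (mul_le_mul_of_nonneg_left (add_le_add b5 b6) (by positivity))
          (mul_le_mul_of_nonneg_left (add_le_add b7 b8) (by positivity)))
    _ = _ := by
        field_simp

/-- the mean of a quartic observable -/
lemma mean_quartic (μ : Measure G) [IsProbabilityMeasure μ] [μ.IsMulLeftInvariant]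
    [μ.IsMulRightInvariant] [μ.IsInvInvariant] {f2 h : G → ℝ} (c2 : Continuous f2)
    (ch : Continuous h) (p2 : ∀ x, 0 < f2 x) {r k m H H0 b τ' : ℝ} (hk : 0 < k)
    (hb : ∫ z, f2 z * h z ∂μ = b * ∫ z, f2 z ∂μ)
    (hH : ∀ z : G, nN z ≤ r / 4 → |h z| ≤ H * nN z ^ 4) (hH0 : ∀ z : G, |h z| ≤ H0)
    (hHp : 0 ≤ H) (M2 : Mo μ r k m f2) (hf2 : ∀ z : G, r / 4 ≤ nN z → f2 z ≤ τ') (hτ' : 0 ≤ τ')
    (hτk : k ^ 2 * τ' ≤ ∫ z, f2 z ∂μ) :
    |b| ≤ (H * m + H0) / k ^ 2 := by
  obtain ⟨I2, hI2⟩ : ∃ I, I = ∫ z, f2 z ∂μ := ⟨_, rfl⟩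
  have ci : ∀ {φ : G → ℝ}, Continuous φ → Integrable φ μ := fun h => integrable_of_cont h
  have cN : Continuous (nN : G → ℝ) := nN_cont
  have hH00 : 0 ≤ H0 := (abs_nonneg _).trans (hH0 1)
  have hI2p : 0 < I2 := by
    rw [hI2, integral_pos_iff_support_of_nonneg (fun z => (p2 z).le) (ci c2)]
    have h3 : Function.support f2 = Set.univ := by
      ext z; simp [(p2 z).ne']
    rw [h3, measure_univ]
    exact one_pos
  have h1 := split_le μ (φ := fun z => f2 z * h z) (ψ := fun z => H * (f2 z * nN z ^ 4))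
    (s := r / 4) (A := H0 * τ') (c2.mul ch) (continuous_const.mul (c2.mul (cN.pow 4)))
    (by positivity)
    (fun z hz => by
      rw [abs_mul, abs_of_pos (p2 z)]
      calc f2 z * |h z| ≤ f2 z * (H * nN z ^ 4) := mul_le_mul_of_nonneg_left (hH z hz) (p2 z).le
        _ = _ := by ring)
    (fun z hz => by
      rw [abs_mul, abs_of_pos (p2 z), mul_comm]
      exact mul_le_mul (hH0 z) (hf2 z hz) (p2 z).le hH00)
  rw [integral_const_mul, hb, abs_mul, ← hI2, abs_of_pos hI2p] at h1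
  have h2 := M2.m2
  rw [← hI2] at h2
  rw [← hI2] at hτk
  have h3 : |b| * I2 ≤ (H * m + H0) / k ^ 2 * I2 := by
    calc |b| * I2 ≤ H * (m / k ^ 2 * I2) + H0 * τ' :=
          h1.trans (add_le_add (mul_le_mul_of_nonneg_left h2 hHp) le_rfl)
      _ ≤ H * (m / k ^ 2 * I2) + H0 * (I2 / k ^ 2) := by
          have : τ' ≤ I2 / k ^ 2 := by rw [le_div_iff₀ (by positivity)]; linarith
          gcongr
      _ = _ := by ring
  exact le_of_mul_le_mul_right h3 hI2p

end

end Pool.Agent.N991.MK
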