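import Mathlib
import Pool.Agent.N991.MK.FmP
import Pool.Agent.N991.MK.WilT

/-!
# The character of a constituent is isotropic to second order
-/

open MeasureTheory Matrix Filter Metric
open scoped Matrix.Norms.Frobenius ContDiff Topology
open Pool.Agent.H906R3.YM Pool.Agent.W793.YM Pool.Agent.TH618.YM Pool.Agent.N984.TW
open Pool.Agent.N988.MK (IsoG Adx LX_Ad)

namespace Pool.Agent.N991.MK

set_option linter.unusedSectionVars false

noncomputable section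

variable {N n : ℕ} {G : Subgroup (UN N)} {P : Mat N}

lemma IPr.norm_Ad (hP : IPr G P) (g : G) (A : Mat N) : ‖P * (mt g * A * mt g⁻¹)‖ = ‖P * A‖ := by
  have h1 : P * (mt g * A * mt g⁻¹) = mt g * (P * A) * mt g⁻¹ := by
    calc P * (mt g * A * mt g⁻¹) = (P * mt g) * A * mt g⁻¹ := by noncomm_ring
      _ = (mt g * P) * A * mt g⁻¹ := by rw [hP.comm]
      _ = _ := by noncomm_ring
  rw [h1, norm_mul_unit, norm_mt_mul]

lemma PLX_sq (B : Frame G n) (x : Fin n → ℝ) : ‖P * LX B x‖ ^ 2 =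
    ∑ a, ∑ b, ip (P * B.X a) (P * B.X b) * (x a * x b) := by
  have h1 : P * LX B x = ∑ a, x a • (P * B.X a) := by
    unfold LX
    rw [Finset.mul_sum]
    exact Finset.sum_congr rfl fun a _ => mul_smul_comm _ _ _
  rw [norm_sq_ip, h1]
  rw [map_sum, Finset.sum_comm]
  refine Finset.sum_congr rfl fun b _ => ?_
  rw [map_smul, smul_eq_mul, ip_comm, map_sum, Finset.mul_sum]
  refine Finset.sum_congr rfl fun a _ => ?_
  rw [map_smul, smul_eq_mul, ip_comm]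
  ring

/-- the invariant form of the constituent -/
lemma IPr.iso (hP : IPr G P) (B : Frame G n) (hG : IsClosed (G : Set (UN N))) (hI : IsoG B) :
    ∃ lam : ℝ, 0 ≤ lam ∧ (∀ x, ‖P * LX B x‖ ^ 2 = lam * nE x ^ 2) ∧
      ∀ a, ‖P * B.X a‖ ^ 2 = lam := by
  obtain ⟨κ, hκ⟩ := hI (fun a b => ip (P * B.X a) (P * B.X b)) (fun a b => ip_comm _ _)
    (fun g x => by
      rw [← PLX_sq, ← PLX_sq, LX_Ad B hG, hP.norm_Ad])
  have h2 : ∀ a, ‖P * B.X a‖ ^ 2 = κ := by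
    intro a
    have := hκ a a
    rw [if_pos rfl] at this
    rw [norm_sq_ip]
    exact this
  rcases Nat.eq_zero_or_pos n with hn | hn
  · subst hn
    refine ⟨0, le_rfl, fun x => ?_, fun a => a.elim0⟩
    rw [PLX_sq]
    simp
  · refine ⟨κ, ?_, fun x => ?_, h2⟩
    · rw [← h2 ⟨0, hn⟩]; positivity
    · rw [PLX_sq, nE_sq, Finset.mul_sum]
      refine Finset.sum_congr rfl fun a _ => ?_
      rw [Finset.sum_eq_single a]
      · rw [hκ a a, if_pos rfl]; ring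
      · intro b _ hb
        rw [hκ a b, if_neg (Ne.symm hb), zero_mul]
      · intro h; exact absurd (Finset.mem_univ a) h

lemma wP_arith {P Y R : Mat N} {c : ℝ} (hP : Pᴴ = P) (hPP : P * P = P) (hY : Yᴴ = -Y)
    (hc : P * Y = Y * P) (hR : ‖R‖ ≤ c * ‖Y‖ ^ 4) {Z : Mat N}
    (hZ : Z = Y + (1 / 2 : ℂ) • Y ^ 2 + (1 / 6 : ℂ) • Y ^ 3 + R) :
    |-(2 * ip P Z) - ‖P * Y‖ ^ 2| ≤ 2 * ‖P‖ * c * ‖Y‖ ^ 4 := by
  have k1 := ip_skew hP hY hc 1 (by decide)
  have k3 := ip_skew hP hY hc 3 (by decide)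
  rw [pow_one] at k1
  have e2 : (1 / 2 : ℂ) = ((1 / 2 : ℝ) : ℂ) := by push_cast; ring
  have e6 : (1 / 6 : ℂ) = ((1 / 6 : ℝ) : ℂ) := by push_cast; ring
  have h3 : ip P Z = 1 / 2 * ip P (Y ^ 2) + ip P R := by
    rw [hZ, map_add, map_add, map_add, e2, e6, ip_rsmul, ip_rsmul, k1, k3]
    ring
  have h4 : ‖P * Y‖ ^ 2 = -ip P (Y ^ 2) := by
    rw [norm_sq_ip, ip_apply, ip_apply, conjTranspose_mul, hP, hY]
    have : -Y * P * (P * Y) = -(P * Y ^ 2) := by
      calc -Y * P * (P * Y) = -(Y * (P * P) * Y) := by noncomm_ring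
        _ = -((Y * P) * Y) := by rw [hPP]
        _ = -((P * Y) * Y) := by rw [hc]
        _ = _ := by noncomm_ring
    rw [this, trace_neg, Complex.neg_re]
  have h5 : -(2 * ip P Z) - ‖P * Y‖ ^ 2 = -(2 * ip P R) := by rw [h3, h4]; ring
  rw [h5, abs_neg, abs_mul, abs_of_pos (by norm_num : (0 : ℝ) < 2)]
  calc 2 * |ip P R| ≤ 2 * (‖P‖ * (c * ‖Y‖ ^ 4)) :=
        mul_le_mul_of_nonneg_left ((abs_ip_le _ _).trans
          (mul_le_mul_of_nonneg_left hR (norm_nonneg _))) (by norm_num)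
    _ = _ := by ring

/-- the second order expansion of the character -/
lemma IPr.wP_near (hP : IPr G P) (B : Frame G n) (hG : IsClosed (G : Set (UN N))) :
    ∃ Cw ρ : ℝ, 0 ≤ Cw ∧ 0 < ρ ∧ ∀ y : Fin n → ℝ, nE y < ρ →
      |wP P (Eg B hG y) - ‖P * LX B y‖ ^ 2| ≤ Cw * nE y ^ 4 := by
  obtain ⟨C, ε, hC, hε, hb⟩ := exp_taylor (N := N)
  refine ⟨2 * ‖P‖ * C, ε, by positivity, by positivity, fun y hy => ?_⟩
  have hYn : ‖LX B y‖ = nE y := Pool.Agent.N991.MK.norm_LX B y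
  have h3 := hb (LX B y) (by rw [hYn]; exact hy)
  have h4 := wP_arith (P := P) (Y := LX B y)
    (R := NormedSpace.exp (LX B y) - (1 + LX B y + (1 / 2 : ℂ) • LX B y ^ 2 +
      (1 / 6 : ℂ) • LX B y ^ 3)) (c := C) hP.herm hP.idem (LX_skew B y) (hP.commX B hG y) h3
    (Z := mt (Eg B hG y) - 1) (by
      rw [mt_Eg]
      unfold EM
      abel)
  rw [hYn] at h4
  have h5 : wP P (Eg B hG y) = -(2 * ip P (mt (Eg B hG y) - 1)) := by
    unfold wP
    have e : ip P (mt (Eg B hG y) - 1) = -(trace (P * (1 - mt (Eg B hG y)))).re := by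
      rw [ip_apply, hP.herm, ← Complex.neg_re, ← trace_neg]
      congr 2
      noncomm_ring
    rw [e]
    ring
  rw [h5]
  exact h4

end

end Pool.Agent.N991.MK
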