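import Mathlib
import Pool.Agent.N988.MK.Near
import Pool.Agent.N991.MK.Bil
import Pool.Agent.N991.MK.Lip2

/-!
# The pair data
-/

open MeasureTheory Matrix Filter Metric
open scoped Matrix.Norms.Frobenius ContDiff Topology
open Pool.Agent.H906R3.YM Pool.Agent.W793.YM Pool.Agent.TH618.YM Pool.Agent.N984.TW
open Pool.Agent.N988.MK (St qC qC_rl LN)

namespace Pool.Agent.N991.MK

set_option linter.unusedSectionVars false

noncomputable section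

variable {N n : ℕ} {G : Subgroup (UN N)} {B : Frame G n} {hG : IsClosed (G : Set (UN N))}
variable [CompactSpace G] [MeasurableSpace G] [BorelSpace G]

/-- the logarithm of a density near the identity -/
lemma log_near {r k M : ℝ} {f : G → ℝ} {F : (Mat N)ˣ → ℂ} {m : (Fin n → ℂ) → ℂ}
    (hs : St B r k M F m) (hf : CF f F) (hpos : ∀ x, 0 < f x) (h1 : F 1 = 1) {y : Fin n → ℝ}
    (hy : nE y < r) :
    Real.log (f (Eg B hG y)) = -(k / 2 * nE y ^ 2) - (m (rl y)).re := by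
  have e1 := hs.eq (rl y) (by rw [nC_rl]; exact hy)
  rw [h1, one_mul, uE_rl B hG, hf.res, qC_rl] at e1
  have e2 := congrArg norm e1
  rw [Complex.norm_exp, Complex.norm_real, Real.norm_eq_abs, abs_of_pos (hpos _)] at e2
  rw [e2, Real.log_exp, Complex.sub_re]
  congr 1
  rw [show (-(k / 2 : ℂ) * ((nE y ^ 2 : ℝ) : ℂ)) = ((-(k / 2) * nE y ^ 2 : ℝ) : ℂ) by push_cast; ring,
    Complex.ofReal_re]
  ring

/-- the comparison of the two densities of a pair -/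
lemma pair_rp {r₀ ρ Cn r κ k1 k2 M1 M2 l T : ℝ} (hgr : GoodR B r) (hl : LN B hG r₀)
    (hrr₀ : r ≤ r₀) (hrρ : r ≤ ρ)
    (hw : ∀ y : Fin n → ℝ, nE y < ρ → |nN (Eg B hG y) ^ 2 - nE y ^ 2| ≤ Cn * nE y ^ 4)
    (hCn : 0 ≤ Cn) (hκ : 0 ≤ κ) (hT : 0 ≤ T) (hl0 : 0 ≤ l)
    {f1 f2 : G → ℝ} {F1 F2 : (Mat N)ˣ → ℂ} {m1 m2 : (Fin n → ℂ) → ℂ}
    (hf1 : CF f1 F1) (hf2 : CF f2 F2) (p1 : ∀ x, 0 < f1 x) (p2 : ∀ x, 0 < f2 x)
    (n1 : F1 1 = 1) (n2 : F2 1 = 1) (hs1 : St B r k1 M1 F1 m1) (hs2 : St B r k2 M2 F2 m2)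
    (hm : ∀ x, nC x < r → ‖m2 x - m1 x‖ ≤ l * nC x ^ 4)
    (hTB : TB B r κ T (fun u => F2 u - F1 u)) :
    RP r (k1 - k2) (2.5 * (|k1 - k2| / 2 * Cn + l)) (T * Real.exp (-(0.03 * r ^ 2 * κ))) f1 f2 := by
  have hp := hgr.pos
  refine ⟨fun z hz => ?_, fun z hz => ?_⟩
  · obtain ⟨y, hy, hy2⟩ := hl.lg z (by linarith)
    have hN0 := nN_nonneg z
    have hy0 := nE_nonneg y
    have hyr : nE y < r := by linarith
    have e1 := log_near (hG := hG) hs1 hf1 p1 n1 hyr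
    have e2 := log_near (hG := hG) hs2 hf2 p2 n2 hyr
    have e3 := hw y (by linarith)
    rw [hy] at e1 e2 e3
    have e4 := hm (rl y) (by rw [nC_rl]; exact hyr)
    rw [nC_rl] at e4
    have e5 : |(m2 (rl y)).re - (m1 (rl y)).re| ≤ l * nE y ^ 4 := by
      rw [← Complex.sub_re]
      exact (Complex.abs_re_le_norm _).trans e4
    have e6 : Real.log (f1 z) - Real.log (f2 z) + (k1 - k2) / 2 * nN z ^ 2 =
        (k1 - k2) / 2 * (nN z ^ 2 - nE y ^ 2) + ((m2 (rl y)).re - (m1 (rl y)).re) := by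
      rw [e1, e2]; ring
    have e7 : |(k1 - k2) / 2 * (nN z ^ 2 - nE y ^ 2)| ≤ |k1 - k2| / 2 * (Cn * nE y ^ 4) := by
      rw [abs_mul, abs_div, abs_of_pos (by norm_num : (0 : ℝ) < 2)]
      exact mul_le_mul_of_nonneg_left e3 (by positivity)
    have h7 : nE y ^ 4 ≤ (5 / 4 * nN z) ^ 4 := pow_le_pow_left₀ hy0 hy2 4
    have h8 : (5 / 4 * nN z) ^ 4 = 625 / 256 * nN z ^ 4 := by ring
    have h9 : 0 ≤ nN z ^ 4 := by positivity
    have h10 : nE y ^ 4 ≤ 2.5 * nN z ^ 4 := by linarith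
    rw [e6]
    calc _ ≤ |k1 - k2| / 2 * (Cn * nE y ^ 4) + l * nE y ^ 4 :=
          (abs_add_le _ _).trans (add_le_add e7 e5)
      _ = (|k1 - k2| / 2 * Cn + l) * nE y ^ 4 := by ring
      _ ≤ (|k1 - k2| / 2 * Cn + l) * (2.5 * nN z ^ 4) := by gcongr
      _ = _ := by ring
  · have h1 := hTB.full hp hκ hT 0 z (by rw [nE_zero]; positivity)
    rw [rl_zero', uE_zero, one_mul, hf1.res, hf2.res, ← Complex.ofReal_sub, Complex.norm_real,
      Real.norm_eq_abs, nE_zero, abs_sub_comm] at h1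
    refine h1.trans (mul_le_mul_of_nonneg_left (Real.exp_le_exp.2 ?_) hT)
    have h2 : (r / 4) ^ 2 ≤ min (nN z) r ^ 2 :=
      pow_le_pow_left₀ (by positivity) (le_min hz (by linarith)) 2
    have h3 : κ * (r / 4) ^ 2 ≤ κ * min (nN z) r ^ 2 := mul_le_mul_of_nonneg_left h2 hκ
    have h4 : 0 ≤ r ^ 2 * κ := by positivity
    nlinarith

lemma Mo.mono {μ : Measure G} {r k k' m : ℝ} {f : G → ℝ} (h : Mo μ r k' m f) (hk : 0 < k)
    (hkk : k ≤ k') (hm : 0 ≤ m) (hI : 0 ≤ ∫ z, f z ∂μ) : Mo μ r k m f := by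
  have e : ∀ j : ℕ, m / k' ^ j * ∫ z, f z ∂μ ≤ m / k ^ j * ∫ z, f z ∂μ := fun j => by
    have := pow_le_pow_left₀ hk.le hkk j
    gcongr
  have e1 := e 1
  rw [pow_one, pow_one] at e1
  exact ⟨h.m1.trans e1, h.m2.trans (e 2), h.m3.trans (e 3), h.m4.trans (e 4)⟩

end

end Pool.Agent.N991.MK
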