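import Mathlib
import Pool.Agent.N991.MK.Lip1
import Pool.Agent.N991.MK.Lip3
import Pool.Agent.N991.MK.Lip4
import Pool.Agent.N991.MK.Lip5

/-!
# Lower Lipschitz bound of the Wilson observable
-/

open MeasureTheory Matrix Filter Metric
open scoped Matrix.Norms.Frobenius ContDiff Topology
open Pool.Agent.H906R3.YM Pool.Agent.W793.YM Pool.Agent.TH618.YM Pool.Agent.N984.TW
open Pool.Agent.N988.MK (St qC qC_rl LN IsoG Cst exists_Cst)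

namespace Pool.Agent.N991.MK

set_option linter.unusedSectionVars false

noncomputable section

variable {N n : ℕ} {G : Subgroup (UN N)} {P : Mat N}

/-- the final combination of the estimates -/
lemma lip_arith {a b I1 I2 J1 H1 lam δ κ l' l T E A1 A2 A3 A4 A5 A6 A7 Kc Cn : ℝ} (hI1 : 0 < I1)
    (hI2 : 0 ≤ I2) (hκ : 1 ≤ κ) (hδ : 0 ≤ δ) (hl : 0 ≤ l) (hT : 0 ≤ T) (hlam : 0 ≤ lam)
    (hKc : 0 < Kc) (hA1 : 0 ≤ A1) (hA2 : 0 ≤ A2) (hA3 : 0 ≤ A3) (hA4 : 0 ≤ A4) (hA5 : 0 ≤ A5)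
    (hA6 : 0 ≤ A6) (hA7 : 0 ≤ A7)
    (hCn : 0 ≤ Cn) (hl' : l' = 2.5 * (δ / 2 * Cn + l)) (hE : κ ^ 3 * E ≤ I1)
    (h12 : I1 ≤ Kc * I2) (h21 : I2 ≤ Kc * I1)
    (h1 : δ * (A1 / κ ^ 2) * I2 - l' * A2 / κ ^ 3 * (I1 + I2) - A3 * (T * E + δ * E) ≤
      a * I1 - J1)
    (h2 : |H1 - b * I1| ≤ (δ / 2 * A4 / κ ^ 3 + l' * A5 / κ ^ 4) * (I1 + I2) + (A6 + A7 / κ ^ 2) *
      (T * E)) :
    lam * A1 / Kc * (δ / κ ^ 2) - ((lam * (2.5 * (Cn / 2) * A2 * (1 + Kc) + A3) +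
      A4 / 2 * (1 + Kc) + 2.5 * (Cn / 2) * A5 * (1 + Kc)) * (δ / κ ^ 3) +
      (lam * (2.5 * A2 * (1 + Kc)) + 2.5 * A5 * (1 + Kc)) * (l / κ ^ 3) +
      (lam * A3 + A6 + A7) * (T / κ ^ 3)) ≤
      (lam * a + b) - (lam * J1 + H1) / I1 := by
  have hκ0 : 0 < κ := by linarith
  have hE3 : E ≤ I1 / κ ^ 3 := by rw [le_div_iff₀ (by positivity)]; linarith
  have hl'0 : 0 ≤ l' := by rw [hl']; positivity
  have hsum : I1 + I2 ≤ (1 + Kc) * I1 := by linarith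
  have hI2' : I1 / Kc ≤ I2 := by rw [div_le_iff₀ hKc]; linarith
  -- first
  have g1 : δ * (A1 / κ ^ 2) * (I1 / Kc) - l' * A2 / κ ^ 3 * ((1 + Kc) * I1) -
      A3 * (T * (I1 / κ ^ 3) + δ * (I1 / κ ^ 3)) ≤ a * I1 - J1 := by
    have b1 : δ * (A1 / κ ^ 2) * (I1 / Kc) ≤ δ * (A1 / κ ^ 2) * I2 :=
      mul_le_mul_of_nonneg_left hI2' (by positivity)
    have b2 : l' * A2 / κ ^ 3 * (I1 + I2) ≤ l' * A2 / κ ^ 3 * ((1 + Kc) * I1) :=
      mul_le_mul_of_nonneg_left hsum (by positivity)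
    have b3 : A3 * (T * E + δ * E) ≤ A3 * (T * (I1 / κ ^ 3) + δ * (I1 / κ ^ 3)) := by
      refine mul_le_mul_of_nonneg_left (add_le_add ?_ ?_) hA3
      · exact mul_le_mul_of_nonneg_left hE3 hT
      · exact mul_le_mul_of_nonneg_left hE3 hδ
    linarith
  have g2 : H1 - b * I1 ≤ (δ / 2 * A4 / κ ^ 3 + l' * A5 / κ ^ 3) * ((1 + Kc) * I1) +
      (A6 + A7) * (T * (I1 / κ ^ 3)) := by
    refine ((le_abs_self _).trans h2).trans (add_le_add ?_ ?_)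
    · refine mul_le_mul ?_ hsum (by positivity) (by positivity)
      refine add_le_add le_rfl ?_
      refine div_le_div_of_nonneg_left (by positivity) (by positivity) ?_
      calc κ ^ 3 = κ ^ 3 * 1 := (mul_one _).symm
        _ ≤ κ ^ 3 * κ := by gcongr
        _ = _ := by ring
    · have b1 : A7 / κ ^ 2 ≤ A7 := div_le_self hA7 (one_le_pow₀ hκ)
      have b2 : T * E ≤ T * (I1 / κ ^ 3) := mul_le_mul_of_nonneg_left hE3 hT
      calc (A6 + A7 / κ ^ 2) * (T * E) ≤ (A6 + A7 / κ ^ 2) * (T * (I1 / κ ^ 3)) :=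
            mul_le_mul_of_nonneg_left b2 (by positivity)
        _ ≤ (A6 + A7) * (T * (I1 / κ ^ 3)) :=
            mul_le_mul_of_nonneg_right (by linarith) (by positivity)
  have g3 := mul_le_mul_of_nonneg_left g1 hlam
  rw [le_sub_iff_add_le, ← sub_nonneg]
  have e : (lam * a + b) - (lam * A1 / Kc * (δ / κ ^ 2) - ((lam * (2.5 * (Cn / 2) * A2 * (1 + Kc) + A3) +
      A4 / 2 * (1 + Kc) + 2.5 * (Cn / 2) * A5 * (1 + Kc)) * (δ / κ ^ 3) +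
      (lam * (2.5 * A2 * (1 + Kc)) + 2.5 * A5 * (1 + Kc)) * (l / κ ^ 3) +
      (lam * A3 + A6 + A7) * (T / κ ^ 3)) + (lam * J1 + H1) / I1) =
      ((lam * (a * I1 - J1) - lam * (δ * (A1 / κ ^ 2) * (I1 / Kc) -
        l' * A2 / κ ^ 3 * ((1 + Kc) * I1) -
        A3 * (T * (I1 / κ ^ 3) + δ * (I1 / κ ^ 3)))) +
      ((δ / 2 * A4 / κ ^ 3 + l' * A5 / κ ^ 3) * ((1 + Kc) * I1) +
      (A6 + A7) * (T * (I1 / κ ^ 3)) - (H1 - b * I1))) / I1 := by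
    rw [hl']
    field_simp
    ring
  rw [e]
  refine div_nonneg ?_ hI1.le
  linarith

variable [CompactSpace G] [MeasurableSpace G] [BorelSpace G]

/-- the ratio of the integrals of two states -/
lemma int_ratio {B : Frame G n} {μ : Measure G} [IsProbabilityMeasure μ] [μ.IsMulLeftInvariant]
    [μ.IsMulRightInvariant] [μ.IsInvInvariant] {r k1 k2 M2 Cv K2 : ℝ} (hgr : GoodR B r)
    {f1 f2 : G → ℝ} {F2 : (Mat N)ˣ → ℂ} (hCv : 0 < Cv) (hK2 : 1 ≤ K2)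
    (hup : ∫ z, f1 z ∂μ ≤ Cv * μ.real (bl (1 / Real.sqrt k1) : Set G))
    (hv2 : ∀ t : ℝ, 0 < t → μ.real (bl t : Set G) ≤ K2 * μ.real (bl (1 / 2 * t) : Set G))
    (hk1 : 0 < k1) (h : k2 ≤ 4 * k1) (hk2 : 16 / r ^ 2 ≤ k2) (hM2 : M2 * r ^ 2 ≤ k2 / 1000)
    (hf2 : CF f2 F2) (p2 : ∀ x, 0 < f2 x) (hn2 : NearS B r k2 M2 F2) (n2 : ‖F2 1‖ = 1) :
    ∫ z, f1 z ∂μ ≤ Cv * K2 * Real.exp 1 * ∫ z, f2 z ∂μ := by
  have h1 := hv2 (1 / Real.sqrt k1) (by positivity)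
  have hp := hgr.pos
  have hk20 : 0 < k2 := lt_of_lt_of_le (by positivity) hk2
  have h2 : μ.real (bl (1 / 2 * (1 / Real.sqrt k1)) : Set G) ≤
      μ.real (bl (1 / Real.sqrt k2) : Set G) := by
    refine measureReal_mono (bl_mono ?_)
    have h3 : Real.sqrt k2 ≤ 2 * Real.sqrt k1 := by
      have := Real.sqrt_le_sqrt h
      rw [Real.sqrt_mul (by norm_num), show (4 : ℝ) = 2 ^ 2 by norm_num,
        Real.sqrt_sq (by norm_num)] at this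
      exact this
    have h4 : 0 < Real.sqrt k2 := Real.sqrt_pos.2 hk20
    have h5 : 0 < Real.sqrt k1 := Real.sqrt_pos.2 hk1
    rw [div_mul_div_comm, one_mul, div_le_div_iff₀ (by positivity) h4]
    linarith
  have h3 := ball_lower (μ := μ) (s := 1 / Real.sqrt k2) hgr hk2 hM2 hf2 p2 hn2 le_rfl
  rw [n2, mul_one] at h3
  have h4 : ∫ z in (bl (1 / Real.sqrt k2) : Set G), f2 z ∂μ ≤ ∫ z, f2 z ∂μ :=
    setIntegral_le_integral (integrable_of_cont hf2.cont) (Eventually.of_forall fun z => (p2 z).le)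
  have h5 : μ.real (bl (1 / Real.sqrt k2) : Set G) ≤ Real.exp 1 * ∫ z, f2 z ∂μ := by
    have h6 : Real.exp 1 * Real.exp (-1) = 1 := by rw [← Real.exp_add]; norm_num
    calc μ.real (bl (1 / Real.sqrt k2) : Set G)
        = Real.exp 1 * (Real.exp (-1) * μ.real (bl (1 / Real.sqrt k2) : Set G)) := by
          rw [← mul_assoc, h6, one_mul]
      _ ≤ Real.exp 1 * ∫ z, f2 z ∂μ := by
          have := h3.trans h4
          gcongr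
  calc ∫ z, f1 z ∂μ ≤ Cv * (K2 * (Real.exp 1 * ∫ z, f2 z ∂μ)) := by
        refine hup.trans (mul_le_mul_of_nonneg_left (h1.trans ?_) hCv.le)
        exact mul_le_mul_of_nonneg_left (h2.trans h5) (by linarith)
    _ = _ := by ring

/-- the mass of a small ball -/
lemma ball_mass {B : Frame G n} {μ : Measure G} [IsProbabilityMeasure μ] [μ.IsMulLeftInvariant]
    [μ.IsMulRightInvariant] [μ.IsInvInvariant] {r κ k2 M2 Cv K3 : ℝ} (hgr : GoodR B r)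
    {f2 : G → ℝ} {F2 : (Mat N)ˣ → ℂ} (hCv : 0 < Cv) (hK3 : 1 ≤ K3)
    (hup : ∫ z, f2 z ∂μ ≤ Cv * μ.real (bl (1 / Real.sqrt k2) : Set G))
    (hv3 : ∀ t : ℝ, 0 < t → μ.real (bl t : Set G) ≤ K3 * μ.real (bl (1 / 3 * t) : Set G))
    (hκ : 0 < κ) (h1 : κ ≤ k2) (h2 : k2 ≤ 4 * κ) (hk2 : 16 / r ^ 2 ≤ k2)
    (hM2 : M2 * r ^ 2 ≤ k2 / 1000)
    (hf2 : CF f2 F2) (p2 : ∀ x, 0 < f2 x) (hn2 : NearS B r k2 M2 F2) (n2 : ‖F2 1‖ = 1) :
    Real.exp (-1) / (Cv * K3) * ∫ z, f2 z ∂μ ≤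
      ∫ z in (bl (1 / 3 * (1 / Real.sqrt κ)) : Set G), f2 z ∂μ := by
  have hk20 : 0 < k2 := by linarith
  have h4 : 0 < Real.sqrt k2 := Real.sqrt_pos.2 hk20
  have h5 : 0 < Real.sqrt κ := Real.sqrt_pos.2 hκ
  have h6 : Real.sqrt κ ≤ Real.sqrt k2 := Real.sqrt_le_sqrt h1
  have h3 : Real.sqrt k2 ≤ 2 * Real.sqrt κ := by
    have := Real.sqrt_le_sqrt h2
    rw [Real.sqrt_mul (by norm_num), show (4 : ℝ) = 2 ^ 2 by norm_num,
      Real.sqrt_sq (by norm_num)] at this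
    exact this
  have g1 : ∫ z, f2 z ∂μ ≤ Cv * (K3 * μ.real (bl (1 / 3 * (1 / Real.sqrt κ)) : Set G)) := by
    refine hup.trans (mul_le_mul_of_nonneg_left ((hv3 _ (by positivity)).trans
      (mul_le_mul_of_nonneg_left (measureReal_mono (bl_mono ?_)) (by linarith))) hCv.le)
    gcongr
  have g2 := ball_lower (μ := μ) (s := 1 / 3 * (1 / Real.sqrt κ)) hgr hk2 hM2 hf2 p2 hn2 (by
    rw [div_mul_div_comm, one_mul, div_le_div_iff₀ (by positivity) h4]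
    linarith)
  rw [n2, mul_one] at g2
  refine le_trans ?_ g2
  have hCK : 0 < Cv * K3 := by positivity
  calc Real.exp (-1) / (Cv * K3) * ∫ z, f2 z ∂μ
      ≤ Real.exp (-1) / (Cv * K3) * (Cv * (K3 * μ.real (bl (1 / 3 * (1 / Real.sqrt κ)) : Set G))) := by
        gcongr
    _ = _ := by field_simp

/-- the range of the mean -/
lemma mean_range {k κ M r Cm n' I J : ℝ} (hI : 0 < I) (hκ : 1 ≤ κ) (h1 : κ ≤ k)
    (h2 : k ≤ 1.0001 * κ) (hr : 0 < r) (hM : M * r ^ 2 ≤ k / 2000) (hn : 1 ≤ n')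
    (hCm : 0 ≤ Cm) (hk : 2 * Cm * (1 + 1 / r ^ 2) ≤ κ)
    (h : |k * J - n' * I| ≤ Cm * (1 + M / k) / k * I) :
    n' / 3 / κ ≤ J / I ∧ J / I ≤ 2 * n' / κ := by
  have hk0 : 0 < k := by linarith
  have hκ0 : 0 < κ := by linarith
  have hMk : M / k ≤ 1 / r ^ 2 := by
    rw [div_le_div_iff₀ hk0 (by positivity)]
    linarith
  have h3 : Cm * (1 + M / k) / k ≤ 1 / 2 := by
    rw [div_le_iff₀ hk0]
    have : Cm * (1 + M / k) ≤ Cm * (1 + 1 / r ^ 2) := by gcongr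
    linarith
  have h4 : |k * J - n' * I| ≤ 1 / 2 * I := h.trans (mul_le_mul_of_nonneg_right h3 hI.le)
  have h5 := abs_le.1 h4
  have hnI : I ≤ n' * I := by nlinarith
  have hJ : 0 ≤ J := by
    have : 0 ≤ k * J := by linarith
    exact nonneg_of_mul_nonneg_right this hk0
  constructor
  · rw [div_div, div_le_div_iff₀ (by positivity) hI]
    have h6 : k * J ≤ 1.0001 * κ * J := mul_le_mul_of_nonneg_right h2 hJ
    nlinarith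
  · rw [div_le_div_iff₀ hI hκ0]
    have h6 : κ * J ≤ k * J := mul_le_mul_of_nonneg_right h1 hJ
    nlinarith

lemma absorb {X1 X3 X4 X5 δ l T κ : ℝ} (hκ : 0 < κ) (hX1 : 0 < X1) (hδ : 0 ≤ δ) (hl : 0 ≤ l)
    (hT : 0 ≤ T) (hX4 : 0 ≤ X4) (hX5 : 0 ≤ X5) (h : 2 * X3 ≤ κ * X1) :
    X1 / 2 * δ / κ ^ 2 - (X4 + X5) * (l + T) / κ ^ 3 ≤
      X1 * (δ / κ ^ 2) - (X3 * (δ / κ ^ 3) + X4 * (l / κ ^ 3) + X5 * (T / κ ^ 3)) := by
  have h1 : X3 * (δ / κ ^ 3) ≤ X1 / 2 * δ / κ ^ 2 := by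
    have h2 : X3 ≤ κ * X1 / 2 := by linarith
    calc X3 * (δ / κ ^ 3) ≤ κ * X1 / 2 * (δ / κ ^ 3) := by gcongr
      _ = _ := by field_simp
  have h2 : X4 * (l / κ ^ 3) + X5 * (T / κ ^ 3) ≤ (X4 + X5) * (l + T) / κ ^ 3 := by
    rw [mul_div_assoc', mul_div_assoc', ← add_div]
    refine div_le_div_of_nonneg_right ?_ (by positivity)
    nlinarith [mul_nonneg hX4 hT, mul_nonneg hX5 hl]
  have h3 : X1 * (δ / κ ^ 2) = X1 / 2 * δ / κ ^ 2 + X1 / 2 * δ / κ ^ 2 := by ring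
  linarith

lemma s0_sq {n' κ : ℝ} (hn : 1 ≤ n') (hκ : 0 < κ) :
    (1 / 3 * (1 / Real.sqrt κ)) ^ 2 ≤ n' / 3 / (2 * κ) := by
  rw [mul_pow, div_pow, div_pow, one_pow, Real.sq_sqrt hκ.le, div_mul_div_comm, one_mul,
    div_div, div_le_div_iff₀ (by positivity) (by positivity)]
  nlinarith

lemma hlk_arith {l' δ κ Cn l r n' : ℝ} (hr : 0 < r) (hκ : 0 < κ) (hδ : 0 ≤ δ)
    (hδκ : δ ≤ κ / 10000) (hCn : 0 ≤ Cn) (hl : 0 ≤ l) (hlκ : l * r ^ 2 ≤ κ) (hn : 0 ≤ n')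
    (hk : (Cn + 1 / r ^ 2) * n' ^ 2 ≤ κ) (hl' : l' = 2.5 * (δ / 2 * Cn + l)) :
    l' * (n' / 3) ^ 2 ≤ 2 * (n' + 1) * κ ^ 2 := by
  have h1 : l ≤ κ * (1 / r ^ 2) := by
    rw [mul_one_div, le_div_iff₀ (by positivity)]; exact hlκ
  have h2 : l' ≤ 2.5 * (κ * (Cn + 1 / r ^ 2)) := by
    rw [hl']
    have h3 : δ / 2 * Cn ≤ κ * Cn := mul_le_mul_of_nonneg_right (by linarith) hCn
    linarith
  calc l' * (n' / 3) ^ 2 ≤ 2.5 * (κ * (Cn + 1 / r ^ 2)) * (n' / 3) ^ 2 := by gcongr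
    _ = 2.5 / 9 * κ * ((Cn + 1 / r ^ 2) * n' ^ 2) := by ring
    _ ≤ 2.5 / 9 * κ * κ := by gcongr
    _ ≤ 2 * (n' + 1) * κ ^ 2 := by
        have h5 : 0 ≤ κ ^ 2 := by positivity
        have h6 : 0 ≤ n' * κ ^ 2 := by positivity
        linarith

lemma hδk_arith {δ κ n' : ℝ} (hκ : 0 < κ) (hδ : δ ≤ κ) (hn : 0 ≤ n') :
    δ * (2 * n') ≤ 2 * (n' + 1) * κ := by
  calc δ * (2 * n') ≤ κ * (2 * n') := by gcongr
    _ ≤ κ * (2 * (n' + 1)) := by gcongr; linarith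
    _ = _ := by ring

/-- one sided form -/
theorem wil_lip1 (B : Frame G n) (hG : IsClosed (G : Set (UN N))) (μ : Measure G)
    [IsProbabilityMeasure μ] [μ.IsMulLeftInvariant] [μ.IsMulRightInvariant] [μ.IsInvInvariant]
    (hI : IsoG B) (hn : 0 < n) (hP : IPr G P) (hPX : ∃ a, P * B.X a ≠ 0) :
    ∃ r2 : ℝ, 0 < r2 ∧ ∀ r : ℝ, 0 < r → r ≤ r2 → GoodR B r →
    ∃ k0 c0 C : ℝ, 1 ≤ k0 ∧ 0 < c0 ∧ 0 ≤ C ∧
    ∀ {κ k1 k2 M1 M2 l T : ℝ} {f1 f2 : G → ℝ} {F1 F2 : (Mat N)ˣ → ℂ} {m1 m2 : (Fin n → ℂ) → ℂ},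
      k0 ≤ κ → κ ≤ k1 → k1 ≤ 1.0001 * κ → κ ≤ k2 → k2 ≤ 1.0001 * κ → 0 ≤ M1 → 0 ≤ M2 →
      M1 * r ^ 2 ≤ k1 / 2000 → M2 * r ^ 2 ≤ k2 / 2000 → CF f1 F1 → CF f2 F2 →
      (∀ x, 0 < f1 x) → (∀ x, 0 < f2 x) → F1 1 = 1 → F2 1 = 1 →
      St B r k1 M1 F1 m1 → St B r k2 M2 F2 m2 → Tube B r k1 F1 → Tube B r k2 F2 →
      0 ≤ l → 0 ≤ T → k2 ≤ k1 → l * r ^ 2 ≤ κ →
      (∀ x, nC x < r → ‖m2 x - m1 x‖ ≤ l * nC x ^ 4) → TB B r κ T (fun u => F2 u - F1 u) →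
      c0 * (k1 - k2) / κ ^ 2 - C * (l + T) / κ ^ 3 ≤
        (∫ z, f2 z * wP P z ∂μ) / (∫ z, f2 z ∂μ) - (∫ z, f1 z * wP P z ∂μ) / ∫ z, f1 z ∂μ := by
  obtain ⟨r₀, C₀, b₀, Cq, Cu, Cs, Cp, cst⟩ := exists_Cst B hG
  obtain ⟨Cn, ρn, hCn, hρn, hw⟩ := nN_sq_near B hG
  obtain ⟨Cw, ρw, hCw, hρw, hww⟩ := hP.wP_near B hG
  obtain ⟨lam, hlam, hlx, hlX⟩ := hP.iso B hG hI
  have hlam0 : 0 < lam := by
    obtain ⟨a, ha⟩ := hPX
    rw [← hlX a]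
    have := norm_pos_iff.2 ha
    positivity
  obtain ⟨r₁, hr₁, hmean⟩ := mean_law' B hG μ
  obtain ⟨m, hm, hmo⟩ := mo_of B μ
  obtain ⟨Cv, hCv, hup⟩ := int1_upper B μ
  obtain ⟨K3, hK3, hv3⟩ := vol_iter μ (1 / 3) (by norm_num)
  obtain ⟨K2, hK2, hv2⟩ := vol_iter μ (1 / 2) (by norm_num)
  have hr₀ := cst.h.pos
  refine ⟨min (min r₀ r₁) (min ρn ρw), by positivity, fun r hr hrr hgr => ?_⟩
  have hrr₀ : r ≤ r₀ := hrr.trans ((min_le_left _ _).trans (min_le_left _ _))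
  have hrr₁ : r ≤ r₁ := hrr.trans ((min_le_left _ _).trans (min_le_right _ _))
  have hrρn : r ≤ ρn := hrr.trans ((min_le_right _ _).trans (min_le_left _ _))
  have hrρw : r ≤ ρw := hrr.trans ((min_le_right _ _).trans (min_le_right _ _))
  obtain ⟨km, Cm, hkm, hCm, hmean⟩ := hmean r hr hrr₁ hgr
  obtain ⟨ku, hku, hup⟩ := hup hgr
  obtain ⟨kb, hkb, hkb', hnb⟩ := norm_beats1 (B := B) μ hgr (0.02 * r ^ 2) (by positivity) 3
  have hn' : (1 : ℝ) ≤ n := by exact_mod_cast hn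
  -- the constants
  obtain ⟨Kc, hKcd⟩ : ∃ K, K = Cv * K2 * Real.exp 1 := ⟨_, rfl⟩
  have hKc : 0 < Kc := by rw [hKcd]; positivity
  obtain ⟨A1, hA1d⟩ : ∃ A, A = Real.exp (-1) / (Cv * K3) * Real.exp (-((n : ℝ) + 1)) *
    ((n : ℝ) / 3) ^ 2 / 8 := ⟨_, rfl⟩
  have hA1 : 0 < A1 := by rw [hA1d]; positivity
  obtain ⟨A2, hA2d⟩ : ∃ A, A = m + 2 * (n : ℝ) * m := ⟨_, rfl⟩
  have hA2 : 0 ≤ A2 := by rw [hA2d]; positivity
  obtain ⟨H, hHd⟩ : ∃ A, A = 2.5 * (Cw + lam * Cn) := ⟨_, rfl⟩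
  have hH : 0 ≤ H := by rw [hHd]; positivity
  obtain ⟨H0, hH0d⟩ : ∃ A, A = (1 + lam) * (4 * (N : ℝ)) := ⟨_, rfl⟩
  have hH0 : 0 ≤ H0 := by rw [hH0d]; positivity
  obtain ⟨b0, hb0d⟩ : ∃ A, A = H * m + H0 := ⟨_, rfl⟩
  have hb0 : 0 ≤ b0 := by rw [hb0d]; positivity
  obtain ⟨A4, hA4d⟩ : ∃ A, A = (H + b0) * m := ⟨_, rfl⟩
  have hA4 : 0 ≤ A4 := by rw [hA4d]; positivity
  obtain ⟨X1, hX1d⟩ : ∃ A, A = lam * A1 / Kc := ⟨_, rfl⟩
  have hX1 : 0 < X1 := by rw [hX1d]; positivity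
  obtain ⟨X3, hX3d⟩ : ∃ A, A = lam * (2.5 * (Cn / 2) * A2 * (1 + Kc) + 4 * N) +
      A4 / 2 * (1 + Kc) + 2.5 * (Cn / 2) * A4 * (1 + Kc) := ⟨_, rfl⟩
  have hX3 : 0 ≤ X3 := by rw [hX3d]; positivity
  obtain ⟨X4, hX4d⟩ : ∃ A, A = lam * (2.5 * A2 * (1 + Kc)) + 2.5 * A4 * (1 + Kc) := ⟨_, rfl⟩
  have hX4 : 0 ≤ X4 := by rw [hX4d]; positivity
  obtain ⟨X5, hX5d⟩ : ∃ A, A = lam * (4 * N) + H0 + b0 := ⟨_, rfl⟩
  have hX5 : 0 ≤ X5 := by rw [hX5d]; positivity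
  obtain ⟨k0, hk0d⟩ : ∃ k0 : ℝ, k0 = km + ku + kb + 2 * Cm * (1 + 1 / r ^ 2) +
    (Cn + 1 / r ^ 2) * (n : ℝ) ^ 2 + n + 2 * X3 / X1 := ⟨_, rfl⟩
  have hkm0 : 0 ≤ km := by linarith
  have hku0 : 0 ≤ ku := by linarith
  have hkb0 : 0 ≤ kb := by linarith
  have t1 : 0 ≤ 2 * Cm * (1 + 1 / r ^ 2) := by positivity
  have t2 : 0 ≤ (Cn + 1 / r ^ 2) * (n : ℝ) ^ 2 := by positivity
  have t3 : 0 ≤ 2 * X3 / X1 := by positivity
  refine ⟨k0, X1 / 2, X4 + X5, by linarith, by positivity, by positivity,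
    fun {κ k1 k2 M1 M2 l T f1 f2 F1 F2 m1 m2} hk a1 a2 a3 a4 hM1 hM2 hMr1 hMr2 hf1 hf2 p1 p2 n1 n2
      hs1 hs2 ht1 ht2 hl hT hδ hlκ hmm hTB => ?_⟩
  have hκ1 : 1 ≤ κ := by linarith
  have hκ0 : 0 < κ := by linarith
  have hk10 : 0 < k1 := by linarith
  have hk20 : 0 < k2 := by linarith
  have hNs1 := Pool.Agent.N991.MK.St.toNear hs1
  have hNs2 := Pool.Agent.N991.MK.St.toNear hs2
  have hn1 : ‖F1 1‖ = 1 := by rw [n1, norm_one]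
  have hn2 : ‖F2 1‖ = 1 := by rw [n2, norm_one]
  have hr1 : 16 / r ^ 2 ≤ k1 := by linarith
  have hr2 : 16 / r ^ 2 ≤ k2 := by linarith
  have hrκ : 16 / r ^ 2 ≤ κ := by linarith
  have hm1 : M1 * r ^ 2 ≤ k1 / 1000 := by linarith
  have hm2 : M2 * r ^ 2 ≤ k2 / 1000 := by linarith
  have up1 := hup (by linarith) hm1 hf1 p1 hNs1 ht1
  have up2 := hup (by linarith) hm2 hf2 p2 hNs2 ht2
  rw [hn1, mul_one] at up1
  rw [hn2, mul_one] at up2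
  have r12 := int_ratio (μ := μ) hgr hCv hK2 up1 hv2 hk10 (by linarith) hr2 hm2 hf2 p2 hNs2 hn2
  have r21 := int_ratio (μ := μ) hgr hCv hK2 up2 hv2 hk20 (by linarith) hr1 hm1 hf1 p1 hNs1 hn1
  rw [← hKcd] at r12 r21
  have bm := ball_mass (μ := μ) hgr hCv hK3 up2 hv3 hκ0 a3 (by linarith) hr2 hm2 hf2 p2 hNs2 hn2
  have nb1 := hnb (by linarith) hm1 hf1 p1 hNs1
  have nb2 := hnb (by linarith) hm2 hf2 p2 hNs2
  rw [hn1, one_mul] at nb1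
  rw [hn2, one_mul] at nb2
  obtain ⟨I1, hI1⟩ : ∃ I, I = ∫ z, f1 z ∂μ := ⟨_, rfl⟩
  obtain ⟨I2, hI2⟩ : ∃ I, I = ∫ z, f2 z ∂μ := ⟨_, rfl⟩
  have ci : ∀ {φ : G → ℝ}, Continuous φ → Integrable φ μ := fun h => integrable_of_cont h
  have cN : Continuous (nN : G → ℝ) := nN_cont
  have cW : Continuous (wP P : G → ℝ) := wP_cont
  have cf1 := hf1.cont
  have cf2 := hf2.cont
  have hI1p : 0 < I1 := by
    rw [hI1, integral_pos_iff_support_of_nonneg (fun z => (p1 z).le) (ci cf1)]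
    have h3 : Function.support f1 = Set.univ := by
      ext z; simp [(p1 z).ne']
    rw [h3, measure_univ]
    exact one_pos
  have hI2p : 0 < I2 := by
    rw [hI2, integral_pos_iff_support_of_nonneg (fun z => (p2 z).le) (ci cf2)]
    have h3 : Function.support f2 = Set.univ := by
      ext z; simp [(p2 z).ne']
    rw [h3, measure_univ]
    exact one_pos
  obtain ⟨E, hE⟩ : ∃ E, E = Real.exp (-(0.03 * r ^ 2 * κ)) := ⟨_, rfl⟩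
  have hE0 : 0 < E := by rw [hE]; exact Real.exp_pos _
  have hEE : ∀ {k I : ℝ}, κ ≤ k → k ≤ 1.0001 * κ →
      k ^ 3 * Real.exp (-(0.02 * r ^ 2 * k)) ≤ I → κ ^ 3 * E ≤ I := by
    intro k I h1 h2 h3
    have hk0 : 0 ≤ k := by linarith
    refine le_trans ?_ h3
    refine mul_le_mul (pow_le_pow_left₀ hκ0.le h1 3) ?_ hE0.le (by positivity)
    rw [hE]
    refine Real.exp_le_exp.2 ?_
    have : r ^ 2 * k ≤ r ^ 2 * (1.0001 * κ) := mul_le_mul_of_nonneg_left h2 (by positivity)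
    have h4 : 0 ≤ r ^ 2 * κ := by positivity
    linarith
  have hE1 : κ ^ 3 * E ≤ I1 := hEE a1 a2 (by rw [hI1]; exact nb1)
  have hE2 : κ ^ 3 * E ≤ I2 := hEE a3 a4 (by rw [hI2]; exact nb2)
  have hfar2 : ∀ z : G, r / 4 ≤ nN z → f2 z ≤ E := by
    intro z hz
    have h1 := far_up hgr hk20.le hf2 ht2 hz
    rw [hn2, one_mul] at h1
    refine (le_abs_self _).trans (h1.trans ?_)
    rw [hE]
    refine Real.exp_le_exp.2 ?_
    have : r ^ 2 * κ ≤ r ^ 2 * k2 := mul_le_mul_of_nonneg_left a3 (by positivity)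
    linarith
  have hMo1 : Mo μ r κ m f1 := (hmo hgr hr1 hm1 hf1 p1 hNs1).mono hκ0 a1 hm.le
    (by rw [← hI1]; exact hI1p.le)
  have hMo2 : Mo μ r κ m f2 := (hmo hgr hr2 hm2 hf2 p2 hNs2).mono hκ0 a3 hm.le
    (by rw [← hI2]; exact hI2p.le)
  have hRP := pair_rp (hG := hG) hgr cst.hl hrr₀ hrρn hw hCn hκ0.le hT hl hf1 hf2 p1 p2 n1 n2
    hs1 hs2 hmm hTB
  rw [← hE, abs_of_nonneg (by linarith : 0 ≤ k1 - k2)] at hRP
  obtain ⟨δ, hδd⟩ : ∃ δ, δ = k1 - k2 := ⟨_, rfl⟩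
  rw [← hδd] at hRP
  have hδ0 : 0 ≤ δ := by linarith
  have hδκ : δ ≤ κ / 10000 := by linarith
  obtain ⟨l', hl'⟩ : ∃ l', l' = 2.5 * (δ / 2 * Cn + l) := ⟨_, rfl⟩
  rw [← hl'] at hRP
  have hl'0 : 0 ≤ l' := by rw [hl']; positivity
  obtain ⟨J2, hJ2⟩ : ∃ J, J = ∫ z, f2 z * nN z ^ 2 ∂μ := ⟨_, rfl⟩
  obtain ⟨J1, hJ1⟩ : ∃ J, J = ∫ z, f1 z * nN z ^ 2 ∂μ := ⟨_, rfl⟩
  have hmn := hmean (by linarith) hM2 hm2 hf2 p2 hs2 ht2
  rw [← hI2, ← hJ2] at hmn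
  have hrange := mean_range hI2p hκ1 a3 a4 hr hMr2 hn' hCm (by linarith) hmn
  obtain ⟨a, had⟩ : ∃ a, a = J2 / I2 := ⟨_, rfl⟩
  rw [← had] at hrange
  have haI : J2 = a * I2 := by rw [had]; field_simp
  -- the small ball
  obtain ⟨s0, hs0⟩ : ∃ s0, s0 = 1 / 3 * (1 / Real.sqrt κ) := ⟨_, rfl⟩
  rw [← hs0] at bm
  have hsκ : 0 < Real.sqrt κ := Real.sqrt_pos.2 hκ0
  have hs0sq : s0 ^ 2 ≤ (n : ℝ) / 3 / (2 * κ) := by
    rw [hs0]
    exact s0_sq hn' hκ0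
  have hs0r : s0 ≤ r / 4 := by
    have h1 : 1 / Real.sqrt κ ≤ r / 4 := by
      rw [div_le_iff₀ hsκ]
      have h1 : Real.sqrt (16 / r ^ 2) ≤ Real.sqrt κ := Real.sqrt_le_sqrt hrκ
      have h2 : Real.sqrt (16 / r ^ 2) = 4 / r := by
        rw [show 16 / r ^ 2 = (4 / r) ^ 2 by ring, Real.sqrt_sq (by positivity)]
      rw [h2] at h1
      calc (1 : ℝ) = r / 4 * (4 / r) := by field_simp
        _ ≤ r / 4 * Real.sqrt κ := by gcongr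
    rw [hs0]
    have : 0 < 1 / Real.sqrt κ := by positivity
    linarith
  have hlk : l' * ((n : ℝ) / 3) ^ 2 ≤ 2 * ((n : ℝ) + 1) * κ ^ 2 :=
    hlk_arith hr hκ0 hδ0 hδκ hCn hl hlκ (by linarith) (by linarith) hl'
  have hδk : δ * (2 * (n : ℝ)) ≤ 2 * ((n : ℝ) + 1) * κ :=
    hδk_arith hκ0 (by linarith) (by linarith)
  have hcore := core_lower μ cf1 cf2 p1 p2 (τ := T * E) (τ' := E) (a0 := (n : ℝ) / 3) (a1 := 2 * (n : ℝ))
    (a := a) hκ0 hδ0 hl'0 (mul_nonneg hT hE0.le) hE0.le hRP hfar2 (by rw [← hJ2, ← hI2]; exact haI)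
    hrange.1 hrange.2 (by positivity) hMo1 hMo2 bm hs0sq hs0r hδk hlk (by linarith)
  rw [← hI1, ← hI2, ← hJ1] at hcore
  -- the quartic part
  have hhb : ∀ z : G, nN z ≤ r / 4 → |wP P z - lam * nN z ^ 2| ≤ H * nN z ^ 4 := by
    intro z hz
    obtain ⟨y, hy, hy2⟩ := cst.hl.lg z (by linarith)
    have hN0 := nN_nonneg z
    have hy0 := nE_nonneg y
    have e1 := hww y (by linarith)
    have e2 := hw y (by linarith)
    rw [hy] at e1 e2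
    rw [hlx] at e1
    have h7 : nE y ^ 4 ≤ (5 / 4 * nN z) ^ 4 := pow_le_pow_left₀ hy0 hy2 4
    have h8 : (5 / 4 * nN z) ^ 4 = 625 / 256 * nN z ^ 4 := by ring
    have h9 : 0 ≤ nN z ^ 4 := by positivity
    have h10 : nE y ^ 4 ≤ 2.5 * nN z ^ 4 := by linarith
    have e3 : wP P z - lam * nN z ^ 2 = (wP P z - lam * nE y ^ 2) -
        lam * (nN z ^ 2 - nE y ^ 2) := by ring
    have e4 : |lam * (nN z ^ 2 - nE y ^ 2)| ≤ lam * (Cn * nE y ^ 4) := by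
      rw [abs_mul, abs_of_nonneg hlam]
      exact mul_le_mul_of_nonneg_left e2 hlam
    rw [e3]
    calc _ ≤ Cw * nE y ^ 4 + lam * (Cn * nE y ^ 4) := (abs_sub _ _).trans (add_le_add e1 e4)
      _ = (Cw + lam * Cn) * nE y ^ 4 := by ring
      _ ≤ (Cw + lam * Cn) * (2.5 * nN z ^ 4) := by gcongr
      _ = _ := by rw [hHd]; ring
  have hw4 : ∀ z : G, nN z ^ 2 ≤ 4 * N := by
    intro z
    have h6 := pow_le_pow_left₀ (nN_nonneg z) (nN_le z) 2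
    rw [mul_pow, Real.sq_sqrt (Nat.cast_nonneg N)] at h6
    linarith
  have hhb0 : ∀ z : G, |wP P z - lam * nN z ^ 2| ≤ H0 := by
    intro z
    have h1 := hP.wP_nonneg z
    have h2 := hP.wP_le z
    have h3 := hw4 z
    have h4 : lam * nN z ^ 2 ≤ lam * (4 * N) := mul_le_mul_of_nonneg_left h3 hlam
    have h5 : 0 ≤ lam * nN z ^ 2 := by positivity
    have h6 : H0 = 4 * N + lam * (4 * N) := by rw [hH0d]; ring
    have h7 : (0 : ℝ) ≤ 4 * N := by positivity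
    rw [h6, abs_le]
    constructor <;> linarith
  have ch : Continuous fun z : G => wP P z - lam * nN z ^ 2 :=
    cW.sub (continuous_const.mul (cN.pow 2))
  obtain ⟨H2, hH2⟩ : ∃ J, J = ∫ z, f2 z * (wP P z - lam * nN z ^ 2) ∂μ := ⟨_, rfl⟩
  obtain ⟨H1, hH1⟩ : ∃ J, J = ∫ z, f1 z * (wP P z - lam * nN z ^ 2) ∂μ := ⟨_, rfl⟩
  obtain ⟨b, hbd⟩ : ∃ b, b = H2 / I2 := ⟨_, rfl⟩
  have hbI : H2 = b * I2 := by rw [hbd]; field_simp
  have hEκ2 : κ ^ 2 * E ≤ ∫ z, f2 z ∂μ := by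
    rw [← hI2]
    refine le_trans ?_ hE2
    refine mul_le_mul_of_nonneg_right ?_ hE0.le
    exact pow_le_pow_right₀ hκ1 (by norm_num)
  have hbb := mean_quartic μ cf2 ch p2 (k := κ) (m := m) (H := H) (H0 := H0) (b := b) (τ' := E)
    hκ0 (by rw [← hH2, ← hI2]; exact hbI) hhb hhb0 hH hMo2 hfar2 hE0.le hEκ2
  rw [← hb0d] at hbb
  have hobs := core_obs μ cf1 cf2 ch p1 p2 hκ0 hδ0 hl'0 (mul_nonneg hT hE0.le) hRP
    (by rw [← hH2, ← hI2]; exact hbI) hbb hhb hhb0 hH hb0 hMo1 hMo2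
  rw [← hI1, ← hI2, ← hH1, ← hA4d] at hobs
  have hcore' : δ * (A1 / κ ^ 2) * I2 - l' * A2 / κ ^ 3 * (I1 + I2) - 4 * N * (T * E + δ * E) ≤
      a * I1 - J1 := by
    refine le_trans (le_of_eq ?_) hcore
    rw [hA1d, hA2d]
    ring
  have hfin := lip_arith hI1p hI2p.le hκ1 hδ0 hl hT hlam hKc hA1.le hA2 (by positivity) hA4 hA4
    hH0 hb0 hCn hl' hE1 (by rw [hI1, hI2]; exact r12) (by rw [hI1, hI2]; exact r21) hcore' hobs
  rw [← hX1d, ← hX3d, ← hX4d, ← hX5d] at hfin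
  -- the means of the observable
  have hs2' : ∫ z, f2 z * wP P z ∂μ = (lam * a + b) * I2 := by
    have h1 : ∀ z, f2 z * wP P z = lam * (f2 z * nN z ^ 2) +
        f2 z * (wP P z - lam * nN z ^ 2) := by intro z; ring
    have i1 : Integrable (fun z : G => lam * (f2 z * nN z ^ 2)) μ :=
      ci (continuous_const.mul (cf2.mul (cN.pow 2)))
    have i2 : Integrable (fun z : G => f2 z * (wP P z - lam * nN z ^ 2)) μ := ci (cf2.mul ch)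
    rw [integral_congr_ae (Eventually.of_forall h1), integral_add i1 i2,
      integral_const_mul, ← hJ2, ← hH2, haI, hbI]
    ring
  have hs1' : ∫ z, f1 z * wP P z ∂μ = lam * J1 + H1 := by
    have h1 : ∀ z, f1 z * wP P z = lam * (f1 z * nN z ^ 2) +
        f1 z * (wP P z - lam * nN z ^ 2) := by intro z; ring
    have i1 : Integrable (fun z : G => lam * (f1 z * nN z ^ 2)) μ :=
      ci (continuous_const.mul (cf1.mul (cN.pow 2)))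
    have i2 : Integrable (fun z : G => f1 z * (wP P z - lam * nN z ^ 2)) μ := ci (cf1.mul ch)
    rw [integral_congr_ae (Eventually.of_forall h1), integral_add i1 i2,
      integral_const_mul, ← hJ1, ← hH1]
  rw [hs1', hs2', ← hI1, ← hI2, mul_div_cancel_right₀ _ hI2p.ne', ← hδd]
  refine le_trans ?_ hfin
  exact absorb hκ0 hX1 hδ0 hl hT hX4 hX5 (by
    have : 2 * X3 / X1 ≤ κ := by linarith
    rw [div_le_iff₀ hX1] at this
    linarith)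

end

end Pool.Agent.N991.MK
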