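import Mathlib
import Pool.Agent.N991.MK.FmP2
import Pool.Agent.N991.MK.Lip6

/-!
# Lower Lipschitz bound of the Wilson observable, conclusion
-/

open MeasureTheory Matrix Filter Metric
open scoped Matrix.Norms.Frobenius ContDiff Topology
open Pool.Agent.H906R3.YM Pool.Agent.W793.YM Pool.Agent.TH618.YM Pool.Agent.N984.TW
open Pool.Agent.N988.MK (St qC qC_rl LN IsoG Cst exists_Cst)
open Pool.Agent.N989.MK (WW)

namespace Pool.Agent.N991.MK

set_option linter.unusedSectionVars false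

noncomputable section

variable {N n : ℕ} {G : Subgroup (UN N)} {P : Mat N}
variable [CompactSpace G] [MeasurableSpace G] [BorelSpace G]

lemma WW_wP (μ : Measure G) [IsProbabilityMeasure μ] [μ.IsMulLeftInvariant]
    [μ.IsMulRightInvariant] [μ.IsInvInvariant] (hP0 : 0 < (trace P).re) {f : G → ℝ}
    (cf : Continuous f) (p : ∀ x, 0 < f x) : WW μ (chiP P : G → ℝ) f =
      1 - (∫ z, f z * wP P z ∂μ) / (∫ z, f z ∂μ) / (2 * (trace P).re) := by
  obtain ⟨t, ht⟩ : ∃ t, t = (trace P).re := ⟨_, rfl⟩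
  rw [← ht] at hP0 ⊢
  have cW : Continuous (wP P : G → ℝ) := wP_cont
  obtain ⟨I, hI⟩ : ∃ I, I = ∫ z, f z ∂μ := ⟨_, rfl⟩
  have hIpos : 0 < I := by
    rw [hI, integral_pos_iff_support_of_nonneg (fun z => (p z).le) (integrable_of_cont cf)]
    have h3 : Function.support f = Set.univ := by
      ext z; simp [(p z).ne']
    rw [h3, measure_univ]
    exact one_pos
  have h2 : ∫ z, f z * chiP P z ∂μ = I - (∫ z, f z * wP P z ∂μ) / (2 * t) := by
    have h3 : ∀ z, f z * chiP P z = f z - (f z * wP P z) / (2 * t) := by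
      intro z
      unfold chiP wP
      rw [mul_sub, mul_one, trace_sub, Complex.sub_re, ← ht]
      field_simp
      ring
    have i2 : Integrable (fun z : G => f z * wP P z / (2 * t)) μ :=
      integrable_of_cont ((cf.mul cW).div_const _)
    rw [integral_congr_ae (Eventually.of_forall h3), integral_sub (integrable_of_cont cf) i2,
      integral_div, hI]
  unfold WW
  rw [h2, ← hI]
  field_simp

/-- **lower Lipschitz bound of the Wilson observable on pairs of states** -/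
theorem wil_lip (B : Frame G n) (hG : IsClosed (G : Set (UN N))) (μ : Measure G)
    [IsProbabilityMeasure μ] [μ.IsMulLeftInvariant] [μ.IsMulRightInvariant] [μ.IsInvInvariant]
    (hI : IsoG B) (hn : 0 < n) (hP : IPr G P) (hP0 : 0 < (trace P).re)
    (hPX : ∃ a, P * B.X a ≠ 0) :
    ∃ r2 : ℝ, 0 < r2 ∧ ∀ r : ℝ, 0 < r → r ≤ r2 → GoodR B r →
    ∃ k0 c0 C : ℝ, 1 ≤ k0 ∧ 0 < c0 ∧ 0 ≤ C ∧
    ∀ {κ k1 k2 M1 M2 l T : ℝ} {f1 f2 : G → ℝ} {F1 F2 : (Mat N)ˣ → ℂ} {m1 m2 : (Fin n → ℂ) → ℂ},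
      k0 ≤ κ → κ ≤ k1 → k1 ≤ 1.0001 * κ → κ ≤ k2 → k2 ≤ 1.0001 * κ → 0 ≤ M1 → 0 ≤ M2 →
      M1 * r ^ 2 ≤ k1 / 2000 → M2 * r ^ 2 ≤ k2 / 2000 → CF f1 F1 → CF f2 F2 →
      (∀ x, 0 < f1 x) → (∀ x, 0 < f2 x) → F1 1 = 1 → F2 1 = 1 →
      St B r k1 M1 F1 m1 → St B r k2 M2 F2 m2 → Tube B r k1 F1 → Tube B r k2 F2 →
      0 ≤ l → 0 ≤ T → l * r ^ 2 ≤ κ →
      (∀ x, nC x < r → ‖m2 x - m1 x‖ ≤ l * nC x ^ 4) → TB B r κ T (fun u => F2 u - F1 u) →
      c0 * |k1 - k2| / κ ^ 2 - C * (l + T) / κ ^ 3 ≤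
        |WW μ (chiP P : G → ℝ) f1 - WW μ (chiP P : G → ℝ) f2| := by
  obtain ⟨r2, hr2, h⟩ := wil_lip1 B hG μ hI hn hP hPX
  refine ⟨r2, hr2, fun r hr hrr hgr => ?_⟩
  obtain ⟨k0, c0, C, hk0, hc0, hC, h⟩ := h r hr hrr hgr
  refine ⟨k0, c0 / (2 * (trace P).re), C / (2 * (trace P).re), hk0, by positivity, by positivity,
    fun {κ k1 k2 M1 M2 l T f1 f2 F1 F2 m1 m2} hk a1 a2 a3 a4 hM1 hM2 hMr1 hMr2 hf1 hf2 p1 p2 n1 n2
      hs1 hs2 ht1 ht2 hl hT hlκ hmm hTB => ?_⟩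
  obtain ⟨t, htd⟩ : ∃ t, t = (trace P).re := ⟨_, rfl⟩
  rw [WW_wP μ hP0 hf1.cont p1, WW_wP μ hP0 hf2.cont p2]
  rw [← htd] at hP0 ⊢
  obtain ⟨E1, hE1⟩ : ∃ E, E = (∫ z, f1 z * wP P z ∂μ) / ∫ z, f1 z ∂μ := ⟨_, rfl⟩
  obtain ⟨E2, hE2⟩ : ∃ E, E = (∫ z, f2 z * wP P z ∂μ) / ∫ z, f2 z ∂μ := ⟨_, rfl⟩
  have key : c0 * |k1 - k2| / κ ^ 2 - C * (l + T) / κ ^ 3 ≤ |E2 - E1| := by
    rcases le_total k2 k1 with hle | hle
    · have h1 := h hk a1 a2 a3 a4 hM1 hM2 hMr1 hMr2 hf1 hf2 p1 p2 n1 n2 hs1 hs2 ht1 ht2 hl hT hle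
        hlκ hmm hTB
      rw [abs_of_nonneg (by linarith : 0 ≤ k1 - k2), hE1, hE2]
      exact h1.trans (le_abs_self _)
    · have hmm' : ∀ x, nC x < r → ‖m1 x - m2 x‖ ≤ l * nC x ^ 4 := fun x hx => by
        rw [norm_sub_rev]; exact hmm x hx
      have hTB' : TB B r κ T (fun u => F1 u - F2 u) := by
        refine ⟨fun a y hay => ?_, fun a y ha hay => ?_⟩
        · rw [norm_sub_rev]; exact hTB.near a y hay
        · rw [norm_sub_rev]; exact hTB.tube a y ha hay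
      have h1 := h hk a3 a4 a1 a2 hM2 hM1 hMr2 hMr1 hf2 hf1 p2 p1 n2 n1 hs2 hs1 ht2 ht1 hl hT hle
        hlκ hmm' hTB'
      rw [abs_sub_comm k1 k2, abs_of_nonneg (by linarith : 0 ≤ k2 - k1), abs_sub_comm, hE1, hE2]
      exact h1.trans (le_abs_self _)
  rw [← hE1, ← hE2]
  have e1 : 1 - E1 / (2 * t) - (1 - E2 / (2 * t)) = (E2 - E1) / (2 * t) := by ring
  rw [e1, abs_div, abs_of_pos (by positivity : 0 < 2 * t), le_div_iff₀ (by positivity)]
  refine le_trans (le_of_eq ?_) key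
  field_simp

/-- a non-trivial constituent has a non-trivial derivative -/
theorem exists_PX [ConnectedSpace G] (B : Frame G n) (hG : IsClosed (G : Set (UN N)))
    (h : ∃ g : G, P * mt g ≠ P) : ∃ a, P * B.X a ≠ 0 := by
  by_contra hno
  push Not at hno
  have h1 : ∀ y : Fin n → ℝ, P * LX B y = 0 := by
    intro y
    unfold LX
    rw [Finset.mul_sum]
    exact Finset.sum_eq_zero fun a _ => by rw [mul_smul_comm, hno a, smul_zero]
  have h2 : ∀ y : Fin n → ℝ, P * mt (Eg B hG y) = P := by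
    intro y
    have h3 : ∀ s : ℝ, HasDerivAt (fun s : ℝ => P * EM B (s • y)) 0 s := by
      intro s
      have h := hasDerivAt_EMs B y s
      have h4 := ((ContinuousLinearMap.mul ℝ (Mat N)) P).hasFDerivAt.comp_hasDerivAt s h
      have h5 : ((ContinuousLinearMap.mul ℝ (Mat N)) P) (LX B y * EM B (s • y)) = 0 := by
        change P * (LX B y * EM B (s • y)) = 0
        rw [← mul_assoc, h1, zero_mul]
      rw [h5] at h4
      exact h4
    have h6 : ∀ s t : ℝ, P * EM B (s • y) = P * EM B (t • y) :=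
      is_const_of_deriv_eq_zero (fun s => (h3 s).differentiableAt) fun s => (h3 s).deriv
    have h7 := h6 1 0
    rw [one_smul, zero_smul, EM_zero, mul_one, ← mt_Eg B hG] at h7
    exact h7
  obtain ⟨m, hm⟩ := Pool.Agent.N989.MK.exists_gen B hG
    (isConnected_iff_connectedSpace.2 inferInstance)
  obtain ⟨g, hg⟩ := h
  refine hg ?_
  obtain ⟨l, _, hl1, hl⟩ := hm g
  have h8 : ∀ l' : List G, (∀ y ∈ l', ∃ X : Fin n → ℝ, y = Eg B hG X) → P * mt l'.prod = P := by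
    intro l'
    induction l' with
    | nil => intro _; rw [List.prod_nil, mt_one, mul_one]
    | cons y l' ih =>
      intro hy
      obtain ⟨X, hX⟩ := hy y (List.mem_cons_self)
      rw [List.prod_cons, mt_mul, ← mul_assoc, hX, h2, ih fun z hz => hy z (List.mem_cons_of_mem _ hz)]
  rw [hl]
  refine h8 _ fun y hy => ?_
  obtain ⟨X, _, hX⟩ := List.mem_map.1 hy
  exact ⟨X, hX.symm⟩

end

end Pool.Agent.N991.MK
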