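import Mathlib
import Pool.Agent.N991.MK.Lip7
import Pool.Agent.N988.MK.Pair5

/-!
# Lower Lipschitz bound of the Wilson observable on the pairs of normalised states
-/

open MeasureTheory Matrix Filter Metric
open scoped Matrix.Norms.Frobenius ContDiff Topology
open Pool.Agent.H906R3.YM Pool.Agent.W793.YM Pool.Agent.TH618.YM Pool.Agent.N984.TW
open Pool.Agent.N988.MK (St qC qC_rl LN IsoG Cst exists_Cst PS TB_diff cn cn_nonneg)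
open Pool.Agent.N989.MK (WW)

namespace Pool.Agent.N991.MK

set_option linter.unusedSectionVars false

noncomputable section

variable {N n : ℕ} {G : Subgroup (UN N)} {P : Mat N}
variable [CompactSpace G] [MeasurableSpace G] [BorelSpace G]

lemma absorb2 {c0 C δ l T κ k r W X : ℝ} (hκ : 0 < κ) (hκk : κ ≤ k) (hkκ : k ≤ 2 * κ)
    (hc0 : 0 < c0) (hC : 0 ≤ C)
    (hδ : 0 ≤ δ) (hl : 0 ≤ l) (hr : 0 < r) (hr1 : r ≤ 1) (hT : T ≤ δ + 2 * l)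
    (hX : X = 2 * C / c0) (hXκ : X ≤ κ) (h : c0 * δ / κ ^ 2 - C * (l + T) / κ ^ 3 ≤ W) :
    c0 / 2 * δ / k ^ 2 ≤ W + 24 * C * l / k ^ 3 := by
  have hk : 0 < k := by linarith
  have h1 : C * (l + T) / κ ^ 3 ≤ C * (3 * l) / κ ^ 3 + c0 / 2 * δ / κ ^ 2 := by
    have h2 : C * (l + T) ≤ C * (3 * l) + C * δ := by
      calc C * (l + T) ≤ C * (l + (δ + 2 * l)) := by gcongr
        _ = _ := by ring
    have h3 : C * δ ≤ c0 / 2 * δ * κ := by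
      rw [hX, div_le_iff₀ hc0] at hXκ
      calc C * δ ≤ (κ * c0 / 2) * δ := by gcongr; linarith
        _ = _ := by ring
    calc C * (l + T) / κ ^ 3 ≤ (C * (3 * l) + c0 / 2 * δ * κ) / κ ^ 3 := by gcongr; linarith
      _ = _ := by field_simp
  have h4 : c0 / 2 * δ / κ ^ 2 ≤ W + C * (3 * l) / κ ^ 3 := by
    have h5 : c0 * δ / κ ^ 2 = c0 / 2 * δ / κ ^ 2 + c0 / 2 * δ / κ ^ 2 := by ring
    linarith
  have h6 : c0 / 2 * δ / k ^ 2 ≤ c0 / 2 * δ / κ ^ 2 :=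
    div_le_div_of_nonneg_left (by positivity) (by positivity) (pow_le_pow_left₀ hκ.le hκk 2)
  have h7 : C * (3 * l) / κ ^ 3 ≤ 24 * C * l / k ^ 3 := by
    rw [div_le_div_iff₀ (by positivity) (by positivity)]
    have h8 : k ^ 3 ≤ (2 * κ) ^ 3 := pow_le_pow_left₀ hk.le hkκ 3
    calc C * (3 * l) * k ^ 3 ≤ C * (3 * l) * (2 * κ) ^ 3 := by gcongr
      _ = _ := by ring
  linarith

/-- **the lower Lipschitz bound of the Wilson observable on pairs** -/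
theorem wilLipX (B : Frame G n) (hG : IsClosed (G : Set (UN N))) (μ : Measure G)
    [IsProbabilityMeasure μ] [μ.IsMulLeftInvariant] [μ.IsMulRightInvariant] [μ.IsInvInvariant]
    (hI : IsoG B) (hn : 0 < n) (hP : IPr G P) (hP0 : 0 < (trace P).re)
    (hPX : ∃ a, P * B.X a ≠ 0) :
    ∃ r2 ε2 : ℝ, 0 < r2 ∧ 0 < ε2 ∧ ∀ r : ℝ, 0 < r → r ≤ r2 →
      GoodR B r → ∃ k0 C c0 : ℝ, 1 ≤ k0 ∧ 0 ≤ C ∧ 0 < c0 ∧
      ∀ {ε k₁ k₂ M₁ M₂ l : ℝ} {f₁ f₂ : G → ℝ}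
      {F₁ F₂ : (Mat N)ˣ → ℂ} {m₁ m₂ : (Fin n → ℂ) → ℂ}, ε ≤ ε2 → k0 ≤ k₁ → k0 ≤ k₂ →
      PS B r ε k₁ k₂ M₁ M₂ l f₁ f₂ F₁ F₂ m₁ m₂ → |k₂ - k₁| ≤ ε2 * min k₁ k₂ →
      2 * l * r ^ 2 ≤ min k₁ k₂ / 20000 →
      c0 * |k₁ - k₂| / k₁ ^ 2 ≤ |WW μ (chiP P : G → ℝ) f₁ - WW μ (chiP P : G → ℝ) f₂| +
        C * l / k₁ ^ 3 := by
  obtain ⟨r2, hr2, h⟩ := wil_lip B hG μ hI hn hP hP0 hPX
  refine ⟨r2, 1 / 20000, hr2, by norm_num, fun r hr hrr hgr => ?_⟩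
  obtain ⟨k0, c0, C, hk0, hc0, hC, h⟩ := h r hr hrr hgr
  refine ⟨max k0 (2 * C / c0), 24 * C, c0 / 2, hk0.trans (le_max_left _ _), by positivity,
    by positivity, fun {ε k₁ k₂ M₁ M₂ l f₁ f₂ F₁ F₂ m₁ m₂} hε hk1 hk2 hps hδ hlr => ?_⟩
  obtain ⟨κ, hκd⟩ : ∃ κ, κ = min k₁ k₂ := ⟨_, rfl⟩
  have b1 : κ ≤ k₁ := by rw [hκd]; exact min_le_left _ _
  have b2 : κ ≤ k₂ := by rw [hκd]; exact min_le_right _ _
  have b0 : max k0 (2 * C / c0) ≤ κ := by rw [hκd]; exact le_min hk1 hk2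
  have hκ0' : k0 ≤ κ := (le_max_left _ _).trans b0
  have hκX : 2 * C / c0 ≤ κ := (le_max_right _ _).trans b0
  have hκ0 : 0 < κ := by linarith
  rw [← hκd] at hδ hlr
  have hδ' := abs_le.1 hδ
  have b3 : k₁ ≤ 1.0001 * κ := by
    rcases le_total k₁ k₂ with h1 | h1
    · rw [hκd, min_eq_left h1]; rw [hκd, min_eq_left h1] at hκ0; linarith
    · have : κ = k₂ := by rw [hκd, min_eq_right h1]
      linarith [hδ'.1]
  have b4 : k₂ ≤ 1.0001 * κ := by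
    rcases le_total k₁ k₂ with h1 | h1
    · have : κ = k₁ := by rw [hκd, min_eq_left h1]
      linarith [hδ'.2]
    · rw [hκd, min_eq_right h1]; rw [hκd, min_eq_right h1] at hκ0; linarith
  have hN1 := hps.N1
  have hN2 := hps.N2
  have hD := hps.D
  have hl0 := hD.l0
  have hk1p : 0 ≤ k₁ := by linarith
  have hk2p : 0 ≤ k₂ := by linarith
  have hM1 : M₁ * r ^ 2 ≤ k₁ / 2000 := by
    refine hN1.Ml.trans ?_
    calc ε * k₁ ≤ 1 / 20000 * k₁ := mul_le_mul_of_nonneg_right hε hk1p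
      _ ≤ _ := by linarith
  have hM2 : M₂ * r ^ 2 ≤ k₂ / 2000 := by
    refine hN2.Ml.trans ?_
    calc ε * k₂ ≤ 1 / 20000 * k₂ := mul_le_mul_of_nonneg_right hε hk2p
      _ ≤ _ := by linarith
  have hTB := TB_diff hgr hN1.st hN2.st hN1.one hN2.one hκ0 b1 b3 hM1 hl0 hD.bd
    (by linarith) (by rw [hκd]; exact hD.tb)
  have hr1 : r ≤ 1 := hgr.le.trans (by norm_num)
  have hr21 : r ^ 2 ≤ 1 := by nlinarith
  have hcn : cn r k₁ k₂ l ≤ |k₁ - k₂| + l := by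
    unfold cn
    rw [abs_sub_comm k₂ k₁]
    have h1 : 0 ≤ |k₁ - k₂| := abs_nonneg _
    have h2 : l * r ^ 2 ≤ l * 1 := mul_le_mul_of_nonneg_left hr21 hl0
    have h3 : 0 ≤ l * r ^ 2 := by positivity
    calc (|k₁ - k₂| / 2 + l * r ^ 2) * r ^ 2 ≤ (|k₁ - k₂| / 2 + l * r ^ 2) * 1 := by gcongr
      _ ≤ _ := by linarith
  have hT0 : 0 ≤ max (cn r k₁ k₂ l) l := hl0.trans (le_max_right _ _)
  have hTle : max (cn r k₁ k₂ l) l ≤ |k₁ - k₂| + 2 * l := by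
    have h1 : 0 ≤ |k₁ - k₂| := abs_nonneg _
    exact max_le (by linarith) (by linarith)
  have hfin := h hκ0' b1 b3 b2 b4 hN1.M0 hN2.M0 hM1 hM2 hN1.cf hN2.cf hN1.pos hN2.pos hN1.one
    hN2.one hN1.st hN2.st hN1.tb hN2.tb hl0 hT0 (by linarith) hD.bd hTB
  exact absorb2 hκ0 b1 (by linarith) hc0 hC (abs_nonneg _) hl0 hr hr1 hTle rfl hκX hfin

end

end Pool.Agent.N991.MK
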