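import Mathlib
import Pool.Agent.N988.MK.Pair10
import Pool.Agent.N989.MK.Ent

/-!
# The weak coupling flow for all entrances
-/

open MeasureTheory Filter Metric Asymptotics Matrix
open scoped Matrix.Norms.Frobenius Topology ContDiff
open Pool.Agent.H906R3.YM Pool.Agent.W793.YM Pool.Agent.TH618.YM Pool.Agent.N984.TW
open Pool.Agent.N988.MK (IsoG St FSt PSt QSt flow_R pair_R pairFlow_of WilLipX)

namespace Pool.Agent.N991.MK

set_option linter.unusedSectionVars false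

noncomputable section

variable {N n : ℕ} {G : Subgroup (UN N)} {B : Frame G n} {hG : IsClosed (G : Set (UN N))}
variable [CompactSpace G] [MeasurableSpace G] [BorelSpace G] [SecondCountableTopology G]
  {μ : Measure G} [IsProbabilityMeasure μ] [μ.IsHaarMeasure] [μ.IsMulRightInvariant]
  [μ.IsInvInvariant]

lemma LBw.mono {f : G → ℝ} {δ δ' : ℝ} (h : LBw f δ) (hδ : δ' ≤ δ) : LBw f δ' := by
  obtain ⟨S, h0, h1, h2, h3⟩ := h
  exact ⟨S, h0, h1, h2, fun x => (mul_le_mul_of_nonneg_right hδ h0.le).trans (h3 x)⟩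

/-- the constants of an entrance can be enlarged -/
lemma Ent.mono {w : ℝ → G → ℝ} {W : ℝ → (Mat N)ˣ → ℂ} {mw : ℝ → (Fin n → ℂ) → ℂ}
    {r0 CW Λ r0' CW' Λ' : ℝ} (E : Ent B w W mw r0 CW Λ) (hr : 0 < r0') (hr' : r0' ≤ r0)
    (hC : CW ≤ CW') (hL : Λ ≤ Λ') : Ent B w W mw r0' CW' Λ' := by
  refine ⟨hr, E.C_nn.trans hC, E.L_nn.trans hL, E.cf, E.pos, fun r h1 h2 β hβ => ?_,
    fun r h1 h2 β hβ => E.tube r h1 (h2.trans hr') β hβ, fun β hβ => (E.low β hβ).mono ?_⟩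
  · have h3 := E.st r h1 (h2.trans hr') β hβ
    refine ⟨h3.eq, h3.md, h3.even, fun x hx => (h3.bd x hx).trans ?_⟩
    refine mul_le_mul_of_nonneg_right (mul_le_mul_of_nonneg_right hC hβ) ?_
    have := N988.MK.nC_nonneg x
    positivity
  · exact Real.exp_le_exp.2 (neg_le_neg (mul_le_mul_of_nonneg_right hL hβ))

include hG in
/-- **the weak coupling flow with the comparison of pairs, for all entrances** -/
theorem exists_flowU [ConnectedSpace G] {χ : G → ℝ} {A : ℝ} (hA : 0 ≤ A)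
    (hnc : ∃ g h : G, g * h ≠ h * g)
    (hs : ∀ H : Subgroup G, H.Normal → IsClosed (H : Set G) → Finite H ∨ H = ⊤)
    (hW : WilLawX B μ χ A) (hL : WilLipX B μ χ) {cA : ℝ} (hcA0 : 0 < cA)
    (hcA : ∀ x : Fin n → ℝ,
      ∑ a, ‖LX B x * B.X a - B.X a * LX B x‖ ^ 2 = cA * ∑ a, x a ^ 2)
    {r₂ CW Λ : ℝ} (hr₂ : 0 < r₂) (hCW : 0 ≤ CW) :
    ∃ (P : (G → ℝ) → ℝ → ℝ → Prop) (Q : (G → ℝ) → (G → ℝ) → ℝ → ℝ → ℝ → Prop)
      (h0 C R h1 ε C' c0 : ℝ) (Dm : ℕ),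
      (∀ (w : ℝ → G → ℝ) (W : ℝ → (Mat N)ˣ → ℂ) (mw : ℝ → (Fin n → ℂ) → ℂ),
        Ent B w W mw r₂ CW Λ → Pool.Agent.N989.MK.Flow μ χ (Pool.Agent.N989.MK.EDG B hG)
          w P (cA / 8) h0 C A R) ∧
      Pool.Agent.N989.MK.PairFlow μ χ P Q h1 ε C' c0 Dm := by
  have hI : IsoG B := isoG_of_simple B hG hnc hs
  have hn : 0 < n := Pool.Agent.N988.MK.frame_pos B hG hnc
  have hcA' : ∀ x : Fin n → ℝ, ∑ a, ‖LX B x * B.X a - B.X a * LX B x‖ ^ 2 = cA * nE x ^ 2 :=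
    fun x => by rw [hcA x, Pool.Agent.N991.MK.nE_sq]
  obtain ⟨r₁, ε₁, hr₁, hε₁, hε1, hflow⟩ := flow_R (B := B) μ hG hI hn hcA' Λ
  obtain ⟨r₅, ε₅, ε₂, hr₅, hr₅1, hε₅, hε₂, hε₂1, hpair⟩ := pair_R B μ hG hI hn hcA'
  obtain ⟨r₆, ε₆, hr₆, hε₆, hlip⟩ := hL
  obtain ⟨r₄, hr₄, hwl⟩ := hW
  obtain ⟨ε, hεd⟩ : ∃ ε : ℝ, ε = min (min ε₁ ε₅) (min ε₆ (ε₂ / 10)) := ⟨_, rfl⟩
  have hε : 0 < ε := by
    rw [hεd]; exact lt_min (lt_min hε₁ hε₅) (lt_min hε₆ (by positivity))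
  have hεε₁ : ε ≤ ε₁ := by rw [hεd]; exact (min_le_left _ _).trans (min_le_left _ _)
  have hεε₅ : ε ≤ ε₅ := by rw [hεd]; exact (min_le_left _ _).trans (min_le_right _ _)
  have hεε₆ : ε ≤ ε₆ := by rw [hεd]; exact (min_le_right _ _).trans (min_le_left _ _)
  have hεε₂ : ε ≤ ε₂ / 10 := by rw [hεd]; exact (min_le_right _ _).trans (min_le_right _ _)
  have hε' : 0 < ε / (CW + 1) := by positivity
  obtain ⟨r, hrdef⟩ : ∃ r : ℝ, r = min (min r₅ r₆) (min (min r₁ r₂)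
    (min (min r₂ r₄) (min 1 (ε / (CW + 1))))) := ⟨_, rfl⟩
  have hr : 0 < r := by
    rw [hrdef]
    refine lt_min (lt_min hr₅ hr₆) (lt_min (lt_min hr₁ hr₂) (lt_min (lt_min hr₂ hr₄)
      (lt_min one_pos hε')))
  have hrr₅ : r ≤ r₅ := by rw [hrdef]; exact (min_le_left _ _).trans (min_le_left _ _)
  have hrr₆ : r ≤ r₆ := by rw [hrdef]; exact (min_le_left _ _).trans (min_le_right _ _)
  have hrx : r ≤ min (min r₁ r₂) (min (min r₂ r₄) (min 1 (ε / (CW + 1)))) := by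
    rw [hrdef]; exact min_le_right _ _
  have hrr₁ : r ≤ r₁ := hrx.trans ((min_le_left _ _).trans (min_le_left _ _))
  have hrr₂ : r ≤ r₂ := hrx.trans ((min_le_left _ _).trans (min_le_right _ _))
  have hrr₄ : r ≤ r₄ := hrx.trans ((min_le_right _ _).trans ((min_le_left _ _).trans
    (min_le_right _ _)))
  have hr1 : r ≤ 1 := hrx.trans ((min_le_right _ _).trans ((min_le_right _ _).trans
    (min_le_left _ _)))
  have hrε : r ≤ ε / (CW + 1) := hrx.trans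
    ((min_le_right _ _).trans ((min_le_right _ _).trans (min_le_right _ _)))
  have hCWr : CW * r ^ 2 ≤ ε := by
    have h1 : r ^ 2 ≤ r := by nlinarith
    have h2 : r * (CW + 1) ≤ ε := (le_div_iff₀ (by positivity)).1 hrε
    nlinarith
  obtain ⟨hgr, h1, K, hh1, hK, hKN, hstep⟩ := hflow ε hε hεε₁ r hr hrr₁
  obtain ⟨kp, Kp, hkp, hKp, hpair⟩ := hpair ε hε hεε₅ r hr hrr₅
  obtain ⟨kl, Cl, cl, hkl, hCl, hcl, hlip⟩ := hlip r hr hrr₆ hgr
  obtain ⟨k0, C, hk0, hC, hwl⟩ := hwl r hr hrr₄ hgr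
  have hsc := fun H => Chain.sc (μ := μ) (C1 := K) (h0 := h1) hG hgr (by linarith) H
  obtain ⟨h2, ε₀, C', Dm, PF⟩ := pairFlow_of (μ := μ) (χ := χ) (h0 := h1) (C1 := K) hG hn hgr hr1
    hε₂ hε₂1 hεε₂ hε₆ hεε₆ hkp hKp hCl hcl hpair hlip
  refine ⟨PSt B μ r ε h1 K, QSt B r ε ε₂, max (max h1 k0) (2 * K), max (2 * K) C, CW, h2, ε₀, C',
    cl, Dm, fun w W mw E => ?_, PF⟩
  have m1 : h1 ≤ max (max h1 k0) (2 * K) := (le_max_left _ _).trans (le_max_left _ _)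
  have m2 : k0 ≤ max (max h1 k0) (2 * K) := (le_max_right _ _).trans (le_max_left _ _)
  have m3 : 2 * K ≤ max (max h1 k0) (2 * K) := le_max_right _ _
  have m4 : 2 * K ≤ max (2 * K) C := le_max_left _ _
  have m5 : C ≤ max (2 * K) C := le_max_right _ _
  refine ⟨by positivity, by linarith, by linarith, hA, hCW, fun f h ρ h => h.1, ?_, ?_,
    ?_, ?_⟩
  · -- start
    intro β hβ
    have hβ0 : 0 ≤ β := by linarith
    refine ⟨CW, le_rfl, hCW, W β, mw β, E.cf β hβ0, E.pos β,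
      E.st r hr hrr₂ β hβ0, E.tube r hr hrr₂ β hβ0, by positivity, by nlinarith, ?_⟩
    refine Chain.base _ _ _ _ (m1.trans hβ) ((E.low β hβ0).mono ?_)
    exact Real.exp_le_exp.2 (neg_le_neg (mul_le_mul_of_nonneg_right hKN hβ0))
  · -- step
    intro f h ρ hP hh
    obtain ⟨hρ, hst⟩ := hP
    have hh0 : 0 < h := by linarith
    obtain ⟨k', M', a1, a2, a3, a4⟩ := hstep (m1.trans hh) hst
    have a2' := abs_le.1 a2
    have hk' : h / 2 ≤ k' := by linarith [a2'.1]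
    have hk0' : 0 < k' := by linarith
    have hM' : 0 ≤ M' := by
      obtain ⟨F, m, _, _, _, _, h5, _⟩ := a4
      exact h5
    refine ⟨k', M' / k', ⟨by positivity, ?_⟩, ?_, ?_⟩
    · rw [div_mul_cancel₀ _ hk0'.ne']
      exact a4
    · have e : k' - h + cA / 8 = k' - (h - cA / 8) := by ring
      rw [e]
      refine a1.trans ?_
      have e2 : K * (1 + ρ * h) / h = K * (ρ + 1 / h) := by
        field_simp
        ring
      rw [e2]
      refine mul_le_mul_of_nonneg_right ?_ (by positivity)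
      linarith
    · rw [div_le_iff₀ hk0']
      have e3 : (ρ / 4 + max (2 * K) C / h) * (h / 2) = ρ * h / 8 + max (2 * K) C / 2 := by
        field_simp
        ring
      have e4 : (ρ / 4 + max (2 * K) C / h) * (h / 2) ≤ (ρ / 4 + max (2 * K) C / h) * k' := by
        have : 0 ≤ ρ / 4 + max (2 * K) C / h := by
          have : 0 ≤ max (2 * K) C := by linarith
          positivity
        exact mul_le_mul_of_nonneg_left hk' this
      have e5 : 0 ≤ ρ * h := by positivity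
      linarith
  · -- the observable
    intro f h ρ hP hh
    obtain ⟨hρ, F, m, b1, b2, b3, b4, b5, b6, b7⟩ := hP
    have hh0 : 0 < h := by linarith
    refine (hwl (m2.trans hh) b5 (by nlinarith) b1 b2 b3 b4).trans ?_
    have e2 : C * (1 + ρ * h) / h ^ 2 = C * (ρ + 1 / h) / h := by
      field_simp
      ring
    rw [e2]
    refine div_le_div_of_nonneg_right (mul_le_mul_of_nonneg_right m5 (by positivity)) hh0.le
  · -- the entropy bound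
    intro H
    obtain ⟨K', hK', hsc'⟩ := hsc H
    refine ⟨K', hK', fun f h ρ hP hh hH X x => ?_⟩
    obtain ⟨hρ, F, m, b1, b2, b3, b4, b5, b6, b7⟩ := hP
    have hh0 : 0 < h := by linarith
    exact hsc' b7 (m1.trans hh) hH b1 b2 (by nlinarith) b3.nearS b4 X x

/-- **the weak coupling flow for all entrances, Wilson loops in a constituent** -/
theorem weak_flowU [ConnectedSpace G] (B : Frame G n) (hG : IsClosed (G : Set (UN N)))
    (μ : Measure G) [IsProbabilityMeasure μ] [μ.IsHaarMeasure] [μ.IsMulRightInvariant]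
    [μ.IsInvInvariant] (hnc : ∃ g h : G, g * h ≠ h * g)
    (hs : ∀ H : Subgroup G, H.Normal → IsClosed (H : Set G) → Finite H ∨ H = ⊤)
    {P : Mat N} (hP : IPr G P) (hP0 : 0 < (trace P).re) (hPg : ∃ g : G, P * mt g ≠ P) :
    ∃ cA : ℝ, 0 < cA ∧
      (∀ x : Fin n → ℝ, ∑ a, ‖LX B x * B.X a - B.X a * LX B x‖ ^ 2 = cA * ∑ a, x a ^ 2) ∧
      ∀ r₀ CW Λ : ℝ, 0 < r₀ → 0 ≤ CW →
      ∃ (St : (G → ℝ) → ℝ → ℝ → Prop) (Q : (G → ℝ) → (G → ℝ) → ℝ → ℝ → ℝ → Prop)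
        (h0 C R h1 ε C' c0 : ℝ) (Dm : ℕ),
        (∀ (w : ℝ → G → ℝ) (W : ℝ → (Mat N)ˣ → ℂ) (mw : ℝ → (Fin n → ℂ) → ℂ),
          Ent B w W mw r₀ CW Λ → Pool.Agent.N989.MK.Flow μ (chiP P : G → ℝ)
            (Pool.Agent.N989.MK.EDG B hG) w St (cA / 8) h0 C
            ((∑ a, ‖P * B.X a‖ ^ 2) / (2 * (trace P).re)) R) ∧
        Pool.Agent.N989.MK.PairFlow μ (chiP P : G → ℝ) St Q h1 ε C' c0 Dm := by
  obtain ⟨cA, hcA0, hcA⟩ := exists_cA B hG hnc hs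
  exact ⟨cA, hcA0, hcA, fun r₀ CW Λ hr₀ hCW => exists_flowU (hG := hG) (by positivity) hnc hs
    (wil_lawP B hG μ hP hP0) (wilLipX B hG μ (isoG_of_simple B hG hnc hs)
      (Pool.Agent.N988.MK.frame_pos B hG hnc) hP
      hP0 (exists_PX B hG hPg)) hcA0 hcA hr₀ hCW⟩

/-- **two entrances of the same flow** -/
theorem weak_flowE [ConnectedSpace G] (B : Frame G n) (hG : IsClosed (G : Set (UN N)))
    (μ : Measure G) [IsProbabilityMeasure μ] [μ.IsHaarMeasure] [μ.IsMulRightInvariant]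
    [μ.IsInvInvariant] (hnc : ∃ g h : G, g * h ≠ h * g)
    (hs : ∀ H : Subgroup G, H.Normal → IsClosed (H : Set G) → Finite H ∨ H = ⊤)
    {P : Mat N} (hP : IPr G P) (hP0 : 0 < (trace P).re) (hPg : ∃ g : G, P * mt g ≠ P) :
    ∃ cA : ℝ, 0 < cA ∧
      (∀ x : Fin n → ℝ, ∑ a, ‖LX B x * B.X a - B.X a * LX B x‖ ^ 2 = cA * ∑ a, x a ^ 2) ∧
      ∀ {w₁ w₂ : ℝ → G → ℝ} {W₁ W₂ : ℝ → (Mat N)ˣ → ℂ} {m₁ m₂ : ℝ → (Fin n → ℂ) → ℂ}
        {r₁ C₁ Λ₁ r₂ C₂ Λ₂ : ℝ}, Ent B w₁ W₁ m₁ r₁ C₁ Λ₁ → Ent B w₂ W₂ m₂ r₂ C₂ Λ₂ →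
      ∃ (St : (G → ℝ) → ℝ → ℝ → Prop) (Q : (G → ℝ) → (G → ℝ) → ℝ → ℝ → ℝ → Prop)
        (h0 C R h1 ε C' c0 : ℝ) (Dm : ℕ),
        Pool.Agent.N989.MK.Flow μ (chiP P : G → ℝ) (Pool.Agent.N989.MK.EDG B hG) w₁ St
          (cA / 8) h0 C ((∑ a, ‖P * B.X a‖ ^ 2) / (2 * (trace P).re)) R ∧
        Pool.Agent.N989.MK.Flow μ (chiP P : G → ℝ) (Pool.Agent.N989.MK.EDG B hG) w₂ St
          (cA / 8) h0 C ((∑ a, ‖P * B.X a‖ ^ 2) / (2 * (trace P).re)) R ∧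
        Pool.Agent.N989.MK.PairFlow μ (chiP P : G → ℝ) St Q h1 ε C' c0 Dm := by
  obtain ⟨cA, hcA0, hcA, h⟩ := weak_flowU B hG μ hnc hs hP hP0 hPg
  refine ⟨cA, hcA0, hcA, fun {w₁ w₂ W₁ W₂ m₁ m₂ r₁ C₁ Λ₁ r₂ C₂ Λ₂} E₁ E₂ => ?_⟩
  have hr : 0 < min r₁ r₂ := lt_min E₁.r_pos E₂.r_pos
  obtain ⟨St, Q, h0, C, R, h1, ε, C', c0, Dm, F, PF⟩ := h (min r₁ r₂) (max C₁ C₂) (max Λ₁ Λ₂) hr
    (E₁.C_nn.trans (le_max_left _ _))
  exact ⟨St, Q, h0, C, R, h1, ε, C', c0, Dm,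
    F _ _ _ (E₁.mono hr (min_le_left _ _) (le_max_left _ _) (le_max_left _ _)),
    F _ _ _ (E₂.mono hr (min_le_right _ _) (le_max_right _ _) (le_max_right _ _)), PF⟩

end

end Pool.Agent.N991.MK
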