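import Mathlib
import Pool.Agent.N991.MK.Iso
import Pool.Agent.N991.MK.TwoG

/-!
# The contractions of the quartic Casimir form
-/

open MeasureTheory Filter Metric Asymptotics Matrix
open scoped Matrix.Norms.Frobenius Topology ContDiff
open Pool.Agent.H906R3.YM Pool.Agent.W793.YM Pool.Agent.TH618.YM Pool.Agent.N984.TW
open Pool.Agent.N988.MK (LX_star)

namespace Pool.Agent.N991.MK

set_option linter.unusedSectionVars false

noncomputable section

section
variable {N : ℕ}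

lemma ip_cm {X : Mat N} (hX : Xᴴ = -X) (A D : Mat N) : ip (cm X A) D = -ip A (cm X D) := by
  unfold cm
  rw [ip_apply, ip_apply, conjTranspose_sub, conjTranspose_mul, conjTranspose_mul, hX]
  have h1 : trace ((Aᴴ * -X - -X * Aᴴ) * D) = -trace (Aᴴ * (X * D - D * X)) := by
    have e1 : (Aᴴ * -X - -X * Aᴴ) * D = X * (Aᴴ * D) - Aᴴ * (X * D) := by noncomm_ring
    have e2 : Aᴴ * (X * D - D * X) = Aᴴ * (X * D) - Aᴴ * D * X := by noncomm_ring
    rw [e1, e2, trace_sub, trace_sub, trace_mul_comm X]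
    ring
  rw [h1, Complex.neg_re]

lemma ip_self (A : Mat N) : ip A A = ‖A‖ ^ 2 := (norm_sq_ip A).symm

lemma cm_swap (A D : Mat N) : cm A D = -cm D A := by
  unfold cm
  noncomm_ring

lemma cm_jac (A D E : Mat N) : cm A (cm D E) - cm D (cm A E) = cm (cm A D) E := by
  unfold cm
  noncomm_ring

end

variable {N n : ℕ} {G : Subgroup (UN N)} {B : Frame G n}

/-- elements of the Lie algebra -/
def InL (B : Frame G n) (Z : Mat N) : Prop := ∃ z, Z = LX B z

lemma inL_X (a : Fin n) : InL B (B.X a) := ⟨Pi.single a 1, (LX_single B a).symm⟩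

lemma inL_cm (hG : IsClosed (G : Set (UN N))) {Z W : Mat N} (hZ : InL B Z) (hW : InL B W) :
    InL B (cm Z W) := by
  obtain ⟨z, rfl⟩ := hZ
  obtain ⟨w, rfl⟩ := hW
  exact ⟨Brk B z w, (LX_Brk B hG z w).symm⟩

lemma X_star (a : Fin n) : (B.X a)ᴴ = -B.X a := by
  have := LX_star B (Pi.single a 1)
  rwa [LX_single] at this

/-- the Casimir identity, polarised -/
lemma cas_pol {cA : ℝ} (hcA : ∀ x : Fin n → ℝ,
      ∑ a, ‖LX B x * B.X a - B.X a * LX B x‖ ^ 2 = cA * ∑ a, x a ^ 2) {Z W : Mat N}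
    (hZ : InL B Z) (hW : InL B W) :
    ∑ b, ip (cm (B.X b) Z) (cm (B.X b) W) = cA * ip Z W := by
  obtain ⟨z, rfl⟩ := hZ
  obtain ⟨w, rfl⟩ := hW
  have h1 := hcA (z + w)
  have h2 : ∀ a, ‖LX B (z + w) * B.X a - B.X a * LX B (z + w)‖ ^ 2 =
      ‖LX B z * B.X a - B.X a * LX B z‖ ^ 2 + 2 * ip (cm (B.X a) (LX B z)) (cm (B.X a) (LX B w)) +
      ‖LX B w * B.X a - B.X a * LX B w‖ ^ 2 := by
    intro a
    have e : LX B (z + w) * B.X a - B.X a * LX B (z + w) =
        -(cm (B.X a) (LX B z) + cm (B.X a) (LX B w)) := by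
      rw [LX_add]
      unfold cm
      noncomm_ring
    have e1 : ‖LX B z * B.X a - B.X a * LX B z‖ = ‖cm (B.X a) (LX B z)‖ := norm_sub_rev _ _
    have e2 : ‖LX B w * B.X a - B.X a * LX B w‖ = ‖cm (B.X a) (LX B w)‖ := norm_sub_rev _ _
    rw [e, e1, e2, norm_neg, norm_sq_ip, norm_sq_ip, norm_sq_ip, ip_add_left, map_add, map_add,
      ip_comm (cm (B.X a) (LX B w)) (cm (B.X a) (LX B z))]
    ring
  simp only [h2, Finset.sum_add_distrib, ← Finset.mul_sum] at h1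
  rw [hcA z, hcA w] at h1
  have h3 : ∑ a, (z + w) a ^ 2 = ∑ a, z a ^ 2 + 2 * ∑ a, z a * w a + ∑ a, w a ^ 2 := by
    rw [Finset.mul_sum, ← Finset.sum_add_distrib, ← Finset.sum_add_distrib]
    refine Finset.sum_congr rfl fun a _ => ?_
    rw [Pi.add_apply]
    ring
  rw [h3] at h1
  rw [ip_LX B z w]
  unfold dotProduct
  linarith

/-- **the contractions of the quartic Casimir form** -/
theorem casPair (hG : IsClosed (G : Set (UN N))) {cA : ℝ} (hcA : ∀ x : Fin n → ℝ,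
      ∑ a, ‖LX B x * B.X a - B.X a * LX B x‖ ^ 2 = cA * ∑ a, x a ^ 2) : CasPair B cA := by
  have P : ∀ {Z W : Mat N}, InL B Z → InL B W →
      ∑ b, ip (cm (B.X b) Z) (cm (B.X b) W) = cA * ip Z W := fun hZ hW => cas_pol hcA hZ hW
  have X1 : ∀ a, ip (B.X a) (B.X a) = 1 := by
    intro a
    have h := ip_LX B (Pi.single a 1) (Pi.single a 1)
    rw [LX_single] at h
    rw [h]
    simp
  have L : ∀ {Z W : Mat N}, InL B Z → InL B W → InL B (cm Z W) := fun hZ hW => inL_cm hG hZ hW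
  -- the first contraction
  have t1 : ∀ a, ∑ b, ∑ d, ip (cm (B.X b) (cm (B.X b) (B.X a)))
      (cm (B.X d) (cm (B.X d) (B.X a))) = cA ^ 2 := by
    intro a
    rw [Finset.sum_comm]
    have h1 : ∀ d, ∑ b, ip (cm (B.X b) (cm (B.X b) (B.X a))) (cm (B.X d) (cm (B.X d) (B.X a))) =
        cA * ip (cm (B.X d) (B.X a)) (cm (B.X d) (B.X a)) := by
      intro d
      have h2 : ∀ b, ip (cm (B.X b) (cm (B.X b) (B.X a))) (cm (B.X d) (cm (B.X d) (B.X a))) =
          -ip (cm (B.X b) (B.X a)) (cm (B.X b) (cm (B.X d) (cm (B.X d) (B.X a)))) := fun b =>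
        ip_cm (X_star b) _ _
      simp only [h2, Finset.sum_neg_distrib]
      rw [P (inL_X a) (L (inL_X d) (L (inL_X d) (inL_X a))), ip_comm (B.X a), ip_cm (X_star d)]
      ring
    simp only [h1, ← Finset.mul_sum]
    rw [P (inL_X a) (inL_X a), X1]
    ring
  -- the second contraction
  have t2 : ∀ a, ∑ b, ∑ d, ip (cm (B.X b) (cm (B.X d) (B.X a)))
      (cm (B.X b) (cm (B.X d) (B.X a))) = cA ^ 2 := by
    intro a
    rw [Finset.sum_comm]
    have h1 : ∀ d, ∑ b, ip (cm (B.X b) (cm (B.X d) (B.X a))) (cm (B.X b) (cm (B.X d) (B.X a))) =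
        cA * ip (cm (B.X d) (B.X a)) (cm (B.X d) (B.X a)) := fun d =>
      P (L (inL_X d) (inL_X a)) (L (inL_X d) (inL_X a))
    simp only [h1, ← Finset.mul_sum]
    rw [P (inL_X a) (inL_X a), X1]
    ring
  -- the third contraction
  have t4 : ∑ a, ∑ b, ∑ d, ip (cm (cm (B.X b) (B.X d)) (B.X a))
      (cm (cm (B.X b) (B.X d)) (B.X a)) = n * cA ^ 2 := by
    rw [Finset.sum_comm]
    have h1 : ∀ b, ∑ a, ∑ d, ip (cm (cm (B.X b) (B.X d)) (B.X a))
        (cm (cm (B.X b) (B.X d)) (B.X a)) = cA ^ 2 := by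
      intro b
      rw [Finset.sum_comm]
      have h2 : ∀ d, ∑ a, ip (cm (cm (B.X b) (B.X d)) (B.X a)) (cm (cm (B.X b) (B.X d)) (B.X a)) =
          cA * ip (cm (B.X d) (B.X b)) (cm (B.X d) (B.X b)) := by
        intro d
        have h3 : ∀ a, ip (cm (cm (B.X b) (B.X d)) (B.X a)) (cm (cm (B.X b) (B.X d)) (B.X a)) =
            ip (cm (B.X a) (cm (B.X b) (B.X d))) (cm (B.X a) (cm (B.X b) (B.X d))) := by
          intro a
          rw [ip_self, ip_self, cm_swap, norm_neg]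
        simp only [h3]
        rw [P (L (inL_X b) (inL_X d)) (L (inL_X b) (inL_X d)), ip_self, ip_self,
          cm_swap (B.X b) (B.X d), norm_neg]
      simp only [h2, ← Finset.mul_sum]
      rw [P (inL_X b) (inL_X b), X1]
      ring
    simp only [h1]
    rw [Finset.sum_const, Finset.card_univ, Fintype.card_fin, nsmul_eq_mul]
  have t5 : ∑ a, ∑ b, ∑ d, ip (cm (B.X d) (cm (B.X b) (B.X a)))
      (cm (B.X d) (cm (B.X b) (B.X a))) = n * cA ^ 2 := by
    have h1 : ∀ a, ∑ b, ∑ d, ip (cm (B.X d) (cm (B.X b) (B.X a)))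
        (cm (B.X d) (cm (B.X b) (B.X a))) = cA ^ 2 := by
      intro a
      rw [Finset.sum_comm]
      exact t2 a
    simp only [h1]
    rw [Finset.sum_const, Finset.card_univ, Fintype.card_fin, nsmul_eq_mul]
  have s1 : ∑ a, ∑ b, ∑ d, ip (cm (B.X b) (cm (B.X b) (B.X a)))
      (cm (B.X d) (cm (B.X d) (B.X a))) = n * cA ^ 2 := by
    simp only [t1]
    rw [Finset.sum_const, Finset.card_univ, Fintype.card_fin, nsmul_eq_mul]
  have s2 : ∑ a, ∑ b, ∑ d, ip (cm (B.X b) (cm (B.X d) (B.X a)))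
      (cm (B.X b) (cm (B.X d) (B.X a))) = n * cA ^ 2 := by
    simp only [t2]
    rw [Finset.sum_const, Finset.card_univ, Fintype.card_fin, nsmul_eq_mul]
  have j : ∀ a b d, ip (cm (cm (B.X b) (B.X d)) (B.X a)) (cm (cm (B.X b) (B.X d)) (B.X a)) =
      ip (cm (B.X b) (cm (B.X d) (B.X a))) (cm (B.X b) (cm (B.X d) (B.X a))) -
      2 * ip (cm (B.X b) (cm (B.X d) (B.X a))) (cm (B.X d) (cm (B.X b) (B.X a))) +
      ip (cm (B.X d) (cm (B.X b) (B.X a))) (cm (B.X d) (cm (B.X b) (B.X a))) := by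
    intro a b d
    obtain ⟨U, hU⟩ : ∃ U, U = cm (B.X b) (cm (B.X d) (B.X a)) := ⟨_, rfl⟩
    obtain ⟨V, hV⟩ : ∃ V, V = cm (B.X d) (cm (B.X b) (B.X a)) := ⟨_, rfl⟩
    rw [← cm_jac, ← hU, ← hV, sub_eq_add_neg, ip_add_left, map_add, map_add, map_neg, map_neg,
      ip_comm (-V) U, ip_comm (-V) V, map_neg, map_neg]
    ring
  simp only [j, Finset.sum_add_distrib, Finset.sum_sub_distrib, ← Finset.mul_sum] at t4
  rw [s2, t5] at t4
  unfold CasPair
  simp only [Finset.sum_add_distrib]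
  rw [s1, s2]
  linarith

end

end Pool.Agent.N991.MK
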