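import Mathlib
import Pool.Agent.N989.MK.Alpha
import Pool.Agent.N681.MK.Six
import Pool.Agent.N991.MK.TwoL

/-!
# The expansion of order eight of the quadratic form
-/

open MeasureTheory Filter Metric Asymptotics Matrix
open scoped Matrix.Norms.Frobenius Topology ContDiff
open Pool.Agent.H906R3.YM Pool.Agent.W793.YM Pool.Agent.TH618.YM Pool.Agent.N984.TW
open Pool.Agent.N988.MK (BC)

namespace Pool.Agent.N991.MK

noncomputable section

variable {N n : ℕ} {G : Subgroup (UN N)}

/-- **the expansion of order eight of the quadratic form** -/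
theorem h6_all (B : Frame G n) : H6 B := by
  intro r₀ C b h
  obtain ⟨C6, hC6, h6⟩ := Pool.Agent.N681.MK.six_of_alpha h
    (Pool.Agent.N988.MK.B6.alpha_bound h)
  exact ⟨C6, hC6, fun x y hx hy => h6 x y hx hy⟩

end

end Pool.Agent.N991.MK
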