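import Mathlib
import Pool.Agent.N989.MK.Traj

/-!
# Real sequences following the two-loop recursion
-/

namespace Pool.Agent.N991.MK

open Pool.Agent.N989.MK

noncomputable section

/-- the recursion inequalities of the running coupling to two loops, up to the index `J` -/
structure TR2 (c b C H : ℝ) (h ρ : ℕ → ℝ) (J : ℕ) : Prop where
  big : ∀ j < J, H ≤ h j
  st : ∀ j < J, |h (j + 1) - h j + c - b / h j| ≤ C * (ρ j + 1 / h j) ^ 2
  nn : ∀ j < J, 0 ≤ ρ (j + 1)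
  rr : ∀ j < J, ρ (j + 1) ≤ ρ j / 4 + C / h j

/-- the time to the strong coupling -/
def PsiT (c b x : ℝ) : ℝ := x / c + b / c ^ 2 * Real.log x

variable {c b C H R : ℝ} {h ρ : ℕ → ℝ} {J : ℕ}

lemma TR2.nonneg (t : TR2 c b C H h ρ J) (h0 : 0 ≤ ρ 0) : ∀ j ≤ J, 0 ≤ ρ j
  | 0, _ => h0
  | j + 1, hj => t.nn j (by omega)

/-- the errors stay bounded -/
lemma TR2.bd (t : TR2 c b C H h ρ J) (hH : 0 < H) (hCH : C ≤ H) (h0 : 0 ≤ ρ 0)
    (hR : ρ 0 ≤ R) : ∀ j ≤ J, ρ j ≤ R + 2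
  | 0, _ => by linarith
  | j + 1, hj => by
    have h1 := TR2.bd t hH hCH h0 hR j (by omega)
    have h2 := t.rr j (by omega)
    have h3 := t.big j (by omega)
    have h4 : C / h j ≤ 1 := by
      rw [div_le_one (by linarith)]
      linarith
    have h5 : 0 ≤ R := h0.trans hR
    linarith

/-- the one-loop recursion -/
lemma TR2.tr (t : TR2 c b C H h ρ J) (hH : 1 ≤ H) (hC : 0 ≤ C) (hCH : C ≤ H) (h0 : 0 ≤ ρ 0)
    (hR : ρ 0 ≤ R) : TR c (|b| + C * (R + 3) + C) H h ρ J := by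
  have hR0 : 0 ≤ R := h0.trans hR
  have hbd := t.bd (by linarith) hCH h0 hR
  have hnn := t.nonneg h0
  refine ⟨t.big, fun j hj => ?_, t.nn, fun j hj => ?_⟩
  · have h1 := t.big j hj
    have h2 : 0 < h j := by linarith
    have h3 : 1 / h j ≤ 1 := by rw [div_le_one h2]; linarith
    have h4 := hbd j hj.le
    have h5 := hnn j hj.le
    have h6 : 0 < 1 / h j := by positivity
    have e : h (j + 1) - h j + c = (h (j + 1) - h j + c - b / h j) + b * (1 / h j) := by ring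
    rw [e]
    refine (abs_add_le _ _).trans ?_
    rw [abs_mul, abs_of_pos h6]
    have h7 := t.st j hj
    have h8 : C * (ρ j + 1 / h j) ^ 2 ≤ C * (R + 3) * (ρ j + 1 / h j) := by
      have h9 : (ρ j + 1 / h j) ^ 2 ≤ (R + 3) * (ρ j + 1 / h j) := by
        rw [pow_two]
        exact mul_le_mul_of_nonneg_right (by linarith) (by linarith)
      calc C * (ρ j + 1 / h j) ^ 2 ≤ C * ((R + 3) * (ρ j + 1 / h j)) :=
            mul_le_mul_of_nonneg_left h9 hC
        _ = _ := by ring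
    have h10 : |b| * (1 / h j) ≤ |b| * (ρ j + 1 / h j) :=
      mul_le_mul_of_nonneg_left (by linarith) (abs_nonneg b)
    have h11 : 0 ≤ C * (ρ j + 1 / h j) := by positivity
    calc _ ≤ C * (R + 3) * (ρ j + 1 / h j) + |b| * (ρ j + 1 / h j) := by linarith
      _ ≤ _ := by linarith
  · have h1 := t.big j hj
    have h2 : 0 < h j := by linarith
    refine (t.rr j hj).trans ?_
    have h3 : C / h j ≤ (|b| + C * (R + 3) + C) / h j := by
      refine div_le_div_of_nonneg_right ?_ h2.le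
      have : 0 ≤ |b| + C * (R + 3) := by positivity
      linarith
    linarith

/-- the logarithm to second order -/
lemma log_twoT {x : ℝ} (hx : -(1 / 2) ≤ x) : |Real.log (1 + x) - x| ≤ 2 * x ^ 2 := by
  have h1 : 0 < 1 + x := by linarith
  have h2 := Real.log_le_sub_one_of_pos h1
  have h3 := Real.one_sub_inv_le_log_of_pos h1
  have h4 : 1 - (1 + x)⁻¹ = x - x ^ 2 / (1 + x) := by
    field_simp
    ring
  have h5 : x ^ 2 / (1 + x) ≤ 2 * x ^ 2 := by
    rw [div_le_iff₀ h1]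
    nlinarith [sq_nonneg x]
  rw [abs_le]
  constructor
  · linarith
  · have := sq_nonneg x
    linarith

/-- the constant of the step -/
def Kp (c b C R : ℝ) : ℝ :=
  C / c + |b| / c ^ 2 * (|b| + C + 2 * (c + |b| + C * (R + 3) ^ 2) ^ 2)

/-- one step of the time -/
lemma psi_step {x x' ρ : ℝ} (hc : 0 < c) (hC : 0 ≤ C) (hx : 1 ≤ x)
    (hxD : 2 * (c + |b| + C * (R + 3) ^ 2) ≤ x) (hρ : 0 ≤ ρ) (hρR : ρ ≤ R + 2)
    (hs : |x' - x + c - b / x| ≤ C * (ρ + 1 / x) ^ 2) :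
    |PsiT c b x' - PsiT c b x + 1| ≤ Kp c b C R * (ρ + 1 / x) ^ 2 := by
  have hx0 : 0 < x := by linarith
  have hx1 : 1 / x ≤ 1 := by rw [div_le_one hx0]; exact hx
  have hxp : 0 < 1 / x := by positivity
  obtain ⟨D, hD⟩ : ∃ D : ℝ, D = c + |b| + C * (R + 3) ^ 2 := ⟨_, rfl⟩
  have hR3 : 0 ≤ R + 3 := by linarith
  have hD0 : 0 < D := by rw [hD]; positivity
  obtain ⟨V, hV⟩ : ∃ V : ℝ, V = (ρ + 1 / x) ^ 2 := ⟨_, rfl⟩
  have hV1 : (1 / x) ^ 2 ≤ V := by
    rw [hV]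
    exact pow_le_pow_left₀ hxp.le (by linarith) 2
  have hV2 : V ≤ (R + 3) ^ 2 := by
    rw [hV]
    exact pow_le_pow_left₀ (by positivity) (by linarith) 2
  have hV0 : 0 ≤ V := by rw [hV]; positivity
  rw [← hV] at hs
  obtain ⟨E, hE⟩ : ∃ E : ℝ, E = x' - x + c - b / x := ⟨_, rfl⟩
  rw [← hE] at hs
  have hd : x' - x = -c + b * (1 / x) + E := by rw [hE]; ring
  have hdD : |x' - x| ≤ D := by
    rw [hd, hD]
    refine (abs_add_le _ _).trans (add_le_add ((abs_add_le _ _).trans (add_le_add ?_ ?_)) ?_)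
    · rw [abs_neg, abs_of_pos hc]
    · rw [abs_mul, abs_of_pos hxp]
      exact mul_le_of_le_one_right (abs_nonneg b) hx1
    · exact hs.trans (mul_le_mul_of_nonneg_left hV2 hC)
  obtain ⟨t, ht⟩ : ∃ t : ℝ, t = (x' - x) / x := ⟨_, rfl⟩
  have htb : |t| ≤ D / x := by
    rw [ht, abs_div, abs_of_pos hx0]
    exact div_le_div_of_nonneg_right hdD hx0.le
  have ht2 : D / x ≤ 1 / 2 := by
    rw [div_le_iff₀ hx0, hD]
    linarith
  have ht3 : -(1 / 2) ≤ t := by linarith [(abs_le.1 htb).1]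
  have hx' : x' = x * (1 + t) := by
    rw [ht]
    field_simp
    ring
  have h1t : 0 < 1 + t := by linarith
  have hlog : Real.log x' - Real.log x = Real.log (1 + t) := by
    rw [hx', Real.log_mul hx0.ne' h1t.ne']
    ring
  obtain ⟨S, hS⟩ : ∃ S : ℝ, S = Real.log (1 + t) - t := ⟨_, rfl⟩
  have hSb : |S| ≤ 2 * D ^ 2 * V := by
    rw [hS]
    refine (log_twoT ht3).trans ?_
    have h1 : t ^ 2 ≤ (D / x) ^ 2 := by
      rw [← sq_abs t]
      exact pow_le_pow_left₀ (abs_nonneg t) htb 2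
    have h2 : (D / x) ^ 2 = D ^ 2 * (1 / x) ^ 2 := by ring
    rw [h2] at h1
    have h3 : D ^ 2 * (1 / x) ^ 2 ≤ D ^ 2 * V := mul_le_mul_of_nonneg_left hV1 (by positivity)
    linarith
  have e : PsiT c b x' - PsiT c b x + 1 = E / c + b / c ^ 2 * (b * (1 / x) ^ 2 + E * (1 / x) + S) := by
    have e1 : PsiT c b x' - PsiT c b x + 1 = (x' - x) / c + 1 + b / c ^ 2 *
        (Real.log x' - Real.log x) := by
      unfold PsiT
      ring
    have e2 : Real.log (1 + t) = (x' - x) * (1 / x) + S := by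
      rw [hS, ht]
      ring
    rw [e1, hlog, e2, hd]
    field_simp
    ring
  have hEx : |E * (1 / x)| ≤ C * V := by
    rw [abs_mul, abs_of_pos hxp]
    exact (mul_le_of_le_one_right (abs_nonneg E) hx1).trans hs
  have hbx : |b * (1 / x) ^ 2| ≤ |b| * V := by
    rw [abs_mul, abs_of_nonneg (by positivity : (0 : ℝ) ≤ (1 / x) ^ 2)]
    exact mul_le_mul_of_nonneg_left hV1 (abs_nonneg b)
  rw [e]
  refine (abs_add_le _ _).trans ?_
  have f1 : |E / c| ≤ C / c * V := by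
    rw [abs_div, abs_of_pos hc, div_mul_eq_mul_div]
    exact div_le_div_of_nonneg_right hs hc.le
  have f2 : |b / c ^ 2 * (b * (1 / x) ^ 2 + E * (1 / x) + S)| ≤
      |b| / c ^ 2 * ((|b| + C + 2 * D ^ 2) * V) := by
    rw [abs_mul, abs_div, abs_of_pos (by positivity : (0 : ℝ) < c ^ 2)]
    refine mul_le_mul_of_nonneg_left ?_ (by positivity)
    refine (abs_add_le _ _).trans ((add_le_add (abs_add_le _ _) le_rfl).trans ?_)
    linarith
  rw [← hV]
  unfold Kp
  rw [← hD]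
  calc _ ≤ C / c * V + |b| / c ^ 2 * ((|b| + C + 2 * D ^ 2) * V) := add_le_add f1 f2
    _ = _ := by ring

lemma sum_sq_recip : ∀ m : ℕ, ∑ i ∈ Finset.range m, (1 : ℝ) / ((i : ℝ) + 2) ^ 2 ≤
    1 - 1 / ((m : ℝ) + 1)
  | 0 => by simp
  | m + 1 => by
    rw [Finset.sum_range_succ]
    have h1 := sum_sq_recip m
    have h2 : (1 : ℝ) / ((m : ℝ) + 2) ^ 2 ≤ 1 / ((m : ℝ) + 1) - 1 / ((m : ℝ) + 2) := by
      have e : (1 : ℝ) / ((m : ℝ) + 1) - 1 / ((m : ℝ) + 2) = 1 / (((m : ℝ) + 1) * (m + 2)) := by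
        field_simp
        ring
      rw [e]
      have : (0 : ℝ) ≤ m := Nat.cast_nonneg m
      exact one_div_le_one_div_of_le (by positivity) (by nlinarith)
    push_cast
    have e : (m : ℝ) + 1 + 1 = m + 2 := by ring
    rw [e]
    linarith

lemma sum_geo4 : ∀ m : ℕ, ∑ i ∈ Finset.range m, (1 / 4 : ℝ) ^ i ≤ 2 - 4 / 3 * (1 / 4) ^ m
  | 0 => by norm_num
  | m + 1 => by
    rw [Finset.sum_range_succ, pow_succ]
    have h1 := sum_geo4 m
    have h2 : (0 : ℝ) ≤ (1 / 4 : ℝ) ^ m := by positivity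
    linarith

/-- **the trajectories to two loops** -/
theorem traj_two (hc : 0 < c) (hC : 0 ≤ C) (hR0 : 0 ≤ R) (b : ℝ) : ∃ Hm C4 : ℝ, 0 < Hm ∧
    0 ≤ C4 ∧ ∀ H, Hm ≤ H → ∀ (h ρ : ℕ → ℝ) (J : ℕ), TR2 c b C H h ρ J → 0 ≤ ρ 0 → ρ 0 ≤ R →
      TR c (|b| + C * (R + 3) + C) H h ρ J ∧
      (∀ j ≤ J, ρ j ≤ R + 2) ∧
      (∀ j m, j + m ≤ J → h (j + m) + c / 2 * m ≤ h j + C4) ∧
      (h J ≤ H → h J ≥ 0 → ∀ j m, j + m = J → |h j - c * m| ≤ H + C4 * (1 + Real.log (m + 1))) ∧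
      (h J ≥ 0 → ∀ j m, j + m = J → ρ j ≤ (1 / 4) ^ j * R + C4 / (m + 1)) ∧
      (h J ≥ 0 → ∀ j m, j + m = J →
        |PsiT c b (h J) - PsiT c b (h j) + m| ≤ C4) := by
  obtain ⟨C1, hC1⟩ : ∃ C1 : ℝ, C1 = |b| + C * (R + 3) + C := ⟨_, rfl⟩
  have hC10 : 0 ≤ C1 := by rw [hC1]; positivity
  obtain ⟨Hm, C4, hHm, hC4, hT⟩ := traj_real (c := c) (C := C1) (R := R) hc hC10 hR0
  obtain ⟨D, hD⟩ : ∃ D : ℝ, D = c + |b| + C * (R + 3) ^ 2 := ⟨_, rfl⟩
  have hD0 : 0 < D := by rw [hD]; positivity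
  obtain ⟨K, hK⟩ : ∃ K : ℝ, K = Kp c b C R := ⟨_, rfl⟩
  have hK0 : 0 ≤ K := by rw [hK]; unfold Kp; positivity
  obtain ⟨C5, hC5⟩ : ∃ C5 : ℝ, C5 = K * (4 * R ^ 2 + 2 * (C4 + 4 / c) ^ 2) := ⟨_, rfl⟩
  have hC50 : 0 ≤ C5 := by rw [hC5]; positivity
  refine ⟨Hm + 1 + C + 2 * D + C4 + c, C4 + C5, by positivity, by positivity,
    fun H hH h ρ J t h0 hR => ?_⟩
  have hH1 : 1 ≤ H := by linarith
  have ht : TR c C1 H h ρ J := by
    rw [hC1]
    exact t.tr hH1 hC (by linarith) h0 hR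
  obtain ⟨a1, a2, a3, a4⟩ := hT H (by linarith) h ρ J ht h0 hR
  have hnn := t.nonneg h0
  rw [← hC1]
  refine ⟨ht, a1, fun j m hjm => ?_, fun h1 h2 j m hjm => ?_, fun h1 j m hjm => ?_,
    fun h1 j m hjm => ?_⟩
  · have := a2 j m hjm
    linarith
  · have h3 := a3 h1 h2 j m hjm
    have h4 : 0 ≤ Real.log ((m : ℝ) + 1) := Real.log_nonneg (by
      have : (0 : ℝ) ≤ m := Nat.cast_nonneg m
      linarith)
    have h5 : C4 * (1 + Real.log ((m : ℝ) + 1)) ≤ (C4 + C5) * (1 + Real.log ((m : ℝ) + 1)) :=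
      mul_le_mul_of_nonneg_right (by linarith) (by linarith)
    linarith
  · have h3 := a4 h1 j m hjm
    have h4 : C4 / ((m : ℝ) + 1) ≤ (C4 + C5) / (m + 1) :=
      div_le_div_of_nonneg_right (by linarith) (by positivity)
    linarith
  · -- the time
    have hlow : ∀ i < J, c / 4 * (((J - i : ℕ) : ℝ) + 1) ≤ h i := by
      intro i hi
      have h2 := a2 i (J - i) (by omega)
      rw [show i + (J - i) = J by omega] at h2
      have h3 := t.big i hi
      have h4 : (0 : ℝ) ≤ ((J - i : ℕ) : ℝ) := Nat.cast_nonneg _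
      nlinarith
    have hstep : ∀ i < J, |PsiT c b (h (i + 1)) - PsiT c b (h i) + 1| ≤
        K * (2 * R ^ 2 * (1 / 4) ^ i + 2 * (C4 + 4 / c) ^ 2 *
          (1 / (((J - i : ℕ) : ℝ) + 1) ^ 2)) := by
      intro i hi
      have h2 := t.big i hi
      have h3 : 1 ≤ h i := by linarith
      have h4 := psi_step (R := R) hc hC h3 (by rw [← hD]; linarith) (hnn i hi.le) (a1 i hi.le)
        (t.st i hi)
      rw [← hK] at h4
      refine h4.trans (mul_le_mul_of_nonneg_left ?_ hK0)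
      have h5 := a4 h1 i (J - i) (by omega)
      obtain ⟨q, hq⟩ : ∃ q : ℝ, q = ((J - i : ℕ) : ℝ) + 1 := ⟨_, rfl⟩
      have hq0 : 0 < q := by rw [hq]; positivity
      have h6 : 1 / h i ≤ 4 / c * (1 / q) := by
        have h7 := hlow i hi
        rw [← hq] at h7
        have h8 := one_div_le_one_div_of_le (by positivity : 0 < c / 4 * q) h7
        refine h8.trans (le_of_eq ?_)
        field_simp
      rw [← hq] at h5 ⊢
      have h7 : ρ i + 1 / h i ≤ (1 / 4) ^ i * R + (C4 + 4 / c) * (1 / q) := by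
        have e : (C4 + 4 / c) * (1 / q) = C4 / q + 4 / c * (1 / q) := by ring
        rw [e]
        linarith
      have h8 : 0 ≤ ρ i + 1 / h i := by
        have := hnn i hi.le
        have : 0 < 1 / h i := by
          have : 0 < h i := by linarith
          positivity
        linarith
      have h9 : ((1 / 4 : ℝ) ^ i) ^ 2 ≤ (1 / 4) ^ i := by
        have p1 : (0 : ℝ) ≤ (1 / 4 : ℝ) ^ i := by positivity
        have p2 : (1 / 4 : ℝ) ^ i ≤ 1 := pow_le_one₀ (by norm_num) (by norm_num)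
        nlinarith
      calc (ρ i + 1 / h i) ^ 2 ≤ ((1 / 4) ^ i * R + (C4 + 4 / c) * (1 / q)) ^ 2 :=
            pow_le_pow_left₀ h8 h7 2
        _ ≤ 2 * (((1 / 4) ^ i * R) ^ 2) + 2 * ((C4 + 4 / c) * (1 / q)) ^ 2 := by
            nlinarith [sq_nonneg ((1 / 4) ^ i * R - (C4 + 4 / c) * (1 / q))]
        _ = 2 * R ^ 2 * ((1 / 4) ^ i) ^ 2 + 2 * (C4 + 4 / c) ^ 2 * (1 / q ^ 2) := by ring
        _ ≤ _ := by
            have := mul_le_mul_of_nonneg_left h9 (show 0 ≤ 2 * R ^ 2 by positivity)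
            linarith
    have htel : ∀ m j, j + m = J → |PsiT c b (h J) - PsiT c b (h j) + m| ≤
        ∑ i ∈ Finset.Ico j J, K * (2 * R ^ 2 * (1 / 4) ^ i + 2 * (C4 + 4 / c) ^ 2 *
          (1 / (((J - i : ℕ) : ℝ) + 1) ^ 2)) := by
      intro m
      induction m with
      | zero =>
        intro j hj
        rw [add_zero] at hj
        subst hj
        simp
      | succ m ih =>
        intro j hj
        have h2 := ih (j + 1) (by omega)
        have h3 := hstep j (by omega)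
        rw [Finset.sum_eq_sum_Ico_succ_bot (by omega : j < J)]
        push_cast
        have e : PsiT c b (h J) - PsiT c b (h j) + (m + 1) =
            (PsiT c b (h (j + 1)) - PsiT c b (h j) + 1) +
            (PsiT c b (h J) - PsiT c b (h (j + 1)) + m) := by ring
        rw [e]
        exact (abs_add_le _ _).trans (add_le_add h3 h2)
    have hsum : ∑ i ∈ Finset.Ico j J, K * (2 * R ^ 2 * (1 / 4) ^ i + 2 * (C4 + 4 / c) ^ 2 *
          (1 / (((J - i : ℕ) : ℝ) + 1) ^ 2)) ≤ C5 := by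
      have h2 : ∑ i ∈ Finset.Ico j J, K * (2 * R ^ 2 * (1 / 4) ^ i + 2 * (C4 + 4 / c) ^ 2 *
          (1 / (((J - i : ℕ) : ℝ) + 1) ^ 2)) ≤ ∑ i ∈ Finset.range J,
          K * (2 * R ^ 2 * (1 / 4) ^ i + 2 * (C4 + 4 / c) ^ 2 *
          (1 / (((J - i : ℕ) : ℝ) + 1) ^ 2)) := by
        refine Finset.sum_le_sum_of_subset_of_nonneg (fun i hi => ?_) fun i _ _ => by positivity
        have := Finset.mem_Ico.1 hi
        exact Finset.mem_range.2 this.2
      refine h2.trans ?_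
      rw [← Finset.mul_sum, Finset.sum_add_distrib, ← Finset.mul_sum, ← Finset.mul_sum, hC5]
      refine mul_le_mul_of_nonneg_left ?_ hK0
      have h3 := sum_geo4 J
      have h4 : ∑ i ∈ Finset.range J, (1 : ℝ) / (((J - i : ℕ) : ℝ) + 1) ^ 2 ≤ 1 := by
        have h5 := sum_sq_recip J
        have h6 : ∑ i ∈ Finset.range J, (1 : ℝ) / (((J - i : ℕ) : ℝ) + 1) ^ 2 =
            ∑ i ∈ Finset.range J, (1 : ℝ) / ((i : ℝ) + 2) ^ 2 := by
          rw [← Finset.sum_range_reflect]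
          refine Finset.sum_congr rfl fun i hi => ?_
          have := Finset.mem_range.1 hi
          have e : ((J - (J - 1 - i) : ℕ) : ℝ) = i + 1 := by
            have : J - (J - 1 - i) = i + 1 := by omega
            rw [this]
            push_cast
            ring
          rw [e]
          ring
        rw [h6]
        have : (0 : ℝ) < 1 / ((J : ℝ) + 1) := by positivity
        linarith
      have h5 : (0 : ℝ) ≤ (1 / 4 : ℝ) ^ J := by positivity
      have h6 : 2 * R ^ 2 * ∑ i ∈ Finset.range J, (1 / 4 : ℝ) ^ i ≤ 2 * R ^ 2 * 2 :=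
        mul_le_mul_of_nonneg_left (by linarith) (by positivity)
      have h7 := mul_le_mul_of_nonneg_left h4 (show 0 ≤ 2 * (C4 + 4 / c) ^ 2 by positivity)
      linarith
    have h2 := (htel m j hjm).trans hsum
    linarith

end

end Pool.Agent.N991.MK
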