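import Mathlib
import Pool.Agent.N989.MK.Flow2
import Pool.Agent.N989.MK.Lim
import Pool.Agent.N991.MK.Log2a

/-!
# The string tension to two loops
-/

open MeasureTheory Filter
open scoped Topology
open Pool.Agent.N989.MK

namespace Pool.Agent.N991.MK

set_option linter.unusedSectionVars false

noncomputable section

variable {G : Type*} [Group G] [TopologicalSpace G] [IsTopologicalGroup G] [CompactSpace G]
  [MeasurableSpace G] [BorelSpace G] [SecondCountableTopology G]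
  {μ : Measure G} [IsProbabilityMeasure μ] [μ.IsHaarMeasure] [μ.IsMulRightInvariant]
  [μ.IsInvInvariant] {χ : G → ℝ} {n : ℕ} {D : ED G n}
  {Zb : ℝ → G → ℝ} {P : (G → ℝ) → ℝ → ℝ → Prop} {c b h0 C A R : ℝ}

/-- a trajectory, run until it leaves the weak coupling or for `n` steps -/
theorem exists_stop {P : (G → ℝ) → ℝ → ℝ → Prop} {Q : ℝ → ℝ → ℝ → ℝ → Prop} {H : ℝ}
    (step : ∀ f h ρ, P f h ρ → H ≤ h → ∃ h' ρ', P (TT μ f) h' ρ' ∧ Q h ρ h' ρ')
    {Z : G → ℝ} {h00 ρ00 : ℝ} (start : P Z h00 ρ00) (n : ℕ) :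
    ∃ J ≤ n, ∃ h ρ : ℕ → ℝ, h 0 = h00 ∧ ρ 0 = ρ00 ∧ (∀ j ≤ J, P (TTn μ Z j) (h j) (ρ j)) ∧
      (∀ j < J, H ≤ h j ∧ Q (h j) (ρ j) (h (j + 1)) (ρ (j + 1))) ∧ (h J < H ∨ J = n) := by
  induction n with
  | zero =>
    refine ⟨0, le_rfl, fun _ => h00, fun _ => ρ00, rfl, rfl, fun j hj => ?_,
      fun j hj => absurd hj (by omega), Or.inr rfl⟩
    obtain rfl : j = 0 := by omega
    exact start
  | succ n ih =>
    obtain ⟨J, hJ, h, ρ, a1, a2, a3, a4, a5⟩ := ih
    rcases lt_or_ge (h J) H with h1 | h1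
    · exact ⟨J, by omega, h, ρ, a1, a2, a3, a4, Or.inl h1⟩
    · have hJn : J = n := by
        rcases a5 with h2 | h2
        · exact absurd h1 (not_le.2 h2)
        · exact h2
      obtain ⟨h', ρ', b1, b2⟩ := step _ _ _ (a3 J le_rfl) h1
      refine ⟨J + 1, by omega, fun j => if j ≤ J then h j else h',
        fun j => if j ≤ J then ρ j else ρ', by simp [a1], by simp [a2], fun j hj => ?_,
        fun j hj => ?_, Or.inr (by omega)⟩
      · by_cases hj' : j ≤ J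
        · simp only [hj', if_true]
          exact a3 j hj'
        · obtain rfl : j = J + 1 := by omega
          simp only [show ¬ J + 1 ≤ J by omega, if_false]
          exact b1
      · rcases Nat.lt_or_ge j J with h2 | h2
        · simp only [show j ≤ J by omega, show j + 1 ≤ J by omega, if_true]
          exact a4 j h2
        · obtain rfl : j = J := by omega
          simp only [le_refl, show ¬ j + 1 ≤ j by omega, if_true, if_false]
          exact ⟨h1, b2⟩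

/-- a stopped trajectory, to two loops -/
structure Stop2 (μ : Measure G) (Z : G → ℝ) (P : (G → ℝ) → ℝ → ℝ → Prop)
    (c b C hq H C4 R : ℝ) (J : ℕ) (h ρ : ℕ → ℝ) : Prop where
  t : TR c (|b| + C * (R + 3) + C) H h ρ J
  r0 : ρ 0 ≤ R
  p : ∀ j ≤ J, P (TTn μ Z j) (h j) (ρ j)
  lo : ∀ j ≤ J, hq ≤ h j
  fin : h J ≤ H
  rb : ∀ j ≤ J, ρ j ≤ R + 2
  as : ∀ j m, j + m = J → |h j - c * m| ≤ H + C4 * (1 + Real.log (m + 1))
  ra : ∀ j m, j + m = J → ρ j ≤ (1 / 4) ^ j * R + C4 / (m + 1)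
  ps : ∀ j m, j + m = J → |PsiT c b (h J) - PsiT c b (h j) + m| ≤ C4

theorem Flow2.traj (F : Flow2 μ χ D Zb P c b h0 C A R) (hq : ℝ) (hhq : h0 ≤ hq) :
    ∃ H C4 : ℝ, hq ≤ H ∧ 1 ≤ H ∧ 0 ≤ C4 ∧ ∀ (Z : G → ℝ) (h00 ρ00 : ℝ), H ≤ h00 → ρ00 ≤ R →
      P Z h00 ρ00 → ∃ J h ρ, h 0 = h00 ∧ ρ 0 = ρ00 ∧ Stop2 μ Z P c b C hq H C4 R J h ρ := by
  have hR := F.R_nn
  have hC := F.C_nn
  have hc := F.c_pos
  obtain ⟨Hm, C4, hHm, hC4, hT⟩ := traj_two (c := c) (C := C) (R := R) hc hC hR b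
  obtain ⟨C1, hC1⟩ : ∃ C1 : ℝ, C1 = |b| + C * (R + 3) + C := ⟨_, rfl⟩
  have hC10 : 0 ≤ C1 := by rw [hC1]; positivity
  obtain ⟨H, hH⟩ : ∃ H : ℝ, H = max (max Hm 1) (hq + c + C1 * (R + 3)) := ⟨_, rfl⟩
  have e1 : Hm ≤ H := by rw [hH]; exact (le_max_left _ _).trans (le_max_left _ _)
  have e2 : 1 ≤ H := by rw [hH]; exact (le_max_right _ _).trans (le_max_left _ _)
  have e3 : hq + c + C1 * (R + 3) ≤ H := by rw [hH]; exact le_max_right _ _
  have e4 : 0 ≤ C1 * (R + 3) := by positivity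
  have hqH : hq ≤ H := by linarith
  refine ⟨H, C4, hqH, e2, hC4, fun Z h00 ρ00 hh hρ hP => ?_⟩
  obtain ⟨m, hm⟩ := exists_nat_gt ((h00 + C4) / (c / 2))
  obtain ⟨J, hJm, h, ρ, a1, a2, a3, a4, a5⟩ := exists_stop (μ := μ) (P := P) (H := H)
    (Q := fun h ρ h' ρ' => 0 ≤ ρ' ∧ |h' - h + c - b / h| ≤ C * (ρ + 1 / h) ^ 2 ∧
      ρ' ≤ ρ / 4 + C / h) (fun f h ρ hP hh => by
        obtain ⟨h', ρ', b1, b2, b3⟩ := F.step f h ρ hP (hhq.trans (hqH.trans hh))
        exact ⟨h', ρ', b1, F.nn _ _ _ b1, b2, b3⟩) hP m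
  have t2 : TR2 c b C H h ρ J := ⟨fun j hj => (a4 j hj).1, fun j hj => (a4 j hj).2.2.1,
    fun j hj => (a4 j hj).2.1, fun j hj => (a4 j hj).2.2.2⟩
  have hρ0 : 0 ≤ ρ 0 := by
    rw [a2]
    exact F.nn _ _ _ hP
  obtain ⟨t, g1, g2, g3, g4, g5⟩ := hT H e1 h ρ J t2 hρ0 (by rw [a2]; exact hρ)
  have hJH : h J < H := by
    rcases a5 with h1 | h1
    · exact h1
    · by_contra hcon
      push Not at hcon
      have h2 := g2 0 J (by omega)
      rw [zero_add, a1, h1] at h2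
      rw [div_lt_iff₀ (by linarith)] at hm
      rw [h1] at hcon
      nlinarith
  have hlo : ∀ j ≤ J, hq ≤ h j := by
    intro j hj
    rcases Nat.lt_or_ge j J with h1 | h1
    · exact hqH.trans (t.big j h1)
    · obtain rfl : j = J := by omega
      rcases j with _ | i
      · rw [a1] at hJH; linarith
      · have h2 := t.big i (by omega)
        have h3 := (abs_le.1 (t.st i (by omega))).1
        have h4 := g1 i (by omega)
        have h5 : 1 / h i ≤ 1 := by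
          rw [div_le_one (by linarith)]
          linarith
        have h6 : C1 * (ρ i + 1 / h i) ≤ C1 * (R + 3) :=
          mul_le_mul_of_nonneg_left (by linarith) hC10
        rw [← hC1] at h3
        linarith
  have hJ0 : h J ≥ 0 := by
    have := hlo J le_rfl
    have := F.h0_pos
    linarith
  exact ⟨J, h, ρ, a1, a2, t, by rw [a2]; exact hρ, a3, hlo, hJH.le, g1, g3 hJH.le hJ0, g4 hJ0,
    g5 hJ0⟩

/-- the combined constants -/
theorem Flow2.consts (F : Flow2 μ χ D Zb P c b h0 C A R) :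
    ∃ H C4 K : ℝ, 1 ≤ H ∧ 0 ≤ C4 ∧ 0 ≤ K ∧ ∃ hq : ℝ, 1 ≤ hq ∧ h0 ≤ hq ∧
      ∀ (Z : G → ℝ) (h00 ρ00 : ℝ), H ≤ h00 → ρ00 ≤ R → P Z h00 ρ00 →
      ∃ J h ρ, h 0 = h00 ∧ ρ 0 = ρ00 ∧ Stop2 μ Z P c b C hq H C4 R J h ρ ∧
        SC D K (TTn μ Z J) ∧
        ∀ j ≤ J, 1 / 2 ≤ WW μ χ (TTn μ Z j) ∧
          |1 - WW μ χ (TTn μ Z j) - A / h j| ≤ C * (ρ j + 1 / h j) / h j ∧
          1 - WW μ χ (TTn μ Z j) ≤ (A + C * (R + 3)) / h j := by
  obtain ⟨hq, hhq⟩ : ∃ hq : ℝ, hq = max (max h0 1) (2 * (A + C * (R + 3))) := ⟨_, rfl⟩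
  have hR := F.R_nn
  have hC := F.C_nn
  have hA := F.A_nn
  have e1 : h0 ≤ hq := by rw [hhq]; exact (le_max_left _ _).trans (le_max_left _ _)
  have e2 : 1 ≤ hq := by rw [hhq]; exact (le_max_right _ _).trans (le_max_left _ _)
  have e3 : 2 * (A + C * (R + 3)) ≤ hq := by rw [hhq]; exact le_max_right _ _
  obtain ⟨H, C4, h1, h1', h2, h3⟩ := Flow2.traj F hq e1
  obtain ⟨K, hK, hK2⟩ := F.ent H
  refine ⟨H, C4, K, h1', h2, hK, hq, e2, e1, fun Z h00 ρ00 hh hρ hP => ?_⟩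
  obtain ⟨J, h, ρ, a1, a2, s⟩ := h3 Z h00 ρ00 hh hρ hP
  refine ⟨J, h, ρ, a1, a2, s, hK2 _ _ _ (s.p J le_rfl) (e1.trans (s.lo J le_rfl)) s.fin,
    fun j hj => ?_⟩
  have hj1 := s.lo j hj
  have hj2 : 0 < h j := by linarith
  have hw := F.wil _ _ _ (s.p j hj) (e1.trans hj1)
  have h4 : 1 / h j ≤ 1 := by
    rw [div_le_one hj2]
    linarith
  have h5 : C * (ρ j + 1 / h j) ≤ C * (R + 3) :=
    mul_le_mul_of_nonneg_left (by linarith [s.rb j hj]) hC
  have h6 : 1 - WW μ χ (TTn μ Z j) ≤ (A + C * (R + 3)) / h j := by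
    have h7 := (abs_le.1 hw).2
    have h8 : C * (ρ j + 1 / h j) / h j ≤ C * (R + 3) / h j :=
      div_le_div_of_nonneg_right h5 hj2.le
    rw [add_div]
    linarith
  refine ⟨?_, hw, h6⟩
  have h7 : (A + C * (R + 3)) / h j ≤ 1 / 2 := by
    rw [div_le_iff₀ hj2]
    linarith
  linarith

/-- **the asymptotic scaling of the string tension, to two loops** -/
theorem scaling2 (F : Flow2 μ χ D Zb P c b h0 C A R) (ho : Obs μ χ) {m : ℕ} (hg : Gen D m 1)
    (hadm : ∀ β, Adm (Zb β)) : ∃ β1 C5 : ℝ, 1 ≤ β1 ∧ 0 ≤ C5 ∧ ∀ β, β1 ≤ β → ∃ σ : ℝ, 0 < σ ∧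
      Tendsto (fun k => al μ χ (Zb β) k) atTop (𝓝 σ) ∧
      |Real.log σ + Real.log 4 / c * β + Real.log 4 * b / c ^ 2 * Real.log β| ≤ C5 := by
  obtain ⟨H, C4, K, hH, hC4, hK, hq, hhq, hhq0, hB⟩ := Flow2.consts F
  obtain ⟨k0, hk0⟩ := ho.area hg hK
  have hc := F.c_pos
  have hR := F.R_nn
  obtain ⟨S, hS⟩ : ∃ S : ℝ, S = Real.log 2 + 2 * (2 ^ m * K) := ⟨_, rfl⟩
  have hS0 : 0 < S := by
    have : 0 < Real.log 2 := Real.log_pos (by norm_num)
    rw [hS]
    positivity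
  obtain ⟨M, hM⟩ : ∃ M : ℝ, M = |Real.log (1 / 4 ^ k0)| + |Real.log S| := ⟨_, rfl⟩
  have hM0 : 0 ≤ M := by rw [hM]; positivity
  have hlog4 : 0 < Real.log 4 := Real.log_pos (by norm_num)
  obtain ⟨M1, hM1⟩ : ∃ M1 : ℝ, M1 = H / c + |b| / c ^ 2 * Real.log H := ⟨_, rfl⟩
  have hlH : 0 ≤ Real.log H := Real.log_nonneg hH
  have hM10 : 0 ≤ M1 := by rw [hM1]; positivity
  obtain ⟨M2, hM2⟩ : ∃ M2 : ℝ, M2 = R / c + |b| / c ^ 2 * R := ⟨_, rfl⟩
  have hM20 : 0 ≤ M2 := by rw [hM2]; positivity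
  refine ⟨H + R + 1, M + Real.log 4 * (M1 + M2 + C4), by linarith, by positivity,
    fun β hβ => ?_⟩
  obtain ⟨h00, ρ00, hs1, hs2, hs3⟩ := F.start β (by
    have := F.h0_pos
    by_contra hcon
    push Not at hcon
    have h1 : hq ≤ H := by
      by_contra h2
      push Not at h2
      obtain ⟨f0, hf0⟩ : ∃ f : ℝ, f = max H h0 := ⟨_, rfl⟩
      obtain ⟨h1, ρ1, c1, c2, c3⟩ := F.start (max H h0 + R) (by
        have := le_max_right H h0; linarith)
      have c1' := abs_le.1 c1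
      have := le_max_left H h0
      obtain ⟨J, h, ρ, -, -, s, -⟩ := hB _ h1 ρ1 (by linarith [c1'.1]) c2 c3
      have h3 := s.lo J le_rfl
      have h4 := s.fin
      linarith
    linarith)
  have hs1' := abs_le.1 hs1
  have hh00 : H ≤ h00 := by linarith [hs1'.1]
  obtain ⟨J, h, ρ, a1, a2, s, hsc, hw⟩ := hB _ h00 ρ00 hh00 hs2 hs3
  have hw1 := (hw J le_rfl).1
  have hw0 : 0 < WW μ χ (TTn μ (Zb β) J) := by linarith
  have hAJ := (hadm β).TTn (μ := μ) J
  obtain ⟨σ, hσ, hσt⟩ := ho.tension hg hK hAJ hsc hw0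
  obtain ⟨g1, g2, g3, g4, g5⟩ := hk0 _ hAJ hsc hw0
  have hσlo : 1 / 4 ^ k0 ≤ σ :=
    ge_of_tendsto hσt ((eventually_ge_atTop k0).mono fun k hk => g4 k hk)
  have hσhi : σ ≤ S := by
    refine le_of_tendsto hσt (Eventually.of_forall fun k => (g3 k).trans ?_)
    have h1 := Real.log_le_log (by norm_num) hw1
    rw [Real.log_div (by norm_num) (by norm_num), Real.log_one] at h1
    rw [hS]
    linarith
  refine ⟨σ / 4 ^ J, by positivity, ?_, ?_⟩
  · have h1 : Tendsto (fun k => al μ χ (Zb β) (k + J)) atTop (𝓝 (σ / 4 ^ J)) := by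
      have h2 := hσt.div_const (4 ^ J)
      refine h2.congr fun k => ?_
      rw [add_comm k J, al_TTn]
    exact (tendsto_add_atTop_iff_nat J).1 h1
  · rw [Real.log_div hσ.ne' (by positivity), Real.log_pow]
    have h1 : |Real.log σ| ≤ M := by
      have a1 := Real.log_le_log (by positivity) hσlo
      have a2 := Real.log_le_log hσ hσhi
      rw [abs_le]
      have b1 := neg_abs_le (Real.log (1 / 4 ^ k0))
      have b2 := le_abs_self (Real.log S)
      have b3 := abs_nonneg (Real.log (1 / 4 ^ k0))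
      have b4 := abs_nonneg (Real.log S)
      rw [hM]
      constructor <;> linarith
    have hβ0 : 0 < β := by linarith
    have hh0 : 0 < h00 := by linarith
    have h2 := s.ps 0 J (by omega)
    rw [a1] at h2
    have hJq : 1 ≤ h J := hhq.trans (s.lo J le_rfl)
    have hbc : 0 ≤ |b| / c ^ 2 := by positivity
    have h3 : |PsiT c b (h J)| ≤ M1 := by
      unfold PsiT
      refine (abs_add_le _ _).trans ?_
      have l0 : 0 ≤ Real.log (h J) := Real.log_nonneg hJq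
      have l1 : Real.log (h J) ≤ Real.log H := Real.log_le_log (by linarith) s.fin
      rw [abs_div, abs_of_pos hc, abs_of_pos (by linarith : 0 < h J), abs_mul, abs_div,
        abs_of_pos (by positivity : 0 < c ^ 2), abs_of_nonneg l0, hM1]
      exact add_le_add (div_le_div_of_nonneg_right s.fin hc.le)
        (mul_le_mul_of_nonneg_left l1 hbc)
    have hlog : |Real.log h00 - Real.log β| ≤ R := by
      have k1 : Real.log h00 - Real.log β = Real.log (h00 / β) :=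
        (Real.log_div hh0.ne' hβ0.ne').symm
      have k2 := Real.log_le_sub_one_of_pos (show 0 < h00 / β by positivity)
      have k3 := Real.one_sub_inv_le_log_of_pos (show 0 < h00 / β by positivity)
      rw [inv_div] at k3
      have k4 : h00 / β - 1 ≤ R := by
        rw [sub_le_iff_le_add, div_le_iff₀ hβ0]
        have : R * 1 ≤ R * β := mul_le_mul_of_nonneg_left (by linarith) hR
        linarith [hs1'.2]
      have k5 : 1 - β / h00 ≥ -R := by
        have : β / h00 ≤ 1 + R := by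
          rw [div_le_iff₀ hh0]
          have : R * 1 ≤ R * h00 := mul_le_mul_of_nonneg_left (by linarith) hR
          linarith [hs1'.1]
        linarith
      rw [k1, abs_le]
      constructor <;> linarith
    have h4 : |PsiT c b h00 - PsiT c b β| ≤ M2 := by
      have e : PsiT c b h00 - PsiT c b β = (h00 - β) / c + b / c ^ 2 *
          (Real.log h00 - Real.log β) := by
        unfold PsiT
        ring
      rw [e]
      refine (abs_add_le _ _).trans ?_
      rw [abs_div, abs_of_pos hc, abs_mul, abs_div, abs_of_pos (by positivity : 0 < c ^ 2), hM2]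
      exact add_le_add (div_le_div_of_nonneg_right hs1 hc.le)
        (mul_le_mul_of_nonneg_left hlog hbc)
    have h5 : |PsiT c b β - J| ≤ M1 + M2 + C4 := by
      have e : PsiT c b β - J = PsiT c b (h J) - (PsiT c b h00 - PsiT c b β) -
          (PsiT c b (h J) - PsiT c b h00 + J) := by ring
      rw [e]
      refine (abs_sub _ _).trans (add_le_add ((abs_sub _ _).trans (add_le_add h3 h4)) h2)
    have e : Real.log σ - J * Real.log 4 + Real.log 4 / c * β +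
        Real.log 4 * b / c ^ 2 * Real.log β = Real.log σ + Real.log 4 * (PsiT c b β - J) := by
      unfold PsiT
      ring
    rw [e]
    refine (abs_add_le _ _).trans ?_
    rw [abs_mul, abs_of_pos hlog4]
    exact add_le_add h1 (mul_le_mul_of_nonneg_left h5 hlog4.le)

/-- **the string tension for all couplings, to two loops** -/
theorem sigma_all2 (ho : Obs μ χ) (Fm : Fam μ χ D Zb) {m : ℕ} (hg : Gen D m 1)
    (F : Flow2 μ χ D Zb P c b h0 C A R) :
    ∃ σ : ℝ → ℝ, (∀ β, 0 < β → 0 < σ β ∧ (∀ k, 0 < WW μ χ (TTn μ (Zb β) k)) ∧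
      Tendsto (fun k => al μ χ (Zb β) k) atTop (𝓝 (σ β))) ∧
      ∃ C' : ℝ, ∀ β, 1 ≤ β →
        |Real.log (σ β) + Real.log 4 / c * β + Real.log 4 * b / c ^ 2 * Real.log β| ≤ C' := by
  have hex : ∀ β, ∃ σ : ℝ, 0 < β → 0 < σ ∧ Tendsto (fun k => al μ χ (Zb β) k) atTop
      (𝓝 σ) := by
    intro β
    by_cases hβ : 0 < β
    · obtain ⟨σ, h1, h2⟩ := ho.tension hg hβ.le (Fm.adm β) (Fm.scb β hβ.le) (Fm.wp β hβ)
      exact ⟨σ, fun _ => ⟨h1, h2⟩⟩
    · exact ⟨0, fun h => absurd h hβ⟩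
  choose σ hσ using hex
  obtain ⟨β1, C5, hβ1, hC5, hsc⟩ := scaling2 F ho hg Fm.adm
  have hc := F.c_pos
  refine ⟨σ, fun β hβ => ⟨(hσ β hβ).1, fun k => ho.pos (Fm.adm β) (Fm.wp β hβ) k, (hσ β hβ).2⟩, ?_⟩
  have hβ1' : 0 ≤ β1 := by linarith
  obtain ⟨k0, hk0⟩ := ho.area hg hβ1'
  obtain ⟨w0, hw0p, hw0⟩ : ∃ w0 : ℝ, 0 < w0 ∧ ∀ β, 1 ≤ β → β ≤ β1 →
      w0 ≤ WW μ χ (Zb β) := by
    have hcont : Continuous fun β => WW μ χ (Zb β) := Fm.g.cont ho 0
    obtain ⟨b, hb, hmin⟩ := isCompact_Icc.exists_isMinOn (Set.nonempty_Icc.2 hβ1)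
      hcont.continuousOn
    exact ⟨WW μ χ (Zb b), Fm.wp b (by linarith [hb.1]), fun β h3 h4 => hmin ⟨h3, h4⟩⟩
  obtain ⟨M, hM⟩ : ∃ M : ℝ, M = |Real.log (1 / 4 ^ k0)| +
    |Real.log (-Real.log w0 + 2 * (2 ^ m * β1))| + Real.log 4 / c * β1 +
    |Real.log 4 * b / c ^ 2| * Real.log β1 := ⟨_, rfl⟩
  have hl4 : 0 < Real.log 4 := Real.log_pos (by norm_num)
  have hl1 : 0 ≤ Real.log β1 := Real.log_nonneg hβ1
  have hbd : ∀ β, 1 ≤ β → β ≤ β1 → |Real.log (σ β) + Real.log 4 / c * β +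
      Real.log 4 * b / c ^ 2 * Real.log β| ≤ M := by
    intro β hβ2 hβ
    have hβ0 : 0 < β := by linarith
    obtain ⟨s1, s2⟩ := hσ β hβ0
    obtain ⟨g1, g2, g3, g4, g5⟩ := hk0 _ (Fm.adm β) (SC.mono hβ (Fm.scb β hβ0.le)) (Fm.wp β hβ0)
    have hlo : 1 / 4 ^ k0 ≤ σ β :=
      ge_of_tendsto s2 ((eventually_ge_atTop k0).mono fun k hk => g4 k hk)
    have hw : w0 ≤ WW μ χ (Zb β) := hw0 β hβ2 hβ
    have hhi : σ β ≤ -Real.log w0 + 2 * (2 ^ m * β1) := by
      refine le_of_tendsto s2 (Eventually.of_forall fun k => (g3 k).trans ?_)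
      have := Real.log_le_log hw0p hw
      linarith
    have a1 := Real.log_le_log (by positivity) hlo
    have a2 := Real.log_le_log s1 hhi
    have a3 : |Real.log (σ β)| ≤ |Real.log (1 / 4 ^ k0)| +
        |Real.log (-Real.log w0 + 2 * (2 ^ m * β1))| := by
      have b1 := neg_abs_le (Real.log (1 / 4 ^ k0))
      have b2 := le_abs_self (Real.log (-Real.log w0 + 2 * (2 ^ m * β1)))
      have b3 := abs_nonneg (Real.log (1 / 4 ^ k0))
      have b4 := abs_nonneg (Real.log (-Real.log w0 + 2 * (2 ^ m * β1)))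
      rw [abs_le]
      constructor <;> linarith
    have a4 : |Real.log 4 / c * β| ≤ Real.log 4 / c * β1 := by
      rw [abs_of_nonneg (by positivity)]
      exact mul_le_mul_of_nonneg_left hβ (by positivity)
    have a5 : |Real.log 4 * b / c ^ 2 * Real.log β| ≤
        |Real.log 4 * b / c ^ 2| * Real.log β1 := by
      rw [abs_mul, abs_of_nonneg (Real.log_nonneg hβ2)]
      exact mul_le_mul_of_nonneg_left (Real.log_le_log hβ0 hβ) (abs_nonneg _)
    rw [hM]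
    refine (abs_add_le _ _).trans (add_le_add ((abs_add_le _ _).trans ?_) a5)
    linarith
  have hM0 : 0 ≤ M := by
    rw [hM]
    positivity
  refine ⟨M + C5, fun β hβ => ?_⟩
  rcases le_or_gt β β1 with h | h
  · exact (hbd β hβ h).trans (by linarith)
  · obtain ⟨σ', g1, g2, g3⟩ := hsc β h.le
    have e : σ' = σ β := tendsto_nhds_unique g2 (hσ β (by linarith)).2
    rw [e] at g3
    exact g3.trans (by linarith)

end

end Pool.Agent.N991.MK
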