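import Mathlib
import Pool.Agent.N989.MK.Lim
import Pool.Agent.N991.MK.Log2a

/-!
# The sharp weak coupling flow: structures

The structures of `Flow3` and `Stop3`, in a light file.
-/

open MeasureTheory Filter
open scoped Topology

namespace Pool.Agent.N991.MK

set_option linter.unusedSectionVars false

noncomputable section

section
open Pool.Agent.N989.MK (ED TT WW SC nrm)

variable {G : Type*} [Group G] [TopologicalSpace G] [IsTopologicalGroup G] [CompactSpace G]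
  [MeasurableSpace G] [BorelSpace G] [SecondCountableTopology G]
  {n : ℕ}

/-- the properties of the weak coupling flow, with the sharp law of the improved coupling -/
structure Flow3 (μ : Measure G) (χ : G → ℝ) (D : ED G n) (Zb : ℝ → G → ℝ)
    (P : (G → ℝ) → ℝ → ℝ → Prop) (c b τ h0 C A R : ℝ) : Prop where
  c_pos : 0 < c
  h0_pos : 0 < h0
  C_nn : 0 ≤ C
  A_nn : 0 ≤ A
  R_nn : 0 ≤ R
  nn : ∀ f h ρ, P f h ρ → 0 ≤ ρ
  start : ∀ β, h0 ≤ β → ∃ h ρ, |h - (β + τ)| ≤ R / β ∧ ρ ≤ R ∧ P (Zb β) h ρ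
  step : ∀ f h ρ, P f h ρ → h0 ≤ h → ∃ h' ρ', P (TT μ f) h' ρ' ∧
    |h' - h + c - b / h| ≤ C * (ρ + 1 / h) / h ∧ ρ' ≤ ρ / 4 + C / h
  wil : ∀ f h ρ, P f h ρ → h0 ≤ h → |1 - WW μ χ f - A / h| ≤ C * (ρ + 1 / h) / h
  ent : ∀ H, ∃ K, 0 ≤ K ∧ ∀ f h ρ, P f h ρ → h0 ≤ h → h ≤ H → SC D K f

/-- the sharp comparison of pairs of states of the weak coupling flow -/
structure PairFlow3 (μ : Measure G) (χ : G → ℝ) (P : (G → ℝ) → ℝ → ℝ → Prop)
    (Q : (G → ℝ) → (G → ℝ) → ℝ → ℝ → ℝ → Prop) (h1 ε C' c0 : ℝ) (Dm : ℕ) : Prop where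
  e_pos : 0 < ε
  C_nn : 0 ≤ C'
  c0_pos : 0 < c0
  nn : ∀ f g h k l, Q f g h k l → 0 ≤ l
  init : ∀ f h ρ g k σ, P f h ρ → P g k σ → h1 ≤ h → h1 ≤ k → |h - k| ≤ ε * h →
    ∃ l, l ≤ C' * (1 + ρ * h + σ * k) ∧ Q f g h k l
  step : ∀ f h ρ g k σ h' ρ' k' σ' l, P f h ρ → P g k σ → P (TT μ f) h' ρ' →
    P (TT μ g) k' σ' → Q f g h k l → h1 ≤ h → h1 ≤ k → |h - k| ≤ ε * h →
    ∃ l', Q (TT μ f) (TT μ g) h' k' l' ∧ l' ≤ l / 4 + C' * (|h - k| + l) / h ∧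
      |(h' - k') - (h - k)| ≤ C' * (|h - k| * (ρ + σ + 1 / h) + l) / h
  close : ∀ f h ρ g k σ l, P f h ρ → P g k σ → Q f g h k l → h1 ≤ h → h1 ≤ k →
    |h - k| ≤ ε * h → ∀ x, |nrm μ f x - nrm μ g x| ≤ C' * h ^ Dm * (|h - k| + l)
  wil : ∀ f h ρ g k σ l, P f h ρ → P g k σ → Q f g h k l → h1 ≤ h → h1 ≤ k →
    |h - k| ≤ ε * h → c0 * |h - k| / h ^ 2 ≤ |WW μ χ f - WW μ χ g| + C' * l / h ^ 3

end

section
open Pool.Agent.N989.MK

variable {c b C H R : ℝ}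

variable {G : Type*} [Group G] [TopologicalSpace G] [IsTopologicalGroup G] [CompactSpace G]
  [MeasurableSpace G] [BorelSpace G] [SecondCountableTopology G]
  {μ : Measure G} [IsProbabilityMeasure μ] [μ.IsHaarMeasure] [μ.IsMulRightInvariant]
  [μ.IsInvInvariant] {χ : G → ℝ} {n : ℕ} {D : ED G n}
  {Zb : ℝ → G → ℝ} {P : (G → ℝ) → ℝ → ℝ → Prop} {τ h0 A : ℝ}

/-- the time is Lipschitz -/
lemma psi_lip {x y : ℝ} (hc : 0 < c) (hx : 1 ≤ x) (hy : 1 ≤ y) :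
    |PsiT c b x - PsiT c b y| ≤ (1 / c + |b| / c ^ 2) * |x - y| := by
  have hx0 : 0 < x := by linarith
  have hy0 : 0 < y := by linarith
  have h1 : |Real.log x - Real.log y| ≤ |x - y| := by
    have k1 : Real.log x - Real.log y = Real.log (x / y) := (Real.log_div hx0.ne' hy0.ne').symm
    have k2 := Real.log_le_sub_one_of_pos (show 0 < x / y by positivity)
    have k3 := Real.one_sub_inv_le_log_of_pos (show 0 < x / y by positivity)
    rw [inv_div] at k3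
    have a1 := neg_abs_le (x - y)
    have a2 := le_abs_self (x - y)
    have a0 := abs_nonneg (x - y)
    have k4 : x / y - 1 ≤ |x - y| := by
      rw [sub_le_iff_le_add, div_le_iff₀ hy0]
      nlinarith
    have k5 : -|x - y| ≤ 1 - y / x := by
      have : y / x ≤ 1 + |x - y| := by
        rw [div_le_iff₀ hx0]
        nlinarith
      linarith
    rw [k1, abs_le]
    constructor <;> linarith
  have e : PsiT c b x - PsiT c b y = (x - y) / c + b / c ^ 2 * (Real.log x - Real.log y) := by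
    unfold PsiT
    ring
  rw [e]
  refine (abs_add_le _ _).trans ?_
  rw [abs_div, abs_of_pos hc, abs_mul, abs_div, abs_of_pos (by positivity : 0 < c ^ 2)]
  have h2 : |b| / c ^ 2 * |Real.log x - Real.log y| ≤ |b| / c ^ 2 * |x - y| :=
    mul_le_mul_of_nonneg_left h1 (by positivity)
  calc _ ≤ |x - y| / c + |b| / c ^ 2 * |x - y| := by linarith
    _ = _ := by ring

/-- a trajectory of the sharp flow with its observables, started at the time `T` -/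
structure TJ (μ : Measure G) (χ : G → ℝ) {n : ℕ} (D : ED G n) (P : (G → ℝ) → ℝ → ℝ → Prop)
    (c b A R H C4 K hq : ℝ) (Z : G → ℝ) (T : ℝ) (J : ℕ) (h ρ : ℕ → ℝ) : Prop where
  p : ∀ j ≤ J, P (TTn μ Z j) (h j) (ρ j)
  lo : ∀ j ≤ J, hq ≤ h j
  fin : h J ≤ H
  nn : ∀ j ≤ J, 0 ≤ ρ j
  ra : ∀ j m, j + m = J → ρ j ≤ (1 / 4) ^ j * R + C4 / (m + 1)
  as : ∀ j m, j + m = J → |h j - c * m| ≤ H + C4 * (1 + Real.log (m + 1))
  st : ∀ j < J, |h (j + 1) - h j + c| ≤ C4 * (ρ j + 1 / h j)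
  ps : ∀ j m, j + m = J → |PsiT c b (h j) - T + j| ≤ C4 / (m + 1)
  sm : ∀ j m, j + m = J → ∑ i ∈ Finset.range j, (ρ i + 1 / h i) / h i ≤ C4 / (m + 1)
  sc : SC D K (TTn μ Z J)
  half : ∀ j ≤ J, 1 / 2 ≤ WW μ χ (TTn μ Z j)
  w1 : ∀ j ≤ J, |1 - WW μ χ (TTn μ Z j) - A / h j| ≤ C4 * (ρ j + 1 / h j) / h j
  w2 : ∀ j ≤ J, 1 - WW μ χ (TTn μ Z j) ≤ C4 / h j

end

end

end Pool.Agent.N991.MK
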