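import Mathlib
import Pool.Agent.N991.MK.Tj0
import Pool.Agent.N991.MK.Log2

/-!
# The trajectories of the sharp weak coupling flow
-/

open MeasureTheory Filter
open scoped Topology
open Pool.Agent.N989.MK

namespace Pool.Agent.N991.MK

set_option linter.unusedSectionVars false

noncomputable section

variable {c b C H R : ℝ}

/-- the constant of the step -/
def Kp3 (c b C R : ℝ) : ℝ :=
  C / c + |b| / c ^ 2 * (|b| + C + 2 * (c + |b| + C * (R + 3)) ^ 2)

/-- one step of the time, with the sharp error -/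
lemma psi_step3 {x x' ρ : ℝ} (hc : 0 < c) (hC : 0 ≤ C) (hx : 1 ≤ x)
    (hxD : 2 * (c + |b| + C * (R + 3)) ≤ x) (hρ : 0 ≤ ρ) (hρR : ρ ≤ R + 2)
    (hs : |x' - x + c - b / x| ≤ C * (ρ + 1 / x) / x) :
    |PsiT c b x' - PsiT c b x + 1| ≤ Kp3 c b C R * ((ρ + 1 / x) / x) := by
  have hx0 : 0 < x := by linarith
  have hx1 : 1 / x ≤ 1 := by rw [div_le_one hx0]; exact hx
  have hxp : 0 < 1 / x := by positivity
  obtain ⟨D, hD⟩ : ∃ D : ℝ, D = c + |b| + C * (R + 3) := ⟨_, rfl⟩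
  have hR3 : 0 ≤ R + 3 := by linarith
  have hD0 : 0 < D := by rw [hD]; positivity
  obtain ⟨V, hV⟩ : ∃ V : ℝ, V = (ρ + 1 / x) / x := ⟨_, rfl⟩
  have hVe : V = (ρ + 1 / x) * (1 / x) := by rw [hV]; ring
  have hV1 : (1 / x) ^ 2 ≤ V := by
    rw [hVe, pow_two]
    exact mul_le_mul_of_nonneg_right (by linarith) hxp.le
  have hV2 : V ≤ R + 3 := by
    rw [hVe]
    calc (ρ + 1 / x) * (1 / x) ≤ (ρ + 1 / x) * 1 :=
          mul_le_mul_of_nonneg_left hx1 (by linarith)
      _ ≤ R + 3 := by linarith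
  have hV0 : 0 ≤ V := by rw [hVe]; positivity
  rw [mul_div_assoc, ← hV] at hs
  obtain ⟨E, hE⟩ : ∃ E : ℝ, E = x' - x + c - b / x := ⟨_, rfl⟩
  rw [← hE] at hs
  have hd : x' - x = -c + b * (1 / x) + E := by rw [hE]; ring
  have hdD : |x' - x| ≤ D := by
    rw [hd, hD]
    refine (abs_add_le _ _).trans (add_le_add ((abs_add_le _ _).trans (add_le_add ?_ ?_)) ?_)
    · rw [abs_neg, abs_of_pos hc]
    · rw [abs_mul, abs_of_pos hxp]
      exact mul_le_of_le_one_right (abs_nonneg b) hx1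
    · exact hs.trans (mul_le_mul_of_nonneg_left hV2 hC)
  obtain ⟨t, ht⟩ : ∃ t : ℝ, t = (x' - x) / x := ⟨_, rfl⟩
  have htb : |t| ≤ D / x := by
    rw [ht, abs_div, abs_of_pos hx0]
    exact div_le_div_of_nonneg_right hdD hx0.le
  have ht2 : D / x ≤ 1 / 2 := by
    rw [div_le_iff₀ hx0, hD]
    linarith
  have ht3 : -(1 / 2) ≤ t := by linarith [(abs_le.1 htb).1]
  have hx' : x' = x * (1 + t) := by
    rw [ht]
    field_simp
    ring
  have h1t : 0 < 1 + t := by linarith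
  have hlog : Real.log x' - Real.log x = Real.log (1 + t) := by
    rw [hx', Real.log_mul hx0.ne' h1t.ne']
    ring
  obtain ⟨S, hS⟩ : ∃ S : ℝ, S = Real.log (1 + t) - t := ⟨_, rfl⟩
  have hSb : |S| ≤ 2 * D ^ 2 * V := by
    rw [hS]
    refine (log_twoT ht3).trans ?_
    have h1 : t ^ 2 ≤ (D / x) ^ 2 := by
      rw [← sq_abs t]
      exact pow_le_pow_left₀ (abs_nonneg t) htb 2
    have h2 : (D / x) ^ 2 = D ^ 2 * (1 / x) ^ 2 := by ring
    rw [h2] at h1
    have h3 : D ^ 2 * (1 / x) ^ 2 ≤ D ^ 2 * V := mul_le_mul_of_nonneg_left hV1 (by positivity)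
    linarith
  have e : PsiT c b x' - PsiT c b x + 1 = E / c + b / c ^ 2 * (b * (1 / x) ^ 2 + E * (1 / x) + S) := by
    have e1 : PsiT c b x' - PsiT c b x + 1 = (x' - x) / c + 1 + b / c ^ 2 *
        (Real.log x' - Real.log x) := by
      unfold PsiT
      ring
    have e2 : Real.log (1 + t) = (x' - x) * (1 / x) + S := by
      rw [hS, ht]
      ring
    rw [e1, hlog, e2, hd]
    field_simp
    ring
  have hEx : |E * (1 / x)| ≤ C * V := by
    rw [abs_mul, abs_of_pos hxp]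
    exact (mul_le_of_le_one_right (abs_nonneg E) hx1).trans hs
  have hbx : |b * (1 / x) ^ 2| ≤ |b| * V := by
    rw [abs_mul, abs_of_nonneg (by positivity : (0 : ℝ) ≤ (1 / x) ^ 2)]
    exact mul_le_mul_of_nonneg_left hV1 (abs_nonneg b)
  rw [e]
  refine (abs_add_le _ _).trans ?_
  have f1 : |E / c| ≤ C / c * V := by
    rw [abs_div, abs_of_pos hc, div_mul_eq_mul_div]
    exact div_le_div_of_nonneg_right hs hc.le
  have f2 : |b / c ^ 2 * (b * (1 / x) ^ 2 + E * (1 / x) + S)| ≤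
      |b| / c ^ 2 * ((|b| + C + 2 * D ^ 2) * V) := by
    rw [abs_mul, abs_div, abs_of_pos (by positivity : (0 : ℝ) < c ^ 2)]
    refine mul_le_mul_of_nonneg_left ?_ (by positivity)
    refine (abs_add_le _ _).trans ((add_le_add (abs_add_le _ _) le_rfl).trans ?_)
    linarith
  rw [← hV]
  unfold Kp3
  rw [← hD]
  calc _ ≤ C / c * V + |b| / c ^ 2 * ((|b| + C + 2 * D ^ 2) * V) := add_le_add f1 f2
    _ = _ := by ring

/-- the sum of the inverse squares along a trajectory -/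
lemma sum_sq_tail {J : ℕ} : ∀ j ≤ J, ∑ i ∈ Finset.range j, (1 : ℝ) / ((J : ℝ) - i + 1) ^ 2 ≤
    1 / ((J : ℝ) - j + 1)
  | 0, _ => by
    simp only [Finset.range_zero, Finset.sum_empty, Nat.cast_zero, sub_zero]
    positivity
  | j + 1, hj => by
    rw [Finset.sum_range_succ]
    have h1 := sum_sq_tail (J := J) j (by omega)
    have hj' : (j : ℝ) + 1 ≤ J := by exact_mod_cast hj
    obtain ⟨q, hq⟩ : ∃ q : ℝ, q = (J : ℝ) - j := ⟨_, rfl⟩
    have hq1 : 1 ≤ q := by rw [hq]; linarith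
    have e : (J : ℝ) - ((j + 1 : ℕ) : ℝ) + 1 = q := by push_cast; rw [hq]; ring
    rw [e]
    rw [← hq] at h1 ⊢
    have h2 : 1 / (q + 1) + 1 / (q + 1) ^ 2 ≤ 1 / q := by
      rw [← sub_nonneg]
      have e2 : 1 / q - (1 / (q + 1) + 1 / (q + 1) ^ 2) = 1 / (q * (q + 1) ^ 2) := by
        field_simp
        ring
      rw [e2]
      positivity
    linarith

lemma sum_geo_tail {J : ℕ} : ∀ j ≤ J, ∑ i ∈ Finset.range j, (1 / 4 : ℝ) ^ i / ((J : ℝ) - i + 1) ≤
    2 / ((J : ℝ) - j + 1) := by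
  intro j hj
  have hj' : (j : ℝ) ≤ J := by exact_mod_cast hj
  have hp : 0 < (J : ℝ) - j + 1 := by linarith
  calc ∑ i ∈ Finset.range j, (1 / 4 : ℝ) ^ i / ((J : ℝ) - i + 1)
      ≤ ∑ i ∈ Finset.range j, (1 / 4 : ℝ) ^ i / ((J : ℝ) - j + 1) := by
        refine Finset.sum_le_sum fun i hi => ?_
        have h1 : (i : ℝ) ≤ j := by
          exact_mod_cast (Finset.mem_range.1 hi).le
        exact div_le_div_of_nonneg_left (by positivity) hp (by linarith)
    _ = (∑ i ∈ Finset.range j, (1 / 4 : ℝ) ^ i) / ((J : ℝ) - j + 1) := by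
        rw [Finset.sum_div]
    _ ≤ _ := by
        refine div_le_div_of_nonneg_right ?_ hp.le
        have h2 := sum_geo4 j
        have h3 : (0 : ℝ) ≤ (1 / 4 : ℝ) ^ j := by positivity
        linarith

variable {G : Type*} [Group G] [TopologicalSpace G] [IsTopologicalGroup G] [CompactSpace G]
  [MeasurableSpace G] [BorelSpace G] [SecondCountableTopology G]
  {μ : Measure G} [IsProbabilityMeasure μ] [μ.IsHaarMeasure] [μ.IsMulRightInvariant]
  [μ.IsInvInvariant] {χ : G → ℝ} {n : ℕ} {D : ED G n}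
  {Zb : ℝ → G → ℝ} {P : (G → ℝ) → ℝ → ℝ → Prop} {τ h0 A : ℝ}

/-- a stopped trajectory of the sharp flow -/
structure Stop3 (μ : Measure G) (Z : G → ℝ) (P : (G → ℝ) → ℝ → ℝ → Prop)
    (c b C4 hq H R x0 : ℝ) (J : ℕ) (h ρ : ℕ → ℝ) : Prop where
  p : ∀ j ≤ J, P (TTn μ Z j) (h j) (ρ j)
  lo : ∀ j ≤ J, hq ≤ h j
  fin : h J ≤ H
  nn : ∀ j ≤ J, 0 ≤ ρ j
  rb : ∀ j ≤ J, ρ j ≤ R + 2
  ra : ∀ j ≤ J, ρ j ≤ (1 / 4) ^ j * R + C4 / ((J : ℝ) - j + 1)
  as : ∀ j ≤ J, |h j - c * ((J : ℝ) - j)| ≤ H + C4 * (1 + Real.log ((J : ℝ) - j + 1))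
  low : ∀ j < J, c / 4 * ((J : ℝ) - j + 1) ≤ h j
  st : ∀ j < J, |h (j + 1) - h j + c| ≤ C4 * (ρ j + 1 / h j)
  ps : ∀ j ≤ J, |PsiT c b (h j) - PsiT c b x0 + j| ≤ C4 / ((J : ℝ) - j + 1)
  sm : ∀ j ≤ J, ∑ i ∈ Finset.range j, (ρ i + 1 / h i) / h i ≤ C4 / ((J : ℝ) - j + 1)

variable (μ) in
/-- **the trajectories of the sharp flow** -/
theorem stop3 (hc : 0 < c) (hC : 0 ≤ C) (hR : 0 ≤ R) (hh0 : 0 < h0) (b : ℝ) {Tb : ℝ}
    (hTb : 0 ≤ Tb) (hq : ℝ) (hhq : h0 ≤ hq) :
    ∃ H C4 : ℝ, hq ≤ H ∧ 1 ≤ H ∧ 0 ≤ C4 ∧ ∀ {χ : G → ℝ} {n : ℕ} {D : ED G n} {Zb : ℝ → G → ℝ} {P : (G → ℝ) → ℝ → ℝ → Prop} {τ A : ℝ},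
      Flow3 μ χ D Zb P c b τ h0 C A R → |τ| ≤ Tb → ∀ β, H ≤ β → ∃ J h ρ,
      Stop3 μ (Zb β) P c b C4 hq H R (β + τ) J h ρ := by
  obtain ⟨Hm, C4, hHm, hC4, hT⟩ := traj_two (c := c) (C := C) (R := R) hc hC hR b
  obtain ⟨C1, hC1⟩ : ∃ C1 : ℝ, C1 = |b| + C * (R + 3) + C := ⟨_, rfl⟩
  have hC10 : 0 ≤ C1 := by rw [hC1]; positivity
  obtain ⟨D, hD⟩ : ∃ D : ℝ, D = c + |b| + C * (R + 3) := ⟨_, rfl⟩
  have hD0 : 0 < D := by rw [hD]; positivity
  obtain ⟨H, hH⟩ : ∃ H : ℝ, H = max (max Hm 1) (max (hq + c + C1 * (R + 3)) (2 * D + C4 + c)) :=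
    ⟨_, rfl⟩
  have e1 : Hm ≤ H := by rw [hH]; exact (le_max_left _ _).trans (le_max_left _ _)
  have e2 : 1 ≤ H := by rw [hH]; exact (le_max_right _ _).trans (le_max_left _ _)
  have e3 : hq + c + C1 * (R + 3) ≤ H := by
    rw [hH]; exact (le_max_left _ _).trans (le_max_right _ _)
  have e4 : 2 * D + C4 + c ≤ H := by
    rw [hH]; exact (le_max_right _ _).trans (le_max_right _ _)
  have e5 : 0 ≤ C1 * (R + 3) := by positivity
  have hqH : hq ≤ H := by linarith
  -- the constants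
  obtain ⟨K3, hK3⟩ : ∃ K3 : ℝ, K3 = Kp3 c b C R := ⟨_, rfl⟩
  have hK30 : 0 ≤ K3 := by rw [hK3]; unfold Kp3; positivity
  obtain ⟨CV, hCV⟩ : ∃ CV : ℝ, CV = 8 * R / c + 4 / c * (C4 + 4 / c) := ⟨_, rfl⟩
  have hCV0 : 0 ≤ CV := by rw [hCV]; positivity
  obtain ⟨C0, hC0⟩ : ∃ C0 : ℝ, C0 = (1 / c + |b| / c ^ 2) * R * (4 / c * (1 + R + Tb)) := ⟨_, rfl⟩
  have hC00 : 0 ≤ C0 := by rw [hC0]; positivity
  refine ⟨H + R + Tb + 1, C4 + C1 + CV + K3 * CV + C0, by linarith, by linarith, by positivity,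
    fun {χ n D Zb P τ A} F hτb β hβ => ?_⟩
  have hτ0 := abs_nonneg τ
  have hβ1 : 1 ≤ β := by linarith
  have hβ0 : 0 < β := by linarith
  obtain ⟨h00, ρ00, s1, s2, s3⟩ := F.start β (by linarith)
  have hRβ : R / β ≤ R := div_le_self hR hβ1
  have s1' := abs_le.1 (s1.trans hRβ)
  have hτ1 := neg_abs_le τ
  have hτ2 := le_abs_self τ
  have hh00 : H + 1 ≤ h00 := by linarith [s1'.1]
  obtain ⟨m, hm⟩ := exists_nat_gt ((h00 + C4) / (c / 2))
  obtain ⟨J, hJm, h, ρ, a1, a2, a3, a4, a5⟩ := exists_stop (μ := μ) (P := P) (H := H)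
    (Q := fun h ρ h' ρ' => 0 ≤ ρ' ∧ |h' - h + c - b / h| ≤ C * (ρ + 1 / h) / h ∧
      ρ' ≤ ρ / 4 + C / h) (fun f h ρ hP hh => by
        obtain ⟨h', ρ', b1, b2, b3⟩ := F.step f h ρ hP (hhq.trans (hqH.trans hh))
        exact ⟨h', ρ', b1, F.nn _ _ _ b1, b2, b3⟩) s3 m
  have hρ0 : 0 ≤ ρ 0 := by
    rw [a2]
    exact F.nn _ _ _ s3
  have hρR : ρ 0 ≤ R := by rw [a2]; exact s2
  have hnn : ∀ j ≤ J, 0 ≤ ρ j := fun j hj => F.nn _ _ _ (a3 j hj)
  have t2 : TR2 c b C H h ρ J := by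
    refine ⟨fun j hj => (a4 j hj).1, fun j hj => ?_,
      fun j hj => (a4 j hj).2.1, fun j hj => (a4 j hj).2.2.2⟩
    refine (a4 j hj).2.2.1.trans ?_
    have hj1 := (a4 j hj).1
    have hj0 : 0 < h j := by linarith
    have hρj := hnn j hj.le
    have : C * (ρ j + 1 / h j) / h j = C * ((ρ j + 1 / h j) * (1 / h j)) := by ring
    rw [this, pow_two]
    refine mul_le_mul_of_nonneg_left ?_ hC
    exact mul_le_mul_of_nonneg_left (by linarith) (by positivity)
  obtain ⟨t, g1, g2, g3, g4, g5⟩ := hT H e1 h ρ J t2 hρ0 hρR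
  have hJH : h J < H := by
    rcases a5 with h1 | h1
    · exact h1
    · by_contra hcon
      push Not at hcon
      have h2 := g2 0 J (by omega)
      rw [zero_add, a1, h1] at h2
      rw [div_lt_iff₀ (by linarith)] at hm
      rw [h1] at hcon
      clear hJm a2 a3 a4 g1 g3 g4 g5 t t2 hnn hT F s1 s2 s3 s1'
      linarith
  have hlo : ∀ j ≤ J, hq ≤ h j := by
    intro j hj
    rcases Nat.lt_or_ge j J with h1 | h1
    · exact hqH.trans (t.big j h1)
    · obtain rfl : j = J := by omega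
      rcases j with _ | i
      · rw [a1] at hJH; linarith
      · have h2 := t.big i (by omega)
        have h3 := (abs_le.1 (t.st i (by omega))).1
        have h4 := g1 i (by omega)
        have h5 : 1 / h i ≤ 1 := by
          rw [div_le_one (by linarith)]
          linarith
        have h6 : C1 * (ρ i + 1 / h i) ≤ C1 * (R + 3) :=
          mul_le_mul_of_nonneg_left (by linarith) hC10
        rw [← hC1] at h3
        linarith
  have hJ0 : h J ≥ 0 := by
    have := hlo J le_rfl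
    linarith
  have cst : ∀ j ≤ J, ((J - j : ℕ) : ℝ) = (J : ℝ) - j := fun j hj => Nat.cast_sub hj
  have hqp : ∀ j ≤ J, 1 ≤ (J : ℝ) - j + 1 := by
    intro j hj
    have : (j : ℝ) ≤ J := by exact_mod_cast hj
    linarith
  have hlow : ∀ j < J, c / 4 * ((J : ℝ) - j + 1) ≤ h j := by
    intro j hj
    have h2 := g2 j (J - j) (by omega)
    rw [show j + (J - j) = J by omega, cst j hj.le] at h2
    have h3 := t.big j hj
    have h4 : (1 : ℝ) ≤ (J : ℝ) - j := by
      have : (j : ℝ) + 1 ≤ J := by exact_mod_cast hj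
      linarith
    have h5 := mul_nonneg hc.le (sub_nonneg.2 h4)
    linarith
  have hsum : ∀ j ≤ J, ∑ i ∈ Finset.range j, (ρ i + 1 / h i) / h i ≤ CV / ((J : ℝ) - j + 1) := by
    intro j hj
    have h1 : ∀ i ∈ Finset.range j, (ρ i + 1 / h i) / h i ≤
        4 * R / c * ((1 / 4 : ℝ) ^ i / ((J : ℝ) - i + 1)) +
        4 / c * (C4 + 4 / c) * (1 / ((J : ℝ) - i + 1) ^ 2) := by
      intro i hi
      have hij := Finset.mem_range.1 hi
      have hiJ : i < J := by omega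
      obtain ⟨q, hq'⟩ : ∃ q : ℝ, q = (J : ℝ) - i + 1 := ⟨_, rfl⟩
      have hq1 : 1 ≤ q := by rw [hq']; exact hqp i hiJ.le
      have hq0 : 0 < q := by linarith
      have h2 := hlow i hiJ
      rw [← hq'] at h2 ⊢
      have h3 := g4 hJ0 i (J - i) (by omega)
      rw [cst i hiJ.le, ← hq'] at h3
      have h4 : 1 / h i ≤ 4 / c * (1 / q) := by
        have h8 := one_div_le_one_div_of_le (by positivity : 0 < c / 4 * q) h2
        refine h8.trans (le_of_eq ?_)
        field_simp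
      have h5 : 0 < h i := by linarith [t.big i hiJ]
      have h6 : ρ i + 1 / h i ≤ (1 / 4) ^ i * R + (C4 + 4 / c) * (1 / q) := by
        have e : (C4 + 4 / c) * (1 / q) = C4 / q + 4 / c * (1 / q) := by ring
        rw [e]
        linarith
      have h7 : 0 ≤ ρ i := hnn i hiJ.le
      calc (ρ i + 1 / h i) / h i = (ρ i + 1 / h i) * (1 / h i) := by ring
        _ ≤ ((1 / 4) ^ i * R + (C4 + 4 / c) * (1 / q)) * (4 / c * (1 / q)) :=
            mul_le_mul h6 h4 (by positivity) (by positivity)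
        _ = _ := by ring
    refine (Finset.sum_le_sum h1).trans ?_
    rw [Finset.sum_add_distrib, ← Finset.mul_sum, ← Finset.mul_sum]
    have h2 := mul_le_mul_of_nonneg_left (sum_geo_tail j hj) (show 0 ≤ 4 * R / c by positivity)
    have h3 := mul_le_mul_of_nonneg_left (sum_sq_tail j hj)
      (show 0 ≤ 4 / c * (C4 + 4 / c) by positivity)
    refine (add_le_add h2 h3).trans (le_of_eq ?_)
    rw [hCV]
    ring
  -- the total constant
  obtain ⟨CT, hCT⟩ : ∃ CT : ℝ, CT = C4 + C1 + CV + K3 * CV + C0 := ⟨_, rfl⟩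
  rw [← hCT]
  have hKC : 0 ≤ K3 * CV := by positivity
  have i1 : C4 ≤ CT := by rw [hCT]; linarith
  have i2 : C1 ≤ CT := by rw [hCT]; linarith
  have i3 : CV ≤ CT := by rw [hCT]; linarith
  have i4 : K3 * CV + C0 ≤ CT := by rw [hCT]; linarith
  refine ⟨J, h, ρ, a3, hlo, by linarith, hnn, g1, fun j hj => ?_, fun j hj => ?_, hlow,
    fun j hj => ?_, fun j hj => ?_, fun j hj => ?_⟩
  · have h1 := g4 hJ0 j (J - j) (by omega)
    rw [cst j hj] at h1
    have h2 := hqp j hj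
    have h3 : C4 / ((J : ℝ) - j + 1) ≤ CT / ((J : ℝ) - j + 1) :=
      div_le_div_of_nonneg_right i1 (by linarith)
    linarith
  · have h1 := g3 hJH.le hJ0 j (J - j) (by omega)
    rw [cst j hj] at h1
    have h2 : 0 ≤ Real.log ((J : ℝ) - j + 1) := Real.log_nonneg (hqp j hj)
    have h3 : C4 * (1 + Real.log ((J : ℝ) - j + 1)) ≤ CT * (1 + Real.log ((J : ℝ) - j + 1)) :=
      mul_le_mul_of_nonneg_right i1 (by linarith)
    linarith
  · have h1 := t.st j hj
    rw [← hC1] at h1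
    have h2 : 0 < h j := by linarith [t.big j hj]
    have h3 := hnn j hj.le
    exact h1.trans (mul_le_mul_of_nonneg_right i2 (by positivity))
  · -- the time
    have hstep : ∀ i < J, |PsiT c b (h (i + 1)) - PsiT c b (h i) + 1| ≤
        K3 * ((ρ i + 1 / h i) / h i) := by
      intro i hi
      have h2 := t.big i hi
      have h4 := psi_step3 (R := R) hc hC (by linarith) (by rw [← hD]; linarith) (hnn i hi.le)
        (g1 i hi.le) (a4 i hi).2.2.1
      rwa [← hK3] at h4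
    have htel : ∀ j ≤ J, |PsiT c b (h j) - PsiT c b (h 0) + j| ≤
        ∑ i ∈ Finset.range j, K3 * ((ρ i + 1 / h i) / h i) := by
      intro j
      induction j with
      | zero => intro _; simp
      | succ j ih =>
        intro hj
        have h2 := ih (by omega)
        have h3 := hstep j (by omega)
        rw [Finset.sum_range_succ]
        push_cast
        have e : PsiT c b (h (j + 1)) - PsiT c b (h 0) + (j + 1) =
            (PsiT c b (h j) - PsiT c b (h 0) + j) +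
            (PsiT c b (h (j + 1)) - PsiT c b (h j) + 1) := by ring
        rw [e]
        exact (abs_add_le _ _).trans (add_le_add h2 h3)
    have h1 := htel j hj
    rw [← Finset.mul_sum] at h1
    have h2 := mul_le_mul_of_nonneg_left (hsum j hj) hK30
    -- the start
    have h3 : |PsiT c b (h 0) - PsiT c b (β + τ)| ≤ C0 / ((J : ℝ) - j + 1) := by
      have h4 := psi_lip (b := b) hc (show 1 ≤ h 0 by rw [a1]; linarith)
        (show 1 ≤ β + τ by linarith)
      refine h4.trans ?_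
      rw [a1]
      have h5 : (1 / c + |b| / c ^ 2) * |h00 - (β + τ)| ≤ (1 / c + |b| / c ^ 2) * (R / β) :=
        mul_le_mul_of_nonneg_left s1 (by positivity)
      refine h5.trans ?_
      have hJ1 : 0 < J := by
        rcases Nat.eq_zero_or_pos J with h6 | h6
        · exfalso
          rw [h6, a1] at hJH
          linarith
        · exact h6
      have h6 := hlow 0 hJ1
      rw [a1] at h6
      push_cast at h6
      have h7 : (J : ℝ) - j + 1 ≤ (J : ℝ) - 0 + 1 := by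
        have : (0 : ℝ) ≤ j := Nat.cast_nonneg j
        linarith
      have h8 : h00 ≤ (1 + R + Tb) * β := by
        have : (R + Tb) * 1 ≤ (R + Tb) * β := mul_le_mul_of_nonneg_left hβ1 (by linarith)
        linarith [s1'.2]
      have h9 : c / 4 * ((J : ℝ) - j + 1) ≤ (1 + R + Tb) * β := by
        have : c / 4 * ((J : ℝ) - j + 1) ≤ c / 4 * ((J : ℝ) - 0 + 1) :=
          mul_le_mul_of_nonneg_left h7 (by positivity)
        linarith
      have h10 := hqp j hj
      have h11 : R / β ≤ R * (4 / c * (1 + R + Tb)) / ((J : ℝ) - j + 1) := by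
        rw [div_le_div_iff₀ hβ0 (by linarith)]
        have h12 : (J : ℝ) - j + 1 ≤ 4 / c * (1 + R + Tb) * β := by
          have h13 := mul_le_mul_of_nonneg_left h9 (show 0 ≤ 4 / c by positivity)
          have e6 : 4 / c * (c / 4 * ((J : ℝ) - j + 1)) = (J : ℝ) - j + 1 := by
            field_simp
          rw [e6] at h13
          linarith
        have := mul_le_mul_of_nonneg_left h12 hR
        linarith
      have h12 := mul_le_mul_of_nonneg_left h11 (show 0 ≤ 1 / c + |b| / c ^ 2 by positivity)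
      refine h12.trans (le_of_eq ?_)
      rw [hC0]
      ring
    have e : PsiT c b (h j) - PsiT c b (β + τ) + j = (PsiT c b (h j) - PsiT c b (h 0) + j) +
        (PsiT c b (h 0) - PsiT c b (β + τ)) := by ring
    rw [e]
    refine (abs_add_le _ _).trans ?_
    have h10 := hqp j hj
    have h11 : (K3 * CV + C0) / ((J : ℝ) - j + 1) ≤ CT / ((J : ℝ) - j + 1) :=
      div_le_div_of_nonneg_right i4 (by linarith)
    have e2 : (K3 * CV + C0) / ((J : ℝ) - j + 1) = K3 * (CV / ((J : ℝ) - j + 1)) +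
        C0 / ((J : ℝ) - j + 1) := by ring
    linarith
  · have h10 := hqp j hj
    exact (hsum j hj).trans (div_le_div_of_nonneg_right i3 (by linarith))

variable (μ) in
/-- **the trajectories of the sharp flow, with their observables** -/
theorem stopJ (χ : G → ℝ) (D : ED G n) {P : (G → ℝ) → ℝ → ℝ → Prop} (hc : 0 < c) (hC : 0 ≤ C)
    (hA : 0 ≤ A) (hR : 0 ≤ R) (hh0 : 0 < h0) (b : ℝ)
    (ent : ∀ H, ∃ K, 0 ≤ K ∧ ∀ f h ρ, P f h ρ → h0 ≤ h → h ≤ H → SC D K f) {Tb : ℝ}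
    (hTb : 0 ≤ Tb) (hq1 : ℝ) :
    ∃ hq H C4 K : ℝ, h0 ≤ hq ∧ 1 ≤ hq ∧ hq1 ≤ hq ∧ hq ≤ H ∧ 0 ≤ C4 ∧ 0 ≤ K ∧
      ∀ {Zb : ℝ → G → ℝ} {τ : ℝ}, Flow3 μ χ D Zb P c b τ h0 C A R → |τ| ≤ Tb → ∀ β, H ≤ β →
      ∃ J h ρ, TJ μ χ D P c b A R H C4 K hq (Zb β) (PsiT c b (β + τ)) J h ρ := by
  obtain ⟨hq, hhq⟩ : ∃ hq : ℝ, hq = max (max h0 1) (max hq1 (2 * (A + C * (R + 3)))) := ⟨_, rfl⟩
  have e1 : h0 ≤ hq := by rw [hhq]; exact (le_max_left _ _).trans (le_max_left _ _)
  have e2 : 1 ≤ hq := by rw [hhq]; exact (le_max_right _ _).trans (le_max_left _ _)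
  have e3 : hq1 ≤ hq := by rw [hhq]; exact (le_max_left _ _).trans (le_max_right _ _)
  have e4 : 2 * (A + C * (R + 3)) ≤ hq := by
    rw [hhq]; exact (le_max_right _ _).trans (le_max_right _ _)
  obtain ⟨H, C4, h1, h1', h2, h3⟩ := stop3 μ hc hC hR hh0 b hTb hq e1
  obtain ⟨K, hK, hK2⟩ := ent H
  have hCR : 0 ≤ A + C * (R + 3) := by positivity
  refine ⟨hq, H, C4 + C + (A + C * (R + 3)), K, e1, e2, e3, h1, by positivity, hK,
    fun {Zb τ} F hτ β hβ => ?_⟩
  obtain ⟨J, h, ρ, s⟩ := h3 F hτ β hβ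
  obtain ⟨CT, hCT⟩ : ∃ CT : ℝ, CT = C4 + C + (A + C * (R + 3)) := ⟨_, rfl⟩
  have i1 : C4 ≤ CT := by rw [hCT]; linarith
  have i2 : C ≤ CT := by rw [hCT]; linarith
  have i3 : A + C * (R + 3) ≤ CT := by rw [hCT]; linarith
  rw [← hCT]
  have ex : ∀ j m : ℕ, j + m = J → (J : ℝ) - j = m := by
    intro j m h
    have : (J : ℝ) = j + m := by exact_mod_cast h.symm
    linarith
  have hw : ∀ j ≤ J, |1 - WW μ χ (TTn μ (Zb β) j) - A / h j| ≤ C * (ρ j + 1 / h j) / h j ∧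
      1 - WW μ χ (TTn μ (Zb β) j) ≤ (A + C * (R + 3)) / h j := by
    intro j hj
    have hj1 := s.lo j hj
    have hj2 : 0 < h j := by linarith
    have hw := F.wil _ _ _ (s.p j hj) (e1.trans hj1)
    have h4 : 1 / h j ≤ 1 := by
      rw [div_le_one hj2]
      linarith
    have h5 : C * (ρ j + 1 / h j) ≤ C * (R + 3) :=
      mul_le_mul_of_nonneg_left (by linarith [s.rb j hj]) hC
    refine ⟨hw, ?_⟩
    have h7 := (abs_le.1 hw).2
    have h8 : C * (ρ j + 1 / h j) / h j ≤ C * (R + 3) / h j :=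
      div_le_div_of_nonneg_right h5 hj2.le
    rw [add_div]
    linarith
  refine ⟨J, h, ρ, s.p, s.lo, s.fin, s.nn, fun j m hjm => ?_, fun j m hjm => ?_, fun j hj => ?_,
    fun j m hjm => ?_, fun j m hjm => ?_,
    hK2 _ _ _ (s.p J le_rfl) (e1.trans (s.lo J le_rfl)) s.fin, fun j hj => ?_, fun j hj => ?_,
    fun j hj => ?_⟩
  · have h4 := s.ra j (by omega)
    rw [ex j m hjm] at h4
    have h5 : C4 / ((m : ℝ) + 1) ≤ CT / (m + 1) := div_le_div_of_nonneg_right i1 (by positivity)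
    linarith
  · have h4 := s.as j (by omega)
    rw [ex j m hjm] at h4
    have h5 : 0 ≤ Real.log ((m : ℝ) + 1) := Real.log_nonneg (by
      have : (0 : ℝ) ≤ m := Nat.cast_nonneg m
      linarith)
    have h6 : C4 * (1 + Real.log ((m : ℝ) + 1)) ≤ CT * (1 + Real.log ((m : ℝ) + 1)) :=
      mul_le_mul_of_nonneg_right i1 (by linarith)
    linarith
  · have h4 := s.st j hj
    have h5 : 0 < h j := by linarith [s.lo j hj.le]
    have h6 := s.nn j hj.le
    exact h4.trans (mul_le_mul_of_nonneg_right i1 (by positivity))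
  · have h4 := s.ps j (by omega)
    rw [ex j m hjm] at h4
    exact h4.trans (div_le_div_of_nonneg_right i1 (by positivity))
  · have h4 := s.sm j (by omega)
    rw [ex j m hjm] at h4
    exact h4.trans (div_le_div_of_nonneg_right i1 (by positivity))
  · have h4 := (hw j hj).2
    have hj1 := s.lo j hj
    have h5 : (A + C * (R + 3)) / h j ≤ 1 / 2 := by
      rw [div_le_iff₀ (by linarith)]
      linarith
    linarith
  · have h4 := (hw j hj).1
    have h5 : 0 < h j := by linarith [s.lo j hj]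
    have h6 := s.nn j hj
    refine h4.trans (div_le_div_of_nonneg_right (mul_le_mul_of_nonneg_right i2 ?_) h5.le)
    positivity
  · have h5 : 0 < h j := by linarith [s.lo j hj]
    exact (hw j hj).2.trans (div_le_div_of_nonneg_right i3 h5.le)

end

end Pool.Agent.N991.MK
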