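import Mathlib
import Pool.Agent.N991.MK.TwoStep

/-!
# The improved coupling is close to the coupling
-/

open MeasureTheory Filter Metric Asymptotics Matrix
open scoped Matrix.Norms.Frobenius Topology ContDiff
open Pool.Agent.H906R3.YM Pool.Agent.W793.YM Pool.Agent.TH618.YM Pool.Agent.N984.TW
open Pool.Agent.N988.MK (IsoG St)

namespace Pool.Agent.N991.MK

set_option linter.unusedSectionVars false

noncomputable section

variable {N n : ℕ} {G : Subgroup (UN N)} {B : Frame G n} {hG : IsClosed (G : Set (UN N))}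
variable [CompactSpace G] [MeasurableSpace G] [BorelSpace G] [SecondCountableTopology G]
  {μ : Measure G} [IsProbabilityMeasure μ] [μ.IsHaarMeasure] [μ.IsMulRightInvariant]
  [μ.IsInvInvariant]

/-- the improved coupling is close to the coupling -/
lemma near_h {r k ρ : ℝ} {f : G → ℝ} {F : (Mat N)ˣ → ℂ} {m : (Fin n → ℂ) → ℂ} (hk : 0 < k)
    (hρ : 0 ≤ ρ) (hf : CF f F) (hpos : ∀ x, 0 < f x) (hs : St B r k (ρ * k) F m) (hr : 0 < r)
    (hn : 0 < n) : |k + 48 / 5 * qb n m / k - k| ≤ 29 * n * ρ := by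
  have h1 := qb_le hs hf.hol (hf.one_ne hpos) hr (by positivity) hn
  have e : k + 48 / 5 * qb n m / k - k = 48 / 5 * qb n m / k := by ring
  rw [e, abs_div, abs_of_pos hk, div_le_iff₀ hk, abs_mul,
    abs_of_pos (by norm_num : (0 : ℝ) < 48 / 5)]
  have : 0 ≤ (n : ℝ) * ρ * k := by positivity
  calc 48 / 5 * |qb n m| ≤ 48 / 5 * (3 * n * (ρ * k)) := by linarith
    _ ≤ _ := by linarith

end

end Pool.Agent.N991.MK
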