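import Mathlib

/-!
# The real arithmetic of the weak coupling flow, to two loops
-/

namespace Pool.Agent.N991.MK

set_option linter.unusedSectionVars false

noncomputable section

/-- the arithmetic of the step of the improved coupling -/
lemma step_h {k k' q q' e g b c h h' M K Cq : ℝ} (hk : 1 ≤ k) (hM : 0 ≤ M) (hK : 0 ≤ K)
    (hCq : 0 ≤ Cq) (hk' : k / 2 ≤ k') (hh1 : 1 ≤ h)
    (h1 : |k' - (k - c + (10 * e + 9 * q - 24 * g) / k)| ≤ K * (1 + M) ^ 2 / k ^ 2)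
    (h2 : |q' - (q / 16 - 9 / 2 * g)| ≤ K * (1 + M) ^ 2 / k)
    (h3 : |k' - k| ≤ K) (h4 : |q| ≤ Cq * (1 + M)) (h5 : |q'| ≤ Cq * (1 + M))
    (hh : h = k + 48 / 5 * q / k) (hh' : h' = k' + 48 / 5 * q' / k')
    (hb : b = 10 * e - 24 * g - 216 / 5 * g) :
    |h' - h + c - b / h| ≤ (11 * K + 20 * K * Cq + 10 * |b| * Cq) * (1 + M) ^ 2 / k ^ 2 := by
  have hk0 : 0 < k := by linarith
  have hk0' : 0 < k' := by linarith
  have hh0 : 0 < h := by linarith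
  have e1 : h' - h + c - b / h = (k' - (k - c + (10 * e + 9 * q - 24 * g) / k)) +
      48 / 5 * (q' * (1 / k' - 1 / k)) + 48 / 5 * ((q' - (q / 16 - 9 / 2 * g)) / k) +
      b * (1 / k - 1 / h) := by
    have e2 : b * (1 / k - 1 / h) = (10 * e - 24 * g - 216 / 5 * g) / k - b / h := by
      rw [mul_sub, mul_one_div, mul_one_div]
      nth_rewrite 1 [hb]
      rfl
    rw [e2, hh', hh]
    ring
  have h6 : |1 / k' - 1 / k| ≤ 2 * K / k ^ 2 := by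
    have e2 : 1 / k' - 1 / k = -(k' - k) / (k' * k) := by
      field_simp
      ring
    rw [e2, abs_div, abs_neg, abs_of_pos (by positivity : (0 : ℝ) < k' * k),
      div_le_div_iff₀ (by positivity) (by positivity)]
    have h7 : |k' - k| * k ^ 2 ≤ K * k ^ 2 := mul_le_mul_of_nonneg_right h3 (by positivity)
    have h8 : K * k ^ 2 ≤ K * (2 * (k' * k)) := by
      refine mul_le_mul_of_nonneg_left ?_ hK
      have := mul_le_mul_of_nonneg_right hk' hk0.le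
      linarith only [this]
    linarith
  have h7 : |1 / k - 1 / h| ≤ 10 * Cq * (1 + M) / k ^ 2 := by
    have e2 : 1 / k - 1 / h = 48 / 5 * q / (k ^ 2 * h) := by
      have e3 : h - k = 48 / 5 * q / k := by rw [hh]; ring
      have e4 : 1 / k - 1 / h = (h - k) / (k * h) := by
        field_simp
      rw [e4, e3]
      field_simp
    rw [e2, abs_div, abs_mul, abs_of_pos (by norm_num : (0 : ℝ) < 48 / 5),
      abs_of_pos (by positivity : (0 : ℝ) < k ^ 2 * h),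
      div_le_div_iff₀ (by positivity) (by positivity)]
    have h8 : 48 / 5 * |q| * k ^ 2 ≤ 10 * (Cq * (1 + M)) * k ^ 2 := by
      refine mul_le_mul_of_nonneg_right ?_ (by positivity)
      have := abs_nonneg q
      linarith
    have h9 : 10 * (Cq * (1 + M)) * k ^ 2 * 1 ≤ 10 * (Cq * (1 + M)) * k ^ 2 * h :=
      mul_le_mul_of_nonneg_left hh1 (by positivity)
    linarith
  have h8 : (1 + M) / k ^ 2 ≤ (1 + M) ^ 2 / k ^ 2 := by
    refine div_le_div_of_nonneg_right ?_ (by positivity)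
    have := mul_nonneg hM (show (0 : ℝ) ≤ 1 + M by linarith)
    linarith only [this]
  have t2 : |q' * (1 / k' - 1 / k)| ≤ 2 * K * Cq * ((1 + M) ^ 2 / k ^ 2) := by
    rw [abs_mul]
    calc |q'| * |1 / k' - 1 / k| ≤ Cq * (1 + M) * (2 * K / k ^ 2) :=
          mul_le_mul h5 h6 (abs_nonneg _) (by positivity)
      _ = 2 * K * Cq * ((1 + M) / k ^ 2) := by ring
      _ ≤ _ := mul_le_mul_of_nonneg_left h8 (by positivity)
  have t3 : |(q' - (q / 16 - 9 / 2 * g)) / k| ≤ K * ((1 + M) ^ 2 / k ^ 2) := by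
    rw [abs_div, abs_of_pos hk0]
    calc |q' - (q / 16 - 9 / 2 * g)| / k ≤ K * (1 + M) ^ 2 / k / k :=
          div_le_div_of_nonneg_right h2 hk0.le
      _ = _ := by rw [div_div, ← pow_two, mul_div_assoc]
  have t4 : |b * (1 / k - 1 / h)| ≤ 10 * |b| * Cq * ((1 + M) ^ 2 / k ^ 2) := by
    rw [abs_mul]
    calc |b| * |1 / k - 1 / h| ≤ |b| * (10 * Cq * (1 + M) / k ^ 2) :=
          mul_le_mul_of_nonneg_left h7 (abs_nonneg _)
      _ = 10 * |b| * Cq * ((1 + M) / k ^ 2) := by ring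
      _ ≤ _ := mul_le_mul_of_nonneg_left h8 (by positivity)
  have t1 : |k' - (k - c + (10 * e + 9 * q - 24 * g) / k)| ≤ K * ((1 + M) ^ 2 / k ^ 2) := by
    rw [← mul_div_assoc]
    exact h1
  obtain ⟨V, hV⟩ : ∃ V : ℝ, V = (1 + M) ^ 2 / k ^ 2 := ⟨_, rfl⟩
  have hV0 : 0 ≤ V := by rw [hV]; positivity
  rw [← hV] at t1 t2 t3 t4
  rw [e1]
  refine (abs_add_le _ _).trans ?_
  refine (add_le_add ((abs_add_le _ _).trans (add_le_add (abs_add_le _ _) le_rfl)) le_rfl).trans ?_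
  rw [abs_mul (48 / 5 : ℝ), abs_mul (48 / 5 : ℝ), abs_of_pos (by norm_num : (0 : ℝ) < 48 / 5),
    mul_div_assoc, ← hV]
  have p1 : 0 ≤ K * V := by positivity
  have p2 : 0 ≤ K * Cq * V := by positivity
  have e3 : (11 * K + 20 * K * Cq + 10 * |b| * Cq) * V =
      11 * (K * V) + 20 * (K * Cq * V) + 10 * |b| * Cq * V := by ring
  rw [e3]
  linarith

/-- the arithmetic of the step of the improved coupling -/
lemma step_h3 {k k' q q' e g b c h h' M K Cq : ℝ} (hk : 1 ≤ k) (hM : 0 ≤ M) (hK : 0 ≤ K)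
    (hCq : 0 ≤ Cq) (hk' : k / 2 ≤ k') (hh1 : 1 ≤ h)
    (h1 : |k' - (k - c + (10 * e + 9 * q - 24 * g) / k)| ≤ K * (1 + M) / k ^ 2)
    (h2 : |q' - (q / 16 - 9 / 2 * g)| ≤ K * (1 + M) / k)
    (h3 : |k' - k| ≤ K) (h4 : |q| ≤ Cq * (1 + M)) (h5 : |q'| ≤ Cq * (1 + M))
    (hh : h = k + 48 / 5 * q / k) (hh' : h' = k' + 48 / 5 * q' / k')
    (hb : b = 10 * e - 24 * g - 216 / 5 * g) :
    |h' - h + c - b / h| ≤ (11 * K + 20 * K * Cq + 10 * |b| * Cq) * (1 + M) / k ^ 2 := by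
  have hk0 : 0 < k := by linarith
  have hk0' : 0 < k' := by linarith
  have hh0 : 0 < h := by linarith
  have e1 : h' - h + c - b / h = (k' - (k - c + (10 * e + 9 * q - 24 * g) / k)) +
      48 / 5 * (q' * (1 / k' - 1 / k)) + 48 / 5 * ((q' - (q / 16 - 9 / 2 * g)) / k) +
      b * (1 / k - 1 / h) := by
    have e2 : b * (1 / k - 1 / h) = (10 * e - 24 * g - 216 / 5 * g) / k - b / h := by
      rw [mul_sub, mul_one_div, mul_one_div]
      nth_rewrite 1 [hb]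
      rfl
    rw [e2, hh', hh]
    ring
  have h6 : |1 / k' - 1 / k| ≤ 2 * K / k ^ 2 := by
    have e2 : 1 / k' - 1 / k = -(k' - k) / (k' * k) := by
      field_simp
      ring
    rw [e2, abs_div, abs_neg, abs_of_pos (by positivity : (0 : ℝ) < k' * k),
      div_le_div_iff₀ (by positivity) (by positivity)]
    have h7 : |k' - k| * k ^ 2 ≤ K * k ^ 2 := mul_le_mul_of_nonneg_right h3 (by positivity)
    have h8 : K * k ^ 2 ≤ K * (2 * (k' * k)) := by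
      refine mul_le_mul_of_nonneg_left ?_ hK
      have := mul_le_mul_of_nonneg_right hk' hk0.le
      linarith only [this]
    linarith
  have h7 : |1 / k - 1 / h| ≤ 10 * Cq * (1 + M) / k ^ 2 := by
    have e2 : 1 / k - 1 / h = 48 / 5 * q / (k ^ 2 * h) := by
      have e3 : h - k = 48 / 5 * q / k := by rw [hh]; ring
      have e4 : 1 / k - 1 / h = (h - k) / (k * h) := by
        field_simp
      rw [e4, e3]
      field_simp
    rw [e2, abs_div, abs_mul, abs_of_pos (by norm_num : (0 : ℝ) < 48 / 5),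
      abs_of_pos (by positivity : (0 : ℝ) < k ^ 2 * h),
      div_le_div_iff₀ (by positivity) (by positivity)]
    have h8 : 48 / 5 * |q| * k ^ 2 ≤ 10 * (Cq * (1 + M)) * k ^ 2 := by
      refine mul_le_mul_of_nonneg_right ?_ (by positivity)
      have := abs_nonneg q
      linarith
    have h9 : 10 * (Cq * (1 + M)) * k ^ 2 * 1 ≤ 10 * (Cq * (1 + M)) * k ^ 2 * h :=
      mul_le_mul_of_nonneg_left hh1 (by positivity)
    linarith
  have h8 : (1 + M) / k ^ 2 ≤ (1 + M) / k ^ 2 := le_rfl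
  have t2 : |q' * (1 / k' - 1 / k)| ≤ 2 * K * Cq * ((1 + M) / k ^ 2) := by
    rw [abs_mul]
    calc |q'| * |1 / k' - 1 / k| ≤ Cq * (1 + M) * (2 * K / k ^ 2) :=
          mul_le_mul h5 h6 (abs_nonneg _) (by positivity)
      _ = 2 * K * Cq * ((1 + M) / k ^ 2) := by ring
      _ ≤ _ := mul_le_mul_of_nonneg_left h8 (by positivity)
  have t3 : |(q' - (q / 16 - 9 / 2 * g)) / k| ≤ K * ((1 + M) / k ^ 2) := by
    rw [abs_div, abs_of_pos hk0]
    calc |q' - (q / 16 - 9 / 2 * g)| / k ≤ K * (1 + M) / k / k :=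
          div_le_div_of_nonneg_right h2 hk0.le
      _ = _ := by rw [div_div, ← pow_two, mul_div_assoc]
  have t4 : |b * (1 / k - 1 / h)| ≤ 10 * |b| * Cq * ((1 + M) / k ^ 2) := by
    rw [abs_mul]
    calc |b| * |1 / k - 1 / h| ≤ |b| * (10 * Cq * (1 + M) / k ^ 2) :=
          mul_le_mul_of_nonneg_left h7 (abs_nonneg _)
      _ = 10 * |b| * Cq * ((1 + M) / k ^ 2) := by ring
      _ ≤ _ := mul_le_mul_of_nonneg_left h8 (by positivity)
  have t1 : |k' - (k - c + (10 * e + 9 * q - 24 * g) / k)| ≤ K * ((1 + M) / k ^ 2) := by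
    rw [← mul_div_assoc]
    exact h1
  obtain ⟨V, hV⟩ : ∃ V : ℝ, V = (1 + M) / k ^ 2 := ⟨_, rfl⟩
  have hV0 : 0 ≤ V := by rw [hV]; positivity
  rw [← hV] at t1 t2 t3 t4
  rw [e1]
  refine (abs_add_le _ _).trans ?_
  refine (add_le_add ((abs_add_le _ _).trans (add_le_add (abs_add_le _ _) le_rfl)) le_rfl).trans ?_
  rw [abs_mul (48 / 5 : ℝ), abs_mul (48 / 5 : ℝ), abs_of_pos (by norm_num : (0 : ℝ) < 48 / 5),
    mul_div_assoc, ← hV]
  have p1 : 0 ≤ K * V := by positivity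
  have p2 : 0 ≤ K * Cq * V := by positivity
  have e3 : (11 * K + 20 * K * Cq + 10 * |b| * Cq) * V =
      11 * (K * V) + 20 * (K * Cq * V) + 10 * |b| * Cq * V := by ring
  rw [e3]
  linarith

/-- the bound of the quadratic coefficient -/
lemma flr_q {q n M M' K Cq : ℝ} (hn : 0 ≤ n) (hM : 0 ≤ M) (hK : 0 ≤ K) (hM' : M' ≤ M + K)
    (hq : |q| ≤ 3 * n * M') (hCq : Cq = 3 * n * (1 + K)) : |q| ≤ Cq * (1 + M) := by
  have h0 := mul_nonneg hK hM
  have h1 : M' ≤ (1 + K) * (1 + M) := by linarith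
  have h2 := mul_le_mul_of_nonneg_left h1 hn
  rw [hCq]
  linarith

lemma flr_inv {k h : ℝ} (hk : 0 < k) (hh : 0 < h) (hkh : h / 2 ≤ k) : 1 / k ≤ 2 * (1 / h) := by
  rw [mul_one_div, div_le_div_iff₀ hk hh]
  linarith

/-- the step of the improved coupling, quadratic form -/
lemma flr_c2 {C2 CC ρ k h x : ℝ} (hC2 : 0 ≤ C2) (hCC : 4 * C2 ≤ CC) (hρ : 0 ≤ ρ) (hk : 0 < k)
    (hh : 0 < h) (hkh : h / 2 ≤ k) (hx : x ≤ C2 * (1 + ρ * k) ^ 2 / k ^ 2) :
    x ≤ CC * (ρ + 1 / h) ^ 2 := by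
  have e1 : C2 * (1 + ρ * k) ^ 2 / k ^ 2 = C2 * (ρ + 1 / k) ^ 2 := by
    field_simp
    ring
  have e2 := flr_inv hk hh hkh
  have e3 : 0 ≤ 1 / k := (one_div_pos.2 hk).le
  have e4 : (ρ + 1 / k) ^ 2 ≤ (2 * (ρ + 1 / h)) ^ 2 :=
    pow_le_pow_left₀ (add_nonneg hρ e3) (by linarith) 2
  have e5 : 0 ≤ (ρ + 1 / h) ^ 2 := sq_nonneg _
  rw [e1] at hx
  refine hx.trans ?_
  calc C2 * (ρ + 1 / k) ^ 2 ≤ C2 * (2 * (ρ + 1 / h)) ^ 2 :=
        mul_le_mul_of_nonneg_left e4 hC2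
    _ = 4 * C2 * (ρ + 1 / h) ^ 2 := by ring
    _ ≤ CC * (ρ + 1 / h) ^ 2 := mul_le_mul_of_nonneg_right hCC e5

/-- the step of the improved coupling, sharp form -/
lemma flr_c3 {C2 CC ρ k h x : ℝ} (hC2 : 0 ≤ C2) (hCC : 4 * C2 ≤ CC) (hρ : 0 ≤ ρ) (hk : 0 < k)
    (hh : 0 < h) (hkh : h / 2 ≤ k) (hx : x ≤ C2 * (1 + ρ * k) / k ^ 2) :
    x ≤ CC * (ρ + 1 / h) / h := by
  have e1 : C2 * (1 + ρ * k) / k ^ 2 = C2 * (ρ + 1 / k) * (1 / k) := by
    field_simp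
    ring
  have e2 := flr_inv hk hh hkh
  have e3 : 0 ≤ 1 / k := (one_div_pos.2 hk).le
  have e3' : 0 ≤ 1 / h := (one_div_pos.2 hh).le
  have e4 : 0 ≤ ρ + 1 / h := add_nonneg hρ e3'
  rw [e1] at hx
  refine hx.trans ?_
  calc C2 * (ρ + 1 / k) * (1 / k) ≤ C2 * (2 * (ρ + 1 / h)) * (2 * (1 / h)) :=
        mul_le_mul (mul_le_mul_of_nonneg_left (by linarith) hC2) e2 e3
          (mul_nonneg hC2 (by linarith))
    _ = 4 * C2 * ((ρ + 1 / h) * (1 / h)) := by ring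
    _ ≤ CC * ((ρ + 1 / h) * (1 / h)) := mul_le_mul_of_nonneg_right hCC (mul_nonneg e4 e3')
    _ = _ := by ring

/-- the step of the defect -/
lemma flr_rho {M' K CC ρ k k' h : ℝ} (hρ : 0 ≤ ρ) (hk : 0 < k) (hh : 0 < h) (hkh : h / 2 ≤ k)
    (hk' : k / 2 ≤ k') (hK : 4 * K ≤ CC) (hCC : 0 ≤ CC) (hM' : M' ≤ ρ * k / 16 + K) :
    M' / k' ≤ ρ / 4 + CC / h := by
  have hk0 : 0 < k' := by linarith
  have e0 : 0 ≤ CC / h := div_nonneg hCC hh.le
  rw [div_le_iff₀ hk0]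
  have e4 : (ρ / 4 + CC / h) * (k / 2) ≤ (ρ / 4 + CC / h) * k' :=
    mul_le_mul_of_nonneg_left hk' (by linarith)
  have e5 : (ρ / 4 + CC / h) * (k / 2) = ρ * k / 8 + CC / h * (k / 2) := by ring
  have e6 : CC / h * (h / 4) ≤ CC / h * (k / 2) :=
    mul_le_mul_of_nonneg_left (by linarith) e0
  have e7 : CC / h * (h / 4) = CC / 4 := by
    field_simp
  have e8 : 0 ≤ ρ * k := mul_nonneg hρ hk.le
  linarith

/-- the Wilson observable in terms of the improved coupling -/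
lemma flr_wil {w A C n ρ k h CC : ℝ} (hA : 0 ≤ A) (hC : 0 ≤ C) (hn : 0 ≤ n) (hρ : 0 ≤ ρ)
    (hk1 : 1 ≤ k) (hh : 0 < h) (hkh : h / 2 ≤ k) (hj : |h - k| ≤ 29 * n * ρ)
    (hCC : 4 * C + 58 * n * A ≤ CC) (hw : |1 - w - A / k| ≤ C * (1 + ρ * k) / k ^ 2) :
    |1 - w - A / h| ≤ CC * (ρ + 1 / h) / h := by
  have hk : 0 < k := by linarith
  have e3' : 0 ≤ 1 / h := (one_div_pos.2 hh).le
  have hnA : 0 ≤ n * A := mul_nonneg hn hA
  have e9 : 0 ≤ (ρ + 1 / h) * (1 / h) := mul_nonneg (add_nonneg hρ e3') e3'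
  have e4 : |1 - w - A / k| ≤ 4 * C * (ρ + 1 / h) / h := flr_c3 hC le_rfl hρ hk hh hkh hw
  have e5 : |A / k - A / h| ≤ 29 * n * A * (ρ * (1 / h)) := by
    have e6 : A / k - A / h = A * (h - k) / (k * h) := by
      field_simp
    rw [e6, abs_div, abs_mul, abs_of_nonneg hA, abs_of_pos (mul_pos hk hh)]
    have e8 : 0 ≤ 29 * n * A * ρ * (1 / h) :=
      mul_nonneg (mul_nonneg (by linarith) hρ) e3'
    calc A * |h - k| / (k * h) ≤ A * (29 * n * ρ) / (k * h) :=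
          div_le_div_of_nonneg_right (mul_le_mul_of_nonneg_left hj hA) (mul_pos hk hh).le
      _ = 29 * n * A * ρ * (1 / h) * (1 / k) := by
          field_simp
      _ ≤ 29 * n * A * ρ * (1 / h) * 1 := by
          refine mul_le_mul_of_nonneg_left ?_ e8
          rw [div_le_one hk]
          linarith
      _ = _ := by ring
  have e7 : 1 - w - A / h = (1 - w - A / k) + (A / k - A / h) := by ring
  rw [e7]
  refine (abs_add_le _ _).trans ((add_le_add e4 e5).trans ?_)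
  have e10 : 29 * n * A * (ρ * (1 / h)) ≤ 58 * n * A * ((ρ + 1 / h) * (1 / h)) := by
    have e11 : ρ * (1 / h) ≤ 2 * ((ρ + 1 / h) * (1 / h)) := by
      have e12 : 0 ≤ ρ * (1 / h) := mul_nonneg hρ e3'
      have e13 : 0 ≤ 1 / h * (1 / h) := mul_nonneg e3' e3'
      linarith
    have e14 := mul_le_mul_of_nonneg_left e11 (show 0 ≤ 29 * (n * A) by linarith)
    linarith
  have e15 := mul_le_mul_of_nonneg_right hCC e9
  have e16 : 4 * C * (ρ + 1 / h) / h = 4 * C * ((ρ + 1 / h) * (1 / h)) := by ring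
  have e17 : CC * (ρ + 1 / h) / h = CC * ((ρ + 1 / h) * (1 / h)) := by ring
  rw [e16, e17]
  linarith

/-- the distance of the couplings -/
lemma flr_S {x n ρ k ε r S : ℝ} (hn : 0 ≤ n) (hr : 0 < r) (hk : 0 < k)
    (hM : ρ * k * r ^ 2 ≤ ε * k) (hS : S = 29 * n * (ε / r ^ 2)) (hx : x ≤ 29 * n * ρ) :
    x ≤ S := by
  have h1 : ρ ≤ ε / r ^ 2 := by
    rw [le_div_iff₀ (pow_pos hr 2)]
    refine le_of_mul_le_mul_right ?_ hk
    linarith
  rw [hS]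
  exact hx.trans (mul_le_mul_of_nonneg_left h1 (by linarith))

/-- the coupling is large -/
lemma flr_k {h k S h0 h1 k0 K q : ℝ} (hS : 0 ≤ S) (h1n : 0 ≤ h1) (hk0 : 0 ≤ k0) (hK : 0 ≤ K)
    (hq : 0 ≤ q) (hh0 : h0 = 2 * (h1 + k0 + 2 * K + S + 2) + q) (hh : h0 ≤ h)
    (hj : |h - k| ≤ S) :
    h1 ≤ k ∧ k0 ≤ k ∧ 2 * K + 2 ≤ k ∧ h / 2 ≤ k ∧ 2 ≤ h ∧ k ≤ h + S := by
  have hj' := abs_le.1 hj
  refine ⟨?_, ?_, ?_, ?_, ?_, ?_⟩ <;> linarith [hj'.1, hj'.2]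

lemma flr_M {x ε k : ℝ} (hε : ε ≤ 1 / 1000) (hk : 0 ≤ k) (hx : x ≤ ε * k) : x ≤ k / 1000 := by
  have := mul_le_mul_of_nonneg_right hε hk
  linarith

/-- the data of a step -/
lemma flr_step {K₀ K ρ k k' a b : ℝ} (hK : 0 ≤ K) (hKK : K₀ ≤ K) (hρ : 0 ≤ ρ) (hk : 2 * K + 2 ≤ k)
    (h3 : |k' - k| ≤ K₀) (ha : a ≤ K₀ * (1 + ρ * k) / k ^ 2) (hb : b ≤ K₀ * (1 + ρ * k) / k) :
    a ≤ K * (1 + ρ * k) / k ^ 2 ∧ b ≤ K * (1 + ρ * k) / k ∧ |k' - k| ≤ K ∧ k / 2 ≤ k' ∧ 0 < k' := by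
  have hk0 : 0 < k := by linarith
  have h0 : 0 ≤ 1 + ρ * k := by
    have := mul_nonneg hρ hk0.le
    linarith
  have h4 := abs_le.1 (h3.trans hKK)
  refine ⟨ha.trans ?_, hb.trans ?_, h3.trans hKK, by linarith [h4.1], by linarith [h4.1]⟩
  · exact div_le_div_of_nonneg_right (mul_le_mul_of_nonneg_right hKK h0) (pow_pos hk0 2).le
  · exact div_le_div_of_nonneg_right (mul_le_mul_of_nonneg_right hKK h0) hk0.le

lemma flr_step2 {K₀ K ρ k k' a b : ℝ} (hK : 0 ≤ K) (hKK : K₀ ≤ K)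
    (hk : 2 * K + 2 ≤ k) (h3 : |k' - k| ≤ K₀) (ha : a ≤ K₀ * (1 + ρ * k) ^ 2 / k ^ 2)
    (hb : b ≤ K₀ * (1 + ρ * k) ^ 2 / k) :
    a ≤ K * (1 + ρ * k) ^ 2 / k ^ 2 ∧ b ≤ K * (1 + ρ * k) ^ 2 / k ∧ |k' - k| ≤ K ∧
      k / 2 ≤ k' ∧ 0 < k' := by
  have hk0 : 0 < k := by linarith
  have h0 : 0 ≤ (1 + ρ * k) ^ 2 := sq_nonneg _
  have h4 := abs_le.1 (h3.trans hKK)
  refine ⟨ha.trans ?_, hb.trans ?_, h3.trans hKK, by linarith [h4.1], by linarith [h4.1]⟩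
  · exact div_le_div_of_nonneg_right (mul_le_mul_of_nonneg_right hKK h0) (pow_pos hk0 2).le
  · exact div_le_div_of_nonneg_right (mul_le_mul_of_nonneg_right hKK h0) hk0.le

/-- the arithmetic of the start -/
lemma flr_start {CW β r ε : ℝ} (hβ : 0 ≤ β) (hε : ε ≤ 1 / 4000) (h : CW * r ^ 2 ≤ ε) :
    CW * β * r ^ 2 ≤ ε * β ∧ CW * β * (2 * r) ^ 2 ≤ β / 1000 := by
  have h1 := mul_le_mul_of_nonneg_right h hβ
  have h2 := mul_le_mul_of_nonneg_right (h.trans hε) hβ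
  constructor <;> linarith

end

end Pool.Agent.N991.MK
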