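import Mathlib
import Pool.Agent.N991.MK.TwoStep
import Pool.Agent.N991.MK.FlN
import Pool.Agent.N991.MK.FlR
import Pool.Agent.N991.MK.WeakFlowP
import Pool.Agent.N991.MK.Scv
import Pool.Agent.N989.MK.Ent
import Pool.Agent.N989.MK.Flow2

/-!
# The weak coupling flow of the hierarchical model, to two loops
-/

open MeasureTheory Filter Metric Asymptotics Matrix
open scoped Matrix.Norms.Frobenius Topology ContDiff
open Pool.Agent.H906R3.YM Pool.Agent.W793.YM Pool.Agent.TH618.YM Pool.Agent.N984.TW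
open Pool.Agent.N988.MK (IsoG St)

namespace Pool.Agent.N991.MK

set_option linter.unusedSectionVars false

noncomputable section

variable {N n : ℕ} {G : Subgroup (UN N)} {B : Frame G n} {hG : IsClosed (G : Set (UN N))}
variable [CompactSpace G] [MeasurableSpace G] [BorelSpace G] [SecondCountableTopology G]
  {μ : Measure G} [IsProbabilityMeasure μ] [μ.IsHaarMeasure] [μ.IsMulRightInvariant]
  [μ.IsInvInvariant]

variable (B μ) in
/-- the states, with the improved coupling -/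
def P2St (r ε h1 C1 : ℝ) (f : G → ℝ) (h ρ : ℝ) : Prop :=
  0 ≤ ρ ∧ ∃ (F : (Mat N)ˣ → ℂ) (m : (Fin n → ℂ) → ℂ) (k : ℝ), 0 < k ∧ CF f F ∧
    (∀ x, 0 < f x) ∧ St B r k (ρ * k) F m ∧ Tube B r k F ∧ ρ * k * r ^ 2 ≤ ε * k ∧
    Chain μ B r h1 C1 f F k (ρ * k) ∧ h = k + 48 / 5 * qb n m / k

include hG in
lemma pos_dim [ConnectedSpace G] (B : Frame G n) (hnc : ∃ g h : G, g * h ≠ h * g) : 0 < n := by
  rcases Nat.eq_zero_or_pos n with hn | hn
  · exfalso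
    subst hn
    obtain ⟨m, hm⟩ := Pool.Agent.N989.MK.exists_gen B hG
      (isConnected_iff_connectedSpace.2 inferInstance)
    have h1 : ∀ x : G, x = 1 := by
      intro x
      obtain ⟨l, _, _, hl⟩ := hm x
      rw [hl]
      refine List.prod_eq_one fun y hy => ?_
      obtain ⟨X, _, rfl⟩ := List.mem_map.1 hy
      have h0 : X = 0 := Subsingleton.elim _ _
      rw [h0]
      exact Eg_zero B hG
    obtain ⟨g, h, hgh⟩ := hnc
    exact hgh (by rw [h1 g, h1 h])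
  · exact hn

include hG in
/-- **the weak coupling flow, to two loops** -/
theorem exists_flow2X [ConnectedSpace G] {χ : G → ℝ} {A : ℝ} (hA : 0 ≤ A) (hn : 0 < n)
    (hI : IsoG B) (hW : WilLawX B μ χ A) {cA : ℝ} (hcA0 : 0 < cA)
    (hcA : ∀ x : Fin n → ℝ,
      ∑ a, ‖LX B x * B.X a - B.X a * LX B x‖ ^ 2 = cA * ∑ a, x a ^ 2)
    (hKL : KLaw B μ cA) (hQL : QLaw B μ cA) {r₂ CW Λ : ℝ} (hr₂ : 0 < r₂) (hCW : 0 ≤ CW) :
    ∃ (P : (G → ℝ) → ℝ → ℝ → Prop) (h0 C R : ℝ),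
      ∀ (w : ℝ → G → ℝ) (W : ℝ → (Mat N)ˣ → ℂ) (mw : ℝ → (Fin n → ℂ) → ℂ),
        Ent B w W mw r₂ CW Λ → Pool.Agent.N989.MK.Flow2 μ χ (Pool.Agent.N989.MK.EDG B hG)
          w P (cA / 8) (-(cA ^ 2 / 240)) h0 C A R := by
  obtain ⟨r₁, ε, hr₁, hε, hε1, hflow⟩ := step2_R (B := B) μ hG hI hn (cA := cA) (fun x => by
    rw [hcA x, Pool.Agent.N991.MK.nE_sq]) hKL hQL
  obtain ⟨r₄, hr₄, hwl⟩ := hW
  have hε' : 0 < ε / (CW + 1) := by positivity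
  obtain ⟨r, hrdef⟩ : ∃ r : ℝ, r = min (min r₁ r₂) (min (min r₂ r₄) (min 1 (ε / (CW + 1)))) :=
    ⟨_, rfl⟩
  have hr : 0 < r := by
    rw [hrdef]
    refine lt_min (lt_min hr₁ hr₂) (lt_min (lt_min hr₂ hr₄) (lt_min one_pos hε'))
  have hrr₁ : r ≤ r₁ := by rw [hrdef]; exact (min_le_left _ _).trans (min_le_left _ _)
  have hrr₂ : r ≤ r₂ := by rw [hrdef]; exact (min_le_left _ _).trans (min_le_right _ _)
  have hrr₄ : r ≤ r₄ := by
    rw [hrdef]; exact (min_le_right _ _).trans ((min_le_left _ _).trans (min_le_right _ _))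
  have hr1 : r ≤ 1 := by
    rw [hrdef]; exact (min_le_right _ _).trans ((min_le_right _ _).trans (min_le_left _ _))
  have hrε : r ≤ ε / (CW + 1) := by
    rw [hrdef]
    exact (min_le_right _ _).trans ((min_le_right _ _).trans (min_le_right _ _))
  have hCWr : CW * r ^ 2 ≤ ε := by
    have h1 : r ^ 2 ≤ r := by
      rw [pow_two]
      exact mul_le_of_le_one_left hr.le hr1
    have h2 : r * (CW + 1) ≤ ε := (le_div_iff₀ (by linarith only [hCW])).1 hrε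
    have h3 := mul_le_mul_of_nonneg_left h1 hCW
    linarith only [h2, h3, hr]
  have hε1' : ε ≤ 1 / 1000 := hε1
  obtain ⟨hgr, h1, K₀, hh1, hK₀, hstep⟩ := hflow ε hε le_rfl r hr hrr₁
  obtain ⟨k0, C, hk0, hC, hwl⟩ := hwl r hr hrr₄ hgr
  obtain ⟨K, hKd⟩ : ∃ K, K = max K₀ Λ := ⟨_, rfl⟩
  have hKK : K₀ ≤ K := by rw [hKd]; exact le_max_left _ _
  have hKN : Λ ≤ K := by rw [hKd]; exact le_max_right _ _
  have hK : 0 ≤ K := hK₀.trans hKK
  have hsc := fun H => Chain.sc (μ := μ) (C1 := K) (h0 := h1) hG hgr (zero_le_one.trans hh1) H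
  -- the constants
  have hn0 : (0 : ℝ) ≤ n := Nat.cast_nonneg n
  obtain ⟨S, hS⟩ : ∃ S : ℝ, S = 29 * n * (ε / r ^ 2) := ⟨_, rfl⟩
  have hS0 : 0 ≤ S := by rw [hS]; positivity
  obtain ⟨b, hb⟩ : ∃ b : ℝ, b = -(cA ^ 2 / 240) := ⟨_, rfl⟩
  obtain ⟨Cq, hCq⟩ : ∃ Cq : ℝ, Cq = 3 * n * (1 + K) := ⟨_, rfl⟩
  have hCq0 : 0 ≤ Cq := by rw [hCq]; positivity
  obtain ⟨C2, hC2⟩ : ∃ C2 : ℝ, C2 = 11 * K + 20 * K * Cq + 10 * |b| * Cq := ⟨_, rfl⟩
  have hC20 : 0 ≤ C2 := by rw [hC2]; positivity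
  obtain ⟨C3, hC3⟩ : ∃ C3 : ℝ, C3 = 4 * C + 58 * n * A := ⟨_, rfl⟩
  have hC30 : 0 ≤ C3 := by rw [hC3]; positivity
  obtain ⟨CC, hCC⟩ : ∃ CC : ℝ, CC = 4 * C2 + 4 * K + C3 := ⟨_, rfl⟩
  have hCC0 : 0 ≤ CC := by rw [hCC]; positivity
  have hCC1 : 4 * C2 ≤ CC := by rw [hCC]; linarith only [hK, hC30]
  have hCC2 : 4 * K ≤ CC := by rw [hCC]; linarith only [hC20, hC30]
  have hCC3 : 4 * C + 58 * n * A ≤ CC := by
    rw [← hC3, hCC]
    linarith only [hC20, hK]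
  obtain ⟨h0, hh0⟩ : ∃ h0 : ℝ, h0 = 2 * (h1 + k0 + 2 * K + S + 2) + 0 := ⟨_, rfl⟩
  have h1n : 0 ≤ h1 := by linarith only [hh1]
  have hk0n : 0 ≤ k0 := by linarith only [hk0]
  have h0p : 0 < h0 := by linarith only [hh0, h1n, hk0n, hK, hS0]
  have h01 : 1 ≤ h0 := by linarith only [hh0, h1n, hk0n, hK, hS0]
  have h0h : h1 ≤ h0 := by linarith only [hh0, h1n, hk0n, hK, hS0]
  -- states
  have hkh : ∀ {h ρ k : ℝ} {f : G → ℝ} {F : (Mat N)ˣ → ℂ} {m : (Fin n → ℂ) → ℂ}, 0 < k →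
      0 ≤ ρ → CF f F → (∀ x, 0 < f x) → St B r k (ρ * k) F m → ρ * k * r ^ 2 ≤ ε * k →
      h = k + 48 / 5 * qb n m / k → |h - k| ≤ S ∧ |h - k| ≤ 29 * n * ρ := by
    intro h ρ k f F m hk hρ hf hpos hs hM hh
    have h2 := near_h hk hρ hf hpos hs hr hn
    rw [← hh] at h2
    exact ⟨flr_S hn0 hr hk hM hS h2, h2⟩
  have hkk : ∀ {h k : ℝ}, h0 ≤ h → |h - k| ≤ S →
      h1 ≤ k ∧ k0 ≤ k ∧ 2 * K + 2 ≤ k ∧ h / 2 ≤ k ∧ 2 ≤ h ∧ k ≤ h + S := fun hh hj =>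
    flr_k hS0 h1n hk0n hK le_rfl hh0 hh hj
  have hnC : 0 ≤ 29 * (n : ℝ) * CW := mul_nonneg (by linarith only [hn0]) hCW
  refine ⟨P2St B μ r ε h1 K, h0, CC, 29 * n * CW + CW, fun w W mw E => ?_⟩
  rw [← hb]
  refine ⟨div_pos hcA0 (by norm_num), h0p, hCC0, hA, add_nonneg hnC hCW, fun f h ρ h => h.1,
    ?_, ?_, ?_, ?_⟩
  · -- start
    intro β hβ
    have hβ0 : 0 < β := h0p.trans_le hβ
    have hs := E.st r hr hrr₂ β hβ0.le
    have hcf := E.cf β hβ0.le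
    refine ⟨β + 48 / 5 * qb n (mw β) / β, CW, ?_, le_add_of_nonneg_left hnC, hCW, W β, mw β, β,
      hβ0, hcf, E.pos β, hs, E.tube r hr hrr₂ β hβ0.le, ?_, ?_, rfl⟩
    · exact (near_h hβ0 hCW hcf (E.pos β) hs hr hn).trans (le_add_of_nonneg_right hCW)
    · have h2 := mul_le_mul_of_nonneg_right hCWr hβ0.le
      linarith only [h2]
    · obtain ⟨S', s0, s1, s2, s3⟩ := E.low β hβ0.le
      refine Chain.base _ _ _ _ (h0h.trans hβ) ⟨S', s0, s1, s2, fun x => ?_⟩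
      refine (mul_le_mul_of_nonneg_right (Real.exp_le_exp.2 (neg_le_neg ?_)) s0.le).trans (s3 x)
      exact mul_le_mul_of_nonneg_right hKN hβ0.le
  · -- step
    intro f h ρ hP hh
    obtain ⟨hρ, F, m, k, hk0', hf, hpos, hs, ht, hM, hch, hhk⟩ := hP
    obtain ⟨j1, j2⟩ := hkh hk0' hρ hf hpos hs hM hhk
    obtain ⟨l1, -, l3, hkh2, l5, -⟩ := hkk hh j1
    have hMM : 0 ≤ ρ * k := mul_nonneg hρ hk0'.le
    obtain ⟨k', M', m', a1, a2, a3, a4, a5, a6, a7, a8⟩ :=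
      hstep l1 hMM hM hf hpos hs ht
    obtain ⟨a1, a2, a3, hk', hk0''⟩ := flr_step2 hK hKK l3 a3 a1 a2
    obtain ⟨a5, hM2⟩ : M' ≤ ρ * k / 16 + K ∧ M' ≤ ρ * k + K :=
      ⟨by linarith only [a5, hKK], by linarith only [a5, hKK, hMM]⟩
    have hf1 : CF (Pool.Agent.N991.MK.conv μ f f) (convC μ F F) := hf.convC hf
    have hp1 : ∀ x, 0 < Pool.Agent.N991.MK.conv μ f f x := conv_pos hf.cont hf.cont hpos hpos
    have hf2 := (hf1.convC hf1 (μ := μ)).pow 4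
    have hp2 : ∀ x, 0 < Rst μ f x := fun x => pow_pos (conv_pos hf1.cont hf1.cont hp1 hp1 x) 4
    have q1 := flr_q hn0 hMM hK (le_add_of_nonneg_right hK)
      (qb_le hs hf.hol (hf.one_ne hpos) hr hMM hn) hCq
    have q2 := flr_q hn0 hMM hK hM2 (qb_le a7 hf2.hol (hf2.one_ne hp2) hr a4 hn) hCq
    have ek : M' / k' * k' = M' := div_mul_cancel₀ _ hk0''.ne'
    have hch' := Chain.step f F k (ρ * k) k' M' hch l1 a3 hf hpos (flr_M hε1' hk0'.le hM) hs.nearS ht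
    refine ⟨k' + 48 / 5 * qb n m' / k', M' / k', ⟨div_nonneg a4 hk0''.le, _, m', k', hk0'', hf2,
      hp2, ?_, a8, ?_, ?_, rfl⟩, ?_, ?_⟩
    · rw [ek]; exact a7
    · rw [ek]; exact a6
    · rw [ek]; exact hch'
    · -- the improved coupling
      have r1 := step_h (e := cA ^ 2 / 2304) (g := 7 / 55296 * cA ^ 2) (b := b)
        (by linarith only [l3, hK]) hMM hK hCq0 hk' (by linarith only [l5]) a1 a2 a3 q1 q2 hhk rfl
        (by rw [hb]; ring)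
      rw [← hC2] at r1
      exact flr_c2 hC20 hCC1 hρ hk0' (by linarith only [l5]) hkh2 r1
    · exact flr_rho hρ hk0' (by linarith only [l5]) hkh2 hk' hCC2 hCC0 a5
  · -- the Wilson observable
    intro f h ρ hP hh
    obtain ⟨hρ, F, m, k, hk0', hf, hpos, hs, ht, hM, hch, hhk⟩ := hP
    obtain ⟨j1, j2⟩ := hkh hk0' hρ hf hpos hs hM hhk
    obtain ⟨l1, l2, l3, hkh2, l5, -⟩ := hkk hh j1
    exact flr_wil hA hC hn0 hρ (by linarith only [l3, hK]) (by linarith only [l5]) hkh2 j2 hCC3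
      (hwl l2 (mul_nonneg hρ hk0'.le) (flr_M hε1' hk0'.le hM) hf hpos hs ht)
  · -- the entropy bound
    intro H
    obtain ⟨K', hK', hsc'⟩ := hsc (H + S)
    refine ⟨K', hK', fun f h ρ hP hh hH X x => ?_⟩
    obtain ⟨hρ, F, m, k, hk0', hf, hpos, hs, ht, hM, hch, hhk⟩ := hP
    obtain ⟨j1, -⟩ := hkh hk0' hρ hf hpos hs hM hhk
    obtain ⟨l1, -, -, -, -, l6⟩ := hkk hh j1
    exact hsc' hch l1 (by linarith only [l6, hH]) hf hpos (flr_M hε1' hk0'.le hM) hs.nearS ht X x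

end

end Pool.Agent.N991.MK
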