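import Mathlib
import Pool.Agent.N991.MK.TwoFlow
import Pool.Agent.N988.MK.Pair10
import Pool.Agent.N988.MK.Q7

/-!
# The weak coupling flow to two loops: the laws of the coupling and of the quartic part
-/

open MeasureTheory Filter Metric Asymptotics Matrix
open scoped Matrix.Norms.Frobenius Topology ContDiff
open Pool.Agent.H906R3.YM Pool.Agent.W793.YM Pool.Agent.TH618.YM Pool.Agent.N984.TW
open Pool.Agent.N988.MK (IsoG St)

namespace Pool.Agent.N991.MK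

set_option linter.unusedSectionVars false

noncomputable section

section
variable {N n : ℕ} {G : Subgroup (UN N)} {B : Frame G n}
variable [CompactSpace G] [MeasurableSpace G] [BorelSpace G] {μ : Measure G}
  [IsProbabilityMeasure μ] [μ.IsMulLeftInvariant] [μ.IsMulRightInvariant] [μ.IsInvInvariant]
variable {cA : ℝ}

variable (μ) in
theorem kLaw (hG : IsClosed (G : Set (UN N))) (hI : IsoG B) (hn : 0 < n)
    (hcA : ∀ x : Fin n → ℝ, ∑ a, ‖LX B x * B.X a - B.X a * LX B x‖ ^ 2 = cA * nE x ^ 2)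
    (h6 : H6 B) (hcas : CasPair B cA) : KLaw B μ cA :=
  two_K μ hG hI hn hcA h6 hcas

variable (μ) in
theorem qLaw (hG : IsClosed (G : Set (UN N))) (hI : IsoG B) (hn : 0 < n)
    (hcA : ∀ x : Fin n → ℝ, ∑ a, ‖LX B x * B.X a - B.X a * LX B x‖ ^ 2 = cA * nE x ^ 2)
    (h6 : H6 B) (hcas : CasPair B cA) : QLaw B μ cA := by
  obtain ⟨r₁, ε₁, hr₁, hε₁, hε1, h⟩ := N988.MK.two_Q μ hG hI hn hcA h6 hcas
  refine ⟨r₁, ε₁, hr₁, hε₁, hε1, fun r hr hrr => ?_⟩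
  obtain ⟨k₀, K, hk₀, hK, h⟩ := h r hr hrr
  refine ⟨k₀, K, hk₀, hK, fun {k M f F m} hk hM hMr hf hpos hs ht {k' M' m'} hs' => ?_⟩
  refine (h hk hM hMr hf hpos hs ht hs').trans ?_
  have hk0 : 0 < k := by linarith
  refine div_le_div_of_nonneg_right (mul_le_mul_of_nonneg_left ?_ hK) hk0.le
  nlinarith

end

variable {N n : ℕ} {G : Subgroup (UN N)}
variable [CompactSpace G] [MeasurableSpace G] [BorelSpace G] [SecondCountableTopology G]

/-- **the weak coupling flow of the hierarchical model, to two loops** -/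
theorem weak_flow2 [ConnectedSpace G] (B : Frame G n) (hG : IsClosed (G : Set (UN N)))
    (μ : Measure G) [IsProbabilityMeasure μ] [μ.IsHaarMeasure] [μ.IsMulRightInvariant]
    [μ.IsInvInvariant] (hnc : ∃ g h : G, g * h ≠ h * g)
    (hs : ∀ H : Subgroup G, H.Normal → IsClosed (H : Set G) → Finite H ∨ H = ⊤)
    {P : Mat N} (hP : IPr G P) (hP0 : 0 < (trace P).re) (h6 : H6 B)
    (hcas : ∀ cA : ℝ, (∀ x : Fin n → ℝ,
      ∑ a, ‖LX B x * B.X a - B.X a * LX B x‖ ^ 2 = cA * ∑ a, x a ^ 2) → CasPair B cA) :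
    ∃ cA : ℝ, 0 < cA ∧
      (∀ x : Fin n → ℝ, ∑ a, ‖LX B x * B.X a - B.X a * LX B x‖ ^ 2 = cA * ∑ a, x a ^ 2) ∧
      ∀ r₀ CW Λ : ℝ, 0 < r₀ → 0 ≤ CW →
      ∃ (St : (G → ℝ) → ℝ → ℝ → Prop) (h0 C R : ℝ),
        ∀ (w : ℝ → G → ℝ) (W : ℝ → (Mat N)ˣ → ℂ) (mw : ℝ → (Fin n → ℂ) → ℂ),
          Ent B w W mw r₀ CW Λ → Pool.Agent.N989.MK.Flow2 μ (chiP P : G → ℝ)
            (Pool.Agent.N989.MK.EDG B hG) w St (cA / 8) (-(cA ^ 2 / 240)) h0 C
            ((∑ a, ‖P * B.X a‖ ^ 2) / (2 * (trace P).re)) R := by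
  obtain ⟨cA, hcA0, hcA⟩ := exists_cA B hG hnc hs
  have hI := isoG_of_simple B hG hnc hs
  have hn := N988.MK.frame_pos B hG hnc
  have hcA' : ∀ x : Fin n → ℝ,
      ∑ a, ‖LX B x * B.X a - B.X a * LX B x‖ ^ 2 = cA * nE x ^ 2 := fun x => by
    rw [hcA x, Pool.Agent.N991.MK.nE_sq]
  exact ⟨cA, hcA0, hcA, fun r₀ CW Λ hr₀ hCW => exists_flow2X (hG := hG) (by positivity) hn hI
    (wil_lawP B hG μ hP hP0) hcA0 hcA (kLaw μ hG hI hn hcA' h6 (hcas cA hcA))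
    (qLaw μ hG hI hn hcA' h6 (hcas cA hcA)) hr₀ hCW⟩

end

end Pool.Agent.N991.MK
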