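import Mathlib
import Pool.Agent.N991.MK.TwoAll
import Pool.Agent.N991.MK.TwoSix
import Pool.Agent.N991.MK.TwoCas

/-!
# The weak coupling flow to two loops
-/

open MeasureTheory Filter Metric Asymptotics Matrix
open scoped Matrix.Norms.Frobenius Topology ContDiff
open Pool.Agent.H906R3.YM Pool.Agent.W793.YM Pool.Agent.TH618.YM Pool.Agent.N984.TW
open Pool.Agent.N988.MK (IsoG St)

namespace Pool.Agent.N991.MK

set_option linter.unusedSectionVars false

noncomputable section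

variable {N n : ℕ} {G : Subgroup (UN N)}
variable [CompactSpace G] [MeasurableSpace G] [BorelSpace G] [SecondCountableTopology G]

/-- **the weak coupling flow of the hierarchical model, to two loops, for all entrances** -/
theorem weak_flow_two [ConnectedSpace G] (B : Frame G n) (hG : IsClosed (G : Set (UN N)))
    (μ : Measure G) [IsProbabilityMeasure μ] [μ.IsHaarMeasure] [μ.IsMulRightInvariant]
    [μ.IsInvInvariant] (hnc : ∃ g h : G, g * h ≠ h * g)
    (hs : ∀ H : Subgroup G, H.Normal → IsClosed (H : Set G) → Finite H ∨ H = ⊤)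
    {P : Mat N} (hP : IPr G P) (hP0 : 0 < (trace P).re) :
    ∃ cA : ℝ, 0 < cA ∧
      (∀ x : Fin n → ℝ, ∑ a, ‖LX B x * B.X a - B.X a * LX B x‖ ^ 2 = cA * ∑ a, x a ^ 2) ∧
      ∀ {w : ℝ → G → ℝ} {W : ℝ → (Mat N)ˣ → ℂ} {mw : ℝ → (Fin n → ℂ) → ℂ} {r₀ CW Λ : ℝ},
        Ent B w W mw r₀ CW Λ → ∃ (St : (G → ℝ) → ℝ → ℝ → Prop) (h0 C R : ℝ),
          Pool.Agent.N989.MK.Flow2 μ (chiP P : G → ℝ)
            (Pool.Agent.N989.MK.EDG B hG) w St (cA / 8) (-(cA ^ 2 / 240)) h0 C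
            ((∑ a, ‖P * B.X a‖ ^ 2) / (2 * (trace P).re)) R := by
  obtain ⟨cA, hcA0, hcA, h⟩ := weak_flow2 B hG μ hnc hs hP hP0 (h6_all B) fun _ h => casPair hG h
  refine ⟨cA, hcA0, hcA, fun {w W mw r₀ CW Λ} E => ?_⟩
  obtain ⟨St, h0, C, R, h1⟩ := h r₀ CW Λ E.r_pos E.C_nn
  exact ⟨St, h0, C, R, h1 w W mw E⟩

end

end Pool.Agent.N991.MK
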