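import Mathlib
import Pool.Agent.N989.MK.Obs

/-!
# The order of positive definite class functions
-/

open MeasureTheory Filter
open scoped Topology
open Pool.Agent.N989.MK (PDf Obs WW Adm H4 TT TTn)

namespace Pool.Agent.N991.MK

set_option linter.unusedSectionVars false

noncomputable section

section
variable {G : Type*} [Group G]

lemma pdf_fin {f : G → ℝ} (h : PDf f) (k : ℕ) (x : Fin k → G) (v : Fin k → ℝ) :
    0 ≤ ∑ i, ∑ j, v i * v j * f ((x i)⁻¹ * x j) := by
  have h2 := (Matrix.posSemidef_iff_dotProduct_mulVec.1 (h k x)).2 v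
  simp only [dotProduct, Matrix.mulVec, Matrix.of_apply, star_trivial] at h2
  refine h2.trans (le_of_eq ?_)
  refine Finset.sum_congr rfl fun i _ => ?_
  rw [Finset.mul_sum]
  refine Finset.sum_congr rfl fun j _ => ?_
  ring

lemma pdf_sum {f : G → ℝ} (h : PDf f) {ι : Type*} [Fintype ι] (x : ι → G) (v : ι → ℝ) :
    0 ≤ ∑ i, ∑ j, v i * v j * f ((x i)⁻¹ * x j) := by
  have h1 := pdf_fin h (Fintype.card ι) (fun a => x ((Fintype.equivFin ι).symm a))
    (fun a => v ((Fintype.equivFin ι).symm a))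
  refine h1.trans (le_of_eq ?_)
  rw [← Equiv.sum_comp (Fintype.equivFin ι).symm]
  refine Finset.sum_congr rfl fun i _ => ?_
  rw [← Equiv.sum_comp (Fintype.equivFin ι).symm]

lemma pdf_of {f : G → ℝ} (hs : Sy f)
    (h : ∀ (k : ℕ) (x : Fin k → G) (v : Fin k → ℝ), 0 ≤ ∑ i, ∑ j, v i * v j * f ((x i)⁻¹ * x j)) :
    PDf f := by
  intro k x
  rw [Matrix.posSemidef_iff_dotProduct_mulVec]
  refine ⟨?_, fun v => ?_⟩
  · ext i j
    simp only [Matrix.conjTranspose_apply, Matrix.of_apply, star_trivial]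
    rw [← hs ((x j)⁻¹ * x i)]
    congr 1
    group
  · simp only [dotProduct, Matrix.mulVec, Matrix.of_apply, star_trivial]
    refine (h k x v).trans (le_of_eq ?_)
    refine Finset.sum_congr rfl fun i _ => ?_
    rw [Finset.mul_sum]
    refine Finset.sum_congr rfl fun j _ => ?_
    ring

lemma pdf_sy {f : G → ℝ} (h : PDf f) : Sy f := by
  intro x
  have h1 := (h 2 ![1, x]).isHermitian
  have h2 := congrFun (congrFun h1 0) 1
  simp only [Matrix.conjTranspose_apply, Matrix.of_apply, star_trivial] at h2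
  simpa using h2

lemma pdf_abs {f : G → ℝ} (h : PDf f) (x : G) : |f x| ≤ f 1 := by
  have hs := pdf_sy h
  have h1 := pdf_fin h 2 ![1, x] ![1, 1]
  have h2 := pdf_fin h 2 ![1, x] ![1, -1]
  simp only [Fin.sum_univ_two, Matrix.cons_val_zero, Matrix.cons_val_one] at h1 h2
  simp only [inv_one, mul_one, one_mul, inv_mul_cancel] at h1 h2
  rw [hs x] at h1 h2
  rw [abs_le]
  constructor <;> linarith

end

variable {G : Type*} [Group G] [TopologicalSpace G] [IsTopologicalGroup G] [CompactSpace G]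
  [MeasurableSpace G] [BorelSpace G] [SecondCountableTopology G]

/-- continuous positive definite class functions -/
structure Pc (f : G → ℝ) : Prop where
  cont : Continuous f
  cls : Cls f
  pd : PDf f

lemma Pc.sy {f : G → ℝ} (h : Pc f) : Sy f := pdf_sy h.pd

lemma Pc.abs {f : G → ℝ} (h : Pc f) (x : G) : |f x| ≤ f 1 := pdf_abs h.pd x

lemma Pc.one_nonneg {f : G → ℝ} (h : Pc f) : 0 ≤ f 1 := (abs_nonneg _).trans (h.abs 1)

lemma Pc.add {f g : G → ℝ} (hf : Pc f) (hg : Pc g) : Pc (fun x => f x + g x) := by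
  refine ⟨hf.cont.add hg.cont, fun a x => by rw [hf.cls, hg.cls], ?_⟩
  refine pdf_of (fun x => by rw [hf.sy, hg.sy]) fun k x v => ?_
  have h1 := pdf_fin hf.pd k x v
  have h2 := pdf_fin hg.pd k x v
  simp only [mul_add, Finset.sum_add_distrib]
  linarith

lemma Pc.smul {f : G → ℝ} (hf : Pc f) {c : ℝ} (hc : 0 ≤ c) : Pc (fun x => c * f x) := by
  refine ⟨continuous_const.mul hf.cont, fun a x => by rw [hf.cls], ?_⟩
  refine pdf_of (fun x => by rw [hf.sy]) fun k x v => ?_
  have h1 := mul_nonneg hc (pdf_fin hf.pd k x v)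
  refine h1.trans (le_of_eq ?_)
  rw [Finset.mul_sum]
  refine Finset.sum_congr rfl fun i _ => ?_
  rw [Finset.mul_sum]
  refine Finset.sum_congr rfl fun j _ => ?_
  ring

lemma Pc.mul {f g : G → ℝ} (hf : Pc f) (hg : Pc g) : Pc (fun x => f x * g x) :=
  ⟨hf.cont.mul hg.cont, fun a x => by rw [hf.cls, hg.cls], hf.pd.mul hg.pd⟩

lemma Pc.pow {f : G → ℝ} (hf : Pc f) (m : ℕ) : Pc (fun x => f x ^ m) :=
  ⟨hf.cont.pow m, fun a x => by rw [hf.cls], hf.pd.pow m⟩

lemma Pc.one : Pc (fun _ : G => (1 : ℝ)) := ⟨continuous_const, fun _ _ => rfl, PDf.one⟩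

lemma Pc.const {c : ℝ} (hc : 0 ≤ c) : Pc (fun _ : G => c) := by
  have := (Pc.one (G := G)).smul hc
  simpa using this

lemma Pc.zero : Pc (fun _ : G => (0 : ℝ)) := Pc.const le_rfl

lemma Pc.sum {ι : Type*} (s : Finset ι) {f : ι → G → ℝ} (hf : ∀ i ∈ s, Pc (f i)) :
    Pc (fun x => ∑ i ∈ s, f i x) := by
  classical
  induction s using Finset.induction_on with
  | empty => simpa using (Pc.zero (G := G))
  | insert i s hi ih =>
    have h1 := hf i (Finset.mem_insert_self i s)
    have h2 := ih fun j hj => hf j (Finset.mem_insert_of_mem hj)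
    have h3 := h1.add h2
    simpa [Finset.sum_insert hi] using h3

variable {μ : Measure G} [IsProbabilityMeasure μ] [μ.IsHaarMeasure] [μ.IsMulRightInvariant]
  [μ.IsInvInvariant]

lemma Pc.int {f : G → ℝ} (hf : Pc f) : 0 ≤ ∫ x, f x ∂μ := hf.pd.int_nonneg hf.cont

/-- the convolution of positive definite functions, one of them a class function, is positive
definite -/
lemma pdf_conv {f k : G → ℝ} (hf : Continuous f) (hk : Continuous k) (cf : Cls f) (ck : Cls k)
    (pf : PDf f) (pk : PDf k) : PDf (conv μ f k) := by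
  have sk := pdf_sy pk
  refine pdf_of (conv_sy cf ck (pdf_sy pf) sk) fun m x v => ?_
  obtain ⟨Ψ, hΨ⟩ : ∃ Ψ : G → ℝ, Ψ = fun y => ∑ a, ∑ b, v a * v b * k ((x a)⁻¹ * y⁻¹ * x b) :=
    ⟨_, rfl⟩
  have cΨ : Continuous Ψ := by
    rw [hΨ]
    refine continuous_finsetSum _ fun a _ => continuous_finsetSum _ fun b _ => ?_
    fun_prop
  have h1 : ∀ a b : G, conv μ f k (a⁻¹ * b) = ∫ y, f y * k (a⁻¹ * y⁻¹ * b) ∂μ := by
    intro a b
    unfold conv
    rw [← integral_mul_left_eq_self (μ := μ) (fun y => f y * k (y⁻¹ * (a⁻¹ * b))) a⁻¹,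
      ← integral_mul_right_eq_self (μ := μ) _ a]
    refine integral_congr_ae (Eventually.of_forall fun y => ?_)
    beta_reduce
    have e1 : f (a⁻¹ * (y * a)) = f y := by
      have := cf a⁻¹ y
      rw [inv_inv] at this
      rw [← this]
      congr 1
      group
    have e2 : (a⁻¹ * (y * a))⁻¹ * (a⁻¹ * b) = a⁻¹ * y⁻¹ * b := by group
    rw [e1, e2]
  have pΨ : PDf Ψ := by
    refine pdf_of ?_ fun l y w => ?_
    · intro z
      rw [hΨ]
      beta_reduce
      rw [Finset.sum_comm]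
      refine Finset.sum_congr rfl fun a _ => Finset.sum_congr rfl fun b _ => ?_
      rw [← sk ((x b)⁻¹ * z⁻¹⁻¹ * x a), mul_comm (v b)]
      congr 2
      group
    · have h2 := pdf_sum pk (ι := Fin l × Fin m) (fun p => y p.1 * x p.2) (fun p => w p.1 * v p.2)
      refine h2.trans (le_of_eq ?_)
      simp only [Fintype.sum_prod_type]
      -- ∑ i, ∑ a, ∑ j, ∑ b
      rw [hΨ]
      have e1 : ∀ i j : Fin l, w i * w j * ∑ a, ∑ b, v a * v b *
          k ((x a)⁻¹ * ((y i)⁻¹ * y j)⁻¹ * x b) =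
          ∑ a, ∑ b, (w j * v a) * (w i * v b) * k ((y j * x a)⁻¹ * (y i * x b)) := by
        intro i j
        rw [Finset.mul_sum]
        refine Finset.sum_congr rfl fun a _ => ?_
        rw [Finset.mul_sum]
        refine Finset.sum_congr rfl fun b _ => ?_
        have e2 : (x a)⁻¹ * ((y i)⁻¹ * y j)⁻¹ * x b = (y j * x a)⁻¹ * (y i * x b) := by group
        rw [e2]
        ring
      simp only [e1]
      have e3 : ∀ i : Fin l, ∑ a : Fin m, ∑ j : Fin l, ∑ b : Fin m,
          w i * v a * (w j * v b) * k ((y i * x a)⁻¹ * (y j * x b)) =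
          ∑ j : Fin l, ∑ a : Fin m, ∑ b : Fin m,
          w i * v a * (w j * v b) * k ((y i * x a)⁻¹ * (y j * x b)) :=
        fun i => Finset.sum_comm
      rw [Finset.sum_congr rfl fun i _ => e3 i, Finset.sum_comm]
  have h3 : ∑ i, ∑ j, v i * v j * conv μ f k ((x i)⁻¹ * x j) = ∫ y, f y * Ψ y ∂μ := by
    rw [hΨ]
    simp only [h1, Finset.mul_sum]
    have hint : ∀ a b, Integrable (fun y => f y * (v a * v b * k ((x a)⁻¹ * y⁻¹ * x b))) μ :=
      fun a b => integrable_of_cont (by fun_prop)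
    rw [integral_finsetSum _ fun i _ => integrable_finsetSum _ fun j _ => hint i j]
    refine Finset.sum_congr rfl fun i _ => ?_
    rw [integral_finsetSum _ fun j _ => hint i j]
    refine Finset.sum_congr rfl fun j _ => ?_
    rw [← integral_const_mul]
    refine integral_congr_ae (Eventually.of_forall fun y => ?_)
    beta_reduce
    ring
  rw [h3]
  exact (pf.mul pΨ).int_nonneg (hf.mul cΨ)

lemma Pc.conv {f g : G → ℝ} (hf : Pc f) (hg : Pc g) : Pc (conv μ f g) :=
  ⟨cont_conv hf.cont hg.cont, conv_cls hf.cls hg.cls,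
    pdf_conv hf.cont hg.cont hf.cls hg.cls hf.pd hg.pd⟩

lemma Pc.H4 {f : G → ℝ} (hf : Pc f) : Pc (H4 μ f) := (hf.conv hf).conv (hf.conv hf)

/-- a square -/
lemma Pc.sqr {f : G → ℝ} (hf : Continuous f) (cf : Cls f) (sf : Sy f) : Pc (Pool.Agent.N991.MK.conv μ f f) :=
  ⟨cont_conv hf hf, conv_cls cf cf, PDf.conv hf sf⟩

/-- the mean can be subtracted -/
lemma Pc.mean {f : G → ℝ} (hf : Pc f) : Pc (fun x => f x - ∫ y, f y ∂μ) := by
  refine ⟨hf.cont.sub continuous_const, fun a x => by rw [hf.cls], ?_⟩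
  refine pdf_of (fun x => by rw [hf.sy]) fun m x v => ?_
  obtain ⟨I, hI⟩ : ∃ I, I = ∫ y, f y ∂μ := ⟨_, rfl⟩
  rw [← hI]
  have h1 : ∀ y : G, 0 ≤ ∑ i, ∑ j, v i * v j * (2 * f ((x i)⁻¹ * x j) - f ((x i)⁻¹ * y * x j) -
      f ((x i)⁻¹ * y⁻¹ * x j)) := by
    intro y
    have h2 := pdf_sum hf.pd (ι := Fin m ⊕ Fin m) (Sum.elim x (fun i => y * x i))
      (Sum.elim v (fun i => -v i))
    simp only [Fintype.sum_sum_type, Sum.elim_inl, Sum.elim_inr] at h2
    rw [← Finset.sum_add_distrib] at h2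
    refine h2.trans (le_of_eq ?_)
    refine Finset.sum_congr rfl fun i _ => ?_
    rw [← Finset.sum_add_distrib, ← Finset.sum_add_distrib, ← Finset.sum_add_distrib]
    refine Finset.sum_congr rfl fun j _ => ?_
    have e1 : (y * x i)⁻¹ * (y * x j) = (x i)⁻¹ * x j := by group
    have e2 : (x i)⁻¹ * (y * x j) = (x i)⁻¹ * y * x j := by group
    have e3 : (y * x i)⁻¹ * x j = (x i)⁻¹ * y⁻¹ * x j := by group
    rw [e1, e2, e3]
    ring
  have h2 : 0 ≤ ∫ y, ∑ i, ∑ j, v i * v j * (2 * f ((x i)⁻¹ * x j) - f ((x i)⁻¹ * y * x j) -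
      f ((x i)⁻¹ * y⁻¹ * x j)) ∂μ := integral_nonneg fun y => h1 y
  have j1 : ∀ a b : G, ∫ y, f (a⁻¹ * y * b) ∂μ = I := by
    intro a b
    rw [hI, ← integral_mul_left_eq_self (μ := μ) f a⁻¹,
      ← integral_mul_right_eq_self (μ := μ) (fun y => f (a⁻¹ * y)) b]
    refine integral_congr_ae (Eventually.of_forall fun y => ?_)
    beta_reduce
    rw [mul_assoc]
  have j2 : ∀ a b : G, ∫ y, f (a⁻¹ * y⁻¹ * b) ∂μ = I := by
    intro a b
    rw [← j1 a b, ← integral_inv_eq_self (μ := μ) (fun y => f (a⁻¹ * y * b))]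
  have hc1 : ∀ a b : G, Continuous fun y => f (a⁻¹ * y * b) := fun a b => by
    have := hf.cont
    fun_prop
  have hc2 : ∀ a b : G, Continuous fun y => f (a⁻¹ * y⁻¹ * b) := fun a b => by
    have := hf.cont
    fun_prop
  have hint : ∀ i j, Integrable (fun y => v i * v j * (2 * f ((x i)⁻¹ * x j) -
      f ((x i)⁻¹ * y * x j) - f ((x i)⁻¹ * y⁻¹ * x j))) μ := fun i j =>
    integrable_of_cont (continuous_const.mul ((continuous_const.sub (hc1 _ _)).sub (hc2 _ _)))
  rw [integral_finsetSum _ fun i _ => integrable_finsetSum _ fun j _ => hint i j] at h2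
  have h3 : ∀ i, ∫ y, ∑ j, v i * v j * (2 * f ((x i)⁻¹ * x j) - f ((x i)⁻¹ * y * x j) -
      f ((x i)⁻¹ * y⁻¹ * x j)) ∂μ = ∑ j, 2 * (v i * v j * (f ((x i)⁻¹ * x j) - I)) := by
    intro i
    rw [integral_finsetSum _ fun j _ => hint i j]
    refine Finset.sum_congr rfl fun j _ => ?_
    have i1 : Integrable (fun y => 2 * f ((x i)⁻¹ * x j) - f ((x i)⁻¹ * y * x j)) μ :=
      integrable_of_cont (continuous_const.sub (hc1 _ _))
    rw [integral_const_mul, integral_sub i1 (integrable_of_cont (hc2 _ _)),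
      integral_sub (integrable_const _) (integrable_of_cont (hc1 _ _)), j1, j2]
    simp only [integral_const, probReal_univ, smul_eq_mul, one_mul]
    ring
  simp only [h3, ← Finset.mul_sum] at h2
  linarith

/-! ### The order -/

/-- the order -/
def PLe (f g : G → ℝ) : Prop := Pc (fun x => g x - f x)

lemma PLe.refl (f : G → ℝ) : PLe f f := by
  have := Pc.zero (G := G)
  unfold PLe
  simpa using this

lemma PLe.trans {f g h : G → ℝ} (h1 : PLe f g) (h2 : PLe g h) : PLe f h := by
  have := h1.add h2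
  unfold PLe
  have e : (fun x => h x - f x) = fun x => (g x - f x) + (h x - g x) := by
    funext x; ring
  rw [e]
  exact this

lemma PLe.add {f g f' g' : G → ℝ} (h1 : PLe f g) (h2 : PLe f' g') :
    PLe (fun x => f x + f' x) (fun x => g x + g' x) := by
  have := Pc.add h1 h2
  unfold PLe
  have e : (fun x => (g x + g' x) - (f x + f' x)) = fun x => (g x - f x) + (g' x - f' x) := by
    funext x; ring
  rw [e]
  exact this

lemma PLe.smul {f g : G → ℝ} (h : PLe f g) {c : ℝ} (hc : 0 ≤ c) :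
    PLe (fun x => c * f x) (fun x => c * g x) := by
  have := Pc.smul h hc
  unfold PLe
  have e : (fun x => c * g x - c * f x) = fun x => c * (g x - f x) := by
    funext x; ring
  rw [e]
  exact this

lemma PLe.smul_le {f : G → ℝ} (h : Pc f) {c d : ℝ} (hc : c ≤ d) :
    PLe (fun x => c * f x) (fun x => d * f x) := by
  have := Pc.smul h (sub_nonneg.2 hc)
  unfold PLe
  have e : (fun x => d * f x - c * f x) = fun x => (d - c) * f x := by
    funext x; ring
  rw [e]
  exact this

lemma PLe.pc {f g : G → ℝ} (h : PLe f g) (hf : Pc f) : Pc g := by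
  have := Pc.add h hf
  simpa using this

lemma PLe.of_pc {f g : G → ℝ} (hg : Pc g) : PLe f (fun x => f x + g x) := by
  unfold PLe
  simpa using hg

lemma PLe.mul {f g f' g' : G → ℝ} (hf : Pc f) (hf' : Pc f') (h1 : PLe f g) (h2 : PLe f' g') :
    PLe (fun x => f x * f' x) (fun x => g x * g' x) := by
  have k1 := Pc.mul h1 (h2.pc hf')
  have k2 := Pc.mul hf h2
  have k3 := k1.add k2
  unfold PLe
  have e : (fun x => g x * g' x - f x * f' x) =
      fun x => (g x - f x) * g' x + f x * (g' x - f' x) := by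
    funext x; ring
  rw [e]
  exact k3

lemma PLe.pow {f g : G → ℝ} (hf : Pc f) (h : PLe f g) (m : ℕ) :
    PLe (fun x => f x ^ m) (fun x => g x ^ m) := by
  induction m with
  | zero => simpa using (PLe.refl (fun _ : G => (1 : ℝ)))
  | succ m ih =>
    have := PLe.mul (hf.pow m) hf ih h
    simpa [pow_succ] using this

lemma conv_sub_l {f f' g : G → ℝ} (hf : Continuous f) (hf' : Continuous f') (hg : Continuous g)
    (x : G) : conv μ (fun y => f y - f' y) g x = conv μ f g x - conv μ f' g x := by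
  unfold conv
  rw [← integral_sub (integrable_of_cont (by fun_prop)) (integrable_of_cont (by fun_prop))]
  refine integral_congr_ae (Eventually.of_forall fun y => ?_)
  beta_reduce
  ring

lemma conv_sub_r {f g g' : G → ℝ} (hf : Continuous f) (hg : Continuous g) (hg' : Continuous g')
    (x : G) : conv μ f (fun y => g y - g' y) x = conv μ f g x - conv μ f g' x := by
  unfold conv
  rw [← integral_sub (integrable_of_cont (by fun_prop)) (integrable_of_cont (by fun_prop))]
  refine integral_congr_ae (Eventually.of_forall fun y => ?_)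
  beta_reduce
  ring

lemma conv_add_l {f f' g : G → ℝ} (hf : Continuous f) (hf' : Continuous f') (hg : Continuous g)
    (x : G) : conv μ (fun y => f y + f' y) g x = conv μ f g x + conv μ f' g x := by
  unfold conv
  rw [← integral_add (integrable_of_cont (by fun_prop)) (integrable_of_cont (by fun_prop))]
  refine integral_congr_ae (Eventually.of_forall fun y => ?_)
  beta_reduce
  ring

lemma conv_add_r {f g g' : G → ℝ} (hf : Continuous f) (hg : Continuous g) (hg' : Continuous g')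
    (x : G) : conv μ f (fun y => g y + g' y) x = conv μ f g x + conv μ f g' x := by
  unfold conv
  rw [← integral_add (integrable_of_cont (by fun_prop)) (integrable_of_cont (by fun_prop))]
  refine integral_congr_ae (Eventually.of_forall fun y => ?_)
  beta_reduce
  ring

lemma conv_smul_l (c : ℝ) (f g : G → ℝ) (x : G) :
    conv μ (fun y => c * f y) g x = c * conv μ f g x := by
  unfold conv
  rw [← integral_const_mul]
  refine integral_congr_ae (Eventually.of_forall fun y => ?_)
  beta_reduce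
  ring

lemma conv_smul_r (c : ℝ) (f g : G → ℝ) (x : G) :
    conv μ f (fun y => c * g y) x = c * conv μ f g x := by
  unfold conv
  rw [← integral_const_mul]
  refine integral_congr_ae (Eventually.of_forall fun y => ?_)
  beta_reduce
  ring

lemma PLe.conv {f g f' g' : G → ℝ} (hf : Pc f) (hf' : Pc f') (h1 : PLe f g) (h2 : PLe f' g') :
    PLe (conv μ f f') (conv μ g g') := by
  have hg := h1.pc hf
  have hg' := h2.pc hf'
  have k1 := Pc.conv (μ := μ) h1 hg'
  have k2 := Pc.conv (μ := μ) hf h2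
  have k3 := k1.add k2
  unfold PLe
  have e : (fun x => Pool.Agent.N991.MK.conv μ g g' x - Pool.Agent.N991.MK.conv μ f f' x) =
      fun x => Pool.Agent.N991.MK.conv μ (fun y => g y - f y) g' x +
        Pool.Agent.N991.MK.conv μ f (fun y => g' y - f' y) x := by
    funext x
    rw [conv_sub_l hg.cont hf.cont hg'.cont, conv_sub_r hf.cont hg'.cont hf'.cont]
    ring
  rw [e]
  exact k3

lemma PLe.H4 {f g : G → ℝ} (hf : Pc f) (h : PLe f g) : PLe (H4 μ f) (H4 μ g) :=
  PLe.conv (hf.conv hf) (hf.conv hf) (PLe.conv hf hf h h) (PLe.conv hf hf h h)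

lemma PLe.one {f g : G → ℝ} (h : PLe f g) : f 1 ≤ g 1 := by
  have := Pc.one_nonneg h
  linarith

lemma PLe.mean {f g : G → ℝ} (cf : Continuous f) (cg : Continuous g) (h : PLe f g) :
    PLe (fun x => f x - ∫ y, f y ∂μ) (fun x => g x - ∫ y, g y ∂μ) := by
  have h1 := Pc.mean (μ := μ) h
  unfold PLe
  have e : (fun x => (g x - ∫ y, g y ∂μ) - (f x - ∫ y, f y ∂μ)) =
      fun x => (g x - f x) - ∫ y, (g y - f y) ∂μ := by
    funext x
    rw [integral_sub (integrable_of_cont cg) (integrable_of_cont cf)]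
    ring
  rw [e]
  exact h1

variable {χ : G → ℝ}

lemma Pc.chi (h : Obs μ χ) {f : G → ℝ} (hf : Pc f) : 0 ≤ ∫ x, f x * χ x ∂μ :=
  (hf.pd.mul h.pd).int_nonneg (hf.cont.mul h.cont)

lemma PLe.chi (h : Obs μ χ) {f g : G → ℝ} (cf : Continuous f) (cg : Continuous g)
    (hle : PLe f g) : ∫ x, f x * χ x ∂μ ≤ ∫ x, g x * χ x ∂μ := by
  have h1 := Pc.chi h hle
  have h2 : ∫ x, (g x - f x) * χ x ∂μ = ∫ x, g x * χ x ∂μ - ∫ x, f x * χ x ∂μ := by
    have i1 : Integrable (fun x => g x * χ x) μ := integrable_of_cont (cg.mul h.cont)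
    have i2 : Integrable (fun x => f x * χ x) μ := integrable_of_cont (cf.mul h.cont)
    rw [← integral_sub i1 i2]
    refine integral_congr_ae (Eventually.of_forall fun y => ?_)
    beta_reduce
    ring
  rw [h2] at h1
  linarith

lemma Pc.chi_le (h : Obs μ χ) {f : G → ℝ} (hf : Pc f) : ∫ x, f x * χ x ∂μ ≤ f 1 := by
  have h1 : ∀ x, ‖f x * χ x‖ ≤ f 1 := fun x => by
    rw [norm_mul]
    calc ‖f x‖ * ‖χ x‖ ≤ f 1 * 1 :=
          mul_le_mul (hf.abs x) (h.le x) (norm_nonneg _) hf.one_nonneg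
      _ = f 1 := mul_one _
  have h3 := norm_integral_le_of_norm_le_const (μ := μ) (Eventually.of_forall h1)
  simp only [probReal_univ, mul_one] at h3
  exact (le_abs_self _).trans h3

lemma Pc.int_le {f : G → ℝ} (hf : Pc f) : ∫ x, f x ∂μ ≤ f 1 := by
  have h1 : ∀ x, ‖f x‖ ≤ f 1 := fun x => hf.abs x
  have h3 := norm_integral_le_of_norm_le_const (μ := μ) (Eventually.of_forall h1)
  simp only [probReal_univ, mul_one] at h3
  exact (le_abs_self _).trans h3

lemma Pc.conv_one {f g : G → ℝ} (hf : Pc f) (hg : Pc g) :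
    Pool.Agent.N991.MK.conv μ f g 1 ≤ f 1 * g 1 := by
  have h1 : ∀ y, ‖f y * g (y⁻¹ * 1)‖ ≤ f 1 * g 1 := fun y => by
    rw [norm_mul]
    exact mul_le_mul (hf.abs y) (hg.abs _) (norm_nonneg _) hf.one_nonneg
  have h3 := norm_integral_le_of_norm_le_const (μ := μ) (Eventually.of_forall h1)
  rw [probReal_univ, mul_one (f 1 * g 1)] at h3
  exact (le_abs_self _).trans h3

lemma Pc.H4_one {f : G → ℝ} (hf : Pc f) : Pool.Agent.N989.MK.H4 μ f 1 ≤ f 1 ^ 4 := by
  have h1 := hf.conv_one hf (μ := μ)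
  have h2 := (hf.conv hf (μ := μ)).conv_one (hf.conv hf (μ := μ)) (μ := μ)
  have h3 := (hf.conv hf (μ := μ)).one_nonneg
  unfold Pool.Agent.N989.MK.H4
  refine h2.trans ?_
  have h4 := mul_le_mul h1 h1 h3 (h3.trans h1)
  refine h4.trans (le_of_eq ?_)
  ring

end

end Pool.Agent.N991.MK
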