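import Mathlib
import Pool.Agent.N989.MK.Defs

/-!
# The coarse field: the parallel transporters along the edges of a coarser complex

The square of level `m + n`, seen at the scale `2 ^ m`, is a square of level `n` whose edges are
paths of `2 ^ m` edges.
-/

open MeasureTheory Pool.Agent.N989.MK

namespace Pool.Agent.N991.MK

noncomputable section

/-- The position in a path of length `2 ^ (m + n)` of the edge `r` of its part `c`, a path of length
`2 ^ m`. -/
def fpos {m n : ℕ} (c : Fin (2 ^ n)) (r : Fin (2 ^ m)) : Fin (2 ^ (m + n)) :=
  ⟨c * 2 ^ m + r, by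
    have h1 := c.2
    have h2 := r.2
    have h3 : (c : ℕ) * 2 ^ m + 2 ^ m ≤ 2 ^ n * 2 ^ m := by
      rw [← Nat.succ_mul]
      exact Nat.mul_le_mul_right _ h1
    rw [pow_add, mul_comm (2 ^ m)]
    omega⟩

/-- The edge `e` of the square of level `n` is a path of `2 ^ m` edges of the square of level
`m + n`: this is the `r`-th edge of this path. -/
def pth {m : ℕ} : ∀ {n : ℕ}, Ed n → Fin (2 ^ m) → Ed (m + n)
  | _, .inl (i, c), r => .inl (i, fpos c r)
  | 0, .inr e, _ => nomatch e
  | _ + 1, .inr (.inl (s, j, c)), r => .inr (.inl (s, j, fpos c r))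
  | _ + 1, .inr (.inr (s, q, e)), r => emb s q (pth (.inr e) r)

/-- The coarse field of a field of the square of level `m + n`: the product of the variables along
the path which is the edge `e` of the square of level `n`. -/
def crs {G : Type*} [Group G] {m n : ℕ} (U : Ed (m + n) → G) (e : Ed n) : G :=
  (List.ofFn fun r : Fin (2 ^ m) => U (pth e r)).prod

end

end Pool.Agent.N991.MK
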