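import Mathlib
import Pool.Agent.N991.MK.TwoK
import Pool.Agent.N991.MK.Tan1
import Pool.Agent.N991.MK.Low

/-!
# The states of the sharp weak coupling flow
-/

open MeasureTheory Filter Metric Asymptotics Matrix
open scoped Matrix.Norms.Frobenius Topology ContDiff
open Pool.Agent.H906R3.YM Pool.Agent.W793.YM Pool.Agent.TH618.YM Pool.Agent.N984.TW
open Pool.Agent.N988.MK (IsoG St)

namespace Pool.Agent.N991.MK

set_option linter.unusedSectionVars false

noncomputable section

variable {N n : ℕ} {G : Subgroup (UN N)} {B : Frame G n} {hG : IsClosed (G : Set (UN N))}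
variable [CompactSpace G] [MeasurableSpace G] [BorelSpace G] [SecondCountableTopology G]
  {μ : Measure G} [IsProbabilityMeasure μ] [μ.IsHaarMeasure] [μ.IsMulRightInvariant]
  [μ.IsInvInvariant]

variable (B μ) in
/-- the states, with the improved coupling and the strict tube bound -/
def P3St (r ε h1 C1 : ℝ) (f : G → ℝ) (h ρ : ℝ) : Prop :=
  0 ≤ ρ ∧ ∃ (F : (Mat N)ˣ → ℂ) (m : (Fin n → ℂ) → ℂ) (k : ℝ), 0 < k ∧ CF f F ∧
    (∀ x, 0 < f x) ∧ St B r k (ρ * k) F m ∧ Tube B r k F ∧ TubeS B r k F ∧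
    ρ * k * r ^ 2 ≤ ε * k ∧ Chain μ B r h1 C1 f F k (ρ * k) ∧ h = k + 48 / 5 * qb n m / k

end

end Pool.Agent.N991.MK
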