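import Mathlib
import Pool.Agent.N991.MK.TwoStep
import Pool.Agent.N991.MK.Tube4

/-!
# The renormalisation step to the next order, with errors linear in the quartic bound
-/

open MeasureTheory Filter Metric Asymptotics Matrix
open scoped Matrix.Norms.Frobenius Topology ContDiff
open Pool.Agent.H906R3.YM Pool.Agent.W793.YM Pool.Agent.TH618.YM Pool.Agent.N984.TW
open Pool.Agent.N988.MK (IsoG St BC step_D)

namespace Pool.Agent.N991.MK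

set_option linter.unusedSectionVars false

noncomputable section

variable {N n : ℕ} {G : Subgroup (UN N)} {B : Frame G n} {hG : IsClosed (G : Set (UN N))}
variable [CompactSpace G] [MeasurableSpace G] [BorelSpace G] {μ : Measure G}
  [IsProbabilityMeasure μ] [μ.IsMulLeftInvariant] [μ.IsMulRightInvariant] [μ.IsInvInvariant]
variable {r k M cA : ℝ} {F : (Mat N)ˣ → ℂ} {m : (Fin n → ℂ) → ℂ} {f : G → ℝ}

variable (B μ) in
/-- the law of the quartic part to leading order, with a linear error -/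
def QLaw1 (cA : ℝ) : Prop :=
  ∃ r₁ ε₁ : ℝ, 0 < r₁ ∧ 0 < ε₁ ∧ ε₁ ≤ 1 / 1000 ∧ ∀ r : ℝ, 0 < r → r ≤ r₁ →
    ∃ k₀ K : ℝ, 1 ≤ k₀ ∧ 0 ≤ K ∧ ∀ {k M : ℝ} {f : G → ℝ} {F : (Mat N)ˣ → ℂ}
      {m : (Fin n → ℂ) → ℂ}, k₀ ≤ k → 0 ≤ M → M * r ^ 2 ≤ ε₁ * k → CF f F → (∀ x, 0 < f x) →
      St B r k M F m → Tube B r k F →
      ∀ {k' M' : ℝ} {m' : (Fin n → ℂ) → ℂ}, St B r k' M' (convC μ F F) m' →
      |qb n m' - (qb n m / 8 - 7 / 55296 * cA ^ 2)| ≤ K * (1 + M) / k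

/-- the arithmetic of the step: the coupling -/
lemma step3_arith_k {k k₁ k₂ q q₁ e g c M Q1 Q2 Q3 K Cq : ℝ} (hk : 1 ≤ k) (hk₁ : k / 4 ≤ k₁)
    (hM : 0 ≤ M) (hK : 0 ≤ K)
    (h1 : |k₁ - (k / 2 - c / 48 + (e + 3 * q) / k)| ≤ Q1 * (1 + M) / k ^ 2)
    (h2 : |k₂ - (k₁ / 2 - c / 48 + (e + 3 * q₁) / k₁)| ≤ Q2 * (1 + M) / k ^ 2)
    (h3 : |q₁ - (q / 8 - g)| ≤ Q3 * (1 + M) / k)
    (h4 : |k₁ - k / 2| ≤ K) (h5 : |e + 3 * q₁| ≤ Cq * (1 + M)) (hQ1 : 0 ≤ Q1) (hQ2 : 0 ≤ Q2)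
    (hCq : 0 ≤ Cq) :
    |4 * k₂ - (k - c / 8 + (10 * e + 9 * q - 24 * g) / k)| ≤
      (2 * Q1 + 4 * Q2 + 24 * Q3 + 32 * K * Cq) * (1 + M) / k ^ 2 := by
  have hk0 : 0 < k := by linarith
  have hk₁0 : 0 < k₁ := by linarith
  have e1 : 4 * k₂ - (k - c / 8 + (10 * e + 9 * q - 24 * g) / k) =
      4 * (k₂ - (k₁ / 2 - c / 48 + (e + 3 * q₁) / k₁)) +
      2 * (k₁ - (k / 2 - c / 48 + (e + 3 * q) / k)) +
      4 * ((e + 3 * q₁) * (1 / k₁ - 2 / k)) + 24 * ((q₁ - (q / 8 - g)) / k) := by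
    field_simp
    ring
  have h6 : |1 / k₁ - 2 / k| ≤ 8 * K / k ^ 2 := by
    have e2 : 1 / k₁ - 2 / k = -(2 * (k₁ - k / 2)) / (k₁ * k) := by
      field_simp
      ring
    rw [e2, abs_div, abs_neg, abs_mul, abs_two, abs_of_pos (by positivity : (0 : ℝ) < k₁ * k),
      div_le_div_iff₀ (by positivity) (by positivity)]
    have h7 : K * k ^ 2 ≤ K * (4 * (k₁ * k)) := by
      refine mul_le_mul_of_nonneg_left ?_ hK
      nlinarith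
    have h8 : |k₁ - k / 2| * k ^ 2 ≤ K * k ^ 2 := mul_le_mul_of_nonneg_right h4 (by positivity)
    linarith
  have h7 : |(e + 3 * q₁) * (1 / k₁ - 2 / k)| ≤ 8 * K * Cq * (1 + M) / k ^ 2 := by
    rw [abs_mul]
    calc |e + 3 * q₁| * |1 / k₁ - 2 / k| ≤ Cq * (1 + M) * (8 * K / k ^ 2) :=
          mul_le_mul h5 h6 (abs_nonneg _) (by positivity)
      _ = _ := by ring
  have h8 : |(q₁ - (q / 8 - g)) / k| ≤ Q3 * (1 + M) / k ^ 2 := by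
    rw [abs_div, abs_of_pos hk0]
    calc |q₁ - (q / 8 - g)| / k ≤ Q3 * (1 + M) / k / k :=
          div_le_div_of_nonneg_right h3 hk0.le
      _ = _ := by rw [div_div, ← pow_two]
  rw [e1]
  refine (abs_add_le _ _).trans ?_
  refine (add_le_add ((abs_add_le _ _).trans (add_le_add (abs_add_le _ _) le_rfl)) le_rfl).trans ?_
  rw [abs_mul (4 : ℝ), abs_mul (2 : ℝ), abs_mul (4 : ℝ), abs_mul (24 : ℝ), abs_two,
    abs_of_pos (by norm_num : (0 : ℝ) < 4), abs_of_pos (by norm_num : (0 : ℝ) < 24)]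
  have e3 : Q1 * (1 + M) / k ^ 2 ≤ Q1 * ((1 + M) / k ^ 2) := by
    rw [mul_div_assoc]
  have e4 : Q2 * (1 + M) / k ^ 2 ≤ Q2 * ((1 + M) / k ^ 2) := by
    rw [mul_div_assoc]
  have e5 : 8 * K * Cq * (1 + M) / k ^ 2 ≤ 8 * K * Cq * ((1 + M) / k ^ 2) := by
    rw [mul_div_assoc]
  have e6 : Q3 * (1 + M) / k ^ 2 = Q3 * ((1 + M) / k ^ 2) := by
    rw [mul_div_assoc]
  have e7 : (2 * Q1 + 4 * Q2 + 24 * Q3 + 32 * K * Cq) * (1 + M) / k ^ 2 =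
      2 * (Q1 * ((1 + M) / k ^ 2)) + 4 * (Q2 * ((1 + M) / k ^ 2)) +
      24 * (Q3 * ((1 + M) / k ^ 2)) + 4 * (8 * K * Cq * ((1 + M) / k ^ 2)) := by
    ring
  rw [e7]
  linarith

/-- the arithmetic of the step: the quartic part -/
lemma step3_arith_q {k q q₁ q₂ g M Q3 Q4 : ℝ}
    (h3 : |q₁ - (q / 8 - g)| ≤ Q3 * (1 + M) / k)
    (h4 : |q₂ - (q₁ / 8 - g)| ≤ Q4 * (1 + M) / k) :
    |4 * q₂ - (q / 16 - 9 / 2 * g)| ≤ (Q3 + 4 * Q4) * (1 + M) / k := by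
  have e1 : 4 * q₂ - (q / 16 - 9 / 2 * g) = 4 * (q₂ - (q₁ / 8 - g)) +
      1 / 2 * (q₁ - (q / 8 - g)) := by ring
  rw [e1]
  refine (abs_add_le _ _).trans ?_
  rw [abs_mul, abs_mul, abs_of_pos (by norm_num : (0 : ℝ) < 4),
    abs_of_pos (by norm_num : (0 : ℝ) < 1 / 2)]
  have e2 : (Q3 + 4 * Q4) * (1 + M) / k = Q3 * (1 + M) / k +
      4 * (Q4 * (1 + M) / k) := by ring
  rw [e2]
  have := abs_nonneg (q₁ - (q / 8 - g))
  linarith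

variable (μ) in
/-- **one step of the recursion, to the next order** -/
theorem step3_R (hG : IsClosed (G : Set (UN N))) (hI : IsoG B) (hn : 0 < n)
    (hcA : ∀ x : Fin n → ℝ, ∑ a, ‖LX B x * B.X a - B.X a * LX B x‖ ^ 2 = cA * nE x ^ 2)
    (hKL : KLaw B μ cA) (hQL : QLaw1 B μ cA) :
    ∃ r₁ ε₁ : ℝ, 0 < r₁ ∧ 0 < ε₁ ∧ ε₁ ≤ 1 / 1000 ∧ ∀ ε : ℝ, 0 < ε → ε ≤ ε₁ →
      ∀ r : ℝ, 0 < r → r ≤ r₁ → GoodR B r ∧
      ∃ k₀ K : ℝ, 1 ≤ k₀ ∧ 0 ≤ K ∧ ∀ {k M : ℝ} {f : G → ℝ} {F : (Mat N)ˣ → ℂ}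
        {m : (Fin n → ℂ) → ℂ}, k₀ ≤ k → 0 ≤ M → M * r ^ 2 ≤ ε * k → CF f F → (∀ x, 0 < f x) →
        St B r k M F m → Tube B r k F →
        ∃ (k' M' : ℝ) (m' : (Fin n → ℂ) → ℂ),
          |k' - (k - cA / 8 + (10 * (cA ^ 2 / 2304) + 9 * qb n m -
            24 * (7 / 55296 * cA ^ 2)) / k)| ≤ K * (1 + M) / k ^ 2 ∧
          |qb n m' - (qb n m / 16 - 9 / 2 * (7 / 55296 * cA ^ 2))| ≤ K * (1 + M) / k ∧
          |k' - k| ≤ K ∧ 0 ≤ M' ∧ M' ≤ M / 16 + K ∧ M' * r ^ 2 ≤ ε * k' ∧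
          St B r k' M' (fun u => convC μ (convC μ F F) (convC μ F F) u ^ 4) m' ∧
          Tube B r k' (fun u => convC μ (convC μ F F) (convC μ F F) u ^ 4) ∧
          TubeS B r k' (fun u => convC μ (convC μ F F) (convC μ F F) u ^ 4) := by
  obtain ⟨rD, εD, hrD, hεD, hεD1, hD⟩ := step_D (B := B) μ hG hI hn hcA
  obtain ⟨rK, εK, hrK, hεK, hεK1, hKL⟩ := hKL
  obtain ⟨rQ, εQ, hrQ, hεQ, hεQ1, hQL⟩ := hQL
  refine ⟨min rD (min rK rQ), min εD (min εK εQ), lt_min hrD (lt_min hrK hrQ),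
    lt_min hεD (lt_min hεK hεQ), (min_le_left _ _).trans hεD1, fun ε hε hεε r hr hrr => ?_⟩
  have i1 : ε ≤ εD := hεε.trans (min_le_left _ _)
  have i2 : ε ≤ εK := hεε.trans ((min_le_right _ _).trans (min_le_left _ _))
  have i3 : ε ≤ εQ := hεε.trans ((min_le_right _ _).trans (min_le_right _ _))
  obtain ⟨hgr, kD, KD, hkD, hKD, hD⟩ := hD ε hε i1 r hr (hrr.trans (min_le_left _ _))
  obtain ⟨kK, KK, hkK, hKK, hKL⟩ := hKL r hr
    (hrr.trans ((min_le_right _ _).trans (min_le_left _ _)))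
  obtain ⟨kQ, KQ, hkQ, hKQ, hQL⟩ := hQL r hr
    (hrr.trans ((min_le_right _ _).trans (min_le_right _ _)))
  obtain ⟨kT, hkT, hTS⟩ := tubeS_conv (B := B) hG μ hgr KD hKD
  obtain ⟨e, he⟩ : ∃ e : ℝ, e = cA ^ 2 / 2304 := ⟨_, rfl⟩
  obtain ⟨g, hg⟩ : ∃ g : ℝ, g = 7 / 55296 * cA ^ 2 := ⟨_, rfl⟩
  have he0 : 0 ≤ e := by rw [he]; positivity
  obtain ⟨Q2, hQ2⟩ : ∃ Q2 : ℝ, Q2 = 16 * KK * (1 + KD) := ⟨_, rfl⟩
  obtain ⟨Q4, hQ4⟩ : ∃ Q4 : ℝ, Q4 = 4 * KQ * (1 + KD) := ⟨_, rfl⟩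
  obtain ⟨Cq, hCq⟩ : ∃ Cq : ℝ, Cq = (e + 9 * n) * (1 + KD) := ⟨_, rfl⟩
  have hQ2' : 0 ≤ Q2 := by rw [hQ2]; positivity
  have hQ4' : 0 ≤ Q4 := by rw [hQ4]; positivity
  have hCq' : 0 ≤ Cq := by rw [hCq]; positivity
  obtain ⟨K1, hK1⟩ : ∃ K1 : ℝ, K1 = 2 * KK + 4 * Q2 + 24 * KQ + 32 * KD * Cq := ⟨_, rfl⟩
  have hK1' : 0 ≤ K1 := by rw [hK1]; positivity
  rw [← he, ← hg]
  refine ⟨hgr, 2 * (kD + kK + kQ + kT) + 4 * KD, K1 + (KQ + 4 * Q4) + 6 * KD,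
    by linarith, by positivity, fun {k M f F m} hk hM hMr hf hpos hs ht => ?_⟩
  have hk1 : 1 ≤ k := by linarith
  have hk0 : 0 < k := by linarith
  obtain ⟨k₁, M₁, m₁, -, a2, a3, a4, a5, a6, a7⟩ := hD (by linarith) hM hMr hf hpos hs ht
  have hf1 : CF (Pool.Agent.N991.MK.conv μ f f) (convC μ F F) := hf.convC hf
  have hp1 : ∀ x, 0 < Pool.Agent.N991.MK.conv μ f f x := conv_pos hf.cont hf.cont hpos hpos
  have a2' := abs_le.1 a2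
  have hk₁ : kD + kK + kQ + kT ≤ k₁ := by linarith [a2'.1]
  have hk₁' : k / 4 ≤ k₁ := by linarith [a2'.1]
  have hk₁0 : 0 < k₁ := by linarith
  obtain ⟨k₂, M₂, m₂, -, b2, b3, b4, b5, b6, b7⟩ := hD (by linarith) a3 a5 hf1 hp1 a6 a7
  have hf2 : CF (Pool.Agent.N991.MK.conv μ (Pool.Agent.N991.MK.conv μ f f)
    (Pool.Agent.N991.MK.conv μ f f)) (convC μ (convC μ F F) (convC μ F F)) := hf1.convC hf1
  have hp2 := conv_pos (μ := μ) hf1.cont hf1.cont hp1 hp1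
  have hMk : M * r ^ 2 ≤ εK * k := hMr.trans (mul_le_mul_of_nonneg_right i2 hk0.le)
  have hMq : M * r ^ 2 ≤ εQ * k := hMr.trans (mul_le_mul_of_nonneg_right i3 hk0.le)
  have hMk1 : M₁ * r ^ 2 ≤ εK * k₁ := a5.trans (mul_le_mul_of_nonneg_right i2 hk₁0.le)
  have hMq1 : M₁ * r ^ 2 ≤ εQ * k₁ := a5.trans (mul_le_mul_of_nonneg_right i3 hk₁0.le)
  have c1 := hKL (by linarith) hM hMk hf hpos hs ht a6
  have c2 := hKL (by linarith) a3 hMk1 hf1 hp1 a6 a7 b6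
  have c3 := hQL (by linarith) hM hMq hf hpos hs ht a6
  have c4 := hQL (by linarith) a3 hMq1 hf1 hp1 a6 a7 b6
  rw [← he] at c1 c2
  rw [← hg] at c3 c4
  have hqb1 := qb_le a6 hf1.hol (hf1.one_ne hp1) hr a3 hn
  have hM1 : 1 + M₁ ≤ (1 + KD) * (1 + M) := by
    have : 0 ≤ KD * M := by positivity
    linarith
  have hM1' : (1 + M₁) ≤ (1 + KD) * (1 + M) := hM1
  have hk₁2 : k ^ 2 / 16 ≤ k₁ ^ 2 := by
    have := pow_le_pow_left₀ (by positivity) hk₁' 2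
    linarith
  have c2' : |k₂ - (k₁ / 2 - cA / 48 + (e + 3 * qb n m₁) / k₁)| ≤ Q2 * (1 + M) / k ^ 2 := by
    refine c2.trans ?_
    rw [div_le_div_iff₀ (by positivity) (by positivity), hQ2]
    calc KK * (1 + M₁) * k ^ 2 ≤ KK * ((1 + KD) * (1 + M)) * (16 * k₁ ^ 2) :=
          mul_le_mul (mul_le_mul_of_nonneg_left hM1 hKK) (by linarith) (by positivity)
            (by positivity)
      _ = _ := by ring
  have c4' : |qb n m₂ - (qb n m₁ / 8 - g)| ≤ Q4 * (1 + M) / k := by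
    refine c4.trans ?_
    rw [div_le_div_iff₀ (by positivity) (by positivity), hQ4]
    calc KQ * (1 + M₁) * k ≤ KQ * ((1 + KD) * (1 + M)) * (4 * k₁) :=
          mul_le_mul (mul_le_mul_of_nonneg_left hM1' hKQ) (by linarith) (by positivity)
            (by positivity)
      _ = _ := by ring
  have h5 : |e + 3 * qb n m₁| ≤ Cq * (1 + M) := by
    refine (abs_add_le _ _).trans ?_
    rw [abs_of_nonneg he0, abs_mul, abs_of_pos (by norm_num : (0 : ℝ) < 3), hCq]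
    have j1 : e * 1 ≤ e * (1 + M₁) := mul_le_mul_of_nonneg_left (by linarith) he0
    have j2 : 9 * n * M₁ ≤ 9 * n * (1 + M₁) :=
      mul_le_mul_of_nonneg_left (by linarith) (by positivity)
    have j3 : (e + 9 * n) * (1 + M₁) ≤ (e + 9 * n) * ((1 + KD) * (1 + M)) :=
      mul_le_mul_of_nonneg_left hM1 (by positivity)
    linarith
  have r1 := step3_arith_k hk1 hk₁' hM hKD c1 c2' c3 a2 h5 hKK hQ2' hCq'
  have r2 := step3_arith_q c3 c4'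
  have hq4 : qb n (fun x => 4 * m₂ x) = 4 * qb n m₂ := by
    have := qb_const_mul (4 : ℝ) (b6.smooth hf2.hol (hf2.one_ne hp2) hr)
    push_cast at this
    exact this
  rw [← hK1] at r1
  refine ⟨4 * k₂, 4 * M₂, fun x => 4 * m₂ x, ?_, ?_, ?_, by positivity, ?_, ?_, b6.pow4,
    N988.MK.tube_pow4 b7, (hTS (by linarith) b2 ?_ hf1 a6.nearS a7).pow4⟩
  · refine r1.trans ?_
    refine div_le_div_of_nonneg_right (mul_le_mul_of_nonneg_right ?_ (by positivity))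
      (by positivity)
    have : 0 ≤ KQ + 4 * Q4 := by positivity
    linarith
  · rw [hq4]
    refine r2.trans ?_
    refine div_le_div_of_nonneg_right (mul_le_mul_of_nonneg_right ?_ (by positivity))
      (by positivity)
    linarith
  · have e1 : 4 * k₂ - k = 4 * (k₂ - k₁ / 2) + 2 * (k₁ - k / 2) := by ring
    rw [e1]
    refine (abs_add_le _ _).trans ?_
    rw [abs_mul, abs_mul, abs_two, abs_of_pos (by norm_num : (0 : ℝ) < 4)]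
    have : 0 ≤ KQ + 4 * Q4 := by positivity
    linarith
  · have : 0 ≤ KQ + 4 * Q4 := by positivity
    linarith
  · calc 4 * M₂ * r ^ 2 = 4 * (M₂ * r ^ 2) := by ring
      _ ≤ 4 * (ε * k₂) := by linarith
      _ = _ := by ring
  · have h1 : ε * k₁ ≤ 1 / 1000 * k₁ :=
      mul_le_mul_of_nonneg_right (i1.trans hεD1) hk₁0.le
    linarith

end

end Pool.Agent.N991.MK
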