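import Mathlib
import Pool.Agent.N991.MK.TwoStep
import Pool.Agent.N988.MK.Pair1

/-!
# The trace of the quartic part is Lipschitz; uniqueness of the extension
-/

open MeasureTheory Filter Metric Asymptotics Matrix
open scoped Matrix.Norms.Frobenius Topology ContDiff
open Pool.Agent.H906R3.YM Pool.Agent.W793.YM Pool.Agent.TH618.YM Pool.Agent.N984.TW
open Pool.Agent.N988.MK (IsoG St)

namespace Pool.Agent.N991.MK

set_option linter.unusedSectionVars false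

noncomputable section

section
variable {n : ℕ} {m m₁ m₂ : (Fin n → ℂ) → ℂ}

lemma m4_add (h1 : ContDiffAt ℂ ∞ m₁ 0) (h2 : ContDiffAt ℂ ∞ m₂ 0) (x : Fin n → ℂ) :
    N988.MK.m4 (fun x => m₁ x + m₂ x) x = N988.MK.m4 m₁ x + N988.MK.m4 m₂ x := by
  have h4 : (4 : WithTop ℕ∞) ≤ ∞ := by
    have : ((4 : ℕ∞) : WithTop ℕ∞) ≤ ((⊤ : ℕ∞) : WithTop ℕ∞) := WithTop.coe_le_coe.2 le_top
    exact this
  have h3 : iteratedFDeriv ℂ 4 (fun x => m₁ x + m₂ x) 0 =
      iteratedFDeriv ℂ 4 m₁ 0 + iteratedFDeriv ℂ 4 m₂ 0 :=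
    iteratedFDeriv_add_apply (i := 4) (f := m₁) (g := m₂) (x := 0) (h1.of_le h4) (h2.of_le h4)
  rw [N988.MK.m4_eq, N988.MK.m4_eq, N988.MK.m4_eq, h3, _root_.add_apply]
  ring

lemma T4_add (h1 : ContDiffAt ℂ ∞ m₁ 0) (h2 : ContDiffAt ℂ ∞ m₂ 0) (x y : Fin n → ℂ) :
    N988.MK.T4 (fun x => m₁ x + m₂ x) x y = N988.MK.T4 m₁ x y + N988.MK.T4 m₂ x y := by
  unfold N988.MK.T4
  rw [m4_add h1 h2, m4_add h1 h2, m4_add h1 h2, m4_add h1 h2]
  ring

lemma qb_add (h1 : ContDiffAt ℂ ∞ m₁ 0) (h2 : ContDiffAt ℂ ∞ m₂ 0) :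
    qb n (fun x => m₁ x + m₂ x) = qb n m₁ + qb n m₂ := by
  unfold qb
  simp only [T4_add h1 h2, Complex.add_re, Finset.sum_add_distrib]
  ring

lemma qb_sub (h1 : ContDiffAt ℂ ∞ m₁ 0) (h2 : ContDiffAt ℂ ∞ m₂ 0) :
    qb n (fun x => m₂ x - m₁ x) = qb n m₂ - qb n m₁ := by
  have h3 : ContDiffAt ℂ ∞ (fun x => ((-1 : ℝ) : ℂ) * m₁ x) 0 := contDiffAt_const.mul h1
  have e : (fun x => m₂ x - m₁ x) = fun x => m₂ x + ((-1 : ℝ) : ℂ) * m₁ x := by
    funext x
    push_cast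
    ring
  rw [e, qb_add h2 h3, qb_const_mul (-1) h1]
  ring

/-- the quartic part of a function of fourth order -/
lemma m4_near_gen {d : (Fin n → ℂ) → ℂ} {r l : ℝ} (hr : 0 < r) (hs : ContDiffAt ℂ ∞ d 0)
    (hd : ∀ x, nC x < r → DifferentiableAt ℂ d x) (hb : ∀ x, nC x < r → ‖d x‖ ≤ l * nC x ^ 4)
    (x : Fin n → ℂ) : ‖N988.MK.m4 d x‖ ≤ l * nC x ^ 4 := by
  have hx0 := nC_nonneg x
  have main : ∀ x : Fin n → ℂ, nC x < r → ‖N988.MK.m4 d x‖ ≤ l * nC x ^ 4 := by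
    intro x hx
    by_cases hx0 : x = 0
    · have h2 : N988.MK.m4 d x = 0 := by
        have := N988.MK.m4_smul (m := d) 0 x
        rw [zero_smul, zero_pow (by norm_num), zero_mul] at this
        rw [hx0]; exact this
      rw [h2, hx0, nC_zero]
      simp
    have px : 0 < nC x := lt_of_not_ge fun h => hx0 (N988.MK.nC_eq_zero h)
    obtain ⟨ρ, hρd⟩ : ∃ ρ, ρ = r / nC x := ⟨_, rfl⟩
    have hρ : 0 < ρ := by rw [hρd]; positivity
    have hbx : ∀ ζ ∈ ball (0 : ℂ) ρ, nC (ζ • x) < r := by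
      intro ζ hζ
      rw [mem_ball_zero_iff, hρd, lt_div_iff₀ px] at hζ
      rw [nC_smul]; exact hζ
    have hd' : DifferentiableOn ℂ (fun ζ : ℂ => d (ζ • x)) (ball 0 ρ) := by
      intro ζ hζ
      have h3 := hd (ζ • x) (hbx ζ hζ)
      have h4 : DifferentiableAt ℂ (fun ζ : ℂ => ζ • x) ζ := by fun_prop
      exact (DifferentiableAt.comp (f := fun ζ : ℂ => ζ • x) (g := d) ζ h3
        h4).differentiableWithinAt
    have hb' : ∀ ζ ∈ ball (0 : ℂ) ρ, ‖d (ζ • x)‖ ≤ l * nC x ^ 4 * ‖ζ‖ ^ 4 := by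
      intro ζ hζ
      refine (hb _ (hbx ζ hζ)).trans (le_of_eq ?_)
      rw [nC_smul]; ring
    obtain ⟨q1, -⟩ := N988.MK.quart (g := fun ζ : ℂ => d (ζ • x)) hρ hd' hb'
    have e : iteratedDeriv 4 (fun ζ : ℂ => d (ζ • x)) 0 / 24 = N988.MK.m4 d x := by
      rw [N988.MK.iter_line hs x, N988.MK.m4_eq]
    rwa [e] at q1
  obtain ⟨t, ht⟩ : ∃ t : ℝ, t = r / (2 * (nC x + 1)) := ⟨_, rfl⟩
  have ht0 : 0 < t := by rw [ht]; positivity
  have h2 : nC ((t : ℂ) • x) < r := by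
    rw [nC_smul, Complex.norm_real, Real.norm_eq_abs, abs_of_pos ht0, ht, div_mul_eq_mul_div,
      div_lt_iff₀ (by positivity)]
    nlinarith
  have h3 := main _ h2
  rw [N988.MK.m4_smul, norm_mul, norm_pow, nC_smul, Complex.norm_real, Real.norm_eq_abs,
    abs_of_pos ht0] at h3
  have h4 : 0 < t ^ 4 := by positivity
  refine le_of_mul_le_mul_left (a := t ^ 4) ?_ h4
  calc t ^ 4 * ‖N988.MK.m4 d x‖ ≤ l * (t * nC x) ^ 4 := h3
    _ = _ := by ring

lemma qb_le_gen {d : (Fin n → ℂ) → ℂ} {r l : ℝ} (hr : 0 < r) (hn : 0 < n) (hl : 0 ≤ l)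
    (hs : ContDiffAt ℂ ∞ d 0) (hd : ∀ x, nC x < r → DifferentiableAt ℂ d x)
    (hb : ∀ x, nC x < r → ‖d x‖ ≤ l * nC x ^ 4) : |qb n d| ≤ 3 * n * l := by
  have hQ : Qrt r l 0 (N988.MK.m4 d) (N988.MK.m4 d) :=
    { hC := le_rfl
      df := N988.MK.m4_diff
      ev := fun x => by
        have h := N988.MK.m4_smul (m := d) (-1) x
        rw [neg_one_smul] at h
        rw [h]; ring
      hom := fun c x => N988.MK.m4_smul c x
      bd := m4_near_gen hr hs hd hb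
      near := fun x hx => by simp
      hom2 := fun c e x y => by
        rw [N988.MK.T4_eq', N988.MK.T4_eq', N988.MK.T4_smul_left, N988.MK.T4_smul_right]
        ring }
  unfold qb
  have hn' : (0 : ℝ) < n := by exact_mod_cast hn
  have h2 : |∑ a, ∑ c, (N988.MK.T4 d (Pi.single a 1) (Pi.single c 1)).re| ≤ 36 * l * n ^ 2 := by
    calc _ ≤ ∑ _a : Fin n, ∑ _c : Fin n, 36 * l := by
          refine (Finset.abs_sum_le_sum_abs _ _).trans (Finset.sum_le_sum fun a _ => ?_)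
          refine (Finset.abs_sum_le_sum_abs _ _).trans (Finset.sum_le_sum fun c _ => ?_)
          refine (Complex.abs_re_le_norm _).trans ?_
          have h3 := hQ.T4_le hl (Pi.single a 1) (Pi.single c 1)
          rw [N988.MK.T4_eq', N988.MK.nC_single, N988.MK.nC_single] at h3
          linarith
      _ = _ := by
          simp only [Finset.sum_const, Finset.card_univ, Fintype.card_fin, nsmul_eq_mul]
          ring
  rw [abs_mul, abs_of_pos (by positivity)]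
  calc 1 / (12 * (n : ℝ)) * |∑ a, ∑ c, (N988.MK.T4 d (Pi.single a 1) (Pi.single c 1)).re| ≤
      1 / (12 * n) * (36 * l * n ^ 2) := mul_le_mul_of_nonneg_left h2 (by positivity)
    _ = _ := by field_simp; ring

/-- **the trace of the quartic part is Lipschitz** -/
lemma qb_lip {r l : ℝ} (hr : 0 < r) (hn : 0 < n) (hl : 0 ≤ l) (h1 : ContDiffAt ℂ ∞ m₁ 0)
    (h2 : ContDiffAt ℂ ∞ m₂ 0) (d1 : ∀ x, nC x < r → DifferentiableAt ℂ m₁ x)
    (d2 : ∀ x, nC x < r → DifferentiableAt ℂ m₂ x)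
    (hb : ∀ x, nC x < r → ‖m₂ x - m₁ x‖ ≤ l * nC x ^ 4) : |qb n m₂ - qb n m₁| ≤ 3 * n * l := by
  rw [← qb_sub h1 h2]
  exact qb_le_gen hr hn hl (h2.sub h1) (fun x hx => (d2 x hx).sub (d1 x hx)) hb

end

variable {N n : ℕ} {G : Subgroup (UN N)} {B : Frame G n}
variable [CompactSpace G] [MeasurableSpace G] [BorelSpace G]

/-- the extension of a class function is unique on the tube -/
theorem cf_ext2 (hG : IsClosed (G : Set (UN N))) {f : G → ℝ} {F F' : (Mat N)ˣ → ℂ}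
    (h : CF f F) (h' : CF f F') (x : Fin n → ℂ) (y : G) :
    F (uE B x * uG y) = F' (uE B x * uG y) := by
  obtain ⟨a, ha⟩ : ∃ a, a = reP x := ⟨_, rfl⟩
  obtain ⟨b, hb⟩ : ∃ b, b = imP x := ⟨_, rfl⟩
  have c1 : ContDiff ℂ ∞ fun s : ℂ => ((uE B (ln a b s) * uG y : (Mat N)ˣ) : Mat N) := by
    have e : (fun s : ℂ => ((uE B (ln a b s) * uG y : (Mat N)ˣ) : Mat N)) =
        fun s => EC B (ln a b s) * mt y := by
      funext s
      rw [Units.val_mul]
      rfl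
    rw [e]
    exact (EC_ln_contDiff B a b).mul contDiff_const
  have c2 : ContDiff ℂ ∞ fun s : ℂ => (((uE B (ln a b s) * uG y)⁻¹ : (Mat N)ˣ) : Mat N) := by
    have e : (fun s : ℂ => (((uE B (ln a b s) * uG y)⁻¹ : (Mat N)ˣ) : Mat N)) =
        fun s => mt y⁻¹ * EC B (-ln a b s) := by
      funext s
      rw [_root_.mul_inv_rev, Units.val_mul]
      rfl
    rw [e]
    exact contDiff_const.mul (EC_ln_contDiff' B a b)
  have h1 : (fun s : ℂ => F (uE B (ln a b s) * uG y)) =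
      fun s : ℂ => F' (uE B (ln a b s) * uG y) := by
    refine eq_of_real_eq ?_ ?_ ?_
    · exact ContDiff.differentiable (h.hol.curve (u := fun s => uE B (ln a b s) * uG y) c1 c2)
        (by simp)
    · exact ContDiff.differentiable (h'.hol.curve (u := fun s => uE B (ln a b s) * uG y) c1 c2)
        (by simp)
    · intro t
      rw [ln_real, uE_rl B hG, ← map_mul, h.res, h'.res]
  have h2 := congrFun h1 Complex.I
  beta_reduce at h2
  rwa [ha, hb, ln_I] at h2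

end

end Pool.Agent.N991.MK
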