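import Mathlib
import Pool.Agent.N988.MK.Pair6
import Pool.Agent.N991.MK.Tube4

/-!
# The renormalisation group step for pairs, with the sharp law of the couplings
-/

open MeasureTheory Filter Metric Asymptotics Matrix
open scoped Matrix.Norms.Frobenius Topology ContDiff
open Pool.Agent.H906R3.YM Pool.Agent.W793.YM Pool.Agent.TH618.YM Pool.Agent.N984.TW
open Pool.Agent.N991.MK

namespace Pool.Agent.N988.MK

set_option linter.unusedSectionVars false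

noncomputable section

/-- the constant of two convolutions -/
def KS (K E : ℝ) : ℝ :=
  2 * K + 4 * K * (16 * (1 + 2 * K) * (1 / 2 + K) + 16 * (1 + 2 * K) * (K * E) +
    4 * (1 / 8 + 2 * K))

/-- the arithmetic of two convolutions -/
lemma sharp_arith {κ κa Δ Δa l la S Sa K E δ₁ δ₂ : ℝ} (hκ : 1 ≤ κ) (hκa : κ / 4 ≤ κa)
    (hΔ : 0 ≤ Δ) (hl : 0 ≤ l) (hK : 0 ≤ K) (hS : 1 ≤ S) (hSE : S ≤ E * κ) (hSa0 : 0 ≤ Sa)
    (hSa : Sa ≤ (1 + 2 * K) * S) (hΔa0 : 0 ≤ Δa) (hΔa : Δa ≤ Δ / 2 + K * ((Δ + l) / κ))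
    (hla0 : 0 ≤ la) (hla : la ≤ l / 8 + K * ((Δ + l) / κ))
    (h1 : |δ₁| ≤ K * (Δ * S / κ ^ 2 + l / κ)) (h2 : |δ₂| ≤ K * (Δa * Sa / κa ^ 2 + la / κa)) :
    |4 * δ₂ + 2 * δ₁| ≤ KS K E * (Δ * S / κ ^ 2 + l / κ) := by
  have hκ0 : 0 < κ := by linarith
  have hκa0 : 0 < κa := by linarith
  have hE : 0 ≤ E := by
    by_contra hcon
    push Not at hcon
    nlinarith
  obtain ⟨V, hV⟩ : ∃ V : ℝ, V = Δ * S / κ ^ 2 := ⟨_, rfl⟩
  obtain ⟨U, hU⟩ : ∃ U : ℝ, U = l / κ := ⟨_, rfl⟩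
  have hV0 : 0 ≤ V := by rw [hV]; positivity
  have hU0 : 0 ≤ U := by rw [hU]; positivity
  have hi : 1 / κ ≤ 1 := by rw [div_le_one hκ0]; exact hκ
  have hia : 1 / κa ≤ 4 / κ := by
    rw [div_le_div_iff₀ hκa0 hκ0]
    linarith
  have hia2 : 1 / κa ^ 2 ≤ 16 / κ ^ 2 := by
    have := pow_le_pow_left₀ (by positivity) hia 2
    have e1 : (1 / κa) ^ 2 = 1 / κa ^ 2 := by ring
    have e2 : (4 / κ) ^ 2 = 16 / κ ^ 2 := by ring
    rwa [e1, e2] at this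
  have d1 : Δ / κ ^ 2 ≤ V := by
    rw [hV]
    refine div_le_div_of_nonneg_right ?_ (by positivity)
    nlinarith
  have b1 : Δa * Sa / κa ^ 2 ≤ 16 * (1 + 2 * K) * ((1 / 2 + K) * V + K * E * U) := by
    have e1 : Δa ≤ (1 / 2 + K) * Δ + K * l / κ := by
      refine hΔa.trans ?_
      have : K * ((Δ + l) / κ) = K * Δ * (1 / κ) + K * l / κ := by ring
      rw [this]
      have : K * Δ * (1 / κ) ≤ K * Δ * 1 := mul_le_mul_of_nonneg_left hi (by positivity)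
      linarith
    have e0 : 0 ≤ (1 / 2 + K) * Δ + K * l / κ := by positivity
    calc Δa * Sa / κa ^ 2 = Δa * Sa * (1 / κa ^ 2) := by ring
      _ ≤ ((1 / 2 + K) * Δ + K * l / κ) * ((1 + 2 * K) * S) * (16 / κ ^ 2) :=
          mul_le_mul (mul_le_mul e1 hSa hSa0 e0) hia2 (by positivity) (by positivity)
      _ = 16 * (1 + 2 * K) * ((1 / 2 + K) * (Δ * S / κ ^ 2) + K * (l / κ) * (S / κ ^ 2)) := by
          ring
      _ ≤ 16 * (1 + 2 * K) * ((1 / 2 + K) * V + K * E * U) := by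
          refine mul_le_mul_of_nonneg_left ?_ (by positivity)
          rw [← hV, ← hU]
          have e2 : S / κ ^ 2 ≤ E := by
            rw [div_le_iff₀ (by positivity)]
            have : E * κ * 1 ≤ E * κ * κ := mul_le_mul_of_nonneg_left hκ (by positivity)
            nlinarith
          have e3 : K * U * (S / κ ^ 2) ≤ K * U * E := mul_le_mul_of_nonneg_left e2 (by positivity)
          linarith
  have b2 : la / κa ≤ 4 * ((1 / 8 + K) * U + K * V) := by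
    calc la / κa = la * (1 / κa) := by ring
      _ ≤ (l / 8 + K * ((Δ + l) / κ)) * (4 / κ) :=
          mul_le_mul hla hia (by positivity) (by positivity)
      _ = 4 * (1 / 8 * (l / κ) + K * (Δ / κ ^ 2) + K * (l / κ) * (1 / κ)) := by
          ring
      _ ≤ _ := by
          rw [← hU]
          have e1 : K * (Δ / κ ^ 2) ≤ K * V := mul_le_mul_of_nonneg_left d1 hK
          have e2 : K * U * (1 / κ) ≤ K * U * 1 := mul_le_mul_of_nonneg_left hi (by positivity)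
          linarith
  rw [← hV, ← hU] at h1 ⊢
  refine (abs_add_le _ _).trans ?_
  rw [abs_mul, abs_mul, abs_two, abs_of_pos (by norm_num : (0 : ℝ) < 4)]
  have h3 : |δ₂| ≤ K * (16 * (1 + 2 * K) * ((1 / 2 + K) * V + K * E * U) +
      4 * ((1 / 8 + K) * U + K * V)) :=
    h2.trans (mul_le_mul_of_nonneg_left (add_le_add b1 b2) hK)
  have e : KS K E * (V + U) = 4 * (K * (16 * (1 + 2 * K) * ((1 / 2 + K) * V + K * E * U) +
      4 * ((1 / 8 + K) * U + K * V))) + 2 * (K * (V + U)) +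
      4 * K * (16 * (1 + 2 * K) * ((1 / 2 + K) * U) + 16 * (1 + 2 * K) * (K * E * V) +
        4 * (1 / 8 * V + K * V + K * U)) := by
    unfold KS
    ring
  rw [e]
  have h4 : 0 ≤ 4 * K * (16 * (1 + 2 * K) * ((1 / 2 + K) * U) + 16 * (1 + 2 * K) * (K * E * V) +
        4 * (1 / 8 * V + K * V + K * U)) := by positivity
  linarith

variable {N n : ℕ} {G : Subgroup (UN N)} {B : Frame G n}
variable [CompactSpace G] [MeasurableSpace G] [BorelSpace G]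

variable (B) in
/-- the sharp law of the couplings of a pair under one convolution square -/
def KLip (μ : Measure G) : Prop :=
  ∃ r₁ ε₁ ε₂ : ℝ, 0 < r₁ ∧ 0 < ε₁ ∧ 0 < ε₂ ∧ ∀ ε : ℝ, 0 < ε → ε ≤ ε₁ → ∀ r : ℝ, 0 < r → r ≤ r₁ →
    ∃ k₀ K : ℝ, 1 ≤ k₀ ∧ 0 ≤ K ∧ ∀ {k₁ k₂ M₁ M₂ l : ℝ} {f₁ f₂ : G → ℝ}
      {F₁ F₂ : (Mat N)ˣ → ℂ} {m₁ m₂ : (Fin n → ℂ) → ℂ}, k₀ ≤ k₁ → k₀ ≤ k₂ →
      PS B r ε k₁ k₂ M₁ M₂ l f₁ f₂ F₁ F₂ m₁ m₂ → TubeS B r k₁ F₁ →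
      |k₂ - k₁| + 2 * l * r ^ 2 ≤ ε₂ * min k₁ k₂ →
      ∀ {k₁' k₂' M₁' M₂' : ℝ} {m₁' m₂' : (Fin n → ℂ) → ℂ},
      St B r k₁' M₁' (convC μ F₁ F₁) m₁' → St B r k₂' M₂' (convC μ F₂ F₂) m₂' →
      |(k₂' - k₁') - (k₂ - k₁) / 2| ≤
        K * (|k₂ - k₁| * (1 + M₁ + M₂) / min k₁ k₂ ^ 2 + l / min k₁ k₂)

variable (B) in
/-- **the convolution square of a pair**, with the sharp law of the couplings -/
theorem pair_conv3 (μ : Measure G) [IsProbabilityMeasure μ] [μ.IsMulLeftInvariant]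
    [μ.IsMulRightInvariant] [μ.IsInvInvariant] (hG : IsClosed (G : Set (UN N))) (hI : IsoG B)
    (hn : 0 < n) {cA : ℝ}
    (hcA : ∀ x : Fin n → ℝ, ∑ a, ‖LX B x * B.X a - B.X a * LX B x‖ ^ 2 = cA * nE x ^ 2)
    (hKL : KLip B μ) :
    ∃ r₁ ε₁ ε₂ : ℝ, 0 < r₁ ∧ r₁ ≤ 1 ∧ 0 < ε₁ ∧ 0 < ε₂ ∧ ε₂ ≤ 1 / 10000 ∧
      ∀ ε : ℝ, 0 < ε → ε ≤ ε₁ → ∀ r : ℝ, 0 < r → r ≤ r₁ →
      ∃ k₀ K : ℝ, 1 ≤ k₀ ∧ 0 ≤ K ∧ ∀ {k₁ k₂ M₁ M₂ l : ℝ} {f₁ f₂ : G → ℝ}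
        {F₁ F₂ : (Mat N)ˣ → ℂ} {m₁ m₂ : (Fin n → ℂ) → ℂ}, k₀ ≤ k₁ → k₀ ≤ k₂ →
        PS B r ε k₁ k₂ M₁ M₂ l f₁ f₂ F₁ F₂ m₁ m₂ → TubeS B r k₁ F₁ →
        |k₂ - k₁| + 2 * l * r ^ 2 ≤ ε₂ * min k₁ k₂ →
        ∃ (k₁' k₂' M₁' M₂' : ℝ) (m₁' m₂' : (Fin n → ℂ) → ℂ) (F₁' F₂' : (Mat N)ˣ → ℂ)
          (W₁ W₂ : ℝ), 0 < W₁ ∧ 0 < W₂ ∧
          PS B r ε k₁' k₂' M₁' M₂' (l / 8 + K * (|k₂ - k₁| + l) / min k₁ k₂)
            (fun x => W₁⁻¹ * conv μ f₁ f₁ x) (fun x => W₂⁻¹ * conv μ f₂ f₂ x) F₁' F₂' m₁' m₂' ∧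
          |k₁' - k₁ / 2| ≤ K ∧ |k₂' - k₂ / 2| ≤ K ∧
          |(k₂' - k₁') - (k₂ - k₁) / 2| ≤ K * (|k₂ - k₁| + l) / min k₁ k₂ ∧
          M₁' ≤ M₁ / 8 + K ∧ M₂' ≤ M₂ / 8 + K ∧ TubeS B r k₁' F₁' ∧
          |(k₂' - k₁') - (k₂ - k₁) / 2| ≤
            K * (|k₂ - k₁| * (1 + M₁ + M₂) / min k₁ k₂ ^ 2 + l / min k₁ k₂) := by
  obtain ⟨ra, εa, hra, hεa, -, hstep⟩ := step_D (B := B) μ hG hI hn hcA
  obtain ⟨rb, εb, ε₂, hrb, hrb1, hεb, -, hε₂, hε₂1, hpair⟩ := pair_D (B := B) μ hG hI hn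
  obtain ⟨rc, εc, ε₃, hrc, hεc, hε₃, hlip⟩ := hKL
  refine ⟨min (min ra rb) rc, min (min εa εb) (min εc (1 / 1000)), min ε₂ ε₃,
    lt_min (lt_min hra hrb) hrc, (min_le_left _ _).trans ((min_le_right _ _).trans hrb1),
    lt_min (lt_min hεa hεb) (lt_min hεc (by norm_num)), lt_min hε₂ hε₃,
    (min_le_left _ _).trans hε₂1, fun ε hε hεε' r hr hrr' => ?_⟩
  have hεε : ε ≤ min εa εb := hεε'.trans (min_le_left _ _)
  have hεεc : ε ≤ εc := hεε'.trans ((min_le_right _ _).trans (min_le_left _ _))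
  have hε1000 : ε ≤ 1 / 1000 := hεε'.trans ((min_le_right _ _).trans (min_le_right _ _))
  have hrr : r ≤ min ra rb := hrr'.trans (min_le_left _ _)
  obtain ⟨hgr, ka, Ka, hka, hKa, hstep⟩ := hstep ε hε (hεε.trans (min_le_left _ _)) r hr
    (hrr.trans (min_le_left _ _))
  obtain ⟨-, kb, Kb, hkb, hKb, hpair⟩ := hpair ε hε (hεε.trans (min_le_right _ _)) r hr
    (hrr.trans (min_le_right _ _))
  obtain ⟨kc, Kc, hkc, hKc, hlip⟩ := hlip ε hε hεεc r hr (hrr'.trans (min_le_right _ _))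
  obtain ⟨kT, hkT, hTS⟩ := tubeS_conv (B := B) hG μ hgr Ka hKa
  refine ⟨max (max ka kb) (max kc kT), max (max Ka Kb) Kc,
    hka.trans ((le_max_left _ _).trans (le_max_left _ _)),
    hKa.trans ((le_max_left _ _).trans (le_max_left _ _)),
    fun {k₁ k₂ M₁ M₂ l f₁ f₂ F₁ F₂ m₁ m₂} hk1' hk2' P hTS₁ hd' => ?_⟩
  have hk1 : max ka kb ≤ k₁ := (le_max_left _ _).trans hk1'
  have hk2 : max ka kb ≤ k₂ := (le_max_left _ _).trans hk2'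
  have hk1c : kc ≤ k₁ := ((le_max_left _ _).trans (le_max_right _ _)).trans hk1'
  have hk2c : kc ≤ k₂ := ((le_max_left _ _).trans (le_max_right _ _)).trans hk2'
  have hk1T : kT ≤ k₁ := ((le_max_right _ _).trans (le_max_right _ _)).trans hk1'
  have hmin0 : 0 ≤ min k₁ k₂ := by
    have := hka.trans ((le_max_left _ _).trans hk1)
    have := hka.trans ((le_max_left _ _).trans hk2)
    exact le_min (by linarith) (by linarith)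
  have hd : |k₂ - k₁| + 2 * l * r ^ 2 ≤ ε₂ * min k₁ k₂ :=
    hd'.trans (mul_le_mul_of_nonneg_right (min_le_left _ _) hmin0)
  have hd3 : |k₂ - k₁| + 2 * l * r ^ 2 ≤ ε₃ * min k₁ k₂ :=
    hd'.trans (mul_le_mul_of_nonneg_right (min_le_right _ _) hmin0)
  obtain ⟨k₁', M₁', m₁', -, a2, a3, a4, a5, a6, a7⟩ := hstep ((le_max_left _ _).trans hk1) P.N1.M0
    P.N1.Ml P.N1.cf P.N1.pos P.N1.st P.N1.tb
  obtain ⟨k₂', M₂', m₂', -, b2, b3, b4, b5, b6, b7⟩ := hstep ((le_max_left _ _).trans hk2) P.N2.M0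
    P.N2.Ml P.N2.cf P.N2.pos P.N2.st P.N2.tb
  obtain ⟨p1, p2, p3⟩ := hpair ((le_max_right _ _).trans hk1) ((le_max_right _ _).trans hk2)
    P.N1 P.N2 P.D hd a6 b6
  have p4 := hlip hk1c hk2c P hTS₁ hd3 a6 b6
  obtain ⟨κ, hκ⟩ : ∃ κ, κ = min k₁ k₂ := ⟨_, rfl⟩
  have hκ1 : 1 ≤ κ := by
    rw [hκ]; exact (hka.trans (le_max_left _ _)).trans (le_min hk1 hk2)
  have hκ0 : 0 < κ := by linarith
  rw [← hκ] at p1 p2 p3 p4 ⊢
  have hl := P.D.l0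
  have hX0 : 0 ≤ (|k₂ - k₁| + l) / κ := by positivity
  have hKK : ∀ c : ℝ, c * (|k₂ - k₁| + l) / κ = c * ((|k₂ - k₁| + l) / κ) := fun c => by
    rw [mul_div_assoc]
  have hmono : Kb * (|k₂ - k₁| + l) / κ ≤ max (max Ka Kb) Kc * (|k₂ - k₁| + l) / κ := by
    rw [hKK, hKK]
    exact mul_le_mul_of_nonneg_right ((le_max_right _ _).trans (le_max_left _ _)) hX0
  have hKaK : Ka ≤ max (max Ka Kb) Kc := (le_max_left _ _).trans (le_max_left _ _)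
  obtain ⟨W₁, hW₁⟩ : ∃ W : ℝ, W = ∫ z : G, (f₁ z) ^ 2 ∂μ := ⟨_, rfl⟩
  obtain ⟨W₂, hW₂⟩ : ∃ W : ℝ, W = ∫ z : G, (f₂ z) ^ 2 ∂μ := ⟨_, rfl⟩
  rw [← hW₁, ← hW₂] at p3
  have hWpos : ∀ {f : G → ℝ}, Continuous f → (∀ x, 0 < f x) → 0 < ∫ z : G, (f z) ^ 2 ∂μ := by
    intro f hfc hpos
    refine (integral_pos_iff_support_of_nonneg (fun z => sq_nonneg _)
      (intgR (μ := μ) (hfc.pow 2))).2 ?_
    have : Function.support (fun z : G => (f z) ^ 2) = Set.univ := by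
      ext z
      simp only [Function.mem_support, Set.mem_univ, iff_true]
      exact pow_ne_zero 2 (hpos z).ne'
    rw [this, measure_univ]
    exact one_pos
  have q1 : 0 < W₁ := by rw [hW₁]; exact hWpos P.N1.cf.cont P.N1.pos
  have q2 : 0 < W₂ := by rw [hW₂]; exact hWpos P.N2.cf.cont P.N2.pos
  have mk : ∀ {k M W : ℝ} {f : G → ℝ} {F : (Mat N)ˣ → ℂ} {m : (Fin n → ℂ) → ℂ}, 0 < W →
      W = ∫ z : G, (f z) ^ 2 ∂μ → CF f F → (∀ x, 0 < f x) → 0 ≤ M → M * r ^ 2 ≤ ε * k →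
      St B r k M (convC μ F F) m → Tube B r k (convC μ F F) →
      NS B r ε k M (fun x => W⁻¹ * conv μ f f x)
        (fun u => ((W⁻¹ : ℝ) : ℂ) * convC μ F F u) m := by
    intro k M W f F m hW hWe hf hpos hM hMl hs ht
    refine ⟨cf_smul (hf.convC hf) _, fun x => ?_, ?_, st_smul hs _, tube_smul ht _, hM, hMl⟩
    · exact mul_pos (inv_pos.2 hW) (conv_pos hf.cont hf.cont hpos hpos x)
    · beta_reduce
      rw [conv_one (B := B) (hG := hG) hf, ← hWe, ← Complex.ofReal_mul,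
        inv_mul_cancel₀ hW.ne', Complex.ofReal_one]
  refine ⟨k₁', k₂', M₁', M₂', m₁', m₂', fun u => ((W₁⁻¹ : ℝ) : ℂ) * convC μ F₁ F₁ u,
    fun u => ((W₂⁻¹ : ℝ) : ℂ) * convC μ F₂ F₂ u, W₁, W₂, q1, q2, ⟨mk q1 hW₁ P.N1.cf P.N1.pos a3 a5
    a6 a7, mk q2 hW₂ P.N2.cf P.N2.pos b3 b5 b6 b7, ⟨by positivity, fun x hx => ?_,
    fun a y ha hay => ?_⟩⟩, a2.trans hKaK, b2.trans hKaK,
    p1.trans hmono, by linarith, by linarith, (hTS hk1T a2 ?_ P.N1.cf P.N1.st.nearS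
      P.N1.tb).smul _, p4.trans (mul_le_mul_of_nonneg_right (le_max_right _ _) ?_)⟩
  · refine (p2 x hx).trans (mul_le_mul_of_nonneg_right (by linarith) ?_)
    have := nC_nonneg x
    positivity
  · have h1 := p3 a y ha hay
    have e : ∀ (A : ℂ) (W : ℝ), ((W⁻¹ : ℝ) : ℂ) * A = A / (W : ℂ) := fun A W => by
      push_cast; rw [inv_mul_eq_div]
    beta_reduce
    rw [e, e]
    refine h1.trans (mul_le_mul_of_nonneg_right ?_ (Real.exp_pos _).le)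
    linarith
  · have h1 := P.N1.Ml
    have h2 : 0 < k₁ := by linarith [hka.trans ((le_max_left _ _).trans hk1)]
    have h3 : ε * k₁ ≤ 1 / 1000 * k₁ := mul_le_mul_of_nonneg_right hε1000 h2.le
    linarith
  · have h1 := P.N1.M0
    have h2 := P.N2.M0
    positivity

variable (B) in
/-- **the renormalisation group step for pairs**, with the sharp law of the couplings -/
theorem pair_R3 (μ : Measure G) [IsProbabilityMeasure μ] [μ.IsMulLeftInvariant]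
    [μ.IsMulRightInvariant] [μ.IsInvInvariant] (hG : IsClosed (G : Set (UN N))) (hI : IsoG B)
    (hn : 0 < n) {cA : ℝ}
    (hcA : ∀ x : Fin n → ℝ, ∑ a, ‖LX B x * B.X a - B.X a * LX B x‖ ^ 2 = cA * nE x ^ 2)
    (hKL : KLip B μ) :
    ∃ r₁ ε₁ ε₂ : ℝ, 0 < r₁ ∧ r₁ ≤ 1 ∧ 0 < ε₁ ∧ 0 < ε₂ ∧ ε₂ ≤ 1 / 20000 ∧
      ∀ ε : ℝ, 0 < ε → ε ≤ ε₁ → ∀ r : ℝ, 0 < r → r ≤ r₁ →
      ∃ k₀ K : ℝ, 1 ≤ k₀ ∧ 0 ≤ K ∧ ∀ {k₁ k₂ M₁ M₂ l : ℝ} {f₁ f₂ : G → ℝ}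
        {F₁ F₂ : (Mat N)ˣ → ℂ} {m₁ m₂ : (Fin n → ℂ) → ℂ}, k₀ ≤ k₁ → k₀ ≤ k₂ →
        PS B r ε k₁ k₂ M₁ M₂ l f₁ f₂ F₁ F₂ m₁ m₂ → TubeS B r k₁ F₁ →
        |k₂ - k₁| ≤ ε₂ * min k₁ k₂ → 2 * l * r ^ 2 ≤ ε₂ * min k₁ k₂ →
        ∃ (k₁' k₂' M₁' M₂' l' : ℝ) (m₁' m₂' : (Fin n → ℂ) → ℂ) (F₁' F₂' : (Mat N)ˣ → ℂ)
          (a₁ a₂ : ℝ) (g₁ g₂ : G → ℝ), 0 < a₁ ∧ 0 < a₂ ∧
          Rst μ f₁ = (fun x => a₁ * g₁ x) ∧ Rst μ f₂ = (fun x => a₂ * g₂ x) ∧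
          PS B r ε k₁' k₂' M₁' M₂' l' g₁ g₂ F₁' F₂' m₁' m₂' ∧
          l' ≤ l / 4 + K * |k₂ - k₁| / min k₁ k₂ ∧ 2 * l' * r ^ 2 ≤ ε₂ * min k₁' k₂' ∧
          |(k₂' - k₁') - (k₂ - k₁)| ≤ K * (|k₂ - k₁| + l) / min k₁ k₂ ∧
          |k₁' - k₁| ≤ K ∧ |k₂' - k₂| ≤ K ∧
          M₁' ≤ M₁ + K ∧ M₂' ≤ M₂ + K ∧
          |(k₂' - k₁') - (k₂ - k₁)| ≤
            K * (|k₂ - k₁| * (1 + M₁ + M₂) / min k₁ k₂ ^ 2 + l / min k₁ k₂) := by
  obtain ⟨r₁, ε₁, ε₂, hr₁, hr₁1, hε₁, hε₂, hε₂1, hD⟩ := pair_conv3 B μ hG hI hn hcA hKL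
  refine ⟨r₁, ε₁, ε₂ / 4, hr₁, hr₁1, hε₁, by positivity, by linarith, fun ε hε hεε r hr hrr => ?_⟩
  obtain ⟨k₀, K, hk₀, hK, hD⟩ := hD ε hε hεε r hr hrr
  have hr1 : r ≤ 1 := hrr.trans hr₁1
  have hr2 : 0 < r ^ 2 := by positivity
  have hr21 : r ^ 2 ≤ 1 := pow_le_one₀ hr.le hr1
  obtain ⟨K', hK'⟩ : ∃ K' : ℝ, K' = 2 * K + 4 * K * (2 + 8 * K) := ⟨_, rfl⟩
  have hK'0 : 0 ≤ K' := by rw [hK']; positivity
  obtain ⟨K3, hK3⟩ : ∃ K3 : ℝ, K3 = KS K (1 + 4 * ε / r ^ 2) := ⟨_, rfl⟩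
  have hK30 : 0 ≤ K3 := by rw [hK3]; unfold KS; positivity
  refine ⟨max (max (4 * k₀) (24 * K / r ^ 2)) (max (24 * K) (16 * K')), K3 + K' + 8 * K,
    le_trans (by linarith) ((le_max_left _ _).trans (le_max_left _ _)), by linarith,
    fun {k₁ k₂ M₁ M₂ l f₁ f₂ F₁ F₂ m₁ m₂} hk1 hk2 P hTS hd hlr => ?_⟩
  obtain ⟨κ, hκ⟩ : ∃ κ, κ = min k₁ k₂ := ⟨_, rfl⟩
  have hkκ := le_min hk1 hk2
  rw [← hκ] at hkκ hd hlr ⊢
  have c1 : κ ≤ k₁ := by rw [hκ]; exact min_le_left _ _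
  have c2 : κ ≤ k₂ := by rw [hκ]; exact min_le_right _ _
  have l1 : 4 * k₀ ≤ κ := ((le_max_left _ _).trans (le_max_left _ _)).trans hkκ
  have l2 : 24 * K / r ^ 2 ≤ κ := ((le_max_right _ _).trans (le_max_left _ _)).trans hkκ
  have l3 : 24 * K ≤ κ := ((le_max_left _ _).trans (le_max_right _ _)).trans hkκ
  have l4 : 16 * K' ≤ κ := ((le_max_right _ _).trans (le_max_right _ _)).trans hkκ
  have hκ1 : 1 ≤ κ := by linarith
  have hκ0 : 0 < κ := by linarith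
  have hl := P.D.l0
  have habs := abs_nonneg (k₂ - k₁)
  have hεκ : 0 < ε₂ * κ := by positivity
  have hd1 : |k₂ - k₁| + 2 * l * r ^ 2 ≤ ε₂ * min k₁ k₂ := by
    rw [← hκ]; linarith
  obtain ⟨ka₁, ka₂, Ma₁, Ma₂, ma₁, ma₂, Fa₁, Fa₂, W₁, W₂, hW₁, hW₂, Pa, a1, a2, a3,
      a4, a5, a6, a7⟩ :=
    hD (by linarith : k₀ ≤ k₁) (by linarith : k₀ ≤ k₂) P hTS hd1
  rw [← hκ] at a3 a7 Pa
  obtain ⟨X, hX⟩ : ∃ X, X = (|k₂ - k₁| + l) / κ := ⟨_, rfl⟩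
  have hX0 : 0 ≤ X := by rw [hX]; positivity
  have hXκ : X * κ = |k₂ - k₁| + l := by rw [hX]; field_simp
  have eX : K * (|k₂ - k₁| + l) / κ = K * X := by rw [hX, mul_div_assoc]
  rw [eX] at a3 Pa
  have hKX0 : 0 ≤ K * X := by positivity
  -- K X is small
  have hKX : 3 * (K * X) ≤ ε₂ * κ / 16 := by
    have h1 : 24 * K ≤ κ * r ^ 2 := by rwa [div_le_iff₀ hr2] at l2
    have h2 : l * r ^ 2 ≤ ε₂ * κ / 8 := by linarith
    have h3 : (|k₂ - k₁| + l) * r ^ 2 ≤ 3 / 8 * (ε₂ * κ) := by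
      have h4 : |k₂ - k₁| * r ^ 2 ≤ |k₂ - k₁| * 1 := mul_le_mul_of_nonneg_left hr21 habs
      have h5 : (|k₂ - k₁| + l) * r ^ 2 = |k₂ - k₁| * r ^ 2 + l * r ^ 2 := by ring
      linarith
    have h4 : 24 * (K * X) * (κ * r ^ 2) ≤ 3 / 8 * (ε₂ * κ) * (κ * r ^ 2) := by
      calc 24 * (K * X) * (κ * r ^ 2) = 24 * K * ((X * κ) * r ^ 2) := by ring
        _ = 24 * K * ((|k₂ - k₁| + l) * r ^ 2) := by rw [hXκ]
        _ ≤ κ * r ^ 2 * (3 / 8 * (ε₂ * κ)) := mul_le_mul h1 h3 (by positivity) (by positivity)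
        _ = _ := by ring
    have h5 : 24 * (K * X) ≤ 3 / 8 * (ε₂ * κ) := le_of_mul_le_mul_right h4 (by positivity)
    linarith
  have a1' := abs_le.1 a1
  have a2' := abs_le.1 a2
  obtain ⟨κa, hκa⟩ : ∃ κa, κa = min ka₁ ka₂ := ⟨_, rfl⟩
  have hκa1 : κ / 4 ≤ κa := by
    rw [hκa]; exact le_min (by linarith [a1'.1]) (by linarith [a2'.1])
  have hκa2 : κ / 2 - K ≤ κa := by
    rw [hκa]; exact le_min (by linarith [a1'.1]) (by linarith [a2'.1])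
  have hka₁ : κa ≤ ka₁ := by rw [hκa]; exact min_le_left _ _
  have hka₂ : κa ≤ ka₂ := by rw [hκa]; exact min_le_right _ _
  have hκa0 : 0 < κa := by linarith
  have hda : |ka₂ - ka₁| ≤ |k₂ - k₁| / 2 + K * X := by
    have h1 : ka₂ - ka₁ = ((ka₂ - ka₁) - (k₂ - k₁) / 2) + (k₂ - k₁) / 2 := by ring
    rw [h1]
    refine (abs_add_le _ _).trans ?_
    rw [abs_div, abs_two]
    linarith
  obtain ⟨la, hla⟩ : ∃ la, la = l / 8 + K * X := ⟨_, rfl⟩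
  rw [← hla] at Pa
  have hla0 : 0 ≤ la := by rw [hla]; positivity
  have hd2 : |ka₂ - ka₁| + 2 * la * r ^ 2 ≤ ε₂ * min ka₁ ka₂ := by
    rw [← hκa]
    have h1 : 2 * la * r ^ 2 ≤ 2 * l * r ^ 2 / 8 + 2 * (K * X) := by
      rw [hla]
      have h2 : K * X * r ^ 2 ≤ K * X * 1 := mul_le_mul_of_nonneg_left hr21 hKX0
      calc 2 * (l / 8 + K * X) * r ^ 2 = 2 * l * r ^ 2 / 8 + 2 * (K * X * r ^ 2) := by ring
        _ ≤ _ := by linarith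
    have h2 : ε₂ * (κ / 4) ≤ ε₂ * κa := mul_le_mul_of_nonneg_left hκa1 hε₂.le
    have h3 : ε₂ * (κ / 4) = ε₂ * κ / 4 := by ring
    linarith
  obtain ⟨kb₁, kb₂, Mb₁, Mb₂, mb₁, mb₂, Fb₁, Fb₂, V₁, V₂, hV₁, hV₂, Pb, b1, b2, b3,
      b4, b5, b6, b7⟩ :=
    hD (by linarith : k₀ ≤ ka₁) (by linarith : k₀ ≤ ka₂) Pa a6 hd2
  rw [← hκa] at b3 b7 Pb
  obtain ⟨Xa, hXa⟩ : ∃ Xa, Xa = (|ka₂ - ka₁| + la) / κa := ⟨_, rfl⟩
  have hXa0 : 0 ≤ Xa := by rw [hXa]; positivity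
  have eXa : K * (|ka₂ - ka₁| + la) / κa = K * Xa := by rw [hXa, mul_div_assoc]
  rw [eXa] at b3 Pb
  have hXaX : Xa ≤ (2 + 8 * K) * X := by
    rw [hXa, div_le_iff₀ hκa0]
    have h1 : |ka₂ - ka₁| + la ≤ (|k₂ - k₁| + l) / 2 + 2 * (K * X) := by
      rw [hla]; linarith
    have h2 : (2 + 8 * K) * X * (κ / 4) ≤ (2 + 8 * K) * X * κa :=
      mul_le_mul_of_nonneg_left hκa1 (by positivity)
    have h3 : (2 + 8 * K) * X * (κ / 4) = (X * κ) / 2 + 2 * (K * X) * κ := by ring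
    have h4 : 2 * (K * X) * 1 ≤ 2 * (K * X) * κ := mul_le_mul_of_nonneg_left hκ1 (by positivity)
    rw [h3, hXκ] at h2
    linarith
  have b1' := abs_le.1 b1
  have b2' := abs_le.1 b2
  have Pc := Pb.pow4 hr
  obtain ⟨lc, hlc⟩ : ∃ lc, lc = 4 * (la / 8 + K * Xa) := ⟨_, rfl⟩
  rw [← hlc] at Pc
  have hlc1 : lc ≤ l / 16 + K' * X := by
    rw [hlc, hla, hK']
    have h1 : K * Xa ≤ K * ((2 + 8 * K) * X) := mul_le_mul_of_nonneg_left hXaX hK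
    calc 4 * ((l / 8 + K * X) / 8 + K * Xa) ≤ 4 * ((l / 8 + K * X) / 8 + K * ((2 + 8 * K) * X)) := by
          linarith
      _ = l / 16 + (K / 2 + 4 * K * (2 + 8 * K)) * X := by ring
      _ ≤ _ := by
          have : 0 ≤ K * X := hKX0
          linarith
  have hK'X : K' * X = K' * |k₂ - k₁| / κ + K' / κ * l := by
    rw [hX]; ring
  have hK'κ : K' / κ ≤ 1 / 16 := by
    rw [div_le_iff₀ hκ0]; linarith
  have hK'l : K' / κ * l ≤ 1 / 16 * l := mul_le_mul_of_nonneg_right hK'κ hl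
  have hlc2 : lc ≤ l / 4 + K' * |k₂ - k₁| / κ := by linarith
  have hK'3 : K' * |k₂ - k₁| / κ ≤ (K3 + K' + 8 * K) * |k₂ - k₁| / κ := by
    refine div_le_div_of_nonneg_right (mul_le_mul_of_nonneg_right ?_ habs) hκ0.le
    linarith
  refine ⟨4 * kb₁, 4 * kb₂, 4 * Mb₁, 4 * Mb₂, lc, _, _, _, _, (W₁ ^ 2 * V₁) ^ 4,
    (W₂ ^ 2 * V₂) ^ 4, _, _, by positivity, by positivity, ?_, ?_, Pc, by linarith, ?_, ?_, ?_, ?_,
    ?_, ?_, ?_⟩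
  · funext x
    have h1 : ∀ x, conv μ f₁ f₁ x = W₁ * (W₁⁻¹ * conv μ f₁ f₁ x) := fun x => by
      rw [mul_inv_cancel_left₀ hW₁.ne']
    have h2 : conv μ (conv μ f₁ f₁) (conv μ f₁ f₁) x = W₁ ^ 2 *
        conv μ (fun x => W₁⁻¹ * conv μ f₁ f₁ x) (fun x => W₁⁻¹ * conv μ f₁ f₁ x) x := by
      unfold Pool.Agent.N991.MK.conv
      rw [← integral_const_mul]
      refine integral_congr_ae (Eventually.of_forall fun y => ?_)
      beta_reduce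
      field_simp
    unfold Rst
    rw [h2, ← mul_pow]
    congr 1
    field_simp
  · funext x
    have h2 : conv μ (conv μ f₂ f₂) (conv μ f₂ f₂) x = W₂ ^ 2 *
        conv μ (fun x => W₂⁻¹ * conv μ f₂ f₂ x) (fun x => W₂⁻¹ * conv μ f₂ f₂ x) x := by
      unfold Pool.Agent.N991.MK.conv
      rw [← integral_const_mul]
      refine integral_congr_ae (Eventually.of_forall fun y => ?_)
      beta_reduce
      field_simp
    unfold Rst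
    rw [h2, ← mul_pow]
    congr 1
    field_simp
  · have e : min (4 * kb₁) (4 * kb₂) = 4 * min kb₁ kb₂ :=
      (mul_min_of_nonneg _ _ (by norm_num : (0 : ℝ) ≤ 4)).symm
    rw [e]
    have h1 : κ / 8 ≤ min kb₁ kb₂ := le_min (by linarith [b1'.1]) (by linarith [b2'.1])
    have h2 : 2 * lc * r ^ 2 ≤ 2 * l * r ^ 2 / 4 + 2 * (K' * |k₂ - k₁| / κ) := by
      have h3 : 0 ≤ K' * |k₂ - k₁| / κ := by positivity
      have h4 : K' * |k₂ - k₁| / κ * r ^ 2 ≤ K' * |k₂ - k₁| / κ * 1 :=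
        mul_le_mul_of_nonneg_left hr21 h3
      calc 2 * lc * r ^ 2 ≤ 2 * (l / 4 + K' * |k₂ - k₁| / κ) * r ^ 2 := by gcongr
        _ = 2 * l * r ^ 2 / 4 + 2 * (K' * |k₂ - k₁| / κ * r ^ 2) := by ring
        _ ≤ _ := by linarith
    have h3 : K' * |k₂ - k₁| / κ ≤ 1 / 16 * (ε₂ / 4 * κ) := by
      calc K' * |k₂ - k₁| / κ = K' / κ * |k₂ - k₁| := by ring
        _ ≤ 1 / 16 * (ε₂ / 4 * κ) := mul_le_mul hK'κ hd habs (by norm_num)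
    have h4 : ε₂ / 4 * (4 * (κ / 8)) ≤ ε₂ / 4 * (4 * min kb₁ kb₂) :=
      mul_le_mul_of_nonneg_left (by linarith) (by positivity)
    linarith
  · have e : 4 * kb₂ - 4 * kb₁ - (k₂ - k₁) = 4 * ((kb₂ - kb₁) - (ka₂ - ka₁) / 2) +
        2 * ((ka₂ - ka₁) - (k₂ - k₁) / 2) := by ring
    rw [e, mul_div_assoc, ← hX]
    refine (abs_add_le _ _).trans ?_
    rw [abs_mul, abs_mul, abs_two, abs_of_pos (by norm_num : (0 : ℝ) < 4)]
    have h1 : K * Xa ≤ K * ((2 + 8 * K) * X) := mul_le_mul_of_nonneg_left hXaX hK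
    calc _ ≤ 4 * (K * ((2 + 8 * K) * X)) + 2 * (K * X) := by linarith
      _ = K' * X := by rw [hK']; ring
      _ ≤ _ := mul_le_mul_of_nonneg_right (by linarith) hX0
  · have e : 4 * kb₁ - k₁ = 4 * (kb₁ - ka₁ / 2) + 2 * (ka₁ - k₁ / 2) := by ring
    rw [e]
    refine (abs_add_le _ _).trans ?_
    rw [abs_mul, abs_mul, abs_two, abs_of_pos (by norm_num : (0 : ℝ) < 4)]
    linarith
  · have e : 4 * kb₂ - k₂ = 4 * (kb₂ - ka₂ / 2) + 2 * (ka₂ - k₂ / 2) := by ring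
    rw [e]
    refine (abs_add_le _ _).trans ?_
    rw [abs_mul, abs_mul, abs_two, abs_of_pos (by norm_num : (0 : ℝ) < 4)]
    linarith
  · have := P.N1.M0
    linarith
  · have := P.N2.M0
    linarith
  · have e : 4 * kb₂ - 4 * kb₁ - (k₂ - k₁) = 4 * ((kb₂ - kb₁) - (ka₂ - ka₁) / 2) +
        2 * ((ka₂ - ka₁) - (k₂ - k₁) / 2) := by ring
    have hM1 := P.N1.M0
    have hM2 := P.N2.M0
    have hMa1 := Pa.N1.M0
    have hMa2 := Pa.N2.M0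
    have hV0 : 0 ≤ |k₂ - k₁| * (1 + M₁ + M₂) / κ ^ 2 + l / κ := by positivity
    have hS : 1 + M₁ + M₂ ≤ (1 + 4 * ε / r ^ 2) * κ := by
      have h1 := P.N1.Ml
      have h2 := P.N2.Ml
      have hd' := abs_le.1 hd
      have hε2κ : ε₂ / 4 * κ ≤ 1 * κ := mul_le_mul_of_nonneg_right (by linarith) hκ0.le
      have h3 : k₁ ≤ 2 * κ := by
        rcases le_total k₁ k₂ with h | h
        · have : κ = k₁ := by rw [hκ]; exact min_eq_left h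
          linarith
        · have : κ = k₂ := by rw [hκ]; exact min_eq_right h
          linarith [hd'.1]
      have h4 : k₂ ≤ 2 * κ := by
        rcases le_total k₁ k₂ with h | h
        · have : κ = k₁ := by rw [hκ]; exact min_eq_left h
          linarith [hd'.2]
        · have : κ = k₂ := by rw [hκ]; exact min_eq_right h
          linarith
      have h5 : (M₁ + M₂) * r ^ 2 ≤ 4 * ε * κ := by
        have i1 : ε * k₁ ≤ ε * (2 * κ) := mul_le_mul_of_nonneg_left h3 hε.le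
        have i2 : ε * k₂ ≤ ε * (2 * κ) := mul_le_mul_of_nonneg_left h4 hε.le
        linarith
      have h6 : M₁ + M₂ ≤ 4 * ε * κ / r ^ 2 := by rwa [le_div_iff₀ hr2]
      have h7 : (1 + 4 * ε / r ^ 2) * κ = κ + 4 * ε * κ / r ^ 2 := by ring
      linarith
    have r1 := sharp_arith (S := 1 + M₁ + M₂) (Sa := 1 + Ma₁ + Ma₂) hκ1 hκa1 habs hl hK
      (by linarith) hS (by linarith) (by
        have : 0 ≤ K * (M₁ + M₂) := by positivity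
        linarith) (abs_nonneg (ka₂ - ka₁)) (by rw [← hX]; exact hda) hla0
      (by rw [← hX]; exact hla.le) a7 b7
    rw [e]
    rw [← hK3] at r1
    exact r1.trans (mul_le_mul_of_nonneg_right (by linarith) hV0)

end

end Pool.Agent.N988.MK
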