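import Mathlib

/-!
# The arithmetic of the sharp comparison of pairs
-/

namespace Pool.Agent.N991.MK

noncomputable section

/-- the numbers of a pair with nearby improved couplings -/
lemma mod_num {h k κ₁ κ₂ S ε₀ ε₂ : ℝ} (hh : 0 < h) (hε₀ : 0 < ε₀) (h1 : ε₀ ≤ 1 / 10)
    (h2 : ε₀ ≤ ε₂ / 2) (hS : 4 * S ≤ ε₀ * h) (a1 : |h - κ₁| ≤ S) (a2 : |k - κ₂| ≤ S)
    (hd : |h - k| ≤ ε₀ * h) :
    |κ₂ - κ₁| ≤ ε₂ * min κ₁ κ₂ ∧ κ₂ ≤ 2 * κ₁ ∧ h / 2 ≤ min κ₁ κ₂ ∧ κ₁ ≤ 2 * h ∧ κ₂ ≤ 2 * h := by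
  have b1 := abs_le.1 a1
  have b2 := abs_le.1 a2
  have b3 := abs_le.1 hd
  have c1 : ε₀ * h ≤ 1 / 10 * h := mul_le_mul_of_nonneg_right h1 hh.le
  have c2 : 0 < ε₀ * h := by positivity
  have d1 : 0.87 * h ≤ κ₁ := by linarith
  have d2 : 0.87 * h ≤ κ₂ := by linarith
  have d3 : 0.87 * h ≤ min κ₁ κ₂ := le_min d1 d2
  refine ⟨?_, by linarith, by linarith, by linarith, by linarith⟩
  have e1 : |κ₂ - κ₁| ≤ 3 / 2 * (ε₀ * h) := by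
    rw [abs_le]
    constructor <;> linarith
  have hε₂ : 0 < ε₂ := by linarith
  have e2 : ε₂ * (0.87 * h) ≤ ε₂ * min κ₁ κ₂ := mul_le_mul_of_nonneg_left d3 hε₂.le
  have e3 : ε₀ * h ≤ ε₂ / 2 * h := mul_le_mul_of_nonneg_right h2 hh.le
  have e4 : 0 < ε₂ * h := by positivity
  refine e1.trans (le_trans ?_ e2)
  linarith

/-- the constant of the sharp law -/
def KF (K D E : ℝ) : ℝ := K + D + D * (2 + 2 * K + 4 * (1 + K) ^ 2 + 4 * (1 + K) * K * E)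

/-- the arithmetic of the improved couplings -/
lemma mod_arith {κ κ' Δ Δ' l l' S M M' K D E d E₁ E₂ : ℝ} (hκ : 1 ≤ κ) (hκ' : κ / 2 ≤ κ')
    (hΔ : 0 ≤ Δ) (hΔ' : 0 ≤ Δ') (hl : 0 ≤ l) (hK : 0 ≤ K) (hD : 0 ≤ D) (hE : 0 ≤ E)
    (hS : 1 ≤ S) (hSE : S ≤ E * κ) (hMS : M ≤ S) (hM' : M' ≤ M + K) (hM0' : 0 ≤ M')
    (hl0' : 0 ≤ l') (hl' : l' ≤ l / 4 + K * Δ / κ) (hΔΔ : Δ' ≤ Δ + K * (Δ + l) / κ)
    (hd : |d| ≤ K * (Δ * S / κ ^ 2 + l / κ)) (h1 : |E₁| ≤ D * (l / κ + M * Δ / κ ^ 2))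
    (h2 : |E₂| ≤ D * (l' / κ' + M' * Δ' / κ' ^ 2)) :
    |d + E₂ - E₁| ≤ KF K D E * (Δ * S / κ ^ 2 + l / κ) := by
  have hκ0 : 0 < κ := by linarith
  have hκ0' : 0 < κ' := by linarith
  obtain ⟨V, hV⟩ : ∃ V : ℝ, V = Δ * S / κ ^ 2 := ⟨_, rfl⟩
  obtain ⟨U, hU⟩ : ∃ U : ℝ, U = l / κ := ⟨_, rfl⟩
  have hV0 : 0 ≤ V := by rw [hV]; positivity
  have hU0 : 0 ≤ U := by rw [hU]; positivity
  have hi : 1 / κ ≤ 1 := by rw [div_le_one hκ0]; exact hκ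
  have hia : 1 / κ' ≤ 2 / κ := by
    rw [div_le_div_iff₀ hκ0' hκ0]
    linarith
  have hia2 : 1 / κ' ^ 2 ≤ 4 / κ ^ 2 := by
    have := pow_le_pow_left₀ (by positivity) hia 2
    have e1 : (1 / κ') ^ 2 = 1 / κ' ^ 2 := by ring
    have e2 : (2 / κ) ^ 2 = 4 / κ ^ 2 := by ring
    rwa [e1, e2] at this
  have d1 : Δ / κ ^ 2 ≤ V := by
    rw [hV]
    exact div_le_div_of_nonneg_right (le_mul_of_one_le_right hΔ hS) (by positivity)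
  have d2 : M * Δ / κ ^ 2 ≤ V := by
    rw [hV]
    refine div_le_div_of_nonneg_right ?_ (by positivity)
    rw [mul_comm]
    exact mul_le_mul_of_nonneg_left hMS hΔ
  have b1 : l' / κ' ≤ 2 * U + 2 * K * V := by
    calc l' / κ' = l' * (1 / κ') := by ring
      _ ≤ (l / 4 + K * Δ / κ) * (2 / κ) := mul_le_mul hl' hia (by positivity) (by positivity)
      _ = 1 / 2 * (l / κ) + 2 * K * (Δ / κ ^ 2) := by ring
      _ ≤ _ := by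
          rw [← hU]
          have e1 : K * (Δ / κ ^ 2) ≤ K * V := mul_le_mul_of_nonneg_left d1 hK
          linarith
  have b2 : M' * Δ' / κ' ^ 2 ≤ 4 * (1 + K) ^ 2 * V + 4 * (1 + K) * K * E * U := by
    have e1 : M' ≤ (1 + K) * S := by
      have : K * 1 ≤ K * S := mul_le_mul_of_nonneg_left hS hK
      linarith
    have e2 : Δ' ≤ (1 + K) * Δ + K * l := by
      refine hΔΔ.trans ?_
      have e3 : K * (Δ + l) / κ = K * (Δ + l) * (1 / κ) := by ring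
      rw [e3]
      have e4 : K * (Δ + l) * (1 / κ) ≤ K * (Δ + l) * 1 :=
        mul_le_mul_of_nonneg_left hi (by positivity)
      linarith
    calc M' * Δ' / κ' ^ 2 = M' * Δ' * (1 / κ' ^ 2) := by ring
      _ ≤ ((1 + K) * S) * ((1 + K) * Δ + K * l) * (4 / κ ^ 2) :=
          mul_le_mul (mul_le_mul e1 e2 hΔ' (by positivity)) hia2 (by positivity) (by positivity)
      _ = 4 * (1 + K) ^ 2 * (Δ * S / κ ^ 2) + 4 * (1 + K) * K * (l / κ) * (S / κ) := by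
          field_simp
      _ ≤ _ := by
          rw [← hV, ← hU]
          have e5 : S / κ ≤ E := by rwa [div_le_iff₀ hκ0]
          have e6 : 4 * (1 + K) * K * U * (S / κ) ≤ 4 * (1 + K) * K * U * E :=
            mul_le_mul_of_nonneg_left e5 (by positivity)
          linarith
  rw [← hV, ← hU] at hd ⊢
  rw [← hU] at h1
  have h1' : |E₁| ≤ D * (U + V) := h1.trans (mul_le_mul_of_nonneg_left (by linarith) hD)
  have h2' : |E₂| ≤ D * ((2 * U + 2 * K * V) + (4 * (1 + K) ^ 2 * V +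
      4 * (1 + K) * K * E * U)) := h2.trans (mul_le_mul_of_nonneg_left (add_le_add b1 b2) hD)
  have e : KF K D E * (V + U) = K * (V + U) + D * (U + V) + D * ((2 * U + 2 * K * V) +
      (4 * (1 + K) ^ 2 * V + 4 * (1 + K) * K * E * U)) +
      D * (2 * V + 2 * K * U + 4 * (1 + K) ^ 2 * U + 4 * (1 + K) * K * E * V) := by
    unfold KF
    ring
  have h4 : 0 ≤ D * (2 * V + 2 * K * U + 4 * (1 + K) ^ 2 * U + 4 * (1 + K) * K * E * V) := by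
    positivity
  rw [e]
  have h5 : |d + E₂ - E₁| ≤ |d| + |E₂| + |E₁| :=
    (abs_sub _ _).trans (add_le_add (abs_add_le _ _) le_rfl)
  linarith

/-- the numbers of a pair -/
lemma num_arith {k₀ k0 R K D E S ε₀ ε₂ ε3 h1 h k κ₁ κ₂ : ℝ} (hk₀ : 1 ≤ k₀) (hK : 0 ≤ K)
    (q1 : 0 < R) (hε₂ : 0 < ε₂) (q4 : 0 ≤ 2 * D * E) (b0 : 0 < ε₀) (hS0 : 0 ≤ S)
    (b1 : ε₀ ≤ ε₂ / 4) (b2 : ε₀ ≤ ε3 / 4) (b3 : ε₀ ≤ 1 / 100000)
    (hh1 : h1 = 2 * (k₀ + k0 + R + 20 / ε₂ + 2 * K + 2 * D * E) + 4 * S / ε₀ + 2 * |k0|)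
    (hh : h1 ≤ h) (a1 : |h - κ₁| ≤ S) (a2 : |k - κ₂| ≤ S) (hd : |h - k| ≤ ε₀ * h) :
    (|κ₂ - κ₁| ≤ ε₂ * min κ₁ κ₂ ∧ κ₂ ≤ 2 * κ₁ ∧ h / 2 ≤ min κ₁ κ₂ ∧ κ₁ ≤ 2 * h ∧ κ₂ ≤ 2 * h) ∧
      |κ₂ - κ₁| ≤ ε3 * min κ₁ κ₂ ∧ |κ₂ - κ₁| ≤ 1 / 25000 * min κ₁ κ₂ ∧ 0 < h ∧
      k₀ + k0 + R + 20 / ε₂ + 2 * K + 2 * D * E + |k0| ≤ min κ₁ κ₂ := by
  have q2 : 0 < 20 / ε₂ := by positivity
  have q3 : 0 ≤ 4 * S / ε₀ := by positivity
  have q5 := neg_abs_le k0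
  have q6 := le_abs_self k0
  have hh0 : 0 < h := by linarith
  have hSh : 4 * S ≤ ε₀ * h := by
    have h2 : 4 * S / ε₀ ≤ h := by linarith
    rw [div_le_iff₀ b0] at h2
    linarith
  have r1 := mod_num (ε₂ := ε₂) hh0 b0 (by linarith) (by linarith) hSh a1 a2 hd
  have r2 := mod_num (ε₂ := ε3) hh0 b0 (by linarith) (by linarith) hSh a1 a2 hd
  have r3 := mod_num (ε₂ := 1 / 25000) hh0 b0 (by linarith) (by linarith) hSh a1 a2 hd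
  refine ⟨r1, r2.1, r3.1, hh0, ?_⟩
  have := r1.2.2.1
  linarith

/-- the comparison of the true and of the improved differences -/
lemma cmp_arith {h k κ₁ κ₂ κ X q D E l M₁ ε₂ : ℝ} (hκ₁ : 0 < κ₁) (hκ₂ : 0 < κ₂)
    (hκ : κ = min κ₁ κ₂) (hε₂ : ε₂ ≤ 1) (r1 : |κ₂ - κ₁| ≤ ε₂ * κ) (hq : 0 ≤ q)
    (hE : E = 1 + 4 * q) (hM : M₁ ≤ q * κ₁) (hD0 : 0 ≤ D) (hl : 0 ≤ l) (i4 : 2 * D * E ≤ κ)
    (a3 : |X| ≤ D * (l / κ + M₁ * |κ₂ - κ₁| / κ ^ 2)) (e3 : h - k = -(κ₂ - κ₁) - X) :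
    |κ₂ - κ₁| ≤ 2 * |h - k| + 2 * D * (l / κ) ∧
      |h - k| ≤ 3 / 2 * |κ₂ - κ₁| + D * (l / κ) := by
  have hκ0 : 0 < κ := by rw [hκ]; exact lt_min hκ₁ hκ₂
  have c2 : κ₁ ≤ 2 * κ := by
    rcases le_total κ₁ κ₂ with h | h
    · have : κ = κ₁ := by rw [hκ]; exact min_eq_left h
      linarith
    · have e : κ = κ₂ := by rw [hκ]; exact min_eq_right h
      have := abs_le.1 r1
      have : ε₂ * κ ≤ 1 * κ := mul_le_mul_of_nonneg_right (by linarith) hκ0.le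
      linarith
  have a4 : D * (M₁ * |κ₂ - κ₁| / κ ^ 2) ≤ 1 / 2 * |κ₂ - κ₁| := by
    have i1 : M₁ ≤ E * κ := by
      have i2 : q * κ₁ ≤ q * (2 * κ) := mul_le_mul_of_nonneg_left c2 hq
      have i3 : 0 ≤ q * κ := mul_nonneg hq hκ0.le
      have i5 : E * κ = κ + 4 * (q * κ) := by rw [hE]; ring
      rw [i5]
      linarith
    calc D * (M₁ * |κ₂ - κ₁| / κ ^ 2) ≤ D * (E * κ * |κ₂ - κ₁| / κ ^ 2) :=
          mul_le_mul_of_nonneg_left (div_le_div_of_nonneg_right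
            (mul_le_mul_of_nonneg_right i1 (abs_nonneg _)) (by positivity)) hD0
      _ = D * E * |κ₂ - κ₁| / κ := by field_simp
      _ ≤ 1 / 2 * |κ₂ - κ₁| := by
          rw [div_le_iff₀ hκ0]
          have := mul_le_mul_of_nonneg_right i4 (abs_nonneg (κ₂ - κ₁))
          linarith
  have a5 : |X| ≤ D * (l / κ) + 1 / 2 * |κ₂ - κ₁| := by
    rw [mul_add] at a3
    linarith
  have a6 : 0 ≤ D * (l / κ) := mul_nonneg hD0 (div_nonneg hl hκ0.le)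
  constructor
  · have e4 : κ₂ - κ₁ = -(h - k) - X := by rw [e3]; ring
    have e5 : |κ₂ - κ₁| ≤ |h - k| + |X| := by
      calc |κ₂ - κ₁| = |-(h - k) - X| := by rw [← e4]
        _ ≤ |-(h - k)| + |X| := abs_sub _ _
        _ = _ := by rw [abs_neg]
    linarith
  · have e5 : |h - k| ≤ |κ₂ - κ₁| + |X| := by
      calc |h - k| = |-(κ₂ - κ₁) - X| := by rw [← e3]
        _ ≤ |-(κ₂ - κ₁)| + |X| := abs_sub _ _
        _ = _ := by rw [abs_neg]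
    linarith

/-- the bound of the new error -/
lemma err_arith {K D C' Δ l l₀ h κ a : ℝ} (hh0 : 0 < h) (hκ1 : 1 ≤ κ) (hi : 1 / κ ≤ 2 / h)
    (hK : 0 ≤ K) (hD0 : 0 ≤ D) (hl₀ : 0 ≤ l₀) (hl : l₀ ≤ l) (ha : 0 ≤ a)
    (s3 : Δ ≤ 2 * a + 2 * D * (l₀ / κ)) (u2 : 8 * K * (1 + D) ≤ C') :
    K * Δ / κ ≤ C' * (a + l) / h := by
  have hκ0 : 0 < κ := by linarith
  have w4 : 0 ≤ l := hl₀.trans hl
  have w3 : l₀ / κ ≤ l := (div_le_self hl₀ hκ1).trans hl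
  have hKD : 0 ≤ K * D := mul_nonneg hK hD0
  have w2 : Δ ≤ 2 * a + 2 * D * l := by
    have := mul_le_mul_of_nonneg_left w3 (show 0 ≤ 2 * D by positivity)
    linarith
  calc K * Δ / κ = K * Δ * (1 / κ) := by ring
    _ ≤ K * (2 * a + 2 * D * l) * (2 / h) :=
        mul_le_mul (mul_le_mul_of_nonneg_left w2 hK) hi (by positivity) (by positivity)
    _ = (4 * K * a + 4 * K * D * l) / h := by ring
    _ ≤ _ := by
        refine div_le_div_of_nonneg_right ?_ hh0.le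
        have i1 : 4 * K * a ≤ C' * a := mul_le_mul_of_nonneg_right (by linarith) ha
        have i2 : 4 * K * D * l ≤ C' * l := mul_le_mul_of_nonneg_right (by linarith) w4
        linarith

/-- the sharp law in terms of the improved couplings -/
lemma sharp_arith3 {D E C' C1' Δ Sg l l₀ h κ κ₁ κ₂ ρ σ a : ℝ} (hh0 : 0 < h) (hκ1 : 1 ≤ κ)
    (hi : 1 / κ ≤ 2 / h) (hD0 : 0 ≤ D) (hE0 : 1 ≤ E) (hl₀ : 0 ≤ l₀) (hl : l₀ ≤ l) (ha : 0 ≤ a)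
    (hρ : 0 ≤ ρ) (hσ : 0 ≤ σ) (r4 : κ₁ ≤ 2 * h) (r5 : κ₂ ≤ 2 * h)
    (hSg : Sg = 1 + ρ * κ₁ + σ * κ₂) (hSg1 : 1 ≤ Sg) (hSgE : Sg ≤ E * κ)
    (s3 : Δ ≤ 2 * a + 2 * D * (l₀ / κ)) (hC1 : 0 ≤ C1')
    (u3 : C1' * (32 + 2 * (1 + 2 * D * E)) ≤ C') :
    C1' * (Δ * Sg / κ ^ 2 + l₀ / κ) ≤ C' * (a * (ρ + σ + 1 / h) + l) / h := by
  have hκ0 : 0 < κ := by linarith
  have w4 : 0 ≤ l := hl₀.trans hl
  have hlκ : l₀ / κ ≤ 2 * (l / h) := by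
    calc l₀ / κ = l₀ * (1 / κ) := by ring
      _ ≤ l * (2 / h) := mul_le_mul hl hi (by positivity) w4
      _ = _ := by ring
  have hlh : 0 ≤ l / h := div_nonneg w4 hh0.le
  have hlκ0 : 0 ≤ l₀ / κ := by positivity
  have hSg0 : 0 ≤ Sg / κ ^ 2 := by positivity
  have hW0 : 0 ≤ ρ + σ + 1 / h := by positivity
  have j5 : Sg / κ ^ 2 ≤ 16 * (ρ + σ + 1 / h) / h := by
    have j6 : Sg ≤ 4 * (h * (ρ + σ + 1 / h)) := by
      have j7 : h * (ρ + σ + 1 / h) = ρ * h + σ * h + 1 := by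
        field_simp
      have j8 : ρ * κ₁ ≤ ρ * (2 * h) := mul_le_mul_of_nonneg_left r4 hρ
      have j9 : σ * κ₂ ≤ σ * (2 * h) := mul_le_mul_of_nonneg_left r5 hσ
      have : 0 ≤ ρ * h := by positivity
      have : 0 ≤ σ * h := by positivity
      rw [j7, hSg]
      linarith
    have j10 : (1 / κ) ^ 2 ≤ (2 / h) ^ 2 := pow_le_pow_left₀ (by positivity) hi 2
    calc Sg / κ ^ 2 = Sg * (1 / κ) ^ 2 := by ring
      _ ≤ 4 * (h * (ρ + σ + 1 / h)) * (2 / h) ^ 2 :=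
          mul_le_mul j6 j10 (by positivity) (by positivity)
      _ = _ := by
          field_simp
          ring
  have hDE : 0 ≤ D * E := mul_nonneg hD0 (by linarith)
  have j11 : Δ * Sg / κ ^ 2 ≤ 32 * (a * (ρ + σ + 1 / h) / h) + 2 * D * E * (l₀ / κ) := by
    calc Δ * Sg / κ ^ 2 = Δ * (Sg / κ ^ 2) := by ring
      _ ≤ (2 * a + 2 * D * (l₀ / κ)) * (Sg / κ ^ 2) := mul_le_mul_of_nonneg_right s3 hSg0
      _ = 2 * a * (Sg / κ ^ 2) + 2 * D * (l₀ / κ) * (Sg / κ ^ 2) := by ring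
      _ ≤ 2 * a * (16 * (ρ + σ + 1 / h) / h) + 2 * D * (l₀ / κ) * E := by
          refine add_le_add (mul_le_mul_of_nonneg_left j5 (by positivity))
            (mul_le_mul_of_nonneg_left ?_ (by positivity))
          rw [div_le_iff₀ (by positivity)]
          have i5 : E * κ * 1 ≤ E * κ * κ := mul_le_mul_of_nonneg_left hκ1 (by positivity)
          have i6 : E * κ * κ = E * κ ^ 2 := by ring
          rw [mul_one, i6] at i5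
          exact hSgE.trans i5
      _ = _ := by ring
  have j12 : 0 ≤ a * (ρ + σ + 1 / h) / h := by positivity
  calc C1' * (Δ * Sg / κ ^ 2 + l₀ / κ)
      ≤ C1' * (32 * (a * (ρ + σ + 1 / h) / h) + (1 + 2 * D * E) * (2 * (l / h))) := by
        refine mul_le_mul_of_nonneg_left ?_ hC1
        have := mul_le_mul_of_nonneg_left hlκ (show 0 ≤ 1 + 2 * D * E by linarith)
        linarith
    _ ≤ C1' * (32 + 2 * (1 + 2 * D * E)) * (a * (ρ + σ + 1 / h) / h + l / h) := by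
        have i1 : 0 ≤ C1' * (l / h) := mul_nonneg hC1 hlh
        have i2 : 0 ≤ C1' * (2 * (1 + 2 * D * E)) * (a * (ρ + σ + 1 / h) / h) :=
          mul_nonneg (mul_nonneg hC1 (by linarith)) j12
        linarith
    _ ≤ C' * (a * (ρ + σ + 1 / h) / h + l / h) :=
        mul_le_mul_of_nonneg_right u3 (add_nonneg j12 hlh)
    _ = _ := by ring

/-- the bound of the slope -/
lemma sg_arith {κ κ₁ κ₂ ρ σ q E ε₂ Δ Sg : ℝ} (hκ₁ : 0 < κ₁) (hκ₂ : 0 < κ₂)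
    (hκ : κ = min κ₁ κ₂) (hε₂ : ε₂ ≤ 1) (hκ1 : 1 ≤ κ) (hq : 0 ≤ q) (hE : E = 1 + 4 * q)
    (hΔ : Δ = |κ₂ - κ₁|) (r1 : Δ ≤ ε₂ * κ) (hSg : Sg = 1 + ρ * κ₁ + σ * κ₂)
    (j1 : ρ * κ₁ ≤ q * κ₁) (j2 : σ * κ₂ ≤ q * κ₂) : Sg ≤ E * κ := by
  have hκ0 : 0 < κ := by linarith
  have hκ12 : κ₁ ≤ 2 * κ ∧ κ₂ ≤ 2 * κ := by
    have hΔ1 : Δ ≤ κ := by
      have : ε₂ * κ ≤ 1 * κ := mul_le_mul_of_nonneg_right (by linarith) hκ0.le
      linarith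
    rw [hΔ] at hΔ1
    have := abs_le.1 hΔ1
    rcases le_total κ₁ κ₂ with h | h
    · have : κ = κ₁ := by rw [hκ]; exact min_eq_left h
      constructor <;> linarith
    · have : κ = κ₂ := by rw [hκ]; exact min_eq_right h
      constructor <;> linarith
  have j3 : q * κ₁ ≤ q * (2 * κ) := mul_le_mul_of_nonneg_left hκ12.1 hq
  have j4 : q * κ₂ ≤ q * (2 * κ) := mul_le_mul_of_nonneg_left hκ12.2 hq
  have i5 : E * κ = κ + 4 * (q * κ) := by rw [hE]; ring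
  rw [hSg, i5]
  linarith

/-- the closeness of the functions -/
lemma close_arith {cc D C' κ₁ h a l l₀ κ Δ : ℝ} {Dm : ℕ} (hcc : 0 < cc) (hD0 : 0 ≤ D)
    (hκ₁ : 0 < κ₁) (r4 : κ₁ ≤ 2 * h) (hκ1 : 1 ≤ κ) (hl₀ : 0 ≤ l₀) (hl : l₀ ≤ l) (ha : 0 ≤ a)
    (hh0 : 0 < h) (hΔ0 : 0 ≤ Δ) (s3 : Δ ≤ 2 * a + 2 * D * (l₀ / κ))
    (u4 : cc * 2 ^ Dm * (2 + 2 * D) ≤ C') :
    cc * κ₁ ^ Dm * (Δ + l₀) ≤ C' * h ^ Dm * (a + l) := by
  have w3 : l₀ / κ ≤ l := (div_le_self hl₀ hκ1).trans hl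
  have w4 : 0 ≤ l := hl₀.trans hl
  have w2 : Δ + l₀ ≤ (2 + 2 * D) * (a + l) := by
    have i1 := mul_le_mul_of_nonneg_left w3 (show 0 ≤ 2 * D by positivity)
    have i2 : 0 ≤ D * a := by positivity
    linarith
  have w5 : κ₁ ^ Dm ≤ 2 ^ Dm * h ^ Dm := by
    rw [← mul_pow]
    exact pow_le_pow_left₀ hκ₁.le r4 Dm
  calc cc * κ₁ ^ Dm * (Δ + l₀)
      ≤ cc * (2 ^ Dm * h ^ Dm) * ((2 + 2 * D) * (a + l)) :=
        mul_le_mul (mul_le_mul_of_nonneg_left w5 hcc.le) w2 (by positivity) (by positivity)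
    _ = cc * 2 ^ Dm * (2 + 2 * D) * (h ^ Dm * (a + l)) := by ring
    _ ≤ C' * (h ^ Dm * (a + l)) := mul_le_mul_of_nonneg_right u4 (by positivity)
    _ = _ := by ring

/-- the Wilson loops of a pair -/
lemma wil_arith {c0 C D C' h κ κ₁ Δ a l l₀ X : ℝ} (hc0 : 0 < c0) (hC : 0 ≤ C) (hD0 : 0 ≤ D)
    (hh0 : 0 < h) (hκ0 : 0 < κ) (hκ₁ : 0 < κ₁) (r4 : κ₁ ≤ 2 * h) (r3 : h / 2 ≤ κ) (c1 : κ ≤ κ₁)
    (hl₀ : 0 ≤ l₀) (hl : l₀ ≤ l) (hΔ0 : 0 ≤ Δ) (s4 : a ≤ 3 / 2 * Δ + D * (l₀ / κ))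
    (h3 : c0 * Δ / κ₁ ^ 2 ≤ X + C * l₀ / κ₁ ^ 3) (u5 : 8 * C + c0 * D ≤ C') :
    c0 / 8 * a / h ^ 2 ≤ X + C' * l / h ^ 3 := by
  have w4 : 0 ≤ l := hl₀.trans hl
  have hκ₁h : h / 2 ≤ κ₁ := by linarith
  have i1 : c0 * Δ / (4 * h ^ 2) ≤ c0 * Δ / κ₁ ^ 2 := by
    refine div_le_div_of_nonneg_left (by positivity) (by positivity) ?_
    have := pow_le_pow_left₀ hκ₁.le r4 2
    linarith
  have i2 : C * l₀ / κ₁ ^ 3 ≤ 8 * C * (l / h ^ 3) := by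
    have j1 : (h / 2) ^ 3 ≤ κ₁ ^ 3 := pow_le_pow_left₀ (by positivity) hκ₁h 3
    calc C * l₀ / κ₁ ^ 3 ≤ C * l / (h / 2) ^ 3 := by
          refine div_le_div₀ (by positivity) (mul_le_mul_of_nonneg_left hl hC) (by positivity) j1
      _ = _ := by
          field_simp
          ring
  have i3 : l₀ / κ ≤ 2 * (l / h) := by
    have hi : 1 / κ ≤ 2 / h := by
      rw [div_le_div_iff₀ hκ0 hh0]
      linarith
    calc l₀ / κ = l₀ * (1 / κ) := by ring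
      _ ≤ l * (2 / h) := mul_le_mul hl hi (by positivity) w4
      _ = _ := by ring
  have i4 : c0 / 8 * a / h ^ 2 ≤ c0 * Δ / (4 * h ^ 2) + c0 * D * (l / h ^ 3) := by
    calc c0 / 8 * a / h ^ 2
        ≤ c0 / 8 * (3 / 2 * Δ + D * (2 * (l / h))) / h ^ 2 := by
          refine div_le_div_of_nonneg_right (mul_le_mul_of_nonneg_left ?_ (by positivity))
            (by positivity)
          have := mul_le_mul_of_nonneg_left i3 hD0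
          linarith
      _ = 3 / 4 * (c0 * Δ / (4 * h ^ 2)) + 1 / 4 * (c0 * D * (l / h ^ 3)) := by
          field_simp
          ring
      _ ≤ _ := by
          have j1 : 0 ≤ c0 * Δ / (4 * h ^ 2) := by positivity
          have j2 : 0 ≤ c0 * D * (l / h ^ 3) := by positivity
          linarith
  have i5 : C' * l / h ^ 3 = C' * (l / h ^ 3) := by ring
  have i6 : (8 * C + c0 * D) * (l / h ^ 3) ≤ C' * (l / h ^ 3) :=
    mul_le_mul_of_nonneg_right u5 (by positivity)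
  rw [i5]
  linarith

/-- the entrance of a pair -/
lemma init_arith {κ κ₁ κ₂ ρ σ ε ε₂ r : ℝ} (hκ₁ : 0 < κ₁) (hκ₂ : 0 < κ₂)
    (hκ : κ = min κ₁ κ₂) (r7 : |κ₂ - κ₁| ≤ 1 / 25000 * κ) (hε₂ : 0 < ε₂) (hε : 0 < ε)
    (hεε : ε ≤ ε₂ / 10) (hr21 : r ^ 2 ≤ 1) (e2 : 20 ≤ ε₂ * κ)
    (p5 : ρ * κ₁ * r ^ 2 ≤ ε * κ₁) (z5 : σ * κ₂ * r ^ 2 ≤ ε * κ₂) :
    2 * (ρ * κ₁ + σ * κ₂ + 2) * r ^ 2 ≤ ε₂ * κ := by
  have e1 : 2 * (ρ * κ₁ + σ * κ₂ + 2) * r ^ 2 = 2 * (ρ * κ₁ * r ^ 2) +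
      2 * (σ * κ₂ * r ^ 2) + 4 * r ^ 2 := by ring
  have hκ0 : 0 < κ := by rw [hκ]; exact lt_min hκ₁ hκ₂
  have r7' := abs_le.1 r7
  have c1 : κ₁ ≤ 1.1 * κ := by
    rcases le_total κ₁ κ₂ with h | h
    · have : κ = κ₁ := by rw [hκ]; exact min_eq_left h
      linarith
    · have : κ = κ₂ := by rw [hκ]; exact min_eq_right h
      linarith [r7'.1]
  have c2 : κ₂ ≤ 1.1 * κ := by
    rcases le_total κ₁ κ₂ with h | h
    · have : κ = κ₁ := by rw [hκ]; exact min_eq_left h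
      linarith [r7'.2]
    · have : κ = κ₂ := by rw [hκ]; exact min_eq_right h
      linarith
  have e3 : ε * κ₁ ≤ ε₂ / 10 * (1.1 * κ) := mul_le_mul hεε c1 hκ₁.le (by positivity)
  have e4 : ε * κ₂ ≤ ε₂ / 10 * (1.1 * κ) := mul_le_mul hεε c2 hκ₂.le (by positivity)
  rw [e1]
  linarith

/-- the second coupling -/
lemma k_arith {h k ε₀ : ℝ} (hh0 : 0 < h) (b3 : ε₀ ≤ 1 / 100000) (hd : |h - k| ≤ ε₀ * h) :
    0 < k ∧ h ≤ 2 * k := by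
  have h1 := abs_le.1 hd
  have h2 : ε₀ * h ≤ 1 / 100000 * h := mul_le_mul_of_nonneg_right b3 hh0.le
  constructor <;> linarith

/-- the entrance of the derivatives -/
lemma w_arith {h k ρ σ κ₁ κ₂ C' : ℝ} (hρ : 0 ≤ ρ) (hσ : 0 ≤ σ) (hh0 : 0 < h) (hk0 : 0 < k)
    (hk2 : h ≤ 2 * k) (r4 : κ₁ ≤ 2 * h) (r5 : κ₂ ≤ 2 * h) (u1 : 4 ≤ C') :
    ρ * κ₁ + σ * κ₂ + 2 ≤ C' * (1 + ρ * h + σ * k) := by
  have v1 : ρ * κ₁ ≤ ρ * (2 * h) := mul_le_mul_of_nonneg_left r4 hρ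
  have v2 : σ * κ₂ ≤ σ * (4 * k) := mul_le_mul_of_nonneg_left (by linarith) hσ
  have v3 : 0 ≤ ρ * h := by positivity
  have v4 : 0 ≤ σ * k := by positivity
  have w1 : 4 * (1 + ρ * h + σ * k) ≤ C' * (1 + ρ * h + σ * k) :=
    mul_le_mul_of_nonneg_right u1 (by positivity)
  linarith

end

end Pool.Agent.N991.MK
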