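import Mathlib
import Pool.Agent.N991.MK.Shp1
import Pool.Agent.N991.MK.Shp3a
import Pool.Agent.N991.MK.Shp2
import Pool.Agent.N991.MK.P3
import Pool.Agent.N991.MK.Tj0
import Pool.Agent.N988.MK.Pair9
import Pool.Agent.N988.MK.Q6

/-!
# The sharp comparison of pairs for the improved couplings
-/

open MeasureTheory Filter Metric Asymptotics Matrix
open scoped Matrix.Norms.Frobenius Topology ContDiff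
open Pool.Agent.H906R3.YM Pool.Agent.W793.YM Pool.Agent.TH618.YM Pool.Agent.N984.TW
open Pool.Agent.N988.MK (IsoG St NS PS Dd KLip pair_R3 cf_smul st_smul tube_smul pair_close
  WilLipX cf_ext near_num)

namespace Pool.Agent.N991.MK

set_option linter.unusedSectionVars false

noncomputable section

variable {N n : ℕ} {G : Subgroup (UN N)} {B : Frame G n} {hG : IsClosed (G : Set (UN N))}

section
variable {r ε k k₁ k₂ M M₁ M₂ l : ℝ} {f f₁ f₂ : G → ℝ} {F F₁ F₂ : (Mat N)ˣ → ℂ}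
  {m m₁ m₂ : (Fin n → ℂ) → ℂ}

variable [CompactSpace G] [MeasurableSpace G] [BorelSpace G]

/-- the improvement of the coupling is bounded -/
lemma NS.imp_le (h : NS B r ε k M f F m) (hr : 0 < r) (hn : 0 < n) (hk : 0 < k) :
    |k + 48 / 5 * qb n m / k - k| ≤ 29 * n * (ε / r ^ 2) ∧ M ≤ ε / r ^ 2 * k := by
  have hF1 : F 1 ≠ 0 := by rw [h.one]; exact one_ne_zero
  have h1 := qb_le h.st h.cf.hol hF1 hr h.M0 hn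
  have hM : M ≤ ε / r ^ 2 * k := by
    have h2 := h.Ml
    rw [div_mul_eq_mul_div, le_div_iff₀ (by positivity)]
    exact h2
  refine ⟨?_, hM⟩
  have e : k + 48 / 5 * qb n m / k - k = 48 / 5 * qb n m / k := by ring
  rw [e, abs_div, abs_of_pos hk, div_le_iff₀ hk, abs_mul,
    abs_of_pos (by norm_num : (0 : ℝ) < 48 / 5)]
  have h3 : (n : ℝ) * M ≤ n * (ε / r ^ 2 * k) := mul_le_mul_of_nonneg_left hM (by positivity)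
  have h0 : 0 ≤ (n : ℝ) * M := by have := h.M0; positivity
  calc 48 / 5 * |qb n m| ≤ 48 / 5 * (3 * n * M) := by linarith
    _ ≤ 29 * (n * (ε / r ^ 2 * k)) := by linarith
    _ = _ := by ring

/-- the difference of the improvements -/
lemma PS.imp_diff (P : PS B r ε k₁ k₂ M₁ M₂ l f₁ f₂ F₁ F₂ m₁ m₂) (hr : 0 < r) (hn : 0 < n)
    (hk₁ : 0 < k₁) (hk₂ : 0 < k₂) :
    |48 / 5 * qb n m₂ / k₂ - 48 / 5 * qb n m₁ / k₁| ≤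
      29 * n * (l / min k₁ k₂ + M₁ * |k₂ - k₁| / min k₁ k₂ ^ 2) := by
  obtain ⟨κ, hκ⟩ : ∃ κ, κ = min k₁ k₂ := ⟨_, rfl⟩
  have hκ0 : 0 < κ := by rw [hκ]; exact lt_min hk₁ hk₂
  have c1 : κ ≤ k₁ := by rw [hκ]; exact min_le_left _ _
  have c2 : κ ≤ k₂ := by rw [hκ]; exact min_le_right _ _
  rw [← hκ]
  have hF1 : F₁ 1 ≠ 0 := by rw [P.N1.one]; exact one_ne_zero
  have hF2 : F₂ 1 ≠ 0 := by rw [P.N2.one]; exact one_ne_zero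
  have hl := P.D.l0
  have hM := P.N1.M0
  have h1 := qb_lip hr hn hl (P.N1.st.smooth P.N1.cf.hol hF1 hr) (P.N2.st.smooth P.N2.cf.hol hF2 hr)
    P.N1.st.md P.N2.st.md P.D.bd
  have h2 := qb_le P.N1.st P.N1.cf.hol hF1 hr hM hn
  have e : 48 / 5 * qb n m₂ / k₂ - 48 / 5 * qb n m₁ / k₁ =
      48 / 5 * ((qb n m₂ - qb n m₁) * (1 / k₂)) +
      48 / 5 * (qb n m₁ * ((k₁ - k₂) * (1 / (k₁ * k₂)))) := by
    field_simp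
    ring
  rw [e]
  refine (abs_add_le _ _).trans ?_
  rw [abs_mul, abs_mul, abs_mul (48 / 5 : ℝ), abs_mul, abs_mul,
    abs_of_pos (by norm_num : (0 : ℝ) < 48 / 5), abs_of_pos (by positivity : 0 < 1 / k₂),
    abs_of_pos (by positivity : 0 < 1 / (k₁ * k₂)), abs_sub_comm k₁ k₂]
  have i1 : 1 / k₂ ≤ 1 / κ := one_div_le_one_div_of_le hκ0 c2
  have i2 : 1 / (k₁ * k₂) ≤ 1 / κ ^ 2 := by
    refine one_div_le_one_div_of_le (by positivity) ?_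
    rw [pow_two]
    exact mul_le_mul c1 c2 hκ0.le hk₁.le
  have t1 : |qb n m₂ - qb n m₁| * (1 / k₂) ≤ 3 * n * l * (1 / κ) :=
    mul_le_mul h1 i1 (by positivity) (by positivity)
  have t2 : |qb n m₁| * (|k₂ - k₁| * (1 / (k₁ * k₂))) ≤
      3 * n * M₁ * (|k₂ - k₁| * (1 / κ ^ 2)) :=
    mul_le_mul h2 (mul_le_mul_of_nonneg_left i2 (abs_nonneg _)) (by positivity) (by positivity)
  have p1 : 0 ≤ (n : ℝ) * l * (1 / κ) := by positivity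
  have p2 : 0 ≤ (n : ℝ) * M₁ * (|k₂ - k₁| * (1 / κ ^ 2)) := by positivity
  have e2 : 29 * (n : ℝ) * (l / κ + M₁ * |k₂ - k₁| / κ ^ 2) =
      29 * (n * l * (1 / κ)) + 29 * (n * M₁ * (|k₂ - k₁| * (1 / κ ^ 2))) := by ring
  rw [e2]
  linarith

end

variable [CompactSpace G] [MeasurableSpace G] [BorelSpace G] [SecondCountableTopology G]
  {μ : Measure G} [IsProbabilityMeasure μ] [μ.IsHaarMeasure] [μ.IsMulRightInvariant]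
  [μ.IsInvInvariant]

variable (B) in
/-- the pairs of states, with the improved couplings -/
def Q3St (r ε ε₂ : ℝ) (f₁ f₂ : G → ℝ) (h₁ h₂ l : ℝ) : Prop :=
  ∃ (c₁ c₂ : ℝ) (g₁ g₂ : G → ℝ) (F₁ F₂ : (Mat N)ˣ → ℂ) (m₁ m₂ : (Fin n → ℂ) → ℂ)
    (k₁ k₂ M₁ M₂ l₀ : ℝ), 0 < c₁ ∧ 0 < c₂ ∧ f₁ = (fun x => c₁ * g₁ x) ∧
    f₂ = (fun x => c₂ * g₂ x) ∧ 0 < k₁ ∧ 0 < k₂ ∧
    PS B r ε k₁ k₂ M₁ M₂ l₀ g₁ g₂ F₁ F₂ m₁ m₂ ∧ l₀ ≤ l ∧ 2 * l₀ * r ^ 2 ≤ ε₂ * min k₁ k₂ ∧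
    h₁ = k₁ + 48 / 5 * qb n m₁ / k₁ ∧ h₂ = k₂ + 48 / 5 * qb n m₂ / k₂

section
variable {r ε ε₂ k k₁ k₂ M M₁ M₂ l ρ h h1 C1 : ℝ} {f f₁ f₂ g₁ g₂ : G → ℝ}
  {F F' F₁ F₂ : (Mat N)ˣ → ℂ} {m m' m₁ m₂ : (Fin n → ℂ) → ℂ}

include hG in
/-- the data of a state and of its normalisation agree -/
lemma P3St.same (hP : P3St B μ r ε h1 C1 f h ρ) (hr : 0 < r) (hn : 0 < n) {c : ℝ} (hc : 0 < c)
    (hfg : f = fun x => c * g₁ x) (hN : NS B r ε k₁ M₁ g₁ F₁ m₁) :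
    0 < k₁ ∧ h = k₁ + 48 / 5 * qb n m₁ / k₁ ∧ NS B r ε k₁ (ρ * k₁) g₁ F₁ m₁ ∧
      TubeS B r k₁ F₁ := by
  obtain ⟨hρ, F, m, k, hk, hf, hpos, hs, ht, hts, hM, hch, hhk⟩ := hP
  have hf' : CF f (fun u => (c : ℂ) * F₁ u) := by rw [hfg]; exact cf_smul hN.cf c
  have hs' := st_smul hN.st (c : ℂ)
  have hF1 : F 1 ≠ 0 := hf.one_ne hpos
  have hu := N988.MK.St.uniq hs hs' hr hn hF1 fun x => cf_ext hG hf hf' x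
  obtain ⟨hk1, hm⟩ := hu
  subst hk1
  have hq : qb n m = qb n m₁ := N988.MK.qb_congr (N988.MK.m4_congr hr hm)
  refine ⟨hk, by rw [hhk, hq], ⟨hN.cf, hN.pos, hN.one, ⟨hN.st.eq, hN.st.md, hN.st.even,
    fun x hx => ?_⟩, hN.tb, by positivity, hM⟩, fun v y hv hvy => ?_⟩
  · rw [← hm x hx]
    exact hs.bd x hx
  · have h2 := hts v y hv hvy
    rw [cf_ext2 hG hf hf'] at h2
    have h3 : F 1 = (c : ℂ) * F₁ 1 := by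
      have := cf_ext hG hf hf' (B := B) 0
      rwa [uE_zero] at this
    rw [h3, norm_mul, norm_mul, Complex.norm_real, Real.norm_eq_abs, abs_of_pos hc] at h2
    refine le_of_mul_le_mul_left (a := c) ?_ hc
    refine h2.trans (le_of_eq ?_)
    ring

end

/-- **the sharp comparison of pairs, from its parts** -/
theorem pairFlow3_of (hG : IsClosed (G : Set (UN N))) (hn : 0 < n) {χ : G → ℝ}
    {r ε ε₂ ε3 k₀ K k0 C c0 h0 C1 : ℝ} (hgr : GoodR B r) (hr1 : r ≤ 1) (hε₂ : 0 < ε₂)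
    (hε21 : ε₂ ≤ 1 / 20000) (hε : 0 < ε) (hεε : ε ≤ ε₂ / 10) (hε3 : 0 < ε3) (hεε3 : ε ≤ ε3)
    (hk₀ : 1 ≤ k₀) (hK : 0 ≤ K) (hC : 0 ≤ C) (hc0 : 0 < c0)
    (hpair : ∀ {k₁ k₂ M₁ M₂ l : ℝ} {f₁ f₂ : G → ℝ}
        {F₁ F₂ : (Mat N)ˣ → ℂ} {m₁ m₂ : (Fin n → ℂ) → ℂ}, k₀ ≤ k₁ → k₀ ≤ k₂ →
        PS B r ε k₁ k₂ M₁ M₂ l f₁ f₂ F₁ F₂ m₁ m₂ → TubeS B r k₁ F₁ →
        |k₂ - k₁| ≤ ε₂ * min k₁ k₂ → 2 * l * r ^ 2 ≤ ε₂ * min k₁ k₂ →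
        ∃ (k₁' k₂' M₁' M₂' l' : ℝ) (m₁' m₂' : (Fin n → ℂ) → ℂ) (F₁' F₂' : (Mat N)ˣ → ℂ)
          (a₁ a₂ : ℝ) (g₁ g₂ : G → ℝ), 0 < a₁ ∧ 0 < a₂ ∧
          Rst μ f₁ = (fun x => a₁ * g₁ x) ∧ Rst μ f₂ = (fun x => a₂ * g₂ x) ∧
          PS B r ε k₁' k₂' M₁' M₂' l' g₁ g₂ F₁' F₂' m₁' m₂' ∧
          l' ≤ l / 4 + K * |k₂ - k₁| / min k₁ k₂ ∧ 2 * l' * r ^ 2 ≤ ε₂ * min k₁' k₂' ∧
          |(k₂' - k₁') - (k₂ - k₁)| ≤ K * (|k₂ - k₁| + l) / min k₁ k₂ ∧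
          |k₁' - k₁| ≤ K ∧ |k₂' - k₂| ≤ K ∧
          M₁' ≤ M₁ + K ∧ M₂' ≤ M₂ + K ∧
          |(k₂' - k₁') - (k₂ - k₁)| ≤
            K * (|k₂ - k₁| * (1 + M₁ + M₂) / min k₁ k₂ ^ 2 + l / min k₁ k₂))
    (hwil : ∀ {ε k₁ k₂ M₁ M₂ l : ℝ} {f₁ f₂ : G → ℝ}
      {F₁ F₂ : (Mat N)ˣ → ℂ} {m₁ m₂ : (Fin n → ℂ) → ℂ}, ε ≤ ε3 → k0 ≤ k₁ → k0 ≤ k₂ →
      PS B r ε k₁ k₂ M₁ M₂ l f₁ f₂ F₁ F₂ m₁ m₂ → |k₂ - k₁| ≤ ε3 * min k₁ k₂ →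
      2 * l * r ^ 2 ≤ min k₁ k₂ / 20000 →
      c0 * |k₁ - k₂| / k₁ ^ 2 ≤ |Pool.Agent.N989.MK.WW μ χ f₁ - Pool.Agent.N989.MK.WW μ χ f₂| +
        C * l / k₁ ^ 3) :
    ∃ (h1 ε₀ C' c0' : ℝ) (Dm : ℕ), PairFlow3 μ χ (P3St B μ r ε h0 C1)
      (Q3St B r ε ε₂) h1 ε₀ C' c0' Dm := by
  have hr := hgr.pos
  have hr2 : 0 < r ^ 2 := by positivity
  have hr21 : r ^ 2 ≤ 1 := pow_le_one₀ hr.le hr1
  obtain ⟨cc, hcc, Dm, hclose⟩ := pair_close B μ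
  -- the constants
  obtain ⟨S, hS⟩ : ∃ S : ℝ, S = 29 * n * (ε / r ^ 2) := ⟨_, rfl⟩
  have hS0 : 0 ≤ S := by rw [hS]; positivity
  obtain ⟨D, hD⟩ : ∃ D : ℝ, D = 29 * n := ⟨_, rfl⟩
  have hD0 : 0 ≤ D := by rw [hD]; positivity
  obtain ⟨E, hE⟩ : ∃ E : ℝ, E = 1 + 4 * (ε / r ^ 2) := ⟨_, rfl⟩
  have hE0 : 1 ≤ E := by
    have : 0 ≤ 4 * (ε / r ^ 2) := by positivity
    linarith
  obtain ⟨ε₀, hε₀⟩ : ∃ ε₀ : ℝ, ε₀ = min (ε₂ / 4) (min (ε3 / 4) (1 / 100000)) := ⟨_, rfl⟩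
  have b0 : 0 < ε₀ := by
    rw [hε₀]; exact lt_min (by positivity) (lt_min (by positivity) (by norm_num))
  have b1 : ε₀ ≤ ε₂ / 4 := by rw [hε₀]; exact min_le_left _ _
  have b2 : ε₀ ≤ ε3 / 4 := by rw [hε₀]; exact (min_le_right _ _).trans (min_le_left _ _)
  have b3 : ε₀ ≤ 1 / 100000 := by rw [hε₀]; exact (min_le_right _ _).trans (min_le_right _ _)
  obtain ⟨h1, hh1⟩ : ∃ h1 : ℝ, h1 = 2 * (k₀ + k0 + 16 / r ^ 2 + 20 / ε₂ + 2 * K + 2 * D * E) +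
    4 * S / ε₀ + 2 * |k0| := ⟨_, rfl⟩
  obtain ⟨C1', hC1'⟩ : ∃ C1' : ℝ, C1' = KF K D E := ⟨_, rfl⟩
  have hC1'0 : 0 ≤ C1' := by rw [hC1']; unfold KF; positivity
  obtain ⟨C', hC'⟩ : ∃ C' : ℝ, C' = 4 + 8 * K * (1 + D) + C1' * (32 + 2 * (1 + 2 * D * E)) +
    cc * 2 ^ Dm * (2 + 2 * D) + (8 * C + c0 * D) := ⟨_, rfl⟩
  have t1 : 0 ≤ 8 * K * (1 + D) := by positivity
  have t2 : 0 ≤ C1' * (32 + 2 * (1 + 2 * D * E)) := by positivity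
  have t3 : 0 ≤ cc * 2 ^ Dm * (2 + 2 * D) := by positivity
  have t4 : 0 ≤ 8 * C + c0 * D := by positivity
  have hC'0 : 0 ≤ C' := by rw [hC']; positivity
  have u1 : 4 ≤ C' := by rw [hC']; linarith
  have u2 : 8 * K * (1 + D) ≤ C' := by rw [hC']; linarith
  have u3 : C1' * (32 + 2 * (1 + 2 * D * E)) ≤ C' := by rw [hC']; linarith
  have u4 : cc * 2 ^ Dm * (2 + 2 * D) ≤ C' := by rw [hC']; linarith
  have u5 : 8 * C + c0 * D ≤ C' := by rw [hC']; linarith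
  -- the numbers of a pair
  have q1 : 0 < 16 / r ^ 2 := by positivity
  have q2 : 0 < 20 / ε₂ := by positivity
  have q4 : 0 ≤ 2 * D * E := by positivity
  have q5 := neg_abs_le k0
  have q6 := le_abs_self k0
  have qε : 0 ≤ ε / r ^ 2 := by positivity
  have num : ∀ {h k κ₁ κ₂ : ℝ}, h1 ≤ h → |h - κ₁| ≤ S → |k - κ₂| ≤ S → |h - k| ≤ ε₀ * h →
      (|κ₂ - κ₁| ≤ ε₂ * min κ₁ κ₂ ∧ κ₂ ≤ 2 * κ₁ ∧ h / 2 ≤ min κ₁ κ₂ ∧ κ₁ ≤ 2 * h ∧ κ₂ ≤ 2 * h) ∧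
      |κ₂ - κ₁| ≤ ε3 * min κ₁ κ₂ ∧ |κ₂ - κ₁| ≤ 1 / 25000 * min κ₁ κ₂ ∧ 0 < h ∧
      k₀ + k0 + 16 / r ^ 2 + 20 / ε₂ + 2 * K + 2 * D * E + |k0| ≤ min κ₁ κ₂ :=
    fun hh a1 a2 hd => num_arith hk₀ hK q1 hε₂ q4 b0 hS0 b1 b2 b3 hh1 hh a1 a2 hd
  -- the comparison of the true and of the improved differences
  have cmp : ∀ {h k κ₁ κ₂ M₁ M₂ l : ℝ} {f₁ f₂ : G → ℝ} {F₁ F₂ : (Mat N)ˣ → ℂ}
      {m₁ m₂ : (Fin n → ℂ) → ℂ}, h1 ≤ h → |h - k| ≤ ε₀ * h → 0 < κ₁ → 0 < κ₂ →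
      PS B r ε κ₁ κ₂ M₁ M₂ l f₁ f₂ F₁ F₂ m₁ m₂ → h = κ₁ + 48 / 5 * qb n m₁ / κ₁ →
      k = κ₂ + 48 / 5 * qb n m₂ / κ₂ → |h - κ₁| ≤ S ∧ |k - κ₂| ≤ S ∧
      |κ₂ - κ₁| ≤ 2 * |h - k| + 2 * D * (l / min κ₁ κ₂) ∧
      |h - k| ≤ 3 / 2 * |κ₂ - κ₁| + D * (l / min κ₁ κ₂) := by
    intro h k κ₁ κ₂ M₁ M₂ l f₁ f₂ F₁ F₂ m₁ m₂ hh hd hκ₁ hκ₂ P e1 e2
    have a1 := NS.imp_le P.N1 hr hn hκ₁
    have a2 := NS.imp_le P.N2 hr hn hκ₂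
    rw [← e1, ← hS] at a1
    rw [← e2, ← hS] at a2
    obtain ⟨⟨r1, r2, r3, r4, r5⟩, -, -, hh0, r6⟩ := num hh a1.1 a2.1 hd
    have a3 := PS.imp_diff P hr hn hκ₁ hκ₂
    rw [← hD] at a3
    have e3 : h - k = -(κ₂ - κ₁) - (48 / 5 * qb n m₂ / κ₂ - 48 / 5 * qb n m₁ / κ₁) := by
      rw [e1, e2]; ring
    have i4 : 2 * D * E ≤ min κ₁ κ₂ := by linarith
    have a4 := cmp_arith hκ₁ hκ₂ rfl (by linarith : ε₂ ≤ 1) r1 qε hE a1.2 hD0 P.D.l0 i4 a3 e3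
    exact ⟨a1.1, a2.1, a4.1, a4.2⟩
  refine ⟨h1, ε₀, C', c0 / 8, Dm, b0, hC'0, by positivity, ?_, ?_, ?_, ?_, ?_⟩
  · -- nn
    rintro f g h k l ⟨_, _, _, _, _, _, _, _, _, _, _, _, l₀, _, _, _, _, _, _, P, hl, _⟩
    exact P.D.l0.trans hl
  · -- init
    intro f h ρ g k σ hP hP' hh hk hd
    obtain ⟨hρ, F₁, m₁, κ₁, hκ₁, p1, p2, p3, p4, -, p5, -, p6⟩ := hP
    obtain ⟨hσ, F₂, m₂, κ₂, hκ₂, z1, z2, z3, z4, -, z5, -, z6⟩ := hP'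
    have hN1 := NS.of_st p1 p2 p3 p4 (by positivity) p5
    have hN2 := NS.of_st z1 z2 z3 z4 (by positivity) z5
    have a1 := (NS.imp_le hN1 hr hn hκ₁).1
    have a2 := (NS.imp_le hN2 hr hn hκ₂).1
    rw [← p6, ← hS] at a1
    rw [← z6, ← hS] at a2
    obtain ⟨⟨r1, r2, r3, r4, r5⟩, -, r7, hh0, r6⟩ := num hh a1 a2 hd
    have hk := k_arith hh0 b3 hd
    have w := w_arith hρ hσ hh0 hk.1 hk.2 r4 r5 u1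
    have e2 : 20 ≤ ε₂ * min κ₁ κ₂ := by
      have := (div_le_iff₀ hε₂).1 (show 20 / ε₂ ≤ min κ₁ κ₂ by linarith)
      linarith
    refine ⟨C' * (1 + ρ * h + σ * k), le_rfl, f 1, g 1, _, _, _, _, m₁, m₂, κ₁, κ₂, ρ * κ₁,
      σ * κ₂, ρ * κ₁ + σ * κ₂ + 2, p2 1, z2 1, ?_, ?_, hκ₁, hκ₂,
      ⟨hN1, hN2, N988.MK.Dd.trivial hr hN1 hN2⟩, w, ?_, p6, z6⟩
    · funext x
      rw [mul_inv_cancel_left₀ (p2 1).ne']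
    · funext x
      rw [mul_inv_cancel_left₀ (z2 1).ne']
    · exact init_arith hκ₁ hκ₂ rfl r7 hε₂ hε hεε hr21 e2 p5 z5
  · -- step
    intro f h ρ g k σ h' ρ' k' σ' l hP hQ hP' hQ' hR hh hk hd
    obtain ⟨v₁, v₂, g₁, g₂, F₁, F₂, m₁, m₂, κ₁, κ₂, M₁, M₂, l₀, hv₁, hv₂, e1, e2, hκ₁, hκ₂, P, hl,
      hlr, e3, e4⟩ := hR
    obtain ⟨-, -, N1, hTS⟩ := P3St.same (hG := hG) hP hr hn hv₁ e1 P.N1
    obtain ⟨-, -, N2, -⟩ := P3St.same (hG := hG) hQ hr hn hv₂ e2 P.N2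
    have P' : PS B r ε κ₁ κ₂ (ρ * κ₁) (σ * κ₂) l₀ g₁ g₂ F₁ F₂ m₁ m₂ := ⟨N1, N2, P.D⟩
    obtain ⟨s1, s2, s3, s4⟩ := cmp hh hd hκ₁ hκ₂ P' e3 e4
    obtain ⟨⟨r1, r2, r3, r4, r5⟩, -, -, hh0, r6⟩ := num hh s1 s2 hd
    have hl₀ := P.D.l0
    have hρ := hP.1
    have hσ := hQ.1
    have c1 : min κ₁ κ₂ ≤ κ₁ := min_le_left _ _
    have c2 : min κ₁ κ₂ ≤ κ₂ := min_le_right _ _
    obtain ⟨κ₁', κ₂', M₁', M₂', l', m₁', m₂', F₁', F₂', a₁, a₂, g₁', g₂', ha₁, ha₂, x1, x2, PP, x3,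
      x4, x5, x6, x7, x8, x9, x10⟩ := hpair (by linarith) (by linarith) P' hTS r1 hlr
    have y1 : Pool.Agent.N989.MK.TT μ f = fun x => (v₁ ^ 16 * a₁) * g₁' x := by
      rw [e1, Pool.Agent.N989.MK.TT_scale, N988.MK.TT_Rst, x1]
      funext x
      ring
    have y2 : Pool.Agent.N989.MK.TT μ g = fun x => (v₂ ^ 16 * a₂) * g₂' x := by
      rw [e2, Pool.Agent.N989.MK.TT_scale, N988.MK.TT_Rst, x2]
      funext x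
      ring
    obtain ⟨hκ₁', e5, -, -⟩ := P3St.same (hG := hG) hP' hr hn (by positivity) y1 PP.N1
    obtain ⟨hκ₂', e6, -, -⟩ := P3St.same (hG := hG) hQ' hr hn (by positivity) y2 PP.N2
    obtain ⟨κ, hκ⟩ : ∃ κ, κ = min κ₁ κ₂ := ⟨_, rfl⟩
    rw [← hκ] at r1 r3 r6 s3 s4 x3 x5 x10 c1 c2
    have hκ1 : 1 ≤ κ := by linarith
    have hκ0 : 0 < κ := by linarith
    have hi : 1 / κ ≤ 2 / h := by
      rw [div_le_div_iff₀ hκ0 hh0]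
      linarith
    obtain ⟨Δ, hΔ⟩ : ∃ Δ, Δ = |κ₂ - κ₁| := ⟨_, rfl⟩
    rw [← hΔ] at s3 s4 x3 x5 x10 r1
    have hΔ0 : 0 ≤ Δ := by rw [hΔ]; exact abs_nonneg _
    have w1 := err_arith hh0 hκ1 hi hK hD0 hl₀ hl (abs_nonneg (h - k)) s3 u2
    refine ⟨l', ⟨v₁ ^ 16 * a₁, v₂ ^ 16 * a₂, g₁', g₂', F₁', F₂', m₁', m₂', κ₁', κ₂', M₁', M₂', l',
      by positivity, by positivity, y1, y2, hκ₁', hκ₂', PP, le_rfl, x4, e5, e6⟩,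
      by linarith, ?_⟩
    -- the sharp law
    have hE1 := PS.imp_diff P' hr hn hκ₁ hκ₂
    have hE2 := PS.imp_diff PP hr hn hκ₁' hκ₂'
    have x6' := abs_le.1 x6
    have x7' := abs_le.1 x7
    obtain ⟨κ', hκ'⟩ : ∃ κ', κ' = min κ₁' κ₂' := ⟨_, rfl⟩
    have hκκ' : κ / 2 ≤ κ' := by
      rw [hκ']
      exact le_min (by linarith [x6'.1]) (by linarith [x7'.1])
    obtain ⟨Sg, hSg⟩ : ∃ Sg, Sg = 1 + ρ * κ₁ + σ * κ₂ := ⟨_, rfl⟩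
    have hρκ : 0 ≤ ρ * κ₁ := mul_nonneg hρ hκ₁.le
    have hσκ : 0 ≤ σ * κ₂ := mul_nonneg hσ hκ₂.le
    have hSg1 : 1 ≤ Sg := by rw [hSg]; linarith
    rw [← hSg] at x10
    have hSgE := sg_arith hκ₁ hκ₂ hκ (by linarith : ε₂ ≤ 1) hκ1 qε hE hΔ r1 hSg
      (NS.imp_le N1 hr hn hκ₁).2 (NS.imp_le N2 hr hn hκ₂).2
    rw [← hD, ← hκ, ← hΔ] at hE1
    rw [← hD, ← hκ'] at hE2
    have hΔΔ : |κ₂' - κ₁'| ≤ Δ + K * (Δ + l₀) / κ := by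
      have e7 : κ₂' - κ₁' = ((κ₂' - κ₁') - (κ₂ - κ₁)) + (κ₂ - κ₁) := by ring
      rw [e7]
      refine (abs_add_le _ _).trans ?_
      rw [← hΔ]
      linarith
    have r8 := mod_arith (S := Sg) (E := E) hκ1 hκκ' hΔ0 (abs_nonneg (κ₂' - κ₁')) hl₀ hK hD0
      (by linarith) hSg1 hSgE (by rw [hSg]; linarith : ρ * κ₁ ≤ Sg) x8 PP.N1.M0 PP.D.l0 x3 hΔΔ
      x10 hE1 hE2
    rw [← hC1'] at r8
    have e7 : (h' - k') - (h - k) = -(((κ₂' - κ₁') - (κ₂ - κ₁)) +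
        (48 / 5 * qb n m₂' / κ₂' - 48 / 5 * qb n m₁' / κ₁') -
        (48 / 5 * qb n m₂ / κ₂ - 48 / 5 * qb n m₁ / κ₁)) := by
      rw [e3, e4, e5, e6]
      ring
    rw [e7, abs_neg]
    exact r8.trans (sharp_arith3 hh0 hκ1 hi hD0 hE0 hl₀ hl (abs_nonneg _) hρ hσ r4 r5 hSg hSg1
      hSgE s3 hC1'0 u3)
  · -- close
    intro f h ρ g k σ l hP hQ hR hh hk hd x
    obtain ⟨v₁, v₂, g₁, g₂, F₁, F₂, m₁, m₂, κ₁, κ₂, M₁, M₂, l₀, hv₁, hv₂, e1, e2, hκ₁, hκ₂, P, hl,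
      hlr, e3, e4⟩ := hR
    obtain ⟨s1, s2, s3, s4⟩ := cmp hh hd hκ₁ hκ₂ P e3 e4
    obtain ⟨⟨r1, r2, r3, r4, r5⟩, -, r7, hh0, r6⟩ := num hh s1 s2 hd
    have hl₀ := P.D.l0
    have c1 : min κ₁ κ₂ ≤ κ₁ := min_le_left _ _
    have c2 : min κ₁ κ₂ ≤ κ₂ := min_le_right _ _
    have hκ1 : 1 ≤ min κ₁ κ₂ := by linarith
    have h2 : |κ₂ - κ₁| + 2 * l₀ * r ^ 2 ≤ min κ₁ κ₂ / 10000 := by
      have h4 := mul_le_mul_of_nonneg_right hε21 (show 0 ≤ min κ₁ κ₂ by linarith)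
      linarith
    have h3 := hclose hgr (by linarith) (by linarith) (by linarith) (by linarith) r2 (by linarith)
      P h2 x
    rw [e1, e2, Pool.Agent.N989.MK.nrm_scale hv₁, Pool.Agent.N989.MK.nrm_scale hv₂]
    exact h3.trans (close_arith hcc hD0 hκ₁ r4 hκ1 hl₀ hl (abs_nonneg _) hh0 (abs_nonneg _) s3 u4)
  · -- wil
    intro f h ρ g k σ l hP hQ hR hh hk hd
    obtain ⟨v₁, v₂, g₁, g₂, F₁, F₂, m₁, m₂, κ₁, κ₂, M₁, M₂, l₀, hv₁, hv₂, e1, e2, hκ₁, hκ₂, P, hl,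
      hlr, e3, e4⟩ := hR
    obtain ⟨s1, s2, s3, s4⟩ := cmp hh hd hκ₁ hκ₂ P e3 e4
    obtain ⟨⟨r1, r2, r3, r4, r5⟩, r8, r7, hh0, r6⟩ := num hh s1 s2 hd
    have hl₀ := P.D.l0
    have c1 : min κ₁ κ₂ ≤ κ₁ := min_le_left _ _
    have c2 : min κ₁ κ₂ ≤ κ₂ := min_le_right _ _
    have hκ0 : 0 < min κ₁ κ₂ := by linarith
    have h2 : 2 * l₀ * r ^ 2 ≤ min κ₁ κ₂ / 20000 := by
      have h4 := mul_le_mul_of_nonneg_right hε21 hκ0.le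
      linarith
    have h3 := hwil hεε3 (by linarith) (by linarith) P r8 h2
    rw [e1, e2, Pool.Agent.N989.MK.WW_scale hv₁.ne', Pool.Agent.N989.MK.WW_scale hv₂.ne']
    rw [abs_sub_comm κ₁ κ₂] at h3
    exact wil_arith hc0 hC hD0 hh0 hκ0 hκ₁ r4 r3 c1 hl₀ hl (abs_nonneg _) s4 h3 u5

end

end Pool.Agent.N991.MK
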