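import Mathlib
import Pool.Agent.N984.T3.Pair
import Pool.Agent.N991.MK.Shp1
import Pool.Agent.N991.MK.Shp2

/-!
# The sharp law of the couplings of a pair under one convolution square
-/

open MeasureTheory Filter Metric Asymptotics Matrix
open scoped Matrix.Norms.Frobenius Topology ContDiff
open Pool.Agent.H906R3.YM Pool.Agent.W793.YM Pool.Agent.TH618.YM Pool.Agent.N984.TW
open Pool.Agent.N988.MK (IsoG St NS NR PS Dd KLip cf_smul st_smul tube_smul far_neg qC qC_diff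
  norm_qC_le)

namespace Pool.Agent.N991.MK

set_option linter.unusedSectionVars false

noncomputable section

variable {N n : ℕ} {G : Subgroup (UN N)} {B : Frame G n}
variable {r ε k k₁ k₂ M M₁ M₂ l T : ℝ} {f f₁ f₂ : G → ℝ} {F F₁ F₂ : (Mat N)ˣ → ℂ}
  {m m₁ m₂ : (Fin n → ℂ) → ℂ}

/-- the exponent of the quotient of two states -/
def zP (k₁ k₂ : ℝ) (m₁ m₂ : (Fin n → ℂ) → ℂ) (x : Fin n → ℂ) : ℂ :=
  -(((k₂ - k₁ : ℝ) : ℂ) / 2) * qC x - (m₂ x - m₁ x)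

/-- the quartic part of the tangent vector -/
def etaP (k₁ k₂ T : ℝ) (m₁ m₂ : (Fin n → ℂ) → ℂ) (x : Fin n → ℂ) : ℂ :=
  -((Complex.exp (zP k₁ k₂ m₁ m₂ x) - 1) / T) - (((k₂ - k₁) / T : ℝ) : ℂ) / 2 * qC x

lemma zP_le (hr1 : r ≤ 1) (hl : 0 ≤ l) (hb : ∀ x, nC x < r → ‖m₂ x - m₁ x‖ ≤ l * nC x ^ 4)
    {x : Fin n → ℂ} (hx : nC x < r) : ‖zP k₁ k₂ m₁ m₂ x‖ ≤ (|k₂ - k₁| + l) * nC x ^ 2 := by
  have h0 := nC_nonneg x
  have h1 : nC x ^ 2 ≤ 1 := pow_le_one₀ h0 (by linarith)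
  unfold zP
  refine (norm_sub_le _ _).trans ?_
  have e : ‖-(((k₂ - k₁ : ℝ) : ℂ) / 2) * qC x‖ ≤ |k₂ - k₁| / 2 * nC x ^ 2 := by
    rw [norm_mul, norm_neg, norm_div, Complex.norm_real, Real.norm_eq_abs]
    have : ‖(2 : ℂ)‖ = 2 := by norm_num
    rw [this]
    exact mul_le_mul_of_nonneg_left (norm_qC_le x) (by positivity)
  have h2 : l * nC x ^ 4 ≤ l * nC x ^ 2 := by
    refine mul_le_mul_of_nonneg_left ?_ hl
    have e4 : nC x ^ 4 = nC x ^ 2 * nC x ^ 2 := by ring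
    rw [e4]
    exact mul_le_of_le_one_right (by positivity) h1
  have h3 := hb x hx
  have h4 : 0 ≤ |k₂ - k₁| * nC x ^ 2 := by positivity
  linarith

lemma exp_two {z : ℂ} (hz : ‖z‖ ≤ 1) : ‖Complex.exp z - 1 - z‖ ≤ ‖z‖ ^ 2 :=
  Complex.norm_exp_sub_one_sub_id_le hz

variable [CompactSpace G] [MeasurableSpace G] [BorelSpace G]

/-- **the tangent vector of a pair of states** -/
theorem PS.tg (P : PS B r ε k₁ k₂ M₁ M₂ l f₁ f₂ F₁ F₂ m₁ m₂) (hr : 0 < r) (hr1 : r ≤ 1)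
    (hT : 0 < T) (hδ : |k₂ - k₁| + l ≤ 1) :
    Tg B r k₁ ((k₂ - k₁) / T) (((|k₂ - k₁| + l) ^ 2 + l) / T) (2 * l / T) F₁
      (fun u => ((T⁻¹ : ℝ) : ℂ) * (F₂ u + ((-1 : ℝ) : ℂ) * F₁ u)) (etaP k₁ k₂ T m₁ m₂) := by
  have hl := P.D.l0
  have hT' : (T : ℂ) ≠ 0 := Complex.ofReal_ne_zero.2 hT.ne'
  have hd0 := abs_nonneg (k₂ - k₁)
  refine ⟨by positivity, by positivity, fun x hx => ?_, fun x hx => ?_, fun x hx => ?_,
    fun x hx => ?_, fun v y hv hvy => ?_⟩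
  · beta_reduce
    have e1 := P.N1.st.eq x hx
    have e2 := P.N2.st.eq x hx
    rw [P.N1.one, one_mul] at e1
    rw [P.N2.one, one_mul] at e2
    have e3 : F₂ (uE B x) = F₁ (uE B x) * Complex.exp (zP k₁ k₂ m₁ m₂ x) := by
      rw [e1, e2, ← Complex.exp_add]
      congr 1
      unfold zP
      push_cast
      ring
    rw [e3]
    unfold etaP
    push_cast
    field_simp
    ring
  · have h1 : DifferentiableAt ℂ (zP k₁ k₂ m₁ m₂) x := by
      unfold zP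
      exact ((differentiableAt_const _).mul (qC_diff x)).sub
        ((P.N2.st.md x hx).sub (P.N1.st.md x hx))
    have h2 : DifferentiableAt ℂ (fun x => (Complex.exp (zP k₁ k₂ m₁ m₂ x) - 1) * (T : ℂ)⁻¹) x :=
      (h1.cexp.sub_const 1).mul_const _
    unfold etaP
    simp only [div_eq_mul_inv] at h2 ⊢
    exact h2.neg.sub ((differentiableAt_const _).mul (qC_diff x))
  · unfold etaP zP
    rw [P.N1.st.even x hx, P.N2.st.even x hx, N988.MK.qC_neg]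
  · have h0 := nC_nonneg x
    have hx1 : nC x ^ 2 ≤ 1 := pow_le_one₀ h0 (by linarith)
    have hz := zP_le (k₁ := k₁) (k₂ := k₂) hr1 hl P.D.bd hx
    have hz1 : ‖zP k₁ k₂ m₁ m₂ x‖ ≤ 1 := by
      refine hz.trans ?_
      have := mul_le_mul hδ hx1 (by positivity) (by norm_num)
      linarith
    have e : etaP k₁ k₂ T m₁ m₂ x = (-(Complex.exp (zP k₁ k₂ m₁ m₂ x) - 1 - zP k₁ k₂ m₁ m₂ x) +
        (m₂ x - m₁ x)) / T := by
      unfold etaP
      have e2 : m₂ x - m₁ x = -(((k₂ - k₁ : ℝ) : ℂ) / 2) * qC x - zP k₁ k₂ m₁ m₂ x := by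
        unfold zP
        ring
      rw [e2]
      push_cast
      field_simp
      ring
    rw [e, norm_div, Complex.norm_real, Real.norm_eq_abs, abs_of_pos hT, div_mul_eq_mul_div]
    refine div_le_div_of_nonneg_right ?_ hT.le
    refine (norm_add_le _ _).trans ?_
    rw [norm_neg]
    have h2 := exp_two hz1
    have h3 : ‖zP k₁ k₂ m₁ m₂ x‖ ^ 2 ≤ ((|k₂ - k₁| + l) * nC x ^ 2) ^ 2 :=
      pow_le_pow_left₀ (norm_nonneg _) hz 2
    have h4 := P.D.bd x hx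
    have e3 : ((|k₂ - k₁| + l) * nC x ^ 2) ^ 2 = (|k₂ - k₁| + l) ^ 2 * nC x ^ 4 := by ring
    rw [e3] at h3
    linarith
  · beta_reduce
    have h1 := P.D.tb v y hv hvy
    obtain ⟨X, hX⟩ : ∃ X, X = 1.01 * nE v ^ 2 - 0.99 * min (nN y) r ^ 2 := ⟨_, rfl⟩
    rw [← hX] at h1 ⊢
    have hy0 := nN_nonneg y
    have hX0 : X ≤ 0 := by
      rw [hX]; exact far_neg hr (nE_nonneg v) hy0 hv hvy
    have hX1 : -1 ≤ X := by
      have h4 : min (nN y) r ^ 2 ≤ r ^ 2 :=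
        pow_le_pow_left₀ (le_min hy0 hr.le) (min_le_right _ _) 2
      have h5 : r ^ 2 ≤ 1 := pow_le_one₀ hr.le hr1
      have h6 := sq_nonneg (nE v)
      rw [hX]
      linarith
    have e1 : ((T⁻¹ : ℝ) : ℂ) * (F₂ (uE B (Complex.I • rl v) * uG y) +
        ((-1 : ℝ) : ℂ) * F₁ (uE B (Complex.I • rl v) * uG y)) =
        ((T⁻¹ : ℝ) : ℂ) * (F₂ (uE B (Complex.I • rl v) * uG y) -
          F₁ (uE B (Complex.I • rl v) * uG y)) := by
      push_cast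
      ring
    rw [e1, norm_mul, Complex.norm_real, Real.norm_eq_abs, abs_of_pos (inv_pos.2 hT)]
    have h2 : Real.exp (min k₁ k₂ / 2 * X) ≤ 2 * Real.exp (k₁ / 2 * X) := by
      have e2 : min k₁ k₂ / 2 * X = k₁ / 2 * X + (k₁ - min k₁ k₂) / 2 * (-X) := by ring
      rw [e2, Real.exp_add, mul_comm]
      refine mul_le_mul_of_nonneg_right ?_ (Real.exp_pos _).le
      have h3 : k₁ - min k₁ k₂ ≤ 1 := by
        rcases le_total k₁ k₂ with h | h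
        · rw [min_eq_left h]; linarith
        · rw [min_eq_right h]
          have := neg_abs_le (k₂ - k₁)
          linarith
      have h3' : 0 ≤ k₁ - min k₁ k₂ := sub_nonneg.2 (min_le_left _ _)
      have h4 : (k₁ - min k₁ k₂) / 2 * (-X) ≤ 1 / 2 := by
        have := mul_le_mul (show (k₁ - min k₁ k₂) / 2 ≤ 1 / 2 by linarith)
          (show -X ≤ 1 by linarith) (by linarith) (by norm_num)
        linarith
      refine (Real.exp_le_exp.2 h4).trans ?_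
      have h5 := Real.exp_bound_div_one_sub_of_interval (x := 1 / 2) (by norm_num) (by norm_num)
      refine h5.trans ?_
      norm_num
    calc T⁻¹ * ‖F₂ (uE B (Complex.I • rl v) * uG y) - F₁ (uE B (Complex.I • rl v) * uG y)‖
        ≤ T⁻¹ * (l * (2 * Real.exp (k₁ / 2 * X))) :=
          mul_le_mul_of_nonneg_left (h1.trans (mul_le_mul_of_nonneg_left h2 hl))
            (inv_pos.2 hT).le
      _ = _ := by ring

/-- the quartic part along the tangent vector -/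
lemma mT_pair (hT : 0 < T) (hr1 : r ≤ 1) (hl : 0 ≤ l) (hδ : |k₂ - k₁| + l ≤ 1)
    (hb : ∀ x, nC x < r → ‖m₂ x - m₁ x‖ ≤ l * nC x ^ 4) {x : Fin n → ℂ} (hx : nC x < r) :
    mT ((k₂ - k₁) / T) T m₁ (etaP k₁ k₂ T m₁ m₂) x = m₂ x := by
  have hT' : (T : ℂ) ≠ 0 := Complex.ofReal_ne_zero.2 hT.ne'
  have h0 := nC_nonneg x
  have hx1 : nC x ^ 2 ≤ 1 := pow_le_one₀ h0 (by linarith)
  have hz := zP_le (k₁ := k₁) (k₂ := k₂) hr1 hl hb hx
  have hd0 := abs_nonneg (k₂ - k₁)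
  have hz1 : ‖zP k₁ k₂ m₁ m₂ x‖ ≤ 1 := by
    refine hz.trans ?_
    have := mul_le_mul hδ hx1 (by positivity) (by norm_num)
    linarith
  have e1 : 1 + (T : ℂ) * phT ((k₂ - k₁) / T) (etaP k₁ k₂ T m₁ m₂) x =
      Complex.exp (zP k₁ k₂ m₁ m₂ x) := by
    unfold phT etaP
    push_cast
    field_simp
    ring
  have him := (Complex.abs_im_le_norm (zP k₁ k₂ m₁ m₂ x)).trans hz1
  have him' := abs_le.1 him
  have hpi := Real.pi_gt_three
  unfold mT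
  rw [e1, Complex.log_exp (by linarith) (by linarith)]
  unfold zP
  push_cast
  field_simp
  ring

variable {μ : Measure G} [IsProbabilityMeasure μ] [μ.IsMulLeftInvariant] [μ.IsMulRightInvariant]
  [μ.IsInvInvariant]

lemma CF.lin {f g : G → ℝ} {F K : (Mat N)ˣ → ℂ} (h1 : CF f F) (h2 : CF g K) (s t : ℝ) :
    CF (fun x => s * (g x + t * f x)) (fun u => (s : ℂ) * (K u + (t : ℂ) * F u)) :=
  cf_smul (cf_add h2 h1 t) s

variable (μ) in
/-- **the sharp law of the remainder of the coupling of a pair** -/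
theorem klip_R (hG : IsClosed (G : Set (UN N))) (hI : IsoG B) (hn : 0 < n) {cA : ℝ}
    (hcA : ∀ x : Fin n → ℝ, ∑ a, ‖LX B x * B.X a - B.X a * LX B x‖ ^ 2 = cA * nE x ^ 2)
    (h6 : H6 B) (hcas : CasPair B cA) :
    ∃ r₁ ε₁ : ℝ, 0 < r₁ ∧ r₁ ≤ 1 ∧ 0 < ε₁ ∧ ∀ ε : ℝ, 0 < ε → ε ≤ ε₁ → ∀ r : ℝ, 0 < r → r ≤ r₁ →
      ∃ k₀ K : ℝ, 1 ≤ k₀ ∧ 0 ≤ K ∧ ∀ {k₁ k₂ M₁ M₂ l : ℝ} {f₁ f₂ : G → ℝ}
        {F₁ F₂ : (Mat N)ˣ → ℂ} {m₁ m₂ : (Fin n → ℂ) → ℂ}, k₀ ≤ k₁ → k₀ ≤ k₂ →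
        PS B r ε k₁ k₂ M₁ M₂ l f₁ f₂ F₁ F₂ m₁ m₂ → TubeS B r k₁ F₁ →
        ∀ {k₁' k₂' M₁' M₂' : ℝ} {m₁' m₂' : (Fin n → ℂ) → ℂ},
        St B r k₁' M₁' (convC μ F₁ F₁) m₁' → St B r k₂' M₂' (convC μ F₂ F₂) m₂' →
        |(k₂' - (k₂ / 2 - cA / 48 + (cA ^ 2 / 2304 + 3 * qb n m₂) / k₂)) -
          (k₁' - (k₁ / 2 - cA / 48 + (cA ^ 2 / 2304 + 3 * qb n m₁) / k₁))| ≤
          K * (|k₂ - k₁| + l) * (1 + M₁ + M₂) / min k₁ k₂ ^ 2 := by
  obtain ⟨ra, εa, hra, hra1, hεa, -, hsp⟩ := N988.MK.T3.sharp_pair μ hG hI hn hcA h6 hcas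
  obtain ⟨rb, εb, hrb, hεb, -, hkl⟩ := N988.MK.two_KN μ hG hI hn hcA h6 hcas
  refine ⟨min ra rb, min εa εb, lt_min hra hrb, (min_le_left _ _).trans hra1, lt_min hεa hεb,
    fun ε hε hεε r hr hrr => ?_⟩
  have hr1 : r ≤ 1 := hrr.trans ((min_le_left _ _).trans hra1)
  obtain ⟨hgr, ka, Ka, hka, hKa, hsp⟩ := hsp r hr (hrr.trans (min_le_left _ _))
  obtain ⟨kb, Kb, hkb, hKb, hkl⟩ := hkl r hr (hrr.trans (min_le_right _ _))
  refine ⟨max ka kb, 5 * Ka + 2000 * Kb, hka.trans (le_max_left _ _), by positivity,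
    fun {k₁ k₂ M₁ M₂ l f₁ f₂ F₁ F₂ m₁ m₂} hk1 hk2 P hTS {k₁' k₂' M₁' M₂' m₁' m₂'} hs1 hs2 => ?_⟩
  have hk1a : ka ≤ k₁ := (le_max_left _ _).trans hk1
  have hk1b : kb ≤ k₁ := (le_max_right _ _).trans hk1
  have hk2b : kb ≤ k₂ := (le_max_right _ _).trans hk2
  have hk10 : 0 < k₁ := by linarith
  have hk20 : 0 < k₂ := by linarith
  obtain ⟨κ, hκ⟩ : ∃ κ, κ = min k₁ k₂ := ⟨_, rfl⟩
  have hκ0 : 0 < κ := by rw [hκ]; exact lt_min hk10 hk20
  have c1 : κ ≤ k₁ := by rw [hκ]; exact min_le_left _ _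
  have c2 : κ ≤ k₂ := by rw [hκ]; exact min_le_right _ _
  rw [← hκ]
  have hl := P.D.l0
  have hM1 := P.N1.M0
  have hM2 := P.N2.M0
  have hd0 := abs_nonneg (k₂ - k₁)
  obtain ⟨R, hR⟩ : ∃ R, R = (k₂' - (k₂ / 2 - cA / 48 + (cA ^ 2 / 2304 + 3 * qb n m₂) / k₂)) -
    (k₁' - (k₁ / 2 - cA / 48 + (cA ^ 2 / 2304 + 3 * qb n m₁) / k₁)) := ⟨_, rfl⟩
  rw [← hR]
  obtain ⟨δ, hδ⟩ : ∃ δ, δ = |k₂ - k₁| + l := ⟨_, rfl⟩
  rw [← hδ]
  have hδ0 : 0 ≤ δ := by rw [hδ]; positivity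
  have hF1 : F₁ 1 ≠ 0 := by rw [P.N1.one]; exact one_ne_zero
  have hF2 : F₂ 1 ≠ 0 := by rw [P.N2.one]; exact one_ne_zero
  obtain ⟨S, hS⟩ : ∃ S, S = 1 + M₁ + M₂ := ⟨_, rfl⟩
  rw [← hS]
  have hS1 : 1 ≤ S := by rw [hS]; linarith
  have hV0 : 0 ≤ δ * S / κ ^ 2 := by positivity
  rcases le_or_gt (1 / 1000) δ with hcase | hcase
  · -- large differences
    have t1 := hkl hk1b hM1 (P.N1.Ml.trans (mul_le_mul_of_nonneg_right
      (hεε.trans (min_le_right _ _)) hk10.le)) P.N1.cf hF1 P.N1.st P.N1.tb hs1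
    have t2 := hkl hk2b hM2 (P.N2.Ml.trans (mul_le_mul_of_nonneg_right
      (hεε.trans (min_le_right _ _)) hk20.le)) P.N2.cf hF2 P.N2.st P.N2.tb hs2
    have u1 : Kb * (1 + M₁) / k₁ ^ 2 ≤ Kb * S / κ ^ 2 := by
      refine div_le_div₀ (by positivity) (mul_le_mul_of_nonneg_left (by rw [hS]; linarith) hKb)
        (by positivity) (pow_le_pow_left₀ hκ0.le c1 2)
    have u2 : Kb * (1 + M₂) / k₂ ^ 2 ≤ Kb * S / κ ^ 2 := by
      refine div_le_div₀ (by positivity) (mul_le_mul_of_nonneg_left (by rw [hS]; linarith) hKb)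
        (by positivity) (pow_le_pow_left₀ hκ0.le c2 2)
    have u3 : |R| ≤ 2 * (Kb * S / κ ^ 2) := by
      rw [hR]
      refine (abs_sub _ _).trans ?_
      linarith
    have u4 : 2 * (Kb * S / κ ^ 2) ≤ 2000 * Kb * (δ * S / κ ^ 2) := by
      have : Kb * S / κ ^ 2 * 1 ≤ Kb * S / κ ^ 2 * (1000 * δ) :=
        mul_le_mul_of_nonneg_left (by linarith) (by positivity)
      calc 2 * (Kb * S / κ ^ 2) ≤ 2 * (Kb * S / κ ^ 2 * (1000 * δ)) := by linarith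
        _ = _ := by ring
    have u5 : 0 ≤ 5 * Ka * (δ * S / κ ^ 2) := by positivity
    calc |R| ≤ 2000 * Kb * (δ * S / κ ^ 2) := u3.trans u4
      _ ≤ (5 * Ka + 2000 * Kb) * (δ * S / κ ^ 2) := by linarith
      _ = _ := by ring
  · -- small differences
    have key : ∀ s : ℝ, 0 < s → s ≤ 1 / 1000 → |R| ≤ 5 * Ka * (δ + s) * S / κ ^ 2 := by
      intro s hs hs1'
      obtain ⟨T, hT⟩ : ∃ T, T = 5 * (δ + s) := ⟨_, rfl⟩
      have hT0 : 0 < T := by rw [hT]; positivity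
      have hT1 : T ≤ 1 / 100 := by rw [hT]; linarith
      have hδ1 : |k₂ - k₁| + l ≤ 1 := by rw [← hδ]; linarith
      have htg := PS.tg P hr hr1 hT0 hδ1
      have hcf := CF.lin P.N1.cf P.N2.cf (T⁻¹) (-1)
      have hN : NR B r εa k₁ M₁ f₁ F₁ m₁ := ⟨P.N1.cf, P.N1.one, P.N1.st, P.N1.tb, hM1,
        P.N1.Ml.trans (mul_le_mul_of_nonneg_right (hεε.trans (min_le_left _ _)) hk10.le)⟩
      have hsum : |(k₂ - k₁) / T| + ((|k₂ - k₁| + l) ^ 2 + l) / T + 2 * l / T ≤ 1 := by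
        rw [abs_div, abs_of_pos hT0, ← add_div, ← add_div, div_le_one hT0, ← hδ, hT]
        have h1 : δ ^ 2 ≤ δ := by nlinarith
        linarith
      have hF : (fun u => F₁ u + (T : ℂ) * (((T⁻¹ : ℝ) : ℂ) * (F₂ u + ((-1 : ℝ) : ℂ) * F₁ u))) =
          F₂ := by
        funext u
        have hT' : (T : ℂ) ≠ 0 := Complex.ofReal_ne_zero.2 hT0.ne'
        push_cast
        field_simp
        ring
      have hs2' : St B r k₂' M₂' (convC μ
          (fun u => F₁ u + (T : ℂ) * (((T⁻¹ : ℝ) : ℂ) * (F₂ u + ((-1 : ℝ) : ℂ) * F₁ u)))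
          (fun u => F₁ u + (T : ℂ) * (((T⁻¹ : ℝ) : ℂ) * (F₂ u + ((-1 : ℝ) : ℂ) * F₁ u)))) m₂' := by
        rw [hF]
        exact hs2
      have h1 := hsp hk1a hN hTS hcf htg hsum hs1 (t := T) (by rw [abs_of_pos hT0]; exact hT1) hs2'
      have e1 : k₁ + T * ((k₂ - k₁) / T) = k₂ := by field_simp; ring
      have hq : qb n (mT ((k₂ - k₁) / T) T m₁ (etaP k₁ k₂ T m₁ m₂)) = qb n m₂ :=
        N988.MK.qb_congr (N988.MK.m4_congr hr fun x hx => mT_pair hT0 hr1 hl hδ1 P.D.bd hx)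
      rw [e1, hq, ← hR, abs_of_pos hT0] at h1
      refine h1.trans ?_
      have h2 : Ka * T * (1 + M₁) / k₁ ^ 2 ≤ Ka * T * S / κ ^ 2 := by
        refine div_le_div₀ (by positivity)
          (mul_le_mul_of_nonneg_left (by rw [hS]; linarith) (by positivity))
          (by positivity) (pow_le_pow_left₀ hκ0.le c1 2)
      refine h2.trans (le_of_eq ?_)
      rw [hT]
      ring
    have key2 : |R| ≤ 5 * Ka * δ * S / κ ^ 2 := by
      refine le_of_forall_pos_le_add fun e he => ?_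
      obtain ⟨Q, hQ⟩ : ∃ Q, Q = 5 * Ka * S / κ ^ 2 := ⟨_, rfl⟩
      have hQ0 : 0 ≤ Q := by rw [hQ]; positivity
      have h1 := key (min (1 / 1000) (e / (Q + 1))) (lt_min (by norm_num) (by positivity))
        (min_le_left _ _)
      refine h1.trans ?_
      have h2 : Q * min (1 / 1000) (e / (Q + 1)) ≤ e := by
        calc Q * min (1 / 1000) (e / (Q + 1)) ≤ Q * (e / (Q + 1)) :=
              mul_le_mul_of_nonneg_left (min_le_right _ _) hQ0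
          _ = Q / (Q + 1) * e := by ring
          _ ≤ 1 * e := by
              refine mul_le_mul_of_nonneg_right ?_ he.le
              rw [div_le_one (by positivity)]
              linarith
          _ = e := one_mul e
      have e3 : 5 * Ka * (δ + min (1 / 1000) (e / (Q + 1))) * S / κ ^ 2 =
          5 * Ka * δ * S / κ ^ 2 + Q * min (1 / 1000) (e / (Q + 1)) := by
        rw [hQ]
        ring
      rw [e3]
      linarith
    refine key2.trans ?_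
    have u5 : 0 ≤ 2000 * Kb * (δ * S / κ ^ 2) := by positivity
    calc 5 * Ka * δ * S / κ ^ 2 = 5 * Ka * (δ * S / κ ^ 2) := by ring
      _ ≤ (5 * Ka + 2000 * Kb) * (δ * S / κ ^ 2) := by linarith
      _ = _ := by ring

variable (μ) in
/-- **the sharp law of the couplings of a pair** -/
theorem kLip_all (hG : IsClosed (G : Set (UN N))) (hI : IsoG B) (hn : 0 < n) {cA : ℝ}
    (hcA : ∀ x : Fin n → ℝ, ∑ a, ‖LX B x * B.X a - B.X a * LX B x‖ ^ 2 = cA * nE x ^ 2)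
    (h6 : H6 B) (hcas : CasPair B cA) : KLip B μ := by
  obtain ⟨r₁, ε₁, hr₁, hr₁1, hε₁, h⟩ := klip_R (B := B) μ hG hI hn hcA h6 hcas
  refine ⟨r₁, ε₁, 1, hr₁, hε₁, one_pos, fun ε hε hεε r hr hrr => ?_⟩
  obtain ⟨k₀, K, hk₀, hK, h⟩ := h ε hε hεε r hr hrr
  have hr2 : 0 < r ^ 2 := by positivity
  obtain ⟨e, he⟩ : ∃ e : ℝ, e = cA ^ 2 / 2304 := ⟨_, rfl⟩
  have he0 : 0 ≤ e := by rw [he]; positivity
  obtain ⟨E, hE⟩ : ∃ E : ℝ, E = 1 + 4 * (ε / r ^ 2) := ⟨_, rfl⟩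
  have hE0 : 0 ≤ E := by rw [hE]; positivity
  refine ⟨k₀, K * (1 + E) + (9 * n + e), hk₀, by positivity,
    fun {k₁ k₂ M₁ M₂ l f₁ f₂ F₁ F₂ m₁ m₂} hk1 hk2 P hTS hd {k₁' k₂' M₁' M₂' m₁' m₂'} hs1 hs2 => ?_⟩
  have h1 := h hk1 hk2 P hTS hs1 hs2
  have hk10 : 0 < k₁ := by linarith
  have hk20 : 0 < k₂ := by linarith
  obtain ⟨κ, hκ⟩ : ∃ κ, κ = min k₁ k₂ := ⟨_, rfl⟩
  have hκ0 : 0 < κ := by rw [hκ]; exact lt_min hk10 hk20
  have hκ1 : 1 ≤ κ := by rw [hκ]; exact le_min (by linarith) (by linarith)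
  have c1 : κ ≤ k₁ := by rw [hκ]; exact min_le_left _ _
  have c2 : κ ≤ k₂ := by rw [hκ]; exact min_le_right _ _
  rw [← hκ] at h1 hd ⊢
  rw [← he] at h1
  have hl := P.D.l0
  have hM1 := P.N1.M0
  have hM2 := P.N2.M0
  have hd0 := abs_nonneg (k₂ - k₁)
  have hF1 : F₁ 1 ≠ 0 := by rw [P.N1.one]; exact one_ne_zero
  have hF2 : F₂ 1 ≠ 0 := by rw [P.N2.one]; exact one_ne_zero
  have hq := qb_lip hr hn hl (P.N1.st.smooth P.N1.cf.hol hF1 hr) (P.N2.st.smooth P.N2.cf.hol hF2 hr)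
    P.N1.st.md P.N2.st.md P.D.bd
  have hq1 := qb_le P.N1.st P.N1.cf.hol hF1 hr hM1 hn
  obtain ⟨S, hS⟩ : ∃ S, S = 1 + M₁ + M₂ := ⟨_, rfl⟩
  rw [← hS] at h1 ⊢
  have hS1 : 1 ≤ S := by rw [hS]; linarith
  have hSE : S ≤ E * κ := by
    have hΔ : |k₂ - k₁| ≤ κ := by
      have : 0 ≤ 2 * l * r ^ 2 := by positivity
      linarith
    have hΔ' := abs_le.1 hΔ
    have h3 : k₁ ≤ 2 * κ ∧ k₂ ≤ 2 * κ := by
      rcases le_total k₁ k₂ with h | h
      · have : κ = k₁ := by rw [hκ]; exact min_eq_left h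
        constructor <;> linarith
      · have : κ = k₂ := by rw [hκ]; exact min_eq_right h
        constructor <;> linarith
    have h5 : (M₁ + M₂) * r ^ 2 ≤ 4 * ε * κ := by
      have i1 : ε * k₁ ≤ ε * (2 * κ) := mul_le_mul_of_nonneg_left h3.1 hε.le
      have i2 : ε * k₂ ≤ ε * (2 * κ) := mul_le_mul_of_nonneg_left h3.2 hε.le
      have := P.N1.Ml
      have := P.N2.Ml
      linarith
    have h6 : M₁ + M₂ ≤ 4 * ε * κ / r ^ 2 := by rwa [le_div_iff₀ hr2]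
    have h7 : E * κ = κ + 4 * ε * κ / r ^ 2 := by rw [hE]; ring
    rw [hS]
    linarith
  obtain ⟨R, hR⟩ : ∃ R, R = (k₂' - (k₂ / 2 - cA / 48 + (e + 3 * qb n m₂) / k₂)) -
    (k₁' - (k₁ / 2 - cA / 48 + (e + 3 * qb n m₁) / k₁)) := ⟨_, rfl⟩
  rw [← hR] at h1
  have e1 : (k₂' - k₁') - (k₂ - k₁) / 2 = R + 3 * ((qb n m₂ - qb n m₁) * (1 / k₂)) +
      (e + 3 * qb n m₁) * ((k₁ - k₂) * (1 / (k₁ * k₂))) := by
    rw [hR]
    field_simp
    ring
  obtain ⟨V, hV⟩ : ∃ V : ℝ, V = |k₂ - k₁| * S / κ ^ 2 := ⟨_, rfl⟩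
  obtain ⟨U, hU⟩ : ∃ U : ℝ, U = l / κ := ⟨_, rfl⟩
  have hV0 : 0 ≤ V := by rw [hV]; positivity
  have hU0 : 0 ≤ U := by rw [hU]; positivity
  have r1 : |R| ≤ K * (V + E * U) := by
    refine h1.trans ?_
    calc K * (|k₂ - k₁| + l) * S / κ ^ 2 = K * (|k₂ - k₁| * S / κ ^ 2 + l / κ * (S / κ)) := by
          field_simp
      _ ≤ K * (V + E * U) := by
          rw [← hV, ← hU]
          refine mul_le_mul_of_nonneg_left ?_ hK
          have i1 : S / κ ≤ E := by rwa [div_le_iff₀ hκ0]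
          have i2 : U * (S / κ) ≤ U * E := mul_le_mul_of_nonneg_left i1 hU0
          linarith
  have r2 : |3 * ((qb n m₂ - qb n m₁) * (1 / k₂))| ≤ 9 * n * U := by
    rw [abs_mul, abs_mul, abs_of_pos (by norm_num : (0 : ℝ) < 3),
      abs_of_pos (by positivity : 0 < 1 / k₂)]
    have i1 : 1 / k₂ ≤ 1 / κ := one_div_le_one_div_of_le hκ0 c2
    have i2 : |qb n m₂ - qb n m₁| * (1 / k₂) ≤ 3 * n * l * (1 / κ) :=
      mul_le_mul hq i1 (by positivity) (by positivity)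
    calc 3 * (|qb n m₂ - qb n m₁| * (1 / k₂)) ≤ 3 * (3 * n * l * (1 / κ)) := by linarith
      _ = _ := by rw [hU]; ring
  have r3 : |(e + 3 * qb n m₁) * ((k₁ - k₂) * (1 / (k₁ * k₂)))| ≤ (e + 9 * n) * V := by
    rw [abs_mul, abs_mul, abs_of_pos (by positivity : 0 < 1 / (k₁ * k₂)), abs_sub_comm k₁ k₂]
    have i1 : 1 / (k₁ * k₂) ≤ 1 / κ ^ 2 := by
      refine one_div_le_one_div_of_le (by positivity) ?_
      rw [pow_two]
      exact mul_le_mul c1 c2 hκ0.le hk10.le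
    have i2 : |e + 3 * qb n m₁| ≤ (e + 9 * n) * S := by
      refine (abs_add_le _ _).trans ?_
      rw [abs_of_nonneg he0, abs_mul, abs_of_pos (by norm_num : (0 : ℝ) < 3)]
      have j1 : e * 1 ≤ e * S := mul_le_mul_of_nonneg_left hS1 he0
      have j2 : (9 * n : ℝ) * M₁ ≤ 9 * n * S :=
        mul_le_mul_of_nonneg_left (by rw [hS]; linarith) (by positivity)
      linarith
    calc |e + 3 * qb n m₁| * (|k₂ - k₁| * (1 / (k₁ * k₂)))
        ≤ (e + 9 * n) * S * (|k₂ - k₁| * (1 / κ ^ 2)) :=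
          mul_le_mul i2 (mul_le_mul_of_nonneg_left i1 hd0) (by positivity) (by positivity)
      _ = _ := by rw [hV]; ring
  rw [← hV, ← hU, e1]
  refine (abs_add_le _ _).trans ((add_le_add ((abs_add_le _ _).trans (add_le_add r1 r2)) r3).trans ?_)
  have p1 : 0 ≤ K * E * V := by positivity
  have p2 : 0 ≤ K * U := by positivity
  have p3 : 0 ≤ 9 * (n : ℝ) * V := by positivity
  have p4 : 0 ≤ e * U := by positivity
  have e2 : (K * (1 + E) + (9 * n + e)) * (V + U) = K * (V + E * U) + 9 * n * U +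
      (e + 9 * n) * V + (K * E * V + K * U + e * U) := by ring
  rw [e2]
  linarith

end

end Pool.Agent.N991.MK
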