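import Mathlib
import Pool.Agent.N991.MK.Shp3
import Pool.Agent.N991.MK.Flow3
import Pool.Agent.N991.MK.Shp4
import Pool.Agent.N991.MK.FlowU
import Pool.Agent.N991.MK.TwoMain
import Pool.Agent.N988.MK.S4

/-!
# The sharp weak coupling flow of the hierarchical model, for all entrances
-/

open MeasureTheory Filter Metric Asymptotics Matrix
open scoped Matrix.Norms.Frobenius Topology ContDiff
open Pool.Agent.H906R3.YM Pool.Agent.W793.YM Pool.Agent.TH618.YM Pool.Agent.N984.TW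
open Pool.Agent.N988.MK (IsoG St WilLipX KLip pair_R3)

namespace Pool.Agent.N991.MK

set_option linter.unusedSectionVars false

noncomputable section

variable {N n : ℕ} {G : Subgroup (UN N)} {B : Frame G n} {hG : IsClosed (G : Set (UN N))}
variable [CompactSpace G] [MeasurableSpace G] [BorelSpace G] [SecondCountableTopology G]

section
variable {μ : Measure G} [IsProbabilityMeasure μ] [μ.IsHaarMeasure] [μ.IsMulRightInvariant]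
  [μ.IsInvInvariant]

include hG in
/-- **the sharp weak coupling flow with the sharp comparison of pairs, for all entrances** -/
theorem exists_flow3U [ConnectedSpace G] {χ : G → ℝ} {A : ℝ} (hA : 0 ≤ A) (hn : 0 < n)
    (hI : IsoG B) (hW : WilLawX B μ χ A) (hL : WilLipX B μ χ) {cA : ℝ} (hcA0 : 0 < cA)
    (hcA : ∀ x : Fin n → ℝ,
      ∑ a, ‖LX B x * B.X a - B.X a * LX B x‖ ^ 2 = cA * ∑ a, x a ^ 2)
    (hKL : KLaw B μ cA) (hQL : QLaw1 B μ cA) (hKP : KLip B μ) {r₂ CW Λ Rτ : ℝ} (hr₂ : 0 < r₂)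
    (hCW : 0 ≤ CW) (hRτ : 0 ≤ Rτ) :
    ∃ (P : (G → ℝ) → ℝ → ℝ → Prop) (Q : (G → ℝ) → (G → ℝ) → ℝ → ℝ → ℝ → Prop)
      (h0 C R h1 ε C' c0 : ℝ) (Dm : ℕ),
      (∀ (w : ℝ → G → ℝ) (W : ℝ → (Mat N)ˣ → ℂ) (mw : ℝ → (Fin n → ℂ) → ℂ) (τ : ℝ),
        Ent B w W mw r₂ CW Λ → (∀ β, 1 ≤ β → |48 / 5 * qb n (mw β) / β - τ| ≤ Rτ / β) →
        Flow3 μ χ (Pool.Agent.N989.MK.EDG B hG) w P (cA / 8) (-(cA ^ 2 / 240)) τ h0 C A R) ∧
      PairFlow3 μ χ P Q h1 ε C' c0 Dm := by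
  have hcA' : ∀ x : Fin n → ℝ, ∑ a, ‖LX B x * B.X a - B.X a * LX B x‖ ^ 2 = cA * nE x ^ 2 :=
    fun x => by rw [hcA x, Pool.Agent.N991.MK.nE_sq]
  obtain ⟨r₁, ε₁, hr₁, hε₁, hflow⟩ := flow3_R (hG := hG) (Λ := Λ) hA hn hI hW hcA0 hcA hKL hQL
    hr₂ hCW hRτ
  obtain ⟨r₅, ε₅, ε₂, hr₅, hr₅1, hε₅, hε₂, hε₂1, hpair⟩ := pair_R3 B μ hG hI hn hcA' hKP
  obtain ⟨r₆, ε₆, hr₆, hε₆, hlip⟩ := hL
  obtain ⟨rg, hrg, hgood⟩ := exists_goodR B hG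
  obtain ⟨ε, hεd⟩ : ∃ ε : ℝ, ε = min (min ε₁ ε₅) (min ε₆ (ε₂ / 10)) := ⟨_, rfl⟩
  have hε : 0 < ε := by
    rw [hεd]; exact lt_min (lt_min hε₁ hε₅) (lt_min hε₆ (by positivity))
  have hεε₁ : ε ≤ ε₁ := by rw [hεd]; exact (min_le_left _ _).trans (min_le_left _ _)
  have hεε₅ : ε ≤ ε₅ := by rw [hεd]; exact (min_le_left _ _).trans (min_le_right _ _)
  have hεε₆ : ε ≤ ε₆ := by rw [hεd]; exact (min_le_right _ _).trans (min_le_left _ _)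
  have hεε₂ : ε ≤ ε₂ / 10 := by rw [hεd]; exact (min_le_right _ _).trans (min_le_right _ _)
  have hε' : 0 < ε / (CW + 1) := by positivity
  obtain ⟨r, hrdef⟩ : ∃ r : ℝ, r = min (min r₅ r₆) (min (min r₁ rg)
    (min 1 (ε / (CW + 1)))) := ⟨_, rfl⟩
  have hr : 0 < r := by
    rw [hrdef]
    exact lt_min (lt_min hr₅ hr₆) (lt_min (lt_min hr₁ hrg) (lt_min one_pos hε'))
  have hrr₅ : r ≤ r₅ := by rw [hrdef]; exact (min_le_left _ _).trans (min_le_left _ _)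
  have hrr₆ : r ≤ r₆ := by rw [hrdef]; exact (min_le_left _ _).trans (min_le_right _ _)
  have hrx : r ≤ min (min r₁ rg) (min 1 (ε / (CW + 1))) := by rw [hrdef]; exact min_le_right _ _
  have hrr₁ : r ≤ r₁ := hrx.trans ((min_le_left _ _).trans (min_le_left _ _))
  have hrrg : r ≤ rg := hrx.trans ((min_le_left _ _).trans (min_le_right _ _))
  have hr1 : r ≤ 1 := hrx.trans ((min_le_right _ _).trans (min_le_left _ _))
  have hrε : r ≤ ε / (CW + 1) := hrx.trans ((min_le_right _ _).trans (min_le_right _ _))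
  have hCWr : CW * r ^ 2 ≤ ε := by
    have h1 : r ^ 2 ≤ r := by nlinarith
    have h2 : r * (CW + 1) ≤ ε := (le_div_iff₀ (by positivity)).1 hrε
    nlinarith
  have hgr : GoodR B r := hgood r hr hrrg
  obtain ⟨h1, K, h0, C, R, hF⟩ := hflow ε hε hεε₁ r hr hrr₁ hCWr
  obtain ⟨kp, Kp, hkp, hKp, hpair⟩ := hpair ε hε hεε₅ r hr hrr₅
  obtain ⟨kl, Cl, cl, hkl, hCl, hcl, hlip⟩ := hlip r hr hrr₆ hgr
  obtain ⟨h2, ε₀, C', c0', Dm, PF⟩ := pairFlow3_of (μ := μ) (χ := χ) (h0 := h1) (C1 := K) hG hn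
    hgr hr1 hε₂ hε₂1 hε hεε₂ hε₆ hεε₆ hkp hKp hCl hcl hpair hlip
  exact ⟨P3St B μ r ε h1 K, Q3St B r ε ε₂, h0, C, R, h2, ε₀, C', c0', Dm, hF, PF⟩

variable (μ) in
theorem qLaw1 (hG : IsClosed (G : Set (UN N))) (hI : IsoG B) (hn : 0 < n) {cA : ℝ}
    (hcA : ∀ x : Fin n → ℝ, ∑ a, ‖LX B x * B.X a - B.X a * LX B x‖ ^ 2 = cA * nE x ^ 2)
    (h6 : H6 B) (hcas : CasPair B cA) : QLaw1 B μ cA :=
  N988.MK.two_Q μ hG hI hn hcA h6 hcas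

end

/-- **the sharp weak coupling flow of the hierarchical model, for all entrances** -/
theorem weak_flow3 [ConnectedSpace G] (B : Frame G n) (hG : IsClosed (G : Set (UN N)))
    (μ : Measure G) [IsProbabilityMeasure μ] [μ.IsHaarMeasure] [μ.IsMulRightInvariant]
    [μ.IsInvInvariant] (hnc : ∃ g h : G, g * h ≠ h * g)
    (hs : ∀ H : Subgroup G, H.Normal → IsClosed (H : Set G) → Finite H ∨ H = ⊤)
    {P : Mat N} (hP : IPr G P) (hP0 : 0 < (trace P).re) (hPg : ∃ g : G, P * mt g ≠ P) :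
    ∃ cA : ℝ, 0 < cA ∧
      (∀ x : Fin n → ℝ, ∑ a, ‖LX B x * B.X a - B.X a * LX B x‖ ^ 2 = cA * ∑ a, x a ^ 2) ∧
      ∀ r₀ CW Λ Rτ : ℝ, 0 < r₀ → 0 ≤ CW → 0 ≤ Rτ →
      ∃ (St : (G → ℝ) → ℝ → ℝ → Prop) (Q : (G → ℝ) → (G → ℝ) → ℝ → ℝ → ℝ → Prop)
        (h0 C R h1 ε C' c0 : ℝ) (Dm : ℕ),
        (∀ (w : ℝ → G → ℝ) (W : ℝ → (Mat N)ˣ → ℂ) (mw : ℝ → (Fin n → ℂ) → ℂ) (τ : ℝ),
          Ent B w W mw r₀ CW Λ → (∀ β, 1 ≤ β → |48 / 5 * qb n (mw β) / β - τ| ≤ Rτ / β) →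
          Flow3 μ (chiP P : G → ℝ) (Pool.Agent.N989.MK.EDG B hG) w St (cA / 8)
            (-(cA ^ 2 / 240)) τ h0 C ((∑ a, ‖P * B.X a‖ ^ 2) / (2 * (trace P).re)) R) ∧
        PairFlow3 μ (chiP P : G → ℝ) St Q h1 ε C' c0 Dm := by
  obtain ⟨cA, hcA0, hcA⟩ := exists_cA B hG hnc hs
  have hI := isoG_of_simple B hG hnc hs
  have hn := N988.MK.frame_pos B hG hnc
  have hcA' : ∀ x : Fin n → ℝ,
      ∑ a, ‖LX B x * B.X a - B.X a * LX B x‖ ^ 2 = cA * nE x ^ 2 := fun x => by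
    rw [hcA x, Pool.Agent.N991.MK.nE_sq]
  have hcas : CasPair B cA := casPair hG hcA
  exact ⟨cA, hcA0, hcA, fun r₀ CW Λ Rτ hr₀ hCW hRτ => exists_flow3U (hG := hG) (by positivity) hn
    hI (wil_lawP B hG μ hP hP0) (wilLipX B hG μ hI hn hP hP0 (exists_PX B hG hPg)) hcA0 hcA
    (kLaw μ hG hI hn hcA' (h6_all B) hcas) (qLaw1 μ hG hI hn hcA' (h6_all B) hcas)
    (kLip_all μ hG hI hn hcA' (h6_all B) hcas) hr₀ hCW hRτ⟩

section
open Pool.Agent.N988.MK (IsPol wS syC mS WS CF_syC near_form kappa_pos Tube_wS LBw_wS SC_wS CF_wS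
  wS_pos St_wS wS_cont hess_wS qC)
open Pool.Agent.N989.MK (SC EDG)

variable {S : G → ℝ}

include hG in
/-- **Every polynomial class action is an entrance**, with its shift of the coupling. -/
theorem ent_pol3 (B : Frame G n) (hI : IsoG B) (hn : 0 < n) (μ : Measure G)
    [IsProbabilityMeasure μ]
    [μ.IsMulLeftInvariant] [μ.IsMulRightInvariant] [μ.IsInvInvariant] (hpol : IsPol S)
    (hcls : ∀ g h : G, S (h * g * h⁻¹) = S g) (hsym : ∀ g : G, S g⁻¹ = S g)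
    (hmax : ∃ c : ℝ, 0 < c ∧ ∀ g : G, c * (N - (trace (mt g)).re) ≤ S 1 - S g) :
    ∃ (κ τ : ℝ) (W : ℝ → (Mat N)ˣ → ℂ) (mw : ℝ → (Fin n → ℂ) → ℂ) (r0 CW Λ K : ℝ), 0 < κ ∧
      0 ≤ K ∧ Ent B (wS S κ) W mw r0 CW Λ ∧
      (∀ β : ℝ, 0 ≤ β → SC (EDG B hG) (K * β) (wS S κ β)) ∧
      (Continuous fun p : ℝ × G => wS S κ p.1 p.2) ∧
      (∀ β : ℝ, 0 < β → 48 / 5 * qb n (mw β) / β = τ) ∧
      ∀ (a : Fin n) (γ : ℝ → G), (∀ t, mt (γ t) = NormedSpace.exp (t • B.X a)) →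
        Tendsto (fun t => (S 1 - S (γ t)) / t ^ 2) (𝓝[≠] 0) (𝓝 (κ / 2)) := by
  obtain ⟨p, hp⟩ := hpol
  obtain ⟨c, hc, hlow⟩ := hmax
  have hcf : CF S (syC μ p) := CF_syC μ p hp hcls hsym
  obtain ⟨κ, C, hC, hnear⟩ := near_form (B := B) hG hI hcf
  have hκ : 0 < κ := lt_of_lt_of_le hc (kappa_pos hG hn hcf hc hlow hnear)
  obtain ⟨r0, hr0, ht⟩ := Tube_wS (B := B) hG hcf hκ hC hc hlow hnear
  obtain ⟨Λ, hΛ, hl⟩ := LBw_wS hcf hκ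
  obtain ⟨K, hK, hsc⟩ := SC_wS hG B hcf hκ
  obtain ⟨m0, hm0⟩ : ∃ m0 : (Fin n → ℂ) → ℂ,
    m0 = fun x => syC μ p 1 - syC μ p (uE B x) - κ / 2 * qC x := ⟨_, rfl⟩
  have hsm : ContDiffAt ℂ ∞ m0 0 := by
    obtain ⟨Φ, hΦ, hF⟩ := hcf.hol
    have hFs : ContDiff ℂ ∞ fun x : Fin n → ℂ => syC μ p (uE B x) := by
      have e : (fun x : Fin n → ℂ => syC μ p (uE B x)) = fun x => Φ (EC B x, EC B (-x)) := by
        funext x
        rw [hF, uE_inv_val, uE_val]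
      rw [e]
      exact hΦ.comp ((EC_contDiff B).prodMk ((EC_contDiff B).comp contDiff_neg))
    have h5 : ContDiff ℂ ∞ (qC : (Fin n → ℂ) → ℂ) := by
      unfold Pool.Agent.N988.MK.qC
      fun_prop
    rw [hm0]
    exact ((contDiff_const.sub hFs).sub (contDiff_const.mul h5)).contDiffAt
  refine ⟨κ, 48 / 5 * (1 / κ) * qb n m0, WS (syC μ p) κ, mS B (syC μ p) κ, min r0 1, C / κ, Λ, K,
    hκ, hK, ⟨by positivity, by positivity, hΛ, fun β _ => CF_wS hcf β, fun β x => wS_pos β x,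
      fun r hr hrr β hβ => St_wS hcf hκ hnear (hrr.trans (min_le_right _ _)) hβ,
      fun r hr hrr β hβ => ht r hr (hrr.trans (min_le_left _ _)) β hβ, hl⟩,
    hsc, wS_cont hcf, fun β hβ => ?_, hess_wS hG hcf hnear⟩
  have e : mS B (syC μ p) κ β = fun x => ((β / κ : ℝ) : ℂ) * m0 x := by
    funext x
    rw [hm0]
    rfl
  rw [e, qb_const_mul (β / κ) hsm]
  field_simp

end

end

end Pool.Agent.N991.MK
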