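import Mathlib
import Pool.Agent.N991.MK.CnsDefs
import Pool.Agent.N991.MK.GapDefs

/-!
# The coarse field: combinatorics
-/

open MeasureTheory Pool.Agent.N989.MK

namespace Pool.Agent.N991.MK

noncomputable section

variable {m : ℕ}

lemma fpos_pos {n : ℕ} (h : Fin 2) (k : Fin (2 ^ n)) (r : Fin (2 ^ m)) :
    (fpos (pos h k) r : Fin (2 ^ (m + (n + 1)))) = pos (n := m + n) h (fpos k r) := by
  apply Fin.ext
  change ((h : ℕ) * 2 ^ n + k) * 2 ^ m + r = h * 2 ^ (m + n) + (k * 2 ^ m + r)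
  rw [pow_add]
  ring

lemma pth_inl {n : ℕ} (i : Fin 4) (c : Fin (2 ^ n)) (r : Fin (2 ^ m)) :
    pth (.inl (i, c) : Ed n) r = .inl (i, fpos c r) := by
  cases n <;> rfl

lemma pth_emb {n : ℕ} (s q : Fin 4) (e : Ed n) (r : Fin (2 ^ m)) :
    pth (emb s q e) r = (emb s q (pth e r) : Ed (m + n + 1)) := by
  rcases e with ⟨i, k⟩ | e
  · rw [pth_inl]
    unfold emb
    rcases hs : side q i with ⟨j, h⟩ | j
    · simp only [hs]
      rw [pth_inl, fpos_pos]
    · simp only [hs]
      rfl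
  · rfl

lemma blk_bd : ∀ {n : ℕ} (p : Pq n) (i : Fin 4) (k : Fin (2 ^ m)),
    blk p (.inl (i, k)) = pth (bd n p i) k
  | 0, p, i, k => by
    change (.inl (i, k) : Ed m) = pth (.inl (i, 0) : Ed 0) k
    rw [pth_inl]
    have e : (fpos (0 : Fin (2 ^ 0)) k : Fin (2 ^ (m + 0))) = k := by
      apply Fin.ext
      change ((0 : Fin (2 ^ 0)) : ℕ) * 2 ^ m + k = k
      simp
    rw [e]
  | n + 1, (s, q, p), i, k => by
    change emb s q (blk p (.inl (i, k))) = pth (emb s q (bd n p i)) k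
    rw [pth_emb, blk_bd p i k]

/-- the edges of the fine square: the edges on the coarse edges and the edges inside the blocks -/
def fib {n : ℕ} : (Ed n × Fin (2 ^ m)) ⊕ (Pq n × IE m) → Ed (m + n)
  | .inl (e, r) => pth e r
  | .inr (p, e) => blk p (.inr e)

lemma fpos_surj {n : ℕ} (k : Fin (2 ^ (m + n))) :
    ∃ (c : Fin (2 ^ n)) (r : Fin (2 ^ m)), fpos c r = k := by
  have h0 : 0 < 2 ^ m := by positivity
  refine ⟨⟨k / 2 ^ m, ?_⟩, ⟨k % 2 ^ m, Nat.mod_lt _ h0⟩, ?_⟩
  · rw [Nat.div_lt_iff_lt_mul h0, ← pow_add, add_comm n m]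
    exact k.2
  · apply Fin.ext
    change (k : ℕ) / 2 ^ m * 2 ^ m + k % 2 ^ m = k
    rw [mul_comm]
    exact Nat.div_add_mod _ _

lemma fib_surj : ∀ n : ℕ, Function.Surjective (fib (m := m) (n := n))
  | 0, .inl (i, k) => by
    refine ⟨.inl (.inl (i, 0), k), ?_⟩
    change pth (.inl (i, 0) : Ed 0) k = _
    rw [pth_inl]
    have e : (fpos (0 : Fin (2 ^ 0)) k : Fin (2 ^ (m + 0))) = k := by
      apply Fin.ext
      change ((0 : Fin (2 ^ 0)) : ℕ) * 2 ^ m + k = k
      simp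
    rw [e]
  | 0, .inr e => ⟨.inr ((), e), rfl⟩
  | n + 1, .inl (i, k) => by
    obtain ⟨c, r, h⟩ := fpos_surj (m := m) (n := n + 1) k
    refine ⟨.inl (.inl (i, c), r), ?_⟩
    rw [← h]
    rfl
  | n + 1, .inr (.inl (s, j, k)) => by
    obtain ⟨c, r, h⟩ := fpos_surj (m := m) (n := n) k
    refine ⟨.inl (.inr (.inl (s, j, c)), r), ?_⟩
    rw [← h]
    rfl
  | n + 1, .inr (.inr (s, q, e)) => by
    obtain ⟨x, hx⟩ := fib_surj n (.inr e)
    rcases x with ⟨e', r⟩ | ⟨p, e'⟩
    · rcases e' with ⟨i, c⟩ | e'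
      · exfalso
        change pth (.inl (i, c) : Ed n) r = _ at hx
        rw [pth_inl] at hx
        exact absurd hx (by simp)
      · refine ⟨.inl (.inr (.inr (s, q, e')), r), ?_⟩
        change emb s q (pth (.inr e') r) = _
        change pth (.inr e') r = _ at hx
        rw [hx]
        rfl
    · refine ⟨.inr ((s, q, p), e'), ?_⟩
      change emb s q (blk p (.inr e')) = _
      change blk p (.inr e') = _ at hx
      rw [hx]
      rfl

lemma card_IE (n : ℕ) : Fintype.card (IE (n + 1)) = 16 * 2 ^ n + 16 * Fintype.card (IE n) := by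
  have h : Fintype.card (IE (n + 1)) =
      Fintype.card ((Fin 4 × Fin 4 × Fin (2 ^ n)) ⊕ (Fin 4 × Fin 4 × IE n)) := rfl
  rw [h, Fintype.card_sum, Fintype.card_prod, Fintype.card_prod, Fintype.card_prod,
    Fintype.card_prod, Fintype.card_fin, Fintype.card_fin]
  ring

lemma card_Pq (n : ℕ) : Fintype.card (Pq n) = 16 ^ n := by
  induction n with
  | zero => rfl
  | succ n ih =>
    have h : Fintype.card (Pq (n + 1)) = Fintype.card (Fin 4 × Fin 4 × Pq n) := rfl
    rw [h, Fintype.card_prod, Fintype.card_prod, ih, Fintype.card_fin]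
    ring

lemma card_IE_add (m n : ℕ) : Fintype.card (IE (m + n)) =
    2 ^ m * Fintype.card (IE n) + 16 ^ n * Fintype.card (IE m) := by
  induction n with
  | zero =>
    have h : Fintype.card (IE 0) = 0 := rfl
    rw [h]
    simp
  | succ n ih =>
    have h : Fintype.card (IE (m + (n + 1))) = Fintype.card (IE (m + n + 1)) := rfl
    rw [h, card_IE, ih, card_IE n]
    ring

lemma fib_card (m n : ℕ) : Fintype.card ((Ed n × Fin (2 ^ m)) ⊕ (Pq n × IE m)) =
    Fintype.card (Ed (m + n)) := by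
  rw [Fintype.card_sum, Fintype.card_prod, Fintype.card_prod, Fintype.card_sum, Fintype.card_sum,
    card_IE_add, card_Pq, Fintype.card_prod, Fintype.card_prod, Fintype.card_fin,
    Fintype.card_fin, Fintype.card_fin, Fintype.card_fin]
  ring

lemma fib_bij (n : ℕ) : Function.Bijective (fib (m := m) (n := n)) :=
  (Fintype.bijective_iff_surjective_and_card _).2 ⟨fib_surj n, fib_card m n⟩

/-- the edges of the fine square -/
def fibE (m n : ℕ) : (Ed n × Fin (2 ^ m)) ⊕ (Pq n × IE m) ≃ Ed (m + n) :=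
  Equiv.ofBijective _ (fib_bij n)

lemma fibE_symm_pth {n : ℕ} (e : Ed n) (r : Fin (2 ^ m)) :
    (fibE m n).symm (pth e r) = .inl (e, r) :=
  (fibE m n).symm_apply_eq.2 rfl

lemma fibE_symm_blk {n : ℕ} (p : Pq n) (e : IE m) :
    (fibE m n).symm (blk p (.inr e)) = .inr (p, e) :=
  (fibE m n).symm_apply_eq.2 rfl

end

end Pool.Agent.N991.MK
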