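import Mathlib
import Pool.Agent.N991.MK.Gap4

/-!
# The mass gap for all gauge invariant observables
-/

open MeasureTheory Pool.Agent.N989.MK

namespace Pool.Agent.N991.MK

set_option linter.unusedSectionVars false

noncomputable section

variable {G : Type*} [Group G] [TopologicalSpace G] [IsTopologicalGroup G] [CompactSpace G]
  [MeasurableSpace G] [BorelSpace G] [SecondCountableTopology G]
  {μ : Measure G} [IsProbabilityMeasure μ] [μ.IsHaarMeasure] [μ.IsMulRightInvariant]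
  [μ.IsInvInvariant]

lemma wt_scaleG (c : ℝ) (w : G → ℝ) {n : ℕ} (U : Ed n → G) :
    wt (fun x => c * w x) U = c ^ Fintype.card (Pq n) * wt w U := by
  unfold wt
  rw [Finset.prod_mul_distrib, Finset.prod_const, Finset.card_univ]

lemma Ex_scaleG {c : ℝ} (hc : c ≠ 0) (w : G → ℝ) (n : ℕ) (O : (Ed n → G) → ℝ) :
    Ex μ (fun x => c * w x) n O = Ex μ w n O := by
  unfold Ex
  have e : ∀ U : Ed n → G, O U * wt (fun x => c * w x) U =
      c ^ Fintype.card (Pq n) * (O U * wt w U) := fun U => by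
    rw [wt_scaleG]
    ring
  simp only [e]
  simp only [wt_scaleG]
  rw [integral_const_mul, integral_const_mul, mul_div_mul_left _ _ (pow_ne_zero _ hc)]

lemma Cv_nrmG {w : G → ℝ} (hw : Adm w) (n : ℕ) (p q : Pq n) (f g : G → ℝ) :
    Cv μ (nrm μ w) n p q f g = Cv μ w n p q f g := by
  have hc := (inv_pos.2 (hw.ipos (μ := μ))).ne'
  unfold Cv nrm
  rw [Ex_scaleG hc, Ex_scaleG hc, Ex_scaleG hc]

/-- **The mass gap for all gauge invariant observables, along a two-sided trajectory** -/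
theorem gap_blk {F : ℤ → G → ℝ} (hA : ∀ k, Adm (F k))
    (hr : ∀ (k : ℤ) (j : ℕ), nrm μ (TTn μ (F k) j) = F (k + j)) {C c : ℝ}
    (hgap : ∀ (k : ℤ) (i : ℕ) (p q : Pq i) (f g : G → ℝ), p ≠ q → Continuous f →
      (∀ h x, f (h * x * h⁻¹) = f x) → (∀ x, |f x| ≤ 1) → Continuous g →
      (∀ h x, g (h * x * h⁻¹) = g x) → (∀ x, |g x| ≤ 1) →
      |Cv μ (F k) i p q f g| ≤ C * Real.exp (-(c * (4 : ℝ) ^ (k + anc i p q))))
    (k : ℤ) (m j : ℕ) (α β : Pq j) (A B : (Ed m → G) → ℝ) (hαβ : α ≠ β)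
    (hcA : Continuous A) (gA : GaugeInv A) (bA : ∀ U, |A U| ≤ 1)
    (hcB : Continuous B) (gB : GaugeInv B) (bB : ∀ U, |B U| ≤ 1) :
    |Ex μ (F k) (m + j) (fun U => A (fun e => U (blk α e)) * B (fun e => U (blk β e))) -
      Ex μ (F k) (m + j) (fun U => A (fun e => U (blk α e))) *
        Ex μ (F k) (m + j) (fun U => B (fun e => U (blk β e)))| ≤
      C * Real.exp (-(c * (4 : ℝ) ^ (k + m + anc j α β))) := by
  rw [Cv_blk (hA k) hαβ hcA gA bA hcB gB bB, ← Cv_nrmG ((hA k).TTn (μ := μ) m), hr k m]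
  exact hgap (k + m) j α β _ _ hαβ (cdE_cont (hA k) hcA) (fun g x => cdE_cls (hA k) hcA gA g x)
    (cdE_le (hA k) hcA bA) (cdE_cont (hA k) hcB) (fun g x => cdE_cls (hA k) hcB gB g x)
    (cdE_le (hA k) hcB bB)

/-- **Exponential clustering of all gauge invariant observables for a fixed weight** -/
theorem clustering_blk {n : ℕ} {D : ED G n} {m₀ : ℕ} (hg : Gen D m₀ 1) {K : ℝ} (hK : 0 ≤ K) :
    ∃ c : ℝ, 0 < c ∧ ∀ Z : G → ℝ, Adm Z → SC D K Z →
      ∀ (m j : ℕ) (α β : Pq j) (A B : (Ed m → G) → ℝ), α ≠ β →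
      Continuous A → GaugeInv A → (∀ U, |A U| ≤ 1) →
      Continuous B → GaugeInv B → (∀ U, |B U| ≤ 1) →
      |Ex μ Z (m + j) (fun U => A (fun e => U (blk α e)) * B (fun e => U (blk β e))) -
        Ex μ Z (m + j) (fun U => A (fun e => U (blk α e))) *
          Ex μ Z (m + j) (fun U => B (fun e => U (blk β e)))| ≤
        18 * Real.exp (-(c * 4 ^ (m + anc j α β))) := by
  obtain ⟨k0, hk0⟩ := exists_small (μ := μ) hg hK
  refine ⟨1 / 4 ^ (k0 + 1), by positivity,
    fun Z hZ hs m j α β A B hαβ hcA gA bA hcB gB bB => ?_⟩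
  rw [Cv_blk hZ hαβ hcA gA bA hcB gB bB]
  have hM := hZ.TTn (μ := μ) m
  have fA := cdE_cont (μ := μ) hZ hcA
  have fB := cdE_cont (μ := μ) hZ hcB
  have kA := cdE_cls (μ := μ) hZ hcA gA
  have kB := cdE_cls (μ := μ) hZ hcB gB
  have lA := cdE_le (μ := μ) hZ hcA bA
  have lB := cdE_le (μ := μ) hZ hcB bB
  have h0 := anc_pos hαβ
  obtain ⟨i, hi⟩ : ∃ i, anc j α β = i + 1 := ⟨anc j α β - 1, by omega⟩
  rcases Nat.lt_or_ge k0 (m + anc j α β) with h | h
  · obtain ⟨l, hl⟩ := Nat.exists_eq_add_of_lt h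
    have hmi : m + i = k0 + l := by omega
    have hA := hZ.TTn (μ := μ) k0
    have h1 := (hk0 Z hZ hs).TTn hA l
    rw [← TTn_add, ← hmi, TTn_add] at h1
    have h2 := Sm.mono (rate_le l) (hM.TTn (μ := μ) i) h1
    have h3 : 1 / 2 * Real.exp (-(4 : ℝ) ^ l) ≤ 1 / 10 ∨ l = 0 := by
      rcases Nat.eq_zero_or_pos l with h0 | h0
      · exact Or.inr h0
      · left
        have h4 : (4 : ℝ) ^ 1 ≤ 4 ^ l := pow_le_pow_right₀ (by norm_num) h0
        have h5 : Real.exp (-(4 : ℝ) ^ l) ≤ Real.exp (-4) :=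
          Real.exp_le_exp.2 (by norm_num at h4 ⊢; linarith)
        have h6 : Real.exp (-4) ≤ 1 / 5 := by
          rw [Real.exp_neg, inv_le_comm₀ (Real.exp_pos 4) (by norm_num)]
          have := Real.add_one_le_exp (4 : ℝ)
          norm_num at this ⊢
          linarith
        linarith
    have e1 : (1 : ℝ) / 4 ^ (k0 + 1) * 4 ^ (m + anc j α β) = 4 ^ l := by
      rw [hl, show k0 + l + 1 = (k0 + 1) + l by ring, pow_add _ (k0 + 1) l]
      field_simp
    rw [e1]
    rcases h3 with h3 | h3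
    · have h4 := Cv_bound hM h3 h2 α β hi fA kA lA fB kB lB
      linarith
    · subst h3
      have h5 : Sm μ (1 / 10) (TTn μ (TTn μ Z m) i) := by
        have := hk0 Z hZ hs
        rw [← TTn_add, hmi]
        simpa using this
      have h4 := Cv_bound hM le_rfl h5 α β hi fA kA lA fB kB lB
      have h6 : (1 / 5 : ℝ) ≤ Real.exp (-1) := by
        have := Real.exp_one_lt_d9
        rw [Real.exp_neg, le_inv_comm₀ (by norm_num) (Real.exp_pos 1)]
        norm_num at this ⊢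
        linarith
      rw [pow_zero]
      linarith
  · have h1 := Cv_trivial (μ := μ) hM α β fA kA lA fB kB lB
    refine h1.trans ?_
    have h2 : (1 : ℝ) / 4 ^ (k0 + 1) * 4 ^ (m + anc j α β) ≤ 1 := by
      rw [div_mul_eq_mul_div, one_mul, div_le_one (by positivity)]
      exact pow_le_pow_right₀ (by norm_num) (by omega)
    have h3 : Real.exp (-1) ≤ Real.exp (-((1 : ℝ) / 4 ^ (k0 + 1) * 4 ^ (m + anc j α β))) :=
      Real.exp_le_exp.2 (by linarith)
    have h4 : (1 / 5 : ℝ) ≤ Real.exp (-1) := by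
      have := Real.exp_one_lt_d9
      rw [Real.exp_neg, le_inv_comm₀ (by norm_num) (Real.exp_pos 1)]
      norm_num at this ⊢
      linarith
    linarith

end

end Pool.Agent.N991.MK
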