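import Mathlib
import Pool.Agent.N991.MK.Cns1
import Pool.Agent.N991.MK.Gap4
import Pool.Agent.N991.MK.Gap5

/-!
# The law of the coarse field

The coarse field of the theory with the plaquette weight `Z` on the square of level `m + n` has the
law of the theory with the plaquette weight `TTn μ Z m` on the square of level `n`.
-/

open MeasureTheory Pool.Agent.N989.MK

namespace Pool.Agent.N991.MK

set_option linter.unusedSectionVars false

noncomputable section

section

variable {G : Type*} [Group G]

/-- the holonomies of the coarse field are the holonomies of the boundaries of the blocks -/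
lemma hol_crs {m n : ℕ} (U : Ed (m + n) → G) (p : Pq n) :
    hol (crs U : Ed n → G) p = Pool.Agent.N989.MK.lp fun e : BE m => U (blk p (.inl e)) := by
  have h : ∀ i : Fin 4, sd (fun e : BE m => U (blk p (.inl e))) i = crs U (bd n p i) := by
    intro i
    unfold sd crs
    congr 1
    congr 1
    funext k
    exact congrArg U (blk_bd p i k)
  unfold hol Pool.Agent.N989.MK.lp
  rw [h, h, h, h]

end

variable {G : Type*} [Group G] [TopologicalSpace G] [IsTopologicalGroup G] [CompactSpace G]
  [MeasurableSpace G] [BorelSpace G] [SecondCountableTopology G]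
  {μ : Measure G} [IsProbabilityMeasure μ] [μ.IsHaarMeasure] [μ.IsMulRightInvariant]
  [μ.IsInvInvariant] {Z : G → ℝ}

lemma ofFn_cont {ι : Type*} [TopologicalSpace ι] (k : ℕ) {f : Fin k → ι → G}
    (hf : ∀ i, Continuous (f i)) : Continuous fun a => (List.ofFn fun i => f i a).prod := by
  induction k with
  | zero => simpa using continuous_const
  | succ k ih =>
    simp only [List.ofFn_succ, List.prod_cons]
    exact (hf 0).mul (ih fun i => hf _)

lemma crs_cont {m n : ℕ} : Continuous fun U : Ed (m + n) → G => (crs U : Ed n → G) :=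
  continuous_pi fun _ => ofFn_cont _ fun _ => continuous_apply _

/-- the products of the variables along the paths -/
def prd {m n : ℕ} (W : Ed n → Fin (2 ^ m) → G) (e : Ed n) : G := (List.ofFn (W e)).prod

lemma mp_prd (m n : ℕ) : MeasurePreserving (prd : (Ed n → Fin (2 ^ m) → G) → Ed n → G)
    (Measure.pi fun _ => Measure.pi fun _ => μ) (Measure.pi fun _ => μ) :=
  measurePreserving_pi _ _ fun _ => mp_prod (2 ^ m) (by positivity)

/-- the fine field made of the variables along the paths and of the variables in the blocks -/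
def fld (m n : ℕ) : ((Ed n → Fin (2 ^ m) → G) × (Pq n → IE m → G)) →* (Ed (m + n) → G) where
  toFun p e := match (fibE m n).symm e with
    | .inl x => p.1 x.1 x.2
    | .inr x => p.2 x.1 x.2
  map_one' := by
    funext e
    rcases (fibE m n).symm e with x | x <;> rfl
  map_mul' p q := by
    funext e
    change (match (fibE m n).symm e with
      | .inl x => (p * q).1 x.1 x.2
      | .inr x => (p * q).2 x.1 x.2) = (match (fibE m n).symm e with
      | .inl x => p.1 x.1 x.2
      | .inr x => p.2 x.1 x.2) * (match (fibE m n).symm e with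
      | .inl x => q.1 x.1 x.2
      | .inr x => q.2 x.1 x.2)
    rcases (fibE m n).symm e with x | x <;> rfl

lemma fld_pth {m n : ℕ} (p : (Ed n → Fin (2 ^ m) → G) × (Pq n → IE m → G)) (e : Ed n)
    (r : Fin (2 ^ m)) : fld m n p (pth e r) = p.1 e r := by
  change (match (fibE m n).symm (pth e r) with
    | .inl x => p.1 x.1 x.2
    | .inr x => p.2 x.1 x.2) = _
  rw [fibE_symm_pth]

lemma fld_blk {m n : ℕ} (p : (Ed n → Fin (2 ^ m) → G) × (Pq n → IE m → G)) (x : Pq n)
    (e : IE m) : fld m n p (blk x (.inr e)) = p.2 x e := by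
  change (match (fibE m n).symm (blk x (.inr e)) with
    | .inl x => p.1 x.1 x.2
    | .inr x => p.2 x.1 x.2) = _
  rw [fibE_symm_blk]

lemma fld_cont {m n : ℕ} : Continuous (fld (G := G) m n) := by
  refine continuous_pi fun e => ?_
  change Continuous fun p : (Ed n → Fin (2 ^ m) → G) × (Pq n → IE m → G) =>
    (match (fibE m n).symm e with
      | .inl x => p.1 x.1 x.2
      | .inr x => p.2 x.1 x.2)
  rcases (fibE m n).symm e with x | x
  · change Continuous fun p : (Ed n → Fin (2 ^ m) → G) × (Pq n → IE m → G) => p.1 x.1 x.2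
    fun_prop
  · change Continuous fun p : (Ed n → Fin (2 ^ m) → G) × (Pq n → IE m → G) => p.2 x.1 x.2
    fun_prop

lemma fld_surj {m n : ℕ} : Function.Surjective (fld (G := G) m n) := by
  intro U
  refine ⟨(fun e r => U (pth e r), fun x e => U (blk x (.inr e))), ?_⟩
  funext e
  obtain ⟨y, hy⟩ := (fibE m n).surjective e
  subst hy
  rcases y with ⟨e', r⟩ | ⟨x, e'⟩
  · exact fld_pth _ e' r
  · exact fld_blk _ x e'

lemma crs_fld {m n : ℕ} (p : (Ed n → Fin (2 ^ m) → G) × (Pq n → IE m → G)) :
    (crs (fld m n p) : Ed n → G) = prd p.1 := by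
  funext e
  unfold crs prd
  congr 1
  congr 1
  funext r
  exact fld_pth p e r

/-- **The law of the coarse field** -/
theorem int_crs (hZ : Adm Z) {m n : ℕ} {O : (Ed n → G) → ℝ} (hO : Continuous O) :
    ∫ U : Ed (m + n) → G, O (crs U) * wt Z U ∂(Measure.pi fun _ => μ) =
      ∫ U : Ed n → G, O U * wt (TTn μ Z m) U ∂(Measure.pi fun _ => μ) := by
  have hM := hZ.TTn (μ := μ) m
  have i1 : (Measure.pi fun _ : Fin (2 ^ m) => μ).IsMulLeftInvariant := inferInstance
  have i2 : (Measure.pi fun _ : Ed n => Measure.pi fun _ : Fin (2 ^ m) =>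
    μ).IsMulLeftInvariant := inferInstance
  have i3 : (Measure.pi fun _ : IE m => μ).IsMulLeftInvariant := inferInstance
  have i4 : (Measure.pi fun _ : Pq n => Measure.pi fun _ : IE m => μ).IsMulLeftInvariant :=
    inferInstance
  have i5 := Measure.prod.instIsMulLeftInvariant
    (μ := Measure.pi fun _ : Ed n => Measure.pi fun _ : Fin (2 ^ m) => μ)
    (ν := Measure.pi fun _ : Pq n => Measure.pi fun _ : IE m => μ)
  have hmp := mp_hom ((Measure.pi fun _ : Ed n => Measure.pi fun _ : Fin (2 ^ m) => μ).prod
    (Measure.pi fun _ : Pq n => Measure.pi fun _ : IE m => μ))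
    (Measure.pi fun _ : Ed (m + n) => μ) (fld m n) fld_cont fld_surj
  have hc : Continuous fun U : Ed (m + n) → G => O (crs U) * wt Z U :=
    (hO.comp crs_cont).mul (wt_cont hZ.cont)
  rw [int_mp hmp hc]
  have hcs : Continuous fun p => O (crs (fld m n p)) * wt Z (fld m n p : Ed (m + n) → G) :=
    hc.comp fld_cont
  rw [integral_prod _ (hcs.integrable_of_hasCompactSupport
    (HasCompactSupport.of_compactSpace _))]
  have h1 : ∀ W : Ed n → Fin (2 ^ m) → G, ∫ J : Pq n → IE m → G,
      O (crs (fld m n (W, J))) * wt Z (fld m n (W, J) : Ed (m + n) → G)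
        ∂(Measure.pi fun _ => Measure.pi fun _ => μ) = O (prd W) * wt (TTn μ Z m) (prd W) := by
    intro W
    have h2 : ∀ J : Pq n → IE m → G, O (crs (fld m n (W, J))) *
        wt Z (fld m n (W, J) : Ed (m + n) → G) = O (prd W) * ∏ p : Pq n,
          wt Z (Sum.elim (fun e : BE m => W (bd n p e.1) e.2) (J p) : Ed m → G) := by
      intro J
      rw [crs_fld, wt_blk Z n]
      refine congrArg _ (Finset.prod_congr rfl fun p _ => congrArg _ ?_)
      funext e
      rcases e with ⟨i, k⟩ | e
      · rw [blk_bd, fld_pth]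
        rfl
      · rw [fld_blk]
        rfl
    simp only [h2]
    rw [integral_const_mul]
    congr 1
    rw [integral_fintype_prod_eq_prod (fun (p : Pq n) (I : IE m → G) =>
      wt Z (Sum.elim (fun e : BE m => W (bd n p e.1) e.2) I : Ed m → G))]
    unfold wt
    refine Finset.prod_congr rfl fun p _ => ?_
    exact Ib_wt hZ _
  simp only [h1]
  exact (int_mp (mp_prd (μ := μ) m n) (F := fun U => O U * wt (TTn μ Z m) U)
    (hO.mul (wt_cont hM.cont))).symm

/-- **The expectations of the functions of the coarse field** -/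
theorem Ex_crs (hZ : Adm Z) {m n : ℕ} {O : (Ed n → G) → ℝ} (hO : Continuous O) :
    Ex μ Z (m + n) (fun U => O (crs U)) = Ex μ (TTn μ Z m) n O := by
  unfold Ex
  have h1 := int_crs (μ := μ) hZ (m := m) (n := n) (O := fun _ => 1) continuous_const
  simp only [one_mul] at h1
  rw [int_crs hZ hO, h1]

/-- **The consistency of a two-sided trajectory, for all functions of the coarse field** -/
theorem cons_traj {F : ℤ → G → ℝ} (hA : ∀ k, Adm (F k))
    (hr : ∀ (k : ℤ) (j : ℕ), nrm μ (TTn μ (F k) j) = F (k + j)) (k : ℤ) (m n : ℕ)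
    (O : (Ed n → G) → ℝ) (hO : Continuous O) :
    Ex μ (F k) (m + n) (fun U => O (crs U)) = Ex μ (F (k + m)) n O := by
  rw [Ex_crs (hA k) hO, ← hr k m]
  unfold nrm
  rw [Ex_scaleG (inv_pos.2 ((hA k).TTn (μ := μ) m).ipos).ne']

end

end Pool.Agent.N991.MK
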