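import Mathlib
import Pool.Agent.N991.MK.Gap5
import Pool.Agent.N838.T3.CovB

/-!
# The infinite volume limit of the gauge invariant observables
-/

open MeasureTheory Pool.Agent.N989.MK Filter
open scoped Topology

namespace Pool.Agent.N991.MK

set_option linter.unusedSectionVars false

noncomputable section

variable {G : Type*} [Group G] [TopologicalSpace G] [IsTopologicalGroup G] [CompactSpace G]
  [MeasurableSpace G] [BorelSpace G] [SecondCountableTopology G]
  {μ : Measure G} [IsProbabilityMeasure μ] [μ.IsHaarMeasure] [μ.IsMulRightInvariant]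
  [μ.IsInvInvariant] {Z : G → ℝ}

/-- the numerator of the expectation of a function of a block -/
lemma num_one (hZ : Adm Z) {m j : ℕ} (β : Pq j) {A : (Ed m → G) → ℝ}
    (hA : Continuous A) (gA : GaugeInv A) (bA : ∀ U, |A U| ≤ 1) :
    ∫ U : Ed (m + j) → G, A (fun e => U (blk β e)) * wt Z U ∂(Measure.pi fun _ => μ) =
    ∫ x, WF μ (TTn μ Z m) j (ins1 β (cdE μ Z A)) x ∂μ := by
  classical
  obtain ⟨W, hW⟩ : ∃ W : Pq j → (Ed m → G) → ℝ, W = fun γ u =>
    (if γ = β then A u else 1) * wt Z u := ⟨_, rfl⟩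
  have hwc : Continuous fun U : Ed m → G => wt Z U := wt_cont hZ.cont
  have hWc : ∀ γ, Continuous (W γ) := by
    intro γ
    rw [hW]
    refine Continuous.mul ?_ hwc
    by_cases h : γ = β
    · simpa only [h, if_true] using hA
    · simpa only [h, if_false] using continuous_const
  have hAd := hZ.TTn (μ := μ) m
  have iA := ins1_ins β (cdE_cont (μ := μ) hZ hA) (cdE_cls hZ hA gA) (cdE_le hZ hA bA)
  have hI : ∀ γ V, Ib μ (W γ) V = TTn μ Z m (Pool.Agent.N989.MK.lp V) *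
      ins1 β (cdE μ Z A) γ (Pool.Agent.N989.MK.lp V) := by
    intro γ V
    unfold ins1
    by_cases h1 : γ = β
    · rw [if_pos h1, ← Ib_cdE hZ hA gA]
      congr 1
      rw [hW]
      funext u
      beta_reduce
      rw [if_pos h1]
    · rw [if_neg h1, mul_one, ← Ib_wt hZ]
      congr 1
      rw [hW]
      funext u
      beta_reduce
      rw [if_neg h1, one_mul]
  have hw1 : ∀ γ, Continuous fun x => TTn μ Z m x * ins1 β (cdE μ Z A) γ x := fun γ =>
    hAd.cont.mul (iA.c γ)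
  have hw2 : ∀ γ, Cls fun x => TTn μ Z m x * ins1 β (cdE μ Z A) γ x := fun γ g x => by
    have h3 := iA.l γ g x
    beta_reduce
    rw [hAd.cls, h3]
  have h1 := int_Ib (μ := μ) (wB_cont hWc) (ZZ_cont j hw1) fun V =>
    Ib_wB j hWc hw1 hw2 hI V
  have h2 : ∀ U : Ed (m + j) → G, A (fun e => U (blk β e)) * wt Z U = wB W U := by
    intro U
    rw [wt_blk Z j U]
    unfold wB
    rw [hW]
    beta_reduce
    rw [Finset.prod_mul_distrib]
    congr 1
    rw [Finset.prod_eq_single β (fun γ _ h => if_neg h) (fun h => absurd (Finset.mem_univ _) h),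
      if_pos rfl]
  simp only [h2]
  exact h1

/-- the expectation of a function of a block -/
theorem Ex_blk (hZ : Adm Z) {m j : ℕ} (β : Pq j) {A : (Ed m → G) → ℝ}
    (hA : Continuous A) (gA : GaugeInv A) (bA : ∀ U, |A U| ≤ 1) :
    Ex μ Z (m + j) (fun U => A (fun e => U (blk β e))) =
      (∫ x, WF μ (TTn μ Z m) j (ins1 β (cdE μ Z A)) x ∂μ) / ∫ x, TTn μ (TTn μ Z m) j x ∂μ := by
  unfold Ex
  rw [num_one hZ β hA gA bA, den_two hZ m j]

variable {M h : G → ℝ}

/-- the mean of a function of the holonomy of a plaquette in the square of level `n` -/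
def mn (μ : Measure G) (M h : G → ℝ) (n : ℕ) : ℝ :=
  (∫ x, Pool.Agent.N838.T3.Dn μ M h n x ∂μ) / ∫ x, TTn μ M n x ∂μ

lemma mn_eq (hM : Adm M) (hh : Continuous h) (hc : Cls h) {n : ℕ} (p : Pq n) :
    mn μ M h n = (∫ x, WF μ M n (ins1 p h) x ∂μ) / ∫ x, TTn μ M n x ∂μ := by
  unfold mn
  rw [Pool.Agent.N838.T3.WF_ins hM hh hc n p]

lemma mn_le (hM : Adm M) (hh : Continuous h) (hc : Cls h) (hb : ∀ x, |h x| ≤ 1) {n : ℕ}
    (p : Pq n) : |mn μ M h n| ≤ 1 := by
  have hA := hM.TTn (μ := μ) n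
  have hI := hA.ipos (μ := μ)
  have iF := ins1_ins p hh hc hb
  rw [mn_eq hM hh hc p, abs_div, abs_of_pos hI, div_le_one hI]
  refine (abs_integral_le_integral_abs).trans ?_
  exact integral_mono (integrable_of_cont (WF_cont hM iF).abs) hA.integrable
    (fun y => WF_le hM n _ iF y)

lemma exists_pq : ∀ n : ℕ, Nonempty (Pq n)
  | 0 => ⟨()⟩
  | n + 1 => (exists_pq n).elim fun p => ⟨(0, 0, p)⟩

/-- one step -/
lemma mn_step (hM : Adm M) (hh : Continuous h) (hc : Cls h) (hb : ∀ x, |h x| ≤ 1) {a : ℝ}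
    (ha : a ≤ 1 / 10) {n : ℕ} (hs : Sm μ a (TTn μ M n)) :
    |mn μ M h (n + 1) - mn μ M h n| ≤ 12 * a := by
  obtain ⟨p⟩ := exists_pq n
  have hA := hM.TTn (μ := μ) n
  have hA1 := hM.TTn (μ := μ) (n + 1)
  have iF : Ins (ins1 (show Pq (n + 1) from (0, 0, p)) h) := ins1_ins _ hh hc hb
  have hout : ∀ s r : Fin 4, ¬ (s = 0 ∧ r = 0) → ∀ (p' : Pq n) (x : G),
      ins1 (show Pq (n + 1) from (0, 0, p)) h (show Pq (n + 1) from (s, r, p')) x = 1 :=
    fun s r hsr p' x => Pool.Agent.N838.T3.ins1_out hsr p p' h x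
  have h1 := block_dec (μ := μ) hM iF ha hs fun s => ⟨1, fun p' x =>
    hout s 1 (fun hh => absurd hh.2 (by decide)) p' x⟩
  have hin : (∏ s : Fin 4, ∏ r : Fin 4, (∫ y, WF μ M n (fun p' : Pq n =>
      ins1 (show Pq (n + 1) from (0, 0, p)) h (show Pq (n + 1) from (s, r, p'))) y ∂μ) /
      ∫ y, TTn μ M n y ∂μ) = mn μ M h n := by
    rw [prod_single (f := fun s r => (∫ y, WF μ M n (fun p' : Pq n =>
      ins1 (show Pq (n + 1) from (0, 0, p)) h (show Pq (n + 1) from (s, r, p'))) y ∂μ) /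
      ∫ y, TTn μ M n y ∂μ) 0 0 (fun s r hsr => by
        rw [WF_one n _ (hout s r hsr)]
        exact div_self (hA.ipos (μ := μ)).ne'), Pool.Agent.N838.T3.ins1_in, ← mn_eq hM hh hc p]
  have h2 : ∀ x, |WF μ M (n + 1) (ins1 (show Pq (n + 1) from (0, 0, p)) h) x -
      mn μ M h n * TTn μ M (n + 1) x| ≤ 12 * a * TTn μ M (n + 1) x := by
    intro x
    have h3 := h1 x
    rw [← hin]
    exact h3
  have h4 := ratio_bd (hA1.ipos (μ := μ)) (int_bd (WF_cont hM iF) hA1.cont h2)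
  rwa [← mn_eq hM hh hc] at h4

/-- **the infinite volume limit of the mean** -/
theorem mn_lim (hM : Adm M) (hh : Continuous h) (hc : Cls h) (hb : ∀ x, |h x| ≤ 1) {q : ℝ}
    (hq0 : 0 < q) (hq : q ≤ 21 / 100) {n : ℕ}
    (hs : ∀ e : ℕ, Sm μ (10 / 21 * q ^ 4 ^ e) (TTn μ M (n + e))) :
    ∃ L : ℝ, |L| ≤ 1 ∧ ∀ e : ℕ, |mn μ M h (n + e) - L| ≤ 8 * q ^ 4 ^ e := by
  have hq1 : q < 1 := hq.trans_lt (by norm_num)
  have hstep : ∀ e : ℕ, |mn μ M h (n + (e + 1)) - mn μ M h (n + e)| ≤ 40 / 7 * q ^ 4 ^ e := by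
    intro e
    have h1 : q ^ 4 ^ e ≤ q ^ 1 :=
      pow_le_pow_of_le_one hq0.le hq1.le (Nat.one_le_pow _ _ (by norm_num))
    have h2 := mn_step (μ := μ) hM hh hc hb (a := 10 / 21 * q ^ 4 ^ e) (by linarith) (hs e)
    refine h2.trans (le_of_eq ?_)
    ring
  have hgeo : ∀ e i : ℕ, q ^ 4 ^ (e + i) ≤ q ^ 4 ^ e * (21 / 100) ^ i := by
    intro e i
    have h1 : 4 ^ e + i ≤ 4 ^ (e + i) := by
      induction i with
      | zero => simp
      | succ i ih =>
        have : 4 ^ (e + (i + 1)) = 4 * 4 ^ (e + i) := by rw [← add_assoc, pow_succ]; ring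
        have h2 : 1 ≤ 4 ^ (e + i) := Nat.one_le_pow _ _ (by norm_num)
        omega
    calc q ^ 4 ^ (e + i) ≤ q ^ (4 ^ e + i) := pow_le_pow_of_le_one hq0.le hq1.le h1
      _ = q ^ 4 ^ e * q ^ i := pow_add _ _ _
      _ ≤ q ^ 4 ^ e * (21 / 100) ^ i :=
          mul_le_mul_of_nonneg_left (pow_le_pow_left₀ hq0.le hq i) (by positivity)
  have hd : ∀ i : ℕ, dist (mn μ M h (n + i)) (mn μ M h (n + (i + 1))) ≤
      40 / 7 * q ^ 4 ^ 0 * (21 / 100) ^ i := fun i => by
    rw [dist_comm, Real.dist_eq]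
    refine (hstep i).trans ?_
    have h1 := hgeo 0 i
    rw [zero_add] at h1
    rw [mul_assoc]
    exact mul_le_mul_of_nonneg_left h1 (by norm_num)
  have hcs := cauchySeq_of_le_geometric (21 / 100) _ (by norm_num) hd
  obtain ⟨L, hL⟩ := cauchySeq_tendsto_of_complete hcs
  obtain ⟨p⟩ := exists_pq 0
  refine ⟨L, ?_, fun e => ?_⟩
  · refine le_of_tendsto hL.abs (Eventually.of_forall fun e => ?_)
    obtain ⟨p⟩ := exists_pq (n + e)
    exact mn_le hM hh hc hb p
  · have hd2 : ∀ i : ℕ, dist (mn μ M h (n + (e + i))) (mn μ M h (n + (e + i + 1))) ≤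
        40 / 7 * q ^ 4 ^ e * (21 / 100) ^ i := fun i => by
      rw [dist_comm, Real.dist_eq]
      refine (hstep (e + i)).trans ?_
      rw [mul_assoc]
      exact mul_le_mul_of_nonneg_left (hgeo e i) (by norm_num)
    have hL2 : Tendsto (fun i => mn μ M h (n + (e + i))) atTop (𝓝 L) := by
      have := (tendsto_add_atTop_iff_nat (f := fun i => mn μ M h (n + i)) e).2 hL
      refine this.congr fun i => by rw [add_comm i e]
    have h3 := dist_le_of_le_geometric_of_tendsto₀ (f := fun i => mn μ M h (n + (e + i)))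
      (21 / 100) (40 / 7 * q ^ 4 ^ e) (by norm_num) hd2 hL2
    rw [Real.dist_eq, add_zero] at h3
    refine h3.trans ?_
    have h4 : 0 < q ^ 4 ^ e := by positivity
    rw [div_le_iff₀ (by norm_num)]
    linarith

end

end Pool.Agent.N991.MK
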