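import Mathlib
import Pool.Agent.N991.MK.IVol1

/-!
# The infinite volume limit of the gauge invariant observables of a theory
-/

open MeasureTheory Pool.Agent.N989.MK Filter
open scoped Topology

namespace Pool.Agent.N991.MK

set_option linter.unusedSectionVars false

noncomputable section

variable {G : Type*} [Group G] [TopologicalSpace G] [IsTopologicalGroup G] [CompactSpace G]
  [MeasurableSpace G] [BorelSpace G] [SecondCountableTopology G]
  {μ : Measure G} [IsProbabilityMeasure μ] [μ.IsHaarMeasure] [μ.IsMulRightInvariant]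
  [μ.IsInvInvariant]

lemma Sm_nrm {a : ℝ} {Z : G → ℝ} (hZ : Adm Z) (h : Sm μ a (nrm μ Z)) : Sm μ a Z := by
  have hI := hZ.ipos (μ := μ)
  have h1 := Sm.scale hI h
  have e : (fun x => (∫ y, Z y ∂μ) * nrm μ Z x) = Z := by
    funext x
    unfold Pool.Agent.N989.MK.nrm
    field_simp
  rwa [e] at h1

lemma Sm_nrm' {a : ℝ} {Z : G → ℝ} (hZ : Adm Z) (h : Sm μ a Z) : Sm μ a (nrm μ Z) := by
  have hI := hZ.ipos (μ := μ)
  have h1 := Sm.scale (inv_pos.2 hI) h
  have e : (fun x => (∫ y, Z y ∂μ)⁻¹ * Z x) = nrm μ Z := by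
    funext x
    unfold Pool.Agent.N989.MK.nrm
    field_simp
  rwa [e] at h1

/-- **The infinite volume limit of all gauge invariant observables, along a two-sided
trajectory** -/
theorem vol_traj {F : ℤ → G → ℝ} (hA : ∀ k, Adm (F k))
    (hr : ∀ (k : ℤ) (j : ℕ), nrm μ (TTn μ (F k) j) = F (k + j)) {k1 : ℤ}
    (hs : Sm μ (1 / 10) (F k1)) (k : ℤ) (m : ℕ) (A : (Ed m → G) → ℝ)
    (cA : Continuous A) (gA : GaugeInv A) (bA : ∀ U, |A U| ≤ 1) :
    ∃ L : ℝ, |L| ≤ 1 ∧ ∀ (d : ℕ) (β : Pq d),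
      |Ex μ (F k) (m + d) (fun U => A (fun e => U (blk β e))) - L| ≤
        8 * Real.exp (-((4 : ℝ) ^ (-k1) * (4 : ℝ) ^ (k + m + d))) := by
  -- the deviations
  have hS : ∀ l i : ℕ, k + i = k1 + l →
      Sm μ (10 / 21 * (21 / 100 : ℝ) ^ 4 ^ l) (TTn μ (F k) i) := by
    intro l i h
    refine Sm_nrm ((hA k).TTn i) ?_
    rw [hr k i, h, ← hr k1 l]
    exact Sm_nrm' ((hA k1).TTn l) (hs.TTn (hA k1) l)
  obtain ⟨n, l0, hn, hnl⟩ : ∃ n l0 : ℕ, k + m + n = k1 + l0 ∧ (n = 0 ∨ l0 = 0) := by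
    rcases le_total k1 (k + m) with h | h
    · exact ⟨0, (k + m - k1).toNat, by rw [Int.toNat_of_nonneg (by omega)]; push_cast; ring,
        Or.inl rfl⟩
    · exact ⟨(k1 - (k + m)).toNat, 0, by rw [Int.toNat_of_nonneg (by omega)]; push_cast; ring,
        Or.inr rfl⟩
  have hM := (hA k).TTn (μ := μ) m
  have hq0 : (0 : ℝ) < (21 / 100) ^ 4 ^ l0 := by positivity
  have hq : ((21 / 100 : ℝ)) ^ 4 ^ l0 ≤ 21 / 100 := by
    calc ((21 / 100 : ℝ)) ^ 4 ^ l0 ≤ (21 / 100) ^ 1 :=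
          pow_le_pow_of_le_one (by norm_num) (by norm_num) (Nat.one_le_pow _ _ (by norm_num))
      _ = _ := pow_one _
  have hpow : ∀ e : ℕ, ((21 / 100 : ℝ) ^ 4 ^ l0) ^ 4 ^ e = (21 / 100) ^ 4 ^ (l0 + e) := by
    intro e
    rw [← pow_mul, ← pow_add]
  have hs2 : ∀ e : ℕ, Sm μ (10 / 21 * ((21 / 100 : ℝ) ^ 4 ^ l0) ^ 4 ^ e)
      (TTn μ (TTn μ (F k) m) (n + e)) := by
    intro e
    rw [hpow, ← TTn_add]
    refine hS (l0 + e) (m + (n + e)) ?_
    push_cast
    linarith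
  have hcd := cdE_cont (μ := μ) (hA k) cA
  have hcl := cdE_cls (μ := μ) (hA k) cA gA
  have hcb := cdE_le (μ := μ) (hA k) cA bA
  obtain ⟨L, hL1, hL⟩ := mn_lim (μ := μ) hM hcd hcl hcb hq0 hq hs2
  refine ⟨L, hL1, fun d β => ?_⟩
  have hE : Ex μ (F k) (m + d) (fun U => A (fun e => U (blk β e))) =
      mn μ (TTn μ (F k) m) (cdE μ (F k) A) d := by
    rw [Ex_blk (hA k) β cA gA bA, mn_eq hM hcd hcl β]
  have e4 : (4 : ℝ) ^ (-k1) * (4 : ℝ) ^ (k + m + d) = (4 : ℝ) ^ (k + m + d - k1) := by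
    rw [← zpow_add₀ (by norm_num)]
    congr 1
    ring
  rw [hE, e4]
  have hexp : (21 / 100 : ℝ) ≤ Real.exp (-1) := by
    have := Real.exp_one_lt_d9
    rw [Real.exp_neg, le_inv_comm₀ (by norm_num) (Real.exp_pos 1)]
    norm_num at this ⊢
    linarith
  rcases Nat.lt_or_ge d n with h | h
  · have hl0 : l0 = 0 := by
      rcases hnl with h0 | h0
      · omega
      · exact h0
    have h1 : |mn μ (TTn μ (F k) m) (cdE μ (F k) A) d| ≤ 1 := mn_le hM hcd hcl hcb β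
    have h2 : (4 : ℝ) ^ (k + m + d - k1) ≤ 1 := zpow_le_one_of_nonpos₀ (by norm_num) (by
      subst hl0
      have h3 : (d : ℤ) < n := by exact_mod_cast h
      push_cast at hn
      linarith)
    have h3 : Real.exp (-1) ≤ Real.exp (-(4 : ℝ) ^ (k + m + d - k1)) :=
      Real.exp_le_exp.2 (by linarith)
    have h4 : (1 / 4 : ℝ) ≤ Real.exp (-1) := by
      have := Real.exp_one_lt_d9
      rw [Real.exp_neg, le_inv_comm₀ (by norm_num) (Real.exp_pos 1)]
      norm_num at this ⊢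
      linarith
    refine (abs_sub _ _).trans ?_
    linarith
  · obtain ⟨e, rfl⟩ := Nat.exists_eq_add_of_le h
    refine (hL e).trans (mul_le_mul_of_nonneg_left ?_ (by norm_num))
    rw [hpow]
    have e5 : (k + m + ((n + e : ℕ) : ℤ) - k1) = ((l0 + e : ℕ) : ℤ) := by
      push_cast
      linarith
    rw [e5, zpow_natCast]
    calc ((21 / 100 : ℝ)) ^ 4 ^ (l0 + e) ≤ (Real.exp (-1)) ^ 4 ^ (l0 + e) :=
          pow_le_pow_left₀ (by norm_num) hexp _
      _ = Real.exp (-(4 : ℝ) ^ (l0 + e)) := by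
          rw [← Real.exp_nat_mul]
          congr 1
          push_cast
          ring

end

end Pool.Agent.N991.MK
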