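import Mathlib
import Pool.Agent.N991.MK.IVol2
import Pool.Agent.N991.MK.Cns2
import Pool.Agent.N989.MK.Uniq3

/-!
# The convergence of the coarse field of the lattice theories
-/

open MeasureTheory Pool.Agent.N989.MK Filter
open scoped Topology

namespace Pool.Agent.N991.MK

set_option linter.unusedSectionVars false

noncomputable section

variable {G : Type*} [Group G] [TopologicalSpace G] [IsTopologicalGroup G] [CompactSpace G]
  [MeasurableSpace G] [BorelSpace G] [SecondCountableTopology G]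
  {μ : Measure G} [IsProbabilityMeasure μ] [μ.IsHaarMeasure] [μ.IsMulRightInvariant]
  [μ.IsInvInvariant]

/-- the convergence of the integrals -/
lemma int_wt_tendsto {Zs : ℕ → G → ℝ} {Z : G → ℝ} (hA : ∀ i, Continuous (Zs i))
    (hZ : Continuous Z) (h : UT Zs Z) {n : ℕ} {O : (Ed n → G) → ℝ} (hO : Continuous O) :
    Tendsto (fun i => ∫ U : Ed n → G, O U * wt (Zs i) U ∂(Measure.pi fun _ => μ)) atTop
      (𝓝 (∫ U : Ed n → G, O U * wt Z U ∂(Measure.pi fun _ => μ))) := by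
  obtain ⟨B, hB1, hB⟩ := exists_bd hZ
  obtain ⟨K, hK⟩ := (isCompact_range hO.abs).bddAbove
  have hK' : ∀ U, |O U| ≤ K := fun U => hK ⟨U, rfl⟩
  have hK0 : 0 ≤ K := (abs_nonneg _).trans (hK' 1)
  have hB0 : 0 ≤ B := by linarith
  refine tendsto_integral_filter_of_dominated_convergence
    (fun _ => K * B ^ Fintype.card (Pq n)) ?_ ?_ ?_ ?_
  · exact Eventually.of_forall fun i =>
      (hO.mul (wt_cont (hA i))).aestronglyMeasurable
  · filter_upwards [h 1 one_pos] with i h1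
    refine Eventually.of_forall fun U => ?_
    rw [norm_mul, Real.norm_eq_abs, Real.norm_eq_abs]
    refine mul_le_mul (hK' U) ?_ (abs_nonneg _) hK0
    unfold wt
    rw [Finset.abs_prod]
    have h2 : ∀ p ∈ (Finset.univ : Finset (Pq n)), |Zs i (hol U p)| ≤ B := fun p _ => by
      have g1 := abs_sub_abs_le_abs_sub (Zs i (hol U p)) (Z (hol U p))
      have g2 := hB (hol U p)
      have g3 := h1 (hol U p)
      linarith
    refine (Finset.prod_le_prod (fun p _ => abs_nonneg _) h2).trans ?_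
    rw [Finset.prod_const, Finset.card_univ]
  · exact integrable_const _
  · refine Eventually.of_forall fun U => ?_
    refine Tendsto.const_mul _ ?_
    unfold wt
    refine tendsto_finsetProd _ fun p _ => ?_
    rw [Metric.tendsto_atTop']
    intro ε hε
    obtain ⟨N, hN⟩ := eventually_atTop.1 (h ε hε)
    exact ⟨N, fun i hi => by rw [Real.dist_eq]; exact hN i hi.le _⟩

/-- the convergence of the expectations -/
lemma Ex_tendsto {Zs : ℕ → G → ℝ} {Z : G → ℝ} (hA : ∀ i, Adm (Zs i)) (hZ : Adm Z)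
    (h : UT Zs Z) {n : ℕ} {O : (Ed n → G) → ℝ} (hO : Continuous O) :
    Tendsto (fun i => Ex μ (Zs i) n O) atTop (𝓝 (Ex μ Z n O)) := by
  have h1 := int_wt_tendsto (μ := μ) (fun i => (hA i).cont) hZ.cont h hO
  have h2 := int_wt_tendsto (μ := μ) (fun i => (hA i).cont) hZ.cont h
    (O := fun _ : Ed n → G => 1) continuous_const
  simp only [one_mul] at h2
  refine h1.div h2 ?_
  rw [part_eq hZ]
  exact ((hZ.TTn (μ := μ) n).ipos (μ := μ)).ne'

variable {Zs : ℕ → G → ℝ} {lv : ℕ → ℕ} {F : ℤ → G → ℝ}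

lemma Ex_nrm {Z : G → ℝ} (hZ : Adm Z) (n : ℕ) (O : (Ed n → G) → ℝ) :
    Ex μ (nrm μ Z) n O = Ex μ Z n O := by
  unfold nrm
  rw [Ex_scaleG (inv_pos.2 (hZ.ipos (μ := μ))).ne']

/-- **The convergence in law of the coarse field** -/
theorem cvg_law (hA : ∀ i, Adm (Zs i)) (hF : ∀ k, Adm (F k))
    (h : ∀ k : ℤ, UT (fun i x => nrm μ (TTn μ (Zs i) ((lv i : ℤ) + k).toNat) x) (F k))
    (k : ℤ) (n : ℕ) (O : (Ed n → G) → ℝ) (hO : Continuous O) :
    Tendsto (fun i => Ex μ (Zs i) (((lv i : ℤ) + k).toNat + n) fun U => O (crs U)) atTop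
      (𝓝 (Ex μ (F k) n O)) := by
  have h1 := Ex_tendsto (μ := μ) (fun i => ((hA i).TTn (μ := μ) ((lv i : ℤ) + k).toNat).nrm)
    (hF k) (h k) hO
  refine h1.congr fun i => ?_
  rw [Ex_crs (hA i) hO]
  exact Ex_nrm ((hA i).TTn _) n O

/-- **The convergence of the gauge invariant observables, uniformly in the volume** -/
theorem cvg_vol (hA : ∀ i, Adm (Zs i)) (hF : ∀ k, Adm (F k))
    (hr : ∀ (k : ℤ) (j : ℕ), nrm μ (TTn μ (F k) j) = F (k + j))
    (hl : Tendsto lv atTop atTop)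
    (h : ∀ k : ℤ, UT (fun i x => nrm μ (TTn μ (Zs i) ((lv i : ℤ) + k).toNat) x) (F k))
    (hs : ∀ k : ℤ, ∃ j : ℕ, Sm μ (1 / 20) (F (k + j)))
    (k : ℤ) (n : ℕ) (A : (Ed n → G) → ℝ) (cA : Continuous A) (gA : GaugeInv A)
    (bA : ∀ U, |A U| ≤ 1) {ε : ℝ} (hε : 0 < ε) :
    ∀ᶠ i in atTop, ∀ (d : ℕ) (γ : Pq d),
      |Ex μ (Zs i) (((lv i : ℤ) + k).toNat + (n + d)) (fun U => A (fun e => crs U (blk γ e))) -
        Ex μ (F k) (n + d) (fun U => A (fun e => U (blk γ e)))| < ε := by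
  obtain ⟨j, hj⟩ := hs (k + n)
  -- the effective weights of the lattice theories
  obtain ⟨f, hf⟩ : ∃ f : ℕ → G → ℝ, f = fun i => TTn μ (Zs i) ((lv i : ℤ) + k).toNat := ⟨_, rfl⟩
  have hfA : ∀ i, Adm (f i) := fun i => by rw [hf]; exact (hA i).TTn _
  have hE1 : ∀ (i d : ℕ) (γ : Pq d), Ex μ (Zs i) (((lv i : ℤ) + k).toNat + (n + d))
      (fun U => A (fun e => crs U (blk γ e))) =
        Ex μ (f i) (n + d) (fun U => A (fun e => U (blk γ e))) := by
    intro i d γ
    rw [hf]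
    exact Ex_crs (hA i) (O := fun U => A (fun e => U (blk γ e)))
      (cA.comp (continuous_pi fun e => continuous_apply _))
  have hE2 : ∀ (Z : G → ℝ), Adm Z → ∀ (d : ℕ) (γ : Pq d),
      Ex μ Z (n + d) (fun U => A (fun e => U (blk γ e))) =
        mn μ (TTn μ Z n) (cdE μ Z A) d := by
    intro Z hZ d γ
    have hM := hZ.TTn (μ := μ) n
    rw [Ex_blk hZ γ cA gA bA, mn_eq hM (cdE_cont (μ := μ) hZ cA) (cdE_cls (μ := μ) hZ cA gA) γ]
  -- the limits
  have hq : (21 / 100 : ℝ) ≤ 21 / 100 := le_rfl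
  have hlim : ∀ Z : G → ℝ, Adm Z → Sm μ (1 / 10) (TTn μ (TTn μ Z n) j) → ∃ L : ℝ,
      ∀ e : ℕ, |mn μ (TTn μ Z n) (cdE μ Z A) (j + e) - L| ≤ 8 * (21 / 100 : ℝ) ^ 4 ^ e := by
    intro Z hZ hS
    have hM := hZ.TTn (μ := μ) n
    obtain ⟨L, -, hL⟩ := mn_lim (μ := μ) hM (cdE_cont (μ := μ) hZ cA)
      (cdE_cls (μ := μ) hZ cA gA) (cdE_le (μ := μ) hZ cA bA) (by norm_num) hq (n := j) fun e => by
        rw [TTn_add (μ := μ) (TTn μ Z n) j e]
        exact hS.TTn (hM.TTn j) e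
    exact ⟨L, hL⟩
  have hm : ∀ {a b : ℝ} {g : G → ℝ}, a ≤ b → Adm g → Sm μ a g → Sm μ b g := fun hab hg h =>
    Sm.mono hab hg h
  -- the limit theory
  have hSF : Sm μ (1 / 10) (TTn μ (TTn μ (F k) n) j) := by
    refine Sm_nrm (((hF k).TTn n).TTn j) ?_
    rw [← TTn_add, hr k (n + j)]
    have e : k + ((n + j : ℕ) : ℤ) = k + n + j := by push_cast; ring
    rw [e]
    exact hm (by norm_num) (hF _) hj
  obtain ⟨L, hL⟩ := hlim (F k) (hF k) hSF
  -- the lattice theories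
  have hSf : ∀ᶠ i in atTop, Sm μ (1 / 10) (TTn μ (TTn μ (f i) n) j) := by
    have h1 := h (k + n + j) (1 / 40) (by norm_num)
    have h2 : ∀ᶠ i in atTop, (-k).toNat ≤ lv i := hl.eventually (eventually_ge_atTop _)
    filter_upwards [h1, h2] with i h3 h4
    have e : ((lv i : ℤ) + (k + n + j)).toNat = ((lv i : ℤ) + k).toNat + (n + j) := by omega
    refine Sm_nrm (((hfA i).TTn n).TTn j) ?_
    rw [← TTn_add, hf]
    beta_reduce
    rw [← TTn_add, ← e]
    have hg : Adm (TTn μ (Zs i) ((lv i : ℤ) + (k + n + j)).toNat) := (hA i).TTn _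
    have hi1 := int_nrm (μ := μ) hg
    have hi2 : ∫ x, F (k + n + j) x ∂μ = 1 := by
      have h5 := hr (k + n + j) 0
      rw [Int.natCast_zero, add_zero] at h5
      rw [← h5]
      exact int_nrm ((hF _).TTn 0)
    intro x
    have h6 := h3 x
    have h7 := hj x
    rw [hi2] at h7
    rw [hi1]
    have h8 := abs_lt.1 h6
    have h9 := abs_le.1 h7
    rw [abs_le]
    constructor <;> linarith [h8.1, h8.2, h9.1, h9.2]
  -- the number of steps
  obtain ⟨e0, he0⟩ : ∃ e0 : ℕ, 8 * (21 / 100 : ℝ) ^ 4 ^ e0 < ε / 8 := by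
    obtain ⟨N, hN⟩ := exists_pow_lt_of_lt_one (show (0 : ℝ) < ε / 64 by positivity)
      (show (21 / 100 : ℝ) < 1 by norm_num)
    refine ⟨N, ?_⟩
    have h1 : (21 / 100 : ℝ) ^ 4 ^ N ≤ (21 / 100) ^ N :=
      pow_le_pow_of_le_one (by norm_num) (by norm_num) (Nat.lt_pow_self (by norm_num)).le
    linarith
  -- the small volumes
  have hfin : ∀ᶠ i in atTop, ∀ d ∈ Finset.range (j + e0 + 1),
      |mn μ (TTn μ (f i) n) (cdE μ (f i) A) d -
        mn μ (TTn μ (F k) n) (cdE μ (F k) A) d| < ε / 4 := by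
    rw [Filter.eventually_all_finset]
    intro d _
    obtain ⟨γ⟩ := exists_pq d
    have h1 := cvg_law (μ := μ) hA hF h k (n + d) (fun U => A (fun e => U (blk γ e)))
      (cA.comp (continuous_pi fun e => continuous_apply _))
    have h2 := (Metric.tendsto_nhds.1 h1) (ε / 4) (by positivity)
    filter_upwards [h2] with i h3
    rw [Real.dist_eq] at h3
    rw [← hE2 (f i) (hfA i) d γ, ← hE2 (F k) (hF k) d γ, ← hE1 i d γ]
    exact h3
  filter_upwards [hSf, hfin] with i h1 h2 d γ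
  rw [hE1, hE2 (f i) (hfA i), hE2 (F k) (hF k)]
  rcases Nat.lt_or_ge (j + e0) d with hd | hd
  · obtain ⟨L', hL'⟩ := hlim (f i) (hfA i) h1
    obtain ⟨e, rfl⟩ := Nat.exists_eq_add_of_le (show j ≤ d by omega)
    have he : e0 ≤ e := by omega
    have g1 := hL' e
    have g2 := hL' e0
    have g3 := hL e
    have g4 := hL e0
    have g5 := h2 (j + e0) (Finset.mem_range.2 (by omega))
    have g6 : (21 / 100 : ℝ) ^ 4 ^ e ≤ (21 / 100) ^ 4 ^ e0 :=
      pow_le_pow_of_le_one (by norm_num) (by norm_num) (Nat.pow_le_pow_right (by norm_num) he)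
    rw [abs_le] at g1 g2 g3 g4
    rw [abs_lt] at g5 ⊢
    constructor <;> linarith [g1.1, g1.2, g2.1, g2.2, g3.1, g3.2, g4.1, g4.2, g5.1, g5.2]
  · have g := h2 d (Finset.mem_range.2 (by omega))
    linarith

end

end Pool.Agent.N991.MK
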