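import Mathlib
import Pool.Agent.N991.MK.Cvg1
import Pool.Agent.N989.MK.Fam5

/-!
# The infinite volume limit and the convergence in law, for the theories of the family
-/

open MeasureTheory Pool.Agent.N989.MK Filter
open scoped Topology

namespace Pool.Agent.N991.MK

set_option linter.unusedSectionVars false

noncomputable section

variable {G : Type*} [Group G] [TopologicalSpace G] [IsTopologicalGroup G] [CompactSpace G]
  [MeasurableSpace G] [BorelSpace G] [SecondCountableTopology G]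
  {μ : Measure G} [IsProbabilityMeasure μ] [μ.IsHaarMeasure] [μ.IsMulRightInvariant]
  [μ.IsInvInvariant]

lemma Sm_of_near {e : ℝ} {Z : G → ℝ} (h1 : ∫ x, Z x ∂μ = 1) (h : ∀ x, |Z x - 1| < e) :
    Sm μ e Z := fun x => by
  rw [h1, mul_one]
  exact (h x).le

/-- the effective weights of the large scales are almost constant -/
lemma sm_large {n : ℕ} {D : ED G n} {m : ℕ} (hg : Gen D m 1) {F : ℤ → G → ℝ}
    (hA : ∀ k, Adm (F k)) (h1 : ∀ k, ∫ x, F k x ∂μ = 1)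
    (hr : ∀ (k : ℤ) (j : ℕ), nrm μ (TTn μ (F k) j) = F (k + j)) {K : ℝ} (hK : 0 ≤ K)
    (hs : SC D K (F 0)) {e : ℝ} (he : 0 < e) :
    ∃ M : ℕ, ∀ k : ℤ, (M : ℤ) ≤ k → Sm μ e (F k) := by
  obtain ⟨M, hM⟩ := unif_small (μ := μ) hg hK he
  refine ⟨M, fun k hk => Sm_of_near (h1 k) fun x => ?_⟩
  have h2 := hM _ (hA 0) hs k.toNat (by omega) x
  rw [hr 0 k.toNat] at h2
  have e : (0 + (k.toNat : ℤ)) = k := by omega
  rwa [e] at h2

/-- **The infinite volume limit of the gauge invariant observables** -/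
theorem theory_vol {n : ℕ} {D : ED G n} {m : ℕ} (hg : Gen D m 1) {F : ℤ → G → ℝ}
    (hA : ∀ k, Adm (F k)) (h1 : ∀ k, ∫ x, F k x ∂μ = 1)
    (hr : ∀ (k : ℤ) (j : ℕ), nrm μ (TTn μ (F k) j) = F (k + j)) {K : ℝ} (hK : 0 ≤ K)
    (hs : SC D K (F 0)) :
    ∃ C c : ℝ, 0 < c ∧ ∀ (k : ℤ) (m : ℕ) (A : (Ed m → G) → ℝ), Continuous A → GaugeInv A →
      (∀ U, |A U| ≤ 1) → ∃ L : ℝ, ∀ (d : ℕ) (β : Pq d),
        |Ex μ (F k) (m + d) (fun U => A (fun e => U (blk β e))) - L| ≤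
          C * Real.exp (-(c * (4 : ℝ) ^ (k + m + d))) := by
  obtain ⟨M, hM⟩ := sm_large hg hA h1 hr hK hs (e := 1 / 10) (by norm_num)
  refine ⟨8, (4 : ℝ) ^ (-(M : ℤ)), by positivity, fun k m A cA gA bA => ?_⟩
  obtain ⟨L, -, hL⟩ := vol_traj hA hr (hM M le_rfl) k m A cA gA bA
  exact ⟨L, hL⟩

/-- the constant weight -/
lemma adm_one : Adm (fun _ : G => (1 : ℝ)) :=
  ⟨continuous_const, fun _ => one_pos, fun _ _ => rfl, fun _ => rfl⟩

lemma TTn_one (j : ℕ) : TTn μ (fun _ : G => (1 : ℝ)) j = fun _ => 1 := by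
  induction j with
  | zero => rfl
  | succ j ih =>
    have h : TTn μ (fun _ : G => (1 : ℝ)) (j + 1) = TT μ (TTn μ (fun _ => 1) j) := rfl
    rw [h, ih]
    funext x
    unfold Pool.Agent.N989.MK.TT Pool.Agent.N989.MK.H4 Pool.Agent.N991.MK.conv
    simp

lemma nrm_one : nrm μ (fun _ : G => (1 : ℝ)) = fun _ => 1 := by
  funext x
  unfold Pool.Agent.N989.MK.nrm
  simp

variable {Zs : ℕ → G → ℝ} {lv : ℕ → ℕ}

/-- the convergence of the gauge invariant observables, without normalisation -/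
theorem cvg_vol' {F : ℤ → G → ℝ} (hA : ∀ i, Adm (Zs i)) (hF : ∀ k, Adm (F k))
    (hr : ∀ (k : ℤ) (j : ℕ), nrm μ (TTn μ (F k) j) = F (k + j))
    (hl : Tendsto lv atTop atTop)
    (h : ∀ k : ℤ, UT (fun i x => nrm μ (TTn μ (Zs i) ((lv i : ℤ) + k).toNat) x) (F k))
    (hs : ∀ k : ℤ, ∃ j : ℕ, Sm μ (1 / 20) (F (k + j)))
    (k : ℤ) (n : ℕ) (A : (Ed n → G) → ℝ) (cA : Continuous A) (gA : GaugeInv A)
    (ε : ℝ) (hε : 0 < ε) :
    ∀ᶠ i in atTop, ∀ (d : ℕ) (γ : Pq d),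
      |Ex μ (Zs i) (((lv i : ℤ) + k).toNat + (n + d)) (fun U => A (fun e => crs U (blk γ e))) -
        Ex μ (F k) (n + d) (fun U => A (fun e => U (blk γ e)))| < ε := by
  obtain ⟨M, hM⟩ := (isCompact_range cA.abs).bddAbove
  obtain ⟨B, hB⟩ : ∃ B : ℝ, B = max M 1 := ⟨_, rfl⟩
  have hB0 : 0 < B := by rw [hB]; exact lt_max_of_lt_right one_pos
  have hb : ∀ U, |A U| ≤ B := fun U => by
    rw [hB]
    exact (hM ⟨U, rfl⟩).trans (le_max_left _ _)
  have h1 := cvg_vol (μ := μ) hA hF hr hl h hs k n (fun U => B⁻¹ * A U)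
    (continuous_const.mul cA) (fun a b hab U => by beta_reduce; rw [gA a b hab])
    (fun U => by
      rw [abs_mul, abs_of_pos (inv_pos.2 hB0), inv_mul_le_iff₀ hB0, mul_one]
      exact hb U) (ε := ε / B) (by positivity)
  have hlin : ∀ (w : G → ℝ) (j : ℕ) (O : (Ed j → G) → ℝ),
      Ex μ w j (fun U => B⁻¹ * O U) = B⁻¹ * Ex μ w j O := by
    intro w j O
    unfold Ex
    have e : ∀ U : Ed j → G, B⁻¹ * O U * wt w U = B⁻¹ * (O U * wt w U) := fun U => by ring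
    simp only [e]
    rw [integral_const_mul, mul_div_assoc]
  filter_upwards [h1] with i h2 d γ
  have h3 := h2 d γ
  rw [hlin (Zs i) _ (fun U => A (fun e => crs U (blk γ e))),
    hlin (F k) _ (fun U => A (fun e => U (blk γ e))), ← mul_sub, abs_mul,
    abs_of_pos (inv_pos.2 hB0), inv_mul_lt_iff₀ hB0] at h3
  have e : B * (ε / B) = ε := by field_simp
  rwa [e] at h3

/-- the case of the trivial limit -/
theorem cvg_vol_one (hA : ∀ i, Adm (Zs i)) (hl : Tendsto lv atTop atTop)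
    (h : ∀ k : ℤ, UT (fun i x => nrm μ (TTn μ (Zs i) ((lv i : ℤ) + k).toNat) x)
      (fun _ : G => (1 : ℝ)))
    (k : ℤ) (n : ℕ) (A : (Ed n → G) → ℝ) (cA : Continuous A) (gA : GaugeInv A)
    (ε : ℝ) (hε : 0 < ε) :
    ∀ᶠ i in atTop, ∀ (d : ℕ) (γ : Pq d),
      |Ex μ (Zs i) (((lv i : ℤ) + k).toNat + (n + d)) (fun U => A (fun e => crs U (blk γ e))) -
        Ex μ (fun _ : G => (1 : ℝ)) (n + d) (fun U => A (fun e => U (blk γ e)))| < ε :=
  cvg_vol' (F := fun _ _ => 1) hA (fun _ => adm_one)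
    (fun _ j => by rw [TTn_one, nrm_one]) hl h
    (fun _ => ⟨0, Sm_of_near (by simp) fun x => by norm_num⟩) k n A cA gA ε hε

end

end Pool.Agent.N991.MK
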