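import Mathlib
import Pool.Agent.N991.MK.IVol2
import Pool.Agent.N109.T3.Defs

/-!
# The infinite volume limit with arbitrary boundary values
-/

open MeasureTheory Pool.Agent.N989.MK Filter
open scoped Topology

namespace Pool.Agent.N991.MK

set_option linter.unusedSectionVars false

noncomputable section

variable {G : Type*} [Group G] [TopologicalSpace G] [IsTopologicalGroup G] [CompactSpace G]
  [MeasurableSpace G] [BorelSpace G] [SecondCountableTopology G]
  {μ : Measure G} [IsProbabilityMeasure μ] [μ.IsHaarMeasure] [μ.IsMulRightInvariant]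
  [μ.IsInvInvariant] {Z : G → ℝ}

/-- the numerator of the conditional expectation of a function of a block -/
lemma Ib_one (hZ : Adm Z) {m j : ℕ} (β : Pq j) {A : (Ed m → G) → ℝ}
    (hA : Continuous A) (gA : GaugeInv A) (bA : ∀ U, |A U| ≤ 1) (V : BE (m + j) → G) :
    Ib μ (fun U : Ed (m + j) → G => A (fun e => U (blk β e)) * wt Z U) V =
      WF μ (TTn μ Z m) j (ins1 β (cdE μ Z A)) (Pool.Agent.N989.MK.lp V) := by
  classical
  obtain ⟨W, hW⟩ : ∃ W : Pq j → (Ed m → G) → ℝ, W = fun γ u =>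
    (if γ = β then A u else 1) * wt Z u := ⟨_, rfl⟩
  have hwc : Continuous fun U : Ed m → G => wt Z U := wt_cont hZ.cont
  have hWc : ∀ γ, Continuous (W γ) := by
    intro γ
    rw [hW]
    refine Continuous.mul ?_ hwc
    by_cases h : γ = β
    · simpa only [h, if_true] using hA
    · simpa only [h, if_false] using continuous_const
  have hAd := hZ.TTn (μ := μ) m
  have iA := ins1_ins β (cdE_cont (μ := μ) hZ hA) (cdE_cls hZ hA gA) (cdE_le hZ hA bA)
  have hI : ∀ γ V, Ib μ (W γ) V = TTn μ Z m (Pool.Agent.N989.MK.lp V) *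
      ins1 β (cdE μ Z A) γ (Pool.Agent.N989.MK.lp V) := by
    intro γ V
    unfold ins1
    by_cases h1 : γ = β
    · rw [if_pos h1, ← Ib_cdE hZ hA gA]
      congr 1
      rw [hW]
      funext u
      beta_reduce
      rw [if_pos h1]
    · rw [if_neg h1, mul_one, ← Ib_wt hZ]
      congr 1
      rw [hW]
      funext u
      beta_reduce
      rw [if_neg h1, one_mul]
  have hw1 : ∀ γ, Continuous fun x => TTn μ Z m x * ins1 β (cdE μ Z A) γ x := fun γ =>
    hAd.cont.mul (iA.c γ)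
  have hw2 : ∀ γ, Cls fun x => TTn μ Z m x * ins1 β (cdE μ Z A) γ x := fun γ g x => by
    have h3 := iA.l γ g x
    beta_reduce
    rw [hAd.cls, h3]
  have h2 : (fun U : Ed (m + j) → G => A (fun e => U (blk β e)) * wt Z U) = wB W := by
    funext U
    rw [wt_blk Z j U]
    unfold wB
    rw [hW]
    beta_reduce
    rw [Finset.prod_mul_distrib]
    congr 1
    rw [Finset.prod_eq_single β (fun γ _ h => if_neg h) (fun h => absurd (Finset.mem_univ _) h),
      if_pos rfl]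
  rw [h2]
  exact Ib_wB j hWc hw1 hw2 hI V

/-- the conditional expectation of a function of a block -/
lemma CE_blk (hZ : Adm Z) {m j : ℕ} (β : Pq j) {A : (Ed m → G) → ℝ}
    (hA : Continuous A) (gA : GaugeInv A) (bA : ∀ U, |A U| ≤ 1) (V : BE (m + j) → G) :
    Pool.Agent.N109.T3.CE μ Z (m + j) V (fun U => A (fun e => U (blk β e))) =
      WF μ (TTn μ Z m) j (ins1 β (cdE μ Z A)) (Pool.Agent.N989.MK.lp V) /
        TTn μ (TTn μ Z m) j (Pool.Agent.N989.MK.lp V) := by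
  have h1 : Zb μ Z (m + j) V = TTn μ (TTn μ Z m) j (Pool.Agent.N989.MK.lp V) := by
    rw [← TTn_add]
    exact Ib_wt hZ V
  unfold Pool.Agent.N109.T3.CE
  rw [h1]
  congr 1
  exact Ib_one hZ β hA gA bA V

variable {M h : G → ℝ}

/-- the influence of the boundary values -/
lemma bd_step (hM : Adm M) (hh : Continuous h) (hc : Cls h) (hb : ∀ x, |h x| ≤ 1) {a : ℝ}
    (ha : a ≤ 1 / 10) {n : ℕ} (hs : Sm μ a (TTn μ M n)) (β : Pq (n + 1)) (x : G) :
    |WF μ M (n + 1) (ins1 β h) x / TTn μ M (n + 1) x - mn μ M h n| ≤ 12 * a := by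
  obtain ⟨p⟩ := exists_pq n
  have hA := hM.TTn (μ := μ) n
  have hA1 := hM.TTn (μ := μ) (n + 1)
  have hβ : WF μ M (n + 1) (ins1 β h) =
      WF μ M (n + 1) (ins1 (show Pq (n + 1) from (0, 0, p)) h) := by
    rw [Pool.Agent.N838.T3.WF_ins hM hh hc (n + 1) β,
      Pool.Agent.N838.T3.WF_ins hM hh hc (n + 1) (show Pq (n + 1) from (0, 0, p))]
  have iF : Ins (ins1 (show Pq (n + 1) from (0, 0, p)) h) := ins1_ins _ hh hc hb
  have hout : ∀ s r : Fin 4, ¬ (s = 0 ∧ r = 0) → ∀ (p' : Pq n) (x : G),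
      ins1 (show Pq (n + 1) from (0, 0, p)) h (show Pq (n + 1) from (s, r, p')) x = 1 :=
    fun s r hsr p' x => Pool.Agent.N838.T3.ins1_out hsr p p' h x
  have h1 := block_dec (μ := μ) hM iF ha hs fun s => ⟨1, fun p' x =>
    hout s 1 (fun hh => absurd hh.2 (by decide)) p' x⟩
  have hin : (∏ s : Fin 4, ∏ r : Fin 4, (∫ y, WF μ M n (fun p' : Pq n =>
      ins1 (show Pq (n + 1) from (0, 0, p)) h (show Pq (n + 1) from (s, r, p'))) y ∂μ) /
      ∫ y, TTn μ M n y ∂μ) = mn μ M h n := by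
    rw [prod_single (f := fun s r => (∫ y, WF μ M n (fun p' : Pq n =>
      ins1 (show Pq (n + 1) from (0, 0, p)) h (show Pq (n + 1) from (s, r, p'))) y ∂μ) /
      ∫ y, TTn μ M n y ∂μ) 0 0 (fun s r hsr => by
        rw [WF_one n _ (hout s r hsr)]
        exact div_self (hA.ipos (μ := μ)).ne'), Pool.Agent.N838.T3.ins1_in, ← mn_eq hM hh hc p]
  have h3 := h1 x
  rw [hin] at h3
  rw [hβ]
  exact ratio_bd (hA1.pos x) h3

/-- **The infinite volume limit of all gauge invariant observables, with free and with arbitrary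
boundary values, along a two-sided trajectory** -/
theorem vol_bd {F : ℤ → G → ℝ} (hA : ∀ k, Adm (F k))
    (hr : ∀ (k : ℤ) (j : ℕ), nrm μ (TTn μ (F k) j) = F (k + j)) {k1 : ℤ}
    (hs : Sm μ (1 / 10) (F k1)) (k : ℤ) (m : ℕ) (A : (Ed m → G) → ℝ)
    (cA : Continuous A) (gA : GaugeInv A) (bA : ∀ U, |A U| ≤ 1) :
    ∃ L : ℝ, ∀ (d : ℕ) (β : Pq d),
      |Ex μ (F k) (m + d) (fun U => A (fun e => U (blk β e))) - L| ≤
        14 * Real.exp (-((4 : ℝ) ^ (-k1 - 1) * (4 : ℝ) ^ (k + m + d))) ∧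
      (1 ≤ d → ∀ V : BE (m + d) → G,
        |Pool.Agent.N109.T3.CE μ (F k) (m + d) V (fun U => A (fun e => U (blk β e))) - L| ≤
          14 * Real.exp (-((4 : ℝ) ^ (-k1 - 1) * (4 : ℝ) ^ (k + m + d)))) := by
  -- the deviations
  have hS : ∀ l i : ℕ, k + i = k1 + l →
      Sm μ (10 / 21 * (21 / 100 : ℝ) ^ 4 ^ l) (TTn μ (F k) i) := by
    intro l i h
    refine Sm_nrm ((hA k).TTn i) ?_
    rw [hr k i, h, ← hr k1 l]
    exact Sm_nrm' ((hA k1).TTn l) (hs.TTn (hA k1) l)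
  obtain ⟨n, l0, hn, hnl⟩ : ∃ n l0 : ℕ, k + m + n = k1 + l0 ∧ (n = 0 ∨ l0 = 0) := by
    rcases le_total k1 (k + m) with h | h
    · exact ⟨0, (k + m - k1).toNat, by rw [Int.toNat_of_nonneg (by omega)]; push_cast; ring,
        Or.inl rfl⟩
    · exact ⟨(k1 - (k + m)).toNat, 0, by rw [Int.toNat_of_nonneg (by omega)]; push_cast; ring,
        Or.inr rfl⟩
  have hM := (hA k).TTn (μ := μ) m
  have hq0 : (0 : ℝ) < (21 / 100) ^ 4 ^ l0 := by positivity
  have hq : ((21 / 100 : ℝ)) ^ 4 ^ l0 ≤ 21 / 100 := by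
    calc ((21 / 100 : ℝ)) ^ 4 ^ l0 ≤ (21 / 100) ^ 1 :=
          pow_le_pow_of_le_one (by norm_num) (by norm_num) (Nat.one_le_pow _ _ (by norm_num))
      _ = _ := pow_one _
  have hpow : ∀ e : ℕ, ((21 / 100 : ℝ) ^ 4 ^ l0) ^ 4 ^ e = (21 / 100) ^ 4 ^ (l0 + e) := by
    intro e
    rw [← pow_mul, ← pow_add]
  have hs2 : ∀ e : ℕ, Sm μ (10 / 21 * ((21 / 100 : ℝ) ^ 4 ^ l0) ^ 4 ^ e)
      (TTn μ (TTn μ (F k) m) (n + e)) := by
    intro e
    rw [hpow, ← TTn_add]
    refine hS (l0 + e) (m + (n + e)) ?_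
    push_cast
    linarith
  have hcd := cdE_cont (μ := μ) (hA k) cA
  have hcl := cdE_cls (μ := μ) (hA k) cA gA
  have hcb := cdE_le (μ := μ) (hA k) cA bA
  obtain ⟨L, hL1, hL⟩ := mn_lim (μ := μ) hM hcd hcl hcb hq0 hq hs2
  have hexp : (21 / 100 : ℝ) ≤ Real.exp (-1) := by
    have := Real.exp_one_lt_d9
    rw [Real.exp_neg, le_inv_comm₀ (by norm_num) (Real.exp_pos 1)]
    norm_num at this ⊢
    linarith
  have hpw : ∀ i : ℕ, ((21 / 100 : ℝ)) ^ 4 ^ i ≤ Real.exp (-(4 : ℝ) ^ i) := fun i => by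
    calc ((21 / 100 : ℝ)) ^ 4 ^ i ≤ (Real.exp (-1)) ^ 4 ^ i :=
          pow_le_pow_left₀ (by norm_num) hexp _
      _ = Real.exp (-(4 : ℝ) ^ i) := by
          rw [← Real.exp_nat_mul]
          congr 1
          push_cast
          ring
  have e4 : ∀ d : ℕ, (4 : ℝ) ^ (-k1 - 1) * (4 : ℝ) ^ (k + m + d) =
      (4 : ℝ) ^ (k + m + d - k1 - 1) := by
    intro d
    rw [← zpow_add₀ (by norm_num)]
    congr 1
    ring
  have hsmall : ∀ d : ℕ, (k + m + d - k1 - 1 : ℤ) ≤ 0 →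
      (2 : ℝ) ≤ 14 * Real.exp (-((4 : ℝ) ^ (-k1 - 1) * (4 : ℝ) ^ (k + m + d))) := by
    intro d hd
    rw [e4]
    have h2 : (4 : ℝ) ^ (k + m + d - k1 - 1) ≤ 1 := zpow_le_one_of_nonpos₀ (by norm_num) hd
    have h3 : Real.exp (-1) ≤ Real.exp (-(4 : ℝ) ^ (k + m + d - k1 - 1)) :=
      Real.exp_le_exp.2 (by linarith)
    linarith
  -- the free boundary values
  have hEx : ∀ (d : ℕ) (β : Pq d), Ex μ (F k) (m + d) (fun U => A (fun e => U (blk β e))) =
      mn μ (TTn μ (F k) m) (cdE μ (F k) A) d := by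
    intro d β
    rw [Ex_blk (hA k) β cA gA bA, mn_eq hM hcd hcl β]
  have hfree : ∀ (d : ℕ) (β : Pq d), |Ex μ (F k) (m + d) (fun U => A (fun e => U (blk β e))) - L| ≤
      14 * Real.exp (-((4 : ℝ) ^ (-k1 - 1) * (4 : ℝ) ^ (k + m + d))) := by
    intro d β
    rcases Nat.lt_or_ge d n with h | h
    · have hl0 : l0 = 0 := by
        rcases hnl with h0 | h0
        · omega
        · exact h0
      have h1 : |mn μ (TTn μ (F k) m) (cdE μ (F k) A) d| ≤ 1 := mn_le hM hcd hcl hcb β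
      refine le_trans ?_ (hsmall d (by
        have h3 : (d : ℤ) < n := by exact_mod_cast h
        subst hl0
        push_cast at hn
        linarith))
      rw [hEx]
      refine (abs_sub _ _).trans ?_
      linarith
    · obtain ⟨e, rfl⟩ := Nat.exists_eq_add_of_le h
      rw [hEx]
      refine (hL e).trans ?_
      rw [hpow, e4]
      have e5 : (k + m + ((n + e : ℕ) : ℤ) - k1 - 1) = ((l0 + e : ℕ) : ℤ) - 1 := by
        push_cast
        linarith
      rw [e5]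
      have h6 : (4 : ℝ) ^ (((l0 + e : ℕ) : ℤ) - 1) ≤ 4 ^ (l0 + e) := by
        rw [← zpow_natCast]
        exact zpow_le_zpow_right₀ (by norm_num) (by omega)
      have h7 : Real.exp (-(4 : ℝ) ^ (l0 + e)) ≤
          Real.exp (-(4 : ℝ) ^ (((l0 + e : ℕ) : ℤ) - 1)) := Real.exp_le_exp.2 (by linarith)
      have h8 := hpw (l0 + e)
      have h9 := Real.exp_pos (-(4 : ℝ) ^ (((l0 + e : ℕ) : ℤ) - 1))
      linarith
  refine ⟨L, fun d β => ⟨hfree d β, fun hd V => ?_⟩⟩
  have hCE := CE_blk (μ := μ) (hA k) β cA gA bA V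
  have iF : Ins (ins1 β (cdE μ (F k) A)) := ins1_ins β hcd hcl hcb
  rw [hCE]
  rcases Nat.lt_or_ge n d with h | h
  · obtain ⟨e, rfl⟩ := Nat.exists_eq_add_of_lt h
    have h1 := bd_step (μ := μ) hM hcd hcl hcb
      (a := 10 / 21 * ((21 / 100 : ℝ) ^ 4 ^ l0) ^ 4 ^ e) (by
        have h2 : ((21 / 100 : ℝ) ^ 4 ^ l0) ^ 4 ^ e ≤ ((21 / 100 : ℝ) ^ 4 ^ l0) ^ 1 :=
          pow_le_pow_of_le_one hq0.le (hq.trans (by norm_num))
            (Nat.one_le_pow _ _ (by norm_num))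
        rw [pow_one] at h2
        linarith) (hs2 e) β (Pool.Agent.N989.MK.lp V)
    have h2 := hL e
    rw [hpow] at h1 h2
    have h3 := hpw (l0 + e)
    rw [e4]
    have e5 : (k + m + ((n + e + 1 : ℕ) : ℤ) - k1 - 1) = ((l0 + e : ℕ) : ℤ) := by
      push_cast
      linarith
    rw [e5, zpow_natCast]
    have h4 := abs_sub_le
      (WF μ (TTn μ (F k) m) (n + e + 1) (ins1 β (cdE μ (F k) A)) (Pool.Agent.N989.MK.lp V) /
        TTn μ (TTn μ (F k) m) (n + e + 1) (Pool.Agent.N989.MK.lp V))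
      (mn μ (TTn μ (F k) m) (cdE μ (F k) A) (n + e)) L
    have h5 : (0 : ℝ) < (21 / 100) ^ 4 ^ (l0 + e) := by positivity
    linarith
  · rcases hnl with h0 | h0
    · omega
    · refine le_trans ?_ (hsmall d (by
        have h3 : (d : ℤ) ≤ n := by exact_mod_cast h
        subst h0
        push_cast at hn
        linarith))
      have hA1 := hM.TTn (μ := μ) d
      have h1 : |WF μ (TTn μ (F k) m) d (ins1 β (cdE μ (F k) A)) (Pool.Agent.N989.MK.lp V) /
          TTn μ (TTn μ (F k) m) d (Pool.Agent.N989.MK.lp V)| ≤ 1 := by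
        rw [abs_div, abs_of_pos (hA1.pos _), div_le_one (hA1.pos _)]
        exact WF_le hM d _ iF _
      refine (abs_sub _ _).trans ?_
      linarith

end

end Pool.Agent.N991.MK
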