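import Mathlib
import Pool.Agent.N991.MK.Cvg2
import Pool.Agent.N991.MK.IVol3

/-!
# The infinite volume limit with arbitrary boundary values, for the theories of the family
-/

open MeasureTheory Pool.Agent.N989.MK Filter
open scoped Topology

namespace Pool.Agent.N991.MK

set_option linter.unusedSectionVars false

noncomputable section

variable {G : Type*} [Group G] [TopologicalSpace G] [IsTopologicalGroup G] [CompactSpace G]
  [MeasurableSpace G] [BorelSpace G] [SecondCountableTopology G]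
  {μ : Measure G} [IsProbabilityMeasure μ] [μ.IsHaarMeasure] [μ.IsMulRightInvariant]
  [μ.IsInvInvariant]

/-- **The infinite volume limit of the gauge invariant observables, for all boundary values** -/
theorem theory_bd {n : ℕ} {D : ED G n} {m : ℕ} (hg : Gen D m 1) {F : ℤ → G → ℝ}
    (hA : ∀ k, Adm (F k)) (h1 : ∀ k, ∫ x, F k x ∂μ = 1)
    (hr : ∀ (k : ℤ) (j : ℕ), nrm μ (TTn μ (F k) j) = F (k + j)) {K : ℝ} (hK : 0 ≤ K)
    (hs : SC D K (F 0)) :
    ∃ C c : ℝ, 0 < c ∧ ∀ (k : ℤ) (m : ℕ) (A : (Ed m → G) → ℝ), Continuous A → GaugeInv A →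
      (∀ U, |A U| ≤ 1) → ∃ L : ℝ, ∀ (d : ℕ) (β : Pq d),
        |Ex μ (F k) (m + d) (fun U => A (fun e => U (blk β e))) - L| ≤
          C * Real.exp (-(c * (4 : ℝ) ^ (k + m + d))) ∧
        (1 ≤ d → ∀ V : BE (m + d) → G,
          |Pool.Agent.N109.T3.CE μ (F k) (m + d) V (fun U => A (fun e => U (blk β e))) - L| ≤
            C * Real.exp (-(c * (4 : ℝ) ^ (k + m + d)))) := by
  obtain ⟨M, hM⟩ := sm_large hg hA h1 hr hK hs (e := 1 / 10) (by norm_num)
  exact ⟨14, (4 : ℝ) ^ (-(M : ℤ) - 1), by positivity, fun k m A cA gA bA =>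
    vol_bd hA hr (hM M le_rfl) k m A cA gA bA⟩

end

end Pool.Agent.N991.MK
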