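import Mathlib
import Pool.Agent.N681.MK.Tan4
import Pool.Agent.N989.MK.Lim

/-!
# The derivative of the iterated renormalisation map with respect to a parameter
-/

open MeasureTheory Filter
open scoped Topology
open Pool.Agent.N989.MK (Adm H4 TT TTn)
open Pool.Agent.N681.MK (dcv dH4 dTT dTn fld evo)

namespace Pool.Agent.N991.MK

set_option linter.unusedSectionVars false

noncomputable section

variable {G : Type*} [Group G] [TopologicalSpace G] [IsTopologicalGroup G] [CompactSpace G]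
  [MeasurableSpace G] [BorelSpace G] [SecondCountableTopology G]
  {μ : Measure G} [IsProbabilityMeasure μ] [μ.IsHaarMeasure] [μ.IsMulRightInvariant]
  [μ.IsInvInvariant]

/-- a family with its derivative, both jointly continuous -/
structure JD (f g : ℝ → G → ℝ) : Prop where
  cf : Continuous fun p : ℝ × G => f p.1 p.2
  cg : Continuous fun p : ℝ × G => g p.1 p.2
  der : ∀ b x, HasDerivAt (fun b => f b x) (g b x) b

lemma cont_conv3 {f g : ℝ → G → ℝ} (hf : Continuous fun p : ℝ × G => f p.1 p.2)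
    (hg : Continuous fun p : ℝ × G => g p.1 p.2) :
    Continuous fun p : ℝ × G => conv μ (f p.1) (g p.1) p.2 := by
  unfold conv
  have h := continuous_parametric_integral_of_continuous (μ := μ)
    (f := fun (p : ℝ × G) (y : G) => f p.1 y * g p.1 (y⁻¹ * p.2)) (s := Set.univ) (by
      show Continuous fun q : (ℝ × G) × G => f q.1.1 q.2 * g q.1.1 (q.2⁻¹ * q.1.2)
      have h1 : Continuous fun q : (ℝ × G) × G => f q.1.1 q.2 :=
        hf.comp (by fun_prop : Continuous fun q : (ℝ × G) × G => (q.1.1, q.2))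
      have h2 : Continuous fun q : (ℝ × G) × G => g q.1.1 (q.2⁻¹ * q.1.2) :=
        hg.comp (by fun_prop : Continuous fun q : (ℝ × G) × G => (q.1.1, q.2⁻¹ * q.1.2))
      exact h1.mul h2) isCompact_univ
  simpa using h

lemma JD.conv {f g : ℝ → G → ℝ} (h : JD f g) :
    JD (fun b => conv μ (f b) (f b)) (fun b => dcv μ (f b) (g b)) := by
  have c1 : Continuous fun p : ℝ × G => Pool.Agent.N991.MK.conv μ (f p.1) (g p.1) p.2 :=
    cont_conv3 h.cf h.cg
  have c2 : Continuous fun p : ℝ × G => Pool.Agent.N991.MK.conv μ (g p.1) (f p.1) p.2 :=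
    cont_conv3 h.cg h.cf
  refine ⟨cont_conv3 h.cf h.cf, c1.add c2, fun b x => ?_⟩
  -- the integrand
  obtain ⟨F, hF⟩ : ∃ F : ℝ → G → ℝ, F = fun b y => f b y * f b (y⁻¹ * x) := ⟨_, rfl⟩
  obtain ⟨F', hF'⟩ : ∃ F' : ℝ → G → ℝ, F' = fun b y => g b y * f b (y⁻¹ * x) +
    f b y * g b (y⁻¹ * x) := ⟨_, rfl⟩
  have k1 : Continuous fun p : ℝ × G => f p.1 (p.2⁻¹ * x) :=
    h.cf.comp (by fun_prop : Continuous fun p : ℝ × G => (p.1, p.2⁻¹ * x))
  have k2 : Continuous fun p : ℝ × G => g p.1 (p.2⁻¹ * x) :=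
    h.cg.comp (by fun_prop : Continuous fun p : ℝ × G => (p.1, p.2⁻¹ * x))
  have cF : Continuous fun p : ℝ × G => F p.1 p.2 := by
    rw [hF]
    exact h.cf.mul k1
  have cF' : Continuous fun p : ℝ × G => F' p.1 p.2 := by
    rw [hF']
    exact (h.cg.mul k1).add (h.cf.mul k2)
  have hb1 : ∀ b, Continuous (F b) := fun b => cF.comp (by fun_prop : Continuous fun y : G => (b, y))
  have hb2 : ∀ b, Continuous (F' b) :=
    fun b => cF'.comp (by fun_prop : Continuous fun y : G => (b, y))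
  -- the bound
  have hK : IsCompact (Metric.closedBall b 1 ×ˢ (Set.univ : Set G)) :=
    (isCompact_closedBall b 1).prod isCompact_univ
  obtain ⟨M, hM⟩ := hK.exists_bound_of_continuousOn cF'.continuousOn
  have h1 := hasDerivAt_integral_of_dominated_loc_of_deriv_le (μ := μ) (F := F) (F' := F')
    (x₀ := b) (s := Metric.ball b 1) (bound := fun _ => M) (Metric.ball_mem_nhds b one_pos)
    (Eventually.of_forall fun b => (hb1 b).aestronglyMeasurable)
    (integrable_of_cont (hb1 b)) (hb2 b).aestronglyMeasurable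
    (Eventually.of_forall fun y b' hb' => hM (b', y)
      ⟨Metric.ball_subset_closedBall hb', Set.mem_univ _⟩)
    (integrable_const M)
    (Eventually.of_forall fun y b' _ => by
      rw [hF, hF']
      exact (h.der b' y).mul (h.der b' (y⁻¹ * x)))
  have h2 := h1.2
  have e : ∫ y, F' b y ∂μ = dcv μ (f b) (g b) x := by
    unfold dcv Pool.Agent.N991.MK.conv
    have i1 : Integrable (fun y => f b y * g b (y⁻¹ * x)) μ := integrable_of_cont
      ((h.cf.comp (by fun_prop : Continuous fun y : G => (b, y))).mul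
        (k2.comp (by fun_prop : Continuous fun y : G => (b, y))))
    have i2 : Integrable (fun y => g b y * f b (y⁻¹ * x)) μ := integrable_of_cont
      ((h.cg.comp (by fun_prop : Continuous fun y : G => (b, y))).mul
        (k1.comp (by fun_prop : Continuous fun y : G => (b, y))))
    rw [hF', add_comm, ← integral_add i2 i1]
  rw [e] at h2
  rw [hF] at h2
  exact h2

lemma JD.pow4 {f g : ℝ → G → ℝ} (h : JD f g) :
    JD (fun b x => f b x ^ 4) (fun b x => 4 * f b x ^ 3 * g b x) := by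
  refine ⟨h.cf.pow 4, (continuous_const.mul (h.cf.pow 3)).mul h.cg, fun b x => ?_⟩
  have h1 := (h.der b x).pow 4
  have e : 4 * f b x ^ 3 * g b x = ((4 : ℕ) : ℝ) * f b x ^ (4 - 1) * g b x := by norm_num
  rw [e]
  exact h1

lemma JD.TT {f g : ℝ → G → ℝ} (h : JD f g) :
    JD (fun b => TT μ (f b)) (fun b => dTT μ (f b) (g b)) := by
  have h1 := ((h.conv (μ := μ)).conv (μ := μ)).pow4
  exact h1

lemma JD.TTn {f g : ℝ → G → ℝ} (h : JD f g) : ∀ n,
    JD (fun b => TTn μ (f b) n) (fun b => dTn μ (f b) (g b) n)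
  | 0 => h
  | n + 1 => (JD.TTn h n).TT

/-- the logarithmic derivative -/
theorem JD.log {f g : ℝ → G → ℝ} (h : JD f g) (hp : ∀ b, Adm (f b)) (n : ℕ) (b : ℝ) (x : G) :
    HasDerivAt (fun b => Real.log (Pool.Agent.N989.MK.TTn μ (f b) n x /
      Pool.Agent.N989.MK.TTn μ (f b) n 1))
      (fld (Pool.Agent.N989.MK.TTn μ (f b) n) (dTn μ (f b) (g b) n) x) b := by
  have h1 := (h.TTn (μ := μ) n).der b x
  have h2 := (h.TTn (μ := μ) n).der b 1
  have p1 := fun b => ((hp b).TTn (μ := μ) n).pos x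
  have p2 := fun b => ((hp b).TTn (μ := μ) n).pos 1
  have h3 := (h1.log (p1 b).ne').sub (h2.log (p2 b).ne')
  have e : (fun b => Real.log (Pool.Agent.N989.MK.TTn μ (f b) n x /
      Pool.Agent.N989.MK.TTn μ (f b) n 1)) = (fun b => Real.log (Pool.Agent.N989.MK.TTn μ (f b) n x)) -
        fun b => Real.log (Pool.Agent.N989.MK.TTn μ (f b) n 1) := by
    funext b
    rw [Pi.sub_apply, Real.log_div (p1 b).ne' (p2 b).ne']
  rw [e]
  exact h3

/-! ### Continuous convergence of the derivatives -/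

/-- the derivative of the limit -/
theorem deriv_limit {L D : ℕ → ℝ → ℝ} {g φ : ℝ → ℝ} (hder : ∀ l s, HasDerivAt (L l) (D l s) s)
    (hL : ∀ s, Tendsto (fun l => L l s) atTop (𝓝 (g s)))
    (hD : ∀ (s : ℝ) (si : ℕ → ℝ) (li : ℕ → ℕ), Tendsto si atTop (𝓝 s) → Tendsto li atTop atTop →
      Tendsto (fun i => D (li i) (si i)) atTop (𝓝 (φ s))) :
    Continuous φ ∧ ∀ s, HasDerivAt g (φ s) s := by
  have h1 : ∀ s, Tendsto (fun p : ℕ × ℝ => D p.1 p.2) (atTop ×ˢ 𝓝 s) (𝓝 (φ s)) := by
    intro s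
    refine tendsto_of_seq_tendsto fun u hu => ?_
    exact hD s (fun i => (u i).2) (fun i => (u i).1) (tendsto_snd.comp hu) (tendsto_fst.comp hu)
  have h2 : ∀ s, Tendsto (fun l => D l s) atTop (𝓝 (φ s)) := fun s =>
    hD s (fun _ => s) (fun i => i) tendsto_const_nhds tendsto_id
  have h3 : ∀ s, ∀ ε > 0, ∀ᶠ p : ℕ × ℝ in atTop ×ˢ 𝓝 s, dist (D p.1 p.2) (φ s) < ε :=
    fun s ε hε => (Metric.tendsto_nhds.1 (h1 s)) ε hε
  have h4 : Continuous φ := by
    rw [continuous_iff_continuousAt]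
    intro s
    rw [ContinuousAt, Metric.tendsto_nhds]
    intro ε hε
    have h5 := h3 s (ε / 2) (by linarith)
    rw [Filter.Eventually, Filter.mem_prod_iff] at h5
    obtain ⟨A, hA, B, hB, hAB⟩ := h5
    filter_upwards [hB] with s' hs'
    have h6 : ∀ᶠ l in atTop, dist (D l s') (φ s) ≤ ε / 2 := by
      filter_upwards [hA] with l hl
      exact (hAB (Set.mk_mem_prod hl hs')).le
    have h7 : Tendsto (fun l => dist (D l s') (φ s)) atTop (𝓝 (dist (φ s') (φ s))) :=
      (h2 s').dist tendsto_const_nhds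
    have h8 := le_of_tendsto h7 h6
    linarith
  refine ⟨h4, fun s => ?_⟩
  have h5 : TendstoUniformlyOnFilter D φ atTop (𝓝 s) := by
    rw [Metric.tendstoUniformlyOnFilter_iff]
    intro ε hε
    have h6 := h3 s (ε / 2) (by linarith)
    have h7 : ∀ᶠ p : ℕ × ℝ in atTop ×ˢ 𝓝 s, dist (φ p.2) (φ s) < ε / 2 := by
      have h8 := (Metric.tendsto_nhds.1 (h4.tendsto s)) (ε / 2) (by linarith)
      exact (tendsto_snd.eventually h8 : ∀ᶠ p : ℕ × ℝ in atTop ×ˢ 𝓝 s, _)
    filter_upwards [h6, h7] with p k1 k2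
    have k3 := dist_triangle (φ p.2) (φ s) (D p.1 p.2)
    rw [dist_comm (φ s)] at k3
    linarith
  exact hasDerivAt_of_tendstoUniformlyOnFilter h5
    (Eventually.of_forall fun p => hder p.1 p.2) (Eventually.of_forall fun y => hL y)

end

end Pool.Agent.N991.MK
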