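import Mathlib
import Pool.Agent.N991.MK.Act1
import Pool.Agent.N109.T3.Lim

/-!
# The derivative of the expectations with respect to a parameter of the weight
-/

open MeasureTheory Filter
open scoped Topology
open Pool.Agent.N989.MK (Adm Ed Pq hol wt Ex hol_cont wt_cont part_eq)

namespace Pool.Agent.N991.MK

set_option linter.unusedSectionVars false

noncomputable section

/-- the continuity of a limit -/
theorem cont_limitZ {Z : Type*} [TopologicalSpace Z] [FirstCountableTopology Z] {D : ℕ → Z → ℝ}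
    {φ : Z → ℝ} (hD : ∀ (z : Z) (zi : ℕ → Z) (li : ℕ → ℕ), Tendsto zi atTop (𝓝 z) →
      Tendsto li atTop atTop → Tendsto (fun i => D (li i) (zi i)) atTop (𝓝 (φ z))) :
    Continuous φ := by
  have h1 : ∀ z, Tendsto (fun p : ℕ × Z => D p.1 p.2) (atTop ×ˢ 𝓝 z) (𝓝 (φ z)) := by
    intro z
    refine tendsto_of_seq_tendsto fun u hu => ?_
    exact hD z (fun i => (u i).2) (fun i => (u i).1) (tendsto_snd.comp hu) (tendsto_fst.comp hu)
  have h2 : ∀ z, Tendsto (fun l => D l z) atTop (𝓝 (φ z)) := fun z =>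
    hD z (fun _ => z) (fun i => i) tendsto_const_nhds tendsto_id
  rw [continuous_iff_continuousAt]
  intro z
  rw [ContinuousAt, Metric.tendsto_nhds]
  intro ε hε
  have h5 : ∀ᶠ p : ℕ × Z in atTop ×ˢ 𝓝 z, dist (D p.1 p.2) (φ z) < ε / 2 :=
    (Metric.tendsto_nhds.1 (h1 z)) (ε / 2) (by linarith)
  rw [Filter.Eventually, Filter.mem_prod_iff] at h5
  obtain ⟨A, hA, B, hB, hAB⟩ := h5
  filter_upwards [hB] with z' hz'
  have h6 : ∀ᶠ l in atTop, dist (D l z') (φ z) ≤ ε / 2 := by
    filter_upwards [hA] with l hl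
    exact (hAB (Set.mk_mem_prod hl hz')).le
  have h7 : Tendsto (fun l => dist (D l z') (φ z)) atTop (𝓝 (dist (φ z') (φ z))) :=
    (h2 z').dist tendsto_const_nhds
  have h8 := le_of_tendsto h7 h6
  linarith

/-- the derivative of an integral over a compact space -/
lemma hasDerivAt_intC {Z : Type*} [TopologicalSpace Z] [CompactSpace Z] [MeasurableSpace Z]
    [BorelSpace Z] {ν : Measure Z} [IsFiniteMeasure ν] {H H' : ℝ → Z → ℝ}
    (hH : ∀ b, Continuous (H b)) (hH' : Continuous fun p : ℝ × Z => H' p.1 p.2)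
    (hd : ∀ b z, HasDerivAt (fun b => H b z) (H' b z) b) (b : ℝ) :
    HasDerivAt (fun b => ∫ z, H b z ∂ν) (∫ z, H' b z ∂ν) b := by
  have hI : ∀ {g : Z → ℝ}, Continuous g → Integrable g ν :=
    fun hg => hg.integrable_of_hasCompactSupport (HasCompactSupport.of_compactSpace _)
  have hK : IsCompact (Metric.closedBall b 1 ×ˢ (Set.univ : Set Z)) :=
    (isCompact_closedBall b 1).prod isCompact_univ
  obtain ⟨M, hM⟩ := hK.exists_bound_of_continuousOn hH'.continuousOn
  have hb2 : Continuous (H' b) := hH'.comp (by fun_prop : Continuous fun z : Z => (b, z))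
  exact (hasDerivAt_integral_of_dominated_loc_of_deriv_le (μ := ν) (F := H) (F' := H')
    (x₀ := b) (s := Metric.ball b 1) (bound := fun _ => M) (Metric.ball_mem_nhds b one_pos)
    (Eventually.of_forall fun b => (hI (hH b)).aestronglyMeasurable)
    (hI (hH b)) (hI hb2).aestronglyMeasurable
    (Eventually.of_forall fun y b' hb' => hM (b', y)
      ⟨Metric.ball_subset_closedBall hb', Set.mem_univ _⟩)
    (integrable_const M)
    (Eventually.of_forall fun y b' _ => hd b' y)).2

variable {G : Type*} [Group G] [TopologicalSpace G] [IsTopologicalGroup G] [CompactSpace G]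
  [MeasurableSpace G] [BorelSpace G] [SecondCountableTopology G]
  {μ : Measure G} [IsProbabilityMeasure μ] [μ.IsHaarMeasure] [μ.IsMulRightInvariant]
  [μ.IsInvInvariant]

/-- the weight of a configuration -/
lemma JD.wt {f g : ℝ → G → ℝ} (h : JD f g) (hp : ∀ b x, f b x ≠ 0) {n : ℕ} (b : ℝ)
    (U : Ed n → G) :
    HasDerivAt (fun b => wt (f b) U)
      ((∑ p : Pq n, g b (hol U p) / f b (hol U p)) * wt (f b) U) b := by
  classical
  have h1 := HasDerivAt.fun_finsetProd (u := (Finset.univ : Finset (Pq n)))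
    (f := fun p b => f b (hol U p)) (f' := fun p => g b (hol U p)) (x := b)
    fun p _ => h.der b (hol U p)
  have e : (∑ p : Pq n, g b (hol U p) / f b (hol U p)) * Pool.Agent.N989.MK.wt (f b) U =
      ∑ p : Pq n, (∏ j ∈ Finset.univ.erase p, f b (hol U j)) • g b (hol U p) := by
    rw [Finset.sum_mul]
    refine Finset.sum_congr rfl fun p _ => ?_
    unfold Pool.Agent.N989.MK.wt
    rw [← Finset.mul_prod_erase Finset.univ (fun p => f b (hol U p)) (Finset.mem_univ p),
      smul_eq_mul]
    have := hp b (hol U p)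
    field_simp
  rw [e]
  exact h1

/-- **the derivative of the expectations** -/
theorem JD.expect {f g : ℝ → G → ℝ} (h : JD f g) (hp : ∀ b, Adm (f b)) {n : ℕ}
    {O : (Ed n → G) → ℝ} (hO : Continuous O) (b : ℝ) :
    HasDerivAt (fun b => Ex μ (f b) n O)
      (∑ p : Pq n, (Ex μ (f b) n (fun U => O U * (g b (hol U p) / f b (hol U p))) -
        Ex μ (f b) n O * Ex μ (f b) n (fun U => g b (hol U p) / f b (hol U p)))) b := by
  have hne : ∀ b x, f b x ≠ 0 := fun b x => ((hp b).pos x).ne'
  have cw : Continuous fun p : ℝ × (Ed n → G) => Pool.Agent.N989.MK.wt (f p.1) p.2 := by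
    unfold Pool.Agent.N989.MK.wt
    refine continuous_finsetProd _ fun q _ => ?_
    exact h.cf.comp (continuous_fst.prodMk ((hol_cont q).comp continuous_snd))
  have cψ : ∀ q : Pq n, Continuous fun p : ℝ × (Ed n → G) =>
      g p.1 (hol p.2 q) / f p.1 (hol p.2 q) := fun q =>
    (h.cg.comp (continuous_fst.prodMk ((hol_cont q).comp continuous_snd))).div
      (h.cf.comp (continuous_fst.prodMk ((hol_cont q).comp continuous_snd)))
      fun p => hne _ _
  have cS : Continuous fun p : ℝ × (Ed n → G) =>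
      (∑ q : Pq n, g p.1 (hol p.2 q) / f p.1 (hol p.2 q)) * Pool.Agent.N989.MK.wt (f p.1) p.2 :=
    (continuous_finsetSum _ fun q _ => cψ q).mul cw
  have cfix : ∀ {H : ℝ × (Ed n → G) → ℝ}, Continuous H → ∀ b, Continuous fun U => H (b, U) :=
    fun hH b => hH.comp (continuous_const.prodMk continuous_id)
  have hI : ∀ {g : (Ed n → G) → ℝ}, Continuous g → Integrable g (Measure.pi fun _ => μ) :=
    fun hg => hg.integrable_of_hasCompactSupport (HasCompactSupport.of_compactSpace _)
  have hden : ∀ b, 0 < ∫ U : Ed n → G, Pool.Agent.N989.MK.wt (f b) U ∂(Measure.pi fun _ => μ) := by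
    intro b
    rw [part_eq (hp b)]
    exact ((hp b).TTn (μ := μ) n).ipos
  -- the numerator and the denominator
  have d1 := hasDerivAt_intC (ν := Measure.pi fun _ : Ed n => μ)
    (H := fun b U => O U * Pool.Agent.N989.MK.wt (f b) U)
    (H' := fun b U => O U * ((∑ q : Pq n, g b (hol U q) / f b (hol U q)) *
      Pool.Agent.N989.MK.wt (f b) U)) (fun b => hO.mul (cfix cw b))
    ((hO.comp continuous_snd).mul cS) (fun b U => (h.wt hne b U).const_mul (O U)) b
  have d2 := hasDerivAt_intC (ν := Measure.pi fun _ : Ed n => μ)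
    (H := fun b U => Pool.Agent.N989.MK.wt (f b) U)
    (H' := fun b U => (∑ q : Pq n, g b (hol U q) / f b (hol U q)) *
      Pool.Agent.N989.MK.wt (f b) U) (fun b => cfix cw b) cS (fun b U => h.wt hne b U) b
  have d3 := d1.div d2 (hden b).ne'
  have e1 : ∫ U : Ed n → G, O U * ((∑ q : Pq n, g b (hol U q) / f b (hol U q)) *
      Pool.Agent.N989.MK.wt (f b) U) ∂(Measure.pi fun _ => μ) =
      ∑ q : Pq n, ∫ U : Ed n → G, O U * (g b (hol U q) / f b (hol U q)) *
        Pool.Agent.N989.MK.wt (f b) U ∂(Measure.pi fun _ => μ) := by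
    rw [← integral_finsetSum]
    · refine integral_congr_ae (Eventually.of_forall fun U => ?_)
      beta_reduce
      rw [Finset.sum_mul, Finset.mul_sum]
      exact Finset.sum_congr rfl fun q _ => by ring
    · exact fun q _ => hI ((hO.mul (cfix (cψ q) b)).mul (cfix cw b))
  have e2 : ∫ U : Ed n → G, (∑ q : Pq n, g b (hol U q) / f b (hol U q)) *
      Pool.Agent.N989.MK.wt (f b) U ∂(Measure.pi fun _ => μ) =
      ∑ q : Pq n, ∫ U : Ed n → G, (g b (hol U q) / f b (hol U q)) *
        Pool.Agent.N989.MK.wt (f b) U ∂(Measure.pi fun _ => μ) := by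
    rw [← integral_finsetSum]
    · refine integral_congr_ae (Eventually.of_forall fun U => ?_)
      beta_reduce
      rw [Finset.sum_mul]
    · exact fun q _ => hI ((cfix (cψ q) b).mul (cfix cw b))
  rw [e1, e2] at d3
  have e3 : (∑ p : Pq n, (Ex μ (f b) n (fun U => O U * (g b (hol U p) / f b (hol U p))) -
        Ex μ (f b) n O * Ex μ (f b) n (fun U => g b (hol U p) / f b (hol U p)))) =
      ((∑ q : Pq n, ∫ U : Ed n → G, O U * (g b (hol U q) / f b (hol U q)) *
        Pool.Agent.N989.MK.wt (f b) U ∂(Measure.pi fun _ => μ)) *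
        (∫ U : Ed n → G, Pool.Agent.N989.MK.wt (f b) U ∂(Measure.pi fun _ => μ)) -
      (∫ U : Ed n → G, O U * Pool.Agent.N989.MK.wt (f b) U ∂(Measure.pi fun _ => μ)) *
      (∑ q : Pq n, ∫ U : Ed n → G, (g b (hol U q) / f b (hol U q)) *
        Pool.Agent.N989.MK.wt (f b) U ∂(Measure.pi fun _ => μ))) /
      (∫ U : Ed n → G, Pool.Agent.N989.MK.wt (f b) U ∂(Measure.pi fun _ => μ)) ^ 2 := by
    unfold Pool.Agent.N989.MK.Ex
    rw [Finset.sum_mul, Finset.mul_sum, ← Finset.sum_sub_distrib, Finset.sum_div]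
    refine Finset.sum_congr rfl fun q _ => ?_
    have := (hden b).ne'
    field_simp
  rw [e3]
  exact d3

end

end Pool.Agent.N991.MK
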