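import Mathlib
import Pool.Agent.N991.MK.Gap5
import Pool.Agent.N989.MK.Model3

/-!
# The mass gap for the functions of the plaquettes
-/

open MeasureTheory Pool.Agent.N989.MK

namespace Pool.Agent.N991.MK

set_option linter.unusedSectionVars false

noncomputable section

section

variable {G : Type*} [Group G] [TopologicalSpace G] [IsTopologicalGroup G] [CompactSpace G]
  [MeasurableSpace G] [BorelSpace G] [SecondCountableTopology G]
  {μ : Measure G} [IsProbabilityMeasure μ] [μ.IsHaarMeasure] [μ.IsMulRightInvariant]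
  [μ.IsInvInvariant] {Z : G → ℝ}

/-- the plaquette of the square of level `0` -/
def p0 : Pq 0 := show Unit from ()

/-- the observable of a plaquette -/
def plq (f : G → ℝ) (U : Ed 0 → G) : ℝ := f (hol U p0)

lemma plq_cont {f : G → ℝ} (hf : Continuous f) : Continuous (plq f) := by
  unfold plq Pool.Agent.N989.MK.hol
  refine hf.comp ?_
  fun_prop

lemma plq_gauge {f : G → ℝ} (hc : Cls f) : GaugeInv (plq f) := fun a b h U => by
  unfold plq
  rw [hol_gauge h, hc]

lemma hol_elim_std (x : G) (I : IE 0 → G) :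
    hol (Sum.elim (stdV 0 x) I : Ed 0 → G) p0 = x := by
  have h := lp_stdV 0 x
  unfold Pool.Agent.N989.MK.lp sd at h
  have h2 : stdV 0 x (0, 0) * stdV 0 x (1, 0) * (stdV 0 x (2, 0))⁻¹ * (stdV 0 x (3, 0))⁻¹ = x := by
    simpa using h
  exact h2

lemma cdE_plq (hZ : Adm Z) (f : G → ℝ) : cdE μ Z (plq f) = f := by
  funext x
  unfold cdE Is Ib plq wt
  have e : ∀ I : IE 0 → G, f (hol (Sum.elim (stdV 0 x) I : Ed 0 → G) p0) *
      ∏ p : Pq 0, Z (hol (Sum.elim (stdV 0 x) I : Ed 0 → G) p) = f x * Z x := by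
    intro I
    have h1 : ∏ p : Pq 0, Z (hol (Sum.elim (stdV 0 x) I : Ed 0 → G) p) =
        Z (hol (Sum.elim (stdV 0 x) I : Ed 0 → G) p0) :=
      Fintype.prod_unique (ι := Unit) fun p => Z (hol (Sum.elim (stdV 0 x) I : Ed 0 → G) p)
    rw [h1, hol_elim_std]
  simp only [e]
  rw [integral_const]
  simp only [probReal_univ, one_smul]
  exact mul_div_cancel_right₀ _ (hZ.pos x).ne'

/-- the covariance of the functions of two plaquettes, as observables of blocks -/
lemma Cv_plq (hZ : Adm Z) {i : ℕ} {p q : Pq i} (hpq : p ≠ q) {f g : G → ℝ}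
    (hf : Continuous f) (hc : Cls f) (hb : ∀ x, |f x| ≤ 1)
    (hg : Continuous g) (hgc : Cls g) (hgb : ∀ x, |g x| ≤ 1) :
    Ex μ Z (0 + i) (fun U => plq f (fun e => U (blk p e)) * plq g (fun e => U (blk q e))) -
      Ex μ Z (0 + i) (fun U => plq f (fun e => U (blk p e))) *
        Ex μ Z (0 + i) (fun U => plq g (fun e => U (blk q e))) = Cv μ Z i p q f g := by
  rw [Cv_blk hZ hpq (plq_cont hf) (plq_gauge hc) (fun U => hb _) (plq_cont hg) (plq_gauge hgc)
    (fun U => hgb _), cdE_plq hZ, cdE_plq hZ]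
  rfl

/-- the gap for the functions of the plaquettes from the gap for the functions of blocks -/
theorem gap_plq {F : ℤ → G → ℝ} (hA : ∀ k, Adm (F k))
    (h : ∃ C c : ℝ, 0 < c ∧ ∀ (k : ℤ) (m j : ℕ) (α β : Pq j) (A B : (Ed m → G) → ℝ), α ≠ β →
      Continuous A → GaugeInv A → (∀ U, |A U| ≤ 1) →
      Continuous B → GaugeInv B → (∀ U, |B U| ≤ 1) →
      |Ex μ (F k) (m + j) (fun U => A (fun e => U (blk α e)) * B (fun e => U (blk β e))) -
        Ex μ (F k) (m + j) (fun U => A (fun e => U (blk α e))) *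
          Ex μ (F k) (m + j) (fun U => B (fun e => U (blk β e)))| ≤
        C * Real.exp (-(c * (4 : ℝ) ^ (k + m + anc j α β)))) :
    ∃ C c : ℝ, 0 < c ∧ ∀ (k : ℤ) (i : ℕ) (p q : Pq i) (f g : G → ℝ), p ≠ q →
      Continuous f → (∀ h x, f (h * x * h⁻¹) = f x) → (∀ x, |f x| ≤ 1) →
      Continuous g → (∀ h x, g (h * x * h⁻¹) = g x) → (∀ x, |g x| ≤ 1) →
      |Cv μ (F k) i p q f g| ≤ C * Real.exp (-(c * (4 : ℝ) ^ (k + anc i p q))) := by
  obtain ⟨C, c, hc0, h⟩ := h
  refine ⟨C, c, hc0, fun k i p q f g hpq hf hc hb hg hgc hgb => ?_⟩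
  have h1 := h k 0 i p q (plq f) (plq g) hpq (plq_cont hf) (plq_gauge hc) (fun U => hb _)
    (plq_cont hg) (plq_gauge hgc) (fun U => hgb _)
  rw [Cv_plq (hA k) hpq hf hc hb hg hgc hgb] at h1
  have e : (k + ((0 : ℕ) : ℤ) + (anc i p q : ℤ)) = k + anc i p q := by
    rw [Int.natCast_zero, add_zero]
  rwa [e] at h1

end

variable {N : ℕ} {G : Subgroup (Matrix.unitaryGroup (Fin N) ℂ)} [MeasurableSpace G]
  [BorelSpace G] [CompactSpace G] [SecondCountableTopology G] {μ : Measure G} [IsProbabilityMeasure μ] [μ.IsHaarMeasure]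
  [μ.IsMulRightInvariant] [μ.IsInvInvariant]

theorem old_gap {F : ℤ → G → ℝ} (h : Theory μ F) :
    ∃ C c : ℝ, 0 < c ∧ ∀ (k : ℤ) (i : ℕ) (p q : Pq i) (f g : G → ℝ), p ≠ q →
      Continuous f → (∀ h x, f (h * x * h⁻¹) = f x) → (∀ x, |f x| ≤ 1) →
      Continuous g → (∀ h x, g (h * x * h⁻¹) = g x) → (∀ x, |g x| ≤ 1) →
      |Cv μ (F k) i p q f g| ≤ C * Real.exp (-(c * (4 : ℝ) ^ (k + anc i p q))) :=
  gap_plq (fun k => ⟨h.cont k, h.pos k, h.cls k, h.sym k⟩) h.gap

end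

end Pool.Agent.N991.MK
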