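import Mathlib
import Pool.Agent.N991.MK.Act2
import Pool.Agent.N991.MK.GapOld
import Pool.Agent.N989.MK.Model3
import Pool.Agent.N109.T3.Fin

/-!
# The action principle: the renormalised field is the derivative of the theory with respect to its
parameter
-/

open MeasureTheory Matrix Filter
open scoped Matrix.Norms.Frobenius Topology
open Pool.Agent.H906R3.YM Pool.Agent.W793.YM Pool.Agent.TH618.YM Pool.Agent.N984.TW
open Pool.Agent.N989.MK (Adm TT TTn nrm UT Theory Loops LimitTheory ConvS par chr Constituent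
  SimpleGroup bw Ex Ed Pq hol WW mx)
open Pool.Agent.N681.MK (evo dTn fld)
open Pool.Agent.N109.T3 (Appr ClassPoly cp_tr bare_tr curv_tr model_op lt_adm lt_rcs lt_W1 lt_WW)

namespace Pool.Agent.N991.MK

set_option linter.unusedSectionVars false

noncomputable section

lemma free_arith {A cA j W C : ℝ} (hcA : 0 < cA) (hj : 1 ≤ j)
    (h : |1 - W - A / (cA * (j + 4 / 15 * Real.log j))| ≤ C / j ^ 2) :
    |1 - W - A / (cA * j)| ≤ (|C| + |A| / cA) * (1 + Real.log j) / j ^ 2 := by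
  have hj0 : 0 < j := by linarith
  obtain ⟨L, hL⟩ : ∃ L, L = Real.log j := ⟨_, rfl⟩
  have hL0 : 0 ≤ L := by rw [hL]; exact Real.log_nonneg hj
  rw [← hL] at h ⊢
  have hd : 0 < j + 4 / 15 * L := by positivity
  have e : 1 - W - A / (cA * j) = (1 - W - A / (cA * (j + 4 / 15 * L))) -
      A / cA * (4 / 15 * L / (j * (j + 4 / 15 * L))) := by
    field_simp
    ring
  have h1 : 4 / 15 * L / (j * (j + 4 / 15 * L)) ≤ L / j ^ 2 := by
    refine div_le_div₀ hL0 (by linarith) (by positivity) ?_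
    rw [pow_two]
    exact mul_le_mul_of_nonneg_left (by linarith) hj0.le
  have h0 : 0 ≤ 4 / 15 * L / (j * (j + 4 / 15 * L)) := by positivity
  rw [e]
  refine (abs_sub _ _).trans ?_
  rw [abs_mul, abs_div, abs_of_pos hcA, abs_of_nonneg h0]
  have h2 : |A| / cA * (4 / 15 * L / (j * (j + 4 / 15 * L))) ≤ |A| / cA * (L / j ^ 2) :=
    mul_le_mul_of_nonneg_left h1 (by positivity)
  have h3 : C / j ^ 2 ≤ |C| / j ^ 2 :=
    div_le_div_of_nonneg_right (le_abs_self C) (by positivity)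
  have h4 : (|C| + |A| / cA) * (1 + L) / j ^ 2 = |C| / j ^ 2 + |A| / cA * (L / j ^ 2) +
      (|C| * (L / j ^ 2) + |A| / cA * (1 / j ^ 2)) := by ring
  have h5 : 0 ≤ |C| * (L / j ^ 2) + |A| / cA * (1 / j ^ 2) := by positivity
  rw [h4]
  linarith

/-- uniform convergence at a convergent sequence of points -/
lemma ut_at {Y : Type*} [TopologicalSpace Y] {f : ℕ → Y → ℝ} {F : Y → ℝ}
    (h : ∀ ε : ℝ, 0 < ε → ∀ᶠ i in atTop, ∀ x, |f i x - F x| < ε) (hF : Continuous F)
    {x : ℕ → Y} {y : Y} (hx : Tendsto x atTop (𝓝 y)) :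
    Tendsto (fun i => f i (x i)) atTop (𝓝 (F y)) := by
  have h1 : Tendsto (fun i => F (x i)) atTop (𝓝 (F y)) := (hF.tendsto y).comp hx
  have h2 : Tendsto (fun i => f i (x i) - F (x i)) atTop (𝓝 0) := by
    rw [Metric.tendsto_nhds]
    intro ε hε
    filter_upwards [h ε hε] with i hi
    rw [Real.dist_eq, sub_zero]
    exact hi _
  have h3 := h2.add h1
  simpa using h3

section

variable {N n : ℕ} {G : Subgroup (UN N)} [MeasurableSpace G] [BorelSpace G] {μ : Measure G}
  [IsProbabilityMeasure μ] [μ.IsHaarMeasure]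

/-- the limit theories -/
lemma lt_of [CompactSpace G] [SecondCountableTopology G] [μ.IsMulRightInvariant]
    [μ.IsInvInvariant] {X : Fin n → Matrix (Fin N) (Fin N) ℂ} {P : Matrix (Fin N) (Fin N) ℂ} {cA : ℝ}
    (hcA : 0 < cA) {F : ℤ → G → ℝ} (hT : Theory μ F) (hL : Loops μ X P cA F) :
    LimitTheory μ X P cA (∫ x, chr P x * F 0 x ∂μ) F where
  cont := hT.cont
  pos := hT.pos
  cls := hT.cls
  sym := hT.sym
  int_one := hT.int_one
  consistent := hT.consistent
  wilson := hL.wilson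
  unit := rfl
  free := by
    obtain ⟨C, hC⟩ := hL.free
    exact ⟨_, fun j hj => free_arith hcA (by exact_mod_cast hj) (hC j hj)⟩
  area := hL.area
  gap := old_gap hT

/-- the plaquette weights as a family -/
lemma jd_bw [CompactSpace G] {S : G → ℝ} (hS : Continuous S) :
    JD (fun β => bw S β) (fun β x => S x * bw S β x) := by
  have h1 : Continuous fun p : ℝ × G => bw S p.1 p.2 := by
    unfold bw
    exact Real.continuous_exp.comp (continuous_fst.mul (hS.comp continuous_snd))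
  refine ⟨h1, (hS.comp continuous_snd).mul h1, fun b x => ?_⟩
  have h2 : HasDerivAt (fun b : ℝ => b * S x) (S x) b := by
    simpa using (hasDerivAt_id b).mul_const (S x)
  have h3 := h2.exp
  have e : S x * bw S b x = Real.exp (b * S x) * S x := by
    unfold bw
    ring
  rw [e]
  exact h3

variable [CompactSpace G] [ConnectedSpace G] [SecondCountableTopology G] [μ.IsMulRightInvariant]
  [μ.IsInvInvariant]

/-- the coupling with the parameter `s` at the scale `l` -/
def bls (cA : ℝ) (l : ℕ) (s : ℝ) : ℝ := s + (cA / 8 * l + cA / 30 * Real.log l)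

lemma bls_tendsto {cA : ℝ} (hcA : 0 < cA) {s : ℝ} {si : ℕ → ℝ} {li : ℕ → ℕ}
    (hs : Tendsto si atTop (𝓝 s)) (hl : Tendsto li atTop atTop) :
    ∀ᶠ i in atTop, max 1 (bls cA (li i) (si i)) = bls cA (li i) (si i) := by
  have h1 : Tendsto (fun i => cA / 8 * ((li i : ℕ) : ℝ)) atTop atTop :=
    (tendsto_natCast_atTop_atTop.comp hl).const_mul_atTop (by positivity)
  have h2 : Tendsto (fun i => si i + cA / 8 * ((li i : ℕ) : ℝ)) atTop atTop :=
    tendsto_atTop_add_left_of_le' atTop (s - 1)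
      (by
        have := hs.eventually (lt_mem_nhds (show s - 1 < s by linarith))
        filter_upwards [this] with i hi
        exact hi.le) h1
  filter_upwards [h2.eventually_ge_atTop 1] with i hi
  refine max_eq_right ?_
  have h3 : 0 ≤ cA / 30 * Real.log (li i) :=
    mul_nonneg (by positivity) (Real.log_natCast_nonneg _)
  unfold bls
  linarith

/-- **The action principle** -/
theorem act_principle (hG : SimpleGroup G) (B : Frame G n) {P : Matrix (Fin N) (Fin N) ℂ}
    (hP : Constituent G P) {cA : ℝ} (hcA0 : 0 < cA)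
    (hcA : ∀ x : Fin n → ℝ, ∑ a, ‖LX B x * B.X a - B.X a * LX B x‖ ^ 2 = cA * ∑ a, x a ^ 2)
    {F : ℝ → ℤ → G → ℝ} {u : ℝ → ℝ} (hT : ∀ s, LimitTheory μ B.X P cA (u s) (F s))
    (hF : ∀ (β : ℕ → ℝ) (l : ℕ → ℕ), (∀ i, 0 < β i) → Tendsto l atTop atTop → ∀ s,
      Tendsto (par cA 1 β l) atTop (𝓝 s) →
      ConvS μ (fun g : G => (trace (mx g)).re) β l (F s))
    {φ : ℝ → ℤ → G → ℝ} (hφc : ∀ s k, Continuous (φ s k))
    (hφ : ∀ (s : ℝ) (k : ℤ), UT (fun m : ℕ => evo μ (F s (-m)) (fun g : G => (trace (mx g)).re)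
      ((m : ℤ) + k).toNat) (φ s k)) :
    (∀ k, Continuous fun p : ℝ × G => F p.1 k p.2) ∧
    (∀ k, Continuous fun p : ℝ × G => φ p.1 k p.2) ∧
    ∀ s k x, HasDerivAt (fun s => Real.log (F s k x / F s k 1)) (φ s k x) s := by
  obtain ⟨S₀, hS₀⟩ : ∃ S₀ : G → ℝ, S₀ = fun g => (trace (mx g)).re := ⟨_, rfl⟩
  have hadm : ∀ s k, Adm (F s k) := fun s => lt_adm (hT s)
  -- the lattice approximations
  have key : ∀ (s : ℝ) (si : ℕ → ℝ) (li : ℕ → ℕ), Tendsto si atTop (𝓝 s) →
      Tendsto li atTop atTop →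
      (∀ β, Adm (bw S₀ β)) ∧ Continuous S₀ ∧
      (∀ k : ℤ, UT (fun i => nrm μ (TTn μ (bw S₀ (max 1 (bls cA (li i) (si i))))
        ((li i : ℤ) + k).toNat)) (F s k)) ∧
      ∀ k : ℤ, UT (fun i => evo μ (bw S₀ (max 1 (bls cA (li i) (si i)))) S₀
        ((li i : ℤ) + k).toNat) (fun x => 1 * φ s k x) := by
    intro s si li hs hl
    have hpos : ∀ i, 0 < max 1 (bls cA (li i) (si i)) :=
      fun i => lt_of_lt_of_le one_pos (le_max_left _ _)
    have hpar : Tendsto (par cA 1 (fun i => max 1 (bls cA (li i) (si i))) li) atTop (𝓝 s) := by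
      refine hs.congr' ?_
      filter_upwards [bls_tendsto hcA0 hs hl] with i hi
      unfold par
      beta_reduce
      rw [hi]
      unfold bls
      ring
    have hc := hF _ li hpos hl s hpar
    have ha : Appr μ (F s) (fun g : G => (trace (mx g)).re)
        (fun i => max 1 (bls cA (li i) (si i))) li := ⟨bare_tr, hpos, hl, hc⟩
    have h := model_op hG B hP hcA0 hcA (hadm s) (lt_rcs (hT s)) (lt_W1 hcA0 (hT s))
      (fun k => by rw [lt_WW (hT s)]; exact ((hT s).wilson k).2) (hφ s) ha cp_tr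
      (curv_tr B hG.closed)
    rw [hS₀]
    exact h
  obtain ⟨had, hcS, -, -⟩ := key 0 (fun _ => 0) (fun i => i) tendsto_const_nhds tendsto_id
  have hjd := jd_bw (G := G) hcS
  refine ⟨fun k => ?_, fun k => ?_, fun s k x => ?_⟩
  · refine cont_limitZ (D := fun (l : ℕ) (z : ℝ × G) =>
      nrm μ (TTn μ (bw S₀ (bls cA l z.1)) ((l : ℤ) + k).toNat) z.2) fun z zi li hz hl => ?_
    have hz1 : Tendsto (fun i => (zi i).1) atTop (𝓝 z.1) := (continuous_fst.tendsto z).comp hz
    have hz2 : Tendsto (fun i => (zi i).2) atTop (𝓝 z.2) := (continuous_snd.tendsto z).comp hz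
    obtain ⟨-, -, h3, -⟩ := key z.1 (fun i => (zi i).1) li hz1 hl
    have h4 := ut_at (h3 k) ((hadm z.1 k).cont) hz2
    refine h4.congr' ?_
    filter_upwards [bls_tendsto hcA0 hz1 hl] with i hi
    rw [hi]
  · refine cont_limitZ (D := fun (l : ℕ) (z : ℝ × G) =>
      evo μ (bw S₀ (bls cA l z.1)) S₀ ((l : ℤ) + k).toNat z.2) fun z zi li hz hl => ?_
    have hz1 : Tendsto (fun i => (zi i).1) atTop (𝓝 z.1) := (continuous_fst.tendsto z).comp hz
    have hz2 : Tendsto (fun i => (zi i).2) atTop (𝓝 z.2) := (continuous_snd.tendsto z).comp hz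
    obtain ⟨-, -, -, h3⟩ := key z.1 (fun i => (zi i).1) li hz1 hl
    have h4 := ut_at (h3 k) (continuous_const.mul (hφc z.1 k)) hz2
    rw [one_mul] at h4
    refine h4.congr' ?_
    filter_upwards [bls_tendsto hcA0 hz1 hl] with i hi
    rw [hi]
  · refine (deriv_limit
      (L := fun (l : ℕ) (s : ℝ) => Real.log (TTn μ (bw S₀ (bls cA l s)) ((l : ℤ) + k).toNat x /
        TTn μ (bw S₀ (bls cA l s)) ((l : ℤ) + k).toNat 1))
      (D := fun (l : ℕ) (s : ℝ) => evo μ (bw S₀ (bls cA l s)) S₀ ((l : ℤ) + k).toNat x)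
      (φ := fun s => φ s k x) (fun l s => ?_) (fun s => ?_) fun s si li hs hl => ?_).2 s
    · have h1 := hjd.log (μ := μ) had ((l : ℤ) + k).toNat (bls cA l s) x
      unfold bls at h1 ⊢
      exact h1.comp_add_const s _
    · obtain ⟨-, -, h3, -⟩ := key s (fun _ => s) (fun i => i) tendsto_const_nhds tendsto_id
      have h4 := ut_at (h3 k) ((hadm s k).cont) (tendsto_const_nhds (x := x))
      have h5 := ut_at (h3 k) ((hadm s k).cont) (tendsto_const_nhds (x := (1 : G)))
      have p1 := (hadm s k).pos 1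
      have p2 := (hadm s k).pos x
      have h6 := (h4.div h5 p1.ne').log (div_pos p2 p1).ne'
      refine h6.congr' ?_
      filter_upwards [bls_tendsto hcA0 (tendsto_const_nhds (x := s)) tendsto_id] with i hi
      have hi' : max 1 (bls cA i s) = bls cA i s := hi
      rw [Pi.div_apply, hi']
      unfold nrm
      rw [mul_div_mul_left]
      exact (inv_pos.2 ((had _).TTn (μ := μ) _).ipos).ne'
    · obtain ⟨-, -, -, h3⟩ := key s si li hs hl
      have h4 := ut_at (h3 k) (continuous_const.mul (hφc s k)) (tendsto_const_nhds (x := x))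
      rw [one_mul] at h4
      refine h4.congr' ?_
      filter_upwards [bls_tendsto hcA0 hs hl] with i hi
      rw [hi]

/-- the consequences of the action principle: the scaling of the field and the derivatives of all
the expectations -/
theorem act_conseq {F φ : ℝ → ℤ → G → ℝ} (hadm : ∀ s k, Adm (F s k))
    (h1 : ∀ k, Continuous fun p : ℝ × G => F p.1 k p.2)
    (h2 : ∀ k, Continuous fun p : ℝ × G => φ p.1 k p.2)
    (h3 : ∀ s k x, HasDerivAt (fun s => Real.log (F s k x / F s k 1)) (φ s k x) s) :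
    (∀ a : ℝ, (∀ s k, F s (k + 1) = F (s - a) k) → ∀ s k, φ s (k + 1) = φ (s - a) k) ∧
    ∀ (s : ℝ) (k : ℤ) (j : ℕ) (O : (Ed j → G) → ℝ), Continuous O →
      HasDerivAt (fun s => Ex μ (F s k) j O)
        (∑ p : Pq j, (Ex μ (F s k) j (fun U => O U * φ s k (hol U p)) -
          Ex μ (F s k) j O * Ex μ (F s k) j (fun U => φ s k (hol U p)))) s := by
  refine ⟨fun a ha s k => ?_, fun s k j O hO => ?_⟩
  · funext x
    have e : (fun s => Real.log (F s (k + 1) x / F s (k + 1) 1)) =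
        fun s => Real.log (F (s - a) k x / F (s - a) k 1) := by
      funext s
      rw [ha]
    have d1 := h3 s (k + 1) x
    have d2 := (h3 (s - a) k x).comp_sub_const s a
    rw [e] at d1
    exact d1.unique d2
  · have hF1 : ∀ s, 0 < F s k 1 := fun s => (hadm s k).pos 1
    have hR : JD (fun s x => (F s k 1)⁻¹ * F s k x)
        (fun s x => φ s k x * ((F s k 1)⁻¹ * F s k x)) := by
      have c0 : Continuous fun p : ℝ × G => F p.1 k 1 :=
        (h1 k).comp (continuous_fst.prodMk continuous_const)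
      have c1 : Continuous fun p : ℝ × G => (F p.1 k 1)⁻¹ * F p.1 k p.2 :=
        (c0.inv₀ fun p => (hF1 p.1).ne').mul (h1 k)
      refine ⟨c1, (h2 k).mul c1, fun s x => ?_⟩
      have d := (h3 s k x).exp
      have e : (fun s => Real.exp (Real.log (F s k x / F s k 1))) =
          fun s => (F s k 1)⁻¹ * F s k x := by
        funext s
        rw [Real.exp_log (div_pos ((hadm s k).pos x) (hF1 s))]
        ring
      rw [e] at d
      have e2 : Real.exp (Real.log (F s k x / F s k 1)) * φ s k x =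
          φ s k x * ((F s k 1)⁻¹ * F s k x) := by
        rw [Real.exp_log (div_pos ((hadm s k).pos x) (hF1 s))]
        ring
      rw [e2] at d
      exact d
    have hA : ∀ s, Adm (fun x => (F s k 1)⁻¹ * F s k x) := fun s =>
      (hadm s k).scale (inv_pos.2 (hF1 s))
    have h4 := hR.expect (μ := μ) hA hO s
    have hs : ∀ (s : ℝ) (O : (Ed j → G) → ℝ), Ex μ (fun x => (F s k 1)⁻¹ * F s k x) j O =
        Ex μ (F s k) j O := fun s O =>
      Pool.Agent.N109.T3.Ex_scale (inv_pos.2 (hF1 s)).ne' _ _ _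
    simp only [hs] at h4
    have hd : ∀ x, φ s k x * ((F s k 1)⁻¹ * F s k x) / ((F s k 1)⁻¹ * F s k x) = φ s k x := by
      intro x
      refine mul_div_cancel_right₀ _ ?_
      exact (mul_pos (inv_pos.2 (hF1 s)) ((hadm s k).pos x)).ne'
    simp only [hd] at h4
    exact h4

/-- every theory of the family is a limit of lattice theories with Wilson's action -/
lemma appr_of {cA : ℝ} (hcA0 : 0 < cA) {F : ℝ → ℤ → G → ℝ}
    (hF : ∀ (β : ℕ → ℝ) (l : ℕ → ℕ), (∀ i, 0 < β i) → Tendsto l atTop atTop → ∀ s,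
      Tendsto (par cA 1 β l) atTop (𝓝 s) →
      ConvS μ (fun g : G => (trace (mx g)).re) β l (F s)) (s : ℝ) :
    Appr μ (F s) (fun g : G => (trace (mx g)).re) (fun i => max 1 (bls cA i s)) fun i => i := by
  have hpos : ∀ i : ℕ, 0 < max 1 (bls cA i s) := fun i => lt_of_lt_of_le one_pos (le_max_left _ _)
  have hpar : Tendsto (par cA 1 (fun i => max 1 (bls cA i s)) fun i => i) atTop (𝓝 s) := by
    refine (tendsto_const_nhds (x := s)).congr' ?_
    filter_upwards [bls_tendsto hcA0 (tendsto_const_nhds (x := s)) tendsto_id] with i hi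
    have hi' : max 1 (bls cA i s) = bls cA i s := hi
    unfold par
    beta_reduce
    rw [hi']
    unfold bls
    ring
  exact ⟨bare_tr, hpos, tendsto_id, hF _ _ hpos tendsto_id s hpar⟩

/-- **The renormalised fields of the family of the limit theories** -/
theorem act_family (hG : SimpleGroup G) (B : Frame G n) {P : Matrix (Fin N) (Fin N) ℂ}
    (hP : Constituent G P) {cA : ℝ} (hcA0 : 0 < cA)
    (hcA : ∀ x : Fin n → ℝ, ∑ a, ‖LX B x * B.X a - B.X a * LX B x‖ ^ 2 = cA * ∑ a, x a ^ 2)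
    {F : ℝ → ℤ → G → ℝ} (hT : ∀ s, Theory μ (F s)) (hL : ∀ s, Loops μ B.X P cA (F s))
    (hF : ∀ (β : ℕ → ℝ) (l : ℕ → ℕ), (∀ i, 0 < β i) → Tendsto l atTop atTop → ∀ s,
      Tendsto (par cA 1 β l) atTop (𝓝 s) →
      ConvS μ (fun g : G => (trace (mx g)).re) β l (F s))
    {Q : (ℤ → G → ℝ) → (ℤ → G → ℝ) → Prop}
    (hQ : ∀ (u : ℝ) (F' : ℤ → G → ℝ), LimitTheory μ B.X P cA u F' → ∀ (β : ℕ → ℝ) (l : ℕ → ℕ),
      Appr μ F' (fun g : G => (trace (mx g)).re) β l → ∃ φ : ℤ → G → ℝ, Q F' φ ∧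
        (∀ k, Continuous (φ k)) ∧
        ∀ k : ℤ, UT (fun m : ℕ => evo μ (F' (-m)) (fun g : G => (trace (mx g)).re)
          ((m : ℤ) + k).toNat) (φ k)) :
    (∀ s, ∃ (β : ℕ → ℝ) (l : ℕ → ℕ), Appr μ (F s) (fun g : G => (trace (mx g)).re) β l) ∧
    ∃ φ : ℝ → ℤ → G → ℝ, (∀ s, Q (F s) (φ s)) ∧
      (∀ (s : ℝ) (k : ℤ), UT (fun m : ℕ => evo μ (F s (-m)) (fun g : G => (trace (mx g)).re)
        ((m : ℤ) + k).toNat) (φ s k)) ∧
      (∀ k, Continuous fun p : ℝ × G => φ p.1 k p.2) ∧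
      (∀ s k x, HasDerivAt (fun s => Real.log (F s k x / F s k 1)) (φ s k x) s) ∧
      (∀ a : ℝ, (∀ s k, F s (k + 1) = F (s - a) k) → ∀ s k, φ s (k + 1) = φ (s - a) k) ∧
      ∀ (s : ℝ) (k : ℤ) (j : ℕ) (O : (Ed j → G) → ℝ), Continuous O →
        HasDerivAt (fun s => Ex μ (F s k) j O)
          (∑ p : Pq j, (Ex μ (F s k) j (fun U => O U * φ s k (hol U p)) -
            Ex μ (F s k) j O * Ex μ (F s k) j (fun U => φ s k (hol U p)))) s := by
  have hlt : ∀ s, LimitTheory μ B.X P cA (∫ x, chr P x * F s 0 x ∂μ) (F s) :=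
    fun s => lt_of hcA0 (hT s) (hL s)
  have happ := appr_of hcA0 hF
  choose φ g1 g2 g3 using fun s => hQ _ (F s) (hlt s) _ _ (happ s)
  obtain ⟨h1, h2, h3⟩ := act_principle hG B hP hcA0 hcA hlt hF g2 g3
  obtain ⟨h4, h5⟩ := act_conseq (μ := μ) (fun s => lt_adm (hlt s)) h1 h2 h3
  exact ⟨fun s => ⟨_, _, happ s⟩, φ, g1, g3, h2, h3, h4, h5⟩

end

end

end Pool.Agent.N991.MK
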