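import Mathlib
import Pool.Agent.N989.MK.Model3
import Pool.Agent.N989.MK.Aux4

/-!
# The criterion for Wilson's action
-/

open MeasureTheory Matrix Filter
open scoped Matrix.Norms.Frobenius Topology
open Pool.Agent.H906R3.YM Pool.Agent.W793.YM Pool.Agent.TH618.YM Pool.Agent.N984.TW
open Pool.Agent.N989.MK

namespace Pool.Agent.N991.MK

set_option linter.unusedSectionVars false

noncomputable section

variable {N n : ℕ} {G : Subgroup (UN N)}

/-- the quartic part of an action is unique -/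
lemma quart_unique (B : Frame G n) (hG : IsClosed (G : Set (UN N))) {S : G → ℝ} {κ : ℝ}
    {q q' : (Fin n → ℝ) → ℝ} (h : Quart B.X S κ q) (h' : Quart B.X S κ q') : q = q' := by
  funext y
  have hγ : ∀ t : ℝ, mx (Eg B hG (t • y)) = NormedSpace.exp (t • ∑ a, y a • B.X a) := by
    intro t
    have e1 : mx (Eg B hG (t • y)) = mt (Eg B hG (t • y)) := rfl
    rw [e1, mt_Eg]
    unfold EM
    rw [LX_smul]
    rfl
  exact tendsto_nhds_unique (h y _ hγ) (h' y _ hγ)

variable [MeasurableSpace G] [BorelSpace G] {μ : Measure G}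

/-- the criterion of convergence for Wilson's action -/
theorem conv_tr (B : Frame G n) (hG : IsClosed (G : Set (UN N))) (hn : 0 < n)
    (hX : ∀ (a : Fin n) (t : ℝ), ∃ g : G, mx g = NormedSpace.exp (t • B.X a)) {cA : ℝ}
    {F : ℝ → ℤ → G → ℝ} {q₀ : (Fin n → ℝ) → ℝ}
    (hq₀ : Quart B.X (fun g : G => (trace (mx g)).re) 1 q₀) {κ : ℝ} {q : (Fin n → ℝ) → ℝ}
    (hκ : Curv B.X (fun g : G => (trace (mx g)).re) κ)
    (hq : Quart B.X (fun g : G => (trace (mx g)).re) κ q)
    (h : ∀ (β : ℕ → ℝ) (l : ℕ → ℕ), (∀ i, 0 < β i) → Tendsto l atTop atTop → ∀ s,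
      ConvS μ (fun g : G => (trace (mx g)).re) β l (F s) ↔ Tendsto (par cA κ β l) atTop
        (𝓝 (s + 4 / (5 * n) * (lap2 q / κ - lap2 q₀))))
    (β : ℕ → ℝ) (l : ℕ → ℕ) (hβ : ∀ i, 0 < β i) (hl : Tendsto l atTop atTop) (s : ℝ)
    (hs : Tendsto (par cA 1 β l) atTop (𝓝 s)) :
    ConvS μ (fun g : G => (trace (mx g)).re) β l (F s) := by
  have h1 : κ = 1 := curv_unique hn hX hκ (curv_tr B hG)
  subst h1
  have h2 := quart_unique B hG hq hq₀
  subst h2
  rw [h β l hβ hl s]
  simpa using hs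

end

end Pool.Agent.N991.MK
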